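import Pool.Agent.H54R2.Ul.Defs3
import Pool.Agent.H54R2.Ul.St.L1
import Pool.Agent.H54R2.Ul.St.L2
import Pool.Agent.H54R2.Ul.St.FROBCOL
import Pool.Agent.H54R2.Ul.St.DU1

namespace Pool.Agent.H54R2.Ul

open MvPolynomial

noncomputable section

variable {k K : Type} [Field k] [Field K] [Algebra k K]

/-- the `q`-th power map as a ring homomorphism -/
def CH_phi (q : ℕ) (hq : 0 < q) (hadd : ∀ x y : K, (x + y) ^ q = x ^ q + y ^ q) : K →+* K where
  toFun x := x ^ q
  map_one' := one_pow q
  map_mul' x y := mul_pow x y q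
  map_zero' := zero_pow hq.ne'
  map_add' := hadd

lemma CH_sum_pow (q : ℕ) (hq : 0 < q) (hadd : ∀ x y : K, (x + y) ^ q = x ^ q + y ^ q)
    {ι : Type} (s : Finset ι) (f : ι → K) : (∑ i ∈ s, f i) ^ q = ∑ i ∈ s, f i ^ q :=
  map_sum (CH_phi q hq hadd) f s

lemma CH_det_pow (q : ℕ) (hq : 0 < q) (hadd : ∀ x y : K, (x + y) ^ q = x ^ q + y ^ q)
    {ι : Type} [Fintype ι] [DecidableEq ι] (M : ι → ι → K) :
    Matrix.det (Matrix.of fun i j => M i j ^ q) = Matrix.det (Matrix.of M) ^ q :=
  (RingHom.map_det (CH_phi q hq hadd) (Matrix.of M)).symm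

lemma CH_R_pow (G : Fil k K) {x : K} {t : ℤ} (hx : x ∈ G.R t) (q : ℕ) :
    x ^ q ∈ G.R (q * t) := by
  induction q with
  | zero => simpa using G.one_mem
  | succ n ih =>
      rw [pow_succ]
      have h := G.mul_mem ih hx
      have e : (n : ℤ) * t + t = ((n + 1 : ℕ) : ℤ) * t := by push_cast; ring
      rwa [e] at h

lemma CH_UU_pow (G : Fil k K) (q : ℕ) (hq : 0 < q)
    (hadd : ∀ x y : K, (x + y) ^ q = x ^ q + y ^ q) {N r : ℕ} {c : Fin N → Fin r → K}
    {t : ℤ} {u : Fin r ⊕ Fin r → K} (hu : u ∈ UU G 1 c t) :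
    (fun j => u j ^ q) ∈ UU G q c (q * t) := by
  obtain ⟨h2, h1⟩ := hu
  constructor
  · intro s ξ hξ
    have h := CH_R_pow G (h2 s ξ hξ) q
    rw [CH_sum_pow q hq hadd] at h
    have e : (q : ℤ) * (t + (1 : ℕ) * s) = q * t + q * s := by push_cast; ring
    rw [e] at h
    convert h using 2
    rw [mul_pow, pow_one]
  · intro i
    have h := CH_R_pow G (h1 i) q
    rw [CH_sum_pow q hq hadd] at h
    have e : (q : ℤ) * (t + 8 * (1 : ℕ)) = q * t + 8 * q := by push_cast; ring
    rw [e] at h
    convert h using 2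
    rw [mul_pow, pow_one]

/-- the determinant as a linear function of one row -/
def CH_D {r : ℕ} (u : Fin r ⊕ Fin r → Fin r ⊕ Fin r → K) (o : Fin r ⊕ Fin r) :
    (Fin r ⊕ Fin r → K) →ₗ[K] K where
  toFun v := Matrix.det (Matrix.of (Function.update u o v))
  map_add' v w := Matrix.det_updateRow_add (Matrix.of u) o v w
  map_smul' s v := Matrix.det_updateRow_smul (Matrix.of u) o s v

lemma CH_D_apply {r : ℕ} (u : Fin r ⊕ Fin r → Fin r ⊕ Fin r → K) (o : Fin r ⊕ Fin r)
    (v : Fin r ⊕ Fin r → K) : CH_D u o v = Matrix.det (Matrix.of (Function.update u o v)) := rfl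

/-- Cramer's rule -/
lemma CH_cramer {ι : Type} [Fintype ι] [DecidableEq ι] (A : Matrix ι ι K) (v : ι → K) :
    A.det • v = ∑ i, (A.updateRow i v).det • A i := by
  have h := Matrix.mulVec_cramer A.transpose v
  rw [Matrix.det_transpose] at h
  rw [← h]
  funext j
  simp only [Matrix.mulVec, dotProduct, Matrix.transpose_apply, Finset.sum_apply, Pi.smul_apply,
    smul_eq_mul, Matrix.cramer_transpose_apply]
  exact Finset.sum_congr rfl fun i _ => mul_comm _ _


lemma CH_coords {r : ℕ} {u : Fin r ⊕ Fin r → Fin r ⊕ Fin r → K} {o : Fin r ⊕ Fin r}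
    {f : Fin r ⊕ Fin r → K} (hf : f o = 0) (w : Fin r ⊕ Fin r → K) (i : Fin r ⊕ Fin r) :
    Matrix.det (Matrix.of (Function.update (Function.update u o w) i (∑ j, f j • u j))) =
      f i * Matrix.det (Matrix.of (Function.update u o w)) := by
  have e : ∑ j, f j • u j = ∑ j, f j • (Matrix.of (Function.update u o w)) j := by
    refine Finset.sum_congr rfl fun j _ => ?_
    by_cases hj : j = o
    · subst hj; rw [hf, zero_smul, zero_smul]
    · have : (Matrix.of (Function.update u o w)) j = u j := by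
        change Function.update u o w j = u j
        rw [Function.update_of_ne hj]
      rw [this]
  rw [e]
  exact Matrix.det_updateRow_sum (Matrix.of (Function.update u o w)) i f

section main

variable (G : Geo k K) {N r : ℕ} (c : Fin N → Fin r → K) (hc : IsDatum G.toFil c)
    (q : ℕ) (hq : 0 < q) (hadd : ∀ x y : K, (x + y) ^ q = x ^ q + y ^ q)

include hc hq hadd

lemma CH_mem_det {A B t : ℤ} {o i : Fin r ⊕ Fin r} (hio : i ≠ o)
    {u : Fin r ⊕ Fin r → Fin r ⊕ Fin r → K} {w v : Fin r ⊕ Fin r → K}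
    (hu : ∀ j, u j ∈ UU G.toFil q c A) (hw : w ∈ UU G.toFil q c B)
    (hv : v ∈ UU G.toFil q c (t + A)) :
    Matrix.det (Matrix.of (Function.update (Function.update u o w) i v)) ∈
      G.R (t + ((2 * r - 1) * A + B + 8 * q * r)) := by
  have h := L1 G c hc q hq hadd
    (fun j => A + (if j = o then B - A else 0) + (if j = i then t else 0))
    (Function.update (Function.update u o w) i v) (by
      intro j
      by_cases hj : j = i
      · subst hj
        rw [Function.update_self]
        simpa [hio, add_comm] using hv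
      · rw [Function.update_of_ne hj]
        by_cases hj' : j = o
        · subst hj'
          rw [Function.update_self]
          simpa [hj] using hw
        · rw [Function.update_of_ne hj']
          simpa [hj, hj'] using hu j)
  have e : ∑ j : Fin r ⊕ Fin r, (A + (if j = o then B - A else 0) + (if j = i then t else 0)) +
      8 * q * r = t + ((2 * r - 1) * A + B + 8 * q * r) := by
    rw [Finset.sum_add_distrib, Finset.sum_add_distrib]
    simp only [Finset.sum_const, Finset.card_univ, Fintype.card_sum, Fintype.card_fin,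
      Finset.sum_ite_eq', Finset.mem_univ, if_true, nsmul_eq_mul]
    push_cast
    ring
  rw [e] at h
  exact h

lemma CH_mem_D {A t : ℤ} {o : Fin r ⊕ Fin r}
    {u : Fin r ⊕ Fin r → Fin r ⊕ Fin r → K} {v : Fin r ⊕ Fin r → K}
    (hu : ∀ j, u j ∈ UU G.toFil q c A) (hv : v ∈ UU G.toFil q c (t + A)) :
    Matrix.det (Matrix.of (Function.update u o v)) ∈
      G.R (t + (2 * r * A + 8 * q * r)) := by
  have h := L1 G c hc q hq hadd
    (fun j => A + (if j = o then t else 0)) (Function.update u o v) (by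
      intro j
      by_cases hj : j = o
      · subst hj
        rw [Function.update_self]
        simpa [add_comm] using hv
      · rw [Function.update_of_ne hj]
        simpa [hj] using hu j)
  have e : ∑ j : Fin r ⊕ Fin r, (A + (if j = o then t else 0)) + 8 * q * r =
      t + (2 * r * A + 8 * q * r) := by
    rw [Finset.sum_add_distrib]
    simp only [Finset.sum_const, Finset.card_univ, Fintype.card_sum, Fintype.card_fin,
      Finset.sum_ite_eq', Finset.mem_univ, if_true, nsmul_eq_mul]
    push_cast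
    ring
  rw [e] at h
  exact h

lemma CH_ker {A B t : ℤ} {o : Fin r ⊕ Fin r}
    {u : Fin r ⊕ Fin r → Fin r ⊕ Fin r → K} {v1 v2 v : Fin r ⊕ Fin r → K}
    (hu : ∀ j, u j ∈ UU G.toFil q c A) (hv1 : v1 ∈ UU G.toFil q c B)
    (hv2 : v2 ∈ UU G.toFil q c B)
    (hd1 : Matrix.det (Matrix.of (Function.update u o v1)) ≠ 0)
    (hL : ∀ (t : ℤ) (x : K),
        Matrix.det (Matrix.of (Function.update u o v1)) * x ∈
          G.R (t + ((2 * r - 1) * A + B + 8 * q * r)) →
        Matrix.det (Matrix.of (Function.update u o v2)) * x ∈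
          G.R (t + ((2 * r - 1) * A + B + 8 * q * r)) →
        x ∈ G.R t)
    (hv : v ∈ UU G.toFil q c (t + A))
    (hD : Matrix.det (Matrix.of (Function.update u o v)) = 0) :
    ∃ f : Fin r ⊕ Fin r → K, f o = 0 ∧ (∀ i, f i ∈ G.R t) ∧ v = ∑ j, f j • u j := by
  set d1 := Matrix.det (Matrix.of (Function.update u o v1)) with hd1def
  have hcr := CH_cramer (Matrix.of (Function.update u o v1)) v
  rw [← hd1def] at hcr
  set g : Fin r ⊕ Fin r → K := fun i =>
    ((Matrix.of (Function.update u o v1)).updateRow i v).det with hgdef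
  have hgo : g o = 0 := by
    have e : (Matrix.of (Function.update u o v1)).updateRow o v =
        Matrix.of (Function.update u o v) := by
      change Matrix.of (Function.update (Function.update u o v1) o v) = _
      rw [Function.update_idem]
    change ((Matrix.of (Function.update u o v1)).updateRow o v).det = 0
    rw [e, hD]
  have hv' : v = ∑ j, (d1⁻¹ * g j) • u j := by
    have h1 : d1 • v = ∑ j, g j • u j := by
      rw [hcr]
      refine Finset.sum_congr rfl fun j _ => ?_
      by_cases hj : j = o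
      · subst hj
        rw [hgo]
        have : ((Matrix.of (Function.update u j v1)).updateRow j v).det = 0 := hgo
        rw [this, zero_smul, zero_smul]
      · have : (Matrix.of (Function.update u o v1)) j = u j := by
          change Function.update u o v1 j = u j
          rw [Function.update_of_ne hj]
        rw [this]
    calc v = d1⁻¹ • (d1 • v) := by rw [smul_smul, inv_mul_cancel₀ hd1, one_smul]
      _ = _ := by rw [h1, Finset.smul_sum]; exact Finset.sum_congr rfl fun j _ => by rw [smul_smul]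
  have hfo : d1⁻¹ * g o = 0 := by rw [hgo, mul_zero]
  refine ⟨fun j => d1⁻¹ * g j, hfo, ?_, hv'⟩
  intro i
  by_cases hio : i = o
  · subst hio
    change d1⁻¹ * g i ∈ G.R t
    rw [hfo]; exact Submodule.zero_mem _
  · change d1⁻¹ * g i ∈ G.R t
    apply hL t
    · have h1 := CH_mem_det G c hc q hq hadd hio hu hv1 hv
      have h2 := CH_coords (u := u) (o := o) (f := fun j => d1⁻¹ * g j) hfo v1 i
      rw [← hv'] at h2
      rw [h2] at h1
      rw [mul_comm _ (d1⁻¹ * g i)]
      exact h1
    · have h1 := CH_mem_det G c hc q hq hadd hio hu hv2 hv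
      have h2 := CH_coords (u := u) (o := o) (f := fun j => d1⁻¹ * g j) hfo v2 i
      rw [← hv'] at h2
      rw [h2] at h1
      rw [mul_comm _ (d1⁻¹ * g i)]
      exact h1

omit hc hq hadd in
/-- combinations of the rows different from `o` -/
def CH_Phi (u : Fin r ⊕ Fin r → Fin r ⊕ Fin r → K) (o : Fin r ⊕ Fin r) (t : ℤ) :
    ({i : Fin r ⊕ Fin r // i ≠ o} → G.R t) →ₗ[k] (Fin r ⊕ Fin r → K) where
  toFun f := ∑ i, (f i : K) • u i.1
  map_add' f g := by
    rw [← Finset.sum_add_distrib]
    exact Finset.sum_congr rfl fun i _ => by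
      rw [Pi.add_apply, Submodule.coe_add, add_smul]
  map_smul' s f := by
    rw [Finset.smul_sum]
    exact Finset.sum_congr rfl fun i _ => by
      rw [Pi.smul_apply, Submodule.coe_smul, smul_assoc, RingHom.id_apply]

lemma CH_main {A B : ℤ} {o : Fin r ⊕ Fin r}
    {u : Fin r ⊕ Fin r → Fin r ⊕ Fin r → K} {v1 v2 : Fin r ⊕ Fin r → K}
    (hu : ∀ j, u j ∈ UU G.toFil q c A) (hv1 : v1 ∈ UU G.toFil q c B)
    (hv2 : v2 ∈ UU G.toFil q c B)
    (hd1 : Matrix.det (Matrix.of (Function.update u o v1)) ≠ 0)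
    (hL : ∀ (t : ℤ) (x : K),
        Matrix.det (Matrix.of (Function.update u o v1)) * x ∈
          G.R (t + ((2 * r - 1) * A + B + 8 * q * r)) →
        Matrix.det (Matrix.of (Function.update u o v2)) * x ∈
          G.R (t + ((2 * r - 1) * A + B + 8 * q * r)) →
        x ∈ G.R t) (t : ℤ) :
    (Module.finrank k (UU G.toFil q c (t + A)) : ℤ) =
      (2 * r - 1) * Module.finrank k (G.R t) +
        Module.finrank k
          ((UU G.toFil q c (t + A)).map ((CH_D u o).restrictScalars k)) := by
  obtain ⟨-, -, hfinU, -, -, -, hmulU, -, -, -⟩ := DU1 G c hc q hq hadd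
  have := hfinU (t + A)
  have := G.fin_dim t
  set U := UU G.toFil q c (t + A) with hU
  have hrn := LinearMap.finrank_range_add_finrank_ker (((CH_D u o).restrictScalars k).domRestrict U)
  rw [LinearMap.range_domRestrict] at hrn
  -- the kernel
  have hmem : ∀ f : {i : Fin r ⊕ Fin r // i ≠ o} → G.R t, CH_Phi G u o t f ∈ U := by
    intro f
    change ∑ i : {i : Fin r ⊕ Fin r // i ≠ o}, (f i : K) • u i.1 ∈ U
    refine Submodule.sum_mem _ fun i _ => ?_
    exact hmulU t A _ _ (f i).2 (hu i.1)
  have hext : ∀ f : {i : Fin r ⊕ Fin r // i ≠ o} → G.R t, CH_Phi G u o t f =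
      ∑ j, (if h : j ≠ o then ((f ⟨j, h⟩ : G.R t) : K) else 0) • u j := by
    intro f
    have e1 := Finset.sum_subtype (p := fun j => j ≠ o) (F := inferInstance) (Finset.univ.filter (fun j => j ≠ o))
      (by intro x; simp)
      (fun j => (if h : j ≠ o then ((f ⟨j, h⟩ : G.R t) : K) else 0) • u j)
    have e2 : ∑ j ∈ Finset.univ.filter (fun j => j ≠ o),
        (if h : j ≠ o then ((f ⟨j, h⟩ : G.R t) : K) else 0) • u j =
        ∑ j, (if h : j ≠ o then ((f ⟨j, h⟩ : G.R t) : K) else 0) • u j := by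
      apply Finset.sum_subset (Finset.filter_subset _ _)
      intro j _ hj
      have : ¬ j ≠ o := by simpa using hj
      rw [dif_neg this, zero_smul]
    rw [← e2, e1]
    change ∑ i, (f i : K) • u i.1 = _
    refine Finset.sum_congr rfl fun i _ => ?_
    rw [dif_pos i.2]
  have hcoo : ∀ f : {i : Fin r ⊕ Fin r // i ≠ o} → G.R t, ∀ w : Fin r ⊕ Fin r → K,
      ∀ i : {i : Fin r ⊕ Fin r // i ≠ o},
      Matrix.det (Matrix.of (Function.update (Function.update u o w) i (CH_Phi G u o t f))) =
      (f i : K) * Matrix.det (Matrix.of (Function.update u o w)) := by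
    intro f w i
    rw [hext f]
    have h := CH_coords (u := u) (o := o)
      (f := fun j => (if h : j ≠ o then ((f ⟨j, h⟩ : G.R t) : K) else 0))
      (by rw [dif_neg (by simp)]) w i
    rw [h, dif_pos i.2]
  have hker0 : ∀ f : {i : Fin r ⊕ Fin r // i ≠ o} → G.R t, CH_D u o (CH_Phi G u o t f) = 0 := by
    intro f
    rw [hext f, map_sum]
    refine Finset.sum_eq_zero fun j _ => ?_
    rw [map_smul]
    by_cases hj : j = o
    · rw [dif_neg (by simpa using hj), zero_smul]
    · rw [CH_D_apply]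
      have : Matrix.det (Matrix.of (Function.update u o (u j))) = 0 := by
        apply Matrix.det_zero_of_row_eq (i := j) (j := o) hj
        change Function.update u o (u j) j = Function.update u o (u j) o
        rw [Function.update_self, Function.update_of_ne hj]
      rw [this, smul_zero]
  -- the equivalence
  let Ψ : ({i : Fin r ⊕ Fin r // i ≠ o} → G.R t) →ₗ[k]
      LinearMap.ker (((CH_D u o).restrictScalars k).domRestrict U) :=
    LinearMap.codRestrict _ (LinearMap.codRestrict U (CH_Phi G u o t) hmem) (by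
      intro f
      rw [LinearMap.mem_ker]
      exact hker0 f)
  have hΨ : Function.Bijective Ψ := by
    constructor
    · refine (injective_iff_map_eq_zero Ψ).2 ?_
      intro f hf
      have h0 : CH_Phi G u o t f = 0 := by
        have := congrArg (fun z => ((z.1 : U) : Fin r ⊕ Fin r → K)) hf
        exact this
      funext i
      apply Subtype.ext
      have h1 := hcoo f v1 i
      rw [h0] at h1
      have h2 : Matrix.det (Matrix.of (Function.update (Function.update u o v1) i.1 0)) = 0 := by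
        apply Matrix.det_eq_zero_of_row_eq_zero i.1
        intro j
        change Function.update (Function.update u o v1) i.1 0 i.1 j = 0
        rw [Function.update_self]; rfl
      rw [h2] at h1
      have := (mul_eq_zero.1 h1.symm).resolve_right hd1
      simpa using this
    · rintro ⟨⟨v, hv⟩, hk⟩
      have hD : Matrix.det (Matrix.of (Function.update u o v)) = 0 := by
        rw [LinearMap.mem_ker] at hk
        exact hk
      obtain ⟨f, hf0, hfm, hfv⟩ := CH_ker G c hc q hq hadd hu hv1 hv2 hd1 hL hv hD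
      refine ⟨fun i => ⟨f i.1, hfm i.1⟩, ?_⟩
      apply Subtype.ext
      apply Subtype.ext
      change CH_Phi G u o t _ = v
      rw [hext, hfv]
      refine Finset.sum_congr rfl fun j _ => ?_
      by_cases hj : j = o
      · rw [dif_neg (by simpa using hj), hj, hf0]
      · rw [dif_pos hj]
  have hfk := LinearEquiv.finrank_eq (LinearEquiv.ofBijective Ψ hΨ)
  rw [← hfk, Module.finrank_pi_fintype] at hrn
  simp only [Finset.sum_const, Finset.card_univ, smul_eq_mul] at hrn
  have hcard : Fintype.card {i : Fin r ⊕ Fin r // i ≠ o} = 2 * r - 1 := by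
    rw [Fintype.card_subtype_compl, Fintype.card_subtype_eq]
    simp [two_mul]
  rw [hcard] at hrn
  have hr : 0 < r := by
    rcases o with o | o <;> exact lt_of_le_of_lt (Nat.zero_le _) o.2
  have : ((2 * r - 1 : ℕ) : ℤ) = 2 * r - 1 := by
    rw [Nat.cast_sub (by omega)]; push_cast; ring
  rw [← hrn, ← this]
  push_cast
  ring

end main

lemma CH_gen (G : Fil k K) {d1 d2 : K} {δ : ℤ} (h1 : d1 ∈ G.R δ) (h2 : d2 ∈ G.R δ)
    (hL : ∀ (t : ℤ) (x : K), d1 * x ∈ G.R (t + δ) → d2 * x ∈ G.R (t + δ) → x ∈ G.R t) :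
    ∀ (s m n : ℕ), m + n = s → ∀ (t : ℤ) (x : K), d1 ^ m * x ∈ G.R (t + m * δ) →
      d2 ^ n * x ∈ G.R (t + n * δ) → x ∈ G.R t := by
  intro s
  induction s with
  | zero =>
      intro m n hmn t x hx _
      obtain rfl : m = 0 := by omega
      simpa using hx
  | succ s ih =>
      intro m n hmn t x hx hy
      rcases Nat.eq_zero_or_pos m with hm | hm
      · subst hm; simpa using hx
      rcases Nat.eq_zero_or_pos n with hn | hn
      · subst hn; simpa using hy
      obtain ⟨m, rfl⟩ : ∃ m', m = m' + 1 := ⟨m - 1, by omega⟩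
      obtain ⟨n, rfl⟩ : ∃ n', n = n' + 1 := ⟨n - 1, by omega⟩
      apply hL
      · apply ih m (n + 1) (by omega)
        · have e : d1 ^ m * (d1 * x) = d1 ^ (m + 1) * x := by ring
          have e' : t + δ + m * δ = t + ((m + 1 : ℕ) : ℤ) * δ := by push_cast; ring
          rw [e, e']; exact hx
        · have h := G.mul_mem h1 hy
          have e : d2 ^ (n + 1) * (d1 * x) = d1 * (d2 ^ (n + 1) * x) := by ring
          have e' : t + δ + ((n + 1 : ℕ) : ℤ) * δ = δ + (t + ((n + 1 : ℕ) : ℤ) * δ) := by ring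
          rw [e, e']; exact h
      · apply ih (m + 1) n (by omega)
        · have h := G.mul_mem h2 hx
          have e : d1 ^ (m + 1) * (d2 * x) = d2 * (d1 ^ (m + 1) * x) := by ring
          have e' : t + δ + ((m + 1 : ℕ) : ℤ) * δ = δ + (t + ((m + 1 : ℕ) : ℤ) * δ) := by ring
          rw [e, e']; exact h
        · have e : d2 ^ n * (d2 * x) = d2 ^ (n + 1) * x := by ring
          have e' : t + δ + n * δ = t + ((n + 1 : ℕ) : ℤ) * δ := by push_cast; ring
          rw [e, e']; exact hy

lemma CH_mono (G : Fil k K) {s t : ℤ} (h : s ≤ t) : G.R s ≤ G.R t := by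
  induction t, h using Int.leInduction with
  | base => exact le_rfl
  | succ n _ ih => exact ih.trans (G.mono n)

lemma CH_colen (G : Geo k K) {d1 d2 : K} {δ : ℤ} (hd2 : d2 ≠ 0)
    (h1 : d1 ∈ G.R δ) (h2 : d2 ∈ G.R δ)
    (hL : ∀ (t : ℤ) (x : K), d1 * x ∈ G.R (t + δ) → d2 * x ∈ G.R (t + δ) → x ∈ G.R t)
    (s : ℤ) (J : Submodule k K) [Module.Finite k J]
    (hJ1 : ∀ x ∈ G.R (s - δ), d1 * x ∈ J) (hJ2 : ∀ x ∈ G.R (s - δ), d2 * x ∈ J) :
    2 * Module.finrank k (G.R (s - δ)) ≤
      Module.finrank k J + Module.finrank k (G.R (s - 2 * δ)) := by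
  have := G.fin_dim (s - δ)
  have := G.fin_dim (s - 2 * δ)
  let Ψ : (G.R (s - δ) × G.R (s - δ)) →ₗ[k] K :=
    (LinearMap.mulLeft k d1 ∘ₗ (G.R (s - δ)).subtype).coprod
      (LinearMap.mulLeft k d2 ∘ₗ (G.R (s - δ)).subtype)
  have hΨ : ∀ f g, Ψ (f, g) = d1 * f + d2 * g := fun f g => rfl
  have e : δ + (s - 2 * δ) = s - δ := by ring
  let Θ : G.R (s - 2 * δ) →ₗ[k] (G.R (s - δ) × G.R (s - δ)) :=
    LinearMap.prod
      (LinearMap.codRestrict (G.R (s - δ)) (LinearMap.mulLeft k d2 ∘ₗ (G.R (s - 2 * δ)).subtype)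
        (fun x => by rw [← e]; exact G.mul_mem h2 x.2))
      (-(LinearMap.codRestrict (G.R (s - δ)) (LinearMap.mulLeft k d1 ∘ₗ (G.R (s - 2 * δ)).subtype)
        (fun x => by rw [← e]; exact G.mul_mem h1 x.2)))
  have hrn := LinearMap.finrank_range_add_finrank_ker Ψ
  rw [Module.finrank_prod] at hrn
  have hr : Module.finrank k (LinearMap.range Ψ) ≤ Module.finrank k J := by
    apply Submodule.finrank_mono
    rintro _ ⟨⟨f, g⟩, rfl⟩
    rw [hΨ]
    exact Submodule.add_mem _ (hJ1 _ f.2) (hJ2 _ g.2)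
  have hk : Module.finrank k (LinearMap.ker Ψ) ≤ Module.finrank k (G.R (s - 2 * δ)) := by
    refine le_trans (Submodule.finrank_mono (t := LinearMap.range Θ) ?_)
      (LinearMap.finrank_range_le Θ)
    rintro ⟨f, g⟩ hfg
    rw [LinearMap.mem_ker, hΨ] at hfg
    have hx2 : d2 * ((f : K) / d2) = f := by field_simp
    have hx1 : d1 * ((f : K) / d2) = -g := by
      field_simp
      linear_combination hfg
    have e' : s - 2 * δ + δ = s - δ := by ring
    have hx : (f : K) / d2 ∈ G.R (s - 2 * δ) := by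
      apply hL
      · rw [hx1, e']; exact Submodule.neg_mem _ g.2
      · rw [hx2, e']; exact f.2
    refine ⟨⟨_, hx⟩, ?_⟩
    apply Prod.ext
    · apply Subtype.ext
      exact hx2
    · apply Subtype.ext
      change -(d1 * ((f : K) / d2)) = g
      rw [hx1, neg_neg]
  omega

lemma CH_bound (G : Geo k K) {δ : ℤ} (hδ0 : 0 ≤ δ) (J : ℤ → Submodule k K)
    (hJ : ∀ s, 2 * Module.finrank k (G.R (s - δ)) ≤
      Module.finrank k (J s) + Module.finrank k (G.R (s - 2 * δ))) (s : ℤ) :
    Module.finrank k (G.R s) ≤ Module.finrank k (J s) +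
      ((1715 * δ ^ 2).toNat + Module.finrank k (G.R (6 + 2 * δ))) := by
  have := G.fin_dim (6 + 2 * δ)
  rcases le_or_gt (6 + 2 * δ) s with hs | hs
  · have h := hJ s
    have e1 := G.dim_eq s (by linarith)
    have e2 := G.dim_eq (s - δ) (by linarith)
    have e3 := G.dim_eq (s - 2 * δ) (by linarith)
    have e4 : (((1715 * δ ^ 2).toNat : ℕ) : ℤ) = 1715 * δ ^ 2 :=
      Int.toNat_of_nonneg (by positivity)
    zify at h ⊢
    rw [e4]
    nlinarith
  · have := Submodule.finrank_mono (CH_mono G.toFil hs.le)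
    linarith [Nat.zero_le (Module.finrank k (J s)), Nat.zero_le (1715 * δ ^ 2).toNat]

/-- **Task CH.** Chern classes of the Frobenius pullback. -/
theorem CH [IsAlgClosed k] (p : ℕ) [Fact p.Prime] [CharP k p] (G : Geo k K) {N r : ℕ}
    (c : Fin N → Fin r → K) (hc : IsDatum G.toFil c) (hr : 0 < r) :
    ∃ (a : ℤ) (l : ℕ) (t0 : ℤ), 0 ≤ a ∧ ∀ t ≥ t0,
      (Module.finrank k (UU G.toFil 1 c (t + a)) : ℤ) + l =
        (2 * r - 1) * Module.finrank k (G.R t) +
          Module.finrank k (G.R (t + r * (8 + 2 * a))) ∧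
      (Module.finrank k (UU G.toFil p c (t + p * a)) : ℤ) ≤
        (2 * r - 1) * Module.finrank k (G.R t) +
          Module.finrank k (G.R (t + p * (r * (8 + 2 * a)))) ∧
      (2 * r - 1) * (Module.finrank k (G.R t) : ℤ) +
          Module.finrank k (G.R (t + p * (r * (8 + 2 * a)))) ≤
        Module.finrank k (UU G.toFil p c (t + p * a)) + (p : ℤ) ^ 2 * l := by
  have hp : 0 < p := (Fact.out : p.Prime).pos
  have hchar : CharP K p := charP_of_injective_algebraMap (algebraMap k K).injective p
  have hadd1 : ∀ x y : K, (x + y) ^ 1 = x ^ 1 + y ^ 1 := by intro x y; simp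
  have haddp : ∀ x y : K, (x + y) ^ p = x ^ p + y ^ p := fun x y => add_pow_char x y p
  obtain ⟨a, b, u, v1, v2, ha, hu, hv1, hv2, hd1, hd2, hL⟩ := L2 G c hc ⟨0, hr⟩
  set o : Fin r ⊕ Fin r := Sum.inl ⟨0, hr⟩ with ho
  set d1 := Matrix.det (Matrix.of (Function.update u o v1)) with hd1d
  set d2 := Matrix.det (Matrix.of (Function.update u o v2)) with hd2d
  set δ : ℤ := (2 * r - 1) * a + b + 8 * r with hδ
  set m0 : ℤ := r * (8 + 2 * a) with hm0
  have hDR : ∀ (s : ℤ) (v : Fin r ⊕ Fin r → K), v ∈ UU G.toFil 1 c (s - m0 + a) →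
      CH_D u o v ∈ G.R s := by
    intro s v hv
    have h := CH_mem_D G c hc 1 one_pos hadd1 (o := o) hu hv
    have e : s - m0 + (2 * r * a + 8 * (1 : ℕ) * r) = s := by rw [hm0]; push_cast; ring
    rw [e] at h
    exact h
  have hd1R : d1 ∈ G.R δ := hDR δ v1 (by
    have e : δ - m0 + a = b := by rw [hδ, hm0]; ring
    rw [e]; exact hv1)
  have hd2R : d2 ∈ G.R δ := hDR δ v2 (by
    have e : δ - m0 + a = b := by rw [hδ, hm0]; ring
    rw [e]; exact hv2)
  have hδ0 : 0 ≤ δ := by
    by_contra h
    push Not at h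
    rw [G.neg δ h, Submodule.mem_bot] at hd1R
    exact hd1 hd1R
  obtain ⟨-, -, hfin1, -, -, -, hmul1, -, -, -⟩ := DU1 G c hc 1 one_pos hadd1
  obtain ⟨-, -, hfinp, -, -, -, hmulp, -, -, -⟩ := DU1 G c hc p hp haddp
  let J : ℤ → Submodule k K := fun s =>
    (UU G.toFil 1 c (s - m0 + a)).map ((CH_D u o).restrictScalars k)
  have hJfin : ∀ s, Module.Finite k (J s) := by
    intro s
    have := hfin1 (s - m0 + a)
    infer_instance
  have hJR : ∀ s, J s ≤ G.R s := by
    rintro s _ ⟨v, hv, rfl⟩
    exact hDR s v hv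
  have hJmul : ∀ (s t : ℤ) (x y : K), x ∈ G.R s → y ∈ J t → x * y ∈ J (s + t) := by
    rintro s t x _ hx ⟨v, hv, rfl⟩
    refine ⟨x • v, ?_, ?_⟩
    · have h := hmul1 s _ x v hx hv
      have e : s + (t - m0 + a) = s + t - m0 + a := by ring
      rw [e] at h
      exact h
    · change CH_D u o (x • v) = x * CH_D u o v
      rw [map_smul, smul_eq_mul]
  have hJ1 : ∀ (s : ℤ) (x : K), x ∈ G.R (s - δ) → d1 * x ∈ J s := by
    intro s x hx
    refine ⟨x • v1, ?_, ?_⟩
    · have h := hmul1 _ _ x v1 hx hv1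
      have e : s - δ + b = s - m0 + a := by rw [hδ, hm0]; ring
      rw [e] at h
      exact h
    · change CH_D u o (x • v1) = d1 * x
      rw [map_smul, smul_eq_mul, mul_comm]; rfl
  have hJ2 : ∀ (s : ℤ) (x : K), x ∈ G.R (s - δ) → d2 * x ∈ J s := by
    intro s x hx
    refine ⟨x • v2, ?_, ?_⟩
    · have h := hmul1 _ _ x v2 hx hv2
      have e : s - δ + b = s - m0 + a := by rw [hδ, hm0]; ring
      rw [e] at h
      exact h
    · change CH_D u o (x • v2) = d2 * x
      rw [map_smul, smul_eq_mul, mul_comm]; rfl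
  have hC : ∀ s, Module.finrank k (G.R s) ≤ Module.finrank k (J s) +
      ((1715 * δ ^ 2).toNat + Module.finrank k (G.R (6 + 2 * δ))) := by
    refine CH_bound G hδ0 J fun s => ?_
    have := hJfin s
    exact CH_colen G hd2 hd1R hd2R hL s (J s) (hJ1 s) (hJ2 s)
  obtain ⟨l, t0, hl⟩ := FROBCOL p G J hJR hJmul _ hC
  have hm0' : 0 ≤ m0 := by rw [hm0]; positivity
  -- the powers
  set uq : Fin r ⊕ Fin r → Fin r ⊕ Fin r → K := fun i j => u i j ^ p with huq
  have huq' : ∀ j, uq j ∈ UU G.toFil p c (p * a) := fun j =>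
    CH_UU_pow G.toFil p hp haddp (hu j)
  have hupd : ∀ v : Fin r ⊕ Fin r → K, Matrix.det (Matrix.of (Function.update uq o
      (fun j => v j ^ p))) = Matrix.det (Matrix.of (Function.update u o v)) ^ p := by
    intro v
    rw [← CH_det_pow p hp haddp]
    congr 2
    funext i j
    by_cases hi : i = o
    · subst hi; rw [Function.update_self, Function.update_self]
    · rw [Function.update_of_ne hi, Function.update_of_ne hi]
  refine ⟨a, l, t0, ha, fun t ht => ?_⟩
  obtain ⟨hl1, -⟩ := hl (t + m0) (by linarith)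
  obtain ⟨-, hl2⟩ := hl (t + p * m0) (by
    have : 0 ≤ (p : ℤ) * m0 := by positivity
    linarith)
  have hm1 := CH_main G c hc 1 one_pos hadd1 (A := a) (B := b) (o := o) hu hv1 hv2 hd1
    (by
      intro t x h1 h2
      have e : t + ((2 * (r : ℤ) - 1) * a + b + 8 * ((1 : ℕ) : ℤ) * r) =
        t + ((2 * r - 1) * a + b + 8 * r) := by push_cast; ring
      rw [e] at h1 h2
      exact hL t x h1 h2) t
  have hmp := CH_main G c hc p hp haddp (A := p * a) (B := p * b) (o := o) huq'
    (CH_UU_pow G.toFil p hp haddp hv1) (CH_UU_pow G.toFil p hp haddp hv2)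
    (by rw [hupd]; exact pow_ne_zero _ hd1)
    (by
      intro t x h1 h2
      rw [hupd] at h1 h2
      have e : t + ((2 * r - 1) * (p * a) + p * b + 8 * p * r) = t + p * δ := by
        rw [hδ]; ring
      rw [e] at h1 h2
      exact CH_gen G.toFil hd1R hd2R hL (p + p) p p rfl t x h1 h2) t
  refine ⟨?_, ?_, ?_⟩
  · rw [hm1]
    have e : J (t + m0) = (UU G.toFil 1 c (t + a)).map ((CH_D u o).restrictScalars k) := by
      change (UU G.toFil 1 c (t + m0 - m0 + a)).map _ = _
      rw [add_sub_cancel_right]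
    rw [← e, hl1]
    push_cast
    ring
  · rw [hmp]
    have := G.fin_dim (t + p * m0)
    have h : Module.finrank k ((UU G.toFil p c (t + p * a)).map
        ((CH_D uq o).restrictScalars k)) ≤ Module.finrank k (G.R (t + p * m0)) := by
      apply Submodule.finrank_mono
      rintro _ ⟨v, hv, rfl⟩
      have h := CH_mem_D G c hc p hp haddp (o := o) huq' hv
      have e : t + (2 * r * (p * a) + 8 * p * r) = t + p * m0 := by rw [hm0]; ring
      rw [e] at h
      exact h
    have h' : (Module.finrank k ((UU G.toFil p c (t + p * a)).map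
        ((CH_D uq o).restrictScalars k)) : ℤ) ≤ Module.finrank k (G.R (t + p * m0)) := by
      exact_mod_cast h
    linarith
  · have hfu := hfinp (t + p * a)
    have h : Module.finrank k (Jpow G.toFil p J (t + p * m0)) ≤
        Module.finrank k ((UU G.toFil p c (t + p * a)).map
        ((CH_D uq o).restrictScalars k)) := by
      apply Submodule.finrank_mono
      rw [Jpow, Submodule.span_le]
      rintro _ ⟨s, _, x, ⟨v, hv, rfl⟩, hx, rfl⟩
      refine ⟨x • (fun j => v j ^ p), ?_, ?_⟩
      · have h := hmulp _ _ x _ hx (CH_UU_pow G.toFil p hp haddp hv)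
        have e : t + p * m0 - p * s + p * (s - m0 + a) = t + p * a := by ring
        rw [e] at h
        exact h
      · change CH_D uq o (x • fun j => v j ^ p) = x * (CH_D u o v) ^ p
        rw [map_smul, smul_eq_mul, CH_D_apply, hupd]; rfl
    have h' : (Module.finrank k (Jpow G.toFil p J (t + p * m0)) : ℤ) ≤
        Module.finrank k ((UU G.toFil p c (t + p * a)).map
        ((CH_D uq o).restrictScalars k)) := by
      exact_mod_cast h
    have hl2' : (Module.finrank k (G.R (t + p * m0)) : ℤ) ≤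
        Module.finrank k (Jpow G.toFil p J (t + p * m0)) + p ^ 2 * l := by exact_mod_cast hl2
    rw [hmp]
    linarith

end

end Pool.Agent.H54R2.Ul
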