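import Pool.Agent.H54R2.Ul.GMaux

namespace Pool.Agent.H54R2.Ul

open MvPolynomial

noncomputable section

variable {k K : Type} [Field k] [Field K] [Algebra k K]

/-- **Task DIMLAT.** Dimension of the free module spanned by independent vectors. -/
theorem DIMLAT (G : Fil k K) (algInd : AlgebraicIndependent k ![G.Y1, G.Y2]) {N m : ℕ}
    (c : Fin N → Fin m → K) (hc : LinearIndependent (FF k G.Y1 G.Y2) c) (t : ℤ) (ht : 0 ≤ t)
    (V : Submodule k (Fin m → K)) [Module.Finite k V]
    (hV : ∀ i, ∀ g ∈ AA k G.Y1 G.Y2 t, g • c i ∈ V) :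
    (N : ℤ) * (t + 1) * (t + 2) ≤ 2 * Module.finrank k V := by
  lift t to ℕ using ht
  have h := GM_dim algInd c hc t V hV
  have h2 := GM_card t
  have h3 : N * (t + 1) * (t + 2) ≤ 2 * Module.finrank k V := by
    calc N * (t + 1) * (t + 2) = N * ((t + 1) * (t + 2)) := by ring
      _ = 2 * ((GMT t).card * N) := by rw [← h2]; ring
      _ ≤ _ := by omega
  exact_mod_cast h3

end

end Pool.Agent.H54R2.Ul
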