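import Pool.Agent.H54R2.Ul.Defs3
import Pool.Agent.H54R2.Ul.St.NOE

namespace Pool.Agent.H54R2.Ul

open MvPolynomial

noncomputable section

variable {k K : Type} [Field k] [Field K] [Algebra k K]

lemma DU1_mono (G : Fil k K) {s t : ℤ} (h : s ≤ t) : G.R s ≤ G.R t := by
  obtain ⟨n, rfl⟩ := Int.le.dest h
  induction n with
  | zero => simp
  | succ n ih =>
      refine (ih (by omega)).trans ((G.mono _).trans (le_of_eq ?_))
      push_cast; ring_nf

lemma DU1_pow_mem (G : Fil k K) {s : ℤ} {a : K} (ha : a ∈ G.R s) (q : ℕ) :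
    a ^ q ∈ G.R (q * s) := by
  induction q with
  | zero => simpa using G.one_mem
  | succ n ih =>
      have h := G.mul_mem ih ha
      have e : (n : ℤ) * s + s = ((n + 1 : ℕ) : ℤ) * s := by push_cast; ring
      rw [e] at h
      rwa [pow_succ]

/-- common denominators -/
lemma DU1_comden (G : Geo k K) {ι : Type} (s : Finset ι) (x : ι → K) :
    ∃ (t : ℤ) (a : K), a ≠ 0 ∧ a ∈ G.R t ∧ ∀ i ∈ s, a * x i ∈ G.R t := by
  classical
  induction s using Finset.induction_on with
  | empty => exact ⟨0, 1, one_ne_zero, G.one_mem, by simp⟩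
  | insert i s hi ih =>
      obtain ⟨t, a, ha, hat, has⟩ := ih
      obtain ⟨t', b, hb, d, hd, hd0, hx⟩ := G.frac (x i)
      refine ⟨t + t', a * d, mul_ne_zero ha hd0, G.mul_mem hat hd, ?_⟩
      intro j hj
      rcases Finset.mem_insert.1 hj with rfl | hj
      · have : a * d * x j = a * b := by rw [hx]; field_simp
        rw [this]
        exact G.mul_mem hat hb
      · have : a * d * x j = (a * x j) * d := by ring
        rw [this]
        exact G.mul_mem (has j hj) hd

/-- the `q`-th power as a ring homomorphism -/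
def DU1_fr (q : ℕ) (hq : 0 < q) (hadd : ∀ x y : K, (x + y) ^ q = x ^ q + y ^ q) : K →+* K where
  toFun x := x ^ q
  map_one' := one_pow q
  map_mul' x y := mul_pow x y q
  map_zero' := zero_pow hq.ne'
  map_add' := hadd

lemma DU1_sum_pow (q : ℕ) (hq : 0 < q) (hadd : ∀ x y : K, (x + y) ^ q = x ^ q + y ^ q)
    {ι : Type} (s : Finset ι) (x : ι → K) : (∑ i ∈ s, x i) ^ q = ∑ i ∈ s, x i ^ q :=
  map_sum (DU1_fr q hq hadd) x s

/-- a left inverse of the matrix of the `c i` -/
lemma DU1_inv (G : Fil k K) {N r : ℕ} (c : Fin N → Fin r → K) (hc : IsDatum G c) :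
    ∃ B : Fin r → Fin N → K, ∀ j l, ∑ i, B j i * c i l = if j = l then 1 else 0 := by
  classical
  have h1 : Submodule.span K (Set.range c) = ⊤ := by
    have h2 : Submodule.span (FF k G.Y1 G.Y2) (Set.range c) ≤
        (Submodule.span K (Set.range c)).restrictScalars (FF k G.Y1 G.Y2) :=
      Submodule.span_le.2 fun x hx => Submodule.subset_span hx
    rw [hc.span] at h2
    rw [eq_top_iff]
    intro x _
    exact h2 (Submodule.mem_top (x := x))
  have h3 : ∀ j : Fin r, ∃ b : Fin N → K, ∑ i, b i • c i = Pi.single j 1 := by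
    intro j
    exact Submodule.mem_span_range_iff_exists_fun K |>.1 (h1 ▸ Submodule.mem_top)
  choose B hB using h3
  refine ⟨B, fun j l => ?_⟩
  have := congrFun (hB j) l
  rw [Finset.sum_apply] at this
  simp only [Pi.smul_apply, smul_eq_mul] at this
  rw [this, Pi.single_apply]
  simp [eq_comm]

lemma DU1_inv_pow (q : ℕ) (hq : 0 < q) (hadd : ∀ x y : K, (x + y) ^ q = x ^ q + y ^ q)
    {N r : ℕ} (c : Fin N → Fin r → K) (B : Fin r → Fin N → K)
    (hB : ∀ j l, ∑ i, B j i * c i l = if j = l then 1 else 0) (j l : Fin r) :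
    ∑ i, B j i ^ q * c i l ^ q = if j = l then 1 else 0 := by
  have h : (∑ i, B j i * c i l) ^ q = (if j = l then (1 : K) else 0) ^ q := by rw [hB]
  rw [DU1_sum_pow q hq hadd] at h
  simp only [mul_pow] at h
  rw [h]
  split_ifs
  · exact one_pow q
  · exact zero_pow hq.ne'

/-- recovering a form from its values -/
lemma DU1_rec (q : ℕ) (hq : 0 < q) (hadd : ∀ x y : K, (x + y) ^ q = x ^ q + y ^ q)
    {N r : ℕ} (c : Fin N → Fin r → K) (B : Fin r → Fin N → K)
    (hB : ∀ j l, ∑ i, B j i * c i l = if j = l then 1 else 0) (w : Fin r → K) (j : Fin r) :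
    w j = ∑ i, B j i ^ q * ∑ l, w l * c i l ^ q := by
  have h1 : ∑ i, B j i ^ q * ∑ l, w l * c i l ^ q = ∑ l, w l * ∑ i, B j i ^ q * c i l ^ q := by
    simp only [Finset.mul_sum]
    rw [Finset.sum_comm]
    exact Finset.sum_congr rfl fun l _ => Finset.sum_congr rfl fun i _ => by ring
  rw [h1]
  simp only [DU1_inv_pow q hq hadd c B hB]
  simp

/-- every vector is a combination of the `q`-th powers of the `c i` -/
lemma DU1_comb (q : ℕ) (hq : 0 < q) (hadd : ∀ x y : K, (x + y) ^ q = x ^ q + y ^ q)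
    {N r : ℕ} (c : Fin N → Fin r → K) (B : Fin r → Fin N → K)
    (hB : ∀ j l, ∑ i, B j i * c i l = if j = l then 1 else 0) (x : Fin r → K) (l : Fin r) :
    x l = ∑ i, (∑ j, x j * B j i ^ q) * c i l ^ q := by
  have h1 : ∑ i, (∑ j, x j * B j i ^ q) * c i l ^ q = ∑ j, x j * ∑ i, B j i ^ q * c i l ^ q := by
    simp only [Finset.mul_sum, Finset.sum_mul]
    rw [Finset.sum_comm]
    exact Finset.sum_congr rfl fun l _ => Finset.sum_congr rfl fun i _ => by ring
  rw [h1]
  simp only [DU1_inv_pow q hq hadd c B hB]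
  simp

section

variable (G : Fil k K) (q : ℕ) {N r : ℕ} (c : Fin N → Fin r → K)

lemma DU1_W1_mono {s t : ℤ} (h : s ≤ t) : W1 G q c s ≤ W1 G q c t :=
  fun _ hw i => DU1_mono G h (hw i)

lemma DU1_W2_mono {s t : ℤ} (h : s ≤ t) : W2 G q c s ≤ W2 G q c t :=
  fun _ hw u ξ hξ => DU1_mono G (by omega) (hw u ξ hξ)

lemma DU1_UU_mono {s t : ℤ} (h : s ≤ t) : UU G q c s ≤ UU G q c t :=
  fun _ hu => ⟨DU1_W2_mono G q c h hu.1, DU1_W1_mono G q c (by omega) hu.2⟩

lemma DU1_W1_smul {s t : ℤ} {a : K} {w : Fin r → K} (ha : a ∈ G.R s) (hw : w ∈ W1 G q c t) :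
    a • w ∈ W1 G q c (s + t) := by
  intro i
  have h := G.mul_mem ha (hw i)
  have e : ∑ j, (a • w) j * c i j ^ q = a * ∑ j, w j * c i j ^ q := by
    rw [Finset.mul_sum]
    exact Finset.sum_congr rfl fun j _ => by simp [mul_assoc]
  rwa [e]

lemma DU1_W2_smul {s t : ℤ} {a : K} {w : Fin r → K} (ha : a ∈ G.R s) (hw : w ∈ W2 G q c t) :
    a • w ∈ W2 G q c (s + t) := by
  intro u ξ hξ
  have h := G.mul_mem ha (hw u ξ hξ)
  have e : ∑ j, (a • w) j * ξ j ^ q = a * ∑ j, w j * ξ j ^ q := by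
    rw [Finset.mul_sum]
    exact Finset.sum_congr rfl fun j _ => by simp [mul_assoc]
  rw [e]
  rwa [add_assoc]

lemma DU1_UU_smul {s t : ℤ} {a : K} {u : Fin r ⊕ Fin r → K} (ha : a ∈ G.R s)
    (hu : u ∈ UU G q c t) : a • u ∈ UU G q c (s + t) := by
  refine ⟨DU1_W2_smul G q c ha hu.1, ?_⟩
  have h := DU1_W1_smul G q c ha hu.2
  rw [add_assoc]
  exact h

end

/-- `Y1` is not a constant -/
lemma DU1_Y1 (G : Geo k K) : G.Y1 ∈ AA k G.Y1 G.Y2 1 ∧ G.Y1 ∉ AA k G.Y1 G.Y2 (1 - 1) := by
  constructor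
  · exact Submodule.subset_span ⟨1, 0, by norm_num, by simp⟩
  · intro h
    have h1 : AA k G.Y1 G.Y2 (1 - 1) ≤ Submodule.span k {(1 : K)} := by
      apply Submodule.span_mono
      rintro x ⟨i, j, hij, rfl⟩
      have hi : i = 0 := by omega
      have hj : j = 0 := by omega
      subst hi hj
      simp
    obtain ⟨a, ha⟩ := Submodule.mem_span_singleton.1 (h1 h)
    have h2 : Transcendental k (![G.Y1, G.Y2] 0) := G.algInd.transcendental 0
    apply h2
    have h3 : (![G.Y1, G.Y2] 0 : K) = algebraMap k K a := by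
      simp only [Matrix.cons_val_zero]
      rw [← ha, Algebra.smul_def, mul_one]
    rw [h3]
    exact isAlgebraic_algebraMap a

/-- **Task DU1.** -/
theorem DU1 (G : Geo k K) {N r : ℕ} (c : Fin N → Fin r → K) (hc : IsDatum G.toFil c)
    (q : ℕ) (hq : 0 < q) (hadd : ∀ x y : K, (x + y) ^ q = x ^ q + y ^ q) :
    (∀ t, Module.Finite k (W1 G.toFil q c t)) ∧ (∀ t, Module.Finite k (W2 G.toFil q c t)) ∧
    (∀ t, Module.Finite k (UU G.toFil q c t)) ∧
    (∃ t0 : ℤ, ∀ t < t0, UU G.toFil q c t = ⊥) ∧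
    (∀ t < (0 : ℤ), W1 G.toFil q c t = ⊥) ∧
    (∀ t, UU G.toFil q c t ≤ UU G.toFil q c (t + 1)) ∧
    (∀ (s t : ℤ) (a : K) (u : Fin r ⊕ Fin r → K), a ∈ G.R s → u ∈ UU G.toFil q c t →
      a • u ∈ UU G.toFil q c (s + t)) ∧
    (∀ t, ∀ u ∈ UU G.toFil q c t, G.Y1 • u ∈ UU G.toFil q c t → u ∈ UU G.toFil q c (t - 1)) ∧
    (∃ t0 : ℤ, ∀ t ≥ t0, ∀ u ∈ UU G.toFil q c (t + 1), ∃ a ∈ UU G.toFil q c t,
      ∃ b ∈ UU G.toFil q c t, ∃ d ∈ UU G.toFil q c t, u = a + G.Y1 • b + G.Y2 • d) ∧
    (∀ u : Fin r ⊕ Fin r → K, ∃ (t : ℤ) (a : K), a ≠ 0 ∧ a ∈ G.R t ∧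
      a • u ∈ UU G.toFil q c t) := by
  classical
  obtain ⟨B, hB⟩ := DU1_inv G.toFil c hc
  -- common denominator of the `c i j`
  obtain ⟨s0, a0, ha0, ha0R, ha0c⟩ := DU1_comden G (Finset.univ : Finset (Fin N × Fin r))
    (fun p => c p.1 p.2)
  -- common denominator of the `B j i ^ q`
  obtain ⟨s1, b0, hb0, hb0R, hb0c⟩ := DU1_comden G (Finset.univ : Finset (Fin r × Fin N))
    (fun p => B p.1 p.2 ^ q)
  have hW1c : ∀ (t : ℤ) (w : Fin r → K), w ∈ W1 G.toFil q c t → ∀ j, b0 * w j ∈ G.R (s1 + t) := by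
    intro t w hw j
    rw [DU1_rec q hq hadd c B hB w j, Finset.mul_sum]
    refine Submodule.sum_mem _ fun i _ => ?_
    rw [← mul_assoc]
    exact G.mul_mem (hb0c (j, i) (Finset.mem_univ _)) (hw i)
  have hW2c : ∀ (t : ℤ) (x : Fin r → K), x ∈ W2 G.toFil q c t → ∀ j,
      a0 ^ q * x j ∈ G.R (t + q * s0) := by
    intro t x hx j
    have hξ : (Pi.single j a0 : Fin r → K) ∈ W1 G.toFil 1 c s0 := by
      intro i
      have : ∑ l, (Pi.single j a0 : Fin r → K) l * c i l ^ 1 = a0 * c i j := by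
        rw [Finset.sum_eq_single j]
        · simp
        · intro l _ hl
          simp [hl]
        · intro h; exact absurd (Finset.mem_univ _) h
      rw [this]
      exact ha0c (i, j) (Finset.mem_univ _)
    have h := hx s0 _ hξ
    have : ∑ l, x l * (Pi.single j a0 : Fin r → K) l ^ q = a0 ^ q * x j := by
      rw [Finset.sum_eq_single j]
      · simp [mul_comm]
      · intro l _ hl
        simp [hl, zero_pow hq.ne']
      · intro h; exact absurd (Finset.mem_univ _) h
    rwa [this] at h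
  have hbq : b0 ≠ 0 := hb0
  have haq : a0 ^ q ≠ 0 := pow_ne_zero q ha0
  have hF1 : ∀ t, Module.Finite k (W1 G.toFil q c t) := by
    intro t
    have := G.fin_dim (s1 + t)
    let L : W1 G.toFil q c t →ₗ[k] (Fin r → G.R (s1 + t)) :=
      { toFun := fun w j => ⟨b0 * w.1 j, hW1c t w.1 w.2 j⟩
        map_add' := by
          intro x y; funext j; apply Subtype.ext
          simp [mul_add]
        map_smul' := by
          intro x y; funext j; apply Subtype.ext
          simp }
    refine Module.Finite.of_injective L ?_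
    intro x y hxy
    apply Subtype.ext
    funext j
    have := congrArg Subtype.val (congrFun hxy j)
    exact mul_left_cancel₀ hb0 this
  have hF2 : ∀ t, Module.Finite k (W2 G.toFil q c t) := by
    intro t
    have := G.fin_dim (t + q * s0)
    let L : W2 G.toFil q c t →ₗ[k] (Fin r → G.R (t + q * s0)) :=
      { toFun := fun w j => ⟨a0 ^ q * w.1 j, hW2c t w.1 w.2 j⟩
        map_add' := by
          intro x y; funext j; apply Subtype.ext
          simp [mul_add]
        map_smul' := by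
          intro x y; funext j; apply Subtype.ext
          simp }
    refine Module.Finite.of_injective L ?_
    intro x y hxy
    apply Subtype.ext
    funext j
    have := congrArg Subtype.val (congrFun hxy j)
    exact mul_left_cancel₀ haq this
  have hW1z : ∀ t < (0 : ℤ), W1 G.toFil q c t = ⊥ := by
    intro t ht
    rw [eq_bot_iff]
    intro w hw
    rw [Submodule.mem_bot]
    funext j
    rw [DU1_rec q hq hadd c B hB w j, Pi.zero_apply]
    refine Finset.sum_eq_zero fun i _ => ?_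
    have := hw i
    rw [G.neg t ht, Submodule.mem_bot] at this
    rw [this, mul_zero]
  have hW2z : ∀ t < (-(q * s0) : ℤ), W2 G.toFil q c t = ⊥ := by
    intro t ht
    rw [eq_bot_iff]
    intro w hw
    rw [Submodule.mem_bot]
    funext j
    have := hW2c t w hw j
    rw [G.neg _ (by omega), Submodule.mem_bot] at this
    exact (mul_eq_zero.1 this).resolve_left haq
  refine ⟨hF1, hF2, ?_, ?_, hW1z, ?_, ?_, ?_, ?_, ?_⟩
  · intro t
    have := hF1 (t + 8 * q)
    have := hF2 t
    let L : UU G.toFil q c t →ₗ[k] (W2 G.toFil q c t × W1 G.toFil q c (t + 8 * q)) :=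
      { toFun := fun u => (⟨fun j => u.1 (Sum.inl j), u.2.1⟩, ⟨fun j => u.1 (Sum.inr j), u.2.2⟩)
        map_add' := by intro x y; rfl
        map_smul' := by intro x y; rfl }
    refine Module.Finite.of_injective L ?_
    intro x y hxy
    apply Subtype.ext
    have h1 := congrArg Subtype.val (congrArg Prod.fst hxy)
    have h2 := congrArg Subtype.val (congrArg Prod.snd hxy)
    funext j
    rcases j with j | j
    · exact congrFun h1 j
    · exact congrFun h2 j
  · refine ⟨min (-(q * s0)) (-(8 * q)), fun t ht => ?_⟩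
    rw [eq_bot_iff]
    intro u hu
    rw [Submodule.mem_bot]
    have h1 := hu.1
    have h2 := hu.2
    have ht1 : t < -(q * s0) := lt_of_lt_of_le ht (min_le_left _ _)
    have ht2 : t < -(8 * q) := lt_of_lt_of_le ht (min_le_right _ _)
    rw [hW2z t ht1, Submodule.mem_bot] at h1
    rw [hW1z _ (by omega), Submodule.mem_bot] at h2
    funext j
    rcases j with j | j
    · exact congrFun h1 j
    · exact congrFun h2 j
  · intro t
    exact DU1_UU_mono G.toFil q c (by omega)
  · intro s t a u ha hu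
    exact DU1_UU_smul G.toFil q c ha hu
  · intro t u hu hYu
    have hsat : ∀ (T : ℤ) (v : K), v ∈ G.R T → G.Y1 * v ∈ G.R T → v ∈ G.R (T - 1) := by
      intro T v hv hYv
      refine G.sat 1 T G.Y1 v (DU1_Y1 G).1 (DU1_Y1 G).2 hv ?_
      have : (1 + T - 1 : ℤ) = T := by ring
      rwa [this]
    refine ⟨?_, ?_⟩
    · intro s ξ hξ
      have h1 := hu.1 s ξ hξ
      have h2 := hYu.1 s ξ hξ
      have e : ∑ j, (G.Y1 • u) (Sum.inl j) * ξ j ^ q = G.Y1 * ∑ j, u (Sum.inl j) * ξ j ^ q := by
        rw [Finset.mul_sum]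
        exact Finset.sum_congr rfl fun j _ => by simp [mul_assoc]
      rw [e] at h2
      have h3 := hsat _ _ h1 h2
      have e2 : (t + q * s - 1 : ℤ) = t - 1 + q * s := by ring
      rwa [e2] at h3
    · intro i
      have h1 := hu.2 i
      have h2 := hYu.2 i
      have e : ∑ j, (G.Y1 • u) (Sum.inr j) * c i j ^ q = G.Y1 * ∑ j, u (Sum.inr j) * c i j ^ q := by
        rw [Finset.mul_sum]
        exact Finset.sum_congr rfl fun j _ => by simp [mul_assoc]
      rw [e] at h2
      have h3 := hsat _ _ h1 h2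
      have e2 : (t + 8 * q - 1 : ℤ) = t - 1 + 8 * q := by ring
      rwa [e2] at h3
  · refine NOE G.toFil G.fin_dim G.fin_gen (UU G.toFil q c) (fun t => DU1_UU_mono _ _ _ (by omega))
      ?_ ?_ (a0 ^ q * b0) (mul_ne_zero haq hb0) (q * s0 + s1 + 8 * q) ?_
    · intro t x hx
      have := DU1_UU_smul G.toFil q c G.Y1_mem hx
      rwa [add_comm] at this
    · intro t x hx
      have := DU1_UU_smul G.toFil q c G.Y2_mem hx
      rwa [add_comm] at this
    · intro t x hx i
      rcases i with j | j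
      · have h1 := hW2c t _ hx.1 j
        have h2 := G.mul_mem hb0R h1
        have e : a0 ^ q * b0 * x (Sum.inl j) = b0 * (a0 ^ q * x (Sum.inl j)) := by ring
        rw [e]
        exact DU1_mono G.toFil (by omega) h2
      · have h1 := hW1c _ _ hx.2 j
        have h2 := G.mul_mem (DU1_pow_mem G.toFil ha0R q) h1
        have e : a0 ^ q * b0 * x (Sum.inr j) = a0 ^ q * (b0 * x (Sum.inr j)) := by ring
        rw [e]
        exact DU1_mono G.toFil (by omega) h2
  · intro u
    obtain ⟨t1, a1, ha1, ha1R, ha1c⟩ := DU1_comden G (Finset.univ : Finset (Fin N))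
      (fun i => ∑ j, u (Sum.inl j) * B j i ^ q)
    obtain ⟨t2, a2, ha2, ha2R, ha2c⟩ := DU1_comden G (Finset.univ : Finset (Fin N))
      (fun i => ∑ j, u (Sum.inr j) * c i j ^ q)
    have h1 : (a1 • fun j => u (Sum.inl j)) ∈ W2 G.toFil q c t1 := by
      intro s ξ hξ
      have e : ∑ l, (a1 • fun j => u (Sum.inl j)) l * ξ l ^ q =
          ∑ i, (a1 * ∑ j, u (Sum.inl j) * B j i ^ q) * (∑ l, ξ l * c i l ^ 1) ^ q := by
        have e1 : ∀ l, (a1 • fun j => u (Sum.inl j)) l * ξ l ^ q =
            ∑ i, (a1 * ∑ j, u (Sum.inl j) * B j i ^ q) * (ξ l ^ q * c i l ^ q) := by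
          intro l
          have e2 := DU1_comb q hq hadd c B hB (fun j => u (Sum.inl j)) l
          simp only [Pi.smul_apply, smul_eq_mul]
          rw [e2, Finset.mul_sum, Finset.sum_mul]
          exact Finset.sum_congr rfl fun i _ => by ring
        rw [Finset.sum_congr rfl fun l _ => e1 l, Finset.sum_comm]
        refine Finset.sum_congr rfl fun i _ => ?_
        rw [DU1_sum_pow q hq hadd,
          Finset.mul_sum (s := Finset.univ) (f := fun l => (ξ l * c i l ^ 1) ^ q)]
        exact Finset.sum_congr rfl fun l _ => by rw [pow_one, mul_pow]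
      rw [e]
      refine Submodule.sum_mem _ fun i _ => ?_
      exact G.mul_mem (ha1c i (Finset.mem_univ _)) (DU1_pow_mem G.toFil (hξ i) q)
    have h2 : (a2 • fun j => u (Sum.inr j)) ∈ W1 G.toFil q c t2 := by
      intro i
      have e : ∑ j, (a2 • fun j => u (Sum.inr j)) j * c i j ^ q =
          a2 * ∑ j, u (Sum.inr j) * c i j ^ q := by
        rw [Finset.mul_sum]
        exact Finset.sum_congr rfl fun j _ => by simp [mul_assoc]
      rw [e]
      exact ha2c i (Finset.mem_univ _)
    refine ⟨t1 + t2, a1 * a2, mul_ne_zero ha1 ha2, G.mul_mem ha1R ha2R, ?_, ?_⟩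
    · have h3 := DU1_W2_smul G.toFil q c ha2R h1
      have e : (fun j => ((a1 * a2) • u) (Sum.inl j)) = a2 • (a1 • fun j => u (Sum.inl j)) := by
        funext j
        simp only [Pi.smul_apply, smul_eq_mul]
        ring
      rw [e, add_comm t1 t2]
      exact h3
    · have h3 := DU1_W1_smul G.toFil q c ha1R h2
      have e : (fun j => ((a1 * a2) • u) (Sum.inr j)) = a1 • (a2 • fun j => u (Sum.inr j)) := by
        funext j
        simp only [Pi.smul_apply, smul_eq_mul]
        ring
      rw [e]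
      exact DU1_W1_mono G.toFil q c (by omega) h3

end

end Pool.Agent.H54R2.Ul
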