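import Pool.Agent.H54R2.Ul.Defs3

/-! # ULRICH: auxiliary lemmas for the tasks DUAL and DU2 -/

namespace Pool.Agent.H54R2.Ul

open MvPolynomial

noncomputable section

variable {k K : Type} [Field k] [Field K] [Algebra k K]

lemma DUX_mono (G : Fil k K) {s t : ℤ} (h : s ≤ t) : G.R s ≤ G.R t := by
  obtain ⟨n, rfl⟩ := Int.le.dest h
  induction n with
  | zero => simp
  | succ n ih =>
      refine (ih (by omega)).trans ((G.mono _).trans (le_of_eq ?_))
      push_cast; ring_nf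

lemma DUX_pow_mem (G : Fil k K) {s : ℤ} {a : K} (ha : a ∈ G.R s) (q : ℕ) :
    a ^ q ∈ G.R (q * s) := by
  induction q with
  | zero => simpa using G.one_mem
  | succ n ih =>
      have h := G.mul_mem ih ha
      have e : (n : ℤ) * s + s = ((n + 1 : ℕ) : ℤ) * s := by push_cast; ring
      rw [e] at h
      rwa [pow_succ]

lemma DUX_AA_F (Y1 Y2 : K) (t : ℤ) {x : K} (hx : x ∈ AA k Y1 Y2 t) : x ∈ FF k Y1 Y2 := by
  have h : AA k Y1 Y2 t ≤ (FF k Y1 Y2).toSubalgebra.toSubmodule := by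
    refine Submodule.span_le.2 ?_
    rintro y ⟨i, j, -, rfl⟩
    have h1 : Y1 ∈ FF k Y1 Y2 := IntermediateField.subset_adjoin k _ (by simp)
    have h2 : Y2 ∈ FF k Y1 Y2 := IntermediateField.subset_adjoin k _ (by simp)
    change Y1 ^ i * Y2 ^ j ∈ FF k Y1 Y2
    exact mul_mem (pow_mem h1 i) (pow_mem h2 j)
  exact h hx

lemma DUX_AA_R (G : Fil k K) (t : ℤ) : AA k G.Y1 G.Y2 t ≤ G.R t := by
  refine Submodule.span_le.2 ?_
  rintro y ⟨i, j, hij, rfl⟩
  have h := G.mul_mem (DUX_pow_mem G G.Y1_mem i) (DUX_pow_mem G G.Y2_mem j)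
  exact DUX_mono G (by omega) h

lemma DUX_fd (G : Geo k K) : FiniteDimensional (FF k G.Y1 G.Y2) K :=
  FiniteDimensional.of_finrank_pos (by rw [G.degree]; norm_num)

/-- the trace is not identically zero -/
lemma DUX_trace_ne (G : Geo k K) : ∃ y : K, Algebra.trace (FF k G.Y1 G.Y2) K y ≠ 0 := by
  by_contra hcon
  push Not at hcon
  obtain ⟨J, -, hJ, hT⟩ := G.trace
  have h := hT (-9) 1 (fun s a _ => by rw [hcon, map_zero]; exact Submodule.zero_mem _)
  rw [G.neg _ (by norm_num), Submodule.mem_bot, mul_one] at h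
  exact hJ h

lemma DUX_nondeg (G : Geo k K) (x : K)
    (h : ∀ y, Algebra.trace (FF k G.Y1 G.Y2) K (x * y) = 0) : x = 0 := by
  by_contra hx
  obtain ⟨y, hy⟩ := DUX_trace_ne G
  apply hy
  have := h (x⁻¹ * y)
  rwa [mul_inv_cancel_left₀ hx] at this

lemma DUX_dual (G : Geo k K) (φ : K →ₗ[FF k G.Y1 G.Y2] FF k G.Y1 G.Y2) :
    ∃ ξ : K, ∀ x, φ x = Algebra.trace (FF k G.Y1 G.Y2) K (ξ * x) := by
  have := DUX_fd G
  have hinj : Function.Injective (Algebra.traceForm (FF k G.Y1 G.Y2) K) := by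
    rw [← LinearMap.ker_eq_bot, LinearMap.ker_eq_bot']
    intro x hx
    refine DUX_nondeg G x fun y => ?_
    have := LinearMap.congr_fun hx y
    rwa [Algebra.traceForm_apply] at this
  have hsurj := (LinearMap.injective_iff_surjective_of_finrank_eq_finrank
    (Subspace.dual_finrank_eq (K := FF k G.Y1 G.Y2) (V := K)).symm).1 hinj
  obtain ⟨ξ, hξ⟩ := hsurj φ
  refine ⟨ξ, fun x => ?_⟩
  rw [← hξ, Algebra.traceForm_apply]

lemma DUX_repr (G : Geo k K) {ι : Type} [Fintype ι]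
    (φ : (ι → K) →ₗ[FF k G.Y1 G.Y2] FF k G.Y1 G.Y2) :
    ∃ ξ : ι → K, ∀ u, φ u = Algebra.trace (FF k G.Y1 G.Y2) K (∑ j, ξ j * u j) := by
  classical
  have h := fun j : ι => DUX_dual G (φ ∘ₗ LinearMap.single (FF k G.Y1 G.Y2) (fun _ : ι => K) j)
  choose ξ hξ using h
  refine ⟨ξ, fun u => ?_⟩
  rw [map_sum]
  have e : u = ∑ j, LinearMap.single (FF k G.Y1 G.Y2) (fun _ : ι => K) j (u j) := by
    simp only [LinearMap.coe_single]
    exact (Finset.univ_sum_single u).symm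
  conv_lhs => rw [e, map_sum]
  exact Finset.sum_congr rfl fun j _ => hξ j (u j)

lemma DUX_nondegPi (G : Geo k K) {ι : Type} [Fintype ι] (ξ : ι → K)
    (h : ∀ u : ι → K, Algebra.trace (FF k G.Y1 G.Y2) K (∑ j, ξ j * u j) = 0) : ξ = 0 := by
  classical
  funext j
  refine DUX_nondeg G (ξ j) fun y => ?_
  have h1 := h (Pi.single j y)
  have e : ∑ l, ξ l * (Pi.single j y : ι → K) l = ξ j * y := by
    rw [Finset.sum_eq_single j]
    · simp
    · intro l _ hl
      simp [hl]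
    · intro h; exact absurd (Finset.mem_univ _) h
  rwa [e] at h1

end

end Pool.Agent.H54R2.Ul
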