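import Pool.Agent.H54R2.Ul.Defs3
import Pool.Agent.H54R2.Ul.DUX
import Pool.Agent.H54R2.Ul.St.DU1
import Pool.Agent.H54R2.Ul.St.T1

namespace Pool.Agent.H54R2.Ul

open MvPolynomial

noncomputable section

variable {k K : Type} [Field k] [Field K] [Algebra k K]

lemma DU2_AA (Y1 Y2 : K) (T : ℤ) (f : MvPolynomial (Fin 2) k)
    (hf : ∀ m ∈ f.support, (m 0 : ℤ) + m 1 ≤ T) : aeval ![Y1, Y2] f ∈ AA k Y1 Y2 T := by
  rw [MvPolynomial.aeval_def, MvPolynomial.eval₂_eq']
  refine Submodule.sum_mem _ fun m hm => ?_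
  rw [Fin.prod_univ_two, ← Algebra.smul_def]
  refine Submodule.smul_mem _ _ (Submodule.subset_span ⟨m 0, m 1, hf m hm, ?_⟩)
  simp

lemma DU2_aeval_mem (Y1 Y2 : K) (f : MvPolynomial (Fin 2) k) :
    aeval ![Y1, Y2] f ∈ FF k Y1 Y2 := by
  have h1 : Y1 ∈ FF k Y1 Y2 := IntermediateField.subset_adjoin k _ (by simp)
  have h2 : Y2 ∈ FF k Y1 Y2 := IntermediateField.subset_adjoin k _ (by simp)
  rw [MvPolynomial.aeval_def, MvPolynomial.eval₂_eq']
  refine sum_mem fun m hm => ?_
  rw [Fin.prod_univ_two]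
  exact mul_mem (IntermediateField.algebraMap_mem _ _) (mul_mem (pow_mem h1 _) (pow_mem h2 _))

lemma DU2_ne (G : Geo k K) {f : MvPolynomial (Fin 2) k} (hf : f ≠ 0) :
    aeval ![G.Y1, G.Y2] f ≠ 0 := by
  intro h
  have h1 := algebraicIndependent_iff_injective_aeval.1 G.algInd
  exact hf (h1 (by rw [h, map_zero]))

lemma DU2_frac (G : Geo k K) (f : K) (hf : f ∈ FF k G.Y1 G.Y2) :
    ∃ g d : MvPolynomial (Fin 2) k, d ≠ 0 ∧
      aeval ![G.Y1, G.Y2] d * f = aeval ![G.Y1, G.Y2] g := by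
  have e : ({G.Y1, G.Y2} : Set K) = Set.range ![G.Y1, G.Y2] := by
    simp [Matrix.range_cons, Set.pair_comm]
  have hf' : f ∈ IntermediateField.adjoin k (Set.range ![G.Y1, G.Y2]) := by
    rw [← e]; exact hf
  obtain ⟨r, s, hrs⟩ := (IntermediateField.mem_adjoin_range_iff k _ f).1 hf'
  by_cases hs : aeval ![G.Y1, G.Y2] s = 0
  · refine ⟨0, 1, one_ne_zero, ?_⟩
    rw [hrs, hs]
    simp
  · refine ⟨r, s, fun h => hs (by rw [h, map_zero]), ?_⟩
    rw [hrs, mul_div_cancel₀ _ hs]

lemma DU2_comden (G : Geo k K) {ι : Type} (s : Finset ι) (f : ι → FF k G.Y1 G.Y2) :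
    ∃ d : MvPolynomial (Fin 2) k, d ≠ 0 ∧ ∀ i ∈ s, ∃ g : MvPolynomial (Fin 2) k,
      aeval ![G.Y1, G.Y2] d * (f i : K) = aeval ![G.Y1, G.Y2] g := by
  classical
  induction s using Finset.induction_on with
  | empty => exact ⟨1, one_ne_zero, by simp⟩
  | insert i s hi ih =>
      obtain ⟨d, hd, hds⟩ := ih
      obtain ⟨g', d', hd', hg'⟩ := DU2_frac G (f i) (f i).2
      refine ⟨d * d', mul_ne_zero hd hd', fun j hj => ?_⟩
      rcases Finset.mem_insert.1 hj with rfl | hj
      · refine ⟨d * g', ?_⟩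
        rw [map_mul, map_mul, ← hg']; ring
      · obtain ⟨g, hg⟩ := hds j hj
        refine ⟨g * d', ?_⟩
        rw [map_mul, map_mul, ← hg]; ring

/-- a functional on the union of the `U t` is a trace form -/
lemma DU2_ext (G : Geo k K) {ι : Type} [Fintype ι] (V : Submodule k (ι → K))
    (hV : ∀ (s : ℤ) (a : K) (u : ι → K), a ∈ G.R s → u ∈ V → a • u ∈ V)
    (hden : ∀ u : ι → K, ∃ (t : ℤ) (a : K), a ≠ 0 ∧ a ∈ G.R t ∧ a • u ∈ V)
    (φ : V →ₗ[k] MvPolynomial (Fin 2) k)
    (h1 : ∀ v w : V, (w : ι → K) = G.Y1 • (v : ι → K) → φ w = X 0 * φ v)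
    (h2 : ∀ v w : V, (w : ι → K) = G.Y2 • (v : ι → K) → φ w = X 1 * φ v) :
    ∃ ξ : ι → K, ∀ v : V, aeval ![G.Y1, G.Y2] (φ v) =
      algebraMap (FF k G.Y1 G.Y2) K
        (Algebra.trace (FF k G.Y1 G.Y2) K (∑ j, ξ j * (v : ι → K) j)) := by
  classical
  have hfd := DUX_fd G
  have hA : ∀ g : MvPolynomial (Fin 2) k, ∀ u ∈ V, aeval ![G.Y1, G.Y2] g • u ∈ V := by
    intro g
    induction g using MvPolynomial.induction_on with
    | C a =>
        intro u hu
        rw [MvPolynomial.aeval_C, algebraMap_smul]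
        exact V.smul_mem a hu
    | add p q hp hq =>
        intro u hu
        rw [map_add, add_smul]
        exact V.add_mem (hp u hu) (hq u hu)
    | mul_X p i hp =>
        intro u hu
        rw [map_mul, mul_smul, MvPolynomial.aeval_X]
        refine hp _ ?_
        fin_cases i
        · exact hV 1 _ u G.Y1_mem hu
        · exact hV 1 _ u G.Y2_mem hu
  have hφ : ∀ (g : MvPolynomial (Fin 2) k) (v w : V),
      (w : ι → K) = aeval ![G.Y1, G.Y2] g • (v : ι → K) → φ w = g * φ v := by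
    intro g
    induction g using MvPolynomial.induction_on with
    | C a =>
        intro v w hw
        rw [MvPolynomial.aeval_C, algebraMap_smul] at hw
        have : w = a • v := Subtype.ext hw
        rw [this, map_smul, MvPolynomial.smul_eq_C_mul]
    | add p q hp hq =>
        intro v w hw
        rw [map_add, add_smul] at hw
        have : w = ⟨_, hA p v v.2⟩ + ⟨_, hA q v v.2⟩ := Subtype.ext hw
        rw [this, map_add, hp v ⟨_, hA p v v.2⟩ rfl, hq v ⟨_, hA q v v.2⟩ rfl, add_mul]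
    | mul_X p i hp =>
        intro v w hw
        rw [map_mul, mul_smul, MvPolynomial.aeval_X] at hw
        have hv' : (![G.Y1, G.Y2] i) • (v : ι → K) ∈ V := by
          fin_cases i
          · exact hV 1 _ _ G.Y1_mem v.2
          · exact hV 1 _ _ G.Y2_mem v.2
        rw [hp ⟨_, hv'⟩ w hw]
        have : φ ⟨_, hv'⟩ = X i * φ v := by
          fin_cases i
          · exact h1 v _ rfl
          · exact h2 v _ rfl
        rw [this, mul_assoc]
  have hspan : Submodule.span (FF k G.Y1 G.Y2) (V : Set (ι → K)) = ⊤ := by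
    rw [eq_top_iff]
    intro u _
    obtain ⟨t, a, ha, haR, hau⟩ := hden u
    have halg : IsAlgebraic (FF k G.Y1 G.Y2) a := IsAlgebraic.of_finite _ _
    have hinv : a⁻¹ ∈ Algebra.adjoin (FF k G.Y1 G.Y2) {a} := by
      exact Subalgebra.inv_mem_of_algebraic (Algebra.adjoin (FF k G.Y1 G.Y2) {a})
        (x := ⟨a, Algebra.self_mem_adjoin_singleton _ a⟩) halg
    rw [Algebra.adjoin_singleton_eq_range_aeval] at hinv
    obtain ⟨P, hP⟩ := hinv
    have hP' : Polynomial.aeval a P = a⁻¹ := hP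
    have e1 : u = ∑ i ∈ Finset.range (P.natDegree + 1), P.coeff i • (a ^ i • (a • u)) := by
      have e2 : a⁻¹ • (a • u) = u := inv_smul_smul₀ ha u
      rw [← hP', Polynomial.aeval_eq_sum_range, Finset.sum_smul] at e2
      rw [← e2]
      conv_rhs => rw [e2]
      exact Finset.sum_congr rfl fun i _ => smul_assoc _ _ _
    rw [e1]
    refine Submodule.sum_mem _ fun i _ => Submodule.smul_mem _ _ (Submodule.subset_span ?_)
    exact hV _ (a ^ i) _ (DUX_pow_mem G.toFil haR i) hau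
  obtain ⟨e, heV, hesp, heind⟩ :=
    Submodule.exists_fun_fin_finrank_span_eq (FF k G.Y1 G.Y2) (V : Set (ι → K))
  let b := Module.Basis.mk heind (by rw [hesp, hspan])
  have hb : ∀ i, b i = e i := fun i => Module.Basis.mk_apply heind _ i
  let ψ : (ι → K) →ₗ[FF k G.Y1 G.Y2] FF k G.Y1 G.Y2 := b.constr (FF k G.Y1 G.Y2)
    (fun i => (⟨aeval ![G.Y1, G.Y2] (φ ⟨e i, heV i⟩), DU2_aeval_mem _ _ _⟩ : FF k G.Y1 G.Y2))
  have hψ : ∀ i, algebraMap (FF k G.Y1 G.Y2) K (ψ (e i)) =
      aeval ![G.Y1, G.Y2] (φ ⟨e i, heV i⟩) := by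
    intro i
    have h := Module.Basis.constr_basis b (FF k G.Y1 G.Y2)
      (fun i => (⟨aeval ![G.Y1, G.Y2] (φ ⟨e i, heV i⟩), DU2_aeval_mem _ _ _⟩ : FF k G.Y1 G.Y2)) i
    rw [hb i] at h
    change algebraMap (FF k G.Y1 G.Y2) K (b.constr (FF k G.Y1 G.Y2)
      (fun i => (⟨aeval ![G.Y1, G.Y2] (φ ⟨e i, heV i⟩), DU2_aeval_mem _ _ _⟩ :
        FF k G.Y1 G.Y2)) (e i)) = _
    rw [h]
    rfl
  obtain ⟨ξ, hξ⟩ := DUX_repr G ψ
  refine ⟨ξ, fun v => ?_⟩
  rw [← hξ]
  obtain ⟨d, hd, hdg⟩ := DU2_comden G Finset.univ (fun i => b.repr (v : ι → K) i)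
  choose g hg using fun i => hdg i (Finset.mem_univ _)
  have hv : (v : ι → K) = ∑ i, b.repr (v : ι → K) i • e i := by
    conv_lhs => rw [← b.sum_repr (v : ι → K)]
    exact Finset.sum_congr rfl fun i _ => by rw [hb]
  have hw : aeval ![G.Y1, G.Y2] d • (v : ι → K) =
      ∑ i, aeval ![G.Y1, G.Y2] (g i) • e i := by
    conv_lhs => rw [hv]
    rw [Finset.smul_sum]
    refine Finset.sum_congr rfl fun i _ => ?_
    rw [← hg i, mul_smul]
    rfl
  have h3 : d * φ v = ∑ i, g i * φ ⟨e i, heV i⟩ := by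
    rw [← hφ d v ⟨_, hA d v v.2⟩ rfl]
    have h4 : (⟨_, hA d v v.2⟩ : V) = ∑ i, (⟨_, hA (g i) (e i) (heV i)⟩ : V) := by
      apply Subtype.ext
      rw [Submodule.coe_sum]
      exact hw
    rw [h4, map_sum]
    exact Finset.sum_congr rfl fun i _ => hφ (g i) ⟨e i, heV i⟩ _ rfl
  have h5 := congrArg (aeval ![G.Y1, G.Y2]) h3
  rw [map_mul, map_sum] at h5
  have h6 : aeval ![G.Y1, G.Y2] d * algebraMap (FF k G.Y1 G.Y2) K (ψ v) =
      ∑ i, aeval ![G.Y1, G.Y2] (g i * φ ⟨e i, heV i⟩) := by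
    conv_lhs => rw [hv]
    rw [map_sum, map_sum, Finset.mul_sum]
    refine Finset.sum_congr rfl fun i _ => ?_
    rw [map_smul, smul_eq_mul, map_mul, hψ, map_mul, ← hg i, mul_assoc]
    rfl
  exact mul_left_cancel₀ (DU2_ne G hd) (h5.trans h6.symm)

/-- **Task DU2.** -/
theorem DU2 [IsAlgClosed k] (p : ℕ) [Fact p.Prime] [CharP k p] (G : Geo k K) {N r : ℕ}
    (c : Fin N → Fin r → K) (hc : IsDatum G.toFil c) :
    ∃ P : Polynomial ℚ,
      (∃ t0 : ℤ, ∀ t ≥ t0, (Module.finrank k (UU G.toFil p c t) : ℚ) = P.eval (t : ℚ)) ∧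
      ∀ t : ℤ, P.eval (t : ℚ) ≤
        Module.finrank k (UU G.toFil p c t) +
          Module.finrank k (UU G.toFil p c (5 - 8 * p - t)) := by
  classical
  have hpp : Nat.Prime p := Fact.out
  have hcharK : CharP K p := charP_of_injective_algebraMap (algebraMap k K).injective p
  have hadd : ∀ x y : K, (x + y) ^ p = x ^ p + y ^ p := fun x y => add_pow_char x y p
  have hsum : ∀ {ι : Type} (s : Finset ι) (x : ι → K), (∑ i ∈ s, x i) ^ p = ∑ i ∈ s, x i ^ p :=
    fun s x => sum_pow_char p s x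
  obtain ⟨-, -, hfin, hbot, -, hmono, hsmul, hreg, hfg, hden⟩ := DU1 G c hc p hpp.pos hadd
  let y1 : (Fin r ⊕ Fin r → K) →ₗ[k] (Fin r ⊕ Fin r → K) :=
    { toFun := fun u => G.Y1 • u
      map_add' := fun x y => smul_add _ _ _
      map_smul' := fun a x => smul_comm _ _ _ }
  let y2 : (Fin r ⊕ Fin r → K) →ₗ[k] (Fin r ⊕ Fin r → K) :=
    { toFun := fun u => G.Y2 • u
      map_add' := fun x y => smul_add _ _ _
      map_smul' := fun a x => smul_comm _ _ _ }
  obtain ⟨P, hP0, hP⟩ := T1 y1 y2 (fun x => smul_comm _ _ _) (UU G.toFil p c) hfin hmono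
    (fun t x hx => by
      have := hsmul 1 t _ x G.Y1_mem hx
      rwa [add_comm] at this)
    (fun t x hx => by
      have := hsmul 1 t _ x G.Y2_mem hx
      rwa [add_comm] at this)
    hbot hfg hreg
  refine ⟨P, hP0, fun t => ?_⟩
  obtain ⟨s, φ, hφi, hφ1, hφ2, hφd, hφs⟩ := hP t
  refine hφs.trans ?_
  refine add_le_add le_rfl ?_
  rw [Nat.cast_le]
  have hVsmul : ∀ (s : ℤ) (a : K) (u : Fin r ⊕ Fin r → K), a ∈ G.R s →
      u ∈ (⨆ t, UU G.toFil p c t) → a • u ∈ (⨆ t, UU G.toFil p c t) := by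
    intro s a u ha hu
    refine Submodule.iSup_induction _ (motive := fun u => a • u ∈ (⨆ t, UU G.toFil p c t)) hu ?_ ?_ ?_
    · intro t x hx
      exact Submodule.mem_iSup_of_mem (s + t) (hsmul s t a x ha hx)
    · rw [smul_zero]; exact Submodule.zero_mem _
    · intro x y hx hy
      rw [smul_add]; exact Submodule.add_mem _ hx hy
  have hVden : ∀ u : Fin r ⊕ Fin r → K, ∃ (t : ℤ) (a : K), a ≠ 0 ∧ a ∈ G.R t ∧
      a • u ∈ (⨆ t, UU G.toFil p c t) := by
    intro u
    obtain ⟨t, a, ha, haR, hau⟩ := hden u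
    exact ⟨t, a, ha, haR, Submodule.mem_iSup_of_mem t hau⟩
  have hξ := fun i => DU2_ext G (⨆ t, UU G.toFil p c t) hVsmul hVden (φ i) (hφ1 i) (hφ2 i)
  choose ξ hξ using hξ
  obtain ⟨J, hJ8, hJ0, hT⟩ := G.trace
  -- the values of `J ξ`
  have hval : ∀ (i : Fin s) (u : ℤ) (v : Fin r ⊕ Fin r → K), v ∈ UU G.toFil p c u →
      J * ∑ j, ξ i j * v j ∈ G.R (u - t + 5) := by
    intro i u v hv
    have h1 := hT (u - t - 3) (∑ j, ξ i j * v j) (by
      intro s' a ha
      have h2 : a • v ∈ UU G.toFil p c (s' + u) := hsmul s' u a v ha hv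
      have h3 := hξ i ⟨a • v, Submodule.mem_iSup_of_mem _ h2⟩
      have e1 : ∑ j, ξ i j * (a • v) j = (∑ j, ξ i j * v j) * a := by
        rw [Finset.sum_mul]
        exact Finset.sum_congr rfl fun j _ => by
          rw [Pi.smul_apply, smul_eq_mul]; ring
      simp only [e1] at h3
      rw [← h3]
      refine DU2_AA _ _ _ _ fun m hm => ?_
      have h4 := hφd i (s' + u) ⟨a • v, Submodule.mem_iSup_of_mem _ h2⟩ h2 m hm
      omega)
    have e2 : (u - t - 3 + 8 : ℤ) = u - t + 5 := by ring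
    rwa [e2] at h1
  let η : Fin s → (Fin r ⊕ Fin r → K) := fun i =>
    Sum.elim (fun j => J * ξ i (Sum.inr j)) (fun j => J * ξ i (Sum.inl j))
  have hη : ∀ i, η i ∈ UU G.toFil p c (5 - 8 * p - t) := by
    intro i
    constructor
    · intro s' ζ hζ
      have hmem : (Sum.elim (fun _ => 0) (fun j => ζ j ^ p) : Fin r ⊕ Fin r → K) ∈
          UU G.toFil p c (p * s' - 8 * p) := by
        refine ⟨?_, ?_⟩
        · exact Submodule.zero_mem _
        · intro l
          have e1 : ∑ j, (fun j => (Sum.elim (fun _ => 0) (fun j => ζ j ^ p) :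
              Fin r ⊕ Fin r → K) (Sum.inr j)) j * c l j ^ p = (∑ j, ζ j * c l j ^ 1) ^ p := by
            rw [hsum]
            exact Finset.sum_congr rfl fun j _ => by
              simp only [Sum.elim_inr, pow_one, mul_pow]
          rw [e1]
          have h2 := DUX_pow_mem G.toFil (hζ l) p
          have e2 : (p * s' - 8 * p + 8 * p : ℤ) = p * s' := by ring
          rwa [e2]
      have h3 := hval i _ _ hmem
      have e3 : J * ∑ j, ξ i j * (Sum.elim (fun _ => 0) (fun j => ζ j ^ p) :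
          Fin r ⊕ Fin r → K) j = ∑ j, (fun j => η i (Sum.inl j)) j * ζ j ^ p := by
        rw [Fintype.sum_sum_type]
        simp only [Sum.elim_inl, Sum.elim_inr, mul_zero, Finset.sum_const_zero, zero_add]
        rw [Finset.mul_sum]
        exact Finset.sum_congr rfl fun j _ => by
          change _ = J * ξ i (Sum.inr j) * ζ j ^ p
          ring
      rw [e3] at h3
      have e4 : (p * s' - 8 * p - t + 5 : ℤ) = 5 - 8 * p - t + p * s' := by ring
      rwa [e4] at h3
    · intro l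
      have hmem : (Sum.elim (fun j => c l j ^ p) (fun _ => 0) : Fin r ⊕ Fin r → K) ∈
          UU G.toFil p c 0 := by
        refine ⟨?_, ?_⟩
        · intro s' ζ hζ
          have e1 : ∑ j, (fun j => (Sum.elim (fun j => c l j ^ p) (fun _ => 0) :
              Fin r ⊕ Fin r → K) (Sum.inl j)) j * ζ j ^ p = (∑ j, ζ j * c l j ^ 1) ^ p := by
            rw [hsum]
            exact Finset.sum_congr rfl fun j _ => by
              simp only [Sum.elim_inl, pow_one, mul_pow]; ring
          rw [e1, zero_add]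
          exact DUX_pow_mem G.toFil (hζ l) p
        · exact Submodule.zero_mem _
      have h3 := hval i _ _ hmem
      have e3 : J * ∑ j, ξ i j * (Sum.elim (fun j => c l j ^ p) (fun _ => 0) :
          Fin r ⊕ Fin r → K) j = ∑ j, (fun j => η i (Sum.inr j)) j * c l j ^ p := by
        rw [Fintype.sum_sum_type]
        simp only [Sum.elim_inl, Sum.elim_inr, mul_zero, Finset.sum_const_zero, add_zero]
        rw [Finset.mul_sum]
        exact Finset.sum_congr rfl fun j _ => by
          change _ = J * ξ i (Sum.inl j) * c l j ^ p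
          ring
      rw [e3] at h3
      have e4 : (0 - t + 5 : ℤ) = 5 - 8 * p - t + 8 * p := by ring
      rwa [e4] at h3
  have hind : LinearIndependent k (fun i => (⟨η i, hη i⟩ : UU G.toFil p c (5 - 8 * p - t))) := by
    rw [Fintype.linearIndependent_iff] at hφi ⊢
    intro g hg
    apply hφi g
    have h1 : ∑ i, g i • η i = 0 := by
      have h2 := congrArg Subtype.val hg
      rw [Submodule.coe_sum] at h2
      exact h2
    have h2 : ∀ j, ∑ i, g i • ξ i j = 0 := by
      intro j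
      have h3 : J * ∑ i, g i • ξ i j = 0 := by
        rcases j with j | j
        · have h4 := congrFun h1 (Sum.inr j)
          rw [Finset.sum_apply, Pi.zero_apply] at h4
          rw [← h4, Finset.mul_sum]
          exact Finset.sum_congr rfl fun i _ => by
            change _ = g i • (J * ξ i (Sum.inl j))
            rw [mul_smul_comm]
        · have h4 := congrFun h1 (Sum.inl j)
          rw [Finset.sum_apply, Pi.zero_apply] at h4
          rw [← h4, Finset.mul_sum]
          exact Finset.sum_congr rfl fun i _ => by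
            change _ = g i • (J * ξ i (Sum.inr j))
            rw [mul_smul_comm]
      exact (mul_eq_zero.1 h3).resolve_left hJ0
    apply LinearMap.ext
    intro v
    rw [LinearMap.zero_apply, LinearMap.sum_apply]
    simp only [LinearMap.smul_apply]
    by_contra hne
    apply DU2_ne G hne
    rw [map_sum]
    have h5 : ∀ i, aeval ![G.Y1, G.Y2] (g i • φ i v) =
        algebraMap (FF k G.Y1 G.Y2) K (Algebra.trace (FF k G.Y1 G.Y2) K
          (g i • ∑ j, ξ i j * (v : Fin r ⊕ Fin r → K) j)) := by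
      intro i
      rw [map_smul, hξ i v]
      have e1 : g i • ∑ j, ξ i j * (v : Fin r ⊕ Fin r → K) j =
          (algebraMap k (FF k G.Y1 G.Y2) (g i)) • ∑ j, ξ i j * (v : Fin r ⊕ Fin r → K) j := by
        rw [algebraMap_smul]
      rw [e1, map_smul, smul_eq_mul, map_mul, Algebra.smul_def]
      rfl
    rw [Finset.sum_congr rfl fun i _ => h5 i, ← map_sum, ← map_sum]
    have h6 : ∑ i, g i • ∑ j, ξ i j * (v : Fin r ⊕ Fin r → K) j = 0 := by
      have h7 : ∀ i, g i • ∑ j, ξ i j * (v : Fin r ⊕ Fin r → K) j =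
          ∑ j, (g i • ξ i j) * (v : Fin r ⊕ Fin r → K) j := by
        intro i
        rw [Finset.smul_sum]
        exact Finset.sum_congr rfl fun j _ => (smul_mul_assoc _ _ _).symm
      rw [Finset.sum_congr rfl fun i _ => h7 i, Finset.sum_comm]
      refine Finset.sum_eq_zero fun j _ => ?_
      rw [← Finset.sum_mul, h2 j, zero_mul]
    rw [h6, map_zero, map_zero]
  have hfin' := hfin (5 - 8 * p - t)
  have h7 := hind.fintype_card_le_finrank
  rwa [Fintype.card_fin] at h7

end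

end Pool.Agent.H54R2.Ul
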