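import Pool.Agent.H54R2.Ul.Defs3
import Pool.Agent.H54R2.Ul.DUX
import Pool.Agent.H54R2.Ul.St.DU1
import Pool.Agent.H54R2.Ul.St.DIMLAT

namespace Pool.Agent.H54R2.Ul

open MvPolynomial

noncomputable section

variable {k K : Type} [Field k] [Field K] [Algebra k K]

/-- **Task DUAL.** -/
theorem DUAL (p : ℕ) [Fact p.Prime] [CharP k p] (hp : 1715 < p) (G : Geo k K) {N r : ℕ}
    (c : Fin N → Fin r → K) (hc : IsDatum G.toFil c) :
    ∃ c' : Fin N → Fin r → K, IsDatum G.toFil c' ∧
      (∀ t : ℤ, Module.finrank k (W2 G.toFil p c t) ≤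
        Module.finrank k (W1 G.toFil p c' (t + 8 * p))) ∧
      ∀ t : ℤ, 0 ≤ t → (N : ℤ) * (t + 1) * (t + 2) ≤
        2 * Module.finrank k (W1 G.toFil 1 c (t + 8)) := by
  classical
  have hpp : Nat.Prime p := Fact.out
  have hcharK : CharP K p := charP_of_injective_algebraMap (algebraMap k K).injective p
  obtain ⟨J, hJ8, hJ0, hT⟩ := G.trace
  let b : Module.Basis (Fin N) (FF k G.Y1 G.Y2) (Fin r → K) := Module.Basis.mk hc.indep hc.span.ge
  have hb : ∀ i, b i = c i := fun i => Module.Basis.mk_apply hc.indep hc.span.ge i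
  have hex := fun i : Fin N => DUX_repr G (b.coord i)
  choose c' hc' using hex
  have hδ : ∀ i l, Algebra.trace (FF k G.Y1 G.Y2) K (∑ j, c' i j * c l j) =
      if i = l then 1 else 0 := by
    intro i l
    rw [← hc' i (c l), ← hb l, Module.Basis.coord_apply, Module.Basis.repr_self,
      Finsupp.single_apply]
    simp [eq_comm]
  -- expansion in the basis `c`
  have hexp : ∀ x : Fin r → K, x = ∑ l,
      Algebra.trace (FF k G.Y1 G.Y2) K (∑ j, c' l j * x j) • c l := by
    intro x
    conv_lhs => rw [← b.sum_repr x]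
    refine Finset.sum_congr rfl fun l _ => ?_
    rw [← hc' l x, Module.Basis.coord_apply, hb]
  -- expansion in the dual basis
  have hexp' : ∀ y : Fin r → K, y = ∑ l,
      Algebra.trace (FF k G.Y1 G.Y2) K (∑ j, y j * c l j) • c' l := by
    intro y
    rw [← sub_eq_zero]
    refine DUX_nondegPi G _ fun x => ?_
    have e1 : ∑ j, (y - ∑ l, Algebra.trace (FF k G.Y1 G.Y2) K (∑ j, y j * c l j) • c' l) j * x j =
        ∑ j, y j * x j - ∑ l, Algebra.trace (FF k G.Y1 G.Y2) K (∑ j, y j * c l j) •
          ∑ j, c' l j * x j := by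
      simp only [Pi.sub_apply, Finset.sum_apply, Pi.smul_apply, sub_mul, Finset.sum_sub_distrib,
        Finset.sum_mul, Finset.smul_sum, smul_mul_assoc]
      congr 1
      exact Finset.sum_comm
    have e2 : ∑ j, y j * x j = ∑ l, Algebra.trace (FF k G.Y1 G.Y2) K (∑ j, c' l j * x j) •
          ∑ j, y j * c l j := by
      have e3 : ∀ j, y j * x j =
          ∑ l, Algebra.trace (FF k G.Y1 G.Y2) K (∑ j, c' l j * x j) • (y j * c l j) := by
        intro j
        have e4 := congrFun (hexp x) j
        rw [Finset.sum_apply] at e4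
        conv_lhs => rw [e4]
        rw [Finset.mul_sum]
        exact Finset.sum_congr rfl fun l _ => by rw [Pi.smul_apply, mul_smul_comm]
      rw [Finset.sum_congr rfl fun j _ => e3 j, Finset.sum_comm]
      exact Finset.sum_congr rfl fun m _ => (Finset.smul_sum).symm
    rw [e1, map_sub, e2, map_sum, map_sum, ← Finset.sum_sub_distrib]
    refine Finset.sum_eq_zero fun l _ => ?_
    rw [map_smul, map_smul, smul_eq_mul, smul_eq_mul, mul_comm, sub_self]
  have hAAF : ∀ (t : ℤ) (g : K), g ∈ AA k G.Y1 G.Y2 t → ∃ g' : FF k G.Y1 G.Y2, (g' : K) = g :=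
    fun t g hg => ⟨⟨g, DUX_AA_F G.Y1 G.Y2 t hg⟩, rfl⟩
  have hact : ∀ (t : ℤ) (a : K), a ∈ G.R t → ∀ i l,
      algebraMap (FF k G.Y1 G.Y2) K (Algebra.trace (FF k G.Y1 G.Y2) K
        (a * ∑ j, c' i j * c l j)) ∈ AA k G.Y1 G.Y2 t := by
    intro t a ha i l
    obtain ⟨g, hg, hgc⟩ := hc.act t a ha l
    choose g' hg' using fun j => hAAF t (g j) (hg j)
    have e1 : a * ∑ j, c' i j * c l j = ∑ j, g' j • ∑ m, c' i m * c j m := by
      have e2 : ∀ j, c' i j * (a * c l j) = ∑ m, g' m • (c' i j * c m j) := by
        intro j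
        have e3 := congrFun hgc j
        rw [Pi.smul_apply, smul_eq_mul, Finset.sum_apply] at e3
        rw [e3, Finset.mul_sum]
        refine Finset.sum_congr rfl fun m _ => ?_
        rw [Pi.smul_apply, smul_eq_mul, ← hg' m, Algebra.smul_def]
        change _ = (g' m : K) * _
        ring
      rw [Finset.mul_sum]
      have e4 : ∀ j, a * (c' i j * c l j) = ∑ m, g' m • (c' i j * c m j) := by
        intro j; rw [← e2 j]; ring
      rw [Finset.sum_congr rfl fun j _ => e4 j, Finset.sum_comm]
      exact Finset.sum_congr rfl fun m _ => (Finset.smul_sum).symm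
    rw [e1, map_sum]
    have e5 : ∑ j, Algebra.trace (FF k G.Y1 G.Y2) K (g' j • ∑ m, c' i m * c j m) = g' i := by
      have e6 : ∀ j, Algebra.trace (FF k G.Y1 G.Y2) K (g' j • ∑ m, c' i m * c j m) =
          if i = j then g' j else 0 := by
        intro j
        rw [map_smul, hδ, smul_eq_mul]
        split_ifs <;> simp
      rw [Finset.sum_congr rfl fun j _ => e6 j]
      simp
    rw [e5]
    change (g' i : K) ∈ _
    rw [hg']
    exact hg i
  have hdatum : IsDatum G.toFil c' := by
    refine ⟨?_, ?_, ?_⟩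
    · rw [Fintype.linearIndependent_iff]
      intro g hg i
      have h1 : Algebra.trace (FF k G.Y1 G.Y2) K (∑ j, (∑ l, g l • c' l) j * c i j) = g i := by
        have e1 : ∑ j, (∑ l, g l • c' l) j * c i j = ∑ l, g l • ∑ j, c' l j * c i j := by
          simp only [Finset.sum_apply, Pi.smul_apply, Finset.sum_mul, Finset.smul_sum,
            smul_mul_assoc]
          exact Finset.sum_comm
        rw [e1, map_sum]
        have e6 : ∀ l, Algebra.trace (FF k G.Y1 G.Y2) K (g l • ∑ j, c' l j * c i j) =
            if l = i then g l else 0 := by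
          intro l
          rw [map_smul, hδ, smul_eq_mul]
          split_ifs <;> simp
        rw [Finset.sum_congr rfl fun j _ => e6 j]
        simp
      rw [← h1, hg]
      simp
    · rw [eq_top_iff]
      intro y _
      rw [hexp' y]
      exact Submodule.sum_mem _ fun l _ => Submodule.smul_mem _ _ (Submodule.subset_span ⟨l, rfl⟩)
    · intro t a ha i
      refine ⟨fun l => algebraMap (FF k G.Y1 G.Y2) K (Algebra.trace (FF k G.Y1 G.Y2) K
        (a * ∑ j, c' i j * c l j)), fun l => hact t a ha i l, ?_⟩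
      conv_lhs => rw [hexp' (a • c' i)]
      refine Finset.sum_congr rfl fun l _ => ?_
      have e1 : ∑ j, (a • c' i) j * c l j = a * ∑ j, c' i j * c l j := by
        rw [Finset.mul_sum]
        exact Finset.sum_congr rfl fun j _ => by simp [mul_assoc]
      rw [e1, algebraMap_smul]
  -- the vectors `J c'_i` are sections of degree 8
  have hJc : ∀ i, J • c' i ∈ W1 G.toFil 1 c 8 := by
    intro i l
    have h1 := hT 0 (∑ j, c' i j * c l j) (fun s a ha => by
      rw [mul_comm, add_zero]
      exact hact s a ha i l)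
    have e1 : ∑ j, (J • c' i) j * c l j ^ 1 = J * ∑ j, c' i j * c l j := by
      rw [Finset.mul_sum]
      exact Finset.sum_congr rfl fun j _ => by simp [mul_assoc]
    rw [e1]
    rwa [zero_add] at h1
  refine ⟨c', hdatum, ?_, ?_⟩
  · intro t
    obtain ⟨hfin, -⟩ := DU1 G c' hdatum p hpp.pos (fun x y => add_pow_char x y p)
    have := hfin (t + 8 * p)
    have hmem : ∀ x : Fin r → K, x ∈ W2 G.toFil p c t → J ^ p • x ∈ W1 G.toFil p c' (t + 8 * p) := by
      intro x hx i
      have h1 := hx 8 _ (hJc i)
      have e1 : ∑ j, (J ^ p • x) j * c' i j ^ p = ∑ j, x j * (J • c' i) j ^ p := by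
        refine Finset.sum_congr rfl fun j _ => ?_
        simp only [Pi.smul_apply, smul_eq_mul, mul_pow]
        ring
      rw [e1]
      have e2 : (t + 8 * p : ℤ) = t + p * 8 := by ring
      rw [e2]
      exact h1
    let L : W2 G.toFil p c t →ₗ[k] W1 G.toFil p c' (t + 8 * p) :=
      { toFun := fun x => ⟨J ^ p • x.1, hmem x.1 x.2⟩
        map_add' := by
          intro x y; apply Subtype.ext
          exact smul_add _ _ _
        map_smul' := by
          intro a y; apply Subtype.ext
          exact smul_comm _ _ _ }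
    refine LinearMap.finrank_le_finrank_of_injective (f := L) ?_
    intro x y hxy
    apply Subtype.ext
    have h1 : J ^ p • x.1 = J ^ p • y.1 := congrArg Subtype.val hxy
    exact smul_right_injective _ (pow_ne_zero p hJ0) h1
  · intro t ht
    obtain ⟨hfin, -⟩ := DU1 G c hc 1 one_pos (fun x y => by ring)
    have := hfin (t + 8)
    have hind : LinearIndependent (FF k G.Y1 G.Y2) (fun i => J • c' i) := by
      let M : (Fin r → K) →ₗ[FF k G.Y1 G.Y2] (Fin r → K) :=
        { toFun := fun x => J • x
          map_add' := fun x y => smul_add _ _ _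
          map_smul' := fun a x => smul_comm _ _ _ }
      have hM : LinearMap.ker M = ⊥ := by
        rw [LinearMap.ker_eq_bot]
        exact smul_right_injective _ hJ0
      exact hdatum.indep.map' M hM
    refine DIMLAT G.toFil G.algInd (fun i => J • c' i) hind t ht (W1 G.toFil 1 c (t + 8)) ?_
    intro i g hg l
    have h1 := G.mul_mem (DUX_AA_R G.toFil t hg) (hJc i l)
    have e1 : ∑ j, (g • J • c' i) j * c l j ^ 1 = g * ∑ j, (J • c' i) j * c l j ^ 1 := by
      rw [Finset.mul_sum]
      exact Finset.sum_congr rfl fun j _ => by simp [mul_assoc]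
    rw [e1]
    exact h1

end

end Pool.Agent.H54R2.Ul
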