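import Pool.Agent.H54R2.Ul.Defs2

/-! # The twelve charts: data (generated) -/

namespace Pool.Agent.H54R2.Ul

/-- exponents of the twelve pentagon coordinates -/
def chCv : Fin 12 → Fin 5 → Fin 3 :=
  ![![0, 0, 0, 0, 0],
    ![0, 1, 0, 1, 0],
    ![1, 0, 1, 0, 0],
    ![1, 1, 0, 1, 0],
    ![1, 0, 1, 1, 0],
    ![1, 0, 0, 1, 0],
    ![0, 1, 0, 0, 1],
    ![0, 1, 0, 1, 1],
    ![1, 0, 1, 0, 1],
    ![1, 1, 1, 1, 1],
    ![0, 1, 1, 0, 1],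
    ![0, 0, 1, 0, 1]]

/-- exponents of the five local coordinates of each chart (times the pentagon coordinate) -/
def chZv : Fin 12 → Fin 5 → Fin 5 → Fin 3 :=
  ![![![1, 0, 0, 0, 0], ![0, 1, 0, 0, 0], ![0, 0, 1, 0, 0], ![0, 0, 0, 1, 0], ![0, 0, 0, 0, 1]],
    ![![1, 1, 0, 2, 0], ![0, 0, 0, 1, 0], ![0, 0, 1, 0, 0], ![0, 1, 0, 0, 0], ![0, 2, 0, 1, 1]],
    ![![0, 0, 1, 0, 0], ![0, 1, 0, 0, 0], ![1, 0, 0, 0, 0], ![2, 0, 1, 1, 0], ![1, 0, 2, 0, 1]],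
    ![![1, 1, 0, 2, 0], ![2, 0, 1, 1, 0], ![1, 0, 0, 0, 0], ![0, 1, 0, 0, 0], ![0, 2, 0, 1, 1]],
    ![![0, 0, 1, 0, 0], ![0, 0, 0, 1, 0], ![1, 1, 0, 2, 0], ![2, 0, 1, 1, 0], ![1, 0, 2, 0, 1]],
    ![![1, 0, 0, 0, 0], ![2, 0, 1, 1, 0], ![1, 1, 0, 2, 0], ![0, 0, 0, 1, 0], ![0, 0, 0, 0, 1]],
    ![![1, 0, 0, 0, 0], ![0, 0, 0, 0, 1], ![0, 1, 1, 0, 2], ![0, 2, 0, 1, 1], ![0, 1, 0, 0, 0]],
    ![![1, 1, 0, 2, 0], ![0, 2, 0, 1, 1], ![0, 1, 1, 0, 2], ![0, 0, 0, 0, 1], ![0, 0, 0, 1, 0]],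
    ![![0, 1, 1, 0, 2], ![0, 0, 0, 0, 1], ![1, 0, 0, 0, 0], ![2, 0, 1, 1, 0], ![1, 0, 2, 0, 1]],
    ![![0, 1, 1, 0, 2], ![0, 2, 0, 1, 1], ![1, 1, 0, 2, 0], ![2, 0, 1, 1, 0], ![1, 0, 2, 0, 1]],
    ![![0, 0, 1, 0, 0], ![1, 0, 2, 0, 1], ![0, 1, 1, 0, 2], ![0, 2, 0, 1, 1], ![0, 1, 0, 0, 0]],
    ![![0, 1, 1, 0, 2], ![1, 0, 2, 0, 1], ![0, 0, 1, 0, 0], ![0, 0, 0, 1, 0], ![0, 0, 0, 0, 1]]]

/-- signs of the local coordinates -/
def chSgv : Fin 12 → Fin 5 → ℤ :=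
  ![![1, 1, 1, 1, 1],
    ![1, 1, -1, 1, 1],
    ![1, -1, 1, 1, 1],
    ![1, -1, 1, 1, -1],
    ![1, 1, -1, 1, -1],
    ![1, 1, 1, 1, -1],
    ![-1, 1, 1, 1, 1],
    ![-1, 1, -1, 1, 1],
    ![-1, 1, 1, -1, 1],
    ![-1, -1, -1, -1, -1],
    ![1, -1, 1, -1, 1],
    ![1, 1, 1, -1, 1]]

/-- the complementary pentagon of each chart: `(true, i)` is the edge with exponent `a i`,
`(false, i)` is the edge with exponent `b i = 1 + a i - a (i+2) - a (i+3)` -/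
def chEd : Fin 12 → Fin 5 → Bool × ZMod 5 :=
  ![![(true, 0), (true, 1), (true, 2), (true, 3), (true, 4)],
    ![(true, 0), (false, 4), (true, 2), (false, 0), (true, 4)],
    ![(false, 3), (true, 1), (false, 4), (true, 3), (true, 4)],
    ![(false, 3), (true, 2), (false, 4), (false, 2), (true, 4)],
    ![(false, 1), (false, 4), (true, 1), (false, 0), (true, 4)],
    ![(false, 1), (true, 2), (true, 1), (false, 2), (true, 4)],
    ![(true, 0), (false, 3), (true, 2), (true, 3), (false, 2)],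
    ![(true, 0), (false, 1), (true, 2), (false, 0), (false, 2)],
    ![(true, 1), (false, 3), (false, 1), (true, 3), (false, 2)],
    ![(false, 4), (false, 1), (false, 3), (false, 0), (false, 2)],
    ![(false, 3), (true, 0), (false, 4), (true, 3), (false, 0)],
    ![(true, 1), (true, 0), (false, 1), (true, 3), (false, 0)]]

/-- signs of the local coordinates -/
def chSg (c : Fin 12) (i : ZMod 5) : ℤ := chSgv c i

/-- the multiplicity of an edge in a coordinate -/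
def V22.mlt (v : V22) (e : Bool × ZMod 5) : ℕ :=
  if e.1 then v.ex e.2 else 1 + v.ex e.2 - v.ex (e.2 + 2) - v.ex (e.2 + 3)

/-- the pentagon coordinate of a chart -/
def chC (c : Fin 12) : V22 := ⟨chCv c, by revert c; decide⟩

/-- the local coordinates of a chart -/
def chZ (c : Fin 12) (i : ZMod 5) : V22 := ⟨chZv c i, by revert c i; decide⟩

/-- the exponents of a coordinate in a chart -/
def chE (c : Fin 12) (v : V22) (i : ZMod 5) : ℕ := v.mlt (chEd c i)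

end Pool.Agent.H54R2.Ul
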