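import Mathlib

/-!
# ULRICH: common definitions

Everything takes place in the function field `K` of the surface.
`R t` is the space of sections of `O(t)`, divided by the `t`-th power of the coordinate `y0`;
so `R` is an increasing filtration of `K` and `y0` has become `1`.
-/

namespace Pool.Agent.H54R2.Ul

open MvPolynomial

noncomputable section

/-! ## Part 1. Filtered section rings -/

section Fil

variable {k K : Type} [Field k] [Field K] [Algebra k K]

/-- polynomials of total degree at most `t` in the two elements `Y1`, `Y2` of `K` -/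
def AA (k : Type) {K : Type} [Field k] [Field K] [Algebra k K] (Y1 Y2 : K) (t : ℤ) :
    Submodule k K :=
  Submodule.span k {x | ∃ i j : ℕ, (i : ℤ) + j ≤ t ∧ x = Y1 ^ i * Y2 ^ j}

/-- the field `k(Y1, Y2)` -/
abbrev FF (k : Type) {K : Type} [Field k] [Field K] [Algebra k K] (Y1 Y2 : K) :
    IntermediateField k K :=
  IntermediateField.adjoin k {Y1, Y2}

/-- A filtered section ring inside the field `K`. -/
structure Fil (k K : Type) [Field k] [Field K] [Algebra k K] where
  R : ℤ → Submodule k K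
  neg : ∀ t : ℤ, t < 0 → R t = ⊥
  mono : ∀ t : ℤ, R t ≤ R (t + 1)
  one_mem : (1 : K) ∈ R 0
  zero_deg : ∀ x ∈ R 0, ∃ c : k, x = algebraMap k K c
  mul_mem : ∀ {s t : ℤ} {x y : K}, x ∈ R s → y ∈ R t → x * y ∈ R (s + t)
  Y1 : K
  Y2 : K
  Y1_mem : Y1 ∈ R 1
  Y2_mem : Y2 ∈ R 1

/-- The homogeneous coordinate ring `⊕ R t T^t` as a subalgebra of `K[T]`. -/
def Fil.Rg (G : Fil k K) : Subalgebra k (Polynomial K) where
  carrier := {f | ∀ t : ℕ, f.coeff t ∈ G.R t}
  mul_mem' := by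
    intro f g hf hg t
    rw [Polynomial.coeff_mul]
    refine Submodule.sum_mem _ fun x hx => ?_
    have h := G.mul_mem (hf x.1) (hg x.2)
    have e : (x.1 : ℤ) + (x.2 : ℤ) = (t : ℤ) := by
      exact_mod_cast Finset.HasAntidiagonal.mem_antidiagonal.1 hx
    rwa [e] at h
  add_mem' := by
    intro f g hf hg t
    rw [Polynomial.coeff_add]
    exact Submodule.add_mem _ (hf t) (hg t)
  algebraMap_mem' := by
    intro c t
    rw [Polynomial.algebraMap_apply, Polynomial.coeff_C]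
    split_ifs with h
    · subst h
      have : algebraMap k K c = c • (1 : K) := by rw [Algebra.smul_def, mul_one]
      rw [this]
      exact Submodule.smul_mem _ _ G.one_mem
    · exact Submodule.zero_mem _

lemma Fil.pow_mem (G : Fil k K) {y : K} (hy : y ∈ G.R 1) (t : ℕ) : y ^ t ∈ G.R t := by
  induction t with
  | zero => simpa using G.one_mem
  | succ n ih =>
      rw [pow_succ]
      have h := G.mul_mem ih hy
      simpa using h

/-- The ring of functions on the affine open set `y ≠ 0` of the surface, for a linear form `y`. -/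
def Fil.By (G : Fil k K) (y : K) (hy : y ∈ G.R 1) : Subalgebra k K where
  carrier := {x | ∃ t : ℕ, x * y ^ t ∈ G.R t}
  mul_mem' := by
    rintro a b ⟨s, hs⟩ ⟨t, ht⟩
    refine ⟨s + t, ?_⟩
    have h := G.mul_mem hs ht
    have e : a * b * y ^ (s + t) = a * y ^ s * (b * y ^ t) := by ring
    rw [e]; push_cast; exact h
  add_mem' := by
    rintro a b ⟨s, hs⟩ ⟨t, ht⟩
    refine ⟨s + t, ?_⟩
    have h1 := G.mul_mem hs (G.pow_mem hy t)
    have h2 := G.mul_mem ht (G.pow_mem hy s)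
    have e : (a + b) * y ^ (s + t) = a * y ^ s * y ^ t + b * y ^ t * y ^ s := by ring
    rw [e]; push_cast
    rw [add_comm (t : ℤ) (s : ℤ)] at h2
    exact Submodule.add_mem _ h1 h2
  algebraMap_mem' := by
    intro c
    refine ⟨0, ?_⟩
    have : algebraMap k K c * y ^ 0 = c • (1 : K) := by
      rw [Algebra.smul_def, pow_zero]
    rw [this]
    exact Submodule.smul_mem _ _ G.one_mem

/-- All the properties of the surface which the abstract part of the proof uses. -/
structure Geo (k K : Type) [Field k] [Field K] [Algebra k K] extends Fil k K where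
  algInd : AlgebraicIndependent k ![Y1, Y2]
  fin_dim : ∀ t : ℤ, Module.Finite k (R t)
  dim_eq : ∀ t : ℤ, 6 ≤ t →
    2 * (Module.finrank k (R t) : ℤ) = 1715 * t ^ 2 - 8575 * t + 9604
  gen_one : ∀ t : ℤ, 0 ≤ t →
    R (t + 1) ≤ Submodule.span k {x | ∃ a ∈ R 1, ∃ b ∈ R t, x = a * b}
  fin_gen : ∃ t0 : ℤ, ∀ t : ℤ, t0 ≤ t → ∀ x ∈ R (t + 1),
    ∃ a ∈ R t, ∃ b ∈ R t, ∃ c ∈ R t, x = a + Y1 * b + Y2 * c
  frac : ∀ x : K, ∃ t : ℤ, ∃ a ∈ R t, ∃ b ∈ R t, b ≠ 0 ∧ x = a / b
  normal : IsIntegrallyClosed toFil.Rg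
  noeth : IsNoetherianRing toFil.Rg
  /-- a polynomial `g` of exact degree `s` in `Y1`, `Y2` is a nonzerodivisor at infinity -/
  sat : ∀ (s t : ℤ) (g x : K), g ∈ AA k Y1 Y2 s → g ∉ AA k Y1 Y2 (s - 1) → x ∈ R t →
    g * x ∈ R (s + t - 1) → x ∈ R (t - 1)
  tangent : ∀ (y : K) (hy : y ∈ R 1), y ≠ 0 →
    ∀ m : Ideal (toFil.By y hy), m.IsMaximal →
      ∃ a ∈ m, ∃ b ∈ m, m ≤ Ideal.span {a, b} ⊔ m ^ 2
  degree : Module.finrank (FF k Y1 Y2) K = 1715
  trace : ∃ J : K, J ∈ R 8 ∧ J ≠ 0 ∧ ∀ (j : ℤ) (x : K),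
    (∀ (s : ℤ) (a : K), a ∈ R s →
      algebraMap (FF k Y1 Y2) K (Algebra.trace (FF k Y1 Y2) K (x * a)) ∈ AA k Y1 Y2 (s + j)) →
    J * x ∈ R (j + 8)

end Fil

/-! ## Part 2. Ulrich data and their Frobenius twists -/

section Datum

variable {k K : Type} [Field k] [Field K] [Algebra k K]

/-- An Ulrich sheaf of rank `r` (with `N = 1715 r`), given by the `N` vectors `c i` of `K^r`. -/
structure IsDatum (G : Fil k K) {N r : ℕ} (c : Fin N → Fin r → K) : Prop where
  indep : LinearIndependent (FF k G.Y1 G.Y2) c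
  span : Submodule.span (FF k G.Y1 G.Y2) (Set.range c) = ⊤
  act : ∀ (t : ℤ) (a : K), a ∈ G.R t → ∀ i, ∃ g : Fin N → K,
    (∀ j, g j ∈ AA k G.Y1 G.Y2 t) ∧ a • c i = ∑ j, g j • c j

/-- `W1 q c t`: the `q`-semilinear forms on the Ulrich sheaf with values in `O(t)`
(`q = 1`: the dual sheaf, `q = p`: the dual of the Frobenius pullback). -/
def W1 (G : Fil k K) (q : ℕ) {N r : ℕ} (c : Fin N → Fin r → K) (t : ℤ) :
    Submodule k (Fin r → K) where
  carrier := {w | ∀ i, ∑ j, w j * c i j ^ q ∈ G.R t}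
  add_mem' := by
    intro a b ha hb i
    have : ∑ j, (a + b) j * c i j ^ q = ∑ j, a j * c i j ^ q + ∑ j, b j * c i j ^ q := by
      rw [← Finset.sum_add_distrib]
      exact Finset.sum_congr rfl fun j _ => by simp [add_mul]
    rw [this]; exact Submodule.add_mem _ (ha i) (hb i)
  zero_mem' := by intro i; simp
  smul_mem' := by
    intro s a ha i
    have : ∑ j, (s • a) j * c i j ^ q = s • ∑ j, a j * c i j ^ q := by
      rw [Finset.smul_sum]
      exact Finset.sum_congr rfl fun j _ => by simp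
    rw [this]; exact Submodule.smul_mem _ _ (ha i)

/-- `W2 q c t`: the `q`-semilinear forms on the dual sheaf with values in `O(t)`. -/
def W2 (G : Fil k K) (q : ℕ) {N r : ℕ} (c : Fin N → Fin r → K) (t : ℤ) :
    Submodule k (Fin r → K) where
  carrier := {x | ∀ (s : ℤ) (ξ : Fin r → K), ξ ∈ W1 G 1 c s →
    ∑ j, x j * ξ j ^ q ∈ G.R (t + q * s)}
  add_mem' := by
    intro a b ha hb s ξ hξ
    have : ∑ j, (a + b) j * ξ j ^ q = ∑ j, a j * ξ j ^ q + ∑ j, b j * ξ j ^ q := by
      rw [← Finset.sum_add_distrib]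
      exact Finset.sum_congr rfl fun j _ => by simp [add_mul]
    rw [this]; exact Submodule.add_mem _ (ha s ξ hξ) (hb s ξ hξ)
  zero_mem' := by intro s ξ _; simp
  smul_mem' := by
    intro s' a ha s ξ hξ
    have : ∑ j, (s' • a) j * ξ j ^ q = s' • ∑ j, a j * ξ j ^ q := by
      rw [Finset.smul_sum]
      exact Finset.sum_congr rfl fun j _ => by simp
    rw [this]; exact Submodule.smul_mem _ _ (ha s ξ hξ)

/-- The sections of (the `q`-th Frobenius pullback of) `E ⊕ E^*(8)`, twisted by `t`. -/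
def UU (G : Fil k K) (q : ℕ) {N r : ℕ} (c : Fin N → Fin r → K) (t : ℤ) :
    Submodule k (Fin r ⊕ Fin r → K) where
  carrier := {u | (fun j => u (Sum.inl j)) ∈ W2 G q c t ∧
    (fun j => u (Sum.inr j)) ∈ W1 G q c (t + 8 * q)}
  add_mem' := by
    rintro a b ⟨h1, h2⟩ ⟨h3, h4⟩
    exact ⟨Submodule.add_mem _ h1 h3, Submodule.add_mem _ h2 h4⟩
  zero_mem' := ⟨Submodule.zero_mem _, Submodule.zero_mem _⟩
  smul_mem' := by
    rintro s a ⟨h1, h2⟩
    exact ⟨Submodule.smul_mem _ s h1, Submodule.smul_mem _ s h2⟩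

/-- words in two derivations -/
def Dw {A : Type} [CommRing A] [Algebra k A] (D1 D2 : Derivation k A A) : List Bool → A → A
  | [], x => x
  | (b :: w), x => if b then D1 (Dw D1 D2 w x) else D2 (Dw D1 D2 w x)

/-- derivations of `K` of degree at most `20` whose common constants are the `p`-th powers -/
def HasDer (G : Fil k K) (p : ℕ) : Prop :=
  ∃ D1 D2 : Derivation k K K,
    (∀ (t : ℤ) (x : K), x ∈ G.R t → D1 x ∈ G.R (t + 20) ∧ D2 x ∈ G.R (t + 20)) ∧
    ∀ x : K, D1 x = 0 → D2 x = 0 → ∃ y : K, y ^ p = x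

end Datum

/-! ## Part 3. The explicit surface -/

section Model

variable {k K : Type} [Field k] [Field K] [Algebra k K]

/-- the monomial `z^a` -/
def zm (z : ZMod 5 → K) (a : ZMod 5 → ℕ) : K := ∏ i, z i ^ a i

/-- the monomials which belong to degree `t` -/
def Allowed (t : ℤ) (a : ZMod 5 → ℕ) : Prop :=
  ∀ i : ZMod 5, (a (i + 2) : ℤ) + (a (i + 3) : ℤ) ≤ t + (a i : ℤ)

/-- the normal forms: no two exponents at distance two are both at least seven -/
def NF (a : ZMod 5 → ℕ) : Prop := ∀ i : ZMod 5, a i < 7 ∨ a (i + 2) < 7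

/-- A model of the function field: `z i ^ 7 + z (i-1) ^ 7 * z (i+1) ^ 7 = 1`. -/
structure Model (k K : Type) [Field k] [Field K] [Algebra k K] where
  z : ZMod 5 → K
  rel : ∀ i : ZMod 5, z i ^ 7 + z (i - 1) ^ 7 * z (i + 1) ^ 7 = 1
  indep : LinearIndependent k (fun a : {a : ZMod 5 → ℕ // NF a} => zm z a.1)
  frac : ∀ x : K, ∃ f g : MvPolynomial (ZMod 5) k,
    aeval z g ≠ 0 ∧ x * aeval z g = aeval z f

/-- the filtration of a model -/
def Model.RM (M : Model k K) (t : ℤ) : Submodule k K :=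
  Submodule.span k {x | ∃ a : ZMod 5 → ℕ, Allowed t a ∧ x = zm M.z a}

/-- the coordinate `y1` (divided by `y0`) -/
def Model.Y1 (M : Model k K) : K := ∏ i, M.z i

/-- the coordinate `y2` (divided by `y0`) -/
def Model.Y2 (M : Model k K) : K := M.z 0 - M.z 1 + M.z 2 - M.z 3

/-- the affine coordinate ring -/
abbrev Model.B (M : Model k K) : Subalgebra k K := Algebra.adjoin k (Set.range M.z)

/-- the five relations -/
def relPoly (k : Type) [Field k] (i : ZMod 5) : MvPolynomial (ZMod 5) k :=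
  X i ^ 7 + X (i - 1) ^ 7 * X (i + 1) ^ 7 - 1

/-- the Jacobian -/
def Model.J (M : Model k K) : K :=
  ∑ j : ZMod 5, (if j = 0 ∨ j = 2 then (1 : K) else if j = 1 ∨ j = 3 then -1 else 0) * M.z j *
    (M.z (j - 1) ^ 7 + M.z (j - 2) ^ 7 - M.z (j + 1) ^ 7 - M.z (j + 2) ^ 7)

end Model

end

end Pool.Agent.H54R2.Ul
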