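import Pool.Agent.H54R2.Ul.Defs

/-! # ULRICH: more definitions -/

namespace Pool.Agent.H54R2.Ul

open MvPolynomial

noncomputable section

section

variable {k K : Type} [Field k] [Field K] [Algebra k K]

/-- the unit vector -/
def ee (i : ZMod 5) (n : ℕ) : ZMod 5 → ℕ := fun j => if j = i then n else 0

lemma sum5 {A : Type} [AddCommMonoid A] (f : ZMod 5 → A) :
    ∑ i, f i = f 0 + f 1 + f 2 + f 3 + f 4 := Fin.sum_univ_five f

lemma allowed_iff (t : ℤ) (a : ZMod 5 → ℕ) : Allowed t a ↔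
    ((a 2 : ℤ) + a 3 ≤ t + a 0 ∧ (a 3 : ℤ) + a 4 ≤ t + a 1 ∧ (a 4 : ℤ) + a 0 ≤ t + a 2 ∧
      (a 0 : ℤ) + a 1 ≤ t + a 3 ∧ (a 1 : ℤ) + a 2 ≤ t + a 4) := by
  constructor
  · intro h
    exact ⟨h 0, h 1, h 2, h 3, h 4⟩
  · rintro ⟨h0, h1, h2, h3, h4⟩ i
    fin_cases i
    · exact h0
    · exact h1
    · exact h2
    · exact h3
    · exact h4

lemma allowed_neg {t : ℤ} (ht : t < 0) (a : ZMod 5 → ℕ) : ¬ Allowed t a := by
  rw [allowed_iff]; omega

lemma allowed_zero {a : ZMod 5 → ℕ} (h : Allowed 0 a) : a = 0 := by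
  rw [allowed_iff] at h
  funext i
  fin_cases i <;> simp only [Pi.zero_apply] <;> [change a 0 = 0; change a 1 = 0; change a 2 = 0;
    change a 3 = 0; change a 4 = 0] <;> omega

lemma Allowed.mono {s t : ℤ} (hst : s ≤ t) {a : ZMod 5 → ℕ} (h : Allowed s a) : Allowed t a :=
  fun i => (h i).trans (by omega)

lemma Allowed.add {s t : ℤ} {a b : ZMod 5 → ℕ} (ha : Allowed s a) (hb : Allowed t b) :
    Allowed (s + t) (a + b) := by
  intro i
  have h1 := ha i
  have h2 := hb i
  simp only [Pi.add_apply]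
  push_cast
  omega

lemma zm_add (z : ZMod 5 → K) (a b : ZMod 5 → ℕ) : zm z (a + b) = zm z a * zm z b := by
  simp only [zm, Pi.add_apply, pow_add, Finset.prod_mul_distrib]

lemma zm_zero (z : ZMod 5 → K) : zm z 0 = 1 := by simp [zm]

lemma zm_ee (z : ZMod 5 → K) (i : ZMod 5) (n : ℕ) : zm z (ee i n) = z i ^ n := by
  unfold zm ee
  rw [Finset.prod_eq_single i]
  · simp
  · intro j _ hj
    simp [hj]
  · intro h; exact absurd (Finset.mem_univ _) h

lemma allowed_ee (i : ZMod 5) : Allowed 1 (ee i 1) := by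
  fin_cases i <;> rw [allowed_iff] <;> decide

lemma Model.mem_RM (M : Model k K) {t : ℤ} {a : ZMod 5 → ℕ} (h : Allowed t a) :
    zm M.z a ∈ M.RM t := Submodule.subset_span ⟨a, h, rfl⟩

lemma Model.z_mem (M : Model k K) (i : ZMod 5) : M.z i ∈ M.RM 1 := by
  have := M.mem_RM (allowed_ee i)
  rwa [zm_ee, pow_one] at this

/-- the filtered section ring of a model -/
def Model.fil (M : Model k K) : Fil k K where
  R := M.RM
  neg := by
    intro t ht
    rw [Model.RM, Submodule.span_eq_bot]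
    rintro x ⟨a, ha, -⟩
    exact absurd ha (allowed_neg ht a)
  mono := by
    intro t
    apply Submodule.span_mono
    rintro x ⟨a, ha, rfl⟩
    exact ⟨a, ha.mono (by omega), rfl⟩
  one_mem := Submodule.subset_span ⟨0, by intro i; simp, by rw [zm_zero]⟩
  zero_deg := by
    intro x hx
    have h1 : M.RM 0 ≤ Submodule.span k {(1 : K)} := by
      apply Submodule.span_mono
      rintro y ⟨a, ha, rfl⟩
      rw [allowed_zero ha, zm_zero]
      exact rfl
    obtain ⟨c, hc⟩ := Submodule.mem_span_singleton.1 (h1 hx)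
    exact ⟨c, by rw [← hc, Algebra.smul_def, mul_one]⟩
  mul_mem := by
    intro s t x y hx hy
    have h : M.RM s ≤ (M.RM (s + t)).comap (LinearMap.mulRight k y) := by
      rw [Model.RM, Submodule.span_le]
      rintro _ ⟨a, ha, rfl⟩
      have h' : M.RM t ≤ (M.RM (s + t)).comap (LinearMap.mulLeft k (zm M.z a)) := by
        rw [Model.RM, Submodule.span_le]
        rintro _ ⟨b, hb, rfl⟩
        simp only [SetLike.mem_coe, Submodule.mem_comap, LinearMap.mulLeft_apply]
        rw [← zm_add]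
        exact M.mem_RM (ha.add hb)
      exact h' hy
    exact h hx
  Y1 := M.Y1
  Y2 := M.Y2
  Y1_mem := by
    have h : Allowed 1 (fun _ => 1) := by intro i; norm_num
    have := M.mem_RM h
    simpa [zm, Model.Y1] using this
  Y2_mem := by
    exact Submodule.sub_mem _ (Submodule.add_mem _ (Submodule.sub_mem _ (M.z_mem 0) (M.z_mem 1))
      (M.z_mem 2)) (M.z_mem 3)

/-- the ring of all functions regular outside the divisor `y0 = 0` -/
def Fil.BB (G : Fil k K) : Subalgebra k K where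
  carrier := {x | ∃ t : ℕ, x ∈ G.R t}
  mul_mem' := by
    rintro a b ⟨s, hs⟩ ⟨t, ht⟩
    exact ⟨s + t, by have := G.mul_mem hs ht; push_cast; exact this⟩
  add_mem' := by
    rintro a b ⟨s, hs⟩ ⟨t, ht⟩
    have hm : ∀ (u : ℤ) (n : ℕ), G.R u ≤ G.R (u + n) := by
      intro u n
      induction n with
      | zero => simp
      | succ n ih =>
          refine ih.trans ((G.mono _).trans (le_of_eq ?_))
          push_cast; ring_nf
    refine ⟨s + t, Submodule.add_mem _ ?_ ?_⟩
    · have := hm s t hs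
      push_cast; exact this
    · have := hm t s ht
      push_cast; rw [add_comm]; exact this
  algebraMap_mem' := by
    intro c
    refine ⟨0, ?_⟩
    have : algebraMap k K c = c • (1 : K) := by rw [Algebra.smul_def, mul_one]
    rw [this]
    exact Submodule.smul_mem _ _ (by simpa using G.one_mem)

/-- The boundary `y0 = 0` of the surface: finitely many curves. -/
structure Bdry (G : Fil k K) where
  ι : Type
  [fin : Fintype ι]
  D : Type
  [ring : CommRing D]
  [dom : IsDomain D]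
  [alg : Algebra k D]
  gr : ℤ → Submodule k D
  gr_indep : iSupIndep gr
  ρ : ι → ∀ t : ℤ, G.R t →ₗ[k] D
  ρ_gr : ∀ i t (x : G.R t), ρ i t x ∈ gr t
  ρ_one : ∀ i (e : G.R 0), (e : K) = 1 → ρ i 0 e = 1
  ρ_mul : ∀ i (s t : ℤ) (x : G.R s) (y : G.R t) (w : G.R (s + t)), (w : K) = x * y →
    ρ i (s + t) w = ρ i s x * ρ i t y
  ρ_ker : ∀ t (x : G.R t), (∀ i, ρ i t x = 0) ↔ (x : K) ∈ G.R (t - 1)
  ρ_inj : ∀ i, AlgebraicIndependent k ![ρ i 1 ⟨G.Y1, G.Y1_mem⟩, ρ i 1 ⟨G.Y2, G.Y2_mem⟩]
  ρ_fin : ∀ i, (MvPolynomial.aeval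
    ![ρ i 1 ⟨G.Y1, G.Y1_mem⟩, ρ i 1 ⟨G.Y2, G.Y2_mem⟩] : MvPolynomial (Fin 2) k →ₐ[k] D).toRingHom.Finite

/-- `x` lies in the localisation of the homogeneous coordinate ring at the prime `q` -/
def InLoc (G : Fil k K) (q : Ideal G.Rg) (x : FractionRing (Polynomial K)) : Prop :=
  ∃ a s : G.Rg, s ∉ q ∧ x * algebraMap (Polynomial K) (FractionRing (Polynomial K)) s.1 =
    algebraMap (Polynomial K) (FractionRing (Polynomial K)) a.1

/-- the element `x T^n` of the fraction field -/
def xT {K : Type} [Field K] (x : K) (n : ℤ) : FractionRing (Polynomial K) :=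
  algebraMap (Polynomial K) (FractionRing (Polynomial K)) (Polynomial.C x) *
    (algebraMap (Polynomial K) (FractionRing (Polynomial K)) Polynomial.X) ^ n

end

/-! ## The link with matrices -/

/-- the 22 coordinates -/
def V22 : Type := {a : ZMod 5 → Fin 3 //
  ∀ i, (a (i + 2)).val + (a (i + 3)).val ≤ 1 + (a i).val}

instance : DecidableEq (ZMod 5 → Fin 3) := inferInstanceAs (DecidableEq (Fin 5 → Fin 3))
instance : Fintype (ZMod 5 → Fin 3) := inferInstanceAs (Fintype (Fin 5 → Fin 3))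
instance : DecidableEq V22 := inferInstanceAs (DecidableEq {a : ZMod 5 → Fin 3 //
  ∀ i, (a (i + 2)).val + (a (i + 3)).val ≤ 1 + (a i).val})
instance : Fintype V22 := inferInstanceAs (Fintype {a : ZMod 5 → Fin 3 //
  ∀ i, (a (i + 2)).val + (a (i + 3)).val ≤ 1 + (a i).val})

/-- the exponent of a coordinate -/
def V22.ex (v : V22) : ZMod 5 → ℕ := fun i => (v.1 i).val

/-- the exponent of a monomial in the coordinates -/
def vsum (u : V22 →₀ ℕ) : ZMod 5 → ℕ := fun i => u.sum fun v n => n * v.ex i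

/-- the degree of a monomial in the coordinates -/
def vdeg (u : V22 →₀ ℕ) : ℕ := u.sum fun _ n => n

/-- The integral binomials and trinomials which generate the ideal of the surface. -/
def RelZ : Set (MvPolynomial V22 ℤ) :=
  {f | (∃ u u' : V22 →₀ ℕ, vdeg u = vdeg u' ∧ vsum u = vsum u' ∧
      f = monomial u 1 - monomial u' 1) ∨
    (∃ (u u' u'' : V22 →₀ ℕ) (i : ZMod 5), vdeg u = vdeg u'' ∧ vdeg u' = vdeg u'' ∧
      vsum u = vsum u'' + ee i 7 ∧ vsum u' = vsum u'' + ee (i - 1) 7 + ee (i + 1) 7 ∧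
      f = monomial u 1 + monomial u' 1 - monomial u'' 1)}

/-- the ideal of the surface -/
def II (k : Type) [Field k] : Ideal (MvPolynomial V22 k) :=
  Ideal.span (MvPolynomial.map (Int.castRingHom k) '' RelZ)

/-- the coordinate with exponent `(0,…,0)` -/
def v0 : V22 := ⟨fun _ => 0, by decide⟩
/-- the coordinate with exponent `(1,…,1)` -/
def v1 : V22 := ⟨fun _ => 1, by decide⟩
/-- the coordinate with exponent `e_i` -/
def ve (i : ZMod 5) : V22 := ⟨fun j => if j = i then 1 else 0, by revert i; decide⟩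

/-- the three linear forms of the projection -/
def ell (R : Type) [CommRing R] : Fin 3 → MvPolynomial V22 R :=
  ![X v0, X v1, X (ve 0) - X (ve 1) + X (ve 2) - X (ve 3)]

/-- the parametrisation of the cone over the surface -/
def Theta {k K : Type} [Field k] [Field K] [Algebra k K] (M : Model k K) :
    MvPolynomial V22 k →ₐ[k] Polynomial K :=
  aeval fun v => Polynomial.C (zm M.z v.ex) * Polynomial.X

end

end Pool.Agent.H54R2.Ul
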