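import Pool.Agent.H54R2.Ul.Data

/-! # ULRICH: further definitions used by the tasks -/

namespace Pool.Agent.H54R2.Ul

open MvPolynomial

noncomputable section

/-- polynomials in two variables of total degree at most `t` -/
def Pl (k : Type) [Field k] (t : ℤ) : Submodule k (MvPolynomial (Fin 2) k) where
  carrier := {f | ∀ m ∈ f.support, (m 0 : ℤ) + m 1 ≤ t}
  add_mem' := by
    intro a b ha hb m hm
    rcases Finset.mem_union.1 (MvPolynomial.support_add hm) with h | h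
    · exact ha m h
    · exact hb m h
  zero_mem' := by intro m hm; simp at hm
  smul_mem' := by
    intro c f hf m hm
    exact hf m (MvPolynomial.support_smul hm)

section

variable {k K : Type} [Field k] [Field K] [Algebra k K]

/-- height-one primes of a normal domain (the local ring has a uniformiser) -/
def HtOne {A : Type} [CommRing A] (q : Ideal A) : Prop :=
  q.IsPrime ∧ q ≠ ⊥ ∧ ∃ π ∈ q, ∀ a ∈ q, ∃ s, s ∉ q ∧ ∃ b, s * a = b * π

/-- the degree `t` part of the ideal generated by the `q`-th powers of elements of `J` -/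
def Jpow (G : Fil k K) (q : ℕ) (J : ℤ → Submodule k K) (t : ℤ) : Submodule k K :=
  Submodule.span k {y | ∃ (s : ℤ) (x a : K), x ∈ J s ∧ a ∈ G.R (t - q * s) ∧ y = a * x ^ q}

/-- Local structure of the lattice spanned by the vectors `c i` at a prime `q` of the homogeneous
coordinate ring: the columns of `Q` are a basis, `Q' = Q⁻¹`. -/
structure LocD (G : Fil k K) {N r : ℕ} (c : Fin N → Fin r → K) (q : Ideal G.Rg) where
  Q : Matrix (Fin r) (Fin r) (FractionRing (Polynomial K))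
  Q' : Matrix (Fin r) (Fin r) (FractionRing (Polynomial K))
  mul_eq : Q * Q' = 1
  mul_eq' : Q' * Q = 1
  int : ∀ i j, InLoc G q (∑ l, Q' j l * xT (c i l) 0)
  col : ∀ j, ∃ g : Fin N → FractionRing (Polynomial K), (∀ i, InLoc G q (g i)) ∧
    ∀ l, Q l j = ∑ i, g i * xT (c i l) 0
  row : ∀ j, ∃ (n : ℕ) (g : Fin n → FractionRing (Polynomial K)) (s : Fin n → ℕ)
    (ξ : Fin n → Fin r → K), (∀ i, InLoc G q (g i)) ∧ (∀ i, ξ i ∈ W1 G 1 c (s i)) ∧
      ∀ l, Q' j l = ∑ i, g i * xT (ξ i l) (s i)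

/-- Local coordinates of a section of (the `n`-th Frobenius twist of) `E ⊕ E^*(8)` in degree `t`. -/
def LocD.rho {G : Fil k K} {N r : ℕ} {c : Fin N → Fin r → K} {q : Ideal G.Rg} (D : LocD G c q)
    (n : ℕ) (t : ℤ) (u : Fin r ⊕ Fin r → K) : Fin r ⊕ Fin r → FractionRing (Polynomial K) :=
  Sum.elim (fun j => ∑ l, D.Q' j l ^ n * xT (u (Sum.inl l)) t)
    (fun j => ∑ l, xT (u (Sum.inr l)) (t + 8 * n) * D.Q l j ^ n)

/-- `z 0 * z 1 * z 2 * z 3 * z 4` to the sixth power -/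
def Model.Pi6 (M : Model k K) : K := (∏ i, M.z i) ^ 6

/-- the Jacobian matrix of `g0, g1, g3, Y1, Y2` -/
def jacM {R : Type} [CommRing R] (z : ZMod 5 → R) : Matrix (Fin 5) (Fin 5) R :=
  !![7 * z 0 ^ 6, 7 * z 4 ^ 7 * z 1 ^ 6, 0, 0, 7 * z 4 ^ 6 * z 1 ^ 7;
     7 * z 0 ^ 6 * z 2 ^ 7, 7 * z 1 ^ 6, 7 * z 0 ^ 7 * z 2 ^ 6, 0, 0;
     0, 0, 7 * z 2 ^ 6 * z 4 ^ 7, 7 * z 3 ^ 6, 7 * z 2 ^ 7 * z 4 ^ 6;
     z 1 * z 2 * z 3 * z 4, z 0 * z 2 * z 3 * z 4, z 0 * z 1 * z 3 * z 4, z 0 * z 1 * z 2 * z 4,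
       z 0 * z 1 * z 2 * z 3;
     1, -1, 1, -1, 0]

end

end

end Pool.Agent.H54R2.Ul
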