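import Pool.Agent.H54R2.Ul.Defs3

namespace Pool.Agent.H54R2.Ul

open MvPolynomial

noncomputable section

variable {k K : Type} [Field k] [Field K] [Algebra k K]

/-- the exact sequence `B/n → B/A → B/(A+(z)) → 0`, upper bound -/
theorem FROB_upper {k B : Type} [Field k] [CommRing B] [Algebra k B] (A n : Ideal B) (z : B)
    (h : ∀ y ∈ n, y * z ∈ A) (h1 : Module.Finite k (B ⧸ n))
    (h2 : Module.Finite k (B ⧸ (A ⊔ Ideal.span {z}))) :
    Module.Finite k (B ⧸ A) ∧ Module.finrank k (B ⧸ A) ≤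
      Module.finrank k (B ⧸ n) + Module.finrank k (B ⧸ (A ⊔ Ideal.span {z})) := by
  let f : (B ⧸ n) →ₗ[B] (B ⧸ A) := Submodule.mapQ n A (LinearMap.toSpanSingleton B B z) (by
    intro y hy
    simp only [Submodule.mem_comap, LinearMap.toSpanSingleton_apply, smul_eq_mul]
    exact h y hy)
  let g : (B ⧸ A) →ₗ[B] (B ⧸ (A ⊔ Ideal.span {z})) := Submodule.mapQ A (A ⊔ Ideal.span {z}) LinearMap.id
    (by intro y hy; exact Ideal.mem_sup_left hy)
  have hfg : ∀ q : B ⧸ A, g q = 0 → ∃ c, f c = q := by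
    intro q hq
    obtain ⟨b, rfl⟩ := Submodule.Quotient.mk_surjective A q
    have hb : b ∈ A ⊔ Ideal.span {z} := by
      have : g (Submodule.Quotient.mk b) = Submodule.Quotient.mk b := rfl
      rw [this, Submodule.Quotient.mk_eq_zero] at hq
      exact hq
    obtain ⟨a, ha, w, hw, rfl⟩ := Submodule.mem_sup.mp hb
    obtain ⟨c, rfl⟩ := Ideal.mem_span_singleton'.mp hw
    refine ⟨Submodule.Quotient.mk c, ?_⟩
    have : f (Submodule.Quotient.mk c) = Submodule.Quotient.mk (c • z) := rfl
    rw [this, Submodule.Quotient.eq]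
    have : c • z - (a + c * z) = -a := by rw [smul_eq_mul]; ring
    rw [this]
    exact A.neg_mem ha
  let f' := f.restrictScalars k
  let g' := g.restrictScalars k
  have hker : LinearMap.ker g' ≤ LinearMap.range f' := by
    intro q hq
    obtain ⟨c, hc⟩ := hfg q hq
    exact ⟨c, hc⟩
  have hfin : Module.Finite k (B ⧸ A) := by
    rw [Module.finite_def]
    refine Submodule.fg_of_fg_map_of_fg_inf_ker g' ?_ ?_
    · exact IsNoetherian.noetherian _
    · have hFG : ((LinearMap.range f')).FG := by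
        rw [LinearMap.range_eq_map]
        exact Submodule.FG.map _ Module.Finite.fg_top
      have h3 : (⊤ ⊓ LinearMap.ker g') ≤ LinearMap.range f' := inf_le_right.trans hker
      exact Submodule.FG.of_le hFG h3
  refine ⟨hfin, ?_⟩
  have h3 := LinearMap.finrank_range_add_finrank_ker g'
  have h4 : Module.finrank k (LinearMap.range g') ≤ Module.finrank k (B ⧸ (A ⊔ Ideal.span {z})) :=
    Submodule.finrank_le _
  have h5 : Module.finrank k (LinearMap.ker g') ≤ Module.finrank k (LinearMap.range f') :=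
    Submodule.finrank_mono hker
  have h6 : Module.finrank k (LinearMap.range f') ≤ Module.finrank k (B ⧸ n) :=
    LinearMap.finrank_range_le f'
  omega

/-- the exact sequence `0 → B/n → B/A → B/(A+(z)) → 0`, lower bound -/
theorem FROB_lower {k B : Type} [Field k] [CommRing B] [Algebra k B] (A n : Ideal B) (z : B)
    (h : ∀ y, y ∈ n ↔ y * z ∈ A) (hA : Module.Finite k (B ⧸ A)) :
    Module.finrank k (B ⧸ n) + Module.finrank k (B ⧸ (A ⊔ Ideal.span {z})) ≤
      Module.finrank k (B ⧸ A) := by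
  let f : (B ⧸ n) →ₗ[B] (B ⧸ A) := Submodule.mapQ n A (LinearMap.toSpanSingleton B B z) (by
    intro y hy
    simp only [Submodule.mem_comap, LinearMap.toSpanSingleton_apply, smul_eq_mul]
    exact (h y).mp hy)
  let g : (B ⧸ A) →ₗ[B] (B ⧸ (A ⊔ Ideal.span {z})) := Submodule.mapQ A (A ⊔ Ideal.span {z}) LinearMap.id
    (by intro y hy; exact Ideal.mem_sup_left hy)
  have hgf : ∀ c : B ⧸ n, g (f c) = 0 := by
    intro c
    obtain ⟨b, rfl⟩ := Submodule.Quotient.mk_surjective n c
    have h1 : g (f (Submodule.Quotient.mk b)) = Submodule.Quotient.mk (b • z) := rfl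
    rw [h1, Submodule.Quotient.mk_eq_zero]
    exact Ideal.mem_sup_right (Ideal.mul_mem_left _ _ (Ideal.subset_span rfl))
  have hinj : Function.Injective f := by
    rw [injective_iff_map_eq_zero]
    intro c hc
    obtain ⟨b, rfl⟩ := Submodule.Quotient.mk_surjective n c
    have h1 : f (Submodule.Quotient.mk b) = Submodule.Quotient.mk (b • z) := rfl
    rw [h1, Submodule.Quotient.mk_eq_zero] at hc
    rw [Submodule.Quotient.mk_eq_zero]
    exact (h b).mpr hc
  have hsurj : Function.Surjective g := by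
    intro c
    obtain ⟨b, rfl⟩ := Submodule.Quotient.mk_surjective _ c
    exact ⟨Submodule.Quotient.mk b, rfl⟩
  let f' := f.restrictScalars k
  let g' := g.restrictScalars k
  have h3 := LinearMap.finrank_range_add_finrank_ker g'
  have h4 : Module.finrank k (LinearMap.range g') = Module.finrank k (B ⧸ (A ⊔ Ideal.span {z})) :=
    by rw [LinearMap.range_eq_top.mpr (show Function.Surjective g' from hsurj), finrank_top]
  have hle : LinearMap.range f' ≤ LinearMap.ker g' := by
    rintro _ ⟨c, rfl⟩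
    exact hgf c
  have h5 : Module.finrank k (LinearMap.range f') ≤ Module.finrank k (LinearMap.ker g') :=
    Submodule.finrank_mono hle
  have h6 : Module.finrank k (LinearMap.range f') = Module.finrank k (B ⧸ n) :=
    LinearMap.finrank_range_of_inj (f := f') hinj
  omega

/-- the colength of `m^[p]` for a maximal ideal `m` with two-dimensional cotangent space -/
theorem FROB_max {k B : Type} [Field k] [IsAlgClosed k] (p : ℕ) [Fact p.Prime]
    [CommRing B] [Algebra k B] [Algebra.FiniteType k B] (m : Ideal B) (hm : m.IsMaximal)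
    (a b : B) (ha : a ∈ m) (hb : b ∈ m) (hab : m ≤ Ideal.span {a, b} ⊔ m ^ 2) (n : Ideal B)
    (hn : ∀ x ∈ m, x ^ p ∈ n) :
    Module.Finite k (B ⧸ n) ∧ Module.finrank k (B ⧸ n) ≤ p ^ 2 := by
  have hp : 0 < p := (Fact.out : p.Prime).pos
  have hNoeth : IsNoetherianRing B := Algebra.FiniteType.isNoetherianRing k B
  -- `B = k + m`
  have hkm : ∀ x : B, ∃ c : k, x - algebraMap k B c ∈ m := by
    intro x
    let := Ideal.Quotient.field m
    have h1 : Module.Finite k (B ⧸ m) := finite_of_finite_type_of_isJacobsonRing k (B ⧸ m)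
    have h2 : Function.Bijective (algebraMap k (B ⧸ m)) :=
      IsAlgClosed.algebraMap_bijective_of_isIntegral
    obtain ⟨c, hc⟩ := h2.2 (Ideal.Quotient.mk m x)
    refine ⟨c, ?_⟩
    rw [← Ideal.Quotient.eq, ← hc]
    rfl
  -- `m^N ≤ n`
  obtain ⟨N, hN⟩ : ∃ N : ℕ, m ^ N ≤ n := by
    refine Ideal.exists_pow_le_of_le_radical_of_fg ?_ (IsNoetherian.noetherian m)
    intro x hx
    exact ⟨p, hn x hx⟩
  -- `m ≤ (a,b) + m^M`
  have hM : ∀ M : ℕ, m ≤ Ideal.span {a, b} ⊔ m ^ (M + 1) := by
    intro M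
    induction M with
    | zero => rw [zero_add, pow_one]; exact le_sup_right
    | succ M ih =>
      refine hab.trans (sup_le le_sup_left ?_)
      rw [pow_two]
      calc m * m ≤ m * (Ideal.span {a, b} ⊔ m ^ (M + 1)) := Ideal.mul_mono_right ih
        _ = m * Ideal.span {a, b} ⊔ m * m ^ (M + 1) := Ideal.mul_sup _ _ _
        _ ≤ Ideal.span {a, b} ⊔ m ^ (M + 1 + 1) := by
          refine sup_le_sup Ideal.mul_le_right ?_
          rw [← pow_succ']
  have hmn : m ≤ Ideal.span {a, b} ⊔ n :=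
    (hM N).trans (sup_le_sup le_rfl ((Ideal.pow_le_pow_right (Nat.le_succ N)).trans hN))
  let mon : Fin p × Fin p → B := fun ij => a ^ (ij.1 : ℕ) * b ^ (ij.2 : ℕ)
  let W : Submodule k B := Submodule.span k (Set.range mon) ⊔ n.restrictScalars k
  have hnW : ∀ x ∈ n, x ∈ W := fun x hx => Submodule.mem_sup_right hx
  have hmonW : ∀ i j : ℕ, a ^ i * b ^ j ∈ W := by
    intro i j
    by_cases hi : i < p
    · by_cases hj : j < p
      · exact Submodule.mem_sup_left (Submodule.subset_span ⟨(⟨i, hi⟩, ⟨j, hj⟩), rfl⟩)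
      · refine hnW _ ?_
        have : b ^ j = b ^ p * b ^ (j - p) := by rw [← pow_add]; congr 1; omega
        rw [this]
        exact Ideal.mul_mem_left _ _ (Ideal.mul_mem_right _ _ (hn b hb))
    · refine hnW _ ?_
      have : a ^ i = a ^ p * a ^ (i - p) := by rw [← pow_add]; congr 1; omega
      rw [this]
      exact Ideal.mul_mem_right _ _ (Ideal.mul_mem_right _ _ (hn a ha))
  have haW : ∀ w ∈ W, a * w ∈ W := by
    intro w hw
    obtain ⟨s, hs, t, ht, rfl⟩ := Submodule.mem_sup.mp hw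
    rw [mul_add]
    refine W.add_mem ?_ (hnW _ (Ideal.mul_mem_left _ _ ht))
    induction hs using Submodule.span_induction with
    | mem x hx =>
      obtain ⟨ij, rfl⟩ := hx
      have : a * mon ij = a ^ ((ij.1 : ℕ) + 1) * b ^ (ij.2 : ℕ) := by
        simp only [mon]; ring
      rw [this]
      exact hmonW _ _
    | zero => rw [mul_zero]; exact W.zero_mem
    | add x y _ _ hx hy =>
      rw [mul_add]
      exact W.add_mem (hx (Submodule.mem_sup.mpr ⟨x, by assumption, t, ht, rfl⟩)) (hy (Submodule.mem_sup.mpr ⟨y, by assumption, t, ht, rfl⟩))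
    | smul c x _ hx =>
      rw [mul_smul_comm]
      exact W.smul_mem _ (hx (Submodule.mem_sup.mpr ⟨x, by assumption, t, ht, rfl⟩))
  have hbW : ∀ w ∈ W, b * w ∈ W := by
    intro w hw
    obtain ⟨s, hs, t, ht, rfl⟩ := Submodule.mem_sup.mp hw
    rw [mul_add]
    refine W.add_mem ?_ (hnW _ (Ideal.mul_mem_left _ _ ht))
    clear hw
    induction hs using Submodule.span_induction with
    | mem x hx =>
      obtain ⟨ij, rfl⟩ := hx
      have : b * mon ij = a ^ (ij.1 : ℕ) * b ^ ((ij.2 : ℕ) + 1) := by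
        simp only [mon]; ring
      rw [this]
      exact hmonW _ _
    | zero => rw [mul_zero]; exact W.zero_mem
    | add x y _ _ hx hy =>
      rw [mul_add]
      exact W.add_mem hx hy
    | smul c x _ hx =>
      rw [mul_smul_comm]
      exact W.smul_mem _ hx
  have hdec : ∀ x : B, ∃ c : k, ∃ u v t : B, t ∈ n ∧ x = algebraMap k B c + a * u + b * v + t := by
    intro x
    obtain ⟨c, hc⟩ := hkm x
    obtain ⟨s, hs, t, ht, hst⟩ := Submodule.mem_sup.mp (hmn hc)
    obtain ⟨u, v, huv⟩ := Ideal.mem_span_pair.mp hs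
    refine ⟨c, u, v, t, ht, ?_⟩
    have : x = algebraMap k B c + (s + t) := by rw [hst]; ring
    rw [this, ← huv]; ring
  have hall : ∀ M : ℕ, ∀ x : B, ∃ w ∈ W, ∃ y ∈ m ^ M, x = w + y := by
    intro M
    induction M with
    | zero => intro x; exact ⟨0, W.zero_mem, x, by simp, by simp⟩
    | succ M ih =>
      intro x
      obtain ⟨c, u, v, t, ht, hx⟩ := hdec x
      obtain ⟨w1, hw1, y1, hy1, hu⟩ := ih u
      obtain ⟨w2, hw2, y2, hy2, hv⟩ := ih v
      refine ⟨algebraMap k B c + a * w1 + b * w2 + t, ?_, a * y1 + b * y2, ?_, ?_⟩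
      · refine W.add_mem (W.add_mem (W.add_mem ?_ (haW _ hw1)) (hbW _ hw2)) (hnW _ ht)
        have h1 : algebraMap k B c = c • (a ^ 0 * b ^ 0) := by
          rw [pow_zero, pow_zero, mul_one, Algebra.algebraMap_eq_smul_one]
        rw [h1]
        exact W.smul_mem _ (hmonW 0 0)
      · rw [pow_succ']
        exact Ideal.add_mem _ (Ideal.mul_mem_mul ha hy1) (Ideal.mul_mem_mul hb hy2)
      · rw [hx, hu, hv]; ring
  have hWtop : ∀ x : B, x ∈ W := by
    intro x
    obtain ⟨w, hw, y, hy, rfl⟩ := hall N x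
    exact W.add_mem hw (hnW _ (hN hy))
  -- the surjection `k^(p^2) → B/n`
  let φ : (Fin p × Fin p → k) →ₗ[k] (B ⧸ n) :=
    ((Ideal.Quotient.mkₐ k n).toLinearMap).comp (Fintype.linearCombination k mon)
  have hφ : Function.Surjective φ := by
    intro q
    obtain ⟨x, rfl⟩ := Ideal.Quotient.mk_surjective q
    obtain ⟨s, hs, t, ht, hst⟩ := Submodule.mem_sup.mp (hWtop x)
    rw [← Fintype.range_linearCombination] at hs
    obtain ⟨c, hc⟩ := hs
    refine ⟨c, ?_⟩
    change Ideal.Quotient.mk n (Fintype.linearCombination k mon c) = Ideal.Quotient.mk n x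
    rw [hc, ← hst, Ideal.Quotient.eq]
    have : s - (s + t) = -t := by ring
    rw [this]
    exact n.neg_mem ht
  refine ⟨Module.Finite.of_surjective φ hφ, ?_⟩
  have h1 := LinearMap.finrank_le_finrank_of_surjective hφ
  refine h1.trans ?_
  rw [Module.finrank_pi]
  simp [Fintype.card_prod, pow_two]

/-- **Task FROB.** -/
theorem FROB {k B : Type} [Field k] [IsAlgClosed k] (p : ℕ) [Fact p.Prime] [CharP k p]
    [CommRing B] [Algebra k B] [Algebra.FiniteType k B]
    (htan : ∀ m : Ideal B, m.IsMaximal → ∃ a ∈ m, ∃ b ∈ m, m ≤ Ideal.span {a, b} ⊔ m ^ 2)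
    (J : Ideal B) (hJ : Module.Finite k (B ⧸ J)) :
    Module.Finite k (B ⧸ Ideal.span ((fun x => x ^ p) '' (J : Set B))) ∧
    Module.finrank k (B ⧸ Ideal.span ((fun x => x ^ p) '' (J : Set B))) ≤
      p ^ 2 * Module.finrank k (B ⧸ J) := by
  have hp : 0 < p := (Fact.out : p.Prime).pos
  induction hd : Module.finrank k (B ⧸ J) using Nat.strong_induction_on generalizing J with
  | _ d ih =>
  by_cases hJtop : J = ⊤
  · subst hJtop
    have h1 : Ideal.span ((fun x : B => x ^ p) '' ((⊤ : Ideal B) : Set B)) = ⊤ := by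
      rw [Ideal.eq_top_iff_one]
      exact Ideal.subset_span ⟨1, trivial, one_pow p⟩
    have h2 : Subsingleton (B ⧸ Ideal.span ((fun x : B => x ^ p) '' ((⊤ : Ideal B) : Set B))) :=
      Ideal.Quotient.subsingleton_iff.mpr h1
    refine ⟨inferInstance, ?_⟩
    rw [Module.finrank_zero_of_subsingleton]
    exact Nat.zero_le _
  have hBJ : Nontrivial (B ⧸ J) := Ideal.Quotient.nontrivial_iff.mpr hJtop
  have hBn : Nontrivial B := (Ideal.Quotient.mk J).domain_nontrivial
  have : CharP B p := charP_of_injective_algebraMap (algebraMap k B).injective p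
  -- a simple submodule
  have hart : IsArtinian k (B ⧸ J) := inferInstance
  have hart2 : IsArtinian B (B ⧸ J) := isArtinian_of_tower k hart
  obtain ⟨x, hx, m, hm, hmx⟩ : ∃ x : B, x ∉ J ∧ ∃ m : Ideal B, m.IsMaximal ∧ ∀ y, y ∈ m ↔ y * x ∈ J := by
    have hat : IsAtomic (Submodule B (B ⧸ J)) :=
      isAtomic_of_orderBot_wellFounded_lt (wellFounded_lt)
    obtain ⟨S, hS⟩ := IsAtomic.exists_atom (Submodule B (B ⧸ J))
    have hsimple : IsSimpleModule B S := isSimpleModule_iff_isAtom.mpr hS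
    have hSn : Nontrivial S := hsimple.nontrivial
    obtain ⟨q, hq⟩ := exists_ne (0 : S)
    obtain ⟨x, hx⟩ := Submodule.Quotient.mk_surjective J q.1
    refine ⟨x, ?_, LinearMap.ker (LinearMap.toSpanSingleton B S q),
      IsSimpleModule.ker_toSpanSingleton_isMaximal B hq, ?_⟩
    · intro hxJ
      apply hq
      apply Subtype.ext
      rw [← hx]
      exact (Submodule.Quotient.mk_eq_zero J).mpr hxJ
    · intro y
      rw [LinearMap.mem_ker, LinearMap.toSpanSingleton_apply]
      rw [← Submodule.coe_eq_zero, Submodule.coe_smul, ← hx, ← Submodule.Quotient.mk_smul,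
        Submodule.Quotient.mk_eq_zero, smul_eq_mul]
  have hlow := FROB_lower (k := k) J m x hmx hJ
  have hmfin : Module.Finite k (B ⧸ m) := by
    let := Ideal.Quotient.field m
    exact finite_of_finite_type_of_isJacobsonRing k (B ⧸ m)
  have hmpos : 0 < Module.finrank k (B ⧸ m) := by
    have : Nontrivial (B ⧸ m) := Ideal.Quotient.nontrivial_iff.mpr hm.ne_top
    exact Module.finrank_pos
  have hJ'fin : Module.Finite k (B ⧸ (J ⊔ Ideal.span {x})) := by
    let g : (B ⧸ J) →ₗ[B] (B ⧸ (J ⊔ Ideal.span {x})) :=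
      Submodule.mapQ J (J ⊔ Ideal.span {x}) LinearMap.id (by intro y hy; exact Ideal.mem_sup_left hy)
    refine Module.Finite.of_surjective (g.restrictScalars k) ?_
    intro c
    obtain ⟨b, rfl⟩ := Submodule.Quotient.mk_surjective _ c
    exact ⟨Submodule.Quotient.mk b, rfl⟩
  obtain ⟨ihf, ihr⟩ := ih (Module.finrank k (B ⧸ (J ⊔ Ideal.span {x}))) (by omega)
    (J ⊔ Ideal.span {x}) hJ'fin rfl
  -- the Frobenius power
  set JF : Ideal B := Ideal.span ((fun x => x ^ p) '' (J : Set B)) with hJF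
  set mF : Ideal B := Ideal.span ((fun x => x ^ p) '' (m : Set B)) with hmF
  have hsup : Ideal.span ((fun x => x ^ p) '' ((J ⊔ Ideal.span {x} : Ideal B) : Set B)) =
      JF ⊔ Ideal.span {x ^ p} := by
    apply le_antisymm
    · rw [Ideal.span_le]
      rintro _ ⟨y, hy, rfl⟩
      obtain ⟨j, hj, w, hw, rfl⟩ := Submodule.mem_sup.mp hy
      obtain ⟨c, rfl⟩ := Ideal.mem_span_singleton'.mp hw
      simp only
      rw [add_pow_char, mul_pow]
      exact Ideal.add_mem _ (Ideal.mem_sup_left (Ideal.subset_span ⟨j, hj, rfl⟩))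
        (Ideal.mem_sup_right (Ideal.mul_mem_left _ _ (Ideal.subset_span rfl)))
    · refine sup_le ?_ ?_
      · refine Ideal.span_mono (Set.image_mono ?_)
        exact fun y hy => Ideal.mem_sup_left hy
      · rw [Ideal.span_singleton_le_iff_mem]
        exact Ideal.subset_span ⟨x, Ideal.mem_sup_right (Ideal.subset_span rfl), rfl⟩
  rw [hsup] at ihf ihr
  have hmul : ∀ y ∈ mF, y * x ^ p ∈ JF := by
    intro y hy
    induction hy using Submodule.span_induction with
    | mem y hy =>
      obtain ⟨w, hw, rfl⟩ := hy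
      simp only
      rw [← mul_pow]
      exact Ideal.subset_span ⟨w * x, (hmx w).mp hw, rfl⟩
    | zero => rw [zero_mul]; exact JF.zero_mem
    | add y z _ _ hy hz => rw [add_mul]; exact JF.add_mem hy hz
    | smul c y _ hy => rw [smul_eq_mul, mul_assoc]; exact Ideal.mul_mem_left _ _ hy
  obtain ⟨a, ha, b, hb, hab⟩ := htan m hm
  obtain ⟨hmF1, hmF2⟩ := FROB_max (k := k) p m hm a b ha hb hab mF
    (fun x hx => Ideal.subset_span ⟨x, hx, rfl⟩)
  obtain ⟨r1, r2⟩ := FROB_upper (k := k) JF mF (x ^ p) hmul hmF1 ihf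
  refine ⟨r1, r2.trans ?_⟩
  calc Module.finrank k (B ⧸ mF) + Module.finrank k (B ⧸ (JF ⊔ Ideal.span {x ^ p}))
      ≤ p ^ 2 + p ^ 2 * Module.finrank k (B ⧸ (J ⊔ Ideal.span {x})) := add_le_add hmF2 ihr
    _ = p ^ 2 * (Module.finrank k (B ⧸ (J ⊔ Ideal.span {x})) + 1) := by ring
    _ ≤ p ^ 2 * d := Nat.mul_le_mul_left _ (by omega)

end

end Pool.Agent.H54R2.Ul
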