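import Pool.Agent.H54R2.Ul.Defs3
import Pool.Agent.H54R2.Ul.St.TB2
import Pool.Agent.H54R2.Ul.St.FROB

namespace Pool.Agent.H54R2.Ul

open MvPolynomial

noncomputable section

variable {k K : Type} [Field k] [Field K] [Algebra k K]

lemma FROBCOL_mem_of {S T : Submodule k K} {x : T} : x ∈ S.submoduleOf T ↔ (x : K) ∈ S := Iff.rfl

lemma FROBCOL_pow_mem (G : Fil k K) {s : ℤ} {x : K} (hx : x ∈ G.R s) (n : ℕ) :
    x ^ n ∈ G.R (n * s) := by
  induction n with
  | zero => simpa using G.one_mem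
  | succ n ih =>
      rw [pow_succ]
      have h := G.mul_mem ih hx
      have e : (n : ℤ) * s + s = ((n + 1 : ℕ) : ℤ) * s := by push_cast; ring
      rwa [e] at h

lemma FROBCOL_le (G : Fil k K) (q : ℕ) (J : ℤ → Submodule k K) (hJR : ∀ t, J t ≤ G.R t) (t : ℤ) :
    Jpow G q J t ≤ G.R t := by
  unfold Jpow
  rw [Submodule.span_le]
  rintro _ ⟨s, x, a, hx, ha, rfl⟩
  have h := G.mul_mem ha (FROBCOL_pow_mem G (hJR s hx) q)
  have e : t - (q : ℤ) * s + q * s = t := by ring
  rwa [e] at h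

lemma FROBCOL_mul (G : Fil k K) (q : ℕ) (J : ℤ → Submodule k K) (u t : ℤ) (b z : K)
    (hb : b ∈ G.R u) (hz : z ∈ Jpow G q J t) : b * z ∈ Jpow G q J (u + t) := by
  have h : Jpow G q J t ≤ (Jpow G q J (u + t)).comap (LinearMap.mulLeft k b) := by
    rw [Jpow, Submodule.span_le]
    rintro _ ⟨s, x, a, hx, ha, rfl⟩
    simp only [SetLike.mem_coe, Submodule.mem_comap, LinearMap.mulLeft_apply]
    refine Submodule.subset_span ⟨s, x, b * a, hx, ?_, by ring⟩
    have h := G.mul_mem hb ha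
    have e : u + (t - (q : ℤ) * s) = u + t - q * s := by ring
    rwa [e] at h
  exact h hz

lemma FROBCOL_one (G : Fil k K) (J : ℤ → Submodule k K)
    (hmul : ∀ (s t : ℤ) (a x : K), a ∈ G.R s → x ∈ J t → a * x ∈ J (s + t)) (t : ℤ) :
    Jpow G 1 J t = J t := by
  apply le_antisymm
  · unfold Jpow
    rw [Submodule.span_le]
    rintro _ ⟨s, x, a, hx, ha, rfl⟩
    have h := hmul _ _ _ _ ha hx
    have e : t - ((1 : ℕ) : ℤ) * s + s = t := by push_cast; ring
    rw [e] at h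
    simpa using h
  · intro x hx
    refine Submodule.subset_span ⟨t, x, 1, hx, ?_, by ring⟩
    have e : t - ((1 : ℕ) : ℤ) * t = 0 := by push_cast; ring
    rw [e]; exact G.one_mem

/-- Stabilisation of the colength of a graded ideal. -/
lemma FROBCOL_stab (G : Fil k K) (hfin : ∀ t, Module.Finite k (G.R t)) (I : ℤ → Submodule k K)
    (hI : ∀ t, I t ≤ G.R t) {y : K} (hy : y ∈ G.R 1)
    (hyI : ∀ t, ∀ x ∈ I t, y * x ∈ I (t + 1)) (t0 : ℤ)
    (hs : ∀ t ≥ t0, ∀ x ∈ G.R (t + 1), ∃ x' ∈ I (t + 1), ∃ z ∈ G.R t, x = x' + y * z) :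
    ∃ (l : ℕ) (t1 : ℤ), t0 ≤ t1 ∧ ∀ t ≥ t1,
      Module.finrank k (G.R t) = Module.finrank k (I t) + l ∧
      ∀ x ∈ G.R t, y * x ∈ I (t + 1) → x ∈ I t := by
  classical
  have hyR : ∀ t, ∀ x ∈ G.R t, y * x ∈ G.R (t + 1) := by
    intro t x hx
    have h := G.mul_mem hy hx
    rwa [add_comm] at h
  let P : ∀ t : ℤ, Submodule k (G.R t) := fun t => (I t).submoduleOf (G.R t)
  have hP : ∀ t, Module.finrank k (P t) = Module.finrank k (I t) := fun t =>
    (Submodule.submoduleOfEquivOfLe (hI t)).finrank_eq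
  have hQ : ∀ t, Module.finrank k (G.R t ⧸ P t) + Module.finrank k (P t) =
      Module.finrank k (G.R t) := fun t => by
    have := hfin t
    exact Submodule.finrank_quotient_add_finrank (P t)
  let m : ∀ t : ℤ, (G.R t) →ₗ[k] (G.R (t + 1)) := fun t =>
    (LinearMap.mulLeft k y).restrict (fun x hx => hyR t x hx)
  have hm : ∀ t (x : G.R t), ((m t x : G.R (t + 1)) : K) = y * x := fun t x => rfl
  have hmP : ∀ t, P t ≤ (P (t + 1)).comap (m t) := by
    intro t x hx
    rw [Submodule.mem_comap, FROBCOL_mem_of, hm]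
    exact hyI t x hx
  let M : ∀ t : ℤ, (G.R t ⧸ P t) →ₗ[k] (G.R (t + 1) ⧸ P (t + 1)) := fun t =>
    Submodule.mapQ (P t) (P (t + 1)) (m t) (hmP t)
  have hsurj : ∀ t ≥ t0, Function.Surjective (M t) := by
    intro t ht w
    obtain ⟨⟨x, hx⟩, rfl⟩ := Submodule.Quotient.mk_surjective _ w
    obtain ⟨x', hx', z, hz, e⟩ := hs t ht x hx
    refine ⟨Submodule.Quotient.mk ⟨z, hz⟩, ?_⟩
    change Submodule.Quotient.mk (m t ⟨z, hz⟩) = _
    rw [Submodule.Quotient.eq]
    change ((m t ⟨z, hz⟩ - ⟨x, hx⟩ : G.R (t + 1)) : K) ∈ I (t + 1)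
    rw [Submodule.coe_sub, hm]
    have : y * z - x = -x' := by rw [e]; ring
    change y * z - x ∈ I (t + 1)
    rw [this]
    exact Submodule.neg_mem _ hx'
  let c : ℤ → ℕ := fun t => Module.finrank k (G.R t ⧸ P t)
  have hc : ∀ t ≥ t0, c (t + 1) ≤ c t := by
    intro t ht
    have := hfin t
    exact LinearMap.finrank_le_finrank_of_surjective (hsurj t ht)
  -- a minimum
  obtain ⟨n, hn⟩ : ∃ n : ℕ, ∀ j : ℕ, c (t0 + n) ≤ c (t0 + j) := by
    have hne : (Set.range fun j : ℕ => c (t0 + j)).Nonempty := ⟨_, 0, rfl⟩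
    obtain ⟨n, hn⟩ := Nat.sInf_mem hne
    refine ⟨n, fun j => ?_⟩
    have : c (t0 + n) = sInf (Set.range fun j : ℕ => c (t0 + j)) := hn
    rw [this]
    exact Nat.sInf_le ⟨j, rfl⟩
  have hmono : ∀ j : ℕ, c (t0 + n + j) ≤ c (t0 + n) := by
    intro j
    induction j with
    | zero => simp
    | succ j ih =>
        refine le_trans ?_ ih
        have := hc (t0 + n + j) (by omega)
        have e : t0 + n + j + 1 = t0 + n + ((j + 1 : ℕ) : ℤ) := by push_cast; ring
        rwa [e] at this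
  have hconst : ∀ t ≥ t0 + n, c t = c (t0 + n) := by
    intro t ht
    obtain ⟨j, hj⟩ := Int.eq_ofNat_of_zero_le (show 0 ≤ t - (t0 + n) by omega)
    have e : t = t0 + n + j := by omega
    have e' : t = t0 + ((n + j : ℕ) : ℤ) := by push_cast; omega
    apply le_antisymm
    · rw [e]; exact hmono j
    · rw [e']; exact hn _
  refine ⟨c (t0 + n), t0 + n, by omega, fun t ht => ⟨?_, ?_⟩⟩
  · have h1 := hQ t
    have h2 := hP t
    have h3 : Module.finrank k (G.R t ⧸ P t) = c (t0 + n) := hconst t ht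
    omega
  · intro x hx hyx
    have h3 : c t = c (t + 1) := by rw [hconst t ht, hconst (t + 1) (by omega)]
    have := hfin t
    have := hfin (t + 1)
    have hinj : Function.Injective (M t) :=
      (LinearMap.injective_iff_surjective_of_finrank_eq_finrank h3).2 (hsurj t (by omega))
    have h4 : M t (Submodule.Quotient.mk ⟨x, hx⟩) = 0 := by
      change Submodule.Quotient.mk (m t ⟨x, hx⟩) = _
      rw [Submodule.Quotient.mk_eq_zero]
      exact hyx
    have h5 := hinj (h4.trans (map_zero (M t)).symm)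
    rw [Submodule.Quotient.mk_eq_zero] at h5
    exact h5

/-- the ideal of functions on the affine part defined by a graded ideal -/
def FROBCOL_ideal (G : Fil k K) {y : K} (hy : y ∈ G.R 1) (I : ℤ → Submodule k K)
    (hmul : ∀ (s t : ℤ) (a x : K), a ∈ G.R s → x ∈ I t → a * x ∈ I (s + t)) :
    Ideal (G.By y hy) where
  carrier := {b | ∃ t : ℕ, (b : K) * y ^ t ∈ I t}
  add_mem' := by
    rintro a b ⟨s, hs⟩ ⟨t, ht⟩
    refine ⟨s + t, ?_⟩
    have h1 := hmul _ _ _ _ (G.pow_mem hy t) hs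
    have h2 := hmul _ _ _ _ (G.pow_mem hy s) ht
    have e : ((a + b : G.By y hy) : K) * y ^ (s + t) =
        y ^ t * ((a : K) * y ^ s) + y ^ s * ((b : K) * y ^ t) := by
      push_cast; ring
    rw [e]; push_cast
    rw [add_comm (t : ℤ) (s : ℤ)] at h1
    exact Submodule.add_mem _ h1 h2
  zero_mem' := ⟨0, by simp⟩
  smul_mem' := by
    rintro ⟨c, s, hs⟩ b ⟨t, ht⟩
    refine ⟨s + t, ?_⟩
    have h1 := hmul _ _ _ _ hs ht
    have e : (((⟨c, s, hs⟩ : G.By y hy) • b : G.By y hy) : K) * y ^ (s + t) =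
        c * y ^ s * ((b : K) * y ^ t) := by
      rw [smul_eq_mul, Subalgebra.coe_mul]; ring
    rw [e]; push_cast
    exact h1

lemma FROBCOL_mem_ideal (G : Fil k K) {y : K} (hy : y ∈ G.R 1) (I : ℤ → Submodule k K)
    (hmul : ∀ (s t : ℤ) (a x : K), a ∈ G.R s → x ∈ I t → a * x ∈ I (s + t)) (b : G.By y hy) :
    b ∈ FROBCOL_ideal G hy I hmul ↔ ∃ t : ℕ, (b : K) * y ^ t ∈ I t := Iff.rfl

/-- dividing by `y ^ t` -/
def FROBCOL_phi (G : Fil k K) {y : K} (hy : y ∈ G.R 1) (hy0 : y ≠ 0) (t : ℕ) :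
    G.R t →ₗ[k] G.By y hy where
  toFun x := ⟨(x : K) / y ^ t, t, by
    rw [div_mul_cancel₀ _ (pow_ne_zero t hy0)]; exact x.2⟩
  map_add' := by
    intro a b
    apply Subtype.ext
    change ((a : K) + b) / y ^ t = a / y ^ t + b / y ^ t
    exact add_div _ _ _
  map_smul' := by
    intro c a
    apply Subtype.ext
    change (c • (a : K)) / y ^ t = c • ((a : K) / y ^ t)
    rw [Algebra.smul_def, Algebra.smul_def, mul_div_assoc]

lemma FROBCOL_phi_coe (G : Fil k K) {y : K} (hy : y ∈ G.R 1) (hy0 : y ≠ 0) (t : ℕ) (x : G.R t) :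
    ((FROBCOL_phi G hy hy0 t x : G.By y hy) : K) = (x : K) / y ^ t := rfl

/-- iterating the injectivity of multiplication by `y` -/
lemma FROBCOL_iter (G : Fil k K) (I : ℤ → Submodule k K) {y : K} (hy : y ∈ G.R 1) (t1 : ℤ)
    (hinj : ∀ t ≥ t1, ∀ x ∈ G.R t, y * x ∈ I (t + 1) → x ∈ I t) (s : ℕ) :
    ∀ t ≥ t1, ∀ x ∈ G.R t, y ^ s * x ∈ I (s + t) → x ∈ I t := by
  induction s with
  | zero => intro t _ x _ h; simpa using h
  | succ s ih =>
      intro t ht x hx h
      apply hinj t ht x hx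
      apply ih (t + 1) (by omega) (y * x)
      · have := G.mul_mem hy hx
        rwa [add_comm] at this
      · have e : y ^ s * (y * x) = y ^ (s + 1) * x := by ring
        rw [e]
        have e' : (s : ℤ) + (t + 1) = ((s + 1 : ℕ) : ℤ) + t := by push_cast; ring
        rw [e']; exact h

/-- iterating the surjectivity -/
lemma FROBCOL_iter' (G : Fil k K) (I : ℤ → Submodule k K) {y : K} (t0 : ℤ)
    (hyI : ∀ t, ∀ x ∈ I t, y * x ∈ I (t + 1))
    (hs : ∀ t ≥ t0, ∀ x ∈ G.R (t + 1), ∃ x' ∈ I (t + 1), ∃ z ∈ G.R t, x = x' + y * z) (s : ℕ) :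
    ∀ t ≥ t0, ∀ x ∈ G.R (s + t), ∃ x' ∈ I (s + t), ∃ z ∈ G.R t, x = x' + y ^ s * z := by
  induction s with
  | zero =>
      intro t _ x hx
      exact ⟨0, Submodule.zero_mem _, x, by simpa using hx, by simp⟩
  | succ s ih =>
      intro t ht x hx
      have e' : ((s + 1 : ℕ) : ℤ) + t = (s + t) + 1 := by push_cast; ring
      rw [e'] at hx
      obtain ⟨x1, hx1, z1, hz1, e1⟩ := hs (s + t) (by omega) x hx
      obtain ⟨x2, hx2, z2, hz2, e2⟩ := ih t ht z1 hz1
      refine ⟨x1 + y * x2, ?_, z2, hz2, ?_⟩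
      · rw [e']
        exact Submodule.add_mem _ hx1 (hyI _ _ hx2)
      · rw [e1, e2]; ring

section quot

variable (G : Fil k K) (hfin : ∀ t, Module.Finite k (G.R t)) {y : K} (hy : y ∈ G.R 1)
    (hy0 : y ≠ 0) (I : ℤ → Submodule k K)
    (hmul : ∀ (s t : ℤ) (a x : K), a ∈ G.R s → x ∈ I t → a * x ∈ I (s + t))

/-- The map from degree `t` to the quotient. -/
def FROBCOL_psi (t : ℕ) : G.R t →ₗ[k] (G.By y hy ⧸ FROBCOL_ideal G hy I hmul) :=
  (Ideal.Quotient.mkₐ k (FROBCOL_ideal G hy I hmul)).toLinearMap ∘ₗ FROBCOL_phi G hy hy0 t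

lemma FROBCOL_psi_eq_zero (t : ℕ) (x : G.R t) :
    FROBCOL_psi G hy hy0 I hmul t x = 0 ↔ ∃ s : ℕ, (x : K) / y ^ t * y ^ s ∈ I s := by
  change Ideal.Quotient.mk (FROBCOL_ideal G hy I hmul) (FROBCOL_phi G hy hy0 t x) = 0 ↔ _
  rw [Ideal.Quotient.eq_zero_iff_mem]
  rfl

include hfin hy0 in
/-- upper bound of the codimension in degree `t` by the dimension of the quotient -/
lemma FROBCOL_A (hI : ∀ t, I t ≤ G.R t) (t1 : ℤ)
    (hinj : ∀ t ≥ t1, ∀ x ∈ G.R t, y * x ∈ I (t + 1) → x ∈ I t)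
    [Module.Finite k (G.By y hy ⧸ FROBCOL_ideal G hy I hmul)] (t : ℕ) (ht : t1 ≤ t) :
    Module.finrank k (G.R t) ≤ Module.finrank k (I t) +
      Module.finrank k (G.By y hy ⧸ FROBCOL_ideal G hy I hmul) := by
  have := hfin t
  have h := LinearMap.finrank_range_add_finrank_ker (FROBCOL_psi G hy hy0 I hmul t)
  have h1 : Module.finrank k (LinearMap.range (FROBCOL_psi G hy hy0 I hmul t)) ≤
      Module.finrank k (G.By y hy ⧸ FROBCOL_ideal G hy I hmul) := Submodule.finrank_le _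
  have h2 : LinearMap.ker (FROBCOL_psi G hy hy0 I hmul t) ≤ (I t).submoduleOf (G.R t) := by
    intro x hx
    rw [LinearMap.mem_ker, FROBCOL_psi_eq_zero] at hx
    obtain ⟨s, hs⟩ := hx
    rw [FROBCOL_mem_of]
    apply FROBCOL_iter G I hy t1 hinj s t ht x x.2
    have h3 := hmul _ _ _ _ (G.pow_mem hy t) hs
    have e : y ^ t * ((x : K) / y ^ t * y ^ s) = y ^ s * x := by
      have : y ^ t ≠ 0 := pow_ne_zero t hy0
      field_simp
    rw [e, add_comm] at h3
    exact h3
  have h3 : Module.finrank k (LinearMap.ker (FROBCOL_psi G hy hy0 I hmul t)) ≤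
      Module.finrank k ((I t).submoduleOf (G.R t)) := Submodule.finrank_mono h2
  have h4 : Module.finrank k ((I t).submoduleOf (G.R t)) = Module.finrank k (I t) :=
    (Submodule.submoduleOfEquivOfLe (hI t)).finrank_eq
  omega

include hfin hy0 in
/-- the quotient is finite dimensional -/
lemma FROBCOL_B (hI : ∀ t, I t ≤ G.R t) (t0 : ℤ)
    (hs : ∀ t ≥ t0, ∀ x ∈ G.R (t + 1), ∃ x' ∈ I (t + 1), ∃ z ∈ G.R t, x = x' + y * z)
    (t : ℕ) (ht : t0 ≤ t) :
    Module.Finite k (G.By y hy ⧸ FROBCOL_ideal G hy I hmul) ∧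
    Module.finrank k (G.By y hy ⧸ FROBCOL_ideal G hy I hmul) + Module.finrank k (I t) ≤
      Module.finrank k (G.R t) := by
  have := hfin t
  have hyI : ∀ t, ∀ x ∈ I t, y * x ∈ I (t + 1) := by
    intro t x hx
    have := hmul _ _ _ _ hy hx
    rwa [add_comm] at this
  have hsurj : Function.Surjective (FROBCOL_psi G hy hy0 I hmul t) := by
    intro w
    obtain ⟨⟨b, s, hbs⟩, rfl⟩ := Ideal.Quotient.mk_surjective w
    -- multiply up: `b y^(s+t) ∈ R (s+t)`
    have h1 : y ^ t * (b * y ^ s) ∈ G.R (s + t) := by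
      have := G.mul_mem (G.pow_mem hy t) hbs
      rwa [add_comm] at this
    obtain ⟨x', hx', z, hz, e⟩ := FROBCOL_iter' G I t0 hyI hs s t ht _ h1
    refine ⟨⟨z, hz⟩, ?_⟩
    change Ideal.Quotient.mk (FROBCOL_ideal G hy I hmul) (FROBCOL_phi G hy hy0 t ⟨z, hz⟩) = _
    rw [Ideal.Quotient.eq]
    refine ⟨s + t, ?_⟩
    have e2 : ((FROBCOL_phi G hy hy0 t ⟨z, hz⟩ - ⟨b, s, hbs⟩ : G.By y hy) : K) * y ^ (s + t) =
        -x' := by
      rw [Subalgebra.coe_sub, FROBCOL_phi_coe]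
      have hyt : y ^ t ≠ 0 := pow_ne_zero t hy0
      change (z / y ^ t - b) * y ^ (s + t) = -x'
      have e3 : (z / y ^ t - b) * y ^ (s + t) = y ^ s * z - y ^ t * (b * y ^ s) := by
        rw [pow_add]; field_simp
      rw [e3, e]; ring
    rw [e2]; push_cast
    exact Submodule.neg_mem _ hx'
  refine ⟨Module.Finite.of_surjective _ hsurj, ?_⟩
  have h := LinearMap.finrank_range_add_finrank_ker (FROBCOL_psi G hy hy0 I hmul t)
  rw [LinearMap.range_eq_top.2 hsurj, finrank_top] at h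
  have h2 : (I t).submoduleOf (G.R t) ≤ LinearMap.ker (FROBCOL_psi G hy hy0 I hmul t) := by
    intro x hx
    rw [LinearMap.mem_ker, FROBCOL_psi_eq_zero]
    refine ⟨t, ?_⟩
    rw [div_mul_cancel₀ _ (pow_ne_zero t hy0)]
    exact hx
  have h3 : Module.finrank k ((I t).submoduleOf (G.R t)) ≤
      Module.finrank k (LinearMap.ker (FROBCOL_psi G hy hy0 I hmul t)) :=
    Submodule.finrank_mono h2
  have h4 : Module.finrank k ((I t).submoduleOf (G.R t)) = Module.finrank k (I t) :=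
    (Submodule.submoduleOfEquivOfLe (hI t)).finrank_eq
  omega

end quot

/-- the affine ring is of finite type -/
lemma FROBCOL_ft (G : Geo k K) {y : K} (hy : y ∈ G.R 1) (hy0 : y ≠ 0) :
    Algebra.FiniteType k (G.toFil.By y hy) := by
  rw [← Subalgebra.fg_iff_finiteType]
  have := G.fin_dim 1
  obtain ⟨S, hS⟩ := Module.Finite.iff_fg.1 (G.fin_dim 1)
  classical
  refine ⟨S.image (fun x => x / y), ?_⟩
  apply le_antisymm
  · rw [Algebra.adjoin_le_iff]
    intro x hx
    rw [Finset.mem_coe, Finset.mem_image] at hx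
    obtain ⟨s, hs, rfl⟩ := hx
    refine ⟨1, ?_⟩
    rw [pow_one, div_mul_cancel₀ _ hy0]
    have : s ∈ Submodule.span k (S : Set K) := Submodule.subset_span hs
    rw [hS] at this
    simpa using this
  · set A : Subalgebra k K := Algebra.adjoin k ((S.image (fun x => x / y) : Finset K) : Set K)
      with hA
    have h1 : ∀ a ∈ G.R 1, a / y ∈ A := by
      intro a ha
      rw [← hS] at ha
      have hle : Submodule.span k (S : Set K) ≤
          (Subalgebra.toSubmodule A).comap (LinearMap.mulRight k y⁻¹) := by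
        rw [Submodule.span_le]
        intro s hs
        simp only [SetLike.mem_coe, Submodule.mem_comap, LinearMap.mulRight_apply,
          Subalgebra.mem_toSubmodule]
        rw [← div_eq_mul_inv]
        exact Algebra.subset_adjoin (by
          rw [Finset.mem_coe, Finset.mem_image]
          exact ⟨s, hs, rfl⟩)
      have := hle ha
      simp only [Submodule.mem_comap, LinearMap.mulRight_apply,
          Subalgebra.mem_toSubmodule] at this
      rwa [← div_eq_mul_inv] at this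
    have h2 : ∀ t : ℕ, ∀ x ∈ G.R t, x / y ^ t ∈ A := by
      intro t
      induction t with
      | zero =>
          intro x hx
          obtain ⟨c, rfl⟩ := G.zero_deg x (by simpa using hx)
          simp
      | succ t ih =>
          intro x hx
          have hx' : x ∈ Submodule.span k {x | ∃ a ∈ G.R 1, ∃ b ∈ G.R t, x = a * b} :=
            G.gen_one t (by positivity) (by push_cast at hx; exact hx)
          have hle : Submodule.span k {x | ∃ a ∈ G.R 1, ∃ b ∈ G.R t, x = a * b} ≤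
              (Subalgebra.toSubmodule A).comap (LinearMap.mulRight k (y ^ (t + 1))⁻¹) := by
            rw [Submodule.span_le]
            rintro _ ⟨a, ha, b, hb, rfl⟩
            simp only [SetLike.mem_coe, Submodule.mem_comap, LinearMap.mulRight_apply,
              Subalgebra.mem_toSubmodule]
            have e : a * b * (y ^ (t + 1))⁻¹ = (a / y) * (b / y ^ t) := by
              rw [pow_succ]; field_simp
            rw [e]
            exact A.mul_mem (h1 a ha) (ih b hb)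
          have := hle hx'
          simp only [Submodule.mem_comap, LinearMap.mulRight_apply,
            Subalgebra.mem_toSubmodule] at this
          rwa [← div_eq_mul_inv] at this
    rintro b ⟨t, ht⟩
    have := h2 t _ ht
    rwa [mul_div_assoc, div_self (pow_ne_zero t hy0), mul_one] at this

/-- **Task FROBCOL.** -/
theorem FROBCOL [IsAlgClosed k] (p : ℕ) [Fact p.Prime] [CharP k p] (G : Geo k K)
    (J : ℤ → Submodule k K) (hJR : ∀ t, J t ≤ G.R t)
    (hmul : ∀ (s t : ℤ) (a x : K), a ∈ G.R s → x ∈ J t → a * x ∈ J (s + t))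
    (C : ℕ) (hC : ∀ t, Module.finrank k (G.R t) ≤ Module.finrank k (J t) + C) :
    ∃ (l : ℕ) (t0 : ℤ), ∀ t ≥ t0,
      Module.finrank k (G.R t) = Module.finrank k (J t) + l ∧
      Module.finrank k (G.R t) ≤ Module.finrank k (Jpow G.toFil p J t) + p ^ 2 * l := by
  obtain ⟨y, hy, hy0, hTB⟩ := TB2 G J hJR hmul C hC
  have hp : 0 < p := (Fact.out : p.Prime).pos
  -- the two graded ideals
  obtain ⟨a0, ha0⟩ := hTB 1 one_pos
  obtain ⟨b0, hb0⟩ := hTB p hp
  have hyJ : ∀ t, ∀ x ∈ J t, y * x ∈ J (t + 1) := by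
    intro t x hx
    have := hmul _ _ _ _ hy hx
    rwa [add_comm] at this
  have hmulp := FROBCOL_mul G.toFil p J
  have hyI : ∀ t, ∀ x ∈ Jpow G.toFil p J t, y * x ∈ Jpow G.toFil p J (t + 1) := by
    intro t x hx
    have := hmulp _ _ _ _ hy hx
    rwa [add_comm] at this
  simp only [FROBCOL_one G.toFil J hmul] at ha0
  obtain ⟨l, a1, ha01, ha1⟩ := FROBCOL_stab G.toFil G.fin_dim J hJR hy hyJ a0 ha0
  obtain ⟨lp, b1, hb01, hb1⟩ := FROBCOL_stab G.toFil G.fin_dim (Jpow G.toFil p J)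
    (FROBCOL_le G.toFil p J hJR) hy hyI b0 hb0
  -- the affine ring
  have hft : Algebra.FiniteType k (G.toFil.By y hy) := FROBCOL_ft G hy hy0
  obtain ⟨I1, hI1⟩ : ∃ I1, I1 = FROBCOL_ideal G.toFil hy J hmul := ⟨_, rfl⟩
  obtain ⟨Ip, hIp⟩ : ∃ Ip, Ip = FROBCOL_ideal G.toFil hy (Jpow G.toFil p J) hmulp := ⟨_, rfl⟩
  set n : ℕ := (max a1 b1).toNat with hn
  have hn1 : a1 ≤ n := by omega
  have hn2 : b1 ≤ n := by omega
  obtain ⟨hfin1, hle1⟩ := FROBCOL_B G.toFil G.fin_dim hy hy0 J hmul hJR a0 ha0 n (by omega)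
  rw [← hI1] at hfin1 hle1
  obtain ⟨hfinp, hlep⟩ := FROB p (G.tangent y hy hy0) I1 hfin1
  have hsub : Ideal.span ((fun x => x ^ p) '' (I1 : Set (G.toFil.By y hy))) ≤ Ip := by
    rw [Ideal.span_le]
    rintro _ ⟨x, hx, rfl⟩
    rw [hI1] at hx
    obtain ⟨t, ht⟩ := hx
    rw [hIp]
    refine ⟨p * t, ?_⟩
    have e : (((fun x => x ^ p) x : G.toFil.By y hy) : K) * y ^ (p * t) =
        1 * ((x : K) * y ^ t) ^ p := by
      simp only [Subalgebra.coe_pow]
      rw [one_mul, mul_pow, ← pow_mul, mul_comm t p]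
    rw [e]
    refine Submodule.subset_span ⟨t, (x : K) * y ^ t, 1, ht, ?_, rfl⟩
    have e2 : ((p * t : ℕ) : ℤ) - p * t = 0 := by push_cast; ring
    rw [e2]; exact G.one_mem
  have := hfinp
  let F : (G.toFil.By y hy ⧸ Ideal.span ((fun x => x ^ p) '' (I1 : Set (G.toFil.By y hy)))) →ₗ[k]
      (G.toFil.By y hy ⧸ Ip) := (Ideal.Quotient.factorₐ k hsub).toLinearMap
  have hF : Function.Surjective F := Ideal.Quotient.factor_surjective hsub
  have hfinp' : Module.Finite k (G.toFil.By y hy ⧸ Ip) := Module.Finite.of_surjective F hF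
  have hlep' : Module.finrank k (G.toFil.By y hy ⧸ Ip) ≤ p ^ 2 * l := by
    have h1 := LinearMap.finrank_le_finrank_of_surjective hF
    have h2 := (ha1 n hn1).1
    have h3 : Module.finrank k (G.toFil.By y hy ⧸ I1) ≤ l := by
      have h4 : Module.finrank k (G.R n) = Module.finrank k (J n) + l := h2
      have h5 : Module.finrank k (G.toFil.By y hy ⧸ I1) + Module.finrank k (J n) ≤
        Module.finrank k (G.R n) := hle1
      omega
    calc Module.finrank k (G.toFil.By y hy ⧸ Ip) ≤ _ := h1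
      _ ≤ _ := hlep
      _ ≤ p ^ 2 * l := Nat.mul_le_mul_left _ h3
  refine ⟨l, n, fun t ht => ⟨(ha1 t (by omega)).1, ?_⟩⟩
  obtain ⟨j, rfl⟩ := Int.eq_ofNat_of_zero_le (show 0 ≤ t by omega)
  rw [hIp] at hfinp' hlep'
  have hA := FROBCOL_A G.toFil G.fin_dim hy hy0 (Jpow G.toFil p J) hmulp
    (FROBCOL_le G.toFil p J hJR) b1 (fun t ht => (hb1 t ht).2) j (by omega)
  omega

end

end Pool.Agent.H54R2.Ul
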