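import Pool.Agent.H54R2.Ul.Defs3

/-! # ULRICH task GA: normal forms and the universal property of the model (helper804) -/

namespace Pool.Agent.H54R2.Ul

open MvPolynomial

noncomputable section

variable {k K : Type} [Field k] [Field K] [Algebra k K]

theorem GA_allowed {t : ℤ} (i : ZMod 5) (a : ZMod 5 → ℕ)
    (h : Allowed t (a + ee (i - 1) 7 + ee (i + 1) 7)) :
    Allowed t a ∧ Allowed t (a + ee i 7) := by
  rw [allowed_iff] at h
  rw [allowed_iff, allowed_iff]
  simp only [Pi.add_apply, ee] at h ⊢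
  fin_cases i <;> simp (decide := true) at h ⊢ <;> omega

theorem GA_exists {a : ZMod 5 → ℕ} (h : ¬ NF a) :
    ∃ (i : ZMod 5) (a0 : ZMod 5 → ℕ), a = a0 + ee (i - 1) 7 + ee (i + 1) 7 := by
  unfold NF at h
  push Not at h
  obtain ⟨i, h1, h2⟩ := h
  refine ⟨i + 1, fun j => a j - (if j = i then 7 else 0) - (if j = i + 2 then 7 else 0), ?_⟩
  funext j
  simp only [Pi.add_apply, ee]
  have e1 : i + 1 - 1 = i := by ring
  have e2 : i + 1 + 1 = i + 2 := by ring
  rw [e1, e2]
  have e3 : i ≠ i + 2 := by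
    intro h
    have : (2 : ZMod 5) = 0 := by
      have := congrArg (fun x => x - i) h
      simpa using this.symm
    exact absurd this (by decide)
  by_cases hj : j = i
  · subst hj
    rw [if_pos rfl, if_neg e3]
    omega
  · rw [if_neg hj]
    by_cases hj2 : j = i + 2
    · subst hj2
      rw [if_pos rfl]
      omega
    · rw [if_neg hj2]
      omega

theorem GA_sum_ee (i : ZMod 5) (n : ℕ) : ∑ j, ee i n j = n := by
  unfold ee
  simp

/-- the span of the relations -/
def GA_W (k : Type) [Field k] (t : ℤ) : Submodule k ((ZMod 5 → ℕ) →₀ k) :=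
  Submodule.span k {f | ∃ (i : ZMod 5) (a : ZMod 5 → ℕ),
      Allowed t (a + ee (i - 1) 7 + ee (i + 1) 7) ∧
      f = Finsupp.single (a + ee (i - 1) 7 + ee (i + 1) 7) 1 + Finsupp.single (a + ee i 7) 1
        - Finsupp.single a 1}

/-- the span of the normal forms -/
def GA_N (k : Type) [Field k] (t : ℤ) (P : (ZMod 5 → ℕ) → Prop) :
    Submodule k ((ZMod 5 → ℕ) →₀ k) :=
  Submodule.span k {f | ∃ b : ZMod 5 → ℕ, NF b ∧ Allowed t b ∧ P b ∧ f = Finsupp.single b 1}

theorem GA_red (k : Type) [Field k] (t : ℤ) (P : (ZMod 5 → ℕ) → Prop)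
    (hP : ∀ (i : ZMod 5) (a : ZMod 5 → ℕ), P (a + ee (i - 1) 7 + ee (i + 1) 7) →
      Allowed t (a + ee (i - 1) 7 + ee (i + 1) 7) → P a ∧ P (a + ee i 7)) :
    ∀ (n : ℕ) (a : ZMod 5 → ℕ), ∑ i, a i = n → P a → Allowed t a →
      (Finsupp.single a (1 : k)) ∈ GA_N k t P ⊔ GA_W k t := by
  intro n
  induction n using Nat.strong_induction_on with
  | _ n ih =>
    intro a hn hPa ha
    by_cases hNF : NF a
    · exact Submodule.mem_sup_left (Submodule.subset_span ⟨a, hNF, ha, hPa, rfl⟩)
    · obtain ⟨i, a0, rfl⟩ := GA_exists hNF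
      obtain ⟨h1, h2⟩ := GA_allowed i a0 ha
      obtain ⟨p1, p2⟩ := hP i a0 hPa ha
      have s0 : ∑ j, (a0 + ee (i - 1) 7 + ee (i + 1) 7) j = ∑ j, a0 j + 14 := by
        simp only [Pi.add_apply, Finset.sum_add_distrib, GA_sum_ee]
      have s1 : ∑ j, (a0 + ee i 7) j = ∑ j, a0 j + 7 := by
        simp only [Pi.add_apply, Finset.sum_add_distrib, GA_sum_ee]
      have m1 := ih (∑ j, a0 j) (by omega) a0 rfl p1 h1
      have m2 := ih (∑ j, (a0 + ee i 7) j) (by omega) (a0 + ee i 7) rfl p2 h2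
      have m3 : (Finsupp.single (a0 + ee (i - 1) 7 + ee (i + 1) 7) (1 : k) +
          Finsupp.single (a0 + ee i 7) 1 - Finsupp.single a0 1) ∈ GA_N k t P ⊔ GA_W k t :=
        Submodule.mem_sup_right (Submodule.subset_span ⟨i, a0, ha, rfl⟩)
      have e : Finsupp.single (a0 + ee (i - 1) 7 + ee (i + 1) 7) (1 : k) =
          (Finsupp.single (a0 + ee (i - 1) 7 + ee (i + 1) 7) (1 : k) +
          Finsupp.single (a0 + ee i 7) 1 - Finsupp.single a0 1) -
          Finsupp.single (a0 + ee i 7) 1 + Finsupp.single a0 1 := by abel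
      rw [e]
      exact Submodule.add_mem _ (Submodule.sub_mem _ m3 m2) m1

/-- monomials in a commutative ring -/
def GA_zg {E : Type} [CommRing E] (x : ZMod 5 → E) (a : ZMod 5 → ℕ) : E := ∏ i, x i ^ a i

theorem GA_zg_add {E : Type} [CommRing E] (x : ZMod 5 → E) (a b : ZMod 5 → ℕ) :
    GA_zg x (a + b) = GA_zg x a * GA_zg x b := by
  simp only [GA_zg, Pi.add_apply, pow_add, Finset.prod_mul_distrib]

theorem GA_zg_ee {E : Type} [CommRing E] (x : ZMod 5 → E) (i : ZMod 5) (n : ℕ) :
    GA_zg x (ee i n) = x i ^ n := by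
  unfold GA_zg ee
  rw [Finset.prod_eq_single i]
  · simp
  · intro j _ hj
    simp [hj]
  · intro h; exact absurd (Finset.mem_univ _) h

/-- a linear map killing the relations kills `GA_W` -/
theorem GA_W_kill {E : Type} [AddCommGroup E] [Module k E] (t : ℤ) (φ : (ZMod 5 → ℕ) → E)
    (hφ : ∀ (i : ZMod 5) (a : ZMod 5 → ℕ), Allowed t (a + ee (i - 1) 7 + ee (i + 1) 7) →
      φ (a + ee (i - 1) 7 + ee (i + 1) 7) + φ (a + ee i 7) = φ a) :
    ∀ w ∈ GA_W k t, Finsupp.linearCombination k φ w = 0 := by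
  intro w hw
  have h : GA_W k t ≤ LinearMap.ker (Finsupp.linearCombination k φ) := by
    unfold GA_W
    rw [Submodule.span_le]
    rintro f ⟨i, a, ha, rfl⟩
    rw [SetLike.mem_coe, LinearMap.mem_ker, map_sub, map_add,
      Finsupp.linearCombination_single, Finsupp.linearCombination_single,
      Finsupp.linearCombination_single, one_smul, one_smul, one_smul, hφ i a ha, sub_self]
  exact h hw

theorem GA_zg_rel {E : Type} [CommRing E] (e : ZMod 5 → E)
    (he : ∀ i, e i ^ 7 + e (i - 1) ^ 7 * e (i + 1) ^ 7 = 1) (i : ZMod 5) (a : ZMod 5 → ℕ) :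
    GA_zg e (a + ee (i - 1) 7 + ee (i + 1) 7) + GA_zg e (a + ee i 7) = GA_zg e a := by
  rw [GA_zg_add, GA_zg_add, GA_zg_add, GA_zg_ee, GA_zg_ee, GA_zg_ee]
  have := he i
  linear_combination (GA_zg e a) * this

theorem GA_W_zm (M : Model k K) (t : ℤ) (w : (ZMod 5 → ℕ) →₀ k) (hw : w ∈ GA_W k t) :
    Finsupp.linearCombination k (zm M.z) w = 0 :=
  GA_W_kill t (zm M.z) (fun i a _ => GA_zg_rel M.z M.rel i a) w hw

/-- **Task GA2.** Normal forms span. -/
theorem GA2 (M : Model k K) (t : ℤ) (P : (ZMod 5 → ℕ) → Prop)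
    (hP : ∀ (i : ZMod 5) (a : ZMod 5 → ℕ), P (a + ee (i - 1) 7 + ee (i + 1) 7) →
      Allowed t (a + ee (i - 1) 7 + ee (i + 1) 7) → P a ∧ P (a + ee i 7)) :
    ∀ a : ZMod 5 → ℕ, P a → Allowed t a →
      zm M.z a ∈ Submodule.span k {x | ∃ b, NF b ∧ Allowed t b ∧ P b ∧ x = zm M.z b} := by
  intro a hPa ha
  have h := GA_red k t P hP _ a rfl hPa ha
  obtain ⟨x, hx, w, hw, hxw⟩ := Submodule.mem_sup.1 h
  have h1 : zm M.z a = Finsupp.linearCombination k (zm M.z) x := by
    have h2 := congrArg (Finsupp.linearCombination k (zm M.z)) hxw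
    rw [map_add, GA_W_zm M t w hw, add_zero, Finsupp.linearCombination_single, one_smul] at h2
    exact h2.symm
  rw [h1]
  have h3 : GA_N k t P ≤ (Submodule.span k {x | ∃ b, NF b ∧ Allowed t b ∧ P b ∧
      x = zm M.z b}).comap (Finsupp.linearCombination k (zm M.z)) := by
    unfold GA_N
    rw [Submodule.span_le]
    rintro f ⟨b, hb1, hb2, hb3, rfl⟩
    rw [SetLike.mem_coe, Submodule.mem_comap, Finsupp.linearCombination_single, one_smul]
    exact Submodule.subset_span ⟨b, hb1, hb2, hb3, rfl⟩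
  exact h3 hx

/-- **Task GA4.** Linear relations between products of 22 coordinates: for a polynomial which is a
linear combination of allowed monomials and vanishes on the surface. -/
theorem GA4 (M : Model k K) (t : ℤ) (c : (ZMod 5 → ℕ) →₀ k) (hc : ∀ a ∈ c.support, Allowed t a)
    (h0 : (c.sum fun a s => s • zm M.z a) = 0) :
    c ∈ Submodule.span k {f | ∃ (i : ZMod 5) (a : ZMod 5 → ℕ),
      Allowed t (a + ee (i - 1) 7 + ee (i + 1) 7) ∧
      f = Finsupp.single (a + ee (i - 1) 7 + ee (i + 1) 7) 1 + Finsupp.single (a + ee i 7) 1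
        - Finsupp.single a 1} := by
  have h1 : c ∈ GA_N k t (fun _ => True) ⊔ GA_W k t := by
    have h2 : c = ∑ a ∈ c.support, c a • Finsupp.single a (1 : k) := by
      conv_lhs => rw [← Finsupp.sum_single c]
      unfold Finsupp.sum
      refine Finset.sum_congr rfl fun a _ => ?_
      rw [Finsupp.smul_single, smul_eq_mul, mul_one]
    rw [h2]
    exact Submodule.sum_mem _ fun a ha => Submodule.smul_mem _ _
      (GA_red k t (fun _ => True) (fun _ _ _ _ => ⟨trivial, trivial⟩) _ a rfl trivial (hc a ha))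
  obtain ⟨x, hx, w, hw, hxw⟩ := Submodule.mem_sup.1 h1
  have h3 : Finsupp.linearCombination k (zm M.z) c = 0 := by
    rw [Finsupp.linearCombination_apply]
    exact h0
  have h4 : Finsupp.linearCombination k (zm M.z) x = 0 := by
    rw [← hxw, map_add, GA_W_zm M t w hw, add_zero] at h3
    exact h3
  have h5 : x ∈ Finsupp.supported k k {a : ZMod 5 → ℕ | NF a} := by
    have h6 : GA_N k t (fun _ => True) ≤ Finsupp.supported k k {a : ZMod 5 → ℕ | NF a} := by
      unfold GA_N
      rw [Submodule.span_le]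
      rintro f ⟨b, hb1, -, -, rfl⟩
      exact Finsupp.single_mem_supported k 1 hb1
    exact h6 hx
  have h7 : LinearIndepOn k (zm M.z) {a : ZMod 5 → ℕ | NF a} := M.indep
  have h8 : x = 0 := linearIndepOn_iff.1 h7 x h5 h4
  rw [h8, zero_add] at hxw
  rw [← hxw]
  exact hw

/-- **Task GA1.** Universal property of the filtration of a model: a function on the allowed
monomials which respects the relations extends to a linear map. -/
theorem GA1 (M : Model k K) {E : Type} [AddCommGroup E] [Module k E] (t : ℤ)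
    (φ : (ZMod 5 → ℕ) → E)
    (hφ : ∀ (i : ZMod 5) (a : ZMod 5 → ℕ), Allowed t (a + ee (i - 1) 7 + ee (i + 1) 7) →
      φ (a + ee (i - 1) 7 + ee (i + 1) 7) + φ (a + ee i 7) = φ a) :
    ∃ ψ : M.RM t →ₗ[k] E, ∀ (a : ZMod 5 → ℕ) (ha : Allowed t a),
      ψ ⟨zm M.z a, M.mem_RM ha⟩ = φ a := by
  set V : Submodule k ((ZMod 5 → ℕ) →₀ k) := Finsupp.supported k k {a | Allowed t a} with hV
  have hmem : ∀ x : V, Finsupp.linearCombination k (zm M.z) x.1 ∈ M.RM t := by
    intro x
    have h1 : V ≤ (M.RM t).comap (Finsupp.linearCombination k (zm M.z)) := by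
      rw [hV, Finsupp.supported_eq_span_single, Submodule.span_le]
      rintro _ ⟨a, ha, rfl⟩
      rw [SetLike.mem_coe, Submodule.mem_comap, Finsupp.linearCombination_single, one_smul]
      exact M.mem_RM ha
    exact h1 x.2
  let ev : V →ₗ[k] M.RM t :=
    LinearMap.codRestrict (M.RM t) ((Finsupp.linearCombination k (zm M.z)).comp V.subtype) hmem
  have hsurj : Function.Surjective ev := by
    rintro ⟨y, hy⟩
    have h1 : M.RM t ≤ V.map (Finsupp.linearCombination k (zm M.z)) := by
      unfold Model.RM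
      rw [Submodule.span_le]
      rintro _ ⟨a, ha, rfl⟩
      refine ⟨Finsupp.single a 1, Finsupp.single_mem_supported k 1 ha, ?_⟩
      rw [Finsupp.linearCombination_single, one_smul]
    obtain ⟨x, hx, hxy⟩ := h1 hy
    exact ⟨⟨x, hx⟩, Subtype.ext hxy⟩
  obtain ⟨g, hg⟩ := LinearMap.exists_rightInverse_of_surjective ev (LinearMap.range_eq_top.2 hsurj)
  refine ⟨((Finsupp.linearCombination k φ).comp V.subtype).comp g, fun a ha => ?_⟩
  have h1 : ev (g ⟨zm M.z a, M.mem_RM ha⟩) = ⟨zm M.z a, M.mem_RM ha⟩ :=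
    LinearMap.congr_fun hg _
  have h2 : Finsupp.linearCombination k (zm M.z) (g ⟨zm M.z a, M.mem_RM ha⟩).1 = zm M.z a :=
    congrArg Subtype.val h1
  set x : (ZMod 5 → ℕ) →₀ k := (g ⟨zm M.z a, M.mem_RM ha⟩).1 with hx
  have hxV : x ∈ V := (g ⟨zm M.z a, M.mem_RM ha⟩).2
  have haV : Finsupp.single a (1 : k) ∈ V := Finsupp.single_mem_supported k 1 ha
  have h3 : x - Finsupp.single a 1 ∈ GA_W k t := by
    refine GA4 M t _ ?_ ?_
    · intro b hb
      have h4 : x - Finsupp.single a 1 ∈ V := Submodule.sub_mem _ hxV haV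
      exact (Finsupp.mem_supported k _).1 h4 hb
    · have h5 : Finsupp.linearCombination k (zm M.z) (x - Finsupp.single a 1) = 0 := by
        rw [map_sub, h2, Finsupp.linearCombination_single, one_smul, sub_self]
      rw [Finsupp.linearCombination_apply] at h5
      exact h5
  have h6 := GA_W_kill t φ hφ _ h3
  rw [map_sub, Finsupp.linearCombination_single, one_smul, sub_eq_zero] at h6
  exact h6

/-- **Task GA3.** Homomorphisms out of the affine coordinate ring. -/
theorem GA3 (M : Model k K) {E : Type} [CommRing E] [Algebra k E] (e : ZMod 5 → E)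
    (he : ∀ i, e i ^ 7 + e (i - 1) ^ 7 * e (i + 1) ^ 7 = 1) :
    ∃ φ : M.B →ₐ[k] E, ∀ i, φ ⟨M.z i, Algebra.subset_adjoin ⟨i, rfl⟩⟩ = e i := by
  -- polynomials as combinations of monomials
  let C : MvPolynomial (ZMod 5) k → ((ZMod 5 → ℕ) →₀ k) := fun f =>
    ∑ d ∈ f.support, Finsupp.single (⇑d) (f.coeff d)
  have hC : ∀ {A : Type} [CommRing A] [Algebra k A] (x : ZMod 5 → A) (f : MvPolynomial (ZMod 5) k),
      Finsupp.linearCombination k (GA_zg x) (C f) = aeval x f := by
    intro A _ _ x f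
    rw [MvPolynomial.aeval_def, MvPolynomial.eval₂_eq', map_sum]
    refine Finset.sum_congr rfl fun d _ => ?_
    rw [Finsupp.linearCombination_single, Algebra.smul_def]
    rfl
  have hker : ∀ f : MvPolynomial (ZMod 5) k, aeval M.z f = 0 → aeval e f = 0 := by
    intro f hf
    have h1 : C f ∈ GA_W k (∑ d ∈ f.support, ∑ i, (d i : ℤ)) := by
      refine GA4 M _ _ ?_ ?_
      · intro a ha
        have h2 : a ∈ f.support.biUnion fun d => (Finsupp.single (⇑d) (f.coeff d)).support :=
          Finsupp.support_finsetSum ha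
        rw [Finset.mem_biUnion] at h2
        obtain ⟨d, hd, had⟩ := h2
        have h3 : a = ⇑d := by
          have := Finsupp.support_single_subset had
          exact Finset.mem_singleton.1 this
        subst h3
        intro i
        have h4 : ∑ i, (d i : ℤ) ≤ ∑ d ∈ f.support, ∑ i, (d i : ℤ) :=
          Finset.single_le_sum (f := fun d : ZMod 5 →₀ ℕ => ∑ i, (d i : ℤ))
            (fun d _ => Finset.sum_nonneg fun i _ => by positivity) hd
        have h5 : (d (i + 2) : ℤ) + (d (i + 3) : ℤ) ≤ ∑ i, (d i : ℤ) := by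
          have h6 : i + 2 ≠ i + 3 := by
            intro h
            have := add_left_cancel h
            exact absurd this (by decide)
          rw [← Finset.sum_pair (f := fun i => (d i : ℤ)) h6]
          exact Finset.sum_le_sum_of_subset_of_nonneg (Finset.subset_univ _)
            fun i _ _ => by positivity
        have h7 : (0 : ℤ) ≤ d i := by positivity
        linarith
      · have h2 := hC M.z f
        rw [hf, Finsupp.linearCombination_apply] at h2
        exact h2
    have h2 := GA_W_kill _ (GA_zg e) (fun i a _ => GA_zg_rel e he i a) _ h1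
    rw [hC e f] at h2
    exact h2
  let r : MvPolynomial (ZMod 5) k →ₐ[k] M.B :=
    aeval fun i => (⟨M.z i, Algebra.subset_adjoin ⟨i, rfl⟩⟩ : M.B)
  have hrv : ∀ f, ((r f : M.B) : K) = aeval M.z f := by
    intro f
    have h1 : M.B.val.comp r = aeval M.z := by
      apply MvPolynomial.algHom_ext
      intro i
      simp [r]
    exact congrArg (fun g => g f) h1
  have hr : Function.Surjective r := by
    rintro ⟨y, hy⟩
    have h1 : y ∈ (aeval M.z : MvPolynomial (ZMod 5) k →ₐ[k] K).range := by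
      rw [← Algebra.adjoin_range_eq_range_aeval]
      exact hy
    obtain ⟨f, hf⟩ := h1
    exact ⟨f, Subtype.ext ((hrv f).trans hf)⟩
  have hk : ∀ f, r f = 0 → aeval e f = 0 := by
    intro f hf
    apply hker
    rw [← hrv, hf]
    rfl
  let Φ : (MvPolynomial (ZMod 5) k ⧸ RingHom.ker r) →ₐ[k] E :=
    Ideal.Quotient.liftₐ (RingHom.ker r) (aeval e) (fun f hf => hk f ((RingHom.mem_ker).1 hf))
  refine ⟨Φ.comp (Ideal.quotientKerAlgEquivOfSurjective hr).symm.toAlgHom, fun i => ?_⟩
  have h1 : (Ideal.quotientKerAlgEquivOfSurjective hr).symm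
      (⟨M.z i, Algebra.subset_adjoin ⟨i, rfl⟩⟩ : M.B) = Ideal.Quotient.mk _ (X i) := by
    rw [AlgEquiv.symm_apply_eq]
    have h2 : Ideal.quotientKerAlgEquivOfSurjective hr (Ideal.Quotient.mk _ (X i)) = r (X i) := rfl
    rw [h2]
    simp [r]
  change Φ ((Ideal.quotientKerAlgEquivOfSurjective hr).symm
      (⟨M.z i, Algebra.subset_adjoin ⟨i, rfl⟩⟩ : M.B)) = e i
  rw [h1]
  change aeval e (X i) = e i
  simp

end

end Pool.Agent.H54R2.Ul
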