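import Pool.Agent.H54R2.Ul.Defs3

namespace Pool.Agent.H54R2.Ul

open MvPolynomial

noncomputable section

/-- multiplicities -/
theorem GB1_seven {R : Type} [CommRing R] [IsDomain R] [WfDvdMonoid R] {p a b c : R} {n : ℕ}
    (hp : Prime p) (ha : a ≠ 0) (hb : b ≠ 0) (hc : c ≠ 0) (hpc : ¬ p ∣ c)
    (h : a ^ 7 = b ^ 7 * p ^ n * c) : 7 ∣ n := by
  have e1 : multiplicity p (a ^ 7) = 7 * multiplicity p a := by
    have := emultiplicity_pow (a := a) hp (k := 7)
    have fa : FiniteMultiplicity p a := FiniteMultiplicity.of_prime_left hp ha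
    have fa7 : FiniteMultiplicity p (a ^ 7) :=
      FiniteMultiplicity.of_prime_left hp (pow_ne_zero _ ha)
    rw [fa.emultiplicity_eq_multiplicity, fa7.emultiplicity_eq_multiplicity] at this
    exact_mod_cast this
  have e2 : multiplicity p (b ^ 7) = 7 * multiplicity p b := by
    have := emultiplicity_pow (a := b) hp (k := 7)
    have fa : FiniteMultiplicity p b := FiniteMultiplicity.of_prime_left hp hb
    have fa7 : FiniteMultiplicity p (b ^ 7) :=
      FiniteMultiplicity.of_prime_left hp (pow_ne_zero _ hb)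
    rw [fa.emultiplicity_eq_multiplicity, fa7.emultiplicity_eq_multiplicity] at this
    exact_mod_cast this
  have hp0 : p ^ n ≠ 0 := pow_ne_zero _ hp.ne_zero
  have hb7 : b ^ 7 ≠ 0 := pow_ne_zero _ hb
  have e3 : multiplicity p (b ^ 7 * p ^ n * c) = multiplicity p (b ^ 7) + n + 0 := by
    rw [multiplicity_mul hp (FiniteMultiplicity.of_prime_left hp (mul_ne_zero (mul_ne_zero hb7 hp0) hc)),
      multiplicity_mul hp (FiniteMultiplicity.of_prime_left hp (mul_ne_zero hb7 hp0)),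
      multiplicity_pow_self_of_prime hp n, multiplicity_eq_zero.2 hpc]
  rw [h, e3, e2] at e1
  omega

/-- leading exponents for the lexicographic order -/
theorem GB1_lex {k : Type} [Field k] {ι : Type} (S : Finset ι)
    (P : ι → Polynomial (Polynomial k)) (hP : ∀ i ∈ S, P i ≠ 0) (c : ι → k)
    (hinj : ∀ i ∈ S, ∀ j ∈ S, (P i).natDegree = (P j).natDegree →
      (P i).leadingCoeff.natDegree = (P j).leadingCoeff.natDegree → i = j)
    (hsum : ∑ i ∈ S, Polynomial.C (Polynomial.C (c i)) * P i = 0) : ∀ i ∈ S, c i = 0 := by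
  classical
  by_contra hcon
  push Not at hcon
  obtain ⟨i₁, hi₁, hci₁⟩ := hcon
  let T := S.filter (fun i => c i ≠ 0)
  have hT : T.Nonempty := ⟨i₁, Finset.mem_filter.2 ⟨hi₁, hci₁⟩⟩
  obtain ⟨i₀, hi₀, hmax⟩ := T.exists_max_image
    (fun i => toLex ((P i).natDegree, (P i).leadingCoeff.natDegree)) hT
  have hi₀S : i₀ ∈ S := (Finset.mem_filter.1 hi₀).1
  have hc₀ : c i₀ ≠ 0 := (Finset.mem_filter.1 hi₀).2
  have hco := congrArg (fun Q => (Polynomial.coeff Q (P i₀).natDegree).coeff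
    (P i₀).leadingCoeff.natDegree) hsum
  simp only [Polynomial.finsetSum_coeff, Polynomial.coeff_C_mul, Polynomial.coeff_zero] at hco
  rw [Finset.sum_eq_single i₀] at hco
  · rw [Polynomial.coeff_natDegree, Polynomial.coeff_natDegree] at hco
    rcases mul_eq_zero.1 hco with h | h
    · exact hc₀ h
    · rw [Polynomial.leadingCoeff_eq_zero, Polynomial.leadingCoeff_eq_zero] at h
      exact hP i₀ hi₀S h
  · intro j hj hne
    by_cases hcj : c j = 0
    · simp [hcj]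
    · have hjT : j ∈ T := Finset.mem_filter.2 ⟨hj, hcj⟩
      have hle := hmax j hjT
      rw [Prod.Lex.toLex_le_toLex] at hle
      rcases hle with h | ⟨h1, h2⟩
      · rw [Polynomial.coeff_eq_zero_of_natDegree_lt h]; simp
      · have h2' : (P j).leadingCoeff.natDegree < (P i₀).leadingCoeff.natDegree := by
          refine lt_of_le_of_ne h2 ?_
          intro h3
          exact hne (hinj j hj i₀ hi₀S h1 h3)
        simp only at h1
        rw [← h1, Polynomial.coeff_natDegree, Polynomial.coeff_eq_zero_of_natDegree_lt h2']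
        simp
  · intro h; exact absurd hi₀S h

section
variable (k : Type) [Field k]

/-- the five primes -/
def GB1_p : Fin 5 → Polynomial (Polynomial k) :=
  ![Polynomial.X, Polynomial.C Polynomial.X, 1 - Polynomial.C Polynomial.X,
    Polynomial.X + Polynomial.C Polynomial.X - 1, 1 - Polynomial.X]

theorem GB1_X_ne_one : (Polynomial.X : Polynomial k) ≠ 1 := by
  intro h
  have := congrArg (fun q => Polynomial.coeff q 1) h
  simp [Polynomial.coeff_one] at this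

theorem GB1_one_sub_X_ne : (1 - Polynomial.X : Polynomial k) ≠ 0 := by
  intro h
  exact GB1_X_ne_one k (sub_eq_zero.1 h).symm

theorem GB1_X_sub_one_ne : (Polynomial.X - 1 : Polynomial k) ≠ 0 := by
  intro h
  exact GB1_X_ne_one k (sub_eq_zero.1 h)

theorem GB1_prime_one_sub {R : Type} [CommRing R] [IsDomain R] :
    Prime (1 - Polynomial.X : Polynomial R) := by
  have h := (Polynomial.prime_X_sub_C (1 : R)).neg
  simpa using h

theorem GB1_prime (j : Fin 5) : Prime (GB1_p k j) := by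
  fin_cases j
  · exact Polynomial.prime_X
  · exact Polynomial.prime_C_iff.2 Polynomial.prime_X
  · have : GB1_p k 2 = Polynomial.C (1 - Polynomial.X) := by simp [GB1_p]
    change Prime (GB1_p k 2)
    rw [this]
    exact Polynomial.prime_C_iff.2 GB1_prime_one_sub
  · have : GB1_p k 3 = Polynomial.X - Polynomial.C (1 - Polynomial.X) := by
      simp [GB1_p]; ring
    change Prime (GB1_p k 3)
    rw [this]
    exact Polynomial.prime_X_sub_C _
  · exact GB1_prime_one_sub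

/-- evaluation at a generic point of the curve of the j-th prime -/
theorem GB1_ev (j : Fin 5) : ∃ φ : Polynomial (Polynomial k) →+* Polynomial k,
    φ (GB1_p k j) = 0 ∧ ∀ i, i ≠ j → φ (GB1_p k i) ≠ 0 := by
  have hX : (Polynomial.X : Polynomial k) ≠ 0 := Polynomial.X_ne_zero
  have h1 := GB1_one_sub_X_ne k
  have h2 := GB1_X_sub_one_ne k
  fin_cases j
  · refine ⟨Polynomial.evalRingHom 0, by simp [GB1_p], ?_⟩
    intro i hi
    fin_cases i <;> simp [GB1_p] at * <;> assumption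
  · refine ⟨Polynomial.mapRingHom (Polynomial.evalRingHom 0), by simp [GB1_p], ?_⟩
    intro i hi
    fin_cases i <;> simp [GB1_p] at * <;> assumption
  · refine ⟨Polynomial.mapRingHom (Polynomial.evalRingHom 1), by simp [GB1_p], ?_⟩
    intro i hi
    fin_cases i <;> simp [GB1_p] at * <;> assumption
  · refine ⟨Polynomial.evalRingHom (1 - Polynomial.X), by simp [GB1_p], ?_⟩
    intro i hi
    fin_cases i <;> simp [GB1_p] at * <;> assumption
  · refine ⟨Polynomial.evalRingHom 1, by simp [GB1_p], ?_⟩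
    intro i hi
    fin_cases i <;> simp [GB1_p] at * <;> assumption

theorem GB1_poly {u v : Polynomial (Polynomial k)} (hu : u ≠ 0) (hv : v ≠ 0) (n : Fin 5 → ℕ)
    (h : u ^ 7 = v ^ 7 * ∏ i, GB1_p k i ^ n i) (j : Fin 5) : 7 ∣ n j := by
  obtain ⟨φ, h0, h1⟩ := GB1_ev k j
  have hne : φ (∏ i ∈ Finset.univ.erase j, GB1_p k i ^ n i) ≠ 0 := by
    rw [map_prod, Finset.prod_ne_zero_iff]
    intro i hi
    rw [map_pow]
    exact pow_ne_zero _ (h1 i (Finset.ne_of_mem_erase hi))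
  refine GB1_seven (p := GB1_p k j) (c := ∏ i ∈ Finset.univ.erase j, GB1_p k i ^ n i)
    (GB1_prime k j) hu hv ?_ ?_ ?_
  · intro h2; apply hne; rw [h2, map_zero]
  · rintro ⟨w, hw⟩
    apply hne
    rw [hw, map_mul, h0, zero_mul]
  · rw [h, mul_assoc, Finset.mul_prod_erase Finset.univ (fun i => GB1_p k i ^ n i)
      (Finset.mem_univ j)]

abbrev GB1_R := Polynomial (Polynomial k)
abbrev GB1_F := FractionRing (GB1_R k)

/-- the images of the five primes in the function field -/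
def GB1_a (j : Fin 5) : GB1_F k := algebraMap (GB1_R k) (GB1_F k) (GB1_p k j)

theorem GB1_a_ne (j : Fin 5) : GB1_a k j ≠ 0 := by
  intro h
  have := (IsFractionRing.injective (GB1_R k) (GB1_F k)) (h.trans (map_zero _).symm)
  exact (GB1_prime k j).ne_zero this

theorem GB1_a2 : GB1_a k 2 = 1 - GB1_a k 1 := by
  simp [GB1_a, GB1_p]

theorem GB1_a3 : GB1_a k 3 = GB1_a k 0 + GB1_a k 1 - 1 := by
  simp [GB1_a, GB1_p]

theorem GB1_a4 : GB1_a k 4 = 1 - GB1_a k 0 := by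
  simp [GB1_a, GB1_p]

/-- the five functions -/
def GB1_s : Fin 5 → GB1_F k :=
  ![GB1_a k 0, GB1_a k 1, GB1_a k 2 / GB1_a k 0, GB1_a k 3 / (GB1_a k 0 * GB1_a k 1),
    GB1_a k 4 / GB1_a k 1]

theorem GB1_kummer (g : Fin 5 → ℤ) (f : GB1_F k) (hf : f ^ 7 = ∏ i, GB1_s k i ^ g i) :
    ∀ i, 7 ∣ g i := by
  have a0 := GB1_a_ne k 0
  have a1 := GB1_a_ne k 1
  have a2 := GB1_a_ne k 2
  have a3 := GB1_a_ne k 3
  have a4 := GB1_a_ne k 4
  -- exponents
  let e : Fin 5 → ℤ := ![g 0 - g 2 - g 3, g 1 - g 3 - g 4, g 2, g 3, g 4]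
  have h1 : f ^ 7 = ∏ i, GB1_a k i ^ e i := by
    rw [hf]
    simp only [Fin.prod_univ_five, GB1_s, e]
    simp only [Matrix.cons_val_zero, Matrix.cons_val_one, Matrix.cons_val]
    rw [div_zpow, div_zpow, div_zpow, mul_zpow, zpow_sub₀ a0, zpow_sub₀ a0, zpow_sub₀ a1,
      zpow_sub₀ a1]
    field_simp
  let N : ℕ := ∑ i, (e i).natAbs
  have hN : ∀ i, 0 ≤ e i + 7 * (N : ℤ) := by
    intro i
    have : (e i).natAbs ≤ N := Finset.single_le_sum (f := fun i => (e i).natAbs)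
      (fun _ _ => Nat.zero_le _) (Finset.mem_univ i)
    omega
  let n : Fin 5 → ℕ := fun i => (e i + 7 * (N : ℤ)).toNat
  have hn : ∀ i, (n i : ℤ) = e i + 7 * (N : ℤ) := fun i => Int.toNat_of_nonneg (hN i)
  let w : GB1_F k := f * (∏ i, GB1_a k i) ^ N
  have h2 : w ^ 7 = ∏ i, GB1_a k i ^ n i := by
    have : ∀ i, GB1_a k i ^ n i = GB1_a k i ^ e i * GB1_a k i ^ (7 * N) := by
      intro i
      rw [← zpow_natCast, hn, zpow_add₀ (GB1_a_ne k i)]
      norm_cast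
    rw [Finset.prod_congr rfl (fun i _ => this i), Finset.prod_mul_distrib, ← h1,
      Finset.prod_pow]
    simp only [w]
    ring
  have hw : w ≠ 0 := by
    intro h
    rw [h] at h2
    have : (∏ i, GB1_a k i ^ n i) ≠ 0 := Finset.prod_ne_zero_iff.2
      (fun i _ => pow_ne_zero _ (GB1_a_ne k i))
    exact this (by rw [← h2]; simp)
  obtain ⟨u, v, hv, huv⟩ := IsFractionRing.div_surjective (A := GB1_R k) w
  have hv0 : v ≠ 0 := nonZeroDivisors.ne_zero hv
  have hav : algebraMap (GB1_R k) (GB1_F k) v ≠ 0 := by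
    intro h
    exact hv0 ((IsFractionRing.injective (GB1_R k) (GB1_F k)) (h.trans (map_zero _).symm))
  have hu0 : u ≠ 0 := by
    intro h
    rw [h] at huv
    apply hw
    rw [← huv]; simp
  have h3 : u ^ 7 = v ^ 7 * ∏ i, GB1_p k i ^ n i := by
    apply IsFractionRing.injective (GB1_R k) (GB1_F k)
    rw [map_mul, map_pow, map_pow, map_prod]
    simp only [map_pow]
    change _ = _ * ∏ i, GB1_a k i ^ n i
    rw [← h2, ← huv, div_pow]
    field_simp
  have h4 := GB1_poly k hu0 hv0 n h3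
  have h5 : ∀ i, (7 : ℤ) ∣ e i := by
    intro i
    have := h4 i
    have := hn i
    omega
  have e0 : e 0 = g 0 - g 2 - g 3 := rfl
  have e1 : e 1 = g 1 - g 3 - g 4 := rfl
  have e2 : e 2 = g 2 := rfl
  have e3 : e 3 = g 3 := rfl
  have e4 : e 4 = g 4 := rfl
  have d0 := h5 0
  have d1 := h5 1
  have d2 := h5 2
  have d3 := h5 3
  have d4 := h5 4
  intro i
  fin_cases i
  · change (7 : ℤ) ∣ g 0; omega
  · change (7 : ℤ) ∣ g 1; omega
  · change (7 : ℤ) ∣ g 2; omega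
  · change (7 : ℤ) ∣ g 3; omega
  · change (7 : ℤ) ∣ g 4; omega

theorem GB1_deg (a b c d e : ℕ) :
    let P : GB1_R k := Polynomial.X ^ a * (Polynomial.C Polynomial.X) ^ b *
      (1 - Polynomial.C Polynomial.X) ^ c * (Polynomial.X + Polynomial.C Polynomial.X - 1) ^ d *
      (1 - Polynomial.X) ^ e
    P ≠ 0 ∧ P.natDegree = a + d + e ∧ P.leadingCoeff.natDegree = b + c := by
  intro P
  have hP : P = (Polynomial.X ^ a * (Polynomial.X - Polynomial.C (1 - Polynomial.X)) ^ d *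
      (Polynomial.X - Polynomial.C 1) ^ e) *
      Polynomial.C ((-1) ^ e * (Polynomial.X ^ b * (-1) ^ c * (Polynomial.X - Polynomial.C 1) ^ c)) := by
    have e1 : (1 - Polynomial.C Polynomial.X : GB1_R k) = Polynomial.C (-1 *
        (Polynomial.X - Polynomial.C 1)) := by simp
    have e2 : (Polynomial.X + Polynomial.C Polynomial.X - 1 : GB1_R k) =
        (Polynomial.X - Polynomial.C (1 - Polynomial.X)) := by simp; ring
    have e3 : (1 - Polynomial.X : GB1_R k) = Polynomial.C (-1) * (Polynomial.X - Polynomial.C 1) := by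
      rw [Polynomial.C_neg, Polynomial.C_1]; ring
    simp only [P]
    rw [e1, e2, e3, mul_pow, ← Polynomial.C_pow, ← Polynomial.C_pow, ← Polynomial.C_pow, mul_pow]
    simp only [Polynomial.C_mul]
    ring
  have hmon : (Polynomial.X ^ a * (Polynomial.X - Polynomial.C (1 - Polynomial.X)) ^ d *
      (Polynomial.X - Polynomial.C 1) ^ e : GB1_R k).Monic :=
    ((Polynomial.monic_X_pow a).mul ((Polynomial.monic_X_sub_C _).pow d)).mul
      ((Polynomial.monic_X_sub_C _).pow e)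
  have hmon2 : (Polynomial.X ^ b * (Polynomial.X - Polynomial.C 1) ^ c : Polynomial k).Monic :=
    (Polynomial.monic_X_pow b).mul ((Polynomial.monic_X_sub_C _).pow c)
  have hc : ((-1) ^ e * (Polynomial.X ^ b * (-1) ^ c * (Polynomial.X - Polynomial.C 1) ^ c) :
      Polynomial k) = Polynomial.C ((-1) ^ (e + c)) *
        (Polynomial.X ^ b * (Polynomial.X - Polynomial.C 1) ^ c) := by
    rw [Polynomial.C_pow, Polynomial.C_neg, Polynomial.C_1, pow_add]
    ring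
  have hcc : ((-1 : k)) ^ (e + c) ≠ 0 := pow_ne_zero _ (neg_ne_zero.2 one_ne_zero)
  rw [hc] at hP
  have hne2 : (Polynomial.C (((-1 : k)) ^ (e + c)) *
        (Polynomial.X ^ b * (Polynomial.X - Polynomial.C 1) ^ c)) ≠ 0 :=
    mul_ne_zero (by rw [Ne, Polynomial.C_eq_zero]; exact hcc) hmon2.ne_zero
  refine ⟨?_, ?_, ?_⟩
  · rw [hP]
    exact mul_ne_zero hmon.ne_zero (by rw [Ne, Polynomial.C_eq_zero]; exact hne2)
  · rw [hP, Polynomial.natDegree_mul_C hne2]
    rw [((Polynomial.monic_X_pow a).mul ((Polynomial.monic_X_sub_C _).pow d)).natDegree_mul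
      ((Polynomial.monic_X_sub_C _).pow e), (Polynomial.monic_X_pow a).natDegree_mul
      ((Polynomial.monic_X_sub_C _).pow d), Polynomial.natDegree_X_pow,
      (Polynomial.monic_X_sub_C _).natDegree_pow, (Polynomial.monic_X_sub_C _).natDegree_pow]
    simp only [Polynomial.natDegree_X_sub_C]
    ring
  · rw [hP, Polynomial.leadingCoeff_mul, hmon.leadingCoeff, one_mul, Polynomial.leadingCoeff_C,
      Polynomial.natDegree_C_mul hcc, (Polynomial.monic_X_pow b).natDegree_mul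
      ((Polynomial.monic_X_sub_C _).pow c), Polynomial.natDegree_X_pow,
      (Polynomial.monic_X_sub_C _).natDegree_pow]
    simp only [Polynomial.natDegree_X_sub_C]
    ring

theorem GB1_inj {x0 x1 x2 x3 x4 y0 y1 y2 y3 y4 N : ℕ}
    (hN1 : x0 + x1 + x2 + x3 + x4 ≤ N) (hN2 : y0 + y1 + y2 + y3 + y4 ≤ N)
    (h1 : x0 + (N - (x2 + x3)) + x3 + x4 = y0 + (N - (y2 + y3)) + y3 + y4)
    (h2 : x1 + (N - (x3 + x4)) + x2 = y1 + (N - (y3 + y4)) + y2)
    (p0 : x0 = 0 ∨ x2 = 0) (p1 : x1 = 0 ∨ x3 = 0) (p2 : x2 = 0 ∨ x4 = 0) (p3 : x3 = 0 ∨ x0 = 0)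
    (p4 : x4 = 0 ∨ x1 = 0)
    (q0 : y0 = 0 ∨ y2 = 0) (q1 : y1 = 0 ∨ y3 = 0) (q2 : y2 = 0 ∨ y4 = 0) (q3 : y3 = 0 ∨ y0 = 0)
    (q4 : y4 = 0 ∨ y1 = 0) : x0 = y0 ∧ x1 = y1 ∧ x2 = y2 ∧ x3 = y3 ∧ x4 = y4 := by
  have hx : (x2 = 0 ∧ x3 = 0 ∧ x4 = 0) ∨ (x3 = 0 ∧ x4 = 0 ∧ x0 = 0) ∨ (x4 = 0 ∧ x0 = 0 ∧ x1 = 0) ∨
      (x0 = 0 ∧ x1 = 0 ∧ x2 = 0) ∨ (x1 = 0 ∧ x2 = 0 ∧ x3 = 0) := by clear q0 q1 q2 q3 q4 h1 h2 hN1 hN2; omega
  have hy : (y2 = 0 ∧ y3 = 0 ∧ y4 = 0) ∨ (y3 = 0 ∧ y4 = 0 ∧ y0 = 0) ∨ (y4 = 0 ∧ y0 = 0 ∧ y1 = 0) ∨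
      (y0 = 0 ∧ y1 = 0 ∧ y2 = 0) ∨ (y1 = 0 ∧ y2 = 0 ∧ y3 = 0) := by clear p0 p1 p2 p3 p4 h1 h2 hN1 hN2 hx; omega
  clear p0 p1 p2 p3 p4 q0 q1 q2 q3 q4
  rcases hx with ⟨hx1, hx2, hx3⟩ | ⟨hx1, hx2, hx3⟩ | ⟨hx1, hx2, hx3⟩ | ⟨hx1, hx2, hx3⟩ |
    ⟨hx1, hx2, hx3⟩ <;>
  rcases hy with ⟨hy1, hy2, hy3⟩ | ⟨hy1, hy2, hy3⟩ | ⟨hy1, hy2, hy3⟩ | ⟨hy1, hy2, hy3⟩ |
    ⟨hy1, hy2, hy3⟩ <;> omega

theorem GB1_indep : LinearIndependent k
    (fun m : {m : ZMod 5 → ℕ // ∀ i, m i = 0 ∨ m (i + 2) = 0} =>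
        ∏ i : Fin 5, GB1_s k i ^ m.1 i) := by
  classical
  rw [linearIndependent_iff']
  intro S c hsum
  have a0 := GB1_a_ne k 0
  have a1 := GB1_a_ne k 1
  obtain ⟨N, hN⟩ : ∃ N : ℕ, ∀ m ∈ S, m.1 0 + m.1 1 + m.1 2 + m.1 3 + m.1 4 ≤ N :=
    ⟨S.sup (fun m => m.1 0 + m.1 1 + m.1 2 + m.1 3 + m.1 4), fun m hm =>
      Finset.le_sup (f := fun m : {m : ZMod 5 → ℕ // ∀ i, m i = 0 ∨ m (i + 2) = 0} =>
        m.1 0 + m.1 1 + m.1 2 + m.1 3 + m.1 4) hm⟩
  let P : {m : ZMod 5 → ℕ // ∀ i, m i = 0 ∨ m (i + 2) = 0} → GB1_R k := fun m =>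
    Polynomial.X ^ (m.1 0 + (N - (m.1 2 + m.1 3))) *
      (Polynomial.C Polynomial.X) ^ (m.1 1 + (N - (m.1 3 + m.1 4))) *
      (1 - Polynomial.C Polynomial.X) ^ (m.1 2) *
      (Polynomial.X + Polynomial.C Polynomial.X - 1) ^ (m.1 3) *
      (1 - Polynomial.X) ^ (m.1 4)
  have hPa : ∀ m ∈ S, algebraMap (GB1_R k) (GB1_F k) (P m) =
      (GB1_a k 0 * GB1_a k 1) ^ N * ∏ i : Fin 5, GB1_s k i ^ m.1 i := by
    intro m hm
    have hNm := hN m hm
    have e0 : algebraMap (GB1_R k) (GB1_F k) Polynomial.X = GB1_a k 0 := rfl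
    have e1 : algebraMap (GB1_R k) (GB1_F k) (Polynomial.C Polynomial.X) = GB1_a k 1 := rfl
    have e2 : algebraMap (GB1_R k) (GB1_F k) (1 - Polynomial.C Polynomial.X) = GB1_a k 2 := rfl
    have e3 : algebraMap (GB1_R k) (GB1_F k)
      (Polynomial.X + Polynomial.C Polynomial.X - 1) = GB1_a k 3 := rfl
    have e4 : algebraMap (GB1_R k) (GB1_F k) (1 - Polynomial.X) = GB1_a k 4 := rfl
    simp only [P]
    rw [map_mul, map_mul, map_mul, map_mul, map_pow, map_pow, map_pow, map_pow, map_pow, e0, e1,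
      e2, e3, e4]
    obtain ⟨A, hA⟩ : ∃ A, N = A + (m.1 2 + m.1 3) := ⟨N - (m.1 2 + m.1 3), by omega⟩
    obtain ⟨B, hB⟩ : ∃ B, N = B + (m.1 3 + m.1 4) := ⟨N - (m.1 3 + m.1 4), by omega⟩
    have hA' : N - (m.1 2 + m.1 3) = A := by omega
    have hB' : N - (m.1 3 + m.1 4) = B := by omega
    rw [hA', hB', mul_pow (GB1_a k 0) (GB1_a k 1) N]
    have : GB1_a k 0 ^ N = GB1_a k 0 ^ A * GB1_a k 0 ^ (m.1 2) * GB1_a k 0 ^ (m.1 3) := by
      rw [hA]; ring
    rw [this]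
    have : GB1_a k 1 ^ N = GB1_a k 1 ^ B * GB1_a k 1 ^ (m.1 3) * GB1_a k 1 ^ (m.1 4) := by
      rw [hB]; ring
    rw [this]
    rw [Fin.prod_univ_five]
    simp only [GB1_s]
    simp only [Matrix.cons_val_zero, Matrix.cons_val_one, Matrix.cons_val]
    change _ = _ * (GB1_a k 0 ^ m.1 0 * GB1_a k 1 ^ m.1 1 * (GB1_a k 2 / GB1_a k 0) ^ m.1 2 *
      (GB1_a k 3 / (GB1_a k 0 * GB1_a k 1)) ^ m.1 3 * (GB1_a k 4 / GB1_a k 1) ^ m.1 4)
    rw [div_pow, div_pow, div_pow, mul_pow (GB1_a k 0) (GB1_a k 1) (m.1 3), pow_add, pow_add]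
    field_simp
  apply GB1_lex S P
  · intro m _
    exact (GB1_deg k _ _ _ _ _).1
  · intro m hm m' hm' h1 h2
    rw [(GB1_deg k _ _ _ _ _).2.1, (GB1_deg k _ _ _ _ _).2.1] at h1
    rw [(GB1_deg k _ _ _ _ _).2.2, (GB1_deg k _ _ _ _ _).2.2] at h2
    have hN1 := hN m hm
    have hN2 := hN m' hm'
    have p0 := m.2 0
    have p1 := m.2 1
    have p2 := m.2 2
    have p3 := m.2 3
    have p4 := m.2 4
    have q0 := m'.2 0
    have q1 := m'.2 1
    have q2 := m'.2 2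
    have q3 := m'.2 3
    have q4 := m'.2 4
    change _ ∨ m.1 2 = 0 at p0
    change _ ∨ m.1 3 = 0 at p1
    change _ ∨ m.1 4 = 0 at p2
    change _ ∨ m.1 0 = 0 at p3
    change _ ∨ m.1 1 = 0 at p4
    change _ ∨ m'.1 2 = 0 at q0
    change _ ∨ m'.1 3 = 0 at q1
    change _ ∨ m'.1 4 = 0 at q2
    change _ ∨ m'.1 0 = 0 at q3
    change _ ∨ m'.1 1 = 0 at q4
    have key := GB1_inj hN1 hN2 h1 h2 p0 p1 p2 p3 p4 q0 q1 q2 q3 q4
    apply Subtype.ext
    funext i
    obtain ⟨k0, k1, k2, k3, k4⟩ := key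
    fin_cases i
    · exact k0
    · exact k1
    · exact k2
    · exact k3
    · exact k4
  · apply IsFractionRing.injective (GB1_R k) (GB1_F k)
    rw [map_sum, map_zero]
    have : ∀ m ∈ S, algebraMap (GB1_R k) (GB1_F k)
        (Polynomial.C (Polynomial.C (c m)) * P m) =
        (GB1_a k 0 * GB1_a k 1) ^ N * (c m • ∏ i : Fin 5, GB1_s k i ^ m.1 i) := by
      intro m hm
      rw [map_mul, hPa m hm, Algebra.smul_def]
      have : algebraMap (GB1_R k) (GB1_F k) (Polynomial.C (Polynomial.C (c m))) =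
        algebraMap k (GB1_F k) (c m) := by
        rw [IsScalarTower.algebraMap_apply k (GB1_R k) (GB1_F k)]
        rfl
      rw [this]
      ring
    rw [Finset.sum_congr rfl this, ← Finset.mul_sum, hsum, mul_zero]

theorem GB1_quot (x : GB1_F k) : ∃ f g : MvPolynomial (Fin 5) k,
    aeval (GB1_s k) g ≠ 0 ∧ x * aeval (GB1_s k) g = aeval (GB1_s k) f := by
  let φ : GB1_R k →+* MvPolynomial (Fin 5) k :=
    Polynomial.eval₂RingHom (Polynomial.eval₂RingHom (MvPolynomial.C) (MvPolynomial.X 1))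
      (MvPolynomial.X 0)
  have hφ : (aeval (GB1_s k) : MvPolynomial (Fin 5) k →ₐ[k] GB1_F k).toRingHom.comp φ =
      algebraMap (GB1_R k) (GB1_F k) := by
    apply Polynomial.ringHom_ext
    · intro p
      have h2 : ((aeval (GB1_s k) : MvPolynomial (Fin 5) k →ₐ[k] GB1_F k).toRingHom.comp φ).comp
          Polynomial.C = (algebraMap (GB1_R k) (GB1_F k)).comp Polynomial.C := by
        apply Polynomial.ringHom_ext
        · intro a
          simp [φ]
          rw [IsScalarTower.algebraMap_apply k (GB1_R k) (GB1_F k)]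
          rfl
        · simp [φ]
          rfl
      exact congrArg (fun h => h p) h2
    · simp [φ]
      rfl
  obtain ⟨u, v, hv, huv⟩ := IsFractionRing.div_surjective (A := GB1_R k) x
  have hv0 : v ≠ 0 := nonZeroDivisors.ne_zero hv
  have hav : algebraMap (GB1_R k) (GB1_F k) v ≠ 0 := by
    intro h
    exact hv0 ((IsFractionRing.injective (GB1_R k) (GB1_F k)) (h.trans (map_zero _).symm))
  have h1 : ∀ p, aeval (GB1_s k) (φ p) = algebraMap (GB1_R k) (GB1_F k) p := by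
    intro p
    exact congrArg (fun h => h p) hφ
  refine ⟨φ u, φ v, ?_, ?_⟩
  · rw [h1]; exact hav
  · rw [h1, h1, ← huv]
    field_simp

theorem GB1_rel (i : Fin 5) : GB1_s k i + GB1_s k (i - 1) * GB1_s k (i + 1) = 1 := by
  have a0 := GB1_a_ne k 0
  have a1 := GB1_a_ne k 1
  have e2 := GB1_a2 k
  have e3 := GB1_a3 k
  have e4 := GB1_a4 k
  fin_cases i
  · change GB1_a k 0 + (GB1_a k 4 / GB1_a k 1) * GB1_a k 1 = 1
    rw [e4]; field_simp; ring
  · change GB1_a k 1 + GB1_a k 0 * (GB1_a k 2 / GB1_a k 0) = 1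
    rw [e2]; field_simp; ring
  · change (GB1_a k 2 / GB1_a k 0) + GB1_a k 1 * (GB1_a k 3 / (GB1_a k 0 * GB1_a k 1)) = 1
    rw [e2, e3]; field_simp; ring
  · change (GB1_a k 3 / (GB1_a k 0 * GB1_a k 1)) + (GB1_a k 2 / GB1_a k 0) *
      (GB1_a k 4 / GB1_a k 1) = 1
    rw [e2, e3, e4]; field_simp; ring
  · change (GB1_a k 4 / GB1_a k 1) + (GB1_a k 3 / (GB1_a k 0 * GB1_a k 1)) * GB1_a k 0 = 1
    rw [e3, e4]; field_simp; ring

theorem GB1_s_ne (i : Fin 5) : GB1_s k i ≠ 0 := by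
  have a0 := GB1_a_ne k 0
  have a1 := GB1_a_ne k 1
  have a2 := GB1_a_ne k 2
  have a3 := GB1_a_ne k 3
  have a4 := GB1_a_ne k 4
  fin_cases i
  · exact a0
  · exact a1
  · exact div_ne_zero a2 a0
  · exact div_ne_zero a3 (mul_ne_zero a0 a1)
  · exact div_ne_zero a4 a1

end

/-- **Task GB1.** The function field of the del Pezzo surface of degree five. -/
theorem GB1 (k : Type) [Field k] (h7 : (7 : k) ≠ 0) :
    ∃ (F : Type) (_ : Field F) (_ : Algebra k F) (s : ZMod 5 → F),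
      (∀ i, s i + s (i - 1) * s (i + 1) = 1) ∧ (∀ i, s i ≠ 0) ∧
      LinearIndependent k (fun m : {m : ZMod 5 → ℕ // ∀ i, m i = 0 ∨ m (i + 2) = 0} =>
        ∏ i, s i ^ m.1 i) ∧
      (∀ g : ZMod 5 → ℤ, (∃ f : F, f ^ 7 = ∏ i, s i ^ g i) → ∀ i, 7 ∣ g i) ∧
      (∀ x : F, ∃ f g : MvPolynomial (ZMod 5) k, aeval s g ≠ 0 ∧ x * aeval s g = aeval s f) :=
  ⟨GB1_F k, inferInstance, inferInstance, GB1_s k, GB1_rel k, GB1_s_ne k, GB1_indep k,
    fun g ⟨f, hf⟩ => GB1_kummer k g f hf, GB1_quot k⟩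

end

end Pool.Agent.H54R2.Ul
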