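import Pool.Agent.H54R2.Ul.Defs3

namespace Pool.Agent.H54R2.Ul

open MvPolynomial

noncomputable section

lemma GB2_root {k : Type} [Field k] [IsAlgClosed k] {O : Type} [Field O] [Algebra k O]
    (x : O) (hx : x ^ 7 = 1) : ∃ c : k, algebraMap k O c = x := by
  have hint : IsIntegral k x := by
    refine ⟨Polynomial.X ^ 7 - Polynomial.C 1, Polynomial.monic_X_pow_sub_C _ (by norm_num), ?_⟩
    simp [hx]
  have hirr := minpoly.irreducible hint
  have hdeg := IsAlgClosed.degree_eq_one_of_irreducible k hirr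
  exact minpoly.mem_range_of_degree_eq_one k x hdeg

lemma GB2_kummer {k : Type} [Field k] [IsAlgClosed k] {F : Type} [Field F]
    [Algebra k F] {O : Type} [Field O] [Algebra F O] [Algebra k O] [IsScalarTower k F O]
    [IsGalois F O] (s : ZMod 5 → F) (h0 : ∀ i, s i ≠ 0)
    (hkum : ∀ g : ZMod 5 → ℤ, (∃ f : F, f ^ 7 = ∏ i, s i ^ g i) → ∀ i, 7 ∣ g i)
    (z : ZMod 5 → O) (hz : ∀ i, z i ^ 7 = algebraMap F O (s i)) :
    LinearIndependent F (fun e : ZMod 5 → Fin 7 => ∏ i, z i ^ (e i).val) := by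
  have hz0 : ∀ i, z i ≠ 0 := by
    intro i h
    have := hz i
    rw [h, zero_pow (by norm_num)] at this
    exact h0 i ((map_eq_zero (algebraMap F O)).1 this.symm)
  set w : (ZMod 5 → Fin 7) → O := fun e => ∏ i, z i ^ (e i).val with hw
  have hw0 : ∀ e, w e ≠ 0 := fun e => Finset.prod_ne_zero_iff.2 fun i _ => pow_ne_zero _ (hz0 i)
  -- the basic characters
  have hrt : ∀ (g : O ≃ₐ[F] O) (i : ZMod 5), ∃ c : k, algebraMap k O c * z i = g (z i) := by
    intro g i
    have h1 : (g (z i) / z i) ^ 7 = 1 := by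
      rw [div_pow, ← map_pow, hz i, AlgEquiv.commutes, div_self]
      rw [← hz i]
      exact pow_ne_zero _ (hz0 i)
    obtain ⟨c, hc⟩ := GB2_root (k := k) _ h1
    refine ⟨c, ?_⟩
    rw [hc, div_mul_cancel₀ _ (hz0 i)]
  have hrt2 : ∀ (g : O ≃ₐ[F] O) (e : ZMod 5 → Fin 7), ∃ c : k, algebraMap k O c * w e = g (w e) := by
    intro g e
    choose c hc using hrt g
    refine ⟨∏ i, c i ^ (e i).val, ?_⟩
    simp only [hw, map_prod, map_pow, ← hc, mul_pow, Finset.prod_mul_distrib]
  let χ : (ZMod 5 → Fin 7) → ((O ≃ₐ[F] O) →* O) := fun e =>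
    { toFun := fun g => g (w e) / w e
      map_one' := by
        show w e / w e = 1
        exact div_self (hw0 e)
      map_mul' := by
        intro g h
        obtain ⟨c, hc⟩ := hrt2 g e
        obtain ⟨d, hd⟩ := hrt2 h e
        show g (h (w e)) / w e = g (w e) / w e * (h (w e) / w e)
        have hgd : g (algebraMap k O d) = algebraMap k O d := by
          rw [IsScalarTower.algebraMap_apply k F O, AlgEquiv.commutes]
        rw [← hd, map_mul, hgd, ← hc, mul_div_assoc, mul_div_assoc, mul_div_assoc,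
          div_self (hw0 e)]
        ring }
  have hχ : ∀ e g, χ e g * w e = g (w e) := fun e g => div_mul_cancel₀ _ (hw0 e)
  have hinj : Function.Injective χ := by
    intro e e' h
    have hfix : w e / w e' ∈ Set.range (algebraMap F O) := by
      rw [InfiniteGalois.mem_range_algebraMap_iff_fixed]
      intro g
      have h1 := hχ e g
      have h2 := hχ e' g
      rw [h] at h1
      have h3 : χ e' g ≠ 0 := by
        intro h4
        rw [h4, zero_mul] at h2
        exact hw0 e' ((map_eq_zero g).1 h2.symm)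
      rw [map_div₀, ← h1, ← h2, mul_div_mul_left _ _ h3]
    obtain ⟨f, hf⟩ := hfix
    have h7 : f ^ 7 = ∏ i, s i ^ (((e i).val : ℤ) - (e' i).val) := by
      apply (algebraMap F O).injective
      rw [map_pow, hf, map_prod, hw, div_pow, ← Finset.prod_pow, ← Finset.prod_pow,
        ← Finset.prod_div_distrib]
      refine Finset.prod_congr rfl fun i _ => ?_
      rw [map_zpow₀, ← hz i, zpow_sub₀ (pow_ne_zero _ (hz0 i)), zpow_natCast, zpow_natCast,
        ← pow_mul, ← pow_mul, ← pow_mul, ← pow_mul, mul_comm 7, mul_comm 7]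
    have hdvd := hkum _ ⟨f, h7⟩
    funext i
    have := hdvd i
    apply Fin.ext
    have h1 := (e i).isLt
    have h2 := (e' i).isLt
    omega
  have hded := (linearIndependent_monoidHom (O ≃ₐ[F] O) O).comp χ hinj
  rw [Fintype.linearIndependent_iff] at hded ⊢
  intro f hf e
  have key := hded (fun e => algebraMap F O (f e) * w e) (by
    funext g
    simp only [Function.comp_apply, Finset.sum_apply, Pi.smul_apply, smul_eq_mul, Pi.zero_apply]
    have := congrArg g hf
    rw [map_sum, map_zero] at this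
    rw [← this]
    refine Finset.sum_congr rfl fun e _ => ?_
    rw [map_smul, ← hχ e g, Algebra.smul_def]
    ring) e
  rcases mul_eq_zero.1 key with h | h
  · exact (map_eq_zero (algebraMap F O)).1 h
  · exact absurd h (hw0 e)

lemma GB2_indep {k : Type} [Field k] [IsAlgClosed k] {F : Type} [Field F]
    [Algebra k F] {O : Type} [Field O] [Algebra F O] [Algebra k O] [IsScalarTower k F O]
    [IsGalois F O] (s : ZMod 5 → F) (h0 : ∀ i, s i ≠ 0)
    (hind : LinearIndependent k (fun m : {m : ZMod 5 → ℕ // ∀ i, m i = 0 ∨ m (i + 2) = 0} =>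
        ∏ i, s i ^ m.1 i))
    (hkum : ∀ g : ZMod 5 → ℤ, (∃ f : F, f ^ 7 = ∏ i, s i ^ g i) → ∀ i, 7 ∣ g i)
    (z : ZMod 5 → O) (hz : ∀ i, z i ^ 7 = algebraMap F O (s i)) :
    LinearIndependent k (fun a : {a : ZMod 5 → ℕ // NF a} => zm z a.1) := by
  have h1 := GB2_kummer (k := k) s h0 hkum z hz
  have h2 := linearIndependent_smul hind h1
  let φ : {a : ZMod 5 → ℕ // NF a} →
      {m : ZMod 5 → ℕ // ∀ i, m i = 0 ∨ m (i + 2) = 0} × (ZMod 5 → Fin 7) := fun a =>
    (⟨fun i => a.1 i / 7, fun i => by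
      rcases a.2 i with h | h
      · left; exact Nat.div_eq_of_lt h
      · right; exact Nat.div_eq_of_lt h⟩, fun i => ⟨a.1 i % 7, Nat.mod_lt _ (by norm_num)⟩)
  have hφ : Function.Injective φ := by
    intro a b h
    have h3 : (φ a).1.1 = (φ b).1.1 := by rw [h]
    have h4 : (φ a).2 = (φ b).2 := by rw [h]
    apply Subtype.ext
    funext i
    have h5 : a.1 i / 7 = b.1 i / 7 := congrFun h3 i
    have h6 : a.1 i % 7 = b.1 i % 7 := congrArg Fin.val (congrFun h4 i)
    omega
  have h3 := h2.comp φ hφ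
  convert h3 using 1
  funext a
  simp only [Function.comp_apply, φ, zm]
  rw [Algebra.smul_def, map_prod, ← Finset.prod_mul_distrib]
  refine Finset.prod_congr rfl fun i _ => ?_
  rw [map_pow, ← hz i, ← pow_mul, ← pow_add, Nat.div_add_mod]

/-- **Task GB2.** Adjoining seventh roots. -/
theorem GB2 (k : Type) [Field k] [IsAlgClosed k] (h7 : (7 : k) ≠ 0) (F : Type) [Field F]
    [Algebra k F] (s : ZMod 5 → F) (hrel : ∀ i, s i + s (i - 1) * s (i + 1) = 1)
    (h0 : ∀ i, s i ≠ 0)
    (hind : LinearIndependent k (fun m : {m : ZMod 5 → ℕ // ∀ i, m i = 0 ∨ m (i + 2) = 0} =>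
        ∏ i, s i ^ m.1 i))
    (hkum : ∀ g : ZMod 5 → ℤ, (∃ f : F, f ^ 7 = ∏ i, s i ^ g i) → ∀ i, 7 ∣ g i)
    (hfr : ∀ x : F, ∃ f g : MvPolynomial (ZMod 5) k,
      aeval s g ≠ 0 ∧ x * aeval s g = aeval s f) :
    ∃ (K : Type) (_ : Field K) (_ : Algebra k K), Nonempty (Model k K) := by
  let O : Type := SeparableClosure F
  have h7O : ((7 : ℕ) : O) ≠ 0 := by
    have : algebraMap k O 7 ≠ 0 := by
      rw [Ne, map_eq_zero]
      exact h7
    rw [map_ofNat] at this
    exact_mod_cast this
  have : NeZero ((7 : ℕ) : O) := ⟨h7O⟩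
  have hex : ∀ i, ∃ z : O, z ^ 7 = algebraMap F O (s i) := fun i =>
    IsSepClosed.exists_pow_nat_eq _ 7
  choose z hz using hex
  let K := IntermediateField.adjoin k (Set.range z)
  have hzK : ∀ i, z i ∈ K := fun i => IntermediateField.subset_adjoin _ _ ⟨i, rfl⟩
  have hind' := GB2_indep s h0 hind hkum z hz
  refine ⟨K, inferInstance, inferInstance, ⟨{ z := fun i => ⟨z i, hzK i⟩, rel := ?_, indep := ?_, frac := ?_ }⟩⟩
  · intro i
    apply Subtype.ext
    show z i ^ 7 + z (i - 1) ^ 7 * z (i + 1) ^ 7 = 1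
    rw [hz, hz, hz, ← map_mul, ← map_add, hrel, map_one]
  · refine LinearIndependent.of_comp K.val.toLinearMap ?_
    convert hind' using 1
    funext a
    simp [zm]
  · intro x
    have hx := x.2
    rw [IntermediateField.mem_adjoin_range_iff] at hx
    obtain ⟨f, g, hfg⟩ := hx
    have hcoe : ∀ f : MvPolynomial (ZMod 5) k,
        ((aeval (fun i => (⟨z i, hzK i⟩ : K)) f : K) : O) = aeval z f := by
      intro f
      have : K.val (aeval (fun i => (⟨z i, hzK i⟩ : K)) f) =
          aeval (fun i => K.val (⟨z i, hzK i⟩ : K)) f := by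
        rw [MvPolynomial.comp_aeval_apply]
      exact this
    by_cases hg : aeval z g = 0
    · rw [hg, div_zero] at hfg
      refine ⟨0, 1, by simp, ?_⟩
      have : x = 0 := Subtype.ext hfg
      simp [this]
    · refine ⟨f, g, ?_, ?_⟩
      · intro h
        apply hg
        rw [← hcoe, h]
        rfl
      · apply Subtype.ext
        show (x : O) * ((aeval (fun i => (⟨z i, hzK i⟩ : K)) g : K) : O) = _
        rw [hcoe, hcoe, hfg, div_mul_cancel₀ _ hg]

end

end Pool.Agent.H54R2.Ul
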