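import Pool.Agent.H54R2.Ul.Defs3

namespace Pool.Agent.H54R2.Ul

open MvPolynomial

noncomputable section

variable {k K : Type} [Field k] [Field K] [Algebra k K]

/-- the five inequalities, the equation and the five normal form conditions, at position `i` -/
lemma GC1_data {t : ℤ} {i : ZMod 5} {a : ZMod 5 → ℕ} (ha : Allowed t a) (hn : NF a) :
    ((a (i + 2) : ℤ) + a (i + 3) ≤ t + a i ∧ (a (i + 3) : ℤ) + a (i + 4) ≤ t + a (i + 1) ∧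
      (a (i + 4) : ℤ) + a i ≤ t + a (i + 2) ∧ (a i : ℤ) + a (i + 1) ≤ t + a (i + 3) ∧
      (a (i + 1) : ℤ) + a (i + 2) ≤ t + a (i + 4)) ∧
    (a i < 7 ∨ a (i + 2) < 7) ∧ (a (i + 1) < 7 ∨ a (i + 3) < 7) ∧ (a (i + 2) < 7 ∨ a (i + 4) < 7) ∧
      (a (i + 3) < 7 ∨ a i < 7) ∧ (a (i + 4) < 7 ∨ a (i + 1) < 7) := by
  have e1 : i + 1 + 2 = i + 3 := by revert i; decide
  have e2 : i + 1 + 3 = i + 4 := by revert i; decide
  have e3 : i + 2 + 2 = i + 4 := by revert i; decide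
  have e4 : i + 2 + 3 = i := by revert i; decide
  have e5 : i + 3 + 2 = i := by revert i; decide
  have e6 : i + 3 + 3 = i + 1 := by revert i; decide
  have e7 : i + 4 + 2 = i + 1 := by revert i; decide
  have e8 : i + 4 + 3 = i + 2 := by revert i; decide
  have h0 := ha i
  have h1 := ha (i + 1)
  have h2 := ha (i + 2)
  have h3 := ha (i + 3)
  have h4 := ha (i + 4)
  have n0 := hn i
  have n1 := hn (i + 1)
  have n2 := hn (i + 2)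
  have n3 := hn (i + 3)
  have n4 := hn (i + 4)
  rw [e1, e2] at h1
  rw [e3, e4] at h2
  rw [e5, e6] at h3
  rw [e7, e8] at h4
  rw [e1] at n1
  rw [e3] at n2
  rw [e5] at n3
  rw [e7] at n4
  exact ⟨⟨h0, h1, h2, h3, h4⟩, n0, n1, n2, n3, n4⟩

lemma GC1_core (t : ℤ) (a0 a1 a2 a3 a4 c1 c2 c3 c4 : ℕ)
    (h0 : (a2 : ℤ) + a3 = t + a0) (h1 : (a3 : ℤ) + a4 ≤ t + a1) (h2 : (a4 : ℤ) + a0 ≤ t + a2)
    (h3 : (a0 : ℤ) + a1 ≤ t + a3) (h4 : (a1 : ℤ) + a2 ≤ t + a4)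
    (n1 : a1 < 7 ∨ a3 < 7) (n2 : a2 < 7 ∨ a4 < 7) (n4 : a4 < 7 ∨ a1 < 7)
    (h0' : (c2 : ℤ) + c3 = t + a0) (h1' : (c3 : ℤ) + c4 ≤ t + c1) (h2' : (c4 : ℤ) + a0 ≤ t + c2)
    (h3' : (a0 : ℤ) + c1 ≤ t + c3) (h4' : (c1 : ℤ) + c2 ≤ t + c4)
    (n1' : c1 < 7 ∨ c3 < 7) (n2' : c2 < 7 ∨ c4 < 7) (n4' : c4 < 7 ∨ c1 < 7)
    (m1 : a1 % 7 = c1 % 7) (m2 : a2 % 7 = c2 % 7) (hv : (t + a1 - a3 - a4 : ℤ) = t + c1 - c3 - c4) :
    a1 = c1 ∧ a2 = c2 ∧ a3 = c3 ∧ a4 = c4 := by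
  obtain ⟨A, hA⟩ : ∃ A : ℤ, (a1 : ℤ) - c1 = 7 * A := ⟨((a1 : ℤ) - c1) / 7, by omega⟩
  obtain ⟨B, hB⟩ : ∃ B : ℤ, (a2 : ℤ) - c2 = 7 * B := ⟨((a2 : ℤ) - c2) / 7, by omega⟩
  have e4 : (a4 : ℤ) - c4 = 7 * A + 7 * B := by omega
  have e3 : (a3 : ℤ) - c3 = - 7 * B := by omega
  by_cases hAB : A + B = 0
  · rcases lt_trichotomy A 0 with h | h | h
    · omega
    · omega
    · omega
  · rcases lt_or_gt_of_ne hAB with h | h
    · -- c4 ≥ 7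
      omega
    · omega

/-- **Task GC1.** Normal forms with `b_i = 0`: the exponent at `i` is small and the monomial is
determined by its restriction to the boundary curve. -/
theorem GC1 (t : ℤ) (i : ZMod 5) (a a' : ZMod 5 → ℕ) (ha : Allowed t a) (ha' : Allowed t a')
    (hn : NF a) (hn' : NF a') (h0 : (a (i + 2) : ℤ) + a (i + 3) = t + a i)
    (h0' : (a' (i + 2) : ℤ) + a' (i + 3) = t + a' i) :
    a i < 7 ∧ (a i = a' i → a (i + 1) % 7 = a' (i + 1) % 7 → a (i + 2) % 7 = a' (i + 2) % 7 →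
      (t + a (i + 1) - a (i + 3) - a (i + 4) : ℤ) = t + a' (i + 1) - a' (i + 3) - a' (i + 4) →
      a = a') := by
  obtain ⟨⟨-, h1, h2, h3, h4⟩, n0, n1, n2, n3, n4⟩ := GC1_data (i := i) ha hn
  obtain ⟨⟨-, h1', h2', h3', h4'⟩, n0', n1', n2', n3', n4'⟩ := GC1_data (i := i) ha' hn'
  refine ⟨by omega, fun e0 m1 m2 hv => ?_⟩
  rw [← e0] at h0' h2' h3'
  obtain ⟨r1, r2, r3, r4⟩ := GC1_core t (a i) (a (i + 1)) (a (i + 2)) (a (i + 3)) (a (i + 4))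
    (a' (i + 1)) (a' (i + 2)) (a' (i + 3)) (a' (i + 4)) h0 h1 h2 h3 h4 n1 n2 n4 h0' h1' h2' h3' h4'
    n1' n2' n4' m1 m2 hv
  funext j
  obtain ⟨m, rfl⟩ : ∃ m, j = i + m := ⟨j - i, by ring⟩
  fin_cases m
  · change a (i + 0) = a' (i + 0)
    rw [add_zero]; exact e0
  · exact r1
  · exact r2
  · exact r3
  · exact r4

end

end Pool.Agent.H54R2.Ul
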