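import Pool.Agent.H54R2.Ul.Defs3
import Pool.Agent.H54R2.Ul.St.GC1

namespace Pool.Agent.H54R2.Ul

open MvPolynomial

section

open Finset

/-! ### The base case, by a kernel computation -/

/-- a sum over `k < n`, by structural recursion -/
def GC2_csum (n : ℕ) (f : ℕ → ℕ) : ℕ := Nat.rec 0 (fun k acc => acc + f k) n

lemma GC2_csum_eq (n : ℕ) (f : ℕ → ℕ) : GC2_csum n f = ∑ k ∈ range n, f k := by
  induction n with
  | zero => rfl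
  | succ n ih => rw [sum_range_succ, ← ih]; rfl

/-- the conditions on `a_0, a_2` -/
def GC2_c1 (p r : ℕ) : Bool := Nat.ble p 6 || Nat.ble r 6
/-- the conditions on `a_0, ..., a_3` -/
def GC2_c2 (p q r s : ℕ) : Bool :=
  Nat.ble (r + s) (6 + p) && Nat.ble (p + q) (6 + s) && (Nat.ble q 6 || Nat.ble s 6) && (Nat.ble s 6 || Nat.ble p 6)
/-- the conditions involving `a_4` -/
def GC2_c3 (p q r s d : ℕ) : Bool :=
  Nat.ble (s + d) (6 + q) && Nat.ble (d + p) (6 + r) && Nat.ble (q + r) (6 + d) &&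
    (Nat.ble r 6 || Nat.ble d 6) && (Nat.ble d 6 || Nat.ble q 6)

/-- the number of normal forms in degree six -/
def GC2_num : ℕ :=
  GC2_csum 13 fun p => GC2_csum 13 fun r => bif GC2_c1 p r then
    GC2_csum 13 fun q => GC2_csum 13 fun s => bif GC2_c2 p q r s then
      GC2_csum 13 fun d => bif GC2_c3 p q r s d then 1 else 0 else 0 else 0

lemma GC2_num_eq : GC2_num = 9947 := by decide +kernel


/-- tuples in a box -/
def GC2_box : Finset (ℕ × ℕ × ℕ × ℕ × ℕ) :=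
  (range 13 ×ˢ range 13 ×ˢ range 13 ×ˢ range 13 ×ˢ range 13).filter
    fun x => GC2_c1 x.1 x.2.1 ∧ GC2_c2 x.1 x.2.2.1 x.2.1 x.2.2.2.1 ∧ GC2_c3 x.1 x.2.2.1 x.2.1 x.2.2.2.1 x.2.2.2.2

lemma GC2_box_card : #GC2_box = 9947 := by
  rw [← GC2_num_eq, GC2_box, card_filter, sum_product, GC2_num, GC2_csum_eq]
  refine sum_congr rfl fun p _ => ?_
  rw [sum_product, GC2_csum_eq]
  refine sum_congr rfl fun r _ => ?_
  rw [sum_product]
  cases h1 : GC2_c1 p r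
  · simp [h1]
  · rw [cond_true, GC2_csum_eq]
    refine sum_congr rfl fun q _ => ?_
    rw [sum_product, GC2_csum_eq]
    refine sum_congr rfl fun s _ => ?_
    cases h2 : GC2_c2 p q r s
    · simp [h2]
    · rw [cond_true, GC2_csum_eq]
      refine sum_congr rfl fun d _ => ?_
      cases h3 : GC2_c3 p q r s d <;> simp [h1, h2]

/-! ### Finiteness -/

lemma GC2_data (T : ℕ) (a : ZMod 5 → ℕ) : NF a ∧ Allowed T a ↔
    ((a 0 < 7 ∨ a 2 < 7) ∧ (a 1 < 7 ∨ a 3 < 7) ∧ (a 2 < 7 ∨ a 4 < 7) ∧ (a 3 < 7 ∨ a 0 < 7) ∧ (a 4 < 7 ∨ a 1 < 7)) ∧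
    (a 2 + a 3 ≤ T + a 0 ∧ a 3 + a 4 ≤ T + a 1 ∧ a 4 + a 0 ≤ T + a 2 ∧ a 0 + a 1 ≤ T + a 3 ∧ a 1 + a 2 ≤ T + a 4) := by
  rw [allowed_iff]
  constructor
  · rintro ⟨h, h0, h1, h2, h3, h4⟩
    exact ⟨⟨h 0, h 1, h 2, h 3, h 4⟩, by omega, by omega, by omega, by omega, by omega⟩
  · rintro ⟨⟨n0, n1, n2, n3, n4⟩, h0, h1, h2, h3, h4⟩
    refine ⟨fun i => ?_, by omega, by omega, by omega, by omega, by omega⟩
    fin_cases i
    · exact n0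
    · exact n1
    · exact n2
    · exact n3
    · exact n4

/-- the set of normal forms in degree `T` -/
def GC2_S (T : ℕ) : Set (ZMod 5 → ℕ) := {a | NF a ∧ Allowed T a}

lemma GC2_ext (a b : ZMod 5 → ℕ) (h0 : a 0 = b 0) (h1 : a 1 = b 1) (h2 : a 2 = b 2) (h3 : a 3 = b 3)
    (h4 : a 4 = b 4) : a = b := by
  funext i
  fin_cases i
  · exact h0
  · exact h1
  · exact h2
  · exact h3
  · exact h4

lemma GC2_fin (T : ℕ) : (GC2_S T).Finite := by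
  apply (Set.finite_Iic (fun _ : ZMod 5 => 2 * T)).subset
  intro a ha
  have h := (GC2_data T a).1 ha
  intro i
  fin_cases i
  · change a 0 ≤ 2 * T; omega
  · change a 1 ≤ 2 * T; omega
  · change a 2 ≤ 2 * T; omega
  · change a 3 ≤ 2 * T; omega
  · change a 4 ≤ 2 * T; omega

/-- the same as a finset -/
noncomputable def GC2_F (T : ℕ) : Finset (ZMod 5 → ℕ) := (GC2_fin T).toFinset

lemma GC2_mem (T : ℕ) (a : ZMod 5 → ℕ) : a ∈ GC2_F T ↔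
    ((a 0 < 7 ∨ a 2 < 7) ∧ (a 1 < 7 ∨ a 3 < 7) ∧ (a 2 < 7 ∨ a 4 < 7) ∧ (a 3 < 7 ∨ a 0 < 7) ∧ (a 4 < 7 ∨ a 1 < 7)) ∧
    (a 2 + a 3 ≤ T + a 0 ∧ a 3 + a 4 ≤ T + a 1 ∧ a 4 + a 0 ≤ T + a 2 ∧ a 0 + a 1 ≤ T + a 3 ∧ a 1 + a 2 ≤ T + a 4) := by
  rw [← GC2_data, GC2_F, Set.Finite.mem_toFinset]
  rfl

lemma GC2_tuple (x0 x1 x2 x3 x4 : ℕ) : ∃ a : ZMod 5 → ℕ, a 0 = x0 ∧ a 1 = x1 ∧ a 2 = x2 ∧ a 3 = x3 ∧ a 4 = x4 :=
  ⟨fun i => (![x0, x1, x2, x3, x4] : Fin 5 → ℕ) i, rfl, rfl, rfl, rfl, rfl⟩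

lemma GC2_base : #(GC2_F 6) = 9947 := by
  rw [← GC2_box_card]
  refine card_bij (fun a _ => (a 0, a 2, a 1, a 3, a 4)) ?_ ?_ ?_
  · intro a ha
    rw [GC2_mem] at ha
    simp only [GC2_box, mem_filter, mem_product, mem_range, GC2_c1, GC2_c2, GC2_c3, Bool.and_eq_true,
      Bool.or_eq_true, Nat.ble_eq]
    omega
  · intro a _ b _ h
    simp only [Prod.mk.injEq] at h
    exact GC2_ext a b h.1 h.2.2.1 h.2.1 h.2.2.2.1 h.2.2.2.2
  · rintro ⟨x0, x2, x1, x3, x4⟩ h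
    simp only [GC2_box, mem_filter, mem_product, mem_range, GC2_c1, GC2_c2, GC2_c3, Bool.and_eq_true,
      Bool.or_eq_true, Nat.ble_eq] at h
    obtain ⟨a, rfl, rfl, rfl, rfl, rfl⟩ := GC2_tuple x0 x1 x2 x3 x4
    refine ⟨a, ?_, rfl⟩
    rw [GC2_mem]
    omega

/-! ### One boundary curve -/

lemma GC2_surj (T x y u v : ℕ) (hT : 7 ≤ T) (hx : x < 7) (hy : y < 7) (hu : u < 7) (huv : u + v ≤ T) :
    ∃ a1 a2 a3 a4 : ℕ, a1 % 7 = x ∧ a2 % 7 = y ∧ T + a1 = v + a3 + a4 ∧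
      ((u < 7 ∨ a2 < 7) ∧ (a1 < 7 ∨ a3 < 7) ∧ (a2 < 7 ∨ a4 < 7) ∧ (a3 < 7 ∨ u < 7) ∧ (a4 < 7 ∨ a1 < 7)) ∧
      (a2 + a3 = T + u ∧ a3 + a4 ≤ T + a1 ∧ a4 + u ≤ T + a2 ∧ u + a1 ≤ T + a3 ∧ a1 + a2 ≤ T + a4) := by
  by_cases he : u + v ≤ x + y
  · exact ⟨x, y, T + u - y, x + y - u - v, by omega, by omega, by omega, by omega, by omega⟩
  · obtain ⟨E, hE1, hE2⟩ : ∃ E : ℕ, u + v ≤ x + y + 7 * E ∧ x + y + 7 * E < u + v + 7 :=
      ⟨(u + v - x - y + 6) / 7, by omega, by omega⟩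
    obtain ⟨B, hB1, hB2⟩ : ∃ B : ℕ, y + 7 * B ≤ T + u ∧ T + u < y + 7 * B + 7 :=
      ⟨(T + u - y) / 7, by omega, by omega⟩
    by_cases hEB : E ≤ B
    · exact ⟨x, y + 7 * E, T + u - y - 7 * E, x + y + 7 * E - u - v, by omega, by omega, by omega, by omega, by omega⟩
    · obtain ⟨A, rfl⟩ : ∃ A, E = B + A := ⟨E - B, by omega⟩
      exact ⟨x + 7 * A, y + 7 * B, T + u - y - 7 * B, x + y + 7 * (B + A) - u - v, by omega, by omega, by omega,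
        by omega, by omega⟩

/-- the parameter set -/
def GC2_P (T : ℕ) : Finset ((ℕ × ℕ) × (Σ _ : ℕ, ℕ)) :=
  (range 7 ×ˢ range 7) ×ˢ ((range 7).sigma fun u => range (T + 1 - u))

lemma GC2_P_card (T : ℕ) (hT : 7 ≤ T) : #(GC2_P T) = 49 * (7 * T - 14) := by
  rw [GC2_P, card_product, card_product, card_sigma]
  simp only [card_range, sum_range_succ, sum_range_zero]
  omega

lemma GC2_inj (T : ℕ) (a b : ZMod 5 → ℕ) (ha : a ∈ GC2_F T) (hb : b ∈ GC2_F T) (h0 : a 2 + a 3 = T + a 0)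
    (h0' : b 2 + b 3 = T + b 0) : a 0 < 7 ∧ (a 0 = b 0 → a 1 % 7 = b 1 % 7 → a 2 % 7 = b 2 % 7 →
      T + a 1 - a 3 - a 4 = T + b 1 - b 3 - b 4 → a = b) := by
  rw [GC2_mem, ← GC2_data] at ha hb
  have key := GC1 (T : ℤ) 0 a b ha.2 hb.2 ha.1 hb.1 (by change (a 2 : ℤ) + a 3 = T + a 0; omega)
    (by change (b 2 : ℤ) + b 3 = T + b 0; omega)
  rw [GC2_data] at ha hb
  refine ⟨key.1, fun e0 e1 e2 e3 => key.2 e0 e1 e2 ?_⟩
  change (T + a 1 - a 3 - a 4 : ℤ) = T + b 1 - b 3 - b 4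
  omega

set_option linter.constructorNameAsVariable false in
lemma GC2_S0 (T : ℕ) (hT : 7 ≤ T) : #({a ∈ GC2_F T | a 2 + a 3 = T + a 0}) = 49 * (7 * T - 14) := by
  rw [← GC2_P_card T hT]
  refine card_bij (fun a _ => ((a 1 % 7, a 2 % 7), ⟨a 0, T + a 1 - a 3 - a 4⟩)) ?_ ?_ ?_
  · intro a ha
    rw [mem_filter] at ha
    have h7 := (GC2_inj T a a ha.1 ha.1 ha.2 ha.2).1
    have hb := ((GC2_mem T a).1 ha.1).2
    have he := ha.2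
    clear ha
    have hv : T + a 1 - a 3 - a 4 < T + 1 - a 0 := by omega
    simp only [GC2_P, mem_product, mem_range, mem_sigma]
    exact ⟨⟨Nat.mod_lt _ (by norm_num), Nat.mod_lt _ (by norm_num)⟩, h7, hv⟩
  · intro a ha b hb h
    rw [mem_filter] at ha hb
    simp only [Prod.mk.injEq, Sigma.mk.injEq, heq_eq_eq] at h
    exact (GC2_inj T a b ha.1 hb.1 ha.2 hb.2).2 h.2.1 h.1.1 h.1.2 h.2.2
  · rintro ⟨⟨x, y⟩, ⟨u, v⟩⟩ h
    simp only [GC2_P, mem_product, mem_range, mem_sigma] at h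
    obtain ⟨a1, a2, a3, a4, e1, e2, e3, hn, hb⟩ := GC2_surj T x y u v hT (by omega) (by omega) (by omega) (by omega)
    obtain ⟨a, rfl, rfl, rfl, rfl, rfl⟩ := GC2_tuple u a1 a2 a3 a4
    refine ⟨a, ?_, ?_⟩
    · rw [mem_filter, GC2_mem]
      exact ⟨⟨hn, hb.1.le, hb.2⟩, hb.1⟩
    · simp only [Prod.mk.injEq, Sigma.mk.injEq, heq_eq_eq]
      exact ⟨⟨e1, e2⟩, trivial, by clear hn hb h e1 e2; omega⟩

lemma GC2_S01 (T : ℕ) (hT : 7 ≤ T) :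
    #({a ∈ GC2_F T | a 2 + a 3 = T + a 0 ∧ a 3 + a 4 = T + a 1}) = 343 := by
  have h343 : #(range 7 ×ˢ range 7 ×ˢ range 7) = 343 := by simp
  rw [← h343]
  refine card_bij (fun a _ => (a 1 % 7, a 2 % 7, a 0)) ?_ ?_ ?_
  · intro a ha
    rw [mem_filter] at ha
    have h7 := (GC2_inj T a a ha.1 ha.1 ha.2.1 ha.2.1).1
    simp only [mem_product, mem_range]
    exact ⟨Nat.mod_lt _ (by norm_num), Nat.mod_lt _ (by norm_num), h7⟩
  · intro a ha b hb h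
    rw [mem_filter] at ha hb
    simp only [Prod.mk.injEq] at h
    exact (GC2_inj T a b ha.1 hb.1 ha.2.1 hb.2.1).2 h.2.2 h.1 h.2.1 (by
      have h1 := ha.2.2
      have h2 := hb.2.2
      clear ha hb h
      omega)
  · rintro ⟨x, y, u⟩ h
    simp only [mem_product, mem_range] at h
    obtain ⟨a1, a2, a3, a4, e1, e2, e3, hn, hb⟩ := GC2_surj T x y u 0 hT (by omega) (by omega) (by omega) (by omega)
    obtain ⟨a, rfl, rfl, rfl, rfl, rfl⟩ := GC2_tuple u a1 a2 a3 a4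
    refine ⟨a, ?_, ?_⟩
    · rw [mem_filter, GC2_mem]
      exact ⟨⟨hn, hb.1.le, hb.2⟩, hb.1, by clear hn hb h e1 e2; omega⟩
    · simp only [Prod.mk.injEq]
      exact ⟨e1, e2, trivial⟩


/-! ### Rotation -/

/-- rotation of the indices -/
def GC2_rot (a : ZMod 5 → ℕ) : ZMod 5 → ℕ := fun i => a (i + 1)

lemma GC2_rot_mem (T : ℕ) (a : ZMod 5 → ℕ) : GC2_rot a ∈ GC2_F T ↔ a ∈ GC2_F T := by
  rw [GC2_mem, GC2_mem]
  change ((a 1 < 7 ∨ a 3 < 7) ∧ (a 2 < 7 ∨ a 4 < 7) ∧ (a 3 < 7 ∨ a 0 < 7) ∧ (a 4 < 7 ∨ a 1 < 7) ∧ (a 0 < 7 ∨ a 2 < 7)) ∧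
    (a 3 + a 4 ≤ T + a 1 ∧ a 4 + a 0 ≤ T + a 2 ∧ a 0 + a 1 ≤ T + a 3 ∧ a 1 + a 2 ≤ T + a 4 ∧ a 2 + a 3 ≤ T + a 0) ↔ _
  tauto

lemma GC2_rot_inj : Function.Injective GC2_rot := by
  intro a b h
  funext i
  have := congrFun h (i - 1)
  simpa [GC2_rot] using this

lemma GC2_rot_surj : Function.Surjective GC2_rot := by
  intro a
  exact ⟨fun i => a (i - 1), by funext i; simp [GC2_rot]⟩

lemma GC2_rot_card (T : ℕ) (p q : (ZMod 5 → ℕ) → Prop) [DecidablePred p] [DecidablePred q]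
    (h : ∀ a, p (GC2_rot a) ↔ q a) : #({a ∈ GC2_F T | q a}) = #({a ∈ GC2_F T | p a}) := by
  refine card_bij (fun a _ => GC2_rot a) ?_ ?_ ?_
  · intro a ha
    rw [mem_filter] at ha ⊢
    exact ⟨(GC2_rot_mem T a).2 ha.1, (h a).2 ha.2⟩
  · intro a _ b _ hab
    exact GC2_rot_inj hab
  · intro b hb
    obtain ⟨a, rfl⟩ := GC2_rot_surj b
    rw [mem_filter] at hb
    exact ⟨a, by rw [mem_filter]; exact ⟨(GC2_rot_mem T a).1 hb.1, (h a).1 hb.2⟩, rfl⟩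

lemma GC2_cards (T : ℕ) (hT : 7 ≤ T) :
    (#({a ∈ GC2_F T | a 2 + a 3 = T + a 0}) = 49 * (7 * T - 14) ∧
     #({a ∈ GC2_F T | a 3 + a 4 = T + a 1}) = 49 * (7 * T - 14) ∧
     #({a ∈ GC2_F T | a 4 + a 0 = T + a 2}) = 49 * (7 * T - 14) ∧
     #({a ∈ GC2_F T | a 0 + a 1 = T + a 3}) = 49 * (7 * T - 14) ∧
     #({a ∈ GC2_F T | a 1 + a 2 = T + a 4}) = 49 * (7 * T - 14)) ∧
    (#({a ∈ GC2_F T | a 2 + a 3 = T + a 0 ∧ a 3 + a 4 = T + a 1}) = 343 ∧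
     #({a ∈ GC2_F T | a 3 + a 4 = T + a 1 ∧ a 4 + a 0 = T + a 2}) = 343 ∧
     #({a ∈ GC2_F T | a 4 + a 0 = T + a 2 ∧ a 0 + a 1 = T + a 3}) = 343 ∧
     #({a ∈ GC2_F T | a 0 + a 1 = T + a 3 ∧ a 1 + a 2 = T + a 4}) = 343 ∧
     #({a ∈ GC2_F T | a 1 + a 2 = T + a 4 ∧ a 2 + a 3 = T + a 0}) = 343) := by
  have s0 := GC2_S0 T hT
  have s1 := (GC2_rot_card T (fun a => a 2 + a 3 = T + a 0) (fun a => a 3 + a 4 = T + a 1) fun a => Iff.rfl).trans s0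
  have s2 := (GC2_rot_card T (fun a => a 3 + a 4 = T + a 1) (fun a => a 4 + a 0 = T + a 2) fun a => Iff.rfl).trans s1
  have s3 := (GC2_rot_card T (fun a => a 4 + a 0 = T + a 2) (fun a => a 0 + a 1 = T + a 3) fun a => Iff.rfl).trans s2
  have s4 := (GC2_rot_card T (fun a => a 0 + a 1 = T + a 3) (fun a => a 1 + a 2 = T + a 4) fun a => Iff.rfl).trans s3
  have r0 := GC2_S01 T hT
  have r1 := (GC2_rot_card T (fun a => a 2 + a 3 = T + a 0 ∧ a 3 + a 4 = T + a 1)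
    (fun a => a 3 + a 4 = T + a 1 ∧ a 4 + a 0 = T + a 2) fun a => Iff.rfl).trans r0
  have r2 := (GC2_rot_card T (fun a => a 3 + a 4 = T + a 1 ∧ a 4 + a 0 = T + a 2)
    (fun a => a 4 + a 0 = T + a 2 ∧ a 0 + a 1 = T + a 3) fun a => Iff.rfl).trans r1
  have r3 := (GC2_rot_card T (fun a => a 4 + a 0 = T + a 2 ∧ a 0 + a 1 = T + a 3)
    (fun a => a 0 + a 1 = T + a 3 ∧ a 1 + a 2 = T + a 4) fun a => Iff.rfl).trans r2
  have r4 := (GC2_rot_card T (fun a => a 0 + a 1 = T + a 3 ∧ a 1 + a 2 = T + a 4)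
    (fun a => a 1 + a 2 = T + a 4 ∧ a 2 + a 3 = T + a 0) fun a => Iff.rfl).trans r3
  exact ⟨⟨s0, s1, s2, s3, s4⟩, r0, r1, r2, r3, r4⟩

lemma GC2_bool (M p0 p1 p2 p3 p4 : Prop) [Decidable M] [Decidable p0] [Decidable p1] [Decidable p2] [Decidable p3]
    [Decidable p4] (hm : M ↔ (¬ p0 ∧ ¬ p1 ∧ ¬ p2 ∧ ¬ p3 ∧ ¬ p4)) (d02 : ¬ (p0 ∧ p2)) (d13 : ¬ (p1 ∧ p3))
    (d24 : ¬ (p2 ∧ p4)) (d30 : ¬ (p3 ∧ p0)) (d41 : ¬ (p4 ∧ p1)) :
    (if M then 0 else 1) + ((if p0 ∧ p1 then 1 else 0) + (if p1 ∧ p2 then 1 else 0) + (if p2 ∧ p3 then 1 else 0) +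
      (if p3 ∧ p4 then 1 else 0) + (if p4 ∧ p0 then 1 else 0)) =
    (if p0 then 1 else 0) + (if p1 then 1 else 0) + (if p2 then 1 else 0) + (if p3 then 1 else 0) +
      (if p4 then 1 else 0) := by
  by_cases h0 : p0 <;> by_cases h1 : p1 <;> by_cases h2 : p2 <;> by_cases h3 : p3 <;> by_cases h4 : p4 <;>
    simp_all

open Classical in
lemma GC2_pointwise (T : ℕ) (hT : 7 ≤ T) (a : ZMod 5 → ℕ) (ha : a ∈ GC2_F T) :
    (if a ∈ GC2_F (T - 1) then 0 else 1) + ((if a 2 + a 3 = T + a 0 ∧ a 3 + a 4 = T + a 1 then 1 else 0) +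
      (if a 3 + a 4 = T + a 1 ∧ a 4 + a 0 = T + a 2 then 1 else 0) +
      (if a 4 + a 0 = T + a 2 ∧ a 0 + a 1 = T + a 3 then 1 else 0) +
      (if a 0 + a 1 = T + a 3 ∧ a 1 + a 2 = T + a 4 then 1 else 0) +
      (if a 1 + a 2 = T + a 4 ∧ a 2 + a 3 = T + a 0 then 1 else 0)) =
    (if a 2 + a 3 = T + a 0 then 1 else 0) + (if a 3 + a 4 = T + a 1 then 1 else 0) +
      (if a 4 + a 0 = T + a 2 then 1 else 0) + (if a 0 + a 1 = T + a 3 then 1 else 0) +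
      (if a 1 + a 2 = T + a 4 then 1 else 0) := by
  rw [GC2_mem] at ha
  obtain ⟨⟨n0, n1, n2, n3, n4⟩, i0, i1, i2, i3, i4⟩ := ha
  refine GC2_bool _ _ _ _ _ _ ?_ ?_ ?_ ?_ ?_ ?_
  · rw [GC2_mem]
    constructor
    · rintro ⟨-, h1, h2, h3, h4, h5⟩
      clear n0 n1 n2 n3 n4
      refine ⟨by omega, by omega, by omega, by omega, by omega⟩
    · intro h
      refine ⟨⟨n0, n1, n2, n3, n4⟩, ?_⟩
      clear n0 n1 n2 n3 n4
      exact ⟨by omega, by omega, by omega, by omega, by omega⟩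
  all_goals omega

lemma GC2_step (T : ℕ) (hT : 7 ≤ T) : #(GC2_F T) = #(GC2_F (T - 1)) + 1715 * (T - 3) := by
  classical
  have hsub : GC2_F (T - 1) ⊆ GC2_F T := by
    intro a ha
    rw [GC2_mem] at ha ⊢
    refine ⟨ha.1, ?_⟩
    obtain ⟨-, h⟩ := ha
    exact ⟨by omega, by omega, by omega, by omega, by omega⟩
  have key : ∑ a ∈ GC2_F T, ((if a ∈ GC2_F (T - 1) then 0 else 1) +
      ((if a 2 + a 3 = T + a 0 ∧ a 3 + a 4 = T + a 1 then 1 else 0) +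
      (if a 3 + a 4 = T + a 1 ∧ a 4 + a 0 = T + a 2 then 1 else 0) +
      (if a 4 + a 0 = T + a 2 ∧ a 0 + a 1 = T + a 3 then 1 else 0) +
      (if a 0 + a 1 = T + a 3 ∧ a 1 + a 2 = T + a 4 then 1 else 0) +
      (if a 1 + a 2 = T + a 4 ∧ a 2 + a 3 = T + a 0 then 1 else 0))) =
    ∑ a ∈ GC2_F T, ((if a 2 + a 3 = T + a 0 then 1 else 0) + (if a 3 + a 4 = T + a 1 then 1 else 0) +
      (if a 4 + a 0 = T + a 2 then 1 else 0) + (if a 0 + a 1 = T + a 3 then 1 else 0) +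
      (if a 1 + a 2 = T + a 4 then 1 else 0)) := sum_congr rfl fun a ha => GC2_pointwise T hT a ha
  obtain ⟨⟨s0, s1, s2, s3, s4⟩, r0, r1, r2, r3, r4⟩ := GC2_cards T hT
  simp only [sum_add_distrib, ← card_filter] at key
  rw [s0, s1, s2, s3, s4, r0, r1, r2, r3, r4] at key
  have h1 : ∑ a ∈ GC2_F T, (if a ∈ GC2_F (T - 1) then 0 else 1) = #(GC2_F T) - #(GC2_F (T - 1)) := by
    rw [← card_sdiff_of_subset hsub, ← filter_notMem_eq_sdiff, card_filter]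
    refine sum_congr rfl fun a _ => ?_
    by_cases h : a ∈ GC2_F (T - 1) <;> simp [h]
  have h2 := card_le_card hsub
  rw [h1] at key
  omega

lemma GC2_step' (n : ℕ) : (#(GC2_F (n + 1 + 6)) : ℤ) = #(GC2_F (n + 6)) + 1715 * (n + 4) := by
  have e : ∀ n : ℕ, n + 1 + 6 - 1 = n + 6 := fun n => by omega
  have e' : ∀ n : ℕ, n + 1 + 6 - 3 = n + 4 := fun n => by omega
  have h := GC2_step (n + 1 + 6) (by omega)
  rw [e, e'] at h
  rw [h, Nat.cast_add, Nat.cast_mul, Nat.cast_add]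
  rfl

lemma GC2_main (n : ℕ) : 2 * (#(GC2_F (n + 6)) : ℤ) = 1715 * ((n : ℤ) + 6) ^ 2 - 8575 * ((n : ℤ) + 6) + 9604 := by
  induction n with
  | zero => rw [Nat.zero_add, GC2_base]; norm_num
  | succ n ih =>
    rw [GC2_step', Nat.cast_succ]
    linear_combination ih

end

noncomputable section

/-- **Task GC2.** The number of normal forms in each degree. -/
theorem GC2 (t : ℤ) (ht : 6 ≤ t) :
    2 * (Set.ncard {a : ZMod 5 → ℕ | NF a ∧ Allowed t a} : ℤ) =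
      1715 * t ^ 2 - 8575 * t + 9604 := by
  obtain ⟨n, rfl⟩ : ∃ n : ℕ, t = n + 6 := ⟨(t - 6).toNat, by omega⟩
  have h := GC2_main n
  have e : Set.ncard {a : ZMod 5 → ℕ | NF a ∧ Allowed ((n : ℤ) + 6) a} = (GC2_F (n + 6)).card := by
    have : {a : ZMod 5 → ℕ | NF a ∧ Allowed ((n : ℤ) + 6) a} = GC2_S (n + 6) := by
      unfold GC2_S
      push_cast
      rfl
    rw [this, Set.ncard_eq_toFinset_card _ (GC2_fin (n + 6))]
    rfl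
  rw [e]
  exact h

end

end Pool.Agent.H54R2.Ul
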