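import Pool.Agent.H54R2.Ul.Defs3

namespace Pool.Agent.H54R2.Ul

/-- the case tree: every graph on five vertices has a Hamilton cycle or misses one of 45 patterns -/
theorem GD_tree (P : ℕ → Prop)
    (h0 : P 0 → P 1 → P 2 → P 3 → P 4 → False)
    (h1 : P 0 → P 1 → P 3 → P 5 → P 6 → False)
    (h2 : P 0 → P 2 → P 3 → P 7 → P 8 → False)
    (h3 : P 0 → P 2 → P 4 → P 5 → P 9 → False)
    (h4 : P 0 → P 2 → P 5 → P 6 → P 7 → False)
    (h5 : P 0 → P 3 → P 5 → P 8 → P 9 → False)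
    (h6 : P 1 → P 2 → P 4 → P 6 → P 7 → False)
    (h7 : P 1 → P 3 → P 4 → P 8 → P 9 → False)
    (h8 : P 1 → P 3 → P 6 → P 7 → P 8 → False)
    (h9 : P 1 → P 4 → P 5 → P 6 → P 9 → False)
    (h10 : P 2 → P 4 → P 7 → P 8 → P 9 → False)
    (h11 : P 5 → P 6 → P 7 → P 8 → P 9 → False)
    (g0 : ¬ P 3 → ¬ P 5 → ¬ P 7 → False)
    (g1 : ¬ P 3 → ¬ P 4 → ¬ P 5 → False)
    (g2 : ¬ P 3 → ¬ P 4 → ¬ P 7 → False)
    (g3 : ¬ P 4 → ¬ P 5 → ¬ P 7 → False)
    (g4 : ¬ P 0 → ¬ P 6 → ¬ P 8 → False)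
    (g5 : ¬ P 4 → ¬ P 6 → ¬ P 8 → False)
    (g6 : ¬ P 0 → ¬ P 4 → ¬ P 6 → False)
    (g7 : ¬ P 0 → ¬ P 4 → ¬ P 8 → False)
    (g8 : ¬ P 0 → ¬ P 1 → ¬ P 9 → False)
    (g9 : ¬ P 1 → ¬ P 7 → ¬ P 9 → False)
    (g10 : ¬ P 0 → ¬ P 7 → ¬ P 9 → False)
    (g11 : ¬ P 0 → ¬ P 1 → ¬ P 7 → False)
    (g12 : ¬ P 1 → ¬ P 2 → ¬ P 8 → False)
    (g13 : ¬ P 1 → ¬ P 2 → ¬ P 5 → False)
    (g14 : ¬ P 2 → ¬ P 5 → ¬ P 8 → False)
    (g15 : ¬ P 1 → ¬ P 5 → ¬ P 8 → False)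
    (g16 : ¬ P 2 → ¬ P 6 → ¬ P 9 → False)
    (g17 : ¬ P 2 → ¬ P 3 → ¬ P 9 → False)
    (g18 : ¬ P 2 → ¬ P 3 → ¬ P 6 → False)
    (g19 : ¬ P 3 → ¬ P 6 → ¬ P 9 → False)
    (g20 : ¬ P 1 → ¬ P 6 → ¬ P 8 → ¬ P 9 → False)
    (g21 : ¬ P 0 → ¬ P 1 → ¬ P 2 → ¬ P 6 → False)
    (g22 : ¬ P 0 → ¬ P 2 → ¬ P 8 → ¬ P 9 → False)
    (g23 : ¬ P 1 → ¬ P 3 → ¬ P 5 → ¬ P 9 → False)
    (g24 : ¬ P 1 → ¬ P 2 → ¬ P 3 → ¬ P 7 → False)
    (g25 : ¬ P 2 → ¬ P 5 → ¬ P 7 → ¬ P 9 → False)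
    (g26 : ¬ P 3 → ¬ P 5 → ¬ P 6 → ¬ P 8 → False)
    (g27 : ¬ P 2 → ¬ P 3 → ¬ P 4 → ¬ P 8 → False)
    (g28 : ¬ P 2 → ¬ P 4 → ¬ P 5 → ¬ P 6 → False)
    (g29 : ¬ P 0 → ¬ P 3 → ¬ P 6 → ¬ P 7 → False)
    (g30 : ¬ P 0 → ¬ P 3 → ¬ P 4 → ¬ P 9 → False)
    (g31 : ¬ P 4 → ¬ P 6 → ¬ P 7 → ¬ P 9 → False)
    (g32 : ¬ P 0 → ¬ P 5 → ¬ P 7 → ¬ P 8 → False)
    (g33 : ¬ P 0 → ¬ P 1 → ¬ P 4 → ¬ P 5 → False)
    (g34 : ¬ P 1 → ¬ P 4 → ¬ P 7 → ¬ P 8 → False)
    (g35 : ¬ P 0 → ¬ P 4 → ¬ P 7 → False)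
    (g36 : ¬ P 4 → ¬ P 5 → ¬ P 8 → False)
    (g37 : ¬ P 3 → ¬ P 4 → ¬ P 6 → False)
    (g38 : ¬ P 1 → ¬ P 5 → ¬ P 7 → False)
    (g39 : ¬ P 3 → ¬ P 7 → ¬ P 9 → False)
    (g40 : ¬ P 2 → ¬ P 3 → ¬ P 5 → False)
    (g41 : ¬ P 0 → ¬ P 1 → ¬ P 8 → False)
    (g42 : ¬ P 0 → ¬ P 6 → ¬ P 9 → False)
    (g43 : ¬ P 2 → ¬ P 6 → ¬ P 8 → False)
    (g44 : ¬ P 1 → ¬ P 2 → ¬ P 9 → False) : False := by
  by_cases p0 : P 0
  · by_cases p2 : P 2
    · by_cases p3 : P 3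
      · by_cases p1 : P 1
        · by_cases p4 : P 4
          · exact h0 p0 p1 p2 p3 p4
          · by_cases p5 : P 5
            · by_cases p6 : P 6
              · exact h1 p0 p1 p3 p5 p6
              · by_cases p8 : P 8
                · by_cases p7 : P 7
                  · exact h2 p0 p2 p3 p7 p8
                  · by_cases p9 : P 9
                    · exact h5 p0 p3 p5 p8 p9
                    · exact g31 p4 p6 p7 p9
                · exact g5 p4 p6 p8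
            · by_cases p7 : P 7
              · by_cases p8 : P 8
                · exact h2 p0 p2 p3 p7 p8
                · exact g36 p4 p5 p8
              · exact g3 p4 p5 p7
        · by_cases p7 : P 7
          · by_cases p8 : P 8
            · exact h2 p0 p2 p3 p7 p8
            · by_cases p5 : P 5
              · by_cases p6 : P 6
                · exact h4 p0 p2 p5 p6 p7
                · by_cases p4 : P 4
                  · by_cases p9 : P 9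
                    · exact h3 p0 p2 p4 p5 p9
                    · exact g20 p1 p6 p8 p9
                  · exact g5 p4 p6 p8
              · exact g15 p1 p5 p8
          · by_cases p5 : P 5
            · by_cases p9 : P 9
              · by_cases p4 : P 4
                · exact h3 p0 p2 p4 p5 p9
                · by_cases p8 : P 8
                  · exact h5 p0 p3 p5 p8 p9
                  · exact g34 p1 p4 p7 p8
              · exact g9 p1 p7 p9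
            · exact g38 p1 p5 p7
      · by_cases p4 : P 4
        · by_cases p9 : P 9
          · by_cases p5 : P 5
            · exact h3 p0 p2 p4 p5 p9
            · by_cases p7 : P 7
              · by_cases p8 : P 8
                · exact h10 p2 p4 p7 p8 p9
                · by_cases p1 : P 1
                  · by_cases p6 : P 6
                    · exact h6 p1 p2 p4 p6 p7
                    · exact g26 p3 p5 p6 p8
                  · exact g15 p1 p5 p8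
              · exact g0 p3 p5 p7
          · by_cases p6 : P 6
            · by_cases p7 : P 7
              · by_cases p5 : P 5
                · exact h4 p0 p2 p5 p6 p7
                · by_cases p1 : P 1
                  · exact h6 p1 p2 p4 p6 p7
                  · exact g23 p1 p3 p5 p9
              · exact g39 p3 p7 p9
            · exact g19 p3 p6 p9
        · by_cases p5 : P 5
          · by_cases p6 : P 6
            · by_cases p7 : P 7
              · exact h4 p0 p2 p5 p6 p7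
              · exact g2 p3 p4 p7
            · exact g37 p3 p4 p6
          · exact g1 p3 p4 p5
    · by_cases p1 : P 1
      · by_cases p3 : P 3
        · by_cases p6 : P 6
          · by_cases p5 : P 5
            · exact h1 p0 p1 p3 p5 p6
            · by_cases p8 : P 8
              · by_cases p7 : P 7
                · exact h8 p1 p3 p6 p7 p8
                · by_cases p4 : P 4
                  · by_cases p9 : P 9
                    · exact h7 p1 p3 p4 p8 p9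
                    · exact g25 p2 p5 p7 p9
                  · exact g3 p4 p5 p7
              · exact g14 p2 p5 p8
          · by_cases p8 : P 8
            · by_cases p9 : P 9
              · by_cases p5 : P 5
                · exact h5 p0 p3 p5 p8 p9
                · by_cases p4 : P 4
                  · exact h7 p1 p3 p4 p8 p9
                  · exact g28 p2 p4 p5 p6
              · exact g16 p2 p6 p9
            · exact g43 p2 p6 p8
        · by_cases p5 : P 5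
          · by_cases p6 : P 6
            · by_cases p9 : P 9
              · by_cases p4 : P 4
                · exact h9 p1 p4 p5 p6 p9
                · by_cases p7 : P 7
                  · by_cases p8 : P 8
                    · exact h11 p5 p6 p7 p8 p9
                    · exact g27 p2 p3 p4 p8
                  · exact g2 p3 p4 p7
              · exact g17 p2 p3 p9
            · exact g18 p2 p3 p6
          · exact g40 p2 p3 p5
      · by_cases p5 : P 5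
        · by_cases p8 : P 8
          · by_cases p9 : P 9
            · by_cases p3 : P 3
              · exact h5 p0 p3 p5 p8 p9
              · by_cases p6 : P 6
                · by_cases p7 : P 7
                  · exact h11 p5 p6 p7 p8 p9
                  · exact g24 p1 p2 p3 p7
                · exact g18 p2 p3 p6
            · exact g44 p1 p2 p9
          · exact g12 p1 p2 p8
        · exact g13 p1 p2 p5
  · by_cases p1 : P 1
    · by_cases p4 : P 4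
      · by_cases p6 : P 6
        · by_cases p7 : P 7
          · by_cases p2 : P 2
            · exact h6 p1 p2 p4 p6 p7
            · by_cases p3 : P 3
              · by_cases p8 : P 8
                · exact h8 p1 p3 p6 p7 p8
                · by_cases p5 : P 5
                  · by_cases p9 : P 9
                    · exact h9 p1 p4 p5 p6 p9
                    · exact g22 p0 p2 p8 p9
                  · exact g14 p2 p5 p8
              · by_cases p5 : P 5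
                · by_cases p9 : P 9
                  · exact h9 p1 p4 p5 p6 p9
                  · exact g17 p2 p3 p9
                · exact g40 p2 p3 p5
          · by_cases p9 : P 9
            · by_cases p5 : P 5
              · exact h9 p1 p4 p5 p6 p9
              · by_cases p3 : P 3
                · by_cases p8 : P 8
                  · exact h7 p1 p3 p4 p8 p9
                  · exact g32 p0 p5 p7 p8
                · exact g0 p3 p5 p7
            · exact g10 p0 p7 p9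
        · by_cases p8 : P 8
          · by_cases p9 : P 9
            · by_cases p3 : P 3
              · exact h7 p1 p3 p4 p8 p9
              · by_cases p2 : P 2
                · by_cases p7 : P 7
                  · exact h10 p2 p4 p7 p8 p9
                  · exact g29 p0 p3 p6 p7
                · exact g18 p2 p3 p6
            · exact g42 p0 p6 p9
          · exact g4 p0 p6 p8
      · by_cases p6 : P 6
        · by_cases p7 : P 7
          · by_cases p8 : P 8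
            · by_cases p3 : P 3
              · exact h8 p1 p3 p6 p7 p8
              · by_cases p5 : P 5
                · by_cases p9 : P 9
                  · exact h11 p5 p6 p7 p8 p9
                  · exact g30 p0 p3 p4 p9
                · exact g1 p3 p4 p5
            · exact g7 p0 p4 p8
          · exact g35 p0 p4 p7
        · exact g6 p0 p4 p6
    · by_cases p7 : P 7
      · by_cases p8 : P 8
        · by_cases p9 : P 9
          · by_cases p2 : P 2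
            · by_cases p4 : P 4
              · exact h10 p2 p4 p7 p8 p9
              · by_cases p5 : P 5
                · by_cases p6 : P 6
                  · exact h11 p5 p6 p7 p8 p9
                  · exact g6 p0 p4 p6
                · exact g33 p0 p1 p4 p5
            · by_cases p5 : P 5
              · by_cases p6 : P 6
                · exact h11 p5 p6 p7 p8 p9
                · exact g21 p0 p1 p2 p6
              · exact g13 p1 p2 p5
          · exact g8 p0 p1 p9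
        · exact g41 p0 p1 p8
      · exact g11 p0 p1 p7

/-- the multiplicities of the ten edges -/
def GD_m (s : ℤ) (a : ZMod 5 → ℕ) (j : ℕ) : ℤ :=
  if j = 0 then a 0 else if j = 1 then a 1 else if j = 2 then a 2 else if j = 3 then a 3
  else if j = 4 then a 4
  else if j = 5 then s + a 0 - a 2 - a 3 else if j = 6 then s + a 1 - a 3 - a 4
  else if j = 7 then s + a 2 - a 4 - a 0 else if j = 8 then s + a 3 - a 0 - a 1
  else s + a 4 - a 1 - a 2

theorem GD_mk (t : ℤ) (a : ZMod 5 → ℕ) (b0 b1 b2 b3 b4 : ℕ)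
    (hb : b0 ≤ 2 ∧ b1 ≤ 2 ∧ b2 ≤ 2 ∧ b3 ≤ 2 ∧ b4 ≤ 2)
    (hb1 : (b2 : ℤ) + b3 ≤ 1 + b0 ∧ (b3 : ℤ) + b4 ≤ 1 + b1 ∧ (b4 : ℤ) + b0 ≤ 1 + b2 ∧
      (b0 : ℤ) + b1 ≤ 1 + b3 ∧ (b1 : ℤ) + b2 ≤ 1 + b4)
    (h0 : b0 ≤ a 0) (h1 : b1 ≤ a 1) (h2 : b2 ≤ a 2) (h3 : b3 ≤ a 3) (h4 : b4 ≤ a 4)
    (k0 : 1 + (b0 : ℤ) - b2 - b3 ≤ t + 1 + a 0 - a 2 - a 3)
    (k1 : 1 + (b1 : ℤ) - b3 - b4 ≤ t + 1 + a 1 - a 3 - a 4)
    (k2 : 1 + (b2 : ℤ) - b4 - b0 ≤ t + 1 + a 2 - a 4 - a 0)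
    (k3 : 1 + (b3 : ℤ) - b0 - b1 ≤ t + 1 + a 3 - a 0 - a 1)
    (k4 : 1 + (b4 : ℤ) - b1 - b2 ≤ t + 1 + a 4 - a 1 - a 2) :
    ∃ b c : ZMod 5 → ℕ, a = b + c ∧ Allowed 1 b ∧ Allowed t c ∧ ∀ i, b i ≤ 2 := by
  refine ⟨![b0, b1, b2, b3, b4], fun i => a i - (![b0, b1, b2, b3, b4] : ZMod 5 → ℕ) i, ?_, ?_, ?_, ?_⟩
  · funext i
    fin_cases i
    · change a 0 = b0 + (a 0 - b0); omega
    · change a 1 = b1 + (a 1 - b1); omega
    · change a 2 = b2 + (a 2 - b2); omega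
    · change a 3 = b3 + (a 3 - b3); omega
    · change a 4 = b4 + (a 4 - b4); omega
  · rw [allowed_iff]
    exact hb1
  · rw [allowed_iff]
    change ((a 2 - b2 : ℕ) : ℤ) + ((a 3 - b3 : ℕ) : ℤ) ≤ t + ((a 0 - b0 : ℕ) : ℤ) ∧
      ((a 3 - b3 : ℕ) : ℤ) + ((a 4 - b4 : ℕ) : ℤ) ≤ t + ((a 1 - b1 : ℕ) : ℤ) ∧
      ((a 4 - b4 : ℕ) : ℤ) + ((a 0 - b0 : ℕ) : ℤ) ≤ t + ((a 2 - b2 : ℕ) : ℤ) ∧
      ((a 0 - b0 : ℕ) : ℤ) + ((a 1 - b1 : ℕ) : ℤ) ≤ t + ((a 3 - b3 : ℕ) : ℤ) ∧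
      ((a 1 - b1 : ℕ) : ℤ) + ((a 2 - b2 : ℕ) : ℤ) ≤ t + ((a 4 - b4 : ℕ) : ℤ)
    omega
  · intro i
    obtain ⟨q0, q1, q2, q3, q4⟩ := hb
    fin_cases i
    · exact q0
    · exact q1
    · exact q2
    · exact q3
    · exact q4

/-- **Task GD.** Petersen's theorem for five vertices. -/
theorem GD (t : ℤ) (ht : 0 ≤ t) (a : ZMod 5 → ℕ) (ha : Allowed (t + 1) a) :
    ∃ b c : ZMod 5 → ℕ, a = b + c ∧ Allowed 1 b ∧ Allowed t c ∧ ∀ i, b i ≤ 2 := by
  rw [allowed_iff] at ha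
  obtain ⟨ha0, ha1, ha2, ha3, ha4⟩ := ha
  by_contra hcon
  have hm : ∀ b0 b1 b2 b3 b4 : ℕ, (b0 ≤ 2 ∧ b1 ≤ 2 ∧ b2 ≤ 2 ∧ b3 ≤ 2 ∧ b4 ≤ 2) →
    ((b2 : ℤ) + b3 ≤ 1 + b0 ∧ (b3 : ℤ) + b4 ≤ 1 + b1 ∧ (b4 : ℤ) + b0 ≤ 1 + b2 ∧
      (b0 : ℤ) + b1 ≤ 1 + b3 ∧ (b1 : ℤ) + b2 ≤ 1 + b4) →
    b0 ≤ a 0 → b1 ≤ a 1 → b2 ≤ a 2 → b3 ≤ a 3 → b4 ≤ a 4 →
    1 + (b0 : ℤ) - b2 - b3 ≤ t + 1 + a 0 - a 2 - a 3 →
    1 + (b1 : ℤ) - b3 - b4 ≤ t + 1 + a 1 - a 3 - a 4 →
    1 + (b2 : ℤ) - b4 - b0 ≤ t + 1 + a 2 - a 4 - a 0 →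
    1 + (b3 : ℤ) - b0 - b1 ≤ t + 1 + a 3 - a 0 - a 1 →
    1 + (b4 : ℤ) - b1 - b2 ≤ t + 1 + a 4 - a 1 - a 2 → False :=
    fun b0 b1 b2 b3 b4 q r h0 h1 h2 h3 h4 k0 k1 k2 k3 k4 =>
      hcon (GD_mk t a b0 b1 b2 b3 b4 q r h0 h1 h2 h3 h4 k0 k1 k2 k3 k4)
  clear hcon
  generalize a 0 = x0 at *
  generalize a 1 = x1 at *
  generalize a 2 = x2 at *
  generalize a 3 = x3 at *
  generalize a 4 = x4 at *
  refine GD_tree (fun j => 1 ≤ (if j = 0 then (x0 : ℤ) else if j = 1 then x1 else if j = 2 then x2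
    else if j = 3 then x3 else if j = 4 then x4
    else if j = 5 then t + 1 + x0 - x2 - x3 else if j = 6 then t + 1 + x1 - x3 - x4
    else if j = 7 then t + 1 + x2 - x4 - x0 else if j = 8 then t + 1 + x3 - x0 - x1
    else t + 1 + x4 - x1 - x2))
    ?_ ?_ ?_ ?_ ?_ ?_ ?_ ?_ ?_ ?_ ?_ ?_
    ?_ ?_ ?_ ?_ ?_ ?_ ?_ ?_ ?_ ?_ ?_ ?_ ?_ ?_ ?_ ?_ ?_ ?_ ?_ ?_ ?_ ?_ ?_ ?_ ?_ ?_ ?_ ?_ ?_ ?_ ?_ ?_ ?_ ?_ ?_ ?_ ?_ ?_ ?_ ?_ ?_ ?_ ?_ ?_ ?_ <;> norm_num only [if_true, if_false] <;> intros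
  · apply hm 1 1 1 1 1 <;> omega
  · apply hm 1 1 0 1 0 <;> omega
  · apply hm 1 0 1 1 0 <;> omega
  · apply hm 1 0 1 0 1 <;> omega
  · apply hm 1 0 1 0 0 <;> omega
  · apply hm 1 0 0 1 0 <;> omega
  · apply hm 0 1 1 0 1 <;> omega
  · apply hm 0 1 0 1 1 <;> omega
  · apply hm 0 1 0 1 0 <;> omega
  · apply hm 0 1 0 0 1 <;> omega
  · apply hm 0 0 1 0 1 <;> omega
  · apply hm 0 0 0 0 0 <;> omega
  · apply hm 0 1 1 0 2 <;> omega
  · apply hm 0 0 1 0 0 <;> omega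
  · apply hm 1 0 0 0 0 <;> omega
  · apply hm 1 1 0 2 0 <;> omega
  · apply hm 0 1 1 0 2 <;> omega
  · apply hm 2 0 1 1 0 <;> omega
  · apply hm 0 0 0 1 0 <;> omega
  · apply hm 0 1 0 0 0 <;> omega
  · apply hm 0 0 1 0 0 <;> omega
  · apply hm 2 0 1 1 0 <;> omega
  · apply hm 0 2 0 1 1 <;> omega
  · apply hm 0 0 0 0 1 <;> omega
  · apply hm 1 0 0 0 0 <;> omega
  · apply hm 0 0 0 1 0 <;> omega
  · apply hm 0 2 0 1 1 <;> omega
  · apply hm 1 0 2 0 1 <;> omega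
  · apply hm 1 1 0 2 0 <;> omega
  · apply hm 0 1 0 0 0 <;> omega
  · apply hm 0 0 0 0 1 <;> omega
  · apply hm 1 0 2 0 1 <;> omega
  · rcases (by omega : 1 ≤ (x4 : ℤ) ∨ (x4 : ℤ) ≤ 0) with hh | hh
    · apply hm 1 0 2 0 1 <;> omega
    · apply hm 2 0 1 1 0 <;> omega
  · rcases (by omega : 1 ≤ (x4 : ℤ) ∨ (x4 : ℤ) ≤ 0) with hh | hh
    · apply hm 0 0 0 0 1 <;> omega
    · apply hm 0 0 0 1 0 <;> omega
  · rcases (by omega : 1 ≤ (x4 : ℤ) ∨ (x4 : ℤ) ≤ 0) with hh | hh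
    · apply hm 0 2 0 1 1 <;> omega
    · apply hm 0 1 0 0 0 <;> omega
  · rcases (by omega : 1 ≤ (x4 : ℤ) ∨ (x4 : ℤ) ≤ 0) with hh | hh
    · apply hm 1 0 2 0 1 <;> omega
    · apply hm 0 0 1 0 0 <;> omega
  · rcases (by omega : 1 ≤ (x4 : ℤ) ∨ (x4 : ℤ) ≤ 0) with hh | hh
    · apply hm 0 0 0 0 1 <;> omega
    · apply hm 1 0 0 0 0 <;> omega
  · rcases (by omega : 1 ≤ (x4 : ℤ) ∨ (x4 : ℤ) ≤ 0) with hh | hh
    · apply hm 0 2 0 1 1 <;> omega
    · apply hm 1 1 0 2 0 <;> omega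
  · rcases (by omega : 1 ≤ t + 1 + x2 - x4 - x0 ∨ t + 1 + x2 - x4 - x0 ≤ 0) with hh | hh
    · apply hm 1 0 2 0 1 <;> omega
    · apply hm 0 1 1 0 2 <;> omega
  · rcases (by omega : 1 ≤ t + 1 + x2 - x4 - x0 ∨ t + 1 + x2 - x4 - x0 ≤ 0) with hh | hh
    · apply hm 0 1 0 0 0 <;> omega
    · apply hm 1 0 0 0 0 <;> omega
  · rcases (by omega : 1 ≤ t + 1 + x2 - x4 - x0 ∨ t + 1 + x2 - x4 - x0 ≤ 0) with hh | hh
    · apply hm 0 0 0 1 0 <;> omega
    · apply hm 1 1 0 2 0 <;> omega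
  · rcases (by omega : 1 ≤ t + 1 + x0 - x2 - x3 ∨ t + 1 + x0 - x2 - x3 ≤ 0) with hh | hh
    · apply hm 0 0 0 0 1 <;> omega
    · apply hm 0 1 1 0 2 <;> omega
  · rcases (by omega : 1 ≤ t + 1 + x0 - x2 - x3 ∨ t + 1 + x0 - x2 - x3 ≤ 0) with hh | hh
    · apply hm 0 1 0 0 0 <;> omega
    · apply hm 0 0 1 0 0 <;> omega
  · rcases (by omega : 1 ≤ t + 1 + x0 - x2 - x3 ∨ t + 1 + x0 - x2 - x3 ≤ 0) with hh | hh
    · apply hm 2 0 1 1 0 <;> omega
    · apply hm 1 1 0 2 0 <;> omega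
  · rcases (by omega : 1 ≤ (x3 : ℤ) ∨ (x3 : ℤ) ≤ 0) with hh | hh
    · apply hm 0 2 0 1 1 <;> omega
    · apply hm 0 1 1 0 2 <;> omega
  · rcases (by omega : 1 ≤ (x3 : ℤ) ∨ (x3 : ℤ) ≤ 0) with hh | hh
    · apply hm 0 0 0 1 0 <;> omega
    · apply hm 0 0 1 0 0 <;> omega
  · rcases (by omega : 1 ≤ (x3 : ℤ) ∨ (x3 : ℤ) ≤ 0) with hh | hh
    · apply hm 2 0 1 1 0 <;> omega
    · apply hm 1 0 0 0 0 <;> omega
  · omega
  · omega
  · omega
  · omega
  · omega
  · omega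
  · omega
  · omega
  · omega
  · omega

end Pool.Agent.H54R2.Ul
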