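import Pool.Agent.H54R2.Ul.Defs3

namespace Pool.Agent.H54R2.Ul

open MvPolynomial

noncomputable section

section ring

variable (k : Type) [Field k]

/-- the polynomial `T^7 - (γ^7 - α^7)` -/
def GE1b_f : Polynomial (MvPolynomial (Fin 2) k) :=
  Polynomial.X ^ 7 - Polynomial.C (X 0 ^ 7 - X 1 ^ 7)

theorem GE1b_f_monic : (GE1b_f k).Monic := by
  unfold GE1b_f
  exact Polynomial.monic_X_pow_sub_C _ (by norm_num)

theorem GE1b_f_deg : (GE1b_f k).natDegree = 7 := by
  unfold GE1b_f
  exact Polynomial.natDegree_X_pow_sub_C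

/-- diagonal -/
def GE1b_phi : MvPolynomial (Fin 2) k →ₐ[k] Polynomial k := aeval ![Polynomial.X, Polynomial.X]

theorem GE1b_ker (x : MvPolynomial (Fin 2) k) (hx : x ∈ (RingHom.ker (GE1b_phi k)) ^ 2) :
    GE1b_phi k (pderiv 0 x) = 0 := by
  rw [sq] at hx
  refine Submodule.mul_induction_on hx ?_ ?_
  · intro a ha b hb
    rw [Derivation.leibniz, smul_eq_mul, smul_eq_mul, map_add, map_mul, map_mul,
      (RingHom.mem_ker).1 ha, (RingHom.mem_ker).1 hb, zero_mul, zero_mul, add_zero]
  · intro a b ha hb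
    rw [map_add, map_add, ha, hb, add_zero]

theorem GE1b_irr (h7 : (7 : k) ≠ 0) : Irreducible (GE1b_f k) := by
  have hP : (RingHom.ker (GE1b_phi k)).IsPrime := RingHom.ker_isPrime _
  have hmon := GE1b_f_monic k
  have hdeg : (GE1b_f k).degree = 7 := by
    rw [Polynomial.degree_eq_natDegree hmon.ne_zero, GE1b_f_deg]; rfl
  refine Polynomial.irreducible_of_eisenstein_criterion hP ?_ ?_ ?_ ?_ hmon.isPrimitive
  · rw [hmon.leadingCoeff]
    exact fun h => hP.ne_top ((Ideal.eq_top_iff_one _).2 h)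
  · intro n hn
    rw [hdeg] at hn
    have hn' : n < 7 := by exact_mod_cast hn
    unfold GE1b_f
    rw [Polynomial.coeff_sub, Polynomial.coeff_X_pow, if_neg (by omega), zero_sub,
      Polynomial.coeff_C]
    split_ifs
    · rw [neg_mem_iff, RingHom.mem_ker]
      simp [GE1b_phi]
    · simp
  · rw [hdeg]; norm_num
  · intro h
    have h1 := GE1b_ker k _ h
    unfold GE1b_f at h1
    rw [Polynomial.coeff_sub, Polynomial.coeff_X_pow, if_neg (by omega), zero_sub,
      Polynomial.coeff_C_zero] at h1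
    simp only [map_neg, map_sub, Derivation.leibniz_pow, pderiv_X_self] at h1
    have h2 : pderiv (0 : Fin 2) (X 1 : MvPolynomial (Fin 2) k) = 0 := by
      apply pderiv_X_of_ne; decide
    rw [h2] at h1
    simp only [GE1b_phi, smul_eq_mul, mul_one, map_nsmul, map_pow, aeval_X] at h1
    simp only [Matrix.cons_val_zero] at h1
    have h3 := congrArg (fun q => Polynomial.coeff q 6) h1
    simp only [Polynomial.coeff_neg, Polynomial.coeff_zero] at h3
    norm_num [Polynomial.coeff_X_pow] at h3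
    exact h7 h3

theorem GE1b_root7 {P : Type} [CommRing P] (c : P) (g : Polynomial P)
    (hg : g = Polynomial.X ^ 7 - Polynomial.C c) :
    (AdjoinRoot.root g) ^ 7 = AdjoinRoot.of g c := by
  have h := AdjoinRoot.eval₂_root g
  have h2 : Polynomial.eval₂ (AdjoinRoot.of g) (AdjoinRoot.root g)
      (Polynomial.X ^ 7 - Polynomial.C c) = 0 := by rw [← hg]; exact h
  rw [Polynomial.eval₂_sub, Polynomial.eval₂_pow, Polynomial.eval₂_X, Polynomial.eval₂_C] at h2
  exact sub_eq_zero.1 h2

theorem GE1b_li {P : Type} [CommRing P] [Nontrivial P] (g : Polynomial P) (hg : g.Monic)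
    (hd : g.natDegree = 7) :
    LinearIndependent P (fun i : Fin 7 => (AdjoinRoot.root g) ^ (i : ℕ)) := by
  have hdim : (AdjoinRoot.powerBasis' hg).dim = 7 := by
    rw [AdjoinRoot.powerBasis'_dim, hd]
  have h := (AdjoinRoot.powerBasis' hg).basis.linearIndependent
  have h2 := h.comp (finCongr hdim.symm) (finCongr hdim.symm).injective
  convert h2 using 1
  funext i
  simp

theorem GE1b_theta {D : Type} [CommRing D] [Algebra k D] (x0 x1 r : D)
    (h : x0 ^ 7 = x1 ^ 7 + r ^ 7) :
    Polynomial.eval₂ ((aeval ![Polynomial.C x0 * Polynomial.X, Polynomial.C x1 * Polynomial.X] :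
      MvPolynomial (Fin 2) k →ₐ[k] Polynomial D) : MvPolynomial (Fin 2) k →+* Polynomial D)
      (Polynomial.C r * Polynomial.X) (GE1b_f k) = 0 := by
  unfold GE1b_f
  rw [Polynomial.eval₂_sub, Polynomial.eval₂_pow, Polynomial.eval₂_X, Polynomial.eval₂_C]
  simp only [RingHom.coe_coe, map_sub, map_pow, aeval_X]
  simp only [Matrix.cons_val_zero, Matrix.cons_val_one]
  have h2 : (Polynomial.C x0) ^ 7 = (Polynomial.C x1) ^ 7 + (Polynomial.C r) ^ 7 := by
    rw [← map_pow, ← map_pow, ← map_pow, h, map_add]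
  simp only [mul_pow]
  rw [h2]
  ring

theorem GE1b_ring (h7 : (7 : k) ≠ 0) :
    ∃ (D : Type) (_ : CommRing D) (_ : IsDomain D) (_ : Algebra k D) (α β γ : D),
      γ ^ 7 = α ^ 7 + β ^ 7 ∧
      LinearIndependent k (fun x : {x : ℕ × ℕ × ℕ // x.1 < 7} =>
        β ^ x.1.1 * γ ^ x.1.2.1 * α ^ x.1.2.2) ∧
      Algebra.adjoin k {α, β, γ} = ⊤ ∧ AlgebraicIndependent k ![γ, α] ∧
      ∃ Θ : D →ₐ[k] Polynomial D, Θ α = Polynomial.C α * Polynomial.X ∧
        Θ β = Polynomial.C β * Polynomial.X ∧ Θ γ = Polynomial.C γ * Polynomial.X := by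
  have hmon := GE1b_f_monic k
  have hprime : Prime (GE1b_f k) := (GE1b_irr k h7).prime
  have hdom : IsDomain (AdjoinRoot (GE1b_f k)) := AdjoinRoot.isDomain_of_prime hprime
  have hrel : (AdjoinRoot.of (GE1b_f k) (X 0)) ^ 7 =
      (AdjoinRoot.of (GE1b_f k) (X 1)) ^ 7 + (AdjoinRoot.root (GE1b_f k)) ^ 7 := by
    rw [GE1b_root7 _ (GE1b_f k) rfl, map_sub, map_pow, map_pow]
    ring
  have hli1 := GE1b_li (GE1b_f k) hmon (GE1b_f_deg k)
  have hli0 : LinearIndependent k (fun x : ℕ × ℕ =>
      (X 0 ^ x.1 * X 1 ^ x.2 : MvPolynomial (Fin 2) k)) := by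
    have h := (MvPolynomial.basisMonomials (Fin 2) k).linearIndependent
    have hinj : Function.Injective (fun x : ℕ × ℕ =>
        (Finsupp.single (0 : Fin 2) x.1 + Finsupp.single 1 x.2 : Fin 2 →₀ ℕ)) := by
      intro x y hxy
      have h0 := DFunLike.congr_fun hxy 0
      have h1 := DFunLike.congr_fun hxy 1
      simp at h0 h1
      exact Prod.ext h0 h1
    have e : (fun x : ℕ × ℕ => (X 0 ^ x.1 * X 1 ^ x.2 : MvPolynomial (Fin 2) k)) =
        (MvPolynomial.basisMonomials (Fin 2) k) ∘ (fun x : ℕ × ℕ =>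
        (Finsupp.single (0 : Fin 2) x.1 + Finsupp.single 1 x.2 : Fin 2 →₀ ℕ)) := by
      funext x
      simp only [Function.comp, coe_basisMonomials]
      rw [← mul_one (1 : k), ← MvPolynomial.monomial_mul, X_pow_eq_monomial, X_pow_eq_monomial]
    rw [e]
    exact h.comp _ hinj
  refine ⟨AdjoinRoot (GE1b_f k), inferInstance, hdom, inferInstance,
    AdjoinRoot.of (GE1b_f k) (X 1), AdjoinRoot.root (GE1b_f k), AdjoinRoot.of (GE1b_f k) (X 0),
    hrel, ?_, ?_, ?_, ?_⟩
  · have h := linearIndependent_smul hli0 hli1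
    have hinj : Function.Injective (fun x : {x : ℕ × ℕ × ℕ // x.1 < 7} =>
        (((x.1.2.1, x.1.2.2), ⟨x.1.1, x.2⟩) : (ℕ × ℕ) × Fin 7)) := by
      rintro ⟨⟨a, b, c⟩, h1⟩ ⟨⟨a', b', c'⟩, h2⟩ h
      simp only [Prod.mk.injEq, Fin.mk.injEq] at h
      obtain ⟨⟨rfl, rfl⟩, rfl⟩ := h
      rfl
    have h2 := h.comp _ hinj
    convert h2 using 1
    funext x
    simp only [Function.comp, Algebra.smul_def, AdjoinRoot.algebraMap_eq, map_mul, map_pow]
    ring
  · rw [eq_top_iff]
    intro x _
    have hC : ∀ a : MvPolynomial (Fin 2) k, AdjoinRoot.of (GE1b_f k) a ∈ Algebra.adjoin k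
        {AdjoinRoot.of (GE1b_f k) (X 1), AdjoinRoot.root (GE1b_f k),
          AdjoinRoot.of (GE1b_f k) (X 0)} := by
      intro a
      induction a using MvPolynomial.induction_on with
      | C r =>
        have : AdjoinRoot.of (GE1b_f k) (C r) = algebraMap k _ r := rfl
        rw [this]
        exact Subalgebra.algebraMap_mem _ _
      | add p q hp hq => rw [map_add]; exact add_mem hp hq
      | mul_X p i hp =>
        rw [map_mul]
        refine mul_mem hp (Algebra.subset_adjoin ?_)
        fin_cases i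
        · simp
        · simp
    induction x using AdjoinRoot.induction_on with
    | ih p =>
      induction p using Polynomial.induction_on with
      | C a => rw [AdjoinRoot.mk_C]; exact hC a
      | add p q hp hq => rw [map_add]; exact add_mem (hp trivial) (hq trivial)
      | monomial n a hp =>
        rw [map_mul, AdjoinRoot.mk_C, map_pow, AdjoinRoot.mk_X]
        exact mul_mem (hC a) (pow_mem (Algebra.subset_adjoin (by simp)) _)
  · rw [algebraicIndependent_iff_injective_aeval]
    have e : (aeval ![AdjoinRoot.of (GE1b_f k) (X 0), AdjoinRoot.of (GE1b_f k) (X 1)] :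
        MvPolynomial (Fin 2) k →ₐ[k] AdjoinRoot (GE1b_f k)) =
        IsScalarTower.toAlgHom k (MvPolynomial (Fin 2) k) (AdjoinRoot (GE1b_f k)) := by
      apply MvPolynomial.algHom_ext
      intro i
      rw [aeval_X]
      fin_cases i
      · rfl
      · rfl
    rw [e, injective_iff_map_eq_zero]
    intro r hr
    have h := linearIndependent_iff'.1 hli1 {0} (fun _ => r) (by
      simp only [Finset.sum_singleton, Fin.val_zero, pow_zero]
      rw [Algebra.smul_def, mul_one]
      exact hr) 0 (by simp)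
    exact h
  · refine ⟨AdjoinRoot.liftAlgHom (GE1b_f k) (aeval ![Polynomial.C (AdjoinRoot.of (GE1b_f k) (X 0)) *
      Polynomial.X, Polynomial.C (AdjoinRoot.of (GE1b_f k) (X 1)) * Polynomial.X])
      (Polynomial.C (AdjoinRoot.root (GE1b_f k)) * Polynomial.X) ?_, ?_, ?_, ?_⟩
    · exact GE1b_theta k _ _ _ hrel
    · rw [AdjoinRoot.liftAlgHom_of, aeval_X]; rfl
    · rw [AdjoinRoot.liftAlgHom_root]
    · rw [AdjoinRoot.liftAlgHom_of, aeval_X]; rfl

end ring

/-- the grading -/
def GE1b_gr (k : Type) [Field k] {D : Type} [CommRing D] [Algebra k D] (α β γ : D) (n : ℤ) :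
    Submodule k D :=
  Submodule.span k {x | ∃ u v w : ℕ, (u + v + w : ℤ) = n ∧ x = β ^ u * γ ^ v * α ^ w}

theorem GE1b_indep (k : Type) [Field k] {D : Type} [CommRing D] [Algebra k D] (α β γ : D)
    (Θ : D →ₐ[k] Polynomial D) (h1 : Θ α = Polynomial.C α * Polynomial.X)
    (h2 : Θ β = Polynomial.C β * Polynomial.X) (h3 : Θ γ = Polynomial.C γ * Polynomial.X) :
    iSupIndep (GE1b_gr k α β γ) := by
  have key : ∀ (n : ℤ) (x : D), x ∈ GE1b_gr k α β γ n →
      (n < 0 → x = 0) ∧ Θ x = Polynomial.C x * Polynomial.X ^ n.toNat := by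
    intro n x hx
    induction hx using Submodule.span_induction with
    | mem x hx =>
      obtain ⟨u, v, w, huv, rfl⟩ := hx
      refine ⟨fun h => by omega, ?_⟩
      have : n.toNat = u + v + w := by omega
      rw [this, map_mul, map_mul, map_pow, map_pow, map_pow, h1, h2, h3]
      simp only [map_mul, map_pow, mul_pow, pow_add]
      ring
    | zero => simp
    | add x y _ _ hx hy =>
      refine ⟨fun h => by rw [hx.1 h, hy.1 h, add_zero], ?_⟩
      rw [map_add, hx.2, hy.2, map_add]; ring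
    | smul a x _ hx =>
      refine ⟨fun h => by rw [hx.1 h, smul_zero], ?_⟩
      rw [map_smul, hx.2, ← Polynomial.smul_C, smul_mul_assoc]
  rw [iSupIndep_def]
  intro n
  rw [Submodule.disjoint_def]
  intro x hx hx2
  by_cases hn : n < 0
  · exact (key n x hx).1 hn
  · let L : D →ₗ[k] D := ((Polynomial.lcoeff D n.toNat).restrictScalars k).comp Θ.toLinearMap
    have hL : ∀ y, L y = (Θ y).coeff n.toNat := fun y => rfl
    have h4 : L x = x := by
      rw [hL, (key n x hx).2, Polynomial.coeff_C_mul, Polynomial.coeff_X_pow, if_pos rfl, mul_one]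
    have h5 : (⨆ (j : ℤ) (_ : j ≠ n), GE1b_gr k α β γ j) ≤ LinearMap.ker L := by
      refine iSup₂_le fun j hj y hy => ?_
      rw [LinearMap.mem_ker, hL, (key j y hy).2]
      by_cases hj0 : j < 0
      · rw [(key j y hy).1 hj0]; simp
      · rw [Polynomial.coeff_C_mul, Polynomial.coeff_X_pow, if_neg (by omega), mul_zero]
    rw [← h4]
    exact LinearMap.mem_ker.1 (h5 hx2)

theorem GE1b_monic {B : Type} [CommRing B] [Nontrivial B] (q : Polynomial B)
    (hq : q.natDegree ≤ 6) : (Polynomial.X ^ 7 - q).Monic := by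
  have h : q.degree ≤ ((6 : ℕ) : WithBot ℕ) := Polynomial.natDegree_le_iff_degree_le.1 hq
  exact Polynomial.monic_X_pow_sub (n := 7) (lt_of_le_of_lt h (by norm_cast))

theorem GE1b_int (k : Type) [Field k] {B D : Type} [CommRing B] [Nontrivial B] [CommRing D]
    [Algebra k D] [Algebra k B] [Algebra B D] [IsScalarTower k B D]
    (α β γ : D) (hrel : γ ^ 7 = α ^ 7 + β ^ 7) (hgen : Algebra.adjoin k {α, β, γ} = ⊤)
    (s l m : k) (hs : s ≠ 0) (hml : m ^ 7 + l ^ 7 ≠ 0) (y1 y2 : B)
    (h1 : algebraMap B D y1 = s • β) (h2 : algebraMap B D y2 = m • γ + l • α) :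
    Algebra.IsIntegral B D := by
  have hβ' : β = algebraMap B D (s⁻¹ • y1) := by
    rw [Algebra.algebraMap_eq_smul_one, smul_assoc, ← Algebra.algebraMap_eq_smul_one, h1,
      smul_smul, inv_mul_cancel₀ hs, one_smul]
  have hβ : IsIntegral B β := by rw [hβ']; exact isIntegral_algebraMap
  have hα : IsIntegral B α := by
    by_cases hm : m = 0
    · have hl : l ≠ 0 := by
        rintro rfl
        apply hml
        rw [hm]; simp
      have : α = algebraMap B D (l⁻¹ • y2) := by
        rw [Algebra.algebraMap_eq_smul_one, smul_assoc, ← Algebra.algebraMap_eq_smul_one, h2, hm,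
          zero_smul, zero_add, smul_smul, inv_mul_cancel₀ hl, one_smul]
      rw [this]; exact isIntegral_algebraMap
    · set L : B := algebraMap k B l with hL
      set c : B := algebraMap k B ((m ^ 7 + l ^ 7)⁻¹) with hc
      set e : B := algebraMap k B (m ^ 7) * (s⁻¹ • y1) ^ 7 with he
      let q : Polynomial B := Polynomial.C c * (Polynomial.C (y2 ^ 7 - e) -
        Polynomial.C (7 * y2 ^ 6 * L) * Polynomial.X +
        Polynomial.C (21 * y2 ^ 5 * L ^ 2) * Polynomial.X ^ 2 -
        Polynomial.C (35 * y2 ^ 4 * L ^ 3) * Polynomial.X ^ 3 +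
        Polynomial.C (35 * y2 ^ 3 * L ^ 4) * Polynomial.X ^ 4 -
        Polynomial.C (21 * y2 ^ 2 * L ^ 5) * Polynomial.X ^ 5 +
        Polynomial.C (7 * y2 * L ^ 6) * Polynomial.X ^ 6)
      have hq : q.natDegree ≤ 6 := by
        refine (Polynomial.natDegree_C_mul_le _ _).trans ?_
        compute_degree
      refine ⟨Polynomial.X ^ 7 - q, GE1b_monic q hq, ?_⟩
      have e1 : algebraMap B D L = algebraMap k D l := by
        rw [hL, ← IsScalarTower.algebraMap_apply]
      have e2 : algebraMap B D c = algebraMap k D ((m ^ 7 + l ^ 7)⁻¹) := by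
        rw [hc, ← IsScalarTower.algebraMap_apply]
      have e3 : algebraMap B D e = algebraMap k D (m ^ 7) * β ^ 7 := by
        rw [he, map_mul, map_pow (algebraMap B D) (s⁻¹ • y1) 7, ← hβ',
          ← IsScalarTower.algebraMap_apply]
      have e4 : algebraMap k D ((m ^ 7 + l ^ 7)⁻¹) *
          ((algebraMap k D m) ^ 7 + (algebraMap k D l) ^ 7) = 1 := by
        rw [← map_pow, ← map_pow, ← map_add, ← map_mul, inv_mul_cancel₀ hml, map_one]
      rw [Polynomial.eval₂_sub, Polynomial.eval₂_pow, Polynomial.eval₂_X]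
      simp only [q, Polynomial.eval₂_add, Polynomial.eval₂_sub, Polynomial.eval₂_mul,
        Polynomial.eval₂_C, Polynomial.eval₂_pow, Polynomial.eval₂_X, map_mul, map_pow, map_sub,
        map_ofNat, e1, e2, e3, h2, Algebra.smul_def, Polynomial.eval₂_ofNat]
      set M := algebraMap k D m
      set L' := algebraMap k D l
      set c' := algebraMap k D ((m ^ 7 + l ^ 7)⁻¹)
      linear_combination (-(α ^ 7)) * e4 - c' * M ^ 7 * hrel
  have hγ : IsIntegral B γ := by
    refine IsIntegral.of_pow (n := 7) (by norm_num) ?_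
    rw [hrel]
    exact (hα.pow 7).add (hβ.pow 7)
  constructor
  intro x
  have hle : Algebra.adjoin k {α, β, γ} ≤ (integralClosure B D).restrictScalars k := by
    refine Algebra.adjoin_le ?_
    rintro y (rfl | rfl | rfl)
    · exact hα
    · exact hβ
    · exact hγ
  rw [hgen] at hle
  exact hle (Algebra.mem_top : x ∈ (⊤ : Subalgebra k D))

theorem GE1b_fin (k : Type) [Field k] {D : Type} [CommRing D] [IsDomain D] [Algebra k D]
    (α β γ : D) (hrel : γ ^ 7 = α ^ 7 + β ^ 7) (hgen : Algebra.adjoin k {α, β, γ} = ⊤)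
    (hind : AlgebraicIndependent k ![γ, α]) (s l m : k) (hs : s ≠ 0) (hml : m ^ 7 + l ^ 7 ≠ 0) :
    AlgebraicIndependent k ![s • β, m • γ + l • α] ∧
    (MvPolynomial.aeval ![s • β, m • γ + l • α] :
      MvPolynomial (Fin 2) k →ₐ[k] D).toRingHom.Finite := by
  constructor
  · have hint : Algebra.IsIntegral (Algebra.adjoin k (Set.range ![s • β, m • γ + l • α])) D :=
      GE1b_int k α β γ hrel hgen s l m hs hml
        ⟨s • β, Algebra.subset_adjoin ⟨0, rfl⟩⟩ ⟨m • γ + l • α, Algebra.subset_adjoin ⟨1, rfl⟩⟩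
        rfl rfl
    have halg : Algebra.IsAlgebraic (Algebra.adjoin k (Set.range ![s • β, m • γ + l • α])) D :=
      Algebra.IsIntegral.isAlgebraic
    exact (Algebra.IsAlgebraic.isTranscendenceBasis_of_le_trdeg_of_finite k
      ![s • β, m • γ + l • α] hind.cardinalMk_le_trdeg).1
  · let _ := (MvPolynomial.aeval ![s • β, m • γ + l • α] :
      MvPolynomial (Fin 2) k →ₐ[k] D).toRingHom.toAlgebra
    have : IsScalarTower k (MvPolynomial (Fin 2) k) D := IsScalarTower.of_algebraMap_eq fun x =>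
      ((MvPolynomial.aeval ![s • β, m • γ + l • α] :
      MvPolynomial (Fin 2) k →ₐ[k] D).commutes x).symm
    have hint : Algebra.IsIntegral (MvPolynomial (Fin 2) k) D :=
      GE1b_int k α β γ hrel hgen s l m hs hml (X 0) (X 1)
        (by
          change (MvPolynomial.aeval ![s • β, m • γ + l • α] :
            MvPolynomial (Fin 2) k →ₐ[k] D) (X 0) = _
          rw [aeval_X]; rfl)
        (by
          change (MvPolynomial.aeval ![s • β, m • γ + l • α] :
            MvPolynomial (Fin 2) k →ₐ[k] D) (X 1) = _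
          rw [aeval_X]; rfl)
    have hft : Algebra.FiniteType k D := by
      constructor
      rw [← hgen]
      exact Subalgebra.fg_def.2 ⟨_, by simp, rfl⟩
    have hft2 : Algebra.FiniteType (MvPolynomial (Fin 2) k) D :=
      Algebra.FiniteType.of_restrictScalars_finiteType k _ _
    exact Algebra.IsIntegral.finite

/-- **Task GE1b.** The coordinate ring of the Fermat curve. -/
theorem GE1b (k : Type) [Field k] [IsAlgClosed k] (h7 : (7 : k) ≠ 0) :
    ∃ (D : Type) (_ : CommRing D) (_ : IsDomain D) (_ : Algebra k D) (α β γ : D)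
      (gr : ℤ → Submodule k D),
      γ ^ 7 = α ^ 7 + β ^ 7 ∧
      LinearIndependent k (fun x : {x : ℕ × ℕ × ℕ // x.1 < 7} =>
        β ^ x.1.1 * γ ^ x.1.2.1 * α ^ x.1.2.2) ∧
      iSupIndep gr ∧ (∀ u v w : ℕ, β ^ u * γ ^ v * α ^ w ∈ gr (u + v + w)) ∧
      ∀ s l m : k, s ≠ 0 → m ^ 7 + l ^ 7 ≠ 0 →
        AlgebraicIndependent k ![s • β, m • γ + l • α] ∧
        (MvPolynomial.aeval ![s • β, m • γ + l • α] :
          MvPolynomial (Fin 2) k →ₐ[k] D).toRingHom.Finite := by
  obtain ⟨D, i1, i2, i3, α, β, γ, hrel, hli, hgen, hind, Θ, h1, h2, h3⟩ := GE1b_ring k h7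
  refine ⟨D, i1, i2, i3, α, β, γ, GE1b_gr k α β γ, hrel, hli,
    GE1b_indep k α β γ Θ h1 h2 h3, ?_, ?_⟩
  · intro u v w
    exact Submodule.subset_span ⟨u, v, w, rfl, rfl⟩
  · intro s l m hs hml
    exact GE1b_fin k α β γ hrel hgen hind s l m hs hml

end

end Pool.Agent.H54R2.Ul
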