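import Pool.Agent.H54R2.Ul.Defs3

namespace Pool.Agent.H54R2.Ul

open MvPolynomial

noncomputable section

variable {k K : Type} [Field k] [Field K] [Algebra k K]

theorem GE2_mono (G : Fil k K) {s t : ℤ} (h : s ≤ t) : G.R s ≤ G.R t :=
  monotone_int_of_le_succ G.mono h

theorem GE2_pow (G : Fil k K) {x : K} {t : ℤ} (hx : x ∈ G.R t) (n : ℕ) :
    x ^ n ∈ G.R (n * t) := by
  induction n with
  | zero => simpa using G.one_mem
  | succ n ih =>
    rw [pow_succ]
    have h := G.mul_mem ih hx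
    have e : (n : ℤ) * t + t = ((n + 1 : ℕ) : ℤ) * t := by push_cast; ring
    rwa [e] at h

theorem GE2_YY (G : Fil k K) (a b : ℕ) : G.Y1 ^ a * G.Y2 ^ b ∈ G.R ((a + b : ℕ) : ℤ) := by
  have h := G.mul_mem (G.pow_mem G.Y1_mem a) (G.pow_mem G.Y2_mem b)
  push_cast
  exact h

theorem GE2_AA_le (G : Fil k K) (s : ℤ) : AA k G.Y1 G.Y2 s ≤ G.R s := by
  unfold AA
  rw [Submodule.span_le]
  rintro x ⟨i, j, hij, rfl⟩
  exact GE2_mono G (by push_cast; exact hij) (GE2_YY G i j)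

open Classical in
/-- total version of `ρ` -/
def GE2_r {G : Fil k K} (S : Bdry G) (i : S.ι) (t : ℤ) (x : K) : S.D :=
  letI := S.ring; letI := S.alg
  if h : x ∈ G.R t then S.ρ i t ⟨x, h⟩ else 0

section

variable {G : Fil k K} (S : Bdry G) (i : S.ι)

theorem GE2_r_of_mem {t : ℤ} {x : K} (h : x ∈ G.R t) :
    letI := S.ring; letI := S.alg
    GE2_r S i t x = S.ρ i t ⟨x, h⟩ := by
  unfold GE2_r
  exact dif_pos h

theorem GE2_r_mul {s t : ℤ} {x y : K} (hx : x ∈ G.R s) (hy : y ∈ G.R t) :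
    letI := S.ring
    GE2_r S i (s + t) (x * y) = GE2_r S i s x * GE2_r S i t y := by
  letI := S.ring; letI := S.alg
  rw [GE2_r_of_mem S i hx, GE2_r_of_mem S i hy, GE2_r_of_mem S i (G.mul_mem hx hy)]
  exact S.ρ_mul i s t ⟨x, hx⟩ ⟨y, hy⟩ ⟨x * y, G.mul_mem hx hy⟩ rfl

theorem GE2_r_add {t : ℤ} {x y : K} (hx : x ∈ G.R t) (hy : y ∈ G.R t) :
    letI := S.ring
    GE2_r S i t (x + y) = GE2_r S i t x + GE2_r S i t y := by
  letI := S.ring; letI := S.alg
  rw [GE2_r_of_mem S i hx, GE2_r_of_mem S i hy, GE2_r_of_mem S i (Submodule.add_mem _ hx hy)]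
  exact (S.ρ i t).map_add ⟨x, hx⟩ ⟨y, hy⟩

theorem GE2_r_smul {t : ℤ} {x : K} (c : k) (hx : x ∈ G.R t) :
    letI := S.ring; letI := S.alg
    GE2_r S i t (c • x) = c • GE2_r S i t x := by
  letI := S.ring; letI := S.alg
  rw [GE2_r_of_mem S i hx, GE2_r_of_mem S i (Submodule.smul_mem _ c hx)]
  exact (S.ρ i t).map_smul c ⟨x, hx⟩

theorem GE2_r_zero (t : ℤ) :
    letI := S.ring
    GE2_r S i t 0 = 0 := by
  letI := S.ring; letI := S.alg
  rw [GE2_r_of_mem S i (Submodule.zero_mem _)]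
  exact (S.ρ i t).map_zero

theorem GE2_r_one :
    letI := S.ring
    GE2_r S i 0 1 = 1 := by
  letI := S.ring; letI := S.alg
  rw [GE2_r_of_mem S i G.one_mem]
  exact S.ρ_one i ⟨1, G.one_mem⟩ rfl

theorem GE2_r_sum {ι : Type} (s : Finset ι) (f : ι → K) (t : ℤ) (hf : ∀ j ∈ s, f j ∈ G.R t) :
    letI := S.ring
    GE2_r S i t (∑ j ∈ s, f j) = ∑ j ∈ s, GE2_r S i t (f j) := by
  letI := S.ring; letI := S.alg
  classical
  induction s using Finset.induction_on with
  | empty => simpa using GE2_r_zero S i t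
  | insert a s ha ih =>
    rw [Finset.sum_insert ha, Finset.sum_insert ha,
      GE2_r_add S i (hf a (Finset.mem_insert_self _ _))
        (Submodule.sum_mem _ fun j hj => hf j (Finset.mem_insert_of_mem hj)),
      ih fun j hj => hf j (Finset.mem_insert_of_mem hj)]

theorem GE2_r_ker {t : ℤ} {x : K} (hx : x ∈ G.R t) :
    letI := S.ring
    (∀ i, GE2_r S i t x = 0) ↔ x ∈ G.R (t - 1) := by
  letI := S.ring; letI := S.alg
  rw [← S.ρ_ker t ⟨x, hx⟩]
  exact forall_congr' fun j => by rw [GE2_r_of_mem S j hx]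

theorem GE2_r_pow {t : ℤ} {x : K} (hx : x ∈ G.R t) (n : ℕ) :
    letI := S.ring
    GE2_r S i (n * t) (x ^ n) = GE2_r S i t x ^ n := by
  letI := S.ring; letI := S.alg
  induction n with
  | zero => simpa using GE2_r_one S i
  | succ n ih =>
    have e : ((n + 1 : ℕ) : ℤ) * t = n * t + t := by push_cast; ring
    rw [pow_succ, pow_succ, e, GE2_r_mul S i (GE2_pow G hx n) hx, ih]

theorem GE2_r_YY (a b : ℕ) :
    letI := S.ring
    GE2_r S i ((a + b : ℕ) : ℤ) (G.Y1 ^ a * G.Y2 ^ b)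
      = GE2_r S i 1 G.Y1 ^ a * GE2_r S i 1 G.Y2 ^ b := by
  letI := S.ring; letI := S.alg
  have h1 := GE2_r_pow S i G.Y1_mem a
  have h2 := GE2_r_pow S i G.Y2_mem b
  rw [mul_one] at h1 h2
  rw [← h1, ← h2, ← GE2_r_mul S i (G.pow_mem G.Y1_mem a) (G.pow_mem G.Y2_mem b)]
  push_cast
  rfl

end

theorem GE2_hom_mem (G : Fil k K) (n : ℕ) (p : MvPolynomial (Fin 2) k)
    (hp : p.IsHomogeneous n) : ∀ m ∈ p.support, G.Y1 ^ (m 0) * G.Y2 ^ (m 1) ∈ G.R (n : ℤ) := by
  intro m hm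
  have h := hp (mem_support_iff.1 hm)
  have h2 : m 0 + m 1 = n := by
    rw [← h, Finsupp.weight_apply, Finsupp.sum_fintype]
    · simp [Fin.sum_univ_two]
    · simp
  have := GE2_YY G (m 0) (m 1)
  rwa [h2] at this

theorem GE2_aeval (Y1 Y2 : K) (p : MvPolynomial (Fin 2) k) :
    aeval ![Y1, Y2] p = ∑ m ∈ p.support, coeff m p • (Y1 ^ (m 0) * Y2 ^ (m 1)) := by
  rw [aeval_def, eval₂_eq']
  refine Finset.sum_congr rfl fun m _ => ?_
  rw [Algebra.smul_def, Fin.prod_univ_two]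
  rfl

theorem GE2_top (Y1 Y2 : K) (n : ℕ) (g : K) (hg : g ∈ AA k Y1 Y2 (n : ℤ)) :
    ∃ p : MvPolynomial (Fin 2) k, p.IsHomogeneous n ∧
      g - aeval ![Y1, Y2] p ∈ AA k Y1 Y2 ((n : ℤ) - 1) := by
  unfold AA at hg
  induction hg using Submodule.span_induction with
  | mem x hx =>
    obtain ⟨a, b, hab, rfl⟩ := hx
    by_cases h : a + b = n
    · refine ⟨X 0 ^ a * X 1 ^ b, ?_, ?_⟩
      · rw [← h]
        exact (isHomogeneous_X_pow _ _).mul (isHomogeneous_X_pow _ _)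
      · have : Y1 ^ a * Y2 ^ b - aeval ![Y1, Y2] (X 0 ^ a * X 1 ^ b : MvPolynomial (Fin 2) k)
            = 0 := by
          simp
        rw [this]
        exact Submodule.zero_mem _
    · refine ⟨0, isHomogeneous_zero _ _ _, ?_⟩
      rw [map_zero, sub_zero]
      exact Submodule.subset_span ⟨a, b, by omega, rfl⟩
  | zero =>
    refine ⟨0, isHomogeneous_zero _ _ _, ?_⟩
    rw [map_zero, sub_zero]
    exact Submodule.zero_mem _
  | add x y _ _ hx hy =>
    obtain ⟨p, hp, hp'⟩ := hx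
    obtain ⟨q, hq, hq'⟩ := hy
    refine ⟨p + q, hp.add hq, ?_⟩
    have e : x + y - aeval ![Y1, Y2] (p + q)
        = (x - aeval ![Y1, Y2] p) + (y - aeval ![Y1, Y2] q) := by
      rw [map_add]; ring
    rw [e]
    exact Submodule.add_mem _ hp' hq'
  | smul c x _ hx =>
    obtain ⟨p, hp, hp'⟩ := hx
    refine ⟨c • p, ?_, ?_⟩
    · rw [smul_eq_C_mul]
      have := (isHomogeneous_C (Fin 2) c).mul hp
      rwa [zero_add] at this
    · have e : c • x - aeval ![Y1, Y2] (c • p) = c • (x - aeval ![Y1, Y2] p) := by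
        rw [map_smul, smul_sub]
      rw [e]
      exact Submodule.smul_mem _ _ hp'

/-- **Task GE2.** Consequences of the boundary structure. -/
theorem GE2 (G : Fil k K) (hfd : ∀ t : ℤ, Module.Finite k (G.R t)) (S : Bdry G) :
    (∀ (s t : ℤ) (g x : K), g ∈ AA k G.Y1 G.Y2 s → g ∉ AA k G.Y1 G.Y2 (s - 1) → x ∈ G.R t →
      g * x ∈ G.R (s + t - 1) → x ∈ G.R (t - 1)) ∧
    (∀ (t : ℤ) (n : ℕ) (x : K), 0 < n → x ∈ G.R t → x ^ n ∈ G.R (n * t - 1) →
      x ∈ G.R (t - 1)) := by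
  letI := S.ring; letI := S.alg; letI := S.dom
  constructor
  · intro s t g x hg hg' hx hgx
    -- `s` is a natural number
    obtain ⟨n, rfl⟩ : ∃ n : ℕ, s = n := by
      by_contra hs
      apply hg'
      have hneg : s < 0 := by
        by_contra h
        exact hs ⟨s.toNat, by omega⟩
      have : AA k G.Y1 G.Y2 s = ⊥ := by
        unfold AA
        rw [Submodule.span_eq_bot]
        rintro y ⟨i, j, hij, -⟩
        omega
      rw [this, Submodule.mem_bot] at hg
      rw [hg]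
      exact Submodule.zero_mem _
    have hgR := GE2_AA_le G _ hg
    obtain ⟨p, hp, hp'⟩ := GE2_top G.Y1 G.Y2 n g hg
    have hp0 : p ≠ 0 := by
      rintro rfl
      rw [map_zero, sub_zero] at hp'
      exact hg' hp'
    rw [← GE2_r_ker S hx]
    intro i
    have h1 : GE2_r S i (n + t) (g * x) = 0 := ((GE2_r_ker S (G.mul_mem hgR hx)).2 hgx) i
    rw [GE2_r_mul S i hgR hx] at h1
    rcases mul_eq_zero.1 h1 with h2 | h2
    · exfalso
      have hhom := GE2_hom_mem G n p hp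
      have haR : aeval ![G.Y1, G.Y2] p ∈ G.R (n : ℤ) := by
        rw [GE2_aeval]
        exact Submodule.sum_mem _ fun m hm => Submodule.smul_mem _ _ (hhom m hm)
      have hd := GE2_mono G (by omega : (n : ℤ) - 1 ≤ n) (GE2_AA_le G _ hp')
      have h3 : GE2_r S i n g = GE2_r S i n (g - aeval ![G.Y1, G.Y2] p)
          + GE2_r S i n (aeval ![G.Y1, G.Y2] p) := by
        rw [← GE2_r_add S i hd haR, sub_add_cancel]
      have h4 : GE2_r S i n (g - aeval ![G.Y1, G.Y2] p) = 0 :=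
        ((GE2_r_ker S hd).2 (GE2_AA_le G _ hp')) i
      rw [h4, zero_add] at h3
      have h5 : GE2_r S i n (aeval ![G.Y1, G.Y2] p)
          = aeval ![S.ρ i 1 ⟨G.Y1, G.Y1_mem⟩, S.ρ i 1 ⟨G.Y2, G.Y2_mem⟩] p := by
        rw [GE2_aeval, GE2_r_sum S i _ _ _ fun m hm => Submodule.smul_mem _ _ (hhom m hm),
          aeval_def, eval₂_eq']
        refine Finset.sum_congr rfl fun m hm => ?_
        rw [GE2_r_smul S i _ (hhom m hm), Algebra.smul_def, Fin.prod_univ_two]
        congr 1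
        have h6 : m 0 + m 1 = n := by
          have h := hp (mem_support_iff.1 hm)
          rw [← h, Finsupp.weight_apply, Finsupp.sum_fintype]
          · simp [Fin.sum_univ_two]
          · simp
        have h7 := GE2_r_YY S i (m 0) (m 1)
        rw [h6, GE2_r_of_mem S i G.Y1_mem, GE2_r_of_mem S i G.Y2_mem] at h7
        exact h7
      rw [h2, h5] at h3
      exact hp0 ((S.ρ_inj i) (by rw [← h3, map_zero]))
    · exact h2
  · intro t n x hn hx hxn
    rw [← GE2_r_ker S hx]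
    intro i
    have h1 : GE2_r S i (n * t) (x ^ n) = 0 := ((GE2_r_ker S (GE2_pow G hx n)).2 hxn) i
    rw [GE2_r_pow S i hx n] at h1
    exact pow_eq_zero_iff (by omega) |>.1 h1

end

end Pool.Agent.H54R2.Ul
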