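import Pool.Agent.H54R2.Ul.Defs3

namespace Pool.Agent.H54R2.Ul

open MvPolynomial

noncomputable section

variable {k K : Type} [Field k] [Field K] [Algebra k K]

section Mod

variable {G : Fil k K} (S : Bdry G)

local instance GE3_instRing : CommRing S.D := S.ring
local instance GE3_instAlg : Algebra k S.D := S.alg

/-- the `i`-th boundary ring, as a module over `k[X0, X1]` -/
def GE3_DD (_ : S.ι) : Type := S.D

instance (i : S.ι) : AddCommGroup (GE3_DD S i) := inferInstanceAs (AddCommGroup S.D)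
instance (i : S.ι) : Module k (GE3_DD S i) := inferInstanceAs (Module k S.D)

/-- the structure homomorphism -/
def GE3_hom (i : S.ι) : MvPolynomial (Fin 2) k →ₐ[k] S.D :=
  MvPolynomial.aeval ![S.ρ i 1 ⟨G.Y1, G.Y1_mem⟩, S.ρ i 1 ⟨G.Y2, G.Y2_mem⟩]

instance (i : S.ι) : Module (MvPolynomial (Fin 2) k) (GE3_DD S i) :=
  Module.compHom S.D (GE3_hom S i).toRingHom

theorem GE3_smul_def (i : S.ι) (p : MvPolynomial (Fin 2) k) (x : GE3_DD S i) :
    p • x = (GE3_hom S i p * @id S.D x : S.D) := rfl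

instance (i : S.ι) : Module.Finite (MvPolynomial (Fin 2) k) (GE3_DD S i) := by
  have h := S.ρ_fin i
  letI : Algebra (MvPolynomial (Fin 2) k) S.D := (GE3_hom S i).toRingHom.toAlgebra
  have h' : Module.Finite (MvPolynomial (Fin 2) k) S.D := h
  exact h'

instance : Finite S.ι := @Finite.of_fintype _ S.fin

/-- the product of the boundary rings -/
abbrev GE3_E : Type := (i : S.ι) → GE3_DD S i

instance : IsNoetherian (MvPolynomial (Fin 2) k) (GE3_E S) := inferInstance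

/-- restriction to the boundary -/
def GE3_vec (t : ℤ) : G.R t →ₗ[k] GE3_E S where
  toFun x := fun i => S.ρ i t x
  map_add' x y := by funext i; exact (S.ρ i t).map_add x y
  map_smul' c x := by funext i; exact (S.ρ i t).map_smul c x

/-- the sections on the boundary -/
def GE3_W (t : ℤ) : Submodule k (GE3_E S) := LinearMap.range (GE3_vec S t)

/-- the graded pieces -/
def GE3_gE (t : ℤ) : Submodule k (GE3_E S) :=
  Submodule.pi Set.univ fun i => (S.gr t : Submodule k (GE3_DD S i))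

theorem GE3_W_le (t : ℤ) : GE3_W S t ≤ GE3_gE S t := by
  rintro _ ⟨x, rfl⟩ i _
  exact S.ρ_gr i t x

theorem GE3_indep : iSupIndep (GE3_gE S) := by
  intro n
  rw [disjoint_iff, eq_bot_iff]
  intro x hx
  rw [Submodule.mem_inf] at hx
  rw [Submodule.mem_bot]
  funext i
  have h1 : (x i : S.D) ∈ S.gr n := hx.1 i (Set.mem_univ i)
  have h2 : (x i : S.D) ∈ (⨆ (j : ℤ) (_ : j ≠ n), S.gr j) := by
    have h3 : (⨆ (j : ℤ) (_ : j ≠ n), GE3_gE S j) ≤
        (⨆ (j : ℤ) (_ : j ≠ n), S.gr j : Submodule k (GE3_DD S i)).comap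
          (LinearMap.proj i : GE3_E S →ₗ[k] GE3_DD S i) := by
      refine iSup_le fun j => iSup_le fun hj => ?_
      intro y hy
      rw [Submodule.mem_comap]
      exact (le_iSup_of_le j (le_iSup_of_le hj le_rfl) :
        S.gr j ≤ (⨆ (j : ℤ) (_ : j ≠ n), S.gr j)) (hy i (Set.mem_univ i))
    exact h3 hx.2
  have h4 := (S.gr_indep n).le_bot ⟨h1, h2⟩
  exact h4

/-- multiplication by the `j`-th variable -/
def GE3_mulX (j : Fin 2) : GE3_E S →ₗ[k] GE3_E S where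
  toFun x := (X j : MvPolynomial (Fin 2) k) • x
  map_add' x y := smul_add _ _ _
  map_smul' c x := by
    funext i
    show (GE3_hom S i (X j) * (c • (@id S.D (x i))) : S.D)
      = c • (GE3_hom S i (X j) * @id S.D (x i) : S.D)
    rw [mul_smul_comm]

/-- the elements `Y1 W + Y2 W` -/
def GE3_V (t : ℤ) : Submodule k (GE3_E S) :=
  (GE3_W S t).map (GE3_mulX S 0) ⊔ (GE3_W S t).map (GE3_mulX S 1)

theorem GE3_mulX_vec0 (t : ℤ) (x : G.R t) :
    GE3_mulX S 0 (GE3_vec S t x) = GE3_vec S (t + 1)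
      ⟨G.Y1 * x, by have := G.mul_mem G.Y1_mem x.2; rwa [add_comm] at this⟩ := by
  funext i
  show (GE3_hom S i (X 0) * (S.ρ i t x : S.D) : S.D) = S.ρ i (t + 1) _
  have h := S.ρ_mul i t 1 x ⟨G.Y1, G.Y1_mem⟩
    ⟨G.Y1 * x, by have := G.mul_mem G.Y1_mem x.2; rwa [add_comm] at this⟩ (mul_comm _ _)
  rw [h, mul_comm]
  congr 1
  exact MvPolynomial.aeval_X _ _

theorem GE3_mulX_vec1 (t : ℤ) (x : G.R t) :
    GE3_mulX S 1 (GE3_vec S t x) = GE3_vec S (t + 1)
      ⟨G.Y2 * x, by have := G.mul_mem G.Y2_mem x.2; rwa [add_comm] at this⟩ := by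
  funext i
  show (GE3_hom S i (X 1) * (S.ρ i t x : S.D) : S.D) = S.ρ i (t + 1) _
  have h := S.ρ_mul i t 1 x ⟨G.Y2, G.Y2_mem⟩
    ⟨G.Y2 * x, by have := G.mul_mem G.Y2_mem x.2; rwa [add_comm] at this⟩ (mul_comm _ _)
  rw [h, mul_comm]
  congr 1
  exact MvPolynomial.aeval_X _ _

theorem GE3_map_W (j : Fin 2) (t : ℤ) : (GE3_W S t).map (GE3_mulX S j) ≤ GE3_W S (t + 1) := by
  rintro _ ⟨_, ⟨x, rfl⟩, rfl⟩
  fin_cases j
  · exact ⟨_, (GE3_mulX_vec0 S t x).symm⟩
  · exact ⟨_, (GE3_mulX_vec1 S t x).symm⟩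

theorem GE3_V_le (t : ℤ) : GE3_V S t ≤ GE3_W S (t + 1) :=
  sup_le (GE3_map_W S 0 t) (GE3_map_W S 1 t)

theorem GE3_map_le_V (j : Fin 2) (t : ℤ) : (GE3_W S t).map (GE3_mulX S j) ≤ GE3_V S t := by
  fin_cases j
  · exact le_sup_left
  · exact le_sup_right

/-- the pieces of the submodule generated in degrees at most `t` -/
def GE3_TT (t n : ℤ) : Submodule k (GE3_E S) := if n ≤ t then GE3_W S n else GE3_V S (n - 1)

theorem GE3_TT_le (t n : ℤ) : GE3_TT S t n ≤ GE3_W S n := by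
  unfold GE3_TT
  split_ifs
  · exact le_rfl
  · have := GE3_V_le S (n - 1)
    rwa [sub_add_cancel] at this

theorem GE3_TT_mul (t n : ℤ) (j : Fin 2) :
    (GE3_TT S t n).map (GE3_mulX S j) ≤ GE3_TT S t (n + 1) := by
  have h1 : (GE3_TT S t n).map (GE3_mulX S j) ≤ (GE3_W S n).map (GE3_mulX S j) :=
    Submodule.map_mono (GE3_TT_le S t n)
  refine h1.trans ?_
  unfold GE3_TT
  split_ifs
  · exact GE3_map_W S j n
  · rw [add_sub_cancel_right]
    exact GE3_map_le_V S j n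

theorem GE3_iSup_mul (t : ℤ) (j : Fin 2) :
    (⨆ n, GE3_TT S t n).map (GE3_mulX S j) ≤ ⨆ n, GE3_TT S t n := by
  rw [Submodule.map_iSup]
  exact iSup_le fun n => (GE3_TT_mul S t n j).trans (le_iSup (GE3_TT S t) (n + 1))

/-- the `k[X0, X1]`-submodule generated in degrees at most `t` -/
def GE3_TA (t : ℤ) : Submodule (MvPolynomial (Fin 2) k) (GE3_E S) where
  carrier := (⨆ n, GE3_TT S t n : Submodule k (GE3_E S))
  add_mem' := fun ha hb => Submodule.add_mem _ ha hb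
  zero_mem' := Submodule.zero_mem _
  smul_mem' := by
    intro p
    induction p using MvPolynomial.induction_on with
    | C c =>
      intro x hx
      have : (C c : MvPolynomial (Fin 2) k) • x = c • x := by
        funext i
        show (GE3_hom S i (C c) * @id S.D (x i) : S.D) = c • @id S.D (x i)
        rw [GE3_hom, MvPolynomial.aeval_C, Algebra.smul_def]
      rw [this]
      exact Submodule.smul_mem _ _ hx
    | add p q hp hq =>
      intro x hx
      rw [add_smul]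
      exact Submodule.add_mem _ (hp hx) (hq hx)
    | mul_X p j hp =>
      intro x hx
      rw [mul_smul]
      apply hp
      exact GE3_iSup_mul S t j ⟨x, hx, rfl⟩

/-- the submodules generated by the pieces of degree at most `n` -/
def GE3_P : ℕ →o Submodule (MvPolynomial (Fin 2) k) (GE3_E S) where
  toFun n := Submodule.span _ {e | ∃ s : ℤ, s ≤ n ∧ e ∈ GE3_W S s}
  monotone' := by
    intro m n hmn
    apply Submodule.span_mono
    rintro e ⟨s, hs, he⟩
    exact ⟨s, hs.trans (by exact_mod_cast hmn), he⟩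

theorem GE3_P_le (n : ℕ) : GE3_P S n ≤ GE3_TA S n := by
  show Submodule.span _ _ ≤ _
  rw [Submodule.span_le]
  rintro e ⟨s, hs, he⟩
  have h : GE3_W S s ≤ ⨆ n', GE3_TT S n n' := by
    refine le_iSup_of_le s ?_
    unfold GE3_TT
    rw [if_pos hs]
  exact h he

theorem GE3_comp (t : ℤ) (w : GE3_E S) (hw : w ∈ GE3_W S (t + 1)) (hT : w ∈ GE3_TA S t) :
    w ∈ GE3_V S t := by
  have hT' : w ∈ (⨆ n, GE3_TT S t n : Submodule k (GE3_E S)) := hT
  have hle : (⨆ n, GE3_TT S t n : Submodule k (GE3_E S)) ≤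
      GE3_V S t ⊔ ⨆ (n : ℤ) (_ : n ≠ t + 1), GE3_gE S n := by
    refine iSup_le fun n => ?_
    by_cases hn : n = t + 1
    · subst hn
      refine le_sup_of_le_left ?_
      unfold GE3_TT
      rw [if_neg (by omega), add_sub_cancel_right]
    · refine le_sup_of_le_right ?_
      exact le_iSup_of_le n (le_iSup_of_le hn ((GE3_TT_le S t n).trans (GE3_W_le S n)))
  obtain ⟨y, hy, z, hz, rfl⟩ := Submodule.mem_sup.1 (hle hT')
  have h1 : z ∈ GE3_gE S (t + 1) := by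
    have h2 : y + z ∈ GE3_gE S (t + 1) := GE3_W_le S _ hw
    have h3 : y ∈ GE3_gE S (t + 1) := GE3_W_le S _ (GE3_V_le S t hy)
    have := Submodule.sub_mem _ h2 h3
    rwa [add_sub_cancel_left] at this
  have h4 : z = 0 := by
    have := (GE3_indep S (t + 1)).le_bot ⟨h1, hz⟩
    exact this
  rw [h4, add_zero]
  exact hy

end Mod

/-- **Task GE3.** Finite generation over `k[y0,y1,y2]`. -/
theorem GE3 (G : Fil k K) (hfd : ∀ t : ℤ, Module.Finite k (G.R t)) (S : Bdry G) :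
    ∃ t0 : ℤ, ∀ t : ℤ, t0 ≤ t → ∀ x ∈ G.R (t + 1),
      ∃ a ∈ G.R t, ∃ b ∈ G.R t, ∃ c ∈ G.R t, x = a + G.Y1 * b + G.Y2 * c := by
  letI := S.ring
  letI := S.alg
  have hnoe : IsNoetherian (MvPolynomial (Fin 2) k) (GE3_E S) := inferInstance
  obtain ⟨n0, hn0⟩ := monotone_stabilizes_iff_noetherian.2 hnoe (GE3_P S)
  refine ⟨n0, fun t ht x hx => ?_⟩
  obtain ⟨n, rfl⟩ : ∃ n : ℕ, t = n := ⟨t.toNat, by omega⟩
  have hn : n0 ≤ n := by exact_mod_cast ht
  have h1 : GE3_vec S ((n : ℤ) + 1) ⟨x, hx⟩ ∈ GE3_P S (n + 1) := by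
    apply Submodule.subset_span
    exact ⟨(n : ℤ) + 1, by push_cast; rfl, ⟨⟨x, hx⟩, rfl⟩⟩
  rw [← hn0 (n + 1) (by omega), hn0 n hn] at h1
  have h2 := GE3_comp S n _ ⟨⟨x, hx⟩, rfl⟩ (GE3_P_le S n h1)
  obtain ⟨_, ⟨_, ⟨b, rfl⟩, rfl⟩, _, ⟨_, ⟨c, rfl⟩, rfl⟩, hbc⟩ := Submodule.mem_sup.1 h2
  rw [GE3_mulX_vec0, GE3_mulX_vec1] at hbc
  have hb : G.Y1 * b ∈ G.R ((n : ℤ) + 1) := by
    have := G.mul_mem G.Y1_mem b.2; rwa [add_comm] at this
  have hc : G.Y2 * c ∈ G.R ((n : ℤ) + 1) := by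
    have := G.mul_mem G.Y2_mem c.2; rwa [add_comm] at this
  have hx' : x - (G.Y1 * b + G.Y2 * c) ∈ G.R ((n : ℤ) + 1) :=
    Submodule.sub_mem _ hx (Submodule.add_mem _ hb hc)
  have h3 : x - (G.Y1 * b + G.Y2 * c) ∈ G.R n := by
    have h4 := (S.ρ_ker ((n : ℤ) + 1) ⟨_, hx'⟩).1 (by
      intro i
      have h5 := congrFun hbc i
      have h6 : (⟨x - (G.Y1 * b + G.Y2 * c), hx'⟩ : G.R ((n : ℤ) + 1))
          = ⟨x, hx⟩ - (⟨G.Y1 * b, hb⟩ + ⟨G.Y2 * c, hc⟩) := rfl
      rw [h6, map_sub, map_add, sub_eq_zero]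
      exact h5.symm)
    rwa [add_sub_cancel_right] at h4
  refine ⟨_, h3, b, b.2, c, c.2, ?_⟩
  ring

end

end Pool.Agent.H54R2.Ul
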