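import Pool.Agent.H54R2.Ul.Defs3

/-! # ULRICH, task GF2: integral isotypic elements are regular -/

namespace Pool.Agent.H54R2.Ul

open MvPolynomial

noncomputable section

variable {k K : Type} [Field k] [Field K] [Algebra k K]

lemma GF2_dvd (d w : MvPolynomial (Fin 2) k) (hd : d ≠ 0)
    (h : ∀ q, Prime q → q ∣ d → q ∣ w) : ∃ m : ℕ, d ∣ w ^ m := by
  revert hd h
  refine UniqueFactorizationMonoid.induction_on_prime d ?_ ?_ ?_
  · intro hd _; exact absurd rfl hd
  · intro x hx _ _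
    exact ⟨0, by simpa using hx.dvd⟩
  · intro a p ha hp ih _ h
    obtain ⟨m, hm⟩ := ih ha (fun q hq hqa => h q hq (hqa.mul_left _))
    exact ⟨m + 1, by rw [pow_succ']; exact mul_dvd_mul (h p hp (dvd_mul_right _ _)) hm⟩

lemma GF2_prime {f : MvPolynomial (Fin 2) k} (h : f.totalDegree = 1) : Prime f := by
  rw [← UniqueFactorizationMonoid.irreducible_iff_prime]
  apply irreducible_of_totalDegree_eq_one h
  intro x hx
  by_contra hx'
  have h0 : x = 0 := by
    by_contra h1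
    exact hx' (isUnit_iff_ne_zero.2 h1)
  subst h0
  have hf : f = 0 := by
    ext i
    rw [coeff_zero]
    exact zero_dvd_iff.1 (hx i)
  rw [hf] at h
  simp at h

lemma GF2_ne (i : Fin 2) : (0 : Fin 2 →₀ ℕ) ≠ Finsupp.single i 1 := by
  intro h
  have := DFunLike.congr_fun h i
  simp at this

lemma GF2_ne' : (Finsupp.single (1 : Fin 2) 1 : Fin 2 →₀ ℕ) ≠ Finsupp.single 0 1 := by
  intro h
  have := DFunLike.congr_fun h 0
  simp at this

lemma GF2_deg1 : (1 - X 1 : MvPolynomial (Fin 2) k).totalDegree = 1 := by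
  apply le_antisymm
  · refine (totalDegree_sub _ _).trans ?_
    simp [totalDegree_X]
  · have h : (Finsupp.single (1 : Fin 2) 1) ∈ (1 - X 1 : MvPolynomial (Fin 2) k).support := by
      rw [mem_support_iff, coeff_sub, coeff_X, coeff_one, if_neg (GF2_ne 1)]
      simp
    have := le_totalDegree h
    simpa using this

lemma GF2_deg0 : (1 - X 0 : MvPolynomial (Fin 2) k).totalDegree = 1 := by
  apply le_antisymm
  · refine (totalDegree_sub _ _).trans ?_
    simp [totalDegree_X]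
  · have h : (Finsupp.single (0 : Fin 2) 1) ∈ (1 - X 0 : MvPolynomial (Fin 2) k).support := by
      rw [mem_support_iff, coeff_sub, coeff_X, coeff_one, if_neg (GF2_ne 0)]
      simp
    have := le_totalDegree h
    simpa using this

lemma GF2_deg2 : (X 0 + X 1 - 1 : MvPolynomial (Fin 2) k).totalDegree = 1 := by
  apply le_antisymm
  · refine (totalDegree_sub _ _).trans ?_
    refine max_le ((totalDegree_add _ _).trans ?_) ?_
    · simp [totalDegree_X]
    · simp
  · have h : (Finsupp.single (0 : Fin 2) 1) ∈ (X 0 + X 1 - 1 : MvPolynomial (Fin 2) k).support := by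
      rw [mem_support_iff, coeff_sub, coeff_add, coeff_X, coeff_one, coeff_X, if_neg (GF2_ne 0),
        if_neg GF2_ne']
      simp
    have := le_totalDegree h
    simpa using this

lemma GF2_eval {f g : MvPolynomial (Fin 2) k} (p : Fin 2 → k) (hf : eval p f = 0)
    (hg : eval p g ≠ 0) : ¬ f ∣ g := by
  rintro ⟨e, rfl⟩
  apply hg
  rw [map_mul, hf, zero_mul]

lemma GF2_mult {f g1 g2 : MvPolynomial (Fin 2) k} (hf : Prime f) (h1 : ¬ f ∣ g1) (h2 : ¬ f ∣ g2)
    {α β γ : ℕ} (h : f ^ 7 ∣ f ^ α * (g1 ^ β * g2 ^ γ)) : 7 ≤ α := by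
  have h3 : ¬ f ∣ g1 ^ β * g2 ^ γ := by
    intro h4
    rcases hf.dvd_or_dvd h4 with h5 | h5
    · exact h1 (hf.dvd_of_dvd_pow h5)
    · exact h2 (hf.dvd_of_dvd_pow h5)
  have h4 := hf.pow_dvd_of_dvd_mul_right 7 h3 h
  exact (pow_dvd_pow_iff hf.ne_zero hf.not_isUnit).1 h4

lemma GF2_key (q : MvPolynomial (Fin 2) k) (hq : Prime q) (N α β γ : ℕ) (hα : α < 7) (hβ : β < 7)
    (hγ : γ < 7)
    (h : q ^ 7 ∣ (X 0 * X 1) ^ N * ((1 - X 1) ^ α * ((1 - X 0) ^ β * (X 0 + X 1 - 1) ^ γ))) :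
    q ∣ X 0 * X 1 := by
  by_contra hw
  have h1 : q ^ 7 ∣ (1 - X 1) ^ α * ((1 - X 0) ^ β * (X 0 + X 1 - 1) ^ γ) :=
    hq.pow_dvd_of_dvd_mul_left 7 (fun h2 => hw (hq.dvd_of_dvd_pow h2)) h
  have h2 : q ∣ (1 - X 1) ^ α * ((1 - X 0) ^ β * (X 0 + X 1 - 1) ^ γ) :=
    (dvd_pow_self q (by norm_num)).trans h1
  have key : ∀ f : MvPolynomial (Fin 2) k, Prime f → q ∣ f → ∀ g, q ^ 7 ∣ g → f ^ 7 ∣ g := by
    intro f hf hqf g hg
    have := (hq.associated_of_dvd hf hqf).pow_pow (n := 7)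
    exact this.symm.dvd.trans hg
  rcases hq.dvd_or_dvd h2 with h3 | h3
  · have h4 := hq.dvd_of_dvd_pow h3
    have h5 := key _ (GF2_prime GF2_deg1) h4 _ h1
    have h6 := GF2_mult (GF2_prime GF2_deg1) (GF2_eval ![0, 1] (by simp) (by simp))
      (GF2_eval ![1, 1] (by simp) (by simp)) h5
    omega
  · rcases hq.dvd_or_dvd h3 with h3 | h3
    · have h4 := hq.dvd_of_dvd_pow h3
      have h5 := key _ (GF2_prime GF2_deg0) h4 _ h1
      have h6 := GF2_mult (α := β) (β := α) (γ := γ) (GF2_prime GF2_deg0)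
        (GF2_eval (g := (1 - X 1 : MvPolynomial (Fin 2) k)) ![1, 0] (by simp) (by simp))
        (GF2_eval (g := (X 0 + X 1 - 1 : MvPolynomial (Fin 2) k)) ![1, 1] (by simp) (by simp))
        (by convert h5 using 1; ring)
      omega
    · have h4 := hq.dvd_of_dvd_pow h3
      have h5 := key _ (GF2_prime GF2_deg2) h4 _ h1
      have h6 := GF2_mult (α := γ) (β := α) (γ := β) (GF2_prime GF2_deg2)
        (GF2_eval (g := (1 - X 1 : MvPolynomial (Fin 2) k)) ![1, 0] (by simp) (by simp))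
        (GF2_eval (g := (1 - X 0 : MvPolynomial (Fin 2) k)) ![0, 1] (by simp) (by simp))
        (by convert h5 using 1; ring)
      omega

/-! ## The local statement -/

lemma GF2_NF (i : ZMod 5) (m n : ℕ) : NF (ee i m + ee (i + 1) n) := by
  intro j
  have h : ∀ i j : ZMod 5, (j ≠ i ∧ j ≠ i + 1) ∨ (j + 2 ≠ i ∧ j + 2 ≠ i + 1) := by decide
  rcases h i j with ⟨h1, h2⟩ | ⟨h1, h2⟩
  · left; simp [ee, h1, h2]
  · right; simp [ee, h1, h2]

lemma GF2_inj (M : Model k K) (i : ZMod 5) :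
    Function.Injective (aeval ![M.z i ^ 7, M.z (i + 1) ^ 7] : MvPolynomial (Fin 2) k →ₐ[k] K) := by
  rw [injective_iff_map_eq_zero]
  intro p hp
  have hne : ∀ i : ZMod 5, i ≠ i + 1 := by decide
  let f : (Fin 2 →₀ ℕ) → {a : ZMod 5 → ℕ // NF a} :=
    fun d => ⟨ee i (7 * d 0) + ee (i + 1) (7 * d 1), GF2_NF i _ _⟩
  have hf : Function.Injective f := by
    intro d d' h
    have h1 := congrArg Subtype.val h
    have h2 := congrFun h1 i
    have h3 := congrFun h1 (i + 1)
    simp only [f, Pi.add_apply, ee, if_true, if_neg (hne i), if_neg (hne i).symm] at h2 h3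
    ext j
    fin_cases j
    · change d 0 = d' 0; omega
    · change d 1 = d' 1; omega
  have hl := M.indep.comp f hf
  rw [linearIndependent_iff'] at hl
  have hsum : ∑ d ∈ p.support, coeff d p • ((fun a : {a : ZMod 5 → ℕ // NF a} => zm M.z a.1) ∘ f) d
      = 0 := by
    rw [← hp, aeval_def, eval₂_eq']
    refine Finset.sum_congr rfl fun d _ => ?_
    simp only [Function.comp_apply, f]
    rw [zm_add, zm_ee, zm_ee, Algebra.smul_def, Fin.prod_univ_two]
    simp [pow_mul]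
  have h0 := hl p.support (fun d => coeff d p) hsum
  ext d
  rw [coeff_zero]
  by_cases hd : d ∈ p.support
  · exact h0 d hd
  · exact notMem_support_iff.1 hd

lemma GF2_z_ne (M : Model k K) (i : ZMod 5) : M.z i ≠ 0 := by
  intro h
  have h1 := GF2_inj M i
  have h2 : (X 0 : MvPolynomial (Fin 2) k) = 0 := by
    apply h1
    simp [h]
  exact X_ne_zero _ h2

lemma GF2_rel2 (M : Model k K) (i : ZMod 5) :
    M.z i ^ 7 * M.z (i + 1) ^ 7 * M.z (i + 2) ^ 7 = (1 - M.z (i + 1) ^ 7) * M.z (i + 1) ^ 7 := by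
  have h := M.rel (i + 1)
  have e1 : i + 1 - 1 = i := by ring
  have e2 : i + 1 + 1 = i + 2 := by ring
  rw [e1, e2] at h
  rw [← h]; ring

lemma GF2_rel4 (M : Model k K) (i : ZMod 5) :
    M.z i ^ 7 * M.z (i + 1) ^ 7 * M.z (i + 4) ^ 7 = (1 - M.z i ^ 7) * M.z i ^ 7 := by
  have h := M.rel i
  have e1 : i - 1 = i + 4 := by
    have : (4 : ZMod 5) = -1 := by decide
    rw [this]; ring
  rw [e1] at h
  rw [← h]; ring

lemma GF2_rel3 (M : Model k K) (i : ZMod 5) :
    M.z i ^ 7 * M.z (i + 1) ^ 7 * M.z (i + 3) ^ 7 = M.z i ^ 7 + M.z (i + 1) ^ 7 - 1 := by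
  have h := M.rel (i + 2)
  have e1 : i + 2 - 1 = i + 1 := by ring
  have e2 : i + 2 + 1 = i + 3 := by ring
  rw [e1, e2] at h
  have h' := M.rel (i + 1)
  have e3 : i + 1 - 1 = i := by ring
  have e4 : i + 1 + 1 = i + 2 := by ring
  rw [e3, e4] at h'
  linear_combination (M.z i ^ 7) * h - h'

lemma GF2_prod5 (f : ZMod 5 → K) (i : ZMod 5) :
    ∏ j, f j = f i * f (i + 1) * f (i + 2) * f (i + 3) * f (i + 4) := by
  rw [← Equiv.prod_comp (Equiv.addLeft i) f]
  have h := Fin.prod_univ_five (fun j : Fin 5 => f (Equiv.addLeft i (j : ZMod 5)))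
  refine (h.trans ?_)
  simp only [Equiv.coe_addLeft]
  have h0 : i + (0 : ZMod 5) = i := add_zero i
  change f (i + (0 : ZMod 5)) * f (i + 1) * f (i + 2) * f (i + 3) * f (i + 4) = _
  rw [h0]

/-- the numerator of `z^a` to the seventh power -/
def GF2_G (k : Type) [Field k] (a : ZMod 5 → ℕ) (i : ZMod 5) : MvPolynomial (Fin 2) k :=
  X 0 ^ a i * X 1 ^ a (i + 1) * ((1 - X 1) * X 1) ^ a (i + 2) * (X 0 + X 1 - 1) ^ a (i + 3) *
    ((1 - X 0) * X 0) ^ a (i + 4)

lemma GF2_zm7 (M : Model k K) (a : ZMod 5 → ℕ) (i : ZMod 5) :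
    (M.z i ^ 7 * M.z (i + 1) ^ 7) ^ (a (i + 2) + a (i + 3) + a (i + 4)) * zm M.z a ^ 7 =
      aeval ![M.z i ^ 7, M.z (i + 1) ^ 7] (GF2_G k a i) := by
  have h1 : zm M.z a ^ 7 = (M.z i ^ 7) ^ a i * (M.z (i + 1) ^ 7) ^ a (i + 1) *
      (M.z (i + 2) ^ 7) ^ a (i + 2) * (M.z (i + 3) ^ 7) ^ a (i + 3) *
      (M.z (i + 4) ^ 7) ^ a (i + 4) := by
    rw [zm, GF2_prod5 _ i]
    ring
  rw [h1]
  simp only [GF2_G, map_mul, map_pow, map_sub, map_add, map_one, aeval_X, Matrix.cons_val_zero,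
    Matrix.cons_val_one]
  rw [← GF2_rel2, ← GF2_rel3, ← GF2_rel4]
  ring

/-- clearing denominators of integral elements -/
lemma GF2_int (M : Model k K) (i : ZMod 5) (x : K) (hx : IsIntegral M.B x) :
    letI : Algebra (MvPolynomial (Fin 2) k) K :=
      (aeval ![M.z i ^ 7, M.z (i + 1) ^ 7] : MvPolynomial (Fin 2) k →ₐ[k] K).toRingHom.toAlgebra
    ∃ N : ℕ, IsIntegral (MvPolynomial (Fin 2) k) ((M.z i ^ 7 * M.z (i + 1) ^ 7) ^ N * x) := by
  letI : Algebra (MvPolynomial (Fin 2) k) K :=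
    (aeval ![M.z i ^ 7, M.z (i + 1) ^ 7] : MvPolynomial (Fin 2) k →ₐ[k] K).toRingHom.toAlgebra
  have hφ : ∀ p : MvPolynomial (Fin 2) k, algebraMap (MvPolynomial (Fin 2) k) K p =
      aeval ![M.z i ^ 7, M.z (i + 1) ^ 7] p := fun _ => rfl
  set w : MvPolynomial (Fin 2) k := X 0 * X 1 with hw
  have hwK : algebraMap (MvPolynomial (Fin 2) k) K w = M.z i ^ 7 * M.z (i + 1) ^ 7 := by
    rw [hφ, hw, map_mul, aeval_X, aeval_X]; rfl
  have hwne : M.z i ^ 7 * M.z (i + 1) ^ 7 ≠ 0 :=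
    mul_ne_zero (pow_ne_zero _ (GF2_z_ne M i)) (pow_ne_zero _ (GF2_z_ne M (i + 1)))
  have hunit : IsUnit (algebraMap (MvPolynomial (Fin 2) k) K w) := by
    rw [hwK]; exact isUnit_iff_ne_zero.2 hwne
  letI : Algebra (Localization.Away w) K := (IsLocalization.Away.lift w hunit).toAlgebra
  have hL : ∀ p : MvPolynomial (Fin 2) k,
      algebraMap (Localization.Away w) K (algebraMap _ (Localization.Away w) p) =
        algebraMap (MvPolynomial (Fin 2) k) K p := by
    intro p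
    exact IsLocalization.Away.lift_eq w hunit p
  haveI : IsScalarTower (MvPolynomial (Fin 2) k) (Localization.Away w) K :=
    IsScalarTower.of_algebraMap_eq fun p => (hL p).symm
  -- the elements `s j`
  have hs : ∀ (g : MvPolynomial (Fin 2) k) (y : K),
      M.z i ^ 7 * M.z (i + 1) ^ 7 * y = aeval ![M.z i ^ 7, M.z (i + 1) ^ 7] g →
      IsIntegral (Localization.Away w) y := by
    intro g y hy
    have h1 : algebraMap (Localization.Away w) K (algebraMap _ (Localization.Away w) g *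
        IsLocalization.Away.invSelf w) = y := by
      rw [map_mul, hL, hφ, ← hy]
      have h2 : algebraMap (Localization.Away w) K (algebraMap _ (Localization.Away w) w) *
          algebraMap (Localization.Away w) K (IsLocalization.Away.invSelf w) = 1 := by
        rw [← map_mul, IsLocalization.Away.mul_invSelf, map_one]
      rw [hL, hwK] at h2
      calc _ = y * (M.z i ^ 7 * M.z (i + 1) ^ 7 *
            algebraMap (Localization.Away w) K (IsLocalization.Away.invSelf w)) := by ring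
        _ = y := by rw [h2, mul_one]
    rw [← h1]
    exact isIntegral_algebraMap
  have hz : ∀ j, IsIntegral (Localization.Away w) (M.z j) := by
    intro j
    apply IsIntegral.of_pow (n := 7) (by norm_num)
    have hj : ∀ i j : ZMod 5, j = i ∨ j = i + 1 ∨ j = i + 2 ∨ j = i + 3 ∨ j = i + 4 := by decide
    rcases hj i j with rfl | rfl | rfl | rfl | rfl
    · refine hs (w * X 0) _ ?_
      rw [map_mul, ← hφ w, hwK, aeval_X]; rfl
    · refine hs (w * X 1) _ ?_
      rw [map_mul, ← hφ w, hwK, aeval_X]; rfl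
    · refine hs ((1 - X 1) * X 1) _ ?_
      rw [GF2_rel2]; simp
    · refine hs (X 0 + X 1 - 1) _ ?_
      rw [GF2_rel3]; simp
    · refine hs ((1 - X 0) * X 0) _ ?_
      rw [GF2_rel4]; simp
  have hB : ∀ b : M.B, (b : K) ∈ integralClosure (Localization.Away w) K := by
    rintro ⟨b, hb⟩
    change IsIntegral (Localization.Away w) b
    refine Algebra.adjoin_induction (p := fun b _ => IsIntegral (Localization.Away w) b)
      ?_ ?_ ?_ ?_ hb
    · rintro _ ⟨j, rfl⟩
      exact hz j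
    · intro r
      have h1 : algebraMap k K r = algebraMap (Localization.Away w) K
          (algebraMap (MvPolynomial (Fin 2) k) (Localization.Away w) (C r)) := by
        rw [hL, hφ, aeval_C]
      rw [h1]
      exact isIntegral_algebraMap
    · intro x y _ _ h1 h2; exact h1.add h2
    · intro x y _ _ h1 h2; exact h1.mul h2
  have hxT : IsIntegral (integralClosure (Localization.Away w) K) x :=
    IsIntegral.map_of_comp_eq
      (RingHom.codRestrict (M.B.val.toRingHom) (integralClosure (Localization.Away w) K) hB)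
      (RingHom.id K) rfl hx
  have hxL : IsIntegral (Localization.Away w) x := isIntegral_trans x hxT
  obtain ⟨m, hm'⟩ := IsIntegral.exists_multiple_integral_of_isLocalization
    (Submonoid.powers w) x hxL
  obtain ⟨N, hN⟩ := m.2
  refine ⟨N, ?_⟩
  have h3 : (m • x : K) = (M.z i ^ 7 * M.z (i + 1) ^ 7) ^ N * x := by
    rw [Submonoid.smul_def, Algebra.smul_def, ← hN]
    change algebraMap (MvPolynomial (Fin 2) k) K (w ^ N) * x = _
    rw [map_pow, hwK]
  rw [h3] at hm'
  exact hm'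

lemma GF2_mem_B (M : Model k K) (i : ZMod 5) (p : MvPolynomial (Fin 2) k) :
    aeval ![M.z i ^ 7, M.z (i + 1) ^ 7] p ∈ M.B := by
  have hz : ∀ j, M.z j ∈ M.B := fun j => Algebra.subset_adjoin ⟨j, rfl⟩
  induction p using MvPolynomial.induction_on with
  | C r => rw [aeval_C]; exact M.B.algebraMap_mem r
  | add p q hp hq => rw [map_add]; exact M.B.add_mem hp hq
  | mul_X p j hp =>
    rw [map_mul, aeval_X]
    refine M.B.mul_mem hp ?_
    fin_cases j
    · exact M.B.pow_mem (hz i) 7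
    · exact M.B.pow_mem (hz (i + 1)) 7

lemma GF2_local (M : Model k K) (a : ZMod 5 → ℕ) (ha : ∀ i, a i < 7) (c : K) (i : ZMod 5)
    (hc : c ∈ IntermediateField.adjoin k {M.z i ^ 7, M.z (i + 1) ^ 7})
    (hx : IsIntegral M.B (zm M.z a * c)) :
    ∃ m : ℕ, (M.z i ^ 7 * M.z (i + 1) ^ 7) ^ m * c ∈ M.B := by
  obtain ⟨N, hN⟩ := GF2_int M i ((zm M.z a * c) ^ 7) (hx.pow 7)
  letI : Algebra (MvPolynomial (Fin 2) k) K :=
    (aeval ![M.z i ^ 7, M.z (i + 1) ^ 7] : MvPolynomial (Fin 2) k →ₐ[k] K).toRingHom.toAlgebra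
  have hφ : ∀ p : MvPolynomial (Fin 2) k, algebraMap (MvPolynomial (Fin 2) k) K p =
      aeval ![M.z i ^ 7, M.z (i + 1) ^ 7] p := fun _ => rfl
  have hinj := GF2_inj M i
  set w : MvPolynomial (Fin 2) k := X 0 * X 1 with hw
  have hwK : algebraMap (MvPolynomial (Fin 2) k) K w = M.z i ^ 7 * M.z (i + 1) ^ 7 := by
    rw [hφ, hw, map_mul, aeval_X, aeval_X]; rfl
  let ψ : FractionRing (MvPolynomial (Fin 2) k) →ₐ[k] K := IsFractionRing.liftAlgHom hinj
  have hψ : ∀ p : MvPolynomial (Fin 2) k, ψ (algebraMap _ _ p) =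
      aeval ![M.z i ^ 7, M.z (i + 1) ^ 7] p := by
    intro p
    simp only [ψ, IsFractionRing.liftAlgHom_apply]
    exact IsFractionRing.lift_algebraMap _ p
  -- `c` is a quotient
  have hc' : c ∈ ψ.fieldRange := by
    refine (IntermediateField.adjoin_le_iff.2 ?_) hc
    rintro y (rfl | rfl)
    · exact ⟨algebraMap (MvPolynomial (Fin 2) k) _ (X 0), by
        change ψ _ = _
        rw [hψ, aeval_X]; rfl⟩
    · exact ⟨algebraMap (MvPolynomial (Fin 2) k) _ (X 1), by
        change ψ _ = _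
        rw [hψ, aeval_X]; rfl⟩
  obtain ⟨c0, hc0⟩ := hc'
  change ψ c0 = c at hc0
  set n := IsFractionRing.num (MvPolynomial (Fin 2) k) c0 with hn
  set d : MvPolynomial (Fin 2) k :=
    (IsFractionRing.den (MvPolynomial (Fin 2) k) c0 : MvPolynomial (Fin 2) k) with hd
  have hd0 : d ≠ 0 := nonZeroDivisors.ne_zero (IsFractionRing.den _ c0).2
  have hrel : IsRelPrime n d := IsFractionRing.num_den_reduced _ c0
  have hc1 : c0 = algebraMap _ _ n / algebraMap _ _ d := (IsFractionRing.mk'_num_den' _ c0).symm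
  set A := a (i + 2) + a (i + 3) + a (i + 4) with hA
  -- the integral element in the fraction field
  letI : Algebra (MvPolynomial (Fin 2) k) K :=
    (aeval ![M.z i ^ 7, M.z (i + 1) ^ 7] : MvPolynomial (Fin 2) k →ₐ[k] K).toRingHom.toAlgebra
  let ψ' : FractionRing (MvPolynomial (Fin 2) k) →ₐ[MvPolynomial (Fin 2) k] K :=
    { ψ.toRingHom with
      commutes' := fun p => hψ p }
  have hψ' : ∀ y, ψ' y = ψ y := fun _ => rfl
  set y0 : FractionRing (MvPolynomial (Fin 2) k) :=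
    algebraMap _ _ (w ^ N * GF2_G k a i) * c0 ^ 7 with hy0
  have hy : ψ' y0 = algebraMap (MvPolynomial (Fin 2) k) K w ^ A *
      ((M.z i ^ 7 * M.z (i + 1) ^ 7) ^ N * (zm M.z a * c) ^ 7) := by
    rw [hψ', hy0, map_mul, map_pow, hψ, hc0, map_mul, map_pow, ← hφ w, hwK, ← GF2_zm7]
    ring
  have hint : IsIntegral (MvPolynomial (Fin 2) k) (ψ' y0) := by
    rw [hy]
    exact IsIntegral.mul (isIntegral_algebraMap.pow A) hN
  have hint0 : IsIntegral (MvPolynomial (Fin 2) k) y0 :=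
    (isIntegral_algHom_iff ψ' ψ'.toRingHom.injective).1 hint
  obtain ⟨g, hg⟩ := (IsIntegrallyClosed.isIntegral_iff (R := MvPolynomial (Fin 2) k)).1 hint0
  have hdF : (algebraMap (MvPolynomial (Fin 2) k) (FractionRing (MvPolynomial (Fin 2) k))) d ≠ 0 := by
    intro h
    exact hd0 ((IsFractionRing.injective (MvPolynomial (Fin 2) k)
      (FractionRing (MvPolynomial (Fin 2) k))) (by rw [h, map_zero]))
  have hpoly : g * d ^ 7 = w ^ N * GF2_G k a i * n ^ 7 := by
    apply IsFractionRing.injective (MvPolynomial (Fin 2) k)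
      (FractionRing (MvPolynomial (Fin 2) k))
    rw [map_mul, hg, hy0, hc1, map_mul _ (w ^ N * GF2_G k a i) (n ^ 7), map_pow, map_pow]
    field_simp
  have hdvd : d ^ 7 ∣ w ^ N * GF2_G k a i := by
    apply IsRelPrime.dvd_of_dvd_mul_right (z := n ^ 7)
    · exact (IsRelPrime.pow hrel).symm
    · exact ⟨g, by rw [← hpoly]; ring⟩
  obtain ⟨m, hm⟩ := GF2_dvd d w hd0 (by
    intro q hq hqd
    refine GF2_key q hq (N + (a i + a (i + 1) + a (i + 2) + a (i + 4))) (a (i + 2)) (a (i + 4))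
      (a (i + 3)) (ha _) (ha _) (ha _) ?_
    refine ((pow_dvd_pow_of_dvd hqd 7).trans hdvd).trans ?_
    refine ⟨X 1 ^ (a i + a (i + 4)) * X 0 ^ (a (i + 1) + a (i + 2)), ?_⟩
    simp only [GF2_G, hw, mul_pow]
    ring)
  refine ⟨m, ?_⟩
  obtain ⟨e, he⟩ := hm
  have h1 : (M.z i ^ 7 * M.z (i + 1) ^ 7) ^ m * c =
      aeval ![M.z i ^ 7, M.z (i + 1) ^ 7] (e * n) := by
    rw [← hwK, ← map_pow, he, hφ, ← hc0, ← hψ, ← map_mul, hc1, ← hψ]
    congr 1
    rw [map_mul, map_mul]
    field_simp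
  rw [h1]
  exact GF2_mem_B M i _

/-- **Task GF2.** Integral isotypic elements are regular. -/
theorem GF2 (h7 : (7 : k) ≠ 0) (M : Model k K) (a : ZMod 5 → ℕ) (ha : ∀ i, a i < 7) (c : K)
    (hc : c ∈ IntermediateField.adjoin k {M.z 0 ^ 7, M.z 1 ^ 7})
    (hx : IsIntegral M.B (zm M.z a * c)) : c ∈ M.B := by
  clear h7
  have hz : ∀ j, M.z j ∈ M.B := fun j => Algebra.subset_adjoin ⟨j, rfl⟩
  -- the fields agree
  have hstep : ∀ i : ZMod 5, IntermediateField.adjoin k {M.z (i + 1) ^ 7, M.z (i + 2) ^ 7} ≤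
      IntermediateField.adjoin k {M.z i ^ 7, M.z (i + 1) ^ 7} := by
    intro i
    have h0 : M.z i ^ 7 ∈ IntermediateField.adjoin k {M.z i ^ 7, M.z (i + 1) ^ 7} :=
      IntermediateField.subset_adjoin _ _ (by simp)
    have h1 : M.z (i + 1) ^ 7 ∈ IntermediateField.adjoin k {M.z i ^ 7, M.z (i + 1) ^ 7} :=
      IntermediateField.subset_adjoin _ _ (by simp)
    rw [IntermediateField.adjoin_le_iff]
    rintro y (rfl | rfl)
    · exact h1
    · have h := M.rel (i + 1)
      have e1 : i + 1 - 1 = i := by ring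
      have e2 : i + 1 + 1 = i + 2 := by ring
      rw [e1, e2] at h
      have h2 : M.z (i + 2) ^ 7 = (1 - M.z (i + 1) ^ 7) / M.z i ^ 7 := by
        rw [eq_div_iff (pow_ne_zero _ (GF2_z_ne M i)), ← h]; ring
      rw [h2]
      exact IntermediateField.div_mem _ (IntermediateField.sub_mem _
        (IntermediateField.one_mem _) h1) h0
  have hfield : ∀ i : ZMod 5, c ∈ IntermediateField.adjoin k {M.z i ^ 7, M.z (i + 1) ^ 7} := by
    have h4 := hstep 4 hc
    have h3 := hstep 3 h4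
    have h2 := hstep 2 h3
    have h1 := hstep 1 h2
    intro i
    fin_cases i
    · exact hc
    · exact h1
    · exact h2
    · exact h3
    · exact h4
  -- the conductor
  let I : Ideal M.B :=
    { carrier := {b | (b : K) * c ∈ M.B}
      add_mem' := by
        intro x y hx hy
        change ((x + y : M.B) : K) * c ∈ M.B
        rw [AddMemClass.coe_add, add_mul]
        exact M.B.add_mem hx hy
      zero_mem' := by
        change ((0 : M.B) : K) * c ∈ M.B
        rw [ZeroMemClass.coe_zero, zero_mul]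
        exact M.B.zero_mem
      smul_mem' := by
        intro x y hy
        change ((x * y : M.B) : K) * c ∈ M.B
        rw [MulMemClass.coe_mul, mul_assoc]
        exact M.B.mul_mem x.2 hy }
  by_cases hI : I = ⊤
  · have h1 : (1 : M.B) ∈ I := by rw [hI]; trivial
    have h2 : ((1 : M.B) : K) * c ∈ M.B := h1
    rwa [OneMemClass.coe_one, one_mul] at h2
  · exfalso
    obtain ⟨m, hm, hIm⟩ := Ideal.exists_le_maximal I hI
    have hp := hm.isPrime
    let zz : ZMod 5 → M.B := fun j => ⟨M.z j, hz j⟩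
    have hadj : ∀ i, zz i ∈ m ∨ zz (i + 1) ∈ m := by
      intro i
      obtain ⟨n, hn⟩ := GF2_local M a ha c i (hfield i) hx
      have h1 : (zz i ^ 7 * zz (i + 1) ^ 7) ^ n ∈ I := hn
      have h2 := hp.mem_of_pow_mem _ (hIm h1)
      rcases hp.mem_or_mem h2 with h3 | h3
      · exact Or.inl (hp.mem_of_pow_mem _ h3)
      · exact Or.inr (hp.mem_of_pow_mem _ h3)
    have hno : ∀ i, ¬ (zz i ∈ m ∧ zz (i + 1) ∈ m) := by
      rintro i ⟨h1, h2⟩
      apply hp.ne_top
      rw [Ideal.eq_top_iff_one]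
      have h3 : (1 : M.B) = zz i ^ 7 + zz (i - 1) ^ 7 * zz (i + 1) ^ 7 := by
        apply Subtype.ext
        change (1 : K) = M.z i ^ 7 + M.z (i - 1) ^ 7 * M.z (i + 1) ^ 7
        rw [M.rel]
      rw [h3]
      exact m.add_mem (m.pow_mem_of_mem h1 7 (by norm_num))
        (m.mul_mem_left _ (m.pow_mem_of_mem h2 7 (by norm_num)))
    have a0 := hadj 0
    have a1 := hadj 1
    have a2 := hadj 2
    have a3 := hadj 3
    have a4 := hadj 4
    have b0 := hno 0
    have b1 := hno 1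
    have b2 := hno 2
    have b3 := hno 3
    have b4 := hno 4
    have e0 : (0 : ZMod 5) + 1 = 1 := rfl
    have e1 : (1 : ZMod 5) + 1 = 2 := rfl
    have e2 : (2 : ZMod 5) + 1 = 3 := rfl
    have e3 : (3 : ZMod 5) + 1 = 4 := rfl
    have e4 : (4 : ZMod 5) + 1 = 0 := rfl
    rw [e0] at a0 b0
    rw [e1] at a1 b1
    rw [e2] at a2 b2
    rw [e3] at a3 b3
    rw [e4] at a4 b4
    by_cases p0 : zz 0 ∈ m
    · have p1 : zz 1 ∉ m := fun h => b0 ⟨p0, h⟩
      have p2 : zz 2 ∈ m := a1.resolve_left p1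
      have p3 : zz 3 ∉ m := fun h => b2 ⟨p2, h⟩
      have p4 : zz 4 ∈ m := a3.resolve_left p3
      exact b4 ⟨p4, p0⟩
    · have p1 : zz 1 ∈ m := a0.resolve_left p0
      have p2 : zz 2 ∉ m := fun h => b1 ⟨p1, h⟩
      have p3 : zz 3 ∈ m := a2.resolve_left p2
      have p4 : zz 4 ∉ m := fun h => b3 ⟨p3, h⟩
      exact p0 (a4.resolve_left p4)

end

end Pool.Agent.H54R2.Ul
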