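import Pool.Agent.H54R2.Ul.Defs3

namespace Pool.Agent.H54R2.Ul

open MvPolynomial

noncomputable section

variable {k K : Type} [Field k] [Field K] [Algebra k K]

/-- the element `a T^t` of the homogeneous coordinate ring -/
def GG2_mk (G : Fil k K) (t : ℕ) : G.R t →ₗ[k] G.Rg where
  toFun a := ⟨Polynomial.monomial t (a : K), by
    intro n
    rw [Polynomial.coeff_monomial]
    split_ifs with h
    · subst h; exact a.2
    · exact Submodule.zero_mem _⟩
  map_add' a b := by
    apply Subtype.ext
    simp
  map_smul' c a := by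
    apply Subtype.ext
    change Polynomial.monomial t (c • (a : K)) = c • Polynomial.monomial t (a : K)
    rw [Polynomial.smul_monomial]

lemma GG2_mk_mul (G : Fil k K) {s t : ℕ} (a : G.R s) (b : G.R t) (w : G.R ((s + t : ℕ) : ℤ))
    (hw : (w : K) = a * b) : GG2_mk G (s + t) w = GG2_mk G s a * GG2_mk G t b := by
  apply Subtype.ext
  change Polynomial.monomial (s + t) (w : K) = Polynomial.monomial s (a : K) * Polynomial.monomial t (b : K)
  rw [Polynomial.monomial_mul_monomial, hw]

/-- **Task GG2.** The homogeneous coordinate ring is Noetherian. -/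
theorem GG2 (G : Fil k K) (hfd : ∀ t : ℤ, Module.Finite k (G.R t))
    (hgen : ∀ t : ℤ, 0 ≤ t →
      G.R (t + 1) ≤ Submodule.span k {x | ∃ a ∈ G.R 1, ∃ b ∈ G.R t, x = a * b}) :
    IsNoetherianRing G.Rg := by
  classical
  have h1 := (hfd ((1 : ℕ) : ℤ)).fg_top
  obtain ⟨s, hs⟩ := h1
  let S : Finset G.Rg := s.image (GG2_mk G 1)
  let B : Subalgebra k G.Rg := Algebra.adjoin k (S : Set G.Rg)
  have hone : ∀ a : G.R ((1 : ℕ) : ℤ), GG2_mk G 1 a ∈ B := by
    intro a
    have h2 : (⊤ : Submodule k (G.R ((1 : ℕ) : ℤ))) ≤ (Subalgebra.toSubmodule B).comap (GG2_mk G 1) := by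
      rw [← hs, Submodule.span_le]
      intro x hx
      exact Algebra.subset_adjoin (Finset.mem_coe.2 (Finset.mem_image_of_mem _ hx))
    exact h2 Submodule.mem_top
  have hall : ∀ (t : ℕ) (a : G.R (t : ℤ)), GG2_mk G t a ∈ B := by
    intro t
    induction t with
    | zero =>
      intro a
      obtain ⟨c, hc⟩ := G.zero_deg a.1 a.2
      have : GG2_mk G 0 a = algebraMap k G.Rg c := by
        apply Subtype.ext
        change Polynomial.monomial 0 (a : K) = algebraMap k (Polynomial K) c
        rw [hc, Polynomial.monomial_zero_left, Polynomial.algebraMap_apply]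
      rw [this]
      exact B.algebraMap_mem c
    | succ t ih =>
      intro a
      have ha := hgen t (Int.natCast_nonneg t) (by have := a.2; push_cast at this; exact this)
      -- the set of values x in R (t+1) with monomial in B
      let Q : Submodule k K := ((Subalgebra.toSubmodule B).comap (GG2_mk G (t + 1))).map (G.R ((t + 1 : ℕ) : ℤ)).subtype
      have hle : Submodule.span k {x | ∃ a ∈ G.R 1, ∃ b ∈ G.R t, x = a * b} ≤ Q := by
        rw [Submodule.span_le]
        rintro _ ⟨x, hx, y, hy, rfl⟩
        have hxy : x * y ∈ G.R ((t + 1 : ℕ) : ℤ) := by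
          have := G.mul_mem hx hy
          rw [add_comm] at this
          push_cast
          exact this
        refine ⟨⟨x * y, hxy⟩, ?_, rfl⟩
        change GG2_mk G (t + 1) ⟨x * y, hxy⟩ ∈ B
        rw [GG2_mk_mul G (s := t) (t := 1) ⟨y, hy⟩ ⟨x, by exact_mod_cast hx⟩ ⟨x * y, hxy⟩ (mul_comm _ _)]
        exact B.mul_mem (ih _) (hone _)
      obtain ⟨b, hb, hba⟩ := hle ha
      have : b = a := Subtype.ext hba
      rw [← this]
      exact hb
  have htop : B = ⊤ := by
    rw [eq_top_iff]
    rintro f -
    have hf : f = ∑ n ∈ f.1.support, GG2_mk G n ⟨f.1.coeff n, f.2 n⟩ := by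
      apply Subtype.ext
      rw [AddSubmonoidClass.coe_finsetSum]
      exact f.1.as_sum_support
    rw [hf]
    exact B.sum_mem fun n _ => hall n _
  have hft : Algebra.FiniteType k G.Rg := ⟨⟨S, htop⟩⟩
  exact Algebra.FiniteType.isNoetherianRing k G.Rg

end

end Pool.Agent.H54R2.Ul
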