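import Pool.Agent.H54R2.Ul.Defs3
import Pool.Agent.H54R2.Ul.St.GH1
import Pool.Agent.H54R2.Ul.St.GH3

/-! # ULRICH task GH2: points with values in a square-zero extension -/

namespace Pool.Agent.H54R2.Ul

open MvPolynomial

noncomputable section

variable {k K : Type} [Field k] [Field K] [Algebra k K]

theorem GH2_sg (c : Fin 12) (i : ZMod 5) : chSg c i * chSg c i = 1 := by
  revert c i
  decide

theorem GH2_pow7 {Q : Type} [CommRing Q] (x d : Q) (h : d * d = 0) :
    (x + d) ^ 7 = x ^ 7 + 7 * x ^ 6 * d := by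
  linear_combination (21 * x ^ 5 + 35 * x ^ 4 * d + 35 * x ^ 3 * d ^ 2 + 21 * x ^ 2 * d ^ 3 +
    7 * x * d ^ 4 + d ^ 5) * h

/-- the set of elements which are constant up to the span of `a, b` -/
def GH2_P (k : Type) [Field k] {Q : Type} [CommRing Q] [Algebra k Q] (ev : Q →ₐ[k] k)
    (a b x : Q) : Prop :=
  x - algebraMap k Q (ev x) ∈ Submodule.span k {a, b}

theorem GH2_ev_span {Q : Type} [CommRing Q] [Algebra k Q] (ev : Q →ₐ[k] k) {a b : Q}
    (ha : ev a = 0) (hb : ev b = 0) {x : Q} (hx : x ∈ Submodule.span k {a, b}) : ev x = 0 := by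
  rw [Submodule.mem_span_pair] at hx
  obtain ⟨r, s, rfl⟩ := hx
  simp [ha, hb]

theorem GH2_mul {Q : Type} [CommRing Q] [Algebra k Q] (ev : Q →ₐ[k] k)
    (hsq : ∀ x y, ev x = 0 → ev y = 0 → x * y = 0) {a b : Q} (ha : ev a = 0) (hb : ev b = 0)
    {x y : Q} (hx : GH2_P k ev a b x) (hy : GH2_P k ev a b y) : GH2_P k ev a b (x * y) := by
  unfold GH2_P at *
  have hx0 := GH2_ev_span ev ha hb hx
  have hy0 := GH2_ev_span ev ha hb hy
  have h0 := hsq _ _ hx0 hy0
  have : x * y - algebraMap k Q (ev (x * y)) =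
      (ev x) • (y - algebraMap k Q (ev y)) + (ev y) • (x - algebraMap k Q (ev x)) := by
    rw [map_mul, map_mul, Algebra.smul_def, Algebra.smul_def]
    linear_combination h0
  rw [this]
  exact Submodule.add_mem _ (Submodule.smul_mem _ _ hy) (Submodule.smul_mem _ _ hx)

theorem GH2_one {Q : Type} [CommRing Q] [Algebra k Q] (ev : Q →ₐ[k] k) (a b : Q) :
    GH2_P k ev a b 1 := by
  unfold GH2_P
  simp

theorem GH2_int {Q : Type} [CommRing Q] [Algebra k Q] (ev : Q →ₐ[k] k) (a b : Q) (n : ℤ) :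
    GH2_P k ev a b (n : Q) := by
  unfold GH2_P
  simp

theorem GH2_powP {Q : Type} [CommRing Q] [Algebra k Q] (ev : Q →ₐ[k] k)
    (hsq : ∀ x y, ev x = 0 → ev y = 0 → x * y = 0) {a b : Q} (ha : ev a = 0) (hb : ev b = 0)
    {x : Q} (hx : GH2_P k ev a b x) (n : ℕ) : GH2_P k ev a b (x ^ n) := by
  induction n with
  | zero => simpa using GH2_one ev a b
  | succ n ih => rw [pow_succ]; exact GH2_mul ev hsq ha hb ih hx

theorem GH2_prodP {Q : Type} [CommRing Q] [Algebra k Q] (ev : Q →ₐ[k] k)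
    (hsq : ∀ x y, ev x = 0 → ev y = 0 → x * y = 0) {a b : Q} (ha : ev a = 0) (hb : ev b = 0)
    {ι : Type} (s : Finset ι) (f : ι → Q) (hf : ∀ i, GH2_P k ev a b (f i)) :
    GH2_P k ev a b (∏ i ∈ s, f i) := by
  classical
  induction s using Finset.induction_on with
  | empty => simpa using GH2_one ev a b
  | insert i s hi ih => rw [Finset.prod_insert hi]; exact GH2_mul ev hsq ha hb (hf i) ih

/-- **Task GH2.** Points with values in a square-zero extension. -/
theorem GH2 (h7 : (7 : k) ≠ 0) {Q : Type} [CommRing Q] [Algebra k Q] (ev : Q →ₐ[k] k)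
    (hsq : ∀ x y, ev x = 0 → ev y = 0 → x * y = 0) (e : V22 → Q)
    (he : ∀ f ∈ II k, aeval e f = 0) (hne : ∃ v, ev (e v) ≠ 0) :
    ∃ w a b : Q, ev w = 0 ∧ ev a = 0 ∧ ev b = 0 ∧
      ∀ v, e v - algebraMap k Q (ev (e v)) - (ev (e v)) • w ∈ Submodule.span k {a, b} := by
  obtain ⟨G1, G2, G3⟩ := GH1 (k := k) e he
  -- a chart
  obtain ⟨c, hc⟩ : ∃ c : Fin 12, ev (e (chC c)) ≠ 0 := by
    obtain ⟨v, hv⟩ := hne
    by_contra hcon
    push Not at hcon
    obtain ⟨c, c', s, s', h⟩ := G3 v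
    have h1 := congrArg ev h
    rw [map_pow, map_add, map_mul, map_mul, map_pow, map_pow, hcon c, hcon c'] at h1
    apply hv
    have : ev (e v) ^ 7 = 0 := by rw [h1]; ring
    exact pow_eq_zero_iff (by norm_num) |>.1 this
  set g := e (chC c) with hg
  set γ := ev g with hγ
  set w : Q := γ⁻¹ • g - 1 with hw
  have hevw : ev w = 0 := by
    rw [hw, map_sub, map_smul, map_one, smul_eq_mul, ← hγ, inv_mul_cancel₀ hc, sub_self]
  have hww : w * w = 0 := hsq w w hevw hevw
  have hgw : g = γ • (1 + w) := by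
    rw [hw, add_sub_cancel, smul_smul, mul_inv_cancel₀ hc, one_smul]
  set gi : Q := γ⁻¹ • (1 - w) with hgi
  have hggi : g * gi = 1 := by
    rw [hgi, hgw, smul_mul_smul_comm, mul_inv_cancel₀ hc, one_smul]
    linear_combination -hww
  -- the affine coordinates
  set zz : ZMod 5 → Q := fun i => (chSg c i : Q) * e (chZ c i) * gi with hzz
  have hrel : ∀ i, zz i ^ 7 + zz (i - 1) ^ 7 * zz (i + 1) ^ 7 = 1 := by
    intro i
    have h1 := G1 c i
    have h2 : g ^ 7 * gi ^ 7 = 1 := by rw [← mul_pow, hggi, one_pow]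
    have h3 : g ^ 14 * gi ^ 14 = 1 := by rw [← mul_pow, hggi, one_pow]
    simp only [hzz]
    rw [← hg] at h1
    set S := (chSg c i : Q) * e (chZ c i)
    set S1 := (chSg c (i - 1) : Q) * e (chZ c (i - 1))
    set S2 := (chSg c (i + 1) : Q) * e (chZ c (i + 1))
    linear_combination gi ^ 14 * h1 + h3 - S ^ 7 * gi ^ 7 * h2
  obtain ⟨q, hq⟩ : ∃ q : ZMod 5 → k, ∀ i, q i = ev (zz i) := ⟨_, fun _ => rfl⟩
  obtain ⟨d, hd⟩ : ∃ d : ZMod 5 → Q, ∀ i, d i = zz i - algebraMap k Q (q i) :=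
    ⟨_, fun _ => rfl⟩
  have hevd : ∀ i, ev (d i) = 0 := by
    intro i
    simp [hd, hq]
  have hqrel : ∀ i, q i ^ 7 + q (i - 1) ^ 7 * q (i + 1) ^ 7 = 1 := by
    intro i
    have := congrArg ev (hrel i)
    rw [map_add, map_mul, map_pow, map_pow, map_pow, map_one, ← hq, ← hq, ← hq] at this
    exact this
  have hdrel : ∀ i, (q i ^ 6) • d i + (q (i - 1) ^ 6 * q (i + 1) ^ 7) • d (i - 1) +
      (q (i - 1) ^ 7 * q (i + 1) ^ 6) • d (i + 1) = 0 := by
    intro i
    have hz : ∀ j, zz j ^ 7 = (algebraMap k Q (q j)) ^ 7 +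
        7 * (algebraMap k Q (q j)) ^ 6 * d j := by
      intro j
      have : zz j = algebraMap k Q (q j) + d j := by simp [hd]
      rw [this]
      exact GH2_pow7 _ _ (hsq _ _ (hevd j) (hevd j))
    have h1 := hrel i
    rw [hz, hz, hz] at h1
    have h2 : (algebraMap k Q (q i)) ^ 7 + (algebraMap k Q (q (i - 1))) ^ 7 *
        (algebraMap k Q (q (i + 1))) ^ 7 = 1 := by
      have h2' := congrArg (algebraMap k Q) (hqrel i)
      simpa only [map_add, map_mul, map_pow, map_one] using h2'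
    have h3 : d (i - 1) * d (i + 1) = 0 := hsq _ _ (hevd _) (hevd _)
    have h4 : (7 : k) • ((q i ^ 6) • d i + (q (i - 1) ^ 6 * q (i + 1) ^ 7) • d (i - 1) +
      (q (i - 1) ^ 7 * q (i + 1) ^ 6) • d (i + 1)) = 0 := by
      rw [Algebra.smul_def, Algebra.smul_def, Algebra.smul_def, Algebra.smul_def]
      have h7' : algebraMap k Q (7 : k) = 7 := map_ofNat _ _
      rw [h7']
      simp only [map_pow, map_mul]
      linear_combination h1 - h2 - 49 * (algebraMap k Q (q (i - 1))) ^ 6 *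
        (algebraMap k Q (q (i + 1))) ^ 6 * h3
    exact (smul_eq_zero.1 h4).resolve_left h7
  obtain ⟨i0, j0, hspan⟩ := GH3 h7 q hqrel d hdrel
  refine ⟨w, d i0, d j0, hevw, hevd i0, hevd j0, ?_⟩
  intro v
  -- the normalised coordinates
  have hzP : ∀ i, GH2_P k ev (d i0) (d j0) (e (chZ c i) * gi) := by
    intro i
    have h1 : GH2_P k ev (d i0) (d j0) (zz i) := by
      have := hspan i
      unfold GH2_P
      rwa [← hq, ← hd]
    have h2 : e (chZ c i) * gi = (chSg c i : Q) * zz i := by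
      have h3 : ((chSg c i : ℤ) : Q) * ((chSg c i : ℤ) : Q) = 1 := by
        rw [← Int.cast_mul, GH2_sg, Int.cast_one]
      simp only [hzz]
      linear_combination -(e (chZ c i) * gi) * h3
    rw [h2]
    exact GH2_mul ev hsq (hevd i0) (hevd j0) (GH2_int ev _ _ _) h1
  set PP : Q := ∏ i, (e (chZ c i) * gi) ^ chE c v i with hPP
  have hPPP : GH2_P k ev (d i0) (d j0) PP :=
    GH2_prodP ev hsq (hevd i0) (hevd j0) _ _
      (fun i => GH2_powP ev hsq (hevd i0) (hevd j0) (hzP i) _)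
  have hev : e v = g * PP := by
    have h1 := G2 c v
    have h2 : g ^ (∑ i, chE c v i) * gi ^ (∑ i, chE c v i) = 1 := by
      rw [← mul_pow, hggi, one_pow]
    have h3 : PP = (∏ i, e (chZ c i) ^ chE c v i) * gi ^ (∑ i, chE c v i) := by
      rw [hPP, ← Finset.prod_pow_eq_pow_sum, ← Finset.prod_mul_distrib]
      refine Finset.prod_congr rfl (fun i _ => ?_)
      rw [mul_pow]
    rw [h3]
    rw [← hg] at h1
    linear_combination gi ^ (∑ i, chE c v i) * h1 - e v * h2
  have hevv : ev (e v) = γ * ev PP := by rw [hev, map_mul, ← hγ]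
  set μ := PP - algebraMap k Q (ev PP) with hμ
  have hμs : μ ∈ Submodule.span k {d i0, d j0} := hPPP
  have hμ0 : ev μ = 0 := GH2_ev_span ev (hevd i0) (hevd j0) hμs
  have hwμ : w * μ = 0 := hsq _ _ hevw hμ0
  have : e v - algebraMap k Q (ev (e v)) - (ev (e v)) • w = γ • μ := by
    rw [hevv, hev]
    have hPP' : PP = algebraMap k Q (ev PP) + μ := by rw [hμ]; ring
    have hgw' : g = algebraMap k Q γ * (1 + w) := by rw [← Algebra.smul_def]; exact hgw
    rw [Algebra.smul_def, Algebra.smul_def, map_mul]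
    generalize algebraMap k Q (ev PP) = P at *
    generalize algebraMap k Q γ = Γ at *
    rw [hPP', hgw']
    linear_combination Γ * hwμ
  rw [this]
  exact Submodule.smul_mem _ _ hμs

end

end Pool.Agent.H54R2.Ul
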