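import Pool.Agent.H54R2.Ul.Defs3

namespace Pool.Agent.H54R2.Ul

open MvPolynomial

noncomputable section

variable {k K : Type} [Field k] [Field K] [Algebra k K]

lemma GH3_idx : ∀ i : ZMod 5, i - 1 = i + 4 := by decide

lemma GH3_cases : ∀ j l : ZMod 5, l = j ∨ l = j + 1 ∨ l = j + 2 ∨ l = j + 3 ∨ l = j + 4 := by
  decide

lemma GH3_mem {V : Type} [AddCommGroup V] [Module k V] {W : Submodule k V} {a : k} {v : V}
    (ha : a ≠ 0) (h : a • v ∈ W) : v ∈ W := by
  have := W.smul_mem a⁻¹ h
  rwa [smul_smul, inv_mul_cancel₀ ha, one_smul] at this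

/-- **Task GH3.** Linear algebra of the Jacobian matrix. -/
theorem GH3 (h7 : (7 : k) ≠ 0) {V : Type} [AddCommGroup V] [Module k V] (q : ZMod 5 → k)
    (hq : ∀ i, q i ^ 7 + q (i - 1) ^ 7 * q (i + 1) ^ 7 = 1) (d : ZMod 5 → V)
    (hd : ∀ i, (q i ^ 6) • d i + (q (i - 1) ^ 6 * q (i + 1) ^ 7) • d (i - 1) +
      (q (i - 1) ^ 7 * q (i + 1) ^ 6) • d (i + 1) = 0) :
    ∃ i j : ZMod 5, ∀ l, d l ∈ Submodule.span k {d i, d j} := by
  clear h7
  set s : ZMod 5 → k := fun i => q i ^ 7 with hs
  set D : ZMod 5 → V := fun i => q i ^ 6 • d i with hD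
  have hq' : ∀ i, s i + s (i + 4) * s (i + 1) = 1 := by
    intro i
    have := hq i
    rwa [GH3_idx] at this
  have hd' : ∀ i, D i + s (i + 1) • D (i + 4) + s (i + 4) • D (i + 1) = 0 := by
    intro i
    have := hd i
    rw [GH3_idx] at this
    simp only [hs, hD, smul_smul]
    rw [mul_comm (q (i + 1) ^ 7)]
    exact this
  by_cases hall : ∀ i, q i ≠ 0
  · refine ⟨0, 1, ?_⟩
    set W := Submodule.span k {d 0, d 1} with hW
    have hs0 : ∀ i, s i ≠ 0 := fun i => pow_ne_zero 7 (hall i)
    have m0 : D 0 ∈ W := W.smul_mem _ (Submodule.subset_span (by simp))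
    have m1 : D 1 ∈ W := W.smul_mem _ (Submodule.subset_span (by simp))
    have m2 : D 2 ∈ W := by
      have h := hd' 1
      have e1 : (1 : ZMod 5) + 1 = 2 := by decide
      have e2 : (1 : ZMod 5) + 4 = 0 := by decide
      rw [e1, e2] at h
      apply GH3_mem (hs0 0)
      have h' : s 0 • D 2 = -(D 1 + s 2 • D 0) := by
        rw [eq_neg_iff_add_eq_zero, add_comm]; exact h
      rw [h']
      exact W.neg_mem (W.add_mem m1 (W.smul_mem _ m0))
    have m4 : D 4 ∈ W := by
      have h := hd' 0
      have e1 : (0 : ZMod 5) + 1 = 1 := by decide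
      have e2 : (0 : ZMod 5) + 4 = 4 := by decide
      rw [e1, e2] at h
      apply GH3_mem (hs0 1)
      have h' : s 1 • D 4 = -(D 0 + s 4 • D 1) := by
        rw [eq_neg_iff_add_eq_zero, ← h]; abel
      rw [h']
      exact W.neg_mem (W.add_mem m0 (W.smul_mem _ m1))
    have m3 : D 3 ∈ W := by
      have h := hd' 2
      have e1 : (2 : ZMod 5) + 1 = 3 := by decide
      have e2 : (2 : ZMod 5) + 4 = 1 := by decide
      rw [e1, e2] at h
      apply GH3_mem (hs0 1)
      have h' : s 1 • D 3 = -(D 2 + s 3 • D 1) := by
        rw [eq_neg_iff_add_eq_zero, add_comm]; exact h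
      rw [h']
      exact W.neg_mem (W.add_mem m2 (W.smul_mem _ m1))
    have hDm : ∀ l, D l ∈ W := by
      intro l
      rcases GH3_cases 0 l with h | h | h | h | h
      · rw [h]; exact m0
      · rw [h, zero_add]; exact m1
      · rw [h, zero_add]; exact m2
      · rw [h, zero_add]; exact m3
      · rw [h, zero_add]; exact m4
    exact fun l => GH3_mem (pow_ne_zero 6 (hall l)) (hDm l)
  · push Not at hall
    obtain ⟨j, hj⟩ := hall
    have e14 : j + 1 + 4 = j := by rw [add_assoc]; have : (1 : ZMod 5) + 4 = 0 := by decide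
                                   rw [this, add_zero]
    have e11 : j + 1 + 1 = j + 2 := by rw [add_assoc]; congr 1
    have e21 : j + 2 + 1 = j + 3 := by rw [add_assoc]; congr 1
    have e24 : j + 2 + 4 = j + 1 := by rw [add_assoc]; congr 1
    have e31 : j + 3 + 1 = j + 4 := by rw [add_assoc]; congr 1
    have e34 : j + 3 + 4 = j + 2 := by rw [add_assoc]; congr 1
    have e41 : j + 4 + 1 = j := by rw [add_assoc]; have : (4 : ZMod 5) + 1 = 0 := by decide
                                   rw [this, add_zero]
    have e44 : j + 4 + 4 = j + 3 := by rw [add_assoc]; congr 1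
    have sj : s j = 0 := by simp only [hs, hj]; norm_num
    have Dj : D j = 0 := by simp only [hD, hj]; norm_num
    have s1 : s (j + 1) = 1 := by
      have := hq' (j + 1)
      rw [e14, sj, zero_mul, add_zero] at this
      exact this
    have s4 : s (j + 4) = 1 := by
      have := hq' j
      rw [sj, s1, zero_add, mul_one] at this
      exact this
    have q1 : q (j + 1) ≠ 0 := by
      intro h
      simp only [hs, h] at s1
      norm_num at s1
    have q4 : q (j + 4) ≠ 0 := by
      intro h
      simp only [hs, h] at s4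
      norm_num at s4
    have D1 : D (j + 1) = 0 := by
      have := hd' (j + 1)
      rw [e14, e11, Dj, sj, smul_zero, zero_smul, add_zero, add_zero] at this
      exact this
    have D4 : D (j + 4) = 0 := by
      have := hd' (j + 4)
      rw [e41, e44, Dj, sj, smul_zero, zero_smul, add_zero, add_zero] at this
      exact this
    have d1 : d (j + 1) = 0 := (smul_eq_zero.1 D1).resolve_left (pow_ne_zero 6 q1)
    have d4 : d (j + 4) = 0 := (smul_eq_zero.1 D4).resolve_left (pow_ne_zero 6 q4)
    have D23 : D (j + 2) + D (j + 3) = 0 := by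
      have := hd' (j + 2)
      rw [e21, e24, D1, s1, smul_zero, add_zero, one_smul] at this
      exact this
    by_cases q2 : q (j + 2) = 0
    · have D2 : D (j + 2) = 0 := by simp only [hD, q2]; norm_num
      have s2 : s (j + 2) = 0 := by simp only [hs, q2]; norm_num
      have D3 : D (j + 3) = 0 := by rw [D2, zero_add] at D23; exact D23
      have s3 : s (j + 3) = 1 := by
        have := hq' (j + 3)
        rw [e34, s2, zero_mul, add_zero] at this
        exact this
      have q3 : q (j + 3) ≠ 0 := by
        intro h
        simp only [hs, h] at s3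
        norm_num at s3
      have d3 : d (j + 3) = 0 := (smul_eq_zero.1 D3).resolve_left (pow_ne_zero 6 q3)
      refine ⟨j, j + 2, fun l => ?_⟩
      rcases GH3_cases j l with h | h | h | h | h <;> rw [h]
      · exact Submodule.subset_span (by simp)
      · rw [d1]; exact Submodule.zero_mem _
      · exact Submodule.subset_span (by simp)
      · rw [d3]; exact Submodule.zero_mem _
      · rw [d4]; exact Submodule.zero_mem _
    · by_cases q3 : q (j + 3) = 0
      · have D3 : D (j + 3) = 0 := by simp only [hD, q3]; norm_num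
        have D2 : D (j + 2) = 0 := by rw [D3, add_zero] at D23; exact D23
        have d2 : d (j + 2) = 0 := (smul_eq_zero.1 D2).resolve_left (pow_ne_zero 6 q2)
        refine ⟨j, j + 3, fun l => ?_⟩
        rcases GH3_cases j l with h | h | h | h | h <;> rw [h]
        · exact Submodule.subset_span (by simp)
        · rw [d1]; exact Submodule.zero_mem _
        · rw [d2]; exact Submodule.zero_mem _
        · exact Submodule.subset_span (by simp)
        · rw [d4]; exact Submodule.zero_mem _
      · refine ⟨j, j + 2, fun l => ?_⟩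
        rcases GH3_cases j l with h | h | h | h | h <;> rw [h]
        · exact Submodule.subset_span (by simp)
        · rw [d1]; exact Submodule.zero_mem _
        · exact Submodule.subset_span (by simp)
        · apply GH3_mem (pow_ne_zero 6 q3)
          have h' : q (j + 3) ^ 6 • d (j + 3) = -(q (j + 2) ^ 6 • d (j + 2)) := by
            rw [eq_neg_iff_add_eq_zero, add_comm]; exact D23
          rw [h']
          exact Submodule.neg_mem _ (Submodule.smul_mem _ _ (Submodule.subset_span (by simp)))
        · rw [d4]; exact Submodule.zero_mem _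

end

end Pool.Agent.H54R2.Ul
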