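import Pool.Agent.H54R2.Ul.Defs3
import Pool.Agent.H54R2.Ul.St.GH2

/-! # ULRICH task GH5: tangent spaces of the cone (helper804) -/

namespace Pool.Agent.H54R2.Ul

open MvPolynomial

noncomputable section

variable {k K : Type} [Field k] [Field K] [Algebra k K]

/-- the coordinate functional on `T` -/
def GH5_l (T : Submodule k (V22 → k)) (v : V22) : T →ₗ[k] k :=
  (LinearMap.proj v).comp T.subtype

/-- the point with values in the square-zero extension -/
def GH5_e (P : V22 → k) (T : Submodule k (V22 → k)) (v : V22) :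
    TrivSqZeroExt k (T →ₗ[k] k) :=
  TrivSqZeroExt.inl (P v) + TrivSqZeroExt.inr (GH5_l T v)

theorem GH5_fst (P : V22 → k) (T : Submodule k (V22 → k)) (f : MvPolynomial V22 k) :
    (aeval (GH5_e P T) f).fst = eval P f := by
  induction f using MvPolynomial.induction_on with
  | C a => simp [TrivSqZeroExt.algebraMap_eq_inl]
  | add p q hp hq => simp [hp, hq]
  | mul_X p i hp => simp [hp, GH5_e]

theorem GH5_snd (P : V22 → k) (T : Submodule k (V22 → k)) (f : MvPolynomial V22 k) :
    (aeval (GH5_e P T) f).snd = ∑ j, eval P (pderiv j f) • GH5_l T j := by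
  induction f using MvPolynomial.induction_on with
  | C a => simp [TrivSqZeroExt.algebraMap_eq_inl]
  | add p q hp hq => simp [hp, hq, add_smul, Finset.sum_add_distrib]
  | mul_X p i hp =>
    rw [map_mul, TrivSqZeroExt.snd_mul, hp, GH5_fst, aeval_X]
    have h1 : (GH5_e P T i).snd = GH5_l T i := by simp [GH5_e]
    have h2 : (GH5_e P T i).fst = P i := by simp [GH5_e]
    rw [h1, h2]
    have h3 : ∀ j, eval P (pderiv j (p * X i)) • GH5_l T j =
        P i • (eval P (pderiv j p) • GH5_l T j) + (if j = i then eval P p • GH5_l T i else 0) := by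
      intro j
      rw [Derivation.leibniz, pderiv_X, map_add, smul_eq_mul, smul_eq_mul, map_mul, map_mul,
        eval_X, add_smul, add_comm, mul_smul]
      congr 1
      by_cases hj : j = i
      · subst hj; simp
      · have : (Pi.single j (1 : MvPolynomial V22 k) : V22 → MvPolynomial V22 k) i = 0 :=
          Pi.single_eq_of_ne (fun h => hj h.symm) _
        rw [this]
        simp [hj]
    rw [Finset.sum_congr rfl fun j _ => h3 j, Finset.sum_add_distrib, Finset.sum_ite_eq',
      if_pos (Finset.mem_univ _), ← Finset.smul_sum, op_smul_eq_smul, add_comm]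

/-- **Task GH5.** Smoothness of the projective surface (tangent spaces of the cone). -/
theorem GH5 (h7 : (7 : k) ≠ 0) (P : V22 → k) (hP : ∀ f ∈ II k, eval P f = 0) (hP0 : P ≠ 0)
    (T : Submodule k (V22 → k))
    (hT : ∀ v ∈ T, ∀ f ∈ II k, ∑ j, eval P (pderiv j f) * v j = 0) :
    Module.finrank k T ≤ 3 := by
  obtain ⟨v0, hv0⟩ : ∃ v, P v ≠ 0 := by
    by_contra h
    push Not at h
    exact hP0 (funext h)
  obtain ⟨w, a, b, -, -, -, hwab⟩ := GH2 h7 (TrivSqZeroExt.fstHom k k (T →ₗ[k] k))
    (by
      intro x y hx hy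
      have hx' : x.fst = 0 := hx
      have hy' : y.fst = 0 := hy
      apply TrivSqZeroExt.ext
      · rw [TrivSqZeroExt.fst_mul, hx', zero_mul, TrivSqZeroExt.fst_zero]
      · rw [TrivSqZeroExt.snd_mul, hx', hy', TrivSqZeroExt.snd_zero]
        simp)
    (GH5_e P T)
    (by
      intro f hf
      apply TrivSqZeroExt.ext
      · rw [GH5_fst, hP f hf, TrivSqZeroExt.fst_zero]
      · rw [GH5_snd, TrivSqZeroExt.snd_zero]
        ext t
        have h1 := hT t.1 t.2 f hf
        simp only [LinearMap.sum_apply, LinearMap.smul_apply, smul_eq_mul, LinearMap.zero_apply]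
        exact h1)
    ⟨v0, by
      have : (TrivSqZeroExt.fstHom k k (T →ₗ[k] k)) (GH5_e P T v0) = P v0 := by
        simp [GH5_e]
      rw [this]; exact hv0⟩
  -- the linear map `T → k³`
  let L : T →ₗ[k] (Fin 3 → k) := LinearMap.pi ![w.snd, a.snd, b.snd]
  have hinj : Function.Injective L := by
    rw [← LinearMap.ker_eq_bot, LinearMap.ker_eq_bot']
    intro t ht
    have hw : w.snd t = 0 := congrFun ht 0
    have ha : a.snd t = 0 := congrFun ht 1
    have hb : b.snd t = 0 := congrFun ht 2
    apply Subtype.ext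
    funext v
    have h1 := hwab v
    have h2 : (TrivSqZeroExt.fstHom k k (T →ₗ[k] k)) (GH5_e P T v) = P v := by simp [GH5_e]
    rw [h2, Submodule.mem_span_pair] at h1
    obtain ⟨α, β, h3⟩ := h1
    have h4 := congrArg TrivSqZeroExt.snd h3
    have h5 : (α • a.snd + β • b.snd : T →ₗ[k] k) = GH5_l T v - P v • w.snd := by
      have h6 : (GH5_e P T v - (algebraMap k (TrivSqZeroExt k (T →ₗ[k] k))) (P v) - P v • w).snd =
          GH5_l T v - P v • w.snd := by
        simp [GH5_e, TrivSqZeroExt.algebraMap_eq_inl]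
      rw [← h6, ← h4]
      simp
    have h7 := LinearMap.congr_fun h5 t
    simp only [LinearMap.add_apply, LinearMap.smul_apply, LinearMap.sub_apply, hw, ha, hb,
      smul_zero, add_zero, sub_zero] at h7
    exact h7.symm
  have := LinearMap.finrank_le_finrank_of_injective hinj
  simpa using this

end

end Pool.Agent.H54R2.Ul
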