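import Pool.Agent.H54R2.Ul.Defs3
import Pool.Agent.H54R2.Ul.St.GA

namespace Pool.Agent.H54R2.Ul

open MvPolynomial

noncomputable section

variable {k K : Type} [Field k] [Field K] [Algebra k K]

lemma GI1_forall {P : ZMod 5 → Prop} (h0 : P 0) (h1 : P 1) (h2 : P 2) (h3 : P 3) (h4 : P 4) :
    ∀ i, P i := by
  intro i
  fin_cases i
  exacts [h0, h1, h2, h3, h4]

lemma GI1_aeval_mem (M : Model k K) (f : MvPolynomial (ZMod 5) k) : aeval M.z f ∈ M.B := by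
  rw [Model.B, Algebra.adjoin_range_eq_range_aeval]
  exact ⟨f, rfl⟩

instance GI1_frac (M : Model k K) : IsFractionRing M.B K where
  map_units := by
    intro y
    have : (algebraMap M.B K y) ≠ 0 := by
      intro h
      exact nonZeroDivisors.ne_zero y.2 (Subtype.ext h)
    exact isUnit_iff_ne_zero.2 this
  surj := by
    intro x
    obtain ⟨f, g, hg, hx⟩ := M.frac x
    refine ⟨(⟨aeval M.z f, GI1_aeval_mem M f⟩, ⟨⟨aeval M.z g, GI1_aeval_mem M g⟩, ?_⟩), hx⟩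
    rw [mem_nonZeroDivisors_iff_ne_zero]
    intro h
    exact hg (congrArg Subtype.val h)
  exists_of_eq := by
    intro x y h
    refine ⟨1, ?_⟩
    rw [Subtype.ext h]

/-- derivations with prescribed values on the generators -/
theorem GI1_ext (M : Model k K) (h : ZMod 5 → K)
    (hh : ∀ i, 7 * M.z i ^ 6 * h i + 7 * M.z (i - 1) ^ 7 * M.z (i + 1) ^ 6 * h (i + 1) +
      7 * M.z (i - 1) ^ 6 * M.z (i + 1) ^ 7 * h (i - 1) = 0) :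
    ∃ D : Derivation k K K, ∀ i, D (M.z i) = h i := by
  let e : ZMod 5 → TrivSqZeroExt K K := fun i => TrivSqZeroExt.inl (M.z i) + TrivSqZeroExt.inr (h i)
  have hfst : ∀ i, (e i).fst = M.z i := fun i => by simp [e]
  have hsnd : ∀ i, (e i).snd = h i := fun i => by simp [e]
  have he : ∀ i, e i ^ 7 + e (i - 1) ^ 7 * e (i + 1) ^ 7 = 1 := by
    intro i
    apply TrivSqZeroExt.ext
    · rw [TrivSqZeroExt.fst_add, TrivSqZeroExt.fst_mul, TrivSqZeroExt.fst_pow,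
        TrivSqZeroExt.fst_pow, TrivSqZeroExt.fst_pow, hfst, hfst, hfst, TrivSqZeroExt.fst_one]
      exact M.rel i
    · rw [TrivSqZeroExt.snd_add, TrivSqZeroExt.snd_mul, TrivSqZeroExt.snd_pow,
        TrivSqZeroExt.snd_pow, TrivSqZeroExt.snd_pow, TrivSqZeroExt.fst_pow,
        TrivSqZeroExt.fst_pow, hfst, hfst, hfst, hsnd, hsnd, hsnd, TrivSqZeroExt.snd_one]
      rw [← hh i]
      simp only [smul_eq_mul, nsmul_eq_mul, op_smul_eq_smul, Nat.pred_succ]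
      push_cast
      ring
  obtain ⟨φ, hφ⟩ := GA3 M e he
  have h1 : ∀ b : M.B, (φ b).fst = (b : K) := by
    rintro ⟨x, hx⟩
    refine Algebra.adjoin_induction (p := fun x hx => (φ ⟨x, hx⟩).fst = x) ?_ ?_ ?_ ?_ hx
    · rintro _ ⟨i, rfl⟩
      rw [hφ, hfst]
    · intro c
      have : (⟨algebraMap k K c, Subalgebra.algebraMap_mem _ c⟩ : M.B) = algebraMap k M.B c := rfl
      rw [this, AlgHom.commutes]
      rfl
    · intro a b ha hb h2 h3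
      have : (⟨a + b, add_mem ha hb⟩ : M.B) = ⟨a, ha⟩ + ⟨b, hb⟩ := rfl
      rw [this, map_add, TrivSqZeroExt.fst_add, h2, h3]
    · intro a b ha hb h2 h3
      have : (⟨a * b, mul_mem ha hb⟩ : M.B) = ⟨a, ha⟩ * ⟨b, hb⟩ := rfl
      rw [this, map_mul, TrivSqZeroExt.fst_mul, h2, h3]
  have hunit : ∀ y : nonZeroDivisors M.B, IsUnit ((φ : M.B →+* TrivSqZeroExt K K) y) := by
    intro y
    rw [TrivSqZeroExt.isUnit_iff_isUnit_fst]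
    have : ((φ : M.B →+* TrivSqZeroExt K K) y).fst = ((y : M.B) : K) := h1 y
    rw [this, isUnit_iff_ne_zero]
    intro h0
    exact nonZeroDivisors.ne_zero y.2 (Subtype.ext h0)
  let Φ : K →+* TrivSqZeroExt K K := IsLocalization.lift (M := nonZeroDivisors M.B) hunit
  have hΦ : ∀ b : M.B, Φ (b : K) = φ b := fun b => IsLocalization.lift_eq hunit b
  have hΦfst : ∀ x, (Φ x).fst = x := by
    have : (TrivSqZeroExt.fstHom K K K : TrivSqZeroExt K K →+* K).comp Φ = RingHom.id K := by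
      apply IsLocalization.ringHom_ext (nonZeroDivisors M.B)
      ext b
      show (Φ (b : K)).fst = (b : K)
      rw [hΦ, h1]
    intro x
    exact RingHom.congr_fun this x
  have hΦk : ∀ c : k, Φ (algebraMap k K c) = algebraMap k (TrivSqZeroExt K K) c := by
    intro c
    have : algebraMap k K c = ((algebraMap k M.B c : M.B) : K) := rfl
    rw [this, hΦ, AlgHom.commutes]
  let L : K →ₗ[k] K :=
    { toFun := fun x => (Φ x).snd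
      map_add' := fun x y => by rw [map_add, TrivSqZeroExt.snd_add]
      map_smul' := fun c x => by
        rw [Algebra.smul_def, map_mul, hΦk, TrivSqZeroExt.snd_mul]
        have e1 : (algebraMap k (TrivSqZeroExt K K) c).fst = algebraMap k K c := rfl
        have e2 : (algebraMap k (TrivSqZeroExt K K) c).snd = 0 := rfl
        rw [e1, e2, smul_zero, add_zero, RingHom.id_apply]
        exact algebraMap_smul K c _ }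
  refine ⟨Derivation.mk' L ?_, ?_⟩
  · intro a b
    show (Φ (a * b)).snd = a • (Φ b).snd + b • (Φ a).snd
    rw [map_mul, TrivSqZeroExt.snd_mul, hΦfst, hΦfst, op_smul_eq_smul]
  · intro i
    show (Φ (M.z i)).snd = h i
    have := hΦ ⟨M.z i, Algebra.subset_adjoin ⟨i, rfl⟩⟩
    rw [this, hφ, hsnd]

/-- **Task GI1.** The two Hamiltonian derivations. -/
theorem GI1 (h7 : (7 : k) ≠ 0) (M : Model k K) :
    ∃ D0 D1 : Derivation k K K,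
      (D0 (M.z 0) = 0 ∧ D0 (M.z 1) = M.z 0 * M.z 1 * M.Pi6 ∧ D0 (M.z 4) = -(M.z 4 * M.z 0 * M.Pi6) ∧
        D0 (M.z 2) = -(M.z 1 ^ 13 * M.z 3 ^ 6 * M.z 4 ^ 6) ∧
        D0 (M.z 3) = M.z 4 ^ 13 * M.z 1 ^ 6 * M.z 2 ^ 6) ∧
      (D1 (M.z 1) = 0 ∧ D1 (M.z 2) = M.z 1 * M.z 2 * M.Pi6 ∧ D1 (M.z 0) = -(M.z 0 * M.z 1 * M.Pi6) ∧
        D1 (M.z 3) = -(M.z 2 ^ 13 * M.z 4 ^ 6 * M.z 0 ^ 6) ∧
        D1 (M.z 4) = M.z 0 ^ 13 * M.z 2 ^ 6 * M.z 3 ^ 6) := by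
  have hPi : M.Pi6 = (M.z 0 * M.z 1 * M.z 2 * M.z 3 * M.z 4) ^ 6 := by
    unfold Model.Pi6
    congr 1
    exact Fin.prod_univ_five M.z
  have i01 : (0 : ZMod 5) - 1 = 4 := by decide
  have i02 : (0 : ZMod 5) + 1 = 1 := by decide
  have i11 : (1 : ZMod 5) - 1 = 0 := by decide
  have i12 : (1 : ZMod 5) + 1 = 2 := by decide
  have i21 : (2 : ZMod 5) - 1 = 1 := by decide
  have i22 : (2 : ZMod 5) + 1 = 3 := by decide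
  have i31 : (3 : ZMod 5) - 1 = 2 := by decide
  have i32 : (3 : ZMod 5) + 1 = 4 := by decide
  have i41 : (4 : ZMod 5) - 1 = 3 := by decide
  have i42 : (4 : ZMod 5) + 1 = 0 := by decide
  have r0 := M.rel 0
  have r1 := M.rel 1
  have r2 := M.rel 2
  have r3 := M.rel 3
  have r4 := M.rel 4
  rw [i01, i02] at r0
  rw [i11, i12] at r1
  rw [i21, i22] at r2
  rw [i31, i32] at r3
  rw [i41, i42] at r4
  obtain ⟨D0, hD0⟩ := GI1_ext M (![0, M.z 0 * M.z 1 * M.Pi6, -(M.z 1 ^ 13 * M.z 3 ^ 6 * M.z 4 ^ 6),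
      M.z 4 ^ 13 * M.z 1 ^ 6 * M.z 2 ^ 6, -(M.z 4 * M.z 0 * M.Pi6)] : Fin 5 → K) (by
    have v0 : (![0, M.z 0 * M.z 1 * M.Pi6, -(M.z 1 ^ 13 * M.z 3 ^ 6 * M.z 4 ^ 6),
      M.z 4 ^ 13 * M.z 1 ^ 6 * M.z 2 ^ 6, -(M.z 4 * M.z 0 * M.Pi6)] : Fin 5 → K) (0 : ZMod 5) = 0 := rfl
    have v1 : (![0, M.z 0 * M.z 1 * M.Pi6, -(M.z 1 ^ 13 * M.z 3 ^ 6 * M.z 4 ^ 6),
      M.z 4 ^ 13 * M.z 1 ^ 6 * M.z 2 ^ 6, -(M.z 4 * M.z 0 * M.Pi6)] : Fin 5 → K) (1 : ZMod 5) =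
        M.z 0 * M.z 1 * M.Pi6 := rfl
    have v2 : (![0, M.z 0 * M.z 1 * M.Pi6, -(M.z 1 ^ 13 * M.z 3 ^ 6 * M.z 4 ^ 6),
      M.z 4 ^ 13 * M.z 1 ^ 6 * M.z 2 ^ 6, -(M.z 4 * M.z 0 * M.Pi6)] : Fin 5 → K) (2 : ZMod 5) =
        -(M.z 1 ^ 13 * M.z 3 ^ 6 * M.z 4 ^ 6) := rfl
    have v3 : (![0, M.z 0 * M.z 1 * M.Pi6, -(M.z 1 ^ 13 * M.z 3 ^ 6 * M.z 4 ^ 6),
      M.z 4 ^ 13 * M.z 1 ^ 6 * M.z 2 ^ 6, -(M.z 4 * M.z 0 * M.Pi6)] : Fin 5 → K) (3 : ZMod 5) =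
        M.z 4 ^ 13 * M.z 1 ^ 6 * M.z 2 ^ 6 := rfl
    have v4 : (![0, M.z 0 * M.z 1 * M.Pi6, -(M.z 1 ^ 13 * M.z 3 ^ 6 * M.z 4 ^ 6),
      M.z 4 ^ 13 * M.z 1 ^ 6 * M.z 2 ^ 6, -(M.z 4 * M.z 0 * M.Pi6)] : Fin 5 → K) (4 : ZMod 5) =
        -(M.z 4 * M.z 0 * M.Pi6) := rfl
    refine GI1_forall ?_ ?_ ?_ ?_ ?_
    · rw [i01, i02, v0, v1, v4]; ring
    · rw [i11, i12, v0, v1, v2, hPi]; ring
    · rw [i21, i22, v1, v2, v3, hPi]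
      linear_combination (7 * M.z 1 ^ 13 * M.z 2 ^ 6 * M.z 3 ^ 6 * M.z 4 ^ 6) * r4
    · rw [i31, i32, v2, v3, v4, hPi]
      linear_combination (-(7 * M.z 1 ^ 6 * M.z 2 ^ 6 * M.z 3 ^ 6 * M.z 4 ^ 13)) * r1
    · rw [i41, i42, v0, v3, v4, hPi]; ring)
  obtain ⟨D1, hD1⟩ := GI1_ext M (![-(M.z 0 * M.z 1 * M.Pi6), 0, M.z 1 * M.z 2 * M.Pi6,
      -(M.z 2 ^ 13 * M.z 4 ^ 6 * M.z 0 ^ 6), M.z 0 ^ 13 * M.z 2 ^ 6 * M.z 3 ^ 6] : Fin 5 → K) (by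
    have v0 : (![-(M.z 0 * M.z 1 * M.Pi6), 0, M.z 1 * M.z 2 * M.Pi6,
      -(M.z 2 ^ 13 * M.z 4 ^ 6 * M.z 0 ^ 6), M.z 0 ^ 13 * M.z 2 ^ 6 * M.z 3 ^ 6] : Fin 5 → K)
        (0 : ZMod 5) = -(M.z 0 * M.z 1 * M.Pi6) := rfl
    have v1 : (![-(M.z 0 * M.z 1 * M.Pi6), 0, M.z 1 * M.z 2 * M.Pi6,
      -(M.z 2 ^ 13 * M.z 4 ^ 6 * M.z 0 ^ 6), M.z 0 ^ 13 * M.z 2 ^ 6 * M.z 3 ^ 6] : Fin 5 → K)
        (1 : ZMod 5) = 0 := rfl
    have v2 : (![-(M.z 0 * M.z 1 * M.Pi6), 0, M.z 1 * M.z 2 * M.Pi6,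
      -(M.z 2 ^ 13 * M.z 4 ^ 6 * M.z 0 ^ 6), M.z 0 ^ 13 * M.z 2 ^ 6 * M.z 3 ^ 6] : Fin 5 → K)
        (2 : ZMod 5) = M.z 1 * M.z 2 * M.Pi6 := rfl
    have v3 : (![-(M.z 0 * M.z 1 * M.Pi6), 0, M.z 1 * M.z 2 * M.Pi6,
      -(M.z 2 ^ 13 * M.z 4 ^ 6 * M.z 0 ^ 6), M.z 0 ^ 13 * M.z 2 ^ 6 * M.z 3 ^ 6] : Fin 5 → K)
        (3 : ZMod 5) = -(M.z 2 ^ 13 * M.z 4 ^ 6 * M.z 0 ^ 6) := rfl
    have v4 : (![-(M.z 0 * M.z 1 * M.Pi6), 0, M.z 1 * M.z 2 * M.Pi6,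
      -(M.z 2 ^ 13 * M.z 4 ^ 6 * M.z 0 ^ 6), M.z 0 ^ 13 * M.z 2 ^ 6 * M.z 3 ^ 6] : Fin 5 → K)
        (4 : ZMod 5) = M.z 0 ^ 13 * M.z 2 ^ 6 * M.z 3 ^ 6 := rfl
    refine GI1_forall ?_ ?_ ?_ ?_ ?_
    · rw [i01, i02, v0, v1, v4, hPi]; ring
    · rw [i11, i12, v0, v1, v2]; ring
    · rw [i21, i22, v1, v2, v3, hPi]; ring
    · rw [i31, i32, v2, v3, v4, hPi]
      linear_combination (7 * M.z 2 ^ 13 * M.z 3 ^ 6 * M.z 4 ^ 6 * M.z 0 ^ 6) * r0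
    · rw [i41, i42, v0, v3, v4, hPi]
      linear_combination (-(7 * M.z 2 ^ 6 * M.z 3 ^ 6 * M.z 4 ^ 6 * M.z 0 ^ 13)) * r2)
  refine ⟨D0, D1, ⟨?_, ?_, ?_, ?_, ?_⟩, ⟨?_, ?_, ?_, ?_, ?_⟩⟩
  · rw [hD0]; rfl
  · rw [hD0]; rfl
  · rw [hD0]; rfl
  · rw [hD0]; rfl
  · rw [hD0]; rfl
  · rw [hD1]; rfl
  · rw [hD1]; rfl
  · rw [hD1]; rfl
  · rw [hD1]; rfl
  · rw [hD1]; rfl

end

end Pool.Agent.H54R2.Ul
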