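import Pool.Agent.H54R2.Ul.Defs3

namespace Pool.Agent.H54R2.Ul

open MvPolynomial

noncomputable section

variable {k K : Type} [Field k] [Field K] [Algebra k K]

lemma GI2_allowed {t : ℤ} {a b : ZMod 5 → ℕ} (j : ZMod 5) (h : Allowed t a) (hab : a = b + ee j 1) :
    Allowed (t + 1) b := by
  intro i
  have h1 := h i
  rw [hab] at h1
  simp only [Pi.add_apply, ee] at h1
  split_ifs at h1 <;> omega

lemma GI2_mono (M : Model k K) {s t : ℤ} (h : s ≤ t) : M.RM s ≤ M.RM t := by
  apply Submodule.span_mono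
  rintro x ⟨a, ha, rfl⟩
  exact ⟨a, ha.mono h, rfl⟩

lemma GI2_aux (M : Model k K) (D : Derivation k K K) (hD : ∀ i, D (M.z i) ∈ M.RM 8) (n : ℕ) :
    ∀ (b c : ZMod 5 → ℕ) (t : ℤ), ∑ i, b i = n → Allowed t (b + c) →
      zm M.z c * D (zm M.z b) ∈ M.RM (t + 9) := by
  induction n with
  | zero =>
    intro b c t hb _
    have hb0 : b = 0 := by
      funext i
      exact (Finset.sum_eq_zero_iff.1 hb) i (Finset.mem_univ i)
    rw [hb0, zm_zero, Derivation.map_one_eq_zero, mul_zero]
    exact Submodule.zero_mem _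
  | succ n ih =>
    intro b c t hb hbc
    obtain ⟨j, hj⟩ : ∃ j, b j ≠ 0 := by
      by_contra hcon
      push Not at hcon
      have : ∑ i, b i = 0 := Finset.sum_eq_zero fun i _ => hcon i
      omega
    obtain ⟨b', hb'⟩ : ∃ b' : ZMod 5 → ℕ, b = b' + ee j 1 := by
      refine ⟨fun i => b i - ee j 1 i, ?_⟩
      funext i
      simp only [Pi.add_apply, ee]
      split_ifs with h
      · subst h; omega
      · omega
    have hsum : ∑ i, b' i = n := by
      rw [hb'] at hb
      simp only [Pi.add_apply, Finset.sum_add_distrib, ee, Finset.sum_ite_eq', Finset.mem_univ,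
        if_true] at hb
      omega
    have h1 : zm M.z c * D (zm M.z b) = zm M.z (c + ee j 1) * D (zm M.z b') +
        zm M.z (b' + c) * D (M.z j) := by
      rw [hb', zm_add, zm_ee, pow_one, Derivation.leibniz, zm_add, zm_ee, pow_one, zm_add]
      simp only [smul_eq_mul]
      ring
    rw [h1]
    refine Submodule.add_mem _ ?_ ?_
    · apply ih b' (c + ee j 1) t hsum
      have : b' + (c + ee j 1) = b + c := by rw [hb']; abel
      rw [this]
      exact hbc
    · have h2 : Allowed (t + 1) (b' + c) := GI2_allowed j hbc (by rw [hb']; abel)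
      have h3 := M.fil.mul_mem (M.mem_RM h2) (hD j)
      have e : t + 1 + 8 = t + 9 := by ring
      rw [e] at h3
      exact h3

/-- **Task GI2.** Derivations with such values have degree at most `20`. -/
theorem GI2 (M : Model k K) (D : Derivation k K K) (hD : ∀ i, D (M.z i) ∈ M.RM 8) (t : ℤ) (x : K)
    (hx : x ∈ M.RM t) : D x ∈ M.RM (t + 20) := by
  have h : M.RM t ≤ (M.RM (t + 20)).comap D.toLinearMap := by
    rw [Model.RM, Submodule.span_le]
    rintro _ ⟨a, ha, rfl⟩
    have h1 := GI2_aux M D hD _ a 0 t rfl (by rw [add_zero]; exact ha)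
    rw [zm_zero, one_mul] at h1
    exact GI2_mono M (by omega) h1
  exact h hx

end

end Pool.Agent.H54R2.Ul
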