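import Pool.Agent.H54R2.Ul.Defs3

/-! # ULRICH, task GJ1: the Jacobian determinant -/

namespace Pool.Agent.H54R2.Ul

open MvPolynomial

noncomputable section

variable {k K : Type} [Field k] [Field K] [Algebra k K]

/-- the product of the five coordinates is not zero -/
lemma GJ1_prod_ne (M : Model k K) : M.z 0 * M.z 1 * M.z 2 * M.z 3 * M.z 4 ≠ 0 := by
  have h := M.indep.ne_zero (⟨fun _ => 1, fun i => Or.inl (by norm_num)⟩ :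
    {a : ZMod 5 → ℕ // NF a})
  have e : zm M.z (fun _ => 1) = M.z 0 * M.z 1 * M.z 2 * M.z 3 * M.z 4 := by
    unfold zm
    have : ∀ f : ZMod 5 → K, ∏ i, f i = f 0 * f 1 * f 2 * f 3 * f 4 := by
      intro f
      exact Fin.prod_univ_five f
    rw [this]
    simp
  rw [← e]
  exact h

/-- expansion of the determinant, multiplied by the product of the coordinates -/
lemma GJ1_expand {R : Type} [CommRing R] (z0 z1 z2 z3 z4 : R) :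
    (!![7 * z0 ^ 6, 7 * z4 ^ 7 * z1 ^ 6, 0, 0, 7 * z4 ^ 6 * z1 ^ 7;
     7 * z0 ^ 6 * z2 ^ 7, 7 * z1 ^ 6, 7 * z0 ^ 7 * z2 ^ 6, 0, 0;
     0, 0, 7 * z2 ^ 6 * z4 ^ 7, 7 * z3 ^ 6, 7 * z2 ^ 7 * z4 ^ 6;
     z1 * z2 * z3 * z4, z0 * z2 * z3 * z4, z0 * z1 * z3 * z4, z0 * z1 * z2 * z4,
       z0 * z1 * z2 * z3;
     1, -1, 1, -1, 0] : Matrix (Fin 5) (Fin 5) R).det * (z0 * z1 * z2 * z3 * z4) =
      343 * (z0 * z1 * z2 * z3 * z4) *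
        (z0 * (z4 ^ 7 * z1 ^ 7 * (-(z0 ^ 7 * z2 ^ 7) * (z2 ^ 7 * z4 ^ 7)
            - z1 ^ 7 * (z2 ^ 7 * z4 ^ 7) + z1 ^ 7 * z3 ^ 7))
        - z1 * (-(z0 ^ 7 * (z0 ^ 7 * z2 ^ 7) * (z3 ^ 7 - z2 ^ 7 * z4 ^ 7)
            - (z4 ^ 7 * z1 ^ 7) * (z0 ^ 7 * z2 ^ 7) * (z2 ^ 7 * z4 ^ 7)))
        + z2 * (z0 ^ 7 * z1 ^ 7 * (z3 ^ 7 - z2 ^ 7 * z4 ^ 7)
            + (z4 ^ 7 * z1 ^ 7) * (z0 ^ 7 * z2 ^ 7) * (z2 ^ 7 * z4 ^ 7)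
            - (z4 ^ 7 * z1 ^ 7) * z1 ^ 7 * z3 ^ 7)
        - z3 * ((z4 ^ 7 * z1 ^ 7) * z1 ^ 7 * (z2 ^ 7 * z4 ^ 7)
            - z0 ^ 7 * (z0 ^ 7 * z2 ^ 7) * (z2 ^ 7 * z4 ^ 7))) := by
  simp [Matrix.det_succ_row_zero, Fin.sum_univ_succ, Fin.succAbove, Matrix.submatrix]
  ring

/-- the four cofactors, modulo the relations -/
lemma GJ1_cof {R : Type} [CommRing R] (s0 s1 s2 s3 s4 : R)
    (h0 : s0 + s4 * s1 = 1) (h2 : s2 + s1 * s3 = 1) (h4 : s4 + s3 * s0 = 1) :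
    (s4 * s1 * (-(s0 * s2) * (s2 * s4) - s1 * (s2 * s4) + s1 * s3) = s4 + s3 - s1 - s2) ∧
    (-(s0 * (s0 * s2) * (s3 - s2 * s4) - (s4 * s1) * (s0 * s2) * (s2 * s4)) =
      s0 + s4 - s2 - s3) ∧
    (s0 * s1 * (s3 - s2 * s4) + (s4 * s1) * (s0 * s2) * (s2 * s4) - (s4 * s1) * s1 * s3 =
      s1 + s0 - s3 - s4) ∧
    ((s4 * s1) * s1 * (s2 * s4) - s0 * (s0 * s2) * (s2 * s4) = s2 + s1 - s4 - s0) := by
  obtain rfl : s2 = 1 - s1 * s3 := by linear_combination h2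
  obtain rfl : s4 = 1 - s0 * s3 := by linear_combination h4
  have hu : s0 + s1 - 1 - s0 * s1 * s3 = 0 := by linear_combination h0
  refine ⟨?_, ?_, ?_, ?_⟩
  · linear_combination ((1*s0^2*s1^2*s3^3) + (-2*s0*s1^2*s3^2) + (-1*s0^2*s1*s3^2) +
      (-1*s0*s1*s3^2) + (1*s1^2*s3) + (2*s0*s1*s3) + (2*s1*s3) + (1*s3) + (-1*s1)) * hu
  · linear_combination ((-1*s0^2*s1^2*s3^3) + (1*s0*s1^2*s3^2) + (2*s0^2*s1*s3^2) +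
      (1*s0*s1*s3^2) + (-2*s0*s1*s3) + (-1*s0^2*s3) + (-2*s0*s3) + (-1*s3) + (1*s0)) * hu
  · linear_combination ((-1*s0^2*s1^2*s3^3) + (1*s0*s1^2*s3^2) + (1*s0^2*s1*s3^2) +
      (1*s0*s1*s3^2) + (-1*s0*s1*s3) + (-1*s1*s3) + (-1*s3) + (-1)) * hu
  · linear_combination ((1*s0*s1^2*s3^2) + (-1*s0^2*s1*s3^2) + (-1*s1^2*s3) +
      (1*s0^2*s3) + (-1*s1*s3) + (1*s0*s3) + (1*s1) + (-1*s0)) * hu

/-- **Task GJ1.** The Jacobian determinant. -/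
theorem GJ1 (M : Model k K) : (jacM M.z).det = 343 * M.J := by
  have hP := GJ1_prod_ne M
  have h0 : M.z 0 ^ 7 + M.z 4 ^ 7 * M.z 1 ^ 7 = 1 := M.rel 0
  have h2 : M.z 2 ^ 7 + M.z 1 ^ 7 * M.z 3 ^ 7 = 1 := M.rel 2
  have h4 : M.z 4 ^ 7 + M.z 3 ^ 7 * M.z 0 ^ 7 = 1 := M.rel 4
  obtain ⟨c0, c1, c2, c3⟩ := GJ1_cof _ _ _ _ _ h0 h2 h4
  have hJ : M.J = M.z 0 * (M.z 4 ^ 7 + M.z 3 ^ 7 - M.z 1 ^ 7 - M.z 2 ^ 7)
      - M.z 1 * (M.z 0 ^ 7 + M.z 4 ^ 7 - M.z 2 ^ 7 - M.z 3 ^ 7)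
      + M.z 2 * (M.z 1 ^ 7 + M.z 0 ^ 7 - M.z 3 ^ 7 - M.z 4 ^ 7)
      - M.z 3 * (M.z 2 ^ 7 + M.z 1 ^ 7 - M.z 4 ^ 7 - M.z 0 ^ 7) := by
    unfold Model.J
    have hs : ∀ f : ZMod 5 → K, ∑ i, f i = f 0 + f 1 + f 2 + f 3 + f 4 := by
      intro f
      exact Fin.sum_univ_five f
    rw [hs]
    have e1 : (0 : ZMod 5) - 1 = 4 := by decide
    have e2 : (0 : ZMod 5) - 2 = 3 := by decide
    have e3 : (1 : ZMod 5) - 1 = 0 := by decide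
    have e4 : (1 : ZMod 5) - 2 = 4 := by decide
    have e5 : (1 : ZMod 5) + 1 = 2 := by decide
    have e6 : (1 : ZMod 5) + 2 = 3 := by decide
    have e7 : (2 : ZMod 5) - 1 = 1 := by decide
    have e8 : (2 : ZMod 5) - 2 = 0 := by decide
    have e9 : (2 : ZMod 5) + 1 = 3 := by decide
    have e10 : (2 : ZMod 5) + 2 = 4 := by decide
    have e11 : (3 : ZMod 5) - 1 = 2 := by decide
    have e12 : (3 : ZMod 5) - 2 = 1 := by decide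
    have e13 : (3 : ZMod 5) + 1 = 4 := by decide
    have e14 : (3 : ZMod 5) + 2 = 0 := by decide
    have e15 : (0 : ZMod 5) + 1 = 1 := by decide
    have e16 : (0 : ZMod 5) + 2 = 2 := by decide
    have d0 : ((0 : ZMod 5) = 0 ∨ (0 : ZMod 5) = 2) := by decide
    have d1 : ¬ ((1 : ZMod 5) = 0 ∨ (1 : ZMod 5) = 2) := by decide
    have d1' : ((1 : ZMod 5) = 1 ∨ (1 : ZMod 5) = 3) := by decide
    have d2 : ((2 : ZMod 5) = 0 ∨ (2 : ZMod 5) = 2) := by decide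
    have d3 : ¬ ((3 : ZMod 5) = 0 ∨ (3 : ZMod 5) = 2) := by decide
    have d3' : ((3 : ZMod 5) = 1 ∨ (3 : ZMod 5) = 3) := by decide
    have d4 : ¬ ((4 : ZMod 5) = 0 ∨ (4 : ZMod 5) = 2) := by decide
    have d4' : ¬ ((4 : ZMod 5) = 1 ∨ (4 : ZMod 5) = 3) := by decide
    rw [if_pos d0, if_neg d1, if_pos d1', if_pos d2, if_neg d3, if_pos d3', if_neg d4,
      if_neg d4', e1, e2, e3, e4, e5, e6, e7, e8, e9, e10, e11, e12, e13, e14, e15, e16]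
    ring
  have hE := GJ1_expand (M.z 0) (M.z 1) (M.z 2) (M.z 3) (M.z 4)
  rw [c0, c1, c2, c3] at hE
  have hE2 : (jacM M.z).det * (M.z 0 * M.z 1 * M.z 2 * M.z 3 * M.z 4) =
      (343 * M.J) * (M.z 0 * M.z 1 * M.z 2 * M.z 3 * M.z 4) := by
    rw [hJ]
    refine Eq.trans hE ?_
    ring
  exact mul_right_cancel₀ hP hE2

end

end Pool.Agent.H54R2.Ul
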