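import Pool.Agent.H54R2.Ul.Defs3
import Pool.Agent.H54R2.Ul.St.GJ1

namespace Pool.Agent.H54R2.Ul

open MvPolynomial

noncomputable section

/-- telescoping -/
theorem GJ2_tele {k : Type} [Field k] (f : MvPolynomial (ZMod 5) k) :
    ∃ h : ZMod 5 → MvPolynomial (ZMod 5 ⊕ ZMod 5) k,
      rename Sum.inl f - rename Sum.inr f = ∑ j, h j * (X (Sum.inl j) - X (Sum.inr j)) ∧
      ∀ j, aeval (Sum.elim X X) (h j) = pderiv j f := by
  induction f using MvPolynomial.induction_on with
  | C a => exact ⟨0, by simp, by simp⟩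
  | add f g hf hg =>
      obtain ⟨h1, e1, d1⟩ := hf
      obtain ⟨h2, e2, d2⟩ := hg
      refine ⟨h1 + h2, ?_, ?_⟩
      · simp only [map_add, Pi.add_apply, add_mul, Finset.sum_add_distrib, ← e1, ← e2]
        ring
      · intro j
        simp only [Pi.add_apply, map_add, d1, d2]
  | mul_X f l hf =>
      obtain ⟨h1, e1, d1⟩ := hf
      refine ⟨fun j => h1 j * X (Sum.inl l) + if j = l then rename Sum.inr f else 0, ?_, ?_⟩
      · have : ∀ j, (h1 j * X (Sum.inl l) + if j = l then rename Sum.inr f else 0) *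
            (X (Sum.inl j) - X (Sum.inr j)) = (h1 j * (X (Sum.inl j) - X (Sum.inr j))) *
              X (Sum.inl l) + if j = l then rename Sum.inr f * (X (Sum.inl l) - X (Sum.inr l)) else
                (0 : MvPolynomial (ZMod 5 ⊕ ZMod 5) k) := by
          intro j
          split_ifs with hj
          · subst hj; ring
          · ring
        simp only [this, Finset.sum_add_distrib, ← Finset.sum_mul, ← e1, Finset.sum_ite_eq',
          Finset.mem_univ, if_true, map_mul, rename_X]
        ring
      · intro j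
        have e3 : aeval (Sum.elim X X) (rename Sum.inr f : MvPolynomial (ZMod 5 ⊕ ZMod 5) k) =
            (f : MvPolynomial (ZMod 5) k) := by
          rw [aeval_rename]
          have : (Sum.elim X X : ZMod 5 ⊕ ZMod 5 → MvPolynomial (ZMod 5) k) ∘ Sum.inr = X := by
            funext i; simp
          rw [this, aeval_X_left_apply]
        rw [map_add, map_mul, d1, aeval_X, Sum.elim_inl, Derivation.leibniz, pderiv_X]
        split_ifs with hj
        · subst hj
          rw [e3]; simp; ring
        · simp [Ne.symm hj]; ring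

variable {k K : Type} [Field k] [Field K] [Algebra k K]

theorem GJ2_cases (P : ZMod 5 → Prop) (h0 : P 0) (h1 : P 1) (h2 : P 2) (h3 : P 3) (h4 : P 4) :
    ∀ i, P i := by
  intro i
  fin_cases i
  · exact h0
  · exact h1
  · exact h2
  · exact h3
  · exact h4

/-- the five polynomials -/
def GJ2_g (k : Type) [Field k] (i : ZMod 5) : MvPolynomial (ZMod 5) k :=
  if i = 0 then relPoly k 0 else if i = 1 then relPoly k 1 else if i = 2 then relPoly k 3
  else if i = 3 then X 0 * X 1 * X 2 * X 3 * X 4 else X 0 - X 1 + X 2 - X 3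

theorem GJ2_g0 (k : Type) [Field k] : GJ2_g k 0 = X 0 ^ 7 + X 4 ^ 7 * X 1 ^ 7 - 1 := rfl
theorem GJ2_g1 (k : Type) [Field k] : GJ2_g k 1 = X 1 ^ 7 + X 0 ^ 7 * X 2 ^ 7 - 1 := rfl
theorem GJ2_g2 (k : Type) [Field k] : GJ2_g k 2 = X 3 ^ 7 + X 2 ^ 7 * X 4 ^ 7 - 1 := rfl
theorem GJ2_g3 (k : Type) [Field k] : GJ2_g k 3 = X 0 * X 1 * X 2 * X 3 * X 4 := rfl
theorem GJ2_g4 (k : Type) [Field k] : GJ2_g k 4 = X 0 - X 1 + X 2 - X 3 := rfl

/-- the Jacobian matrix indexed by `ZMod 5` -/
def GJ2_J (z : ZMod 5 → K) : Matrix (ZMod 5) (ZMod 5) K :=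
  (jacM z).submatrix (Equiv.refl (Fin 5) : ZMod 5 ≃ Fin 5) (Equiv.refl (Fin 5) : ZMod 5 ≃ Fin 5)

set_option linter.unusedSimpArgs false in
theorem GJ2_jac (z : ZMod 5 → K) (i j : ZMod 5) :
    aeval z (pderiv j (GJ2_g k i)) = GJ2_J z i j := by
  have n01 : (0 : ZMod 5) ≠ 1 := by decide
  have n02 : (0 : ZMod 5) ≠ 2 := by decide
  have n03 : (0 : ZMod 5) ≠ 3 := by decide
  have n04 : (0 : ZMod 5) ≠ 4 := by decide
  have n12 : (1 : ZMod 5) ≠ 2 := by decide
  have n13 : (1 : ZMod 5) ≠ 3 := by decide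
  have n14 : (1 : ZMod 5) ≠ 4 := by decide
  have n23 : (2 : ZMod 5) ≠ 3 := by decide
  have n24 : (2 : ZMod 5) ≠ 4 := by decide
  have n34 : (3 : ZMod 5) ≠ 4 := by decide
  revert j
  revert i
  apply GJ2_cases
  · apply GJ2_cases
    · rw [show GJ2_J z 0 0 = 7 * z 0 ^ 6 from rfl, GJ2_g0]
      simp [pderiv_X, Derivation.leibniz, Derivation.leibniz_pow, n01, n02, n03, n04, n12, n13, n14,
        n23, n24, n34, n01.symm, n02.symm, n03.symm, n04.symm, n12.symm, n13.symm, n14.symm, n23.symm,
        n24.symm, n34.symm] <;> ring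
    · rw [show GJ2_J z 0 1 = 7 * z 4 ^ 7 * z 1 ^ 6 from rfl, GJ2_g0]
      simp [pderiv_X, Derivation.leibniz, Derivation.leibniz_pow, n01, n02, n03, n04, n12, n13, n14,
        n23, n24, n34, n01.symm, n02.symm, n03.symm, n04.symm, n12.symm, n13.symm, n14.symm, n23.symm,
        n24.symm, n34.symm] <;> ring
    · rw [show GJ2_J z 0 2 = 0 from rfl, GJ2_g0]
      simp [pderiv_X, Derivation.leibniz, Derivation.leibniz_pow, n01, n02, n03, n04, n12, n13, n14,
        n23, n24, n34, n01.symm, n02.symm, n03.symm, n04.symm, n12.symm, n13.symm, n14.symm, n23.symm,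
        n24.symm, n34.symm] <;> ring
    · rw [show GJ2_J z 0 3 = 0 from rfl, GJ2_g0]
      simp [pderiv_X, Derivation.leibniz, Derivation.leibniz_pow, n01, n02, n03, n04, n12, n13, n14,
        n23, n24, n34, n01.symm, n02.symm, n03.symm, n04.symm, n12.symm, n13.symm, n14.symm, n23.symm,
        n24.symm, n34.symm] <;> ring
    · rw [show GJ2_J z 0 4 = 7 * z 4 ^ 6 * z 1 ^ 7 from rfl, GJ2_g0]
      simp [pderiv_X, Derivation.leibniz, Derivation.leibniz_pow, n01, n02, n03, n04, n12, n13, n14,
        n23, n24, n34, n01.symm, n02.symm, n03.symm, n04.symm, n12.symm, n13.symm, n14.symm, n23.symm,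
        n24.symm, n34.symm] <;> ring
  · apply GJ2_cases
    · rw [show GJ2_J z 1 0 = 7 * z 0 ^ 6 * z 2 ^ 7 from rfl, GJ2_g1]
      simp [pderiv_X, Derivation.leibniz, Derivation.leibniz_pow, n01, n02, n03, n04, n12, n13, n14,
        n23, n24, n34, n01.symm, n02.symm, n03.symm, n04.symm, n12.symm, n13.symm, n14.symm, n23.symm,
        n24.symm, n34.symm] <;> ring
    · rw [show GJ2_J z 1 1 = 7 * z 1 ^ 6 from rfl, GJ2_g1]
      simp [pderiv_X, Derivation.leibniz, Derivation.leibniz_pow, n01, n02, n03, n04, n12, n13, n14,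
        n23, n24, n34, n01.symm, n02.symm, n03.symm, n04.symm, n12.symm, n13.symm, n14.symm, n23.symm,
        n24.symm, n34.symm] <;> ring
    · rw [show GJ2_J z 1 2 = 7 * z 0 ^ 7 * z 2 ^ 6 from rfl, GJ2_g1]
      simp [pderiv_X, Derivation.leibniz, Derivation.leibniz_pow, n01, n02, n03, n04, n12, n13, n14,
        n23, n24, n34, n01.symm, n02.symm, n03.symm, n04.symm, n12.symm, n13.symm, n14.symm, n23.symm,
        n24.symm, n34.symm] <;> ring
    · rw [show GJ2_J z 1 3 = 0 from rfl, GJ2_g1]
      simp [pderiv_X, Derivation.leibniz, Derivation.leibniz_pow, n01, n02, n03, n04, n12, n13, n14,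
        n23, n24, n34, n01.symm, n02.symm, n03.symm, n04.symm, n12.symm, n13.symm, n14.symm, n23.symm,
        n24.symm, n34.symm] <;> ring
    · rw [show GJ2_J z 1 4 = 0 from rfl, GJ2_g1]
      simp [pderiv_X, Derivation.leibniz, Derivation.leibniz_pow, n01, n02, n03, n04, n12, n13, n14,
        n23, n24, n34, n01.symm, n02.symm, n03.symm, n04.symm, n12.symm, n13.symm, n14.symm, n23.symm,
        n24.symm, n34.symm] <;> ring
  · apply GJ2_cases
    · rw [show GJ2_J z 2 0 = 0 from rfl, GJ2_g2]
      simp [pderiv_X, Derivation.leibniz, Derivation.leibniz_pow, n01, n02, n03, n04, n12, n13, n14,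
        n23, n24, n34, n01.symm, n02.symm, n03.symm, n04.symm, n12.symm, n13.symm, n14.symm, n23.symm,
        n24.symm, n34.symm] <;> ring
    · rw [show GJ2_J z 2 1 = 0 from rfl, GJ2_g2]
      simp [pderiv_X, Derivation.leibniz, Derivation.leibniz_pow, n01, n02, n03, n04, n12, n13, n14,
        n23, n24, n34, n01.symm, n02.symm, n03.symm, n04.symm, n12.symm, n13.symm, n14.symm, n23.symm,
        n24.symm, n34.symm] <;> ring
    · rw [show GJ2_J z 2 2 = 7 * z 2 ^ 6 * z 4 ^ 7 from rfl, GJ2_g2]
      simp [pderiv_X, Derivation.leibniz, Derivation.leibniz_pow, n01, n02, n03, n04, n12, n13, n14,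
        n23, n24, n34, n01.symm, n02.symm, n03.symm, n04.symm, n12.symm, n13.symm, n14.symm, n23.symm,
        n24.symm, n34.symm] <;> ring
    · rw [show GJ2_J z 2 3 = 7 * z 3 ^ 6 from rfl, GJ2_g2]
      simp [pderiv_X, Derivation.leibniz, Derivation.leibniz_pow, n01, n02, n03, n04, n12, n13, n14,
        n23, n24, n34, n01.symm, n02.symm, n03.symm, n04.symm, n12.symm, n13.symm, n14.symm, n23.symm,
        n24.symm, n34.symm] <;> ring
    · rw [show GJ2_J z 2 4 = 7 * z 2 ^ 7 * z 4 ^ 6 from rfl, GJ2_g2]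
      simp [pderiv_X, Derivation.leibniz, Derivation.leibniz_pow, n01, n02, n03, n04, n12, n13, n14,
        n23, n24, n34, n01.symm, n02.symm, n03.symm, n04.symm, n12.symm, n13.symm, n14.symm, n23.symm,
        n24.symm, n34.symm] <;> ring
  · apply GJ2_cases
    · rw [show GJ2_J z 3 0 = z 1 * z 2 * z 3 * z 4 from rfl, GJ2_g3]
      simp [pderiv_X, Derivation.leibniz, Derivation.leibniz_pow, n01, n02, n03, n04, n12, n13, n14,
        n23, n24, n34, n01.symm, n02.symm, n03.symm, n04.symm, n12.symm, n13.symm, n14.symm, n23.symm,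
        n24.symm, n34.symm] <;> ring
    · rw [show GJ2_J z 3 1 = z 0 * z 2 * z 3 * z 4 from rfl, GJ2_g3]
      simp [pderiv_X, Derivation.leibniz, Derivation.leibniz_pow, n01, n02, n03, n04, n12, n13, n14,
        n23, n24, n34, n01.symm, n02.symm, n03.symm, n04.symm, n12.symm, n13.symm, n14.symm, n23.symm,
        n24.symm, n34.symm] <;> ring
    · rw [show GJ2_J z 3 2 = z 0 * z 1 * z 3 * z 4 from rfl, GJ2_g3]
      simp [pderiv_X, Derivation.leibniz, Derivation.leibniz_pow, n01, n02, n03, n04, n12, n13, n14,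
        n23, n24, n34, n01.symm, n02.symm, n03.symm, n04.symm, n12.symm, n13.symm, n14.symm, n23.symm,
        n24.symm, n34.symm] <;> ring
    · rw [show GJ2_J z 3 3 = z 0 * z 1 * z 2 * z 4 from rfl, GJ2_g3]
      simp [pderiv_X, Derivation.leibniz, Derivation.leibniz_pow, n01, n02, n03, n04, n12, n13, n14,
        n23, n24, n34, n01.symm, n02.symm, n03.symm, n04.symm, n12.symm, n13.symm, n14.symm, n23.symm,
        n24.symm, n34.symm] <;> ring
    · rw [show GJ2_J z 3 4 = z 0 * z 1 * z 2 * z 3 from rfl, GJ2_g3]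
      simp [pderiv_X, Derivation.leibniz, Derivation.leibniz_pow, n01, n02, n03, n04, n12, n13, n14,
        n23, n24, n34, n01.symm, n02.symm, n03.symm, n04.symm, n12.symm, n13.symm, n14.symm, n23.symm,
        n24.symm, n34.symm] <;> ring
  · apply GJ2_cases
    · rw [show GJ2_J z 4 0 = 1 from rfl, GJ2_g4]
      simp [pderiv_X, Derivation.leibniz, Derivation.leibniz_pow, n01, n02, n03, n04, n12, n13, n14,
        n23, n24, n34, n01.symm, n02.symm, n03.symm, n04.symm, n12.symm, n13.symm, n14.symm, n23.symm,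
        n24.symm, n34.symm] <;> ring
    · rw [show GJ2_J z 4 1 = -1 from rfl, GJ2_g4]
      simp [pderiv_X, Derivation.leibniz, Derivation.leibniz_pow, n01, n02, n03, n04, n12, n13, n14,
        n23, n24, n34, n01.symm, n02.symm, n03.symm, n04.symm, n12.symm, n13.symm, n14.symm, n23.symm,
        n24.symm, n34.symm] <;> ring
    · rw [show GJ2_J z 4 2 = 1 from rfl, GJ2_g4]
      simp [pderiv_X, Derivation.leibniz, Derivation.leibniz_pow, n01, n02, n03, n04, n12, n13, n14,
        n23, n24, n34, n01.symm, n02.symm, n03.symm, n04.symm, n12.symm, n13.symm, n14.symm, n23.symm,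
        n24.symm, n34.symm] <;> ring
    · rw [show GJ2_J z 4 3 = -1 from rfl, GJ2_g4]
      simp [pderiv_X, Derivation.leibniz, Derivation.leibniz_pow, n01, n02, n03, n04, n12, n13, n14,
        n23, n24, n34, n01.symm, n02.symm, n03.symm, n04.symm, n12.symm, n13.symm, n14.symm, n23.symm,
        n24.symm, n34.symm] <;> ring
    · rw [show GJ2_J z 4 4 = 0 from rfl, GJ2_g4]
      simp [pderiv_X, Derivation.leibniz, Derivation.leibniz_pow, n01, n02, n03, n04, n12, n13, n14,
        n23, n24, n34, n01.symm, n02.symm, n03.symm, n04.symm, n12.symm, n13.symm, n14.symm, n23.symm,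
        n24.symm, n34.symm] <;> ring

theorem GJ2_sep (F K : Type) [Field F] [Field K] [Algebra F K] [FiniteDimensional F K] (p : ℕ)
    [Fact p.Prime] [CharP F p] (h : Module.finrank F K < p) : Algebra.IsSeparable F K := by
  constructor
  intro x
  have hint : IsIntegral F x := Algebra.IsIntegral.isIntegral x
  have hirr := minpoly.irreducible hint
  rw [IsSeparable, Polynomial.separable_iff_derivative_ne_zero hirr]
  intro h0
  have h1 : (Polynomial.derivative (minpoly F x)).coeff ((minpoly F x).natDegree - 1) = 0 := by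
    rw [h0]; simp
  have hd : 0 < (minpoly F x).natDegree := minpoly.natDegree_pos hint
  have hle : (minpoly F x).natDegree ≤ Module.finrank F K := minpoly.natDegree_le x
  rw [Polynomial.coeff_derivative, Nat.sub_add_cancel hd, (minpoly.monic hint).coeff_natDegree,
    one_mul] at h1
  have h2 : (((minpoly F x).natDegree : ℕ) : F) = 0 := by
    have : (((minpoly F x).natDegree - 1 : ℕ) : F) + 1 = ((minpoly F x).natDegree : F) := by
      have h3 : (minpoly F x).natDegree - 1 + 1 = (minpoly F x).natDegree := Nat.sub_add_cancel hd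
      exact_mod_cast congrArg (Nat.cast : ℕ → F) h3
    rw [← this]; exact h1
  rw [CharP.cast_eq_zero_iff F p] at h2
  exact absurd (Nat.le_of_dvd hd h2) (by omega)

/-- **Task GJ2.** Affine duality. -/
theorem GJ2 (p : ℕ) [Fact p.Prime] [CharP k p] (hp : 1715 < p) (M : Model k K)
    (hdeg : Module.finrank (FF k M.Y1 M.Y2) K = 1715) (x : K)
    (hx : ∀ b ∈ M.B, algebraMap (FF k M.Y1 M.Y2) K (Algebra.trace (FF k M.Y1 M.Y2) K (x * b)) ∈ M.B) :
    M.J * x ∈ M.B := by
  have hfin : FiniteDimensional (FF k M.Y1 M.Y2) K :=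
    Module.finite_of_finrank_pos (by rw [hdeg]; norm_num)
  have : CharP (FF k M.Y1 M.Y2) p := charP_of_injective_algebraMap
    (algebraMap k (FF k M.Y1 M.Y2)).injective p
  have hsep : Algebra.IsSeparable (FF k M.Y1 M.Y2) K := GJ2_sep _ _ p (by rw [hdeg]; exact hp)
  set F := FF k M.Y1 M.Y2 with hF
  let Ω := AlgebraicClosure K
  let ι : K →ₐ[F] Ω := IsScalarTower.toAlgHom F K Ω
  have hι : ∀ y : K, ι y = algebraMap K Ω y := fun y => rfl
  -- the functional
  let T : MvPolynomial (ZMod 5 ⊕ ZMod 5) k → Ω := fun f =>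
    ∑ s : K →ₐ[F] Ω, s x * aeval (Sum.elim (fun i => s (M.z i)) (fun i => ι (M.z i))) f
  have hT : ∀ f, ∃ b ∈ M.B, T f = ι b := by
    intro f
    induction f using MvPolynomial.induction_on' with
    | monomial e c =>
        let b1 : K := ∏ i, M.z i ^ e (Sum.inl i)
        let b2 : K := ∏ i, M.z i ^ e (Sum.inr i)
        have hmem : ∀ g : ZMod 5 → ℕ, (∏ i, M.z i ^ g i) ∈ M.B := fun g =>
          Subalgebra.prod_mem _ fun i _ => Subalgebra.pow_mem _
            (Algebra.subset_adjoin (Set.mem_range_self i)) _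
        have hb1 : algebraMap k K c * b1 ∈ M.B :=
          Subalgebra.mul_mem _ (Subalgebra.algebraMap_mem _ c) (hmem _)
        refine ⟨algebraMap F K (Algebra.trace F K (x * (algebraMap k K c * b1))) * b2,
          Subalgebra.mul_mem _ (hx _ hb1) (hmem _), ?_⟩
        have hs : ∀ s : K →ₐ[F] Ω, s x * aeval (Sum.elim (fun i => s (M.z i))
            (fun i => ι (M.z i))) (monomial e c) = s (x * (algebraMap k K c * b1)) * ι b2 := by
          intro s
          have hc : s (algebraMap k K c) = algebraMap k Ω c := by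
            rw [IsScalarTower.algebraMap_apply k F K, AlgHom.commutes,
              ← IsScalarTower.algebraMap_apply k F Ω]
          rw [aeval_monomial, Finsupp.prod_fintype _ _ (fun i => pow_zero _),
            Fintype.prod_sum_type]
          simp only [Sum.elim_inl, Sum.elim_inr]
          rw [map_mul, map_mul, hc, map_prod, map_prod]
          simp only [map_pow]
          ring
        simp only [T, hs]
        rw [← Finset.sum_mul, ← trace_eq_sum_embeddings Ω, map_mul ι, hι (algebraMap F K _),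
          ← IsScalarTower.algebraMap_apply F K Ω]
    | add f g hf hg =>
        obtain ⟨b1, hb1, e1⟩ := hf
        obtain ⟨b2, hb2, e2⟩ := hg
        refine ⟨b1 + b2, Subalgebra.add_mem _ hb1 hb2, ?_⟩
        rw [map_add, ← e1, ← e2]
        simp only [T, map_add, mul_add, Finset.sum_add_distrib]
  have hval : ∀ s : K →ₐ[F] Ω, ∀ i : ZMod 5, aeval (fun i => s (M.z i)) (GJ2_g k i) =
      ι (aeval M.z (GJ2_g k i)) := by
    intro s i
    have hs : aeval (fun i => s (M.z i)) (GJ2_g k i) = s (aeval M.z (GJ2_g k i)) := by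
      have : (aeval (fun i => s (M.z i)) : MvPolynomial (ZMod 5) k →ₐ[k] Ω) =
          ((s.restrictScalars k).comp (aeval M.z)) := by
        apply MvPolynomial.algHom_ext
        intro i
        simp
      rw [this]; rfl
    rw [hs]
    have hr : ∀ j, aeval M.z (relPoly k j) = 0 := by
      intro j
      simp only [relPoly, map_sub, map_add, map_mul, map_pow, aeval_X, map_one]
      rw [M.rel j, sub_self]
    have hF1 : ∀ y ∈ F, s y = ι y := by
      intro y hy
      have h1 := s.commutes ⟨y, hy⟩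
      have h2 := ι.commutes ⟨y, hy⟩
      exact h1.trans h2.symm
    have hr0 : aeval M.z (GJ2_g k 0) = 0 := hr 0
    have hr1 : aeval M.z (GJ2_g k 1) = 0 := hr 1
    have hr2 : aeval M.z (GJ2_g k 2) = 0 := hr 3
    have hr3 : aeval M.z (GJ2_g k 3) = M.Y1 := by
      rw [GJ2_g3]
      simp only [map_mul, aeval_X]
      exact (Fin.prod_univ_five M.z).symm
    have hr4 : aeval M.z (GJ2_g k 4) = M.Y2 := by
      rw [GJ2_g4]
      simp only [map_sub, map_add, aeval_X]
      rfl
    revert i
    apply GJ2_cases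
    · intro _; rw [hr0, map_zero, map_zero]
    · intro _; rw [hr1, map_zero, map_zero]
    · intro _; rw [hr2, map_zero, map_zero]
    · intro _; rw [hr3]; exact hF1 _ (IntermediateField.subset_adjoin _ _ (by simp))
    · intro _; rw [hr4]; exact hF1 _ (IntermediateField.subset_adjoin _ _ (by simp))
  choose h e d using fun i : ZMod 5 => GJ2_tele (GJ2_g k i)
  let H : Matrix (ZMod 5) (ZMod 5) (MvPolynomial (ZMod 5 ⊕ ZMod 5) k) := Matrix.of fun i j => h i j
  -- the diagonal
  have hdiag : aeval (Sum.elim (fun i => ι (M.z i)) (fun i => ι (M.z i))) H.det =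
      ι (343 * M.J) := by
    have hJ : (jacM M.z).det = (GJ2_J M.z).det := (Matrix.det_submatrix_equiv_self _ _).symm
    rw [← GJ1 M, hJ]
    have h0 : ∀ f : MvPolynomial (ZMod 5 ⊕ ZMod 5) k,
        aeval (Sum.elim (fun i => ι (M.z i)) (fun i => ι (M.z i))) f =
          (((ι.restrictScalars k).comp (aeval M.z)).comp (aeval (Sum.elim X X))) f := by
      intro f
      congr 1
      apply MvPolynomial.algHom_ext
      rintro (i | i) <;> simp
    have h1 : ι (GJ2_J M.z).det = (ι.restrictScalars k) (GJ2_J M.z).det := rfl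
    rw [h0, h1]
    rw [AlgHom.comp_apply, AlgHom.comp_apply]
    congr 1
    rw [AlgHom.map_det, AlgHom.map_det]
    congr 1
    ext i j
    simp only [AlgHom.mapMatrix_apply, Matrix.map_apply, H, Matrix.of_apply]
    rw [d, GJ2_jac]
  have hoff : ∀ s : K →ₐ[F] Ω, s ≠ ι →
      aeval (Sum.elim (fun i => s (M.z i)) (fun i => ι (M.z i))) H.det = 0 := by
    intro s hs
    rw [AlgHom.map_det]
    rw [← Matrix.exists_mulVec_eq_zero_iff]
    refine ⟨fun j => s (M.z j) - ι (M.z j), ?_, ?_⟩
    · intro h0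
      apply hs
      have hz : ∀ j, s (M.z j) = ι (M.z j) := fun j => sub_eq_zero.1 (congrFun h0 j)
      have hz' : ∀ f : MvPolynomial (ZMod 5) k, s (aeval M.z f) = ι (aeval M.z f) := by
        intro f
        have : ((s.restrictScalars k).comp (aeval M.z)) = ((ι.restrictScalars k).comp (aeval M.z)) := by
          apply MvPolynomial.algHom_ext
          intro i
          simp [hz]
        exact congrArg (fun φ : MvPolynomial (ZMod 5) k →ₐ[k] Ω => φ f) this
      apply AlgHom.ext
      intro y
      obtain ⟨f, g, hg, hfg⟩ := M.frac y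
      have h1 := congrArg s hfg
      have h2 := congrArg ι hfg
      rw [map_mul, hz' f, hz' g] at h1
      rw [map_mul] at h2
      have h3 : ι (aeval M.z g) ≠ 0 := (map_ne_zero _).2 hg
      exact mul_right_cancel₀ h3 (h1.trans h2.symm)
    · funext i
      have h1 := congrArg (aeval (Sum.elim (fun i => s (M.z i)) (fun i => ι (M.z i))) :
        MvPolynomial (ZMod 5 ⊕ ZMod 5) k →ₐ[k] Ω) (e i)
      simp only [map_sub, map_sum, map_mul, aeval_X, Sum.elim_inl, Sum.elim_inr,
        aeval_rename] at h1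
      simp only [Matrix.mulVec, dotProduct, AlgHom.mapMatrix_apply, Matrix.map_apply, H,
        Matrix.of_apply, Pi.zero_apply]
      rw [← h1]
      have h2 : (Sum.elim (fun i => s (M.z i)) (fun i => ι (M.z i)) ∘ Sum.inl :
        ZMod 5 → Ω) = fun i => s (M.z i) := rfl
      have h3 : (Sum.elim (fun i => s (M.z i)) (fun i => ι (M.z i)) ∘ Sum.inr :
        ZMod 5 → Ω) = fun i => ι (M.z i) := rfl
      rw [h2, h3, hval s, hval ι, sub_self]
  obtain ⟨b, hb, eb⟩ := hT H.det
  have h1 : T H.det = ι (x * (343 * M.J)) := by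
    simp only [T]
    rw [Finset.sum_eq_single ι]
    · rw [hdiag]; exact (map_mul ι x _).symm
    · intro s _ hs
      rw [hoff s hs, mul_zero]
    · intro h; exact absurd (Finset.mem_univ _) h
  have h2 : x * (343 * M.J) = b := by
    apply ι.toRingHom.injective
    change ι _ = ι _
    rw [← h1, eb]
  have h3 : (343 : k) ≠ 0 := by
    intro h0
    have : ((343 : ℕ) : k) = 0 := by exact_mod_cast h0
    rw [CharP.cast_eq_zero_iff k p] at this
    exact absurd (Nat.le_of_dvd (by norm_num) this) (by omega)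
  have h4 : M.J * x = (343 : k)⁻¹ • b := by
    rw [← h2, Algebra.smul_def, map_inv₀]
    have h5 : algebraMap k K 343 = 343 := map_ofNat _ 343
    have h6 : (343 : K) ≠ 0 := by
      rw [← h5]; exact (map_ne_zero _).2 h3
    rw [h5]
    field_simp
  rw [h4]
  exact Subalgebra.smul_mem _ hb _

end

end Pool.Agent.H54R2.Ul
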