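import Pool.Agent.H54R2.Ul.Defs3
import Pool.Agent.H54R2.Ul.St.GK0

namespace Pool.Agent.H54R2.Ul

open MvPolynomial Module IsLocalRing IsLocalization.AtPrime

noncomputable section

attribute [local instance] Ideal.Quotient.field

/-- duality over a valuation ring with reduced special fibre -/
lemma GK_dual {F K : Type} [Field F] [Field K] [Algebra F K] [FiniteDimensional F K]
    (p : ℕ) [Fact p.Prime] [CharP F p] (hp : finrank F K < p) (O : ValuationSubring F)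
    (S : Subalgebra O K) [Module.Finite O S]
    (hspan : ∀ x : K, ∃ c : O, c ≠ 0 ∧ c • x ∈ S)
    (hred : IsReduced (S ⧸ (IsLocalRing.maximalIdeal O).map (algebraMap O S)))
    (x : K) (hx : ∀ a ∈ S, Algebra.trace F K (x * a) ∈ O) : x ∈ S := by
  classical
  have htf : IsTorsionFree O S := by
    infer_instance
  have hflat : Module.Flat O S := by
    rw [Module.Flat.flat_iff_torsion_eq_bot_of_isBezout, ← Submodule.isTorsionFree_iff_torsion_eq_bot]
    infer_instance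
  have hfree : Module.Free O S := Module.free_of_flat_of_isLocalRing
  have hOF : ∀ c : O, algebraMap O K c = algebraMap F K (c : F) := fun c => rfl
  have hsm : ∀ (c : O) (y : K), c • y = algebraMap F K (c : F) * y := fun c y => by
    rw [Algebra.smul_def]; rfl
  -- localization
  have hloc : IsLocalization (Algebra.algebraMapSubmonoid S (nonZeroDivisors O)) K := by
    rw [isLocalization_iff]
    refine ⟨?_, ?_, ?_⟩
    · rintro ⟨y, hy⟩
      obtain ⟨c, hc, rfl⟩ := hy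
      have hc0 : (c : F) ≠ 0 := by
        have := nonZeroDivisors.ne_zero hc
        intro h
        exact this (Subtype.ext h)
      have h1 : algebraMap S K (algebraMap O S c) = algebraMap F K (c : F) := rfl
      show IsUnit (algebraMap S K (algebraMap O S c))
      rw [h1]
      exact ((map_ne_zero (algebraMap F K)).2 hc0).isUnit
    · intro z
      obtain ⟨c, hc, hcz⟩ := hspan z
      refine ⟨(⟨c • z, hcz⟩, ⟨algebraMap O S c, ⟨c, mem_nonZeroDivisors_of_ne_zero hc, rfl⟩⟩), ?_⟩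
      show z * algebraMap S K (algebraMap O S c) = c • z
      rw [hsm]
      exact mul_comm _ _
    · intro a b hab
      refine ⟨1, ?_⟩
      have : a = b := Subtype.ext hab
      rw [this]
  let b := Module.Free.chooseBasis O S
  let bK := b.localizationLocalization F (nonZeroDivisors O) K
  have hbK : ∀ i, bK i = (b i : K) := fun i =>
    b.localizationLocalization_apply F (nonZeroDivisors O) K i
  set c := fun i => bK.repr x i with hc
  by_cases hall : ∀ i, c i ∈ O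
  · have h1 : x = ∑ i, c i • bK i := (bK.sum_repr x).symm
    have h2 : x = ((∑ i, (⟨c i, hall i⟩ : O) • b i : S) : K) := by
      rw [h1]
      push_cast
      refine Finset.sum_congr rfl fun i _ => ?_
      rw [hbK, Algebra.smul_def]
      exact (hsm ⟨c i, hall i⟩ (b i : K)).symm
    rw [h2]
    exact Subtype.property _
  · exfalso
    push Not at hall
    obtain ⟨i1, hi1⟩ := hall
    obtain ⟨i0, -, hmax⟩ := Finset.exists_max_image Finset.univ (fun i => O.valuation (c i))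
      ⟨i1, Finset.mem_univ i1⟩
    have hi0 : 1 < O.valuation (c i0) := by
      refine lt_of_lt_of_le ?_ (hmax i1 (Finset.mem_univ i1))
      rw [← not_le, O.valuation_le_one_iff]
      exact hi1
    have hc0 : c i0 ≠ 0 := by
      intro h
      rw [h, map_zero] at hi0
      exact absurd hi0 (by simp)
    have hd : ∀ i, c i / c i0 ∈ O := by
      intro i
      rw [← O.valuation_le_one_iff, map_div₀]
      exact div_le_one_of_le₀ (hmax i (Finset.mem_univ i)) zero_le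
    let y : S := ∑ i, (⟨c i / c i0, hd i⟩ : O) • b i
    have hy : (y : K) = (c i0)⁻¹ • x := by
      have h1 : x = ∑ i, c i • bK i := (bK.sum_repr x).symm
      conv_rhs => rw [h1]
      show ((∑ i, (⟨c i / c i0, hd i⟩ : O) • b i : S) : K) = _
      rw [AddSubmonoidClass.coe_finsetSum, Finset.smul_sum]
      refine Finset.sum_congr rfl fun i _ => ?_
      rw [hbK, smul_smul, Algebra.smul_def ((c i0)⁻¹ * c i)]
      refine (hsm ⟨c i / c i0, hd i⟩ (b i : K)).trans ?_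
      show algebraMap F K (c i / c i0) * (b i : K) = _
      rw [div_eq_mul_inv, mul_comm (c i)]
    have hyrep : b.repr y i0 = 1 := by
      show b.repr (∑ i, (⟨c i / c i0, hd i⟩ : O) • b i) i0 = 1
      rw [b.repr_sum_self]
      exact Subtype.ext (div_self hc0)
    have hybar : Ideal.Quotient.mk ((maximalIdeal O).map (algebraMap O S)) y ≠ 0 := by
      intro h
      have h1 := basisQuotient_repr b y i0
      rw [h, hyrep] at h1
      simp at h1
    have hchar : CharP (O ⧸ maximalIdeal O) p := by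
      rw [CharP.charP_iff_prime_eq_zero (Fact.out : p.Prime)]
      have h0 : ((p : ℕ) : O) = 0 := by
        apply Subtype.ext
        push_cast
        exact CharP.cast_eq_zero F p
      rw [← map_natCast (Ideal.Quotient.mk (maximalIdeal O)), h0, map_zero]
    have hfin : Module.Finite (O ⧸ maximalIdeal O) (S ⧸ (maximalIdeal O).map (algebraMap O S)) :=
      Module.Finite.of_basis (basisQuotient b)
    have hred' : IsReduced (S ⧸ (maximalIdeal O).map (algebraMap O S)) := hred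
    have key : ∀ yb : (S ⧸ (maximalIdeal O).map (algebraMap O S)), yb ≠ 0 →
        ∃ z : (S ⧸ (maximalIdeal O).map (algebraMap O S)),
          Algebra.trace (O ⧸ maximalIdeal O) (S ⧸ (maximalIdeal O).map (algebraMap O S)) (yb * z) ≠ 0 := by
      intro yb hyb
      refine @GK0 (O ⧸ maximalIdeal O) (S ⧸ (maximalIdeal O).map (algebraMap O S)) _ p _ hchar _ _ hfin hred' ?_ yb hyb
      have h5 := finrank_eq_card_basis (basisQuotient b)
      have h6 := finrank_eq_card_basis bK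
      rw [h6, ← h5] at hp
      exact hp
    obtain ⟨z, hz⟩ := key _ hybar
    obtain ⟨z, rfl⟩ := Ideal.Quotient.mk_surjective z
    rw [← map_mul, Algebra.trace_quotient_mk] at hz
    apply hz
    rw [Ideal.Quotient.eq_zero_iff_mem, ValuationSubring.valuation_lt_one_iff]
    have h1 : algebraMap O F (Algebra.trace O S (y * z)) = Algebra.trace F K ((y * z : S) : K) :=
      (Algebra.trace_localization O (nonZeroDivisors O) (y * z)).symm
    have h2 : Algebra.trace F K ((y * z : S) : K) = (c i0)⁻¹ * Algebra.trace F K (x * z) := by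
      push_cast
      rw [hy, smul_mul_assoc, map_smul, smul_eq_mul]
    show O.valuation (algebraMap O F (Algebra.trace O S (y * z))) < 1
    rw [h1, h2, map_mul, map_inv₀]
    have h3 := (O.valuation_le_one_iff _).2 (hx z z.2)
    calc (O.valuation (c i0))⁻¹ * O.valuation (Algebra.trace F K (x * z))
        ≤ (O.valuation (c i0))⁻¹ * 1 := mul_le_mul_right h3 _
      _ = (O.valuation (c i0))⁻¹ := mul_one _
      _ < 1 := by
        rw [inv_lt_one₀ (lt_trans zero_lt_one hi0)]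
        exact hi0

section

variable {k K : Type} [Field k] [Field K] [Algebra k K]

/-- evaluation of polynomials at `Y1`, `Y2` -/
def GK_ev (k : Type) {K : Type} [Field k] [Field K] [Algebra k K] (Y1 Y2 : K) :
    MvPolynomial (Fin 2) k →ₐ[k] K := aeval ![Y1, Y2]

lemma GK_ev_X0 (Y1 Y2 : K) : GK_ev k Y1 Y2 (X 0) = Y1 := by simp [GK_ev]
lemma GK_ev_X1 (Y1 Y2 : K) : GK_ev k Y1 Y2 (X 1) = Y2 := by simp [GK_ev]

lemma GK_deg_le (i j : ℕ) : (X 0 ^ i * X 1 ^ j : MvPolynomial (Fin 2) k).totalDegree ≤ i + j := by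
  refine (totalDegree_mul _ _).trans ?_
  rw [totalDegree_X_pow, totalDegree_X_pow]

lemma GK_ev_mem (Y1 Y2 : K) (P : MvPolynomial (Fin 2) k) :
    GK_ev k Y1 Y2 P ∈ AA k Y1 Y2 P.totalDegree := by
  rw [P.as_sum, map_sum, ← P.as_sum]
  refine Submodule.sum_mem _ fun m hm => ?_
  rw [GK_ev, aeval_monomial, ← Algebra.smul_def]
  refine Submodule.smul_mem _ _ (Submodule.subset_span ⟨m 0, m 1, ?_, ?_⟩)
  · have := le_totalDegree hm
    rw [Finsupp.sum_fintype _ _ (fun _ => rfl), Fin.sum_univ_two] at this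
    exact_mod_cast this
  · rw [Finsupp.prod_fintype _ _ (fun _ => pow_zero _), Fin.prod_univ_two]
    rfl

lemma GK_AA_mono (Y1 Y2 : K) {s t : ℤ} (h : s ≤ t) : AA k Y1 Y2 s ≤ AA k Y1 Y2 t := by
  apply Submodule.span_mono
  rintro x ⟨i, j, hij, rfl⟩
  exact ⟨i, j, hij.trans h, rfl⟩

lemma GK_mem_AA (Y1 Y2 : K) (s : ℤ) (x : K) : x ∈ AA k Y1 Y2 s ↔
    ∃ P : MvPolynomial (Fin 2) k, (P = 0 ∨ (P.totalDegree : ℤ) ≤ s) ∧ GK_ev k Y1 Y2 P = x := by
  constructor
  · intro h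
    refine Submodule.span_induction (p := fun x _ => ∃ P : MvPolynomial (Fin 2) k,
      (P = 0 ∨ (P.totalDegree : ℤ) ≤ s) ∧ GK_ev k Y1 Y2 P = x) ?_ ?_ ?_ ?_ h
    · rintro _ ⟨i, j, hij, rfl⟩
      refine ⟨X 0 ^ i * X 1 ^ j, Or.inr ?_, ?_⟩
      · have := GK_deg_le (k := k) i j
        have h2 : (((X 0 ^ i * X 1 ^ j : MvPolynomial (Fin 2) k).totalDegree : ℕ) : ℤ) ≤ ((i + j : ℕ) : ℤ) := by
          exact_mod_cast this
        push_cast at h2
        exact h2.trans hij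
      · rw [map_mul, map_pow, map_pow, GK_ev_X0, GK_ev_X1]
    · exact ⟨0, Or.inl rfl, map_zero _⟩
    · rintro a b - - ⟨P, hP, rfl⟩ ⟨Q, hQ, rfl⟩
      refine ⟨P + Q, ?_, map_add _ _ _⟩
      rcases hP with rfl | hP
      · rw [zero_add]; exact hQ
      rcases hQ with rfl | hQ
      · rw [add_zero]; exact Or.inr hP
      right
      have := totalDegree_add P Q
      have h2 : ((P + Q).totalDegree : ℤ) ≤ max (P.totalDegree : ℤ) Q.totalDegree := by
        exact_mod_cast this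
      exact h2.trans (max_le hP hQ)
    · rintro c a - ⟨P, hP, rfl⟩
      refine ⟨c • P, ?_, map_smul _ _ _⟩
      rcases hP with rfl | hP
      · left; rw [smul_zero]
      right
      have := totalDegree_smul_le c P
      have h2 : ((c • P).totalDegree : ℤ) ≤ P.totalDegree := by exact_mod_cast this
      exact h2.trans hP
  · rintro ⟨P, hP, rfl⟩
    rcases hP with rfl | hP
    · rw [map_zero]; exact Submodule.zero_mem _
    · exact GK_AA_mono Y1 Y2 hP (GK_ev_mem Y1 Y2 P)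

lemma GK_ev_inj {Y1 Y2 : K} (h : AlgebraicIndependent k ![Y1, Y2]) :
    Function.Injective (GK_ev k Y1 Y2) := h

lemma GK_ev_ne {Y1 Y2 : K} (h : AlgebraicIndependent k ![Y1, Y2]) {P : MvPolynomial (Fin 2) k}
    (hP : P ≠ 0) : GK_ev k Y1 Y2 P ≠ 0 := by
  rw [← map_zero (GK_ev k Y1 Y2)]
  exact fun he => hP (GK_ev_inj h he)

lemma GK_ev_notMem {Y1 Y2 : K} (h : AlgebraicIndependent k ![Y1, Y2])
    {Q : MvPolynomial (Fin 2) k} (hQ : Q ≠ 0) :
    GK_ev k Y1 Y2 Q ∉ AA k Y1 Y2 (Q.totalDegree - 1) := by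
  rw [GK_mem_AA]
  rintro ⟨P, hP, he⟩
  have := GK_ev_inj h he
  subst this
  rcases hP with h0 | h0
  · exact hQ h0
  · omega

lemma GK_ev_memFF (Y1 Y2 : K) (P : MvPolynomial (Fin 2) k) : GK_ev k Y1 Y2 P ∈ FF k Y1 Y2 := by
  have h1 : GK_ev k Y1 Y2 P ∈ Algebra.adjoin k (Set.range ![Y1, Y2]) := by
    rw [Algebra.adjoin_range_eq_range_aeval]
    exact ⟨P, rfl⟩
  have h2 : Set.range ![Y1, Y2] = {Y1, Y2} := by
    ext x; simp [eq_comm]; tauto
  rw [h2] at h1
  exact IntermediateField.algebra_adjoin_le_adjoin k _ h1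

lemma GK_FF_div (Y1 Y2 : K) (x : FF k Y1 Y2) : ∃ P Q : MvPolynomial (Fin 2) k,
    (x : K) = GK_ev k Y1 Y2 P / GK_ev k Y1 Y2 Q := by
  have h2 : ({Y1, Y2} : Set K) = Set.range ![Y1, Y2] := by
    ext x; simp [eq_comm]; tauto
  obtain ⟨r, hr, s, hs, hx⟩ := IntermediateField.mem_adjoin_iff_div.1 x.2
  rw [h2, Algebra.adjoin_range_eq_range_aeval] at hr hs
  obtain ⟨P, rfl⟩ := hr
  obtain ⟨Q, rfl⟩ := hs
  exact ⟨P, Q, hx⟩

/-- the valuation ring at infinity -/
def GK_O {Y1 Y2 : K} (h : AlgebraicIndependent k ![Y1, Y2]) : ValuationSubring (FF k Y1 Y2) where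
  carrier := {x | ∃ P Q : MvPolynomial (Fin 2) k, Q ≠ 0 ∧ P.totalDegree ≤ Q.totalDegree ∧
    (x : K) * GK_ev k Y1 Y2 Q = GK_ev k Y1 Y2 P}
  mul_mem' := by
    rintro a b ⟨P, Q, hQ, hd, he⟩ ⟨P', Q', hQ', hd', he'⟩
    refine ⟨P * P', Q * Q', mul_ne_zero hQ hQ', ?_, ?_⟩
    · rw [totalDegree_mul_of_isDomain hQ hQ']
      exact (totalDegree_mul _ _).trans (add_le_add hd hd')
    · rw [map_mul, map_mul, ← he, ← he']
      push_cast; ring
  one_mem' := ⟨1, 1, one_ne_zero, le_rfl, by simp⟩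
  add_mem' := by
    rintro a b ⟨P, Q, hQ, hd, he⟩ ⟨P', Q', hQ', hd', he'⟩
    refine ⟨P * Q' + P' * Q, Q * Q', mul_ne_zero hQ hQ', ?_, ?_⟩
    · rw [totalDegree_mul_of_isDomain hQ hQ']
      refine (totalDegree_add _ _).trans (max_le ?_ ?_)
      · exact (totalDegree_mul _ _).trans (add_le_add hd le_rfl)
      · refine (totalDegree_mul _ _).trans ?_
        rw [add_comm]
        exact add_le_add le_rfl hd'
    · rw [map_add, map_mul, map_mul, map_mul, ← he, ← he']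
      push_cast; ring
  zero_mem' := ⟨0, 1, one_ne_zero, by simp, by simp⟩
  neg_mem' := by
    rintro a ⟨P, Q, hQ, hd, he⟩
    refine ⟨-P, Q, hQ, by rwa [totalDegree_neg], ?_⟩
    rw [map_neg, ← he]
    push_cast; ring
  mem_or_inv_mem' := by
    intro x
    obtain ⟨P, Q, hx⟩ := GK_FF_div Y1 Y2 x
    by_cases hQ : Q = 0
    · left
      refine ⟨0, 1, one_ne_zero, by simp, ?_⟩
      rw [hx, hQ]; simp
    have hQ' := GK_ev_ne h hQ
    rcases le_or_gt P.totalDegree Q.totalDegree with hd | hd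
    · left
      refine ⟨P, Q, hQ, hd, ?_⟩
      rw [hx]; field_simp
    · right
      have hP : P ≠ 0 := by rintro rfl; simp at hd
      have hP' := GK_ev_ne h hP
      refine ⟨Q, P, hP, hd.le, ?_⟩
      push_cast
      rw [hx]; field_simp

lemma GK_mem_O {Y1 Y2 : K} (h : AlgebraicIndependent k ![Y1, Y2]) (x : FF k Y1 Y2) :
    x ∈ GK_O h ↔ ∃ P Q : MvPolynomial (Fin 2) k, Q ≠ 0 ∧ P.totalDegree ≤ Q.totalDegree ∧
    (x : K) * GK_ev k Y1 Y2 Q = GK_ev k Y1 Y2 P := Iff.rfl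

lemma GK_R_mono (G : Fil k K) {s t : ℤ} (h : s ≤ t) : G.R s ≤ G.R t := by
  obtain ⟨n, rfl⟩ : ∃ n : ℕ, t = s + n := ⟨(t - s).toNat, by omega⟩
  clear h
  induction n with
  | zero => simp
  | succ n ih =>
    refine ih.trans ((G.mono _).trans (le_of_eq ?_))
    push_cast; ring_nf

lemma GK_AA_le (G : Fil k K) (t : ℤ) : AA k G.Y1 G.Y2 t ≤ G.R t := by
  rw [AA, Submodule.span_le]
  rintro _ ⟨i, j, hij, rfl⟩
  exact GK_R_mono G hij (G.mul_mem (G.pow_mem G.Y1_mem i) (G.pow_mem G.Y2_mem j))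

lemma GK_ev_R (G : Fil k K) (P : MvPolynomial (Fin 2) k) :
    GK_ev k G.Y1 G.Y2 P ∈ G.R P.totalDegree := GK_AA_le G _ (GK_ev_mem _ _ P)

/-- the order at infinity -/
def GK_S (G : Fil k K) (h : AlgebraicIndependent k ![G.Y1, G.Y2]) :
    Subalgebra (GK_O h) K where
  carrier := {x | ∃ Q : MvPolynomial (Fin 2) k, Q ≠ 0 ∧ x * GK_ev k G.Y1 G.Y2 Q ∈ G.R Q.totalDegree}
  mul_mem' := by
    rintro a b ⟨Q, hQ, ha⟩ ⟨Q', hQ', hb⟩
    refine ⟨Q * Q', mul_ne_zero hQ hQ', ?_⟩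
    rw [totalDegree_mul_of_isDomain hQ hQ', map_mul]
    have := G.mul_mem ha hb
    push_cast
    rw [show a * b * (GK_ev k G.Y1 G.Y2 Q * GK_ev k G.Y1 G.Y2 Q') =
      a * GK_ev k G.Y1 G.Y2 Q * (b * GK_ev k G.Y1 G.Y2 Q') by ring]
    exact this
  add_mem' := by
    rintro a b ⟨Q, hQ, ha⟩ ⟨Q', hQ', hb⟩
    refine ⟨Q * Q', mul_ne_zero hQ hQ', ?_⟩
    rw [totalDegree_mul_of_isDomain hQ hQ', map_mul]
    have h1 := G.mul_mem ha (GK_ev_R G Q')
    have h2 := G.mul_mem hb (GK_ev_R G Q)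
    rw [add_comm (Q'.totalDegree : ℤ)] at h2
    push_cast
    rw [show (a + b) * (GK_ev k G.Y1 G.Y2 Q * GK_ev k G.Y1 G.Y2 Q') =
      a * GK_ev k G.Y1 G.Y2 Q * GK_ev k G.Y1 G.Y2 Q' +
      b * GK_ev k G.Y1 G.Y2 Q' * GK_ev k G.Y1 G.Y2 Q by ring]
    exact Submodule.add_mem _ h1 h2
  algebraMap_mem' := by
    rintro ⟨x, P, Q, hQ, hd, he⟩
    refine ⟨Q, hQ, ?_⟩
    show (x : K) * _ ∈ _
    rw [he]
    exact GK_R_mono G (by exact_mod_cast hd) (GK_ev_R G P)

lemma GK_mem_S (G : Fil k K) (h : AlgebraicIndependent k ![G.Y1, G.Y2]) (x : K) :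
    x ∈ GK_S G h ↔ ∃ Q : MvPolynomial (Fin 2) k, Q ≠ 0 ∧
      x * GK_ev k G.Y1 G.Y2 Q ∈ G.R Q.totalDegree := Iff.rfl

/-- the element `1 / Y1` -/
lemma GK_Y1_ne {Y1 Y2 : K} (h : AlgebraicIndependent k ![Y1, Y2]) : Y1 ≠ 0 := by
  have := GK_ev_ne h (X_ne_zero (R := k) (0 : Fin 2))
  rwa [GK_ev_X0] at this

lemma GK_X0_pow_ne (n : ℕ) : (X 0 ^ n : MvPolynomial (Fin 2) k) ≠ 0 :=
  pow_ne_zero _ (X_ne_zero _)

lemma GK_ratio_mem {Y1 Y2 : K} (h : AlgebraicIndependent k ![Y1, Y2])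
    (P Q : MvPolynomial (Fin 2) k) (hQ : Q ≠ 0) (hd : P.totalDegree ≤ Q.totalDegree) :
    ∃ c : GK_O h, ((c : FF k Y1 Y2) : K) = GK_ev k Y1 Y2 P / GK_ev k Y1 Y2 Q := by
  let a : FF k Y1 Y2 := ⟨GK_ev k Y1 Y2 P, GK_ev_memFF _ _ _⟩
  let b : FF k Y1 Y2 := ⟨GK_ev k Y1 Y2 Q, GK_ev_memFF _ _ _⟩
  have hQ' := GK_ev_ne h hQ
  have hm : a / b ∈ GK_O h := by
    rw [GK_mem_O]
    refine ⟨P, Q, hQ, hd, ?_⟩
    push_cast
    show GK_ev k Y1 Y2 P / GK_ev k Y1 Y2 Q * _ = _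
    field_simp
  exact ⟨⟨a / b, hm⟩, by push_cast; rfl⟩

lemma GK_smul {Y1 Y2 : K} (h : AlgebraicIndependent k ![Y1, Y2]) (c : GK_O h) (y : K) :
    c • y = ((c : FF k Y1 Y2) : K) * y := by
  rw [Algebra.smul_def]; rfl

lemma GK_finite (G : Fil k K) (h : AlgebraicIndependent k ![G.Y1, G.Y2])
    (fin_dim : ∀ t : ℤ, Module.Finite k (G.R t))
    (fin_gen : ∃ t0 : ℤ, ∀ t : ℤ, t0 ≤ t → ∀ x ∈ G.R (t + 1),
      ∃ a ∈ G.R t, ∃ b ∈ G.R t, ∃ c ∈ G.R t, x = a + G.Y1 * b + G.Y2 * c) :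
    Module.Finite (GK_O h) (GK_S G h) := by
  classical
  obtain ⟨t0, ht0⟩ := fin_gen
  set N : ℕ := t0.toNat with hN
  have hN' : t0 ≤ N := by omega
  have hfg : (G.R N).FG := Module.Finite.iff_fg.1 (fin_dim N)
  obtain ⟨T, hT⟩ := hfg
  have hY := GK_Y1_ne h
  set W : Set K := (fun v => v / G.Y1 ^ N) '' (T : Set K) with hW
  have hWfin : W.Finite := T.finite_toSet.image _
  -- the claim
  have claim : ∀ n : ℕ, ∀ y ∈ G.R ((N + n : ℕ) : ℤ), y / G.Y1 ^ (N + n) ∈ Submodule.span (GK_O h) W := by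
    intro n
    induction n with
    | zero =>
      intro y hy
      rw [add_zero] at hy ⊢
      rw [← hT] at hy
      refine Submodule.span_induction (p := fun y _ => y / G.Y1 ^ N ∈ Submodule.span (GK_O h) W)
        ?_ ?_ ?_ ?_ hy
      · intro v hv
        exact Submodule.subset_span ⟨v, hv, rfl⟩
      · rw [zero_div]; exact Submodule.zero_mem _
      · intro a b _ _ ha hb
        rw [add_div]; exact Submodule.add_mem _ ha hb
      · intro c a _ ha
        obtain ⟨c', hc'⟩ := GK_ratio_mem h (C c) 1 one_ne_zero (by simp)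
        have : (c • a) / G.Y1 ^ N = c' • (a / G.Y1 ^ N) := by
          rw [GK_smul, hc', map_one, div_one, Algebra.smul_def]
          rw [show GK_ev k G.Y1 G.Y2 (C c) = algebraMap k K c by simp [GK_ev]]
          ring
        rw [this]
        exact Submodule.smul_mem _ _ ha
    | succ n ih =>
      intro y hy
      obtain ⟨a, ha, b, hb, c, hc, rfl⟩ := ht0 ((N + n : ℕ) : ℤ) (by push_cast; omega) y
        (by have : ((N + (n + 1) : ℕ) : ℤ) = ((N + n : ℕ) : ℤ) + 1 := by push_cast; ring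
            rwa [this] at hy)
      obtain ⟨c1, hc1⟩ := GK_ratio_mem h 1 (X 0) (X_ne_zero _) (by simp)
      obtain ⟨c2, hc2⟩ := GK_ratio_mem h (X 1) (X 0) (X_ne_zero _) (by simp)
      rw [GK_ev_X0, map_one] at hc1
      rw [GK_ev_X0, GK_ev_X1] at hc2
      have e : (a + G.Y1 * b + G.Y2 * c) / G.Y1 ^ (N + (n + 1)) =
          c1 • (a / G.Y1 ^ (N + n)) + b / G.Y1 ^ (N + n) + c2 • (c / G.Y1 ^ (N + n)) := by
        rw [GK_smul, GK_smul, hc1, hc2]
        field_simp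
        ring
      rw [e]
      exact Submodule.add_mem _ (Submodule.add_mem _ (Submodule.smul_mem _ _ (ih a ha)) (ih b hb))
        (Submodule.smul_mem _ _ (ih c hc))
  have hle : Subalgebra.toSubmodule (GK_S G h) = Submodule.span (GK_O h) W := by
    apply le_antisymm
    · intro x hx
      obtain ⟨Q, hQ, hx⟩ := (GK_mem_S G h x).1 hx
      have hQ' := GK_ev_ne h hQ
      have h1 : x * GK_ev k G.Y1 G.Y2 Q * G.Y1 ^ N ∈ G.R ((N + Q.totalDegree : ℕ) : ℤ) := by
        have := G.mul_mem hx (G.pow_mem G.Y1_mem N)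
        rw [add_comm] at this
        push_cast
        exact this
      have h2 := claim _ _ h1
      obtain ⟨c, hc⟩ := GK_ratio_mem h (X 0 ^ Q.totalDegree) Q hQ (by rw [totalDegree_X_pow])
      rw [map_pow, GK_ev_X0] at hc
      have e : x = c • (x * GK_ev k G.Y1 G.Y2 Q * G.Y1 ^ N / G.Y1 ^ (N + Q.totalDegree)) := by
        rw [GK_smul, hc]
        field_simp
        ring
      rw [e]
      exact Submodule.smul_mem _ _ h2
    · rw [Submodule.span_le]
      rintro _ ⟨v, hv, rfl⟩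
      have hv' : v ∈ G.R N := by rw [← hT]; exact Submodule.subset_span hv
      show _ ∈ GK_S G h
      rw [GK_mem_S]
      refine ⟨X 0 ^ N, GK_X0_pow_ne N, ?_⟩
      rw [map_pow, GK_ev_X0, totalDegree_X_pow]
      simp only
      rw [div_mul_cancel₀ _ (pow_ne_zero _ hY)]
      exact hv'
  have hfg : (Subalgebra.toSubmodule (GK_S G h)).FG := by
    rw [hle]
    exact Submodule.fg_span hWfin
  exact Module.Finite.iff_fg.2 hfg

lemma GK_span (G : Fil k K) (h : AlgebraicIndependent k ![G.Y1, G.Y2])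
    [FiniteDimensional (FF k G.Y1 G.Y2) K]
    (frac : ∀ x : K, ∃ t : ℤ, ∃ a ∈ G.R t, ∃ b ∈ G.R t, b ≠ 0 ∧ x = a / b) (x : K) :
    ∃ c : GK_O h, c ≠ 0 ∧ c • x ∈ GK_S G h := by
  have hY := GK_Y1_ne h
  let M : Subalgebra (FF k G.Y1 G.Y2) K :=
    { carrier := {x | ∃ Q : MvPolynomial (Fin 2) k, Q ≠ 0 ∧ ∃ t : ℕ, x * GK_ev k G.Y1 G.Y2 Q ∈ G.R t}
      mul_mem' := by
        rintro a b ⟨Q, hQ, s, ha⟩ ⟨Q', hQ', t, hb⟩
        refine ⟨Q * Q', mul_ne_zero hQ hQ', s + t, ?_⟩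
        have := G.mul_mem ha hb
        rw [map_mul]
        push_cast
        rw [show a * b * (GK_ev k G.Y1 G.Y2 Q * GK_ev k G.Y1 G.Y2 Q') =
          a * GK_ev k G.Y1 G.Y2 Q * (b * GK_ev k G.Y1 G.Y2 Q') by ring]
        exact this
      add_mem' := by
        rintro a b ⟨Q, hQ, s, ha⟩ ⟨Q', hQ', t, hb⟩
        refine ⟨Q * Q', mul_ne_zero hQ hQ', s + t + Q.totalDegree + Q'.totalDegree, ?_⟩
        have h1 := G.mul_mem ha (GK_ev_R G Q')
        have h2 := G.mul_mem hb (GK_ev_R G Q)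
        rw [map_mul]
        rw [show (a + b) * (GK_ev k G.Y1 G.Y2 Q * GK_ev k G.Y1 G.Y2 Q') =
          a * GK_ev k G.Y1 G.Y2 Q * GK_ev k G.Y1 G.Y2 Q' +
          b * GK_ev k G.Y1 G.Y2 Q' * GK_ev k G.Y1 G.Y2 Q by ring]
        refine Submodule.add_mem _ (GK_R_mono G ?_ h1) (GK_R_mono G ?_ h2) <;> (push_cast; omega)
      algebraMap_mem' := by
        intro x
        obtain ⟨P, Q, hx⟩ := GK_FF_div G.Y1 G.Y2 x
        by_cases hQ : Q = 0
        · refine ⟨1, one_ne_zero, 0, ?_⟩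
          show (x : K) * _ ∈ _
          rw [hx, hQ]; simp
        · have hQ' := GK_ev_ne h hQ
          refine ⟨Q, hQ, P.totalDegree, ?_⟩
          show (x : K) * _ ∈ _
          rw [hx, div_mul_cancel₀ _ hQ']
          exact GK_ev_R G P }
  have hR : ∀ (t : ℤ) (a : K), a ∈ G.R t → a ∈ M := by
    intro t a ha
    refine ⟨1, one_ne_zero, t.toNat, ?_⟩
    rw [map_one, mul_one]
    exact GK_R_mono G (by omega) ha
  have hx : x ∈ M := by
    obtain ⟨t, a, ha, b, hb, -, rfl⟩ := frac x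
    rw [div_eq_mul_inv]
    refine M.mul_mem (hR t a ha) ?_
    exact M.inv_mem_of_algebraic (x := ⟨b, hR t b hb⟩) (Algebra.IsAlgebraic.isAlgebraic b)
  obtain ⟨Q, hQ, t, hx⟩ := hx
  set n := max t Q.totalDegree with hn
  obtain ⟨c, hc⟩ := GK_ratio_mem h Q (X 0 ^ n) (GK_X0_pow_ne n)
    (by rw [totalDegree_X_pow]; exact le_max_right _ _)
  rw [map_pow, GK_ev_X0] at hc
  refine ⟨c, ?_, ?_⟩
  · rintro rfl
    have h0 : ((0 : GK_O h) : FF k G.Y1 G.Y2) = 0 := rfl
    rw [h0] at hc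
    have h1 := GK_ev_ne h hQ
    have h2 := pow_ne_zero n hY
    have : GK_ev k G.Y1 G.Y2 Q / G.Y1 ^ n ≠ 0 := div_ne_zero h1 h2
    exact this hc.symm
  · rw [GK_mem_S]
    refine ⟨X 0 ^ n, GK_X0_pow_ne n, ?_⟩
    rw [GK_smul, hc, map_pow, GK_ev_X0, totalDegree_X_pow]
    rw [show GK_ev k G.Y1 G.Y2 Q / G.Y1 ^ n * x * G.Y1 ^ n = x * GK_ev k G.Y1 G.Y2 Q by
      field_simp]
    exact GK_R_mono G (by exact_mod_cast le_max_left _ _) hx

/-- the uniformiser `1 / Y1` generates the maximal ideal -/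
lemma GK_max {Y1 Y2 : K} (h : AlgebraicIndependent k ![Y1, Y2]) : ∃ π : GK_O h,
    ((π : FF k Y1 Y2) : K) = 1 / Y1 ∧ IsLocalRing.maximalIdeal (GK_O h) = Ideal.span {π} := by
  obtain ⟨π, hπ⟩ := GK_ratio_mem h 1 (X 0) (X_ne_zero _) (by simp)
  rw [GK_ev_X0, map_one] at hπ
  have hY := GK_Y1_ne h
  refine ⟨π, hπ, ?_⟩
  apply le_antisymm
  · intro x hx
    rw [Ideal.mem_span_singleton']
    obtain ⟨P, Q, hQ, hd, he⟩ := (GK_mem_O h _).1 x.2
    have hQ' := GK_ev_ne h hQ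
    have hlt : P = 0 ∨ P.totalDegree < Q.totalDegree := by
      by_contra hcon
      push Not at hcon
      obtain ⟨hP, hle⟩ := hcon
      have hP' := GK_ev_ne h hP
      obtain ⟨y, hy⟩ := GK_ratio_mem h Q P hP hle
      apply (IsLocalRing.mem_maximalIdeal x).1 hx
      refine IsUnit.of_mul_eq_one y ?_
      apply Subtype.ext
      apply Subtype.ext
      push_cast
      rw [hy]
      have : ((x : FF k Y1 Y2) : K) = GK_ev k Y1 Y2 P / GK_ev k Y1 Y2 Q := by
        rw [← he]; field_simp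
      rw [this]
      field_simp
    have hd2 : (X 0 * P).totalDegree ≤ Q.totalDegree := by
      rcases hlt with rfl | hlt
      · simp
      · refine (totalDegree_mul _ _).trans ?_
        rw [totalDegree_X]; omega
    obtain ⟨y, hy⟩ := GK_ratio_mem h (X 0 * P) Q hQ hd2
    refine ⟨y, ?_⟩
    apply Subtype.ext
    apply Subtype.ext
    push_cast
    rw [hy, hπ, map_mul, GK_ev_X0]
    have : ((x : FF k Y1 Y2) : K) = GK_ev k Y1 Y2 P / GK_ev k Y1 Y2 Q := by
      rw [← he]; field_simp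
    rw [this]
    field_simp
  · rw [Ideal.span_le, Set.singleton_subset_iff]
    rw [SetLike.mem_coe, IsLocalRing.mem_maximalIdeal, mem_nonunits_iff]
    intro hu
    obtain ⟨y, hy⟩ := hu.exists_right_inv
    obtain ⟨P, Q, hQ, hd, he⟩ := (GK_mem_O h _).1 y.2
    have h1 : ((y : FF k Y1 Y2) : K) = Y1 := by
      have : ((π * y : GK_O h) : FF k Y1 Y2) = ((1 : GK_O h) : FF k Y1 Y2) := by rw [hy]
      have := congrArg (fun z : FF k Y1 Y2 => (z : K)) this
      push_cast at this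
      rw [hπ] at this
      field_simp at this
      exact this
    rw [h1] at he
    have h2 : GK_ev k Y1 Y2 (X 0 * Q) = GK_ev k Y1 Y2 P := by
      rw [map_mul, GK_ev_X0]; exact he
    have h3 := GK_ev_inj h h2
    rw [← h3, totalDegree_mul_of_isDomain (X_ne_zero _) hQ, totalDegree_X] at hd
    omega

lemma GK_mem_map (G : Fil k K) (h : AlgebraicIndependent k ![G.Y1, G.Y2]) (y : GK_S G h) :
    y ∈ (IsLocalRing.maximalIdeal (GK_O h)).map (algebraMap (GK_O h) (GK_S G h)) ↔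
      G.Y1 * (y : K) ∈ GK_S G h := by
  obtain ⟨π, hπ, hm⟩ := GK_max h
  have hY := GK_Y1_ne h
  have hval : ((algebraMap (GK_O h) (GK_S G h) π : GK_S G h) : K) = 1 / G.Y1 := hπ
  rw [hm, Ideal.map_span, Set.image_singleton, Ideal.mem_span_singleton']
  constructor
  · rintro ⟨z, rfl⟩
    have : G.Y1 * ((z * algebraMap (GK_O h) (GK_S G h) π : GK_S G h) : K) = (z : K) := by
      rw [MulMemClass.coe_mul, hval]; field_simp
    rw [this]
    exact z.2
  · intro hy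
    refine ⟨⟨G.Y1 * (y : K), hy⟩, ?_⟩
    apply Subtype.ext
    rw [MulMemClass.coe_mul, hval]
    show G.Y1 * (y : K) * (1 / G.Y1) = y
    field_simp

lemma GK_red (G : Fil k K) (h : AlgebraicIndependent k ![G.Y1, G.Y2])
    (sat : ∀ (s t : ℤ) (g x : K), g ∈ AA k G.Y1 G.Y2 s → g ∉ AA k G.Y1 G.Y2 (s - 1) →
      x ∈ G.R t → g * x ∈ G.R (s + t - 1) → x ∈ G.R (t - 1))
    (red : ∀ (t : ℤ) (n : ℕ) (x : K), 0 < n → x ∈ G.R t → x ^ n ∈ G.R (n * t - 1) →
      x ∈ G.R (t - 1)) :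
    IsReduced (GK_S G h ⧸
      (IsLocalRing.maximalIdeal (GK_O h)).map (algebraMap (GK_O h) (GK_S G h))) := by
  rw [← Ideal.isRadical_iff_quotient_reduced]
  rintro y ⟨n, hn⟩
  rcases Nat.eq_zero_or_pos n with rfl | hn0
  · rw [pow_zero] at hn
    rw [(Ideal.eq_top_iff_one _).2 hn]
    trivial
  rw [GK_mem_map] at hn ⊢
  obtain ⟨Q, hQ, hy⟩ := (GK_mem_S G h _).1 y.2
  obtain ⟨Q', hQ', hy'⟩ := (GK_mem_S G h _).1 hn
  rw [GK_mem_S]
  refine ⟨Q, hQ, ?_⟩
  set e := GK_ev k G.Y1 G.Y2 Q with he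
  set e' := GK_ev k G.Y1 G.Y2 Q' with he'
  have hpow : ∀ m : ℕ, ((y : K) * e) ^ m ∈ G.R ((m : ℤ) * Q.totalDegree) := by
    intro m
    induction m with
    | zero => simpa using G.one_mem
    | succ m ih =>
      rw [pow_succ]
      have := G.mul_mem ih hy
      refine GK_R_mono G (le_of_eq ?_) this
      push_cast; ring
  have hepow : ∀ m : ℕ, e ^ m ∈ G.R ((m : ℤ) * Q.totalDegree) := by
    intro m
    induction m with
    | zero => simpa using G.one_mem
    | succ m ih =>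
      rw [pow_succ]
      have := G.mul_mem ih (GK_ev_R G Q)
      refine GK_R_mono G (le_of_eq ?_) this
      push_cast; ring
  have hX : (X 0 * Q' : MvPolynomial (Fin 2) k) ≠ 0 := mul_ne_zero (X_ne_zero _) hQ'
  have hXd : ((X 0 * Q' : MvPolynomial (Fin 2) k).totalDegree : ℤ) = 1 + Q'.totalDegree := by
    rw [totalDegree_mul_of_isDomain (X_ne_zero _) hQ', totalDegree_X]; push_cast; rfl
  have h1 : ((y : K) * e) ^ n ∈ G.R ((n : ℤ) * Q.totalDegree - 1) := by
    refine sat ((X 0 * Q' : MvPolynomial (Fin 2) k).totalDegree) _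
      (GK_ev k G.Y1 G.Y2 (X 0 * Q')) _ (GK_ev_mem _ _ _) (GK_ev_notMem h hX) (hpow n) ?_
    rw [map_mul, GK_ev_X0, ← he', hXd]
    have := G.mul_mem (hepow n) hy'
    push_cast at this
    rw [show G.Y1 * e' * ((y : K) * e) ^ n = e ^ n * (G.Y1 * (y : K) ^ n * e') by ring]
    refine GK_R_mono G (le_of_eq ?_) this
    ring
  have h2 := red _ n _ hn0 hy h1
  have h3 := G.mul_mem G.Y1_mem h2
  rw [show G.Y1 * (y : K) * e = G.Y1 * ((y : K) * e) by ring]
  refine GK_R_mono G (le_of_eq ?_) h3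
  ring

set_option maxHeartbeats 1000000 in
/-- **Task GK.** Duality at infinity. -/
theorem GK (p : ℕ) [Fact p.Prime] [CharP k p] (hp : 1715 < p) (G : Fil k K)
    (algInd : AlgebraicIndependent k ![G.Y1, G.Y2])
    (fin_dim : ∀ t : ℤ, Module.Finite k (G.R t))
    (fin_gen : ∃ t0 : ℤ, ∀ t : ℤ, t0 ≤ t → ∀ x ∈ G.R (t + 1),
      ∃ a ∈ G.R t, ∃ b ∈ G.R t, ∃ c ∈ G.R t, x = a + G.Y1 * b + G.Y2 * c)
    (frac : ∀ x : K, ∃ t : ℤ, ∃ a ∈ G.R t, ∃ b ∈ G.R t, b ≠ 0 ∧ x = a / b)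
    (sat : ∀ (s t : ℤ) (g x : K), g ∈ AA k G.Y1 G.Y2 s → g ∉ AA k G.Y1 G.Y2 (s - 1) →
      x ∈ G.R t → g * x ∈ G.R (s + t - 1) → x ∈ G.R (t - 1))
    (red : ∀ (t : ℤ) (n : ℕ) (x : K), 0 < n → x ∈ G.R t → x ^ n ∈ G.R (n * t - 1) →
      x ∈ G.R (t - 1))
    (degree : Module.finrank (FF k G.Y1 G.Y2) K = 1715) (j : ℤ) (x : K)
    (hx : ∀ (s : ℤ) (a : K), a ∈ G.R s →
      algebraMap (FF k G.Y1 G.Y2) K (Algebra.trace (FF k G.Y1 G.Y2) K (x * a)) ∈
        AA k G.Y1 G.Y2 (s + j)) :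
    ∃ (s : ℤ) (h : K), h ∈ AA k G.Y1 G.Y2 s ∧ h ∉ AA k G.Y1 G.Y2 (s - 1) ∧
      h * x ∈ G.R (s + j) := by
  have hfd : FiniteDimensional (FF k G.Y1 G.Y2) K :=
    FiniteDimensional.of_finrank_pos (by rw [degree]; norm_num)
  have hchar : CharP (FF k G.Y1 G.Y2) p :=
    charP_of_injective_algebraMap (algebraMap k (FF k G.Y1 G.Y2)).injective p
  have hY := GK_Y1_ne algInd
  have hfin := GK_finite G algInd fin_dim fin_gen
  have hdual := GK_dual p (by rw [degree]; exact hp) (GK_O algInd) (GK_S G algInd)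
    (GK_span G algInd frac) (GK_red G algInd sat red)
  -- traces against elements of the order
  have htr : ∀ a ∈ GK_S G algInd, ∃ P Q : MvPolynomial (Fin 2) k, Q ≠ 0 ∧
      (P = 0 ∨ (P.totalDegree : ℤ) ≤ Q.totalDegree + j) ∧
      ((Algebra.trace (FF k G.Y1 G.Y2) K (x * a) : FF k G.Y1 G.Y2) : K) * GK_ev k G.Y1 G.Y2 Q =
        GK_ev k G.Y1 G.Y2 P := by
    intro a ha
    obtain ⟨Q, hQ, ha⟩ := (GK_mem_S G algInd a).1 ha
    have h1 := hx _ _ ha
    obtain ⟨P, hP, he⟩ := (GK_mem_AA _ _ _ _).1 h1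
    refine ⟨P, Q, hQ, hP, ?_⟩
    rw [he]
    let q : FF k G.Y1 G.Y2 := ⟨GK_ev k G.Y1 G.Y2 Q, GK_ev_memFF _ _ _⟩
    have h2 : x * (a * GK_ev k G.Y1 G.Y2 Q) = q • (x * a) := by
      rw [Algebra.smul_def]
      show _ = GK_ev k G.Y1 G.Y2 Q * (x * a)
      ring
    rw [h2, map_smul, smul_eq_mul, map_mul (algebraMap (FF k G.Y1 G.Y2) K)]
    exact mul_comm _ _
  let y1 : FF k G.Y1 G.Y2 := ⟨G.Y1, by
    have := GK_ev_memFF (k := k) G.Y1 G.Y2 (X 0)
    rwa [GK_ev_X0] at this⟩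
  have hy1 : y1 ≠ 0 := by
    intro h
    exact hY (congrArg Subtype.val h)
  rcases le_total 0 j with hj | hj
  · obtain ⟨m, rfl⟩ : ∃ m : ℕ, j = m := ⟨j.toNat, by omega⟩
    have hx' : x / G.Y1 ^ m ∈ GK_S G algInd := by
      apply hdual
      intro a ha
      obtain ⟨P, Q, hQ, hP, he⟩ := htr a ha
      rw [GK_mem_O]
      refine ⟨P, Q * X 0 ^ m, mul_ne_zero hQ (GK_X0_pow_ne m), ?_, ?_⟩
      · rw [totalDegree_mul_of_isDomain hQ (GK_X0_pow_ne m), totalDegree_X_pow]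
        rcases hP with rfl | hP
        · simp
        · exact_mod_cast hP
      · have h2 : x / G.Y1 ^ m * a = (y1 ^ m)⁻¹ • (x * a) := by
          rw [Algebra.smul_def]
          show _ = (((y1 ^ m)⁻¹ : FF k G.Y1 G.Y2) : K) * (x * a)
          push_cast
          show _ = (G.Y1 ^ m)⁻¹ * (x * a)
          field_simp
        rw [h2, map_smul, smul_eq_mul, map_mul (GK_ev k G.Y1 G.Y2), map_pow (GK_ev k G.Y1 G.Y2),
          GK_ev_X0, ← he]
        generalize Algebra.trace (FF k G.Y1 G.Y2) K (x * a) = tr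
        push_cast
        show (G.Y1 ^ m)⁻¹ * (tr : K) * _ = _
        field_simp
    obtain ⟨Q, hQ, hxQ⟩ := (GK_mem_S G algInd _).1 hx'
    refine ⟨Q.totalDegree, GK_ev k G.Y1 G.Y2 Q, GK_ev_mem _ _ _, GK_ev_notMem algInd hQ, ?_⟩
    have := G.mul_mem hxQ (G.pow_mem G.Y1_mem m)
    rw [show GK_ev k G.Y1 G.Y2 Q * x = x / G.Y1 ^ m * GK_ev k G.Y1 G.Y2 Q * G.Y1 ^ m by
      field_simp]
    exact this
  · obtain ⟨m, rfl⟩ : ∃ m : ℕ, j = -m := ⟨(-j).toNat, by omega⟩
    have hx' : x * G.Y1 ^ m ∈ GK_S G algInd := by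
      apply hdual
      intro a ha
      obtain ⟨P, Q, hQ, hP, he⟩ := htr a ha
      rw [GK_mem_O]
      refine ⟨X 0 ^ m * P, Q, hQ, ?_, ?_⟩
      · rcases hP with rfl | hP
        · simp
        · refine (totalDegree_mul _ _).trans ?_
          rw [totalDegree_X_pow]
          omega
      · have h2 : x * G.Y1 ^ m * a = (y1 ^ m) • (x * a) := by
          rw [Algebra.smul_def]
          show _ = ((y1 ^ m : FF k G.Y1 G.Y2) : K) * (x * a)
          push_cast
          show _ = (G.Y1 ^ m) * (x * a)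
          ring
        rw [h2, map_smul, smul_eq_mul, map_mul (GK_ev k G.Y1 G.Y2), map_pow (GK_ev k G.Y1 G.Y2),
          GK_ev_X0, ← he]
        generalize Algebra.trace (FF k G.Y1 G.Y2) K (x * a) = tr
        push_cast
        show G.Y1 ^ m * (tr : K) * _ = _
        ring
    obtain ⟨Q, hQ, hxQ⟩ := (GK_mem_S G algInd _).1 hx'
    obtain ⟨Q2, hQ2⟩ : ∃ Q2 : MvPolynomial (Fin 2) k, Q2 = Q * X 0 ^ m := ⟨_, rfl⟩
    have hQm : Q2 ≠ 0 := by rw [hQ2]; exact mul_ne_zero hQ (GK_X0_pow_ne m)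
    have hQd : (Q2.totalDegree : ℤ) = Q.totalDegree + m := by
      rw [hQ2, totalDegree_mul_of_isDomain hQ (GK_X0_pow_ne m), totalDegree_X_pow]
      push_cast; rfl
    have hQe : GK_ev k G.Y1 G.Y2 Q2 = GK_ev k G.Y1 G.Y2 Q * G.Y1 ^ m := by
      rw [hQ2, map_mul, map_pow, GK_ev_X0]
    refine ⟨Q2.totalDegree, GK_ev k G.Y1 G.Y2 Q2, GK_ev_mem _ _ _,
      GK_ev_notMem algInd hQm, ?_⟩
    rw [hQe, hQd]
    rw [show GK_ev k G.Y1 G.Y2 Q * G.Y1 ^ m * x = x * G.Y1 ^ m * GK_ev k G.Y1 G.Y2 Q by ring]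
    refine GK_R_mono G (le_of_eq ?_) hxQ
    ring

end

end

end Pool.Agent.H54R2.Ul
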