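import Pool.Agent.H54R2.Ul.Defs3

namespace Pool.Agent.H54R2.Ul

open MvPolynomial

noncomputable section

variable {k K : Type} [Field k] [Field K] [Algebra k K]

/-- **Task GK0.** The trace form of a small reduced algebra. -/
theorem GK0 {κ Λ : Type} [Field κ] (p : ℕ) [Fact p.Prime] [CharP κ p] [CommRing Λ] [Algebra κ Λ]
    [Module.Finite κ Λ] [IsReduced Λ] (hd : Module.finrank κ Λ < p) (y : Λ) (hy : y ≠ 0) :
    ∃ z : Λ, Algebra.trace κ Λ (y * z) ≠ 0 := by
  have : IsArtinianRing Λ := IsArtinianRing.of_finite κ Λ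
  obtain ⟨n, c, hc⟩ := IsArtinian.exists_pow_succ_smul_dvd y (1 : Λ)
  simp only [smul_eq_mul, mul_one] at hc
  have h1 : y ^ n * (1 - y * c) = 0 := by
    have : y ^ (n + 1) * c = y ^ n := hc
    rw [mul_sub, mul_one, ← mul_assoc, ← pow_succ, this, sub_self]
  have h2 : (y * (1 - y * c)) ^ (n + 1) = 0 := by
    have : (y * (1 - y * c)) ^ (n + 1) = y ^ n * (1 - y * c) * (y * (1 - y * c) ^ n) := by
      rw [mul_pow]; ring
    rw [this, h1, zero_mul]
  have h3 : y * (1 - y * c) = 0 := (pow_eq_zero_iff (Nat.succ_ne_zero n)).1 h2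
  have h4 : y = y * y * c := by linear_combination h3
  refine ⟨c, ?_⟩
  set e := y * c with he
  have hee : e * e = e := by
    rw [he]
    calc y * c * (y * c) = (y * y * c) * c := by ring
      _ = y * c := by rw [← h4]
  have hne : e ≠ 0 := by
    intro h0
    apply hy
    rw [h4, mul_assoc, ← he, h0, mul_zero]
  rw [Algebra.trace_apply]
  have hid : IsIdempotentElem (Algebra.lmul κ Λ e : Λ →ₗ[κ] Λ) := by
    unfold IsIdempotentElem
    rw [← map_mul, hee]
  have ht := (LinearMap.isProj_range_iff_isIdempotentElem _ |>.2 hid).trace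
  rw [ht]
  have hle : Module.finrank κ (LinearMap.range (Algebra.lmul κ Λ e : Λ →ₗ[κ] Λ)) < p :=
    lt_of_le_of_lt (Submodule.finrank_le _) hd
  have hpos : 0 < Module.finrank κ (LinearMap.range (Algebra.lmul κ Λ e : Λ →ₗ[κ] Λ)) := by
    rw [Module.finrank_pos_iff]
    refine ⟨⟨⟨e, ⟨1, by simp⟩⟩, 0, ?_⟩⟩
    intro h
    exact hne (congrArg Subtype.val h)
  intro h0
  rw [CharP.cast_eq_zero_iff κ p] at h0
  exact absurd (Nat.le_of_dvd hpos h0) (not_le.2 hle)

end

end Pool.Agent.H54R2.Ul
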