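import Pool.Agent.H54R2.Ul.GMaux

namespace Pool.Agent.H54R2.Ul

open MvPolynomial

noncomputable section

variable {k K : Type} [Field k] [Field K] [Algebra k K]

/-- polynomials of total degree at most `n`, as a span of monomials -/
def GM1_P (k : Type) [Field k] (n : ℕ) : Submodule k (MvPolynomial (Fin 2) k) :=
  Submodule.span k (Set.range fun p : GMT n => (X 0 ^ p.1.1 * X 1 ^ p.1.2 :
    MvPolynomial (Fin 2) k))

lemma GM1_P_mem {n : ℕ} {p : ℕ × ℕ} (h : p.1 + p.2 ≤ n) :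
    (X 0 ^ p.1 * X 1 ^ p.2 : MvPolynomial (Fin 2) k) ∈ GM1_P k n :=
  Submodule.subset_span ⟨⟨p, (GM_mem n p).2 h⟩, rfl⟩

instance GM1_P_fin (n : ℕ) : Module.Finite k (GM1_P k n) := by
  rw [GM1_P]
  exact FiniteDimensional.span_of_finite k (Set.finite_range _)

lemma GM1_P_finrank (n : ℕ) : Module.finrank k (GM1_P k n) = (GMT n).card := by
  have h : LinearIndependent k (fun p : GMT n => (X 0 ^ p.1.1 * X 1 ^ p.1.2 :
    MvPolynomial (Fin 2) k)) := (GM_li (k := k)).comp (fun p : GMT n => (p : ℕ × ℕ))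
      Subtype.val_injective
  rw [GM1_P, finrank_span_eq_card h]
  simp

lemma GM1_P_mono {m n : ℕ} (h : m ≤ n) : GM1_P k m ≤ GM1_P k n := by
  rw [GM1_P, Submodule.span_le]
  rintro _ ⟨p, rfl⟩
  exact GM1_P_mem (((GM_mem m p.1).1 p.2).trans h)

lemma GM1_P_ex (f : MvPolynomial (Fin 2) k) : ∃ n, f ∈ GM1_P k n := by
  induction f using MvPolynomial.induction_on' with
  | monomial u a =>
      refine ⟨u 0 + u 1, ?_⟩
      have h : (monomial u a : MvPolynomial (Fin 2) k) = a • (X 0 ^ u 0 * X 1 ^ u 1) := by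
        rw [X_pow_eq_monomial, X_pow_eq_monomial, monomial_mul, one_mul, smul_monomial,
          smul_eq_mul, mul_one]
        have e : Finsupp.single (0 : Fin 2) (u 0) + Finsupp.single 1 (u 1) = u := by
          ext i
          fin_cases i <;> simp
        rw [e]
      rw [h]
      exact Submodule.smul_mem _ _ (GM1_P_mem (p := (u 0, u 1)) (le_refl _))
  | add p q hp hq =>
      obtain ⟨m, hm⟩ := hp
      obtain ⟨n, hn⟩ := hq
      exact ⟨max m n, Submodule.add_mem _ (GM1_P_mono (le_max_left _ _) hm)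
        (GM1_P_mono (le_max_right _ _) hn)⟩

lemma GM1_P_mul {m n : ℕ} {f g : MvPolynomial (Fin 2) k} (hf : f ∈ GM1_P k m)
    (hg : g ∈ GM1_P k n) : f * g ∈ GM1_P k (m + n) := by
  have h : GM1_P k m * GM1_P k n ≤ GM1_P k (m + n) := by
    rw [GM1_P, GM1_P, Submodule.span_mul_span, Submodule.span_le]
    rintro _ ⟨_, ⟨p, rfl⟩, _, ⟨q, rfl⟩, rfl⟩
    have h1 := (GM_mem m p.1).1 p.2
    have h2 := (GM_mem n q.1).1 q.2
    have := GM1_P_mem (k := k) (n := m + n) (p := (p.1.1 + q.1.1, p.1.2 + q.1.2)) (by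
      simp only; omega)
    have e : (X 0 ^ p.1.1 * X 1 ^ p.1.2 * (X 0 ^ q.1.1 * X 1 ^ q.1.2) :
        MvPolynomial (Fin 2) k) = X 0 ^ (p.1.1 + q.1.1) * X 1 ^ (p.1.2 + q.1.2) := by ring
    simp only [SetLike.mem_coe]
    change (X 0 ^ p.1.1 * X 1 ^ p.1.2 * (X 0 ^ q.1.1 * X 1 ^ q.1.2) :
        MvPolynomial (Fin 2) k) ∈ _
    rw [e]; exact this
  exact h (Submodule.mul_mem_mul hf hg)

/-- if `f` is a relation of degree `d` then `AA` grows linearly -/
lemma GM1_bound {Y1 Y2 : K} {f : MvPolynomial (Fin 2) k} (hf0 : f ≠ 0) {d : ℕ}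
    (hfd : f ∈ GM1_P k d) (hf : aeval ![Y1, Y2] f = 0) (n : ℕ) :
    Module.finrank k (AA k Y1 Y2 ((n + d : ℕ) : ℤ)) + (GMT n).card ≤ (GMT (n + d)).card := by
  let ev : GM1_P k (n + d) →ₗ[k] K :=
    (aeval ![Y1, Y2] : MvPolynomial (Fin 2) k →ₐ[k] K).toLinearMap.domRestrict _
  have h1 := LinearMap.finrank_range_add_finrank_ker ev
  rw [GM1_P_finrank] at h1
  have h2 : AA k Y1 Y2 ((n + d : ℕ) : ℤ) ≤ LinearMap.range ev := by
    rw [AA, Submodule.span_le]
    rintro _ ⟨i, j, hij, rfl⟩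
    refine ⟨⟨X 0 ^ i * X 1 ^ j, GM1_P_mem (p := (i, j)) (by exact_mod_cast hij)⟩, ?_⟩
    simp [ev]
  have h3 := Submodule.finrank_mono h2
  let mf : GM1_P k n →ₗ[k] LinearMap.ker ev :=
    { toFun := fun g => ⟨⟨g.1 * f, GM1_P_mul g.2 hfd⟩, by simp [ev, hf]⟩
      map_add' := by
        intro a b
        ext1; ext1
        simp [add_mul]
      map_smul' := by
        intro c a
        ext1; ext1
        simp }
  have h4 : Function.Injective mf := by
    intro a b hab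
    have h5 : a.1 * f = b.1 * f := by
      have := congrArg (fun x => x.1.1) hab
      exact this
    exact Subtype.ext (mul_right_cancel₀ hf0 h5)
  have h5 := LinearMap.finrank_le_finrank_of_injective h4
  rw [GM1_P_finrank] at h5
  omega

/-- **Task GM1.** -/
theorem GM1 (G : Fil k K) (fin_dim : ∀ t : ℤ, Module.Finite k (G.R t))
    (dim_eq : ∀ t : ℤ, 6 ≤ t →
      2 * (Module.finrank k (G.R t) : ℤ) = 1715 * t ^ 2 - 8575 * t + 9604)
    (fin_gen : ∃ t0 : ℤ, ∀ t : ℤ, t0 ≤ t → ∀ x ∈ G.R (t + 1),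
      ∃ a ∈ G.R t, ∃ b ∈ G.R t, ∃ c ∈ G.R t, x = a + G.Y1 * b + G.Y2 * c) :
    AlgebraicIndependent k ![G.Y1, G.Y2] := by
  obtain ⟨t1, ht1⟩ := fin_gen
  obtain ⟨t0, ht0⟩ : ∃ t0 : ℕ, ∀ t : ℤ, (t0 : ℤ) ≤ t → ∀ x ∈ G.R (t + 1),
      ∃ a ∈ G.R t, ∃ b ∈ G.R t, ∃ c ∈ G.R t, x = a + G.Y1 * b + G.Y2 * c :=
    ⟨t1.toNat, fun t ht => ht1 t (by omega)⟩
  by_contra hcon
  rw [algebraicIndependent_iff] at hcon
  push Not at hcon
  obtain ⟨f, hf, hf0⟩ := hcon
  obtain ⟨d, hd⟩ := GM1_P_ex f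
  -- growth
  have key : ∀ n : ℕ, Module.finrank k (G.R ((t0 : ℤ) + ((n + d : ℕ) : ℤ))) * 2 ≤
      (d * d + 2 * d * n + 3 * d) * Module.finrank k (G.R t0) := by
    intro n
    have h1 := GM_gen G ht0 (n + d)
    have := fin_dim t0
    obtain ⟨h2, h3⟩ := GM_mul_finrank (AA k G.Y1 G.Y2 ((n + d : ℕ) : ℤ)) (G.R t0)
    have h4 := Submodule.finrank_mono h1
    have h5 := GM1_bound hf0 hd hf n
    have h6 := GM_card n
    have h7 := GM_card (n + d)
    have h8 : 2 * Module.finrank k (AA k G.Y1 G.Y2 ((n + d : ℕ) : ℤ)) ≤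
        d * d + 2 * d * n + 3 * d := by
      have e : (n + d + 1) * (n + d + 2) = (n + 1) * (n + 2) + (d * d + 2 * d * n + 3 * d) := by
        ring
      omega
    calc _ ≤ (Module.finrank k (AA k G.Y1 G.Y2 ((n + d : ℕ) : ℤ)) *
          Module.finrank k (G.R t0)) * 2 := by omega
      _ = (2 * Module.finrank k (AA k G.Y1 G.Y2 ((n + d : ℕ) : ℤ))) *
          Module.finrank k (G.R t0) := by ring
      _ ≤ _ := Nat.mul_le_mul_right _ h8
  set D := Module.finrank k (G.R t0) with hD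
  -- choose `n` large
  have h1 := key (D * (d * d + 5 * d) + 8575 + 6)
  have h0 : (6 : ℤ) ≤ (t0 : ℤ) + ((D * (d * d + 5 * d) + 8575 + 6 + d : ℕ) : ℤ) := by
    generalize D * (d * d + 5 * d) = u
    omega
  have h2 := dim_eq _ h0
  set E := D * (d * d + 5 * d) with hE
  set n := E + 8575 + 6 with hn
  set T : ℤ := (t0 : ℤ) + ((n + d : ℕ) : ℤ) with hT
  have h3 : (d * d + 2 * d * n + 3 * d) * D ≤ E * (n + 1) := by
    rw [hE]
    have : d * d + 2 * d * n + 3 * d ≤ (d * d + 5 * d) * (n + 1) := by nlinarith [Nat.zero_le (d * d * n), Nat.zero_le (d * n)]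
    calc _ ≤ (d * d + 5 * d) * (n + 1) * D := Nat.mul_le_mul_right _ this
      _ = _ := by ring
  have h4 : (1715 : ℤ) * T ^ 2 - 8575 * T + 9604 ≤ E * (n + 1) := by
    have : (Module.finrank k (G.R T) : ℤ) * 2 ≤ E * (n + 1) := by exact_mod_cast h1.trans h3
    linarith
  have h5 : (n : ℤ) ≤ T := by omega
  have h6 : (E : ℤ) + 8581 = n := by omega
  have h7 : (0 : ℤ) ≤ E := by positivity
  have h8 : (E : ℤ) * (n + 1) ≤ E * (T + 1) := by
    apply mul_le_mul_of_nonneg_left _ h7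
    linarith
  nlinarith

end

end Pool.Agent.H54R2.Ul
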