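import Pool.Agent.H54R2.Ul.GMaux

namespace Pool.Agent.H54R2.Ul

open MvPolynomial

noncomputable section

variable {k K : Type} [Field k] [Field K] [Algebra k K]

/-- monotonicity -/
lemma GM2_mono (G : Fil k K) {s t : ℤ} (h : s ≤ t) : G.R s ≤ G.R t := by
  have hm : ∀ (u : ℤ) (n : ℕ), G.R u ≤ G.R (u + n) := by
    intro u n
    induction n with
    | zero => simp
    | succ n ih =>
        refine ih.trans ((G.mono _).trans (le_of_eq ?_))
        push_cast; ring_nf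
  have h2 := hm s (t - s).toNat
  have e : s + ((t - s).toNat : ℤ) = t := by omega
  rwa [e] at h2

lemma GM2_adj {Y1 Y2 x : K} (h : x ∈ Algebra.adjoin k ({Y1, Y2} : Set K)) :
    ∃ n : ℕ, x ∈ AA k Y1 Y2 n := by
  induction h using Algebra.adjoin_induction with
  | mem x hx =>
      simp only [Set.mem_insert_iff, Set.mem_singleton_iff] at hx
      rcases hx with rfl | rfl
      · exact ⟨1, GM_AA_Y1⟩
      · exact ⟨1, GM_AA_Y2⟩
  | algebraMap r =>
      refine ⟨0, ?_⟩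
      rw [Algebra.algebraMap_eq_smul_one]
      exact Submodule.smul_mem _ _ (GM_AA_one (by simp))
  | add x y _ _ hx hy =>
      obtain ⟨m, hm⟩ := hx
      obtain ⟨n, hn⟩ := hy
      exact ⟨max m n, Submodule.add_mem _ (GM_AA_mono (by simp) hm) (GM_AA_mono (by simp) hn)⟩
  | mul x y _ _ hx hy =>
      obtain ⟨m, hm⟩ := hx
      obtain ⟨n, hn⟩ := hy
      exact ⟨m + n, by
        have := GM_AA_mul Y1 Y2 m n (Submodule.mul_mem_mul hm hn)
        push_cast; exact this⟩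

/-- every element of `k(Y1,Y2)` is a quotient -/
lemma GM2_FF {Y1 Y2 x : K} (h : x ∈ FF k Y1 Y2) :
    ∃ (n : ℕ) (g h : K), g ∈ AA k Y1 Y2 n ∧ h ∈ AA k Y1 Y2 n ∧ h ≠ 0 ∧ h * x = g := by
  rw [FF, IntermediateField.mem_adjoin_iff_div] at h
  obtain ⟨r, hr, s, hs, rfl⟩ := h
  obtain ⟨m, hm⟩ := GM2_adj hr
  obtain ⟨n, hn⟩ := GM2_adj hs
  by_cases h0 : s = 0
  · subst h0
    exact ⟨0, 0, 1, Submodule.zero_mem _, GM_AA_one (by simp), one_ne_zero, by simp⟩
  · exact ⟨max m n, r, s, GM_AA_mono (by simp) hm, GM_AA_mono (by simp) hn, h0, by field_simp⟩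

/-- common denominators -/
lemma GM2_den {Y1 Y2 : K} {ι : Type} (s : Finset ι) (x : ι → K) (hx : ∀ i, x i ∈ FF k Y1 Y2) :
    ∃ (n : ℕ) (h : K), h ≠ 0 ∧ h ∈ AA k Y1 Y2 n ∧ ∀ i ∈ s, h * x i ∈ AA k Y1 Y2 n := by
  classical
  induction s using Finset.induction_on with
  | empty => exact ⟨0, 1, one_ne_zero, GM_AA_one (by simp), by simp⟩
  | insert i s hi ih =>
      obtain ⟨n, h, h0, h1, hs⟩ := ih
      obtain ⟨m, g', h', hg', hh', h0', e⟩ := GM2_FF (hx i)
      have hm : ∀ {a b : K}, a ∈ AA k Y1 Y2 n → b ∈ AA k Y1 Y2 m →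
          a * b ∈ AA k Y1 Y2 ((n + m : ℕ) : ℤ) := by
        intro a b ha hb
        have := GM_AA_mul Y1 Y2 n m (Submodule.mul_mem_mul ha hb)
        push_cast; exact this
      refine ⟨n + m, h * h', mul_ne_zero h0 h0', hm h1 hh', ?_⟩
      intro j hj
      rcases Finset.mem_insert.1 hj with rfl | hj
      · rw [mul_assoc, e]; exact hm h1 hg'
      · have e2 : h * h' * x j = h * x j * h' := by ring
        rw [e2]; exact hm (hs j hj) hh'

lemma GM2_ar1 (m t0 : ℕ) (f : ℕ → ℕ)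
    (hf : ∀ n : ℕ, (6 : ℤ) ≤ (t0 : ℤ) + n →
      2 * (f n : ℤ) = 1715 * ((t0 : ℤ) + n) ^ 2 - 8575 * ((t0 : ℤ) + n) + 9604)
    (hlow : ∀ n : ℕ, (GMT n).card * m ≤ f n) : m ≤ 1715 := by
  by_contra hcon
  push Not at hcon
  obtain ⟨A, hA⟩ : ∃ A : ℕ, A = t0 ^ 2 := ⟨_, rfl⟩
  obtain ⟨n, hn⟩ : ∃ n : ℕ, n = 3430 * t0 + 1715 * A + 9610 := ⟨_, rfl⟩
  have h1 := hlow n
  have h0 : (6 : ℤ) ≤ (t0 : ℤ) + n := by rw [hn]; push_cast; linarith [Int.natCast_nonneg t0, Int.natCast_nonneg A]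
  have h2 := hf n h0
  have h3 := GM_card n
  have h5 : 1716 * ((n + 1) * (n + 2)) ≤ 2 * f n := by
    calc 1716 * ((n + 1) * (n + 2)) ≤ m * ((n + 1) * (n + 2)) := Nat.mul_le_mul_right _ hcon
      _ = 2 * ((GMT n).card * m) := by rw [← h3]; ring
      _ ≤ _ := by linarith
  have h4 : (1716 : ℤ) * ((n + 1) * (n + 2)) ≤ 2 * (f n : ℤ) := by exact_mod_cast h5
  rw [h2] at h4
  have h5 : (n : ℤ) = 3430 * t0 + 1715 * A + 9610 := by rw [hn]; push_cast; ring
  have h6 : (0 : ℤ) ≤ t0 := by positivity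
  have h7 : (0 : ℤ) ≤ n := by positivity
  have h8 : (A : ℤ) = (t0 : ℤ) ^ 2 := by rw [hA]; push_cast; ring
  have h9 : (0 : ℤ) ≤ A := by positivity
  clear h1 h2 h3 hlow hf hcon hn h0 hA
  nlinarith

lemma GM2_ar2 (m t0 e : ℕ) (f : ℕ → ℕ)
    (hf : ∀ n : ℕ, (6 : ℤ) ≤ (t0 : ℤ) + n →
      2 * (f n : ℤ) = 1715 * ((t0 : ℤ) + n) ^ 2 - 8575 * ((t0 : ℤ) + n) + 9604)
    (hup : ∀ n : ℕ, f n ≤ (GMT (n + e)).card * m) : 1715 ≤ m := by
  by_contra hcon
  push Not at hcon
  obtain ⟨A, hA⟩ : ∃ A : ℕ, A = (e + 1) * (e + 2) := ⟨_, rfl⟩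
  obtain ⟨n, hn⟩ : ∃ n : ℕ, n = 8575 * (t0 + 1) + 1714 * (2 * e + 3) +
    1714 * A + 6 := ⟨_, rfl⟩
  have h1 := hup n
  have h0 : (6 : ℤ) ≤ (t0 : ℤ) + n := by
    rw [hn]; push_cast
    linarith [Int.natCast_nonneg t0, Int.natCast_nonneg A, Int.natCast_nonneg e]
  have h2 := hf n h0
  have h3 := GM_card (n + e)
  have h5 : 2 * f n ≤ 1714 * ((n + e + 1) * (n + e + 2)) := by
    calc 2 * f n ≤ 2 * ((GMT (n + e)).card * m) := by linarith
      _ = m * ((n + e + 1) * (n + e + 2)) := by rw [← h3]; ring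
      _ ≤ _ := Nat.mul_le_mul_right _ (by linarith)
  have h4 : 2 * (f n : ℤ) ≤ 1714 * ((n + e + 1) * (n + e + 2)) := by exact_mod_cast h5
  rw [h2] at h4
  have h5 : (n : ℤ) = 8575 * (t0 + 1) + 1714 * (2 * e + 3) + 1714 * A + 6 := by
    rw [hn]; push_cast; ring
  have h6 : (0 : ℤ) ≤ t0 := by positivity
  have h7 : (0 : ℤ) ≤ n := by positivity
  have h8 : (0 : ℤ) ≤ e := by positivity
  have h9 : (0 : ℤ) ≤ A := by positivity
  have h10 : (A : ℤ) = (e + 1) * (e + 2) := by rw [hA]; push_cast; ring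
  clear h1 h2 h3 hup hf hcon hn h0 hA
  have key : (1715 : ℤ) * (t0 + n) ^ 2 - 8575 * (t0 + n) + 9604 -
      1714 * ((n + e + 1) * (n + e + 2)) =
      n * (n - 8575 - 1714 * (2 * e + 3)) + 1715 * t0 ^ 2 + 3430 * t0 * n - 8575 * t0 + 9604 -
      1714 * A := by rw [h10]; ring
  have e1 : (n : ℤ) - 8575 - 1714 * (2 * e + 3) = 8575 * t0 + 1714 * A + 6 := by rw [h5]; ring
  rw [e1] at key
  have h11 : (1 : ℤ) ≤ n := by linarith
  have h12 : 8575 * (t0 : ℤ) + 1714 * A + 6 ≤ n * (8575 * t0 + 1714 * A + 6) := by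
    have : (0 : ℤ) ≤ 8575 * t0 + 1714 * A + 6 := by positivity
    nlinarith
  have h13 : (0 : ℤ) ≤ 1715 * t0 ^ 2 + 3430 * t0 * n := by positivity
  linarith

/-- **Task GM2.** -/
theorem GM2 (G : Fil k K) (fin_dim : ∀ t : ℤ, Module.Finite k (G.R t))
    (dim_eq : ∀ t : ℤ, 6 ≤ t →
      2 * (Module.finrank k (G.R t) : ℤ) = 1715 * t ^ 2 - 8575 * t + 9604)
    (fin_gen : ∃ t0 : ℤ, ∀ t : ℤ, t0 ≤ t → ∀ x ∈ G.R (t + 1),
      ∃ a ∈ G.R t, ∃ b ∈ G.R t, ∃ c ∈ G.R t, x = a + G.Y1 * b + G.Y2 * c)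
    (algInd : AlgebraicIndependent k ![G.Y1, G.Y2])
    (frac : ∀ x : K, ∃ t : ℤ, ∃ a ∈ G.R t, ∃ b ∈ G.R t, b ≠ 0 ∧ x = a / b) :
    Module.finrank (FF k G.Y1 G.Y2) K = 1715 := by
  classical
  obtain ⟨t1, ht1⟩ := fin_gen
  obtain ⟨t0, ht0⟩ : ∃ t0 : ℕ, ∀ t : ℤ, (t0 : ℤ) ≤ t → ∀ x ∈ G.R (t + 1),
      ∃ a ∈ G.R t, ∃ b ∈ G.R t, ∃ c ∈ G.R t, x = a + G.Y1 * b + G.Y2 * c :=
    ⟨t1.toNat, fun t ht => ht1 t (by omega)⟩
  have hsm : ∀ (a : FF k G.Y1 G.Y2) (b : K), a • b = (a : K) * b := fun a b => rfl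
  set V : Submodule (FF k G.Y1 G.Y2) K := Submodule.span _ (G.R t0 : Set K) with hV
  have hRV : ∀ t : ℤ, ∀ x ∈ G.R t, x ∈ V := by
    intro t x hx
    rcases le_total t t0 with h | h
    · exact Submodule.subset_span (GM2_mono G h hx)
    · obtain ⟨n, rfl⟩ : ∃ n : ℕ, t = t0 + n := ⟨(t - t0).toNat, by omega⟩
      have h1 := GM_gen G ht0 n hx
      clear hx
      induction h1 using Submodule.mul_induction_on' with
      | mem_mul_mem a ha b hb =>
          have := V.smul_mem ⟨a, GM_AA_FF ha⟩ (Submodule.subset_span hb)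
          exact this
      | add a _ b _ iha ihb => exact V.add_mem iha ihb
  have hmul : ∀ x y : K, x ∈ V → y ∈ V → x * y ∈ V := by
    intro x y hx hy
    have h1 : V * V ≤ V := by
      rw [hV, Submodule.span_mul_span, Submodule.span_le]
      rintro _ ⟨a, ha, b, hb, rfl⟩
      exact hRV _ _ (G.mul_mem ha hb)
    exact h1 (Submodule.mul_mem_mul hx hy)
  have hone : (1 : K) ∈ V := hRV 0 1 G.one_mem
  have hfin0 := fin_dim t0
  obtain ⟨B, hB⟩ : ∃ B : Finset K, Submodule.span k (B : Set K) = G.R t0 := by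
    have := (Module.Finite.iff_fg.1 hfin0)
    exact this
  have hVB : V = Submodule.span _ (B : Set K) := by
    apply le_antisymm
    · rw [hV, Submodule.span_le, ← hB]
      exact Submodule.span_le_restrictScalars k (FF k G.Y1 G.Y2) (B : Set K)
    · apply Submodule.span_mono
      rw [← hB]
      exact Submodule.subset_span
  have hVfg : V.FG := ⟨B, hVB.symm⟩
  have htop : V = ⊤ := by
    rw [eq_top_iff]
    intro x _
    obtain ⟨t, a, ha, b, hb, hb0, rfl⟩ := frac x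
    rw [div_eq_mul_inv]
    apply hmul _ _ (hRV _ _ ha)
    let S : Subalgebra (FF k G.Y1 G.Y2) K := V.toSubalgebra hone hmul
    have h1 : IsIntegral (FF k G.Y1 G.Y2) b := IsIntegral.of_mem_of_fg S hVfg b (hRV _ _ hb)
    exact S.inv_mem_of_algebraic (x := ⟨b, hRV _ _ hb⟩) h1.isAlgebraic
  have hfinK : Module.Finite (FF k G.Y1 G.Y2) K := ⟨htop ▸ hVfg⟩
  obtain ⟨b, hbs, hbsp, hbli⟩ := exists_linearIndependent (FF k G.Y1 G.Y2) (G.R t0 : Set K)
  have hbfin : b.Finite := LinearIndependent.setFinite hbli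
  have : Fintype b := hbfin.fintype
  have hbtop : ⊤ ≤ Submodule.span (FF k G.Y1 G.Y2) (Set.range ((↑) : b → K)) := by
    rw [Subtype.range_coe, hbsp, ← hV, htop]
  let bas0 : Module.Basis b (FF k G.Y1 G.Y2) K := Module.Basis.mk hbli hbtop
  set m := Module.finrank (FF k G.Y1 G.Y2) K with hm
  have hcard : Fintype.card b = m := (Module.finrank_eq_card_basis bas0).symm
  let bas : Module.Basis (Fin m) (FF k G.Y1 G.Y2) K := bas0.reindex (Fintype.equivFinOfCardEq hcard)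
  have hbasR : ∀ i, bas i ∈ G.R t0 := by
    intro i
    have : bas i = ((Fintype.equivFinOfCardEq hcard).symm i : K) := by
      simp [bas, bas0]
    rw [this]
    exact hbs ((Fintype.equivFinOfCardEq hcard).symm i).2
  -- lower bound
  have hlow : ∀ n : ℕ, (GMT n).card * m ≤ Module.finrank k (G.R ((t0 : ℤ) + n)) := by
    intro n
    have := fin_dim ((t0 : ℤ) + n)
    refine GM_dim algInd bas bas.linearIndependent n _ ?_
    intro i g hg
    have h1 := G.mul_mem (GM_AA_R G hg) (hbasR i)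
    rw [add_comm] at h1
    exact h1
  -- upper bound
  obtain ⟨e, h, h0, -, he⟩ := GM2_den (k := k) (Y1 := G.Y1) (Y2 := G.Y2)
    (B ×ˢ (Finset.univ : Finset (Fin m))) (fun q => ((bas.repr q.1 q.2 : FF k G.Y1 G.Y2) : K))
    (fun q => (bas.repr q.1 q.2).2)
  set Sf : Submodule k K := Submodule.span k (Set.range bas) with hSf
  have : Module.Finite k Sf := FiniteDimensional.span_of_finite k (Set.finite_range _)
  have hSfle : Module.finrank k Sf ≤ m := by
    have := finrank_range_le_card (R := k) (b := bas)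
    simpa [Set.finrank] using this
  have hr : ∀ r ∈ G.R t0, h * r ∈ AA k G.Y1 G.Y2 e * Sf := by
    intro r hr
    rw [← hB] at hr
    induction hr using Submodule.span_induction with
    | mem r hr =>
        have h1 : r = ∑ i, ((bas.repr r i : FF k G.Y1 G.Y2) : K) * bas i := by
          conv_lhs => rw [← bas.sum_repr r]
          rfl
        rw [h1, Finset.mul_sum]
        refine Submodule.sum_mem _ fun i _ => ?_
        rw [← mul_assoc]
        refine Submodule.mul_mem_mul (he (r, i) ?_) (Submodule.subset_span ⟨i, rfl⟩)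
        simpa using hr
    | zero => simp
    | add x y _ _ hx hy => rw [mul_add]; exact Submodule.add_mem _ hx hy
    | smul a x _ hx => rw [mul_smul_comm]; exact Submodule.smul_mem _ _ hx
  have hup : ∀ n : ℕ, Module.finrank k (G.R ((t0 : ℤ) + n)) ≤ (GMT (n + e)).card * m := by
    intro n
    have h1 : (G.R ((t0 : ℤ) + n)).map (LinearMap.mulLeft k h) ≤
        AA k G.Y1 G.Y2 ((n + e : ℕ) : ℤ) * Sf := by
      rw [Submodule.map_le_iff_le_comap]
      intro x hx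
      have h2 := GM_gen G ht0 n hx
      clear hx
      rw [Submodule.mem_comap, LinearMap.mulLeft_apply]
      induction h2 using Submodule.mul_induction_on' with
      | mem_mul_mem a ha b hb =>
          have h3 := Submodule.mul_mem_mul ha (hr b hb)
          rw [← mul_assoc] at h3
          have h4 : AA k G.Y1 G.Y2 n * AA k G.Y1 G.Y2 e * Sf ≤
              AA k G.Y1 G.Y2 ((n + e : ℕ) : ℤ) * Sf :=
            mul_le_mul' ((GM_AA_mul _ _ _ _).trans (GM_AA_mono (by push_cast; omega))) le_rfl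
          have e2 : h * (a * b) = a * (h * b) := by ring
          rw [e2]
          exact h4 h3
      | add a _ b _ iha ihb => rw [mul_add]; exact Submodule.add_mem _ iha ihb
    obtain ⟨h2, h3⟩ := GM_mul_finrank (AA k G.Y1 G.Y2 ((n + e : ℕ) : ℤ)) Sf
    have h4 := Submodule.finrank_mono h1
    have h5 : Module.finrank k ((G.R ((t0 : ℤ) + n)).map (LinearMap.mulLeft k h)) =
        Module.finrank k (G.R ((t0 : ℤ) + n)) := by
      have hinj : Function.Injective (LinearMap.mulLeft k h) := fun a b hab =>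
        mul_left_cancel₀ h0 hab
      exact (Submodule.equivMapOfInjective _ hinj _).finrank_eq.symm
    have h6 := GM_AA_le (k := k) G.Y1 G.Y2 (n + e)
    have h7 := Nat.mul_le_mul h6 hSfle
    omega
  exact le_antisymm (GM2_ar1 m t0 _ (fun n hn => dim_eq _ hn) hlow)
    (GM2_ar2 m t0 e _ (fun n hn => dim_eq _ hn) hup)

end

end Pool.Agent.H54R2.Ul
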