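import Pool.Agent.H54R2.Ul.Defs3

/-! # Counting monomials in two variables (auxiliary file for GM1, GM2, DIMLAT) -/

namespace Pool.Agent.H54R2.Ul

open MvPolynomial

noncomputable section

/-- exponents of total degree at most `n` -/
def GMT (n : ℕ) : Finset (ℕ × ℕ) :=
  (Finset.range (n + 1)).biUnion fun i => Finset.HasAntidiagonal.antidiagonal i

lemma GM_mem (n : ℕ) (p : ℕ × ℕ) : p ∈ GMT n ↔ p.1 + p.2 ≤ n := by
  simp [GMT]

lemma GM_card (n : ℕ) : 2 * (GMT n).card = (n + 1) * (n + 2) := by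
  rw [GMT, Finset.card_biUnion]
  · simp only [Finset.Nat.card_antidiagonal]
    induction n with
    | zero => simp
    | succ n ih =>
        rw [Finset.sum_range_succ, mul_add, ih]; ring
  · intro i _ j _ hij
    rw [Function.onFun, Finset.disjoint_left]
    intro p hp hq
    simp at hp hq
    omega

variable {k K : Type} [Field k] [Field K] [Algebra k K]

lemma GM_li : LinearIndependent k
    (fun p : ℕ × ℕ => (X 0 ^ p.1 * X 1 ^ p.2 : MvPolynomial (Fin 2) k)) := by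
  have h := (basisMonomials (Fin 2) k).linearIndependent
  have h2 := h.comp (fun p : ℕ × ℕ => Finsupp.single (0 : Fin 2) p.1 + Finsupp.single 1 p.2)
    (by
      intro p q hpq
      have h0 := DFunLike.congr_fun hpq 0
      have h1 := DFunLike.congr_fun hpq 1
      simp at h0 h1
      exact Prod.ext h0 h1)
  have e : (fun p : ℕ × ℕ => (X 0 ^ p.1 * X 1 ^ p.2 : MvPolynomial (Fin 2) k)) =
      (⇑(basisMonomials (Fin 2) k) ∘
        fun p : ℕ × ℕ => Finsupp.single (0 : Fin 2) p.1 + Finsupp.single 1 p.2) := by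
    funext p
    simp only [Function.comp, coe_basisMonomials]
    rw [X_pow_eq_monomial, X_pow_eq_monomial, monomial_mul, one_mul]
  rw [e]; exact h2

lemma GM_liK {Y1 Y2 : K} (h : AlgebraicIndependent k ![Y1, Y2]) :
    LinearIndependent k (fun p : ℕ × ℕ => Y1 ^ p.1 * Y2 ^ p.2) := by
  have h2 := (GM_li (k := k)).map' (aeval ![Y1, Y2] : MvPolynomial (Fin 2) k →ₐ[k] K).toLinearMap
    (LinearMap.ker_eq_bot.2 h)
  have e : (fun p : ℕ × ℕ => Y1 ^ p.1 * Y2 ^ p.2) =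
      ((aeval ![Y1, Y2] : MvPolynomial (Fin 2) k →ₐ[k] K).toLinearMap ∘
        fun p : ℕ × ℕ => (X 0 ^ p.1 * X 1 ^ p.2 : MvPolynomial (Fin 2) k)) := by
    funext p
    simp
  rw [e]; exact h2

lemma GM_AA_mem {Y1 Y2 : K} {n : ℕ} {p : ℕ × ℕ} (hp : p.1 + p.2 ≤ n) :
    Y1 ^ p.1 * Y2 ^ p.2 ∈ AA k Y1 Y2 n :=
  Submodule.subset_span ⟨p.1, p.2, by exact_mod_cast hp, rfl⟩

/-- elements of `AA` lie in the field `k(Y1, Y2)` -/
lemma GM_AA_FF {Y1 Y2 : K} {t : ℤ} {x : K} (hx : x ∈ AA k Y1 Y2 t) : x ∈ FF k Y1 Y2 := by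
  have h1 : Y1 ∈ FF k Y1 Y2 := IntermediateField.subset_adjoin k _ (by simp)
  have h2 : Y2 ∈ FF k Y1 Y2 := IntermediateField.subset_adjoin k _ (by simp)
  have : AA k Y1 Y2 t ≤ (FF k Y1 Y2).toSubalgebra.toSubmodule := by
    rw [AA, Submodule.span_le]
    rintro _ ⟨i, j, _, rfl⟩
    have h3 : Y1 ^ i * Y2 ^ j ∈ FF k Y1 Y2 := mul_mem (pow_mem h1 i) (pow_mem h2 j)
    exact h3
  exact this hx

/-- lower bound for the dimension of a lattice -/
lemma GM_dim {Y1 Y2 : K} (h : AlgebraicIndependent k ![Y1, Y2]) {W : Type} [AddCommGroup W]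
    [Module k W] [Module K W] [IsScalarTower k K W] {N : ℕ} (c : Fin N → W)
    (hc : LinearIndependent (FF k Y1 Y2) c) (n : ℕ) (V : Submodule k W) [Module.Finite k V]
    (hV : ∀ i, ∀ g ∈ AA k Y1 Y2 n, g • c i ∈ V) :
    (GMT n).card * N ≤ Module.finrank k V := by
  have h1 : Y1 ∈ FF k Y1 Y2 := IntermediateField.subset_adjoin k _ (by simp)
  have h2 : Y2 ∈ FF k Y1 Y2 := IntermediateField.subset_adjoin k _ (by simp)
  let m : ℕ × ℕ → FF k Y1 Y2 := fun p => ⟨Y1, h1⟩ ^ p.1 * ⟨Y2, h2⟩ ^ p.2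
  have hm : LinearIndependent k m := by
    have : LinearIndependent k ((FF k Y1 Y2).val.toLinearMap ∘ m) := GM_liK h
    exact LinearIndependent.of_comp _ this
  have hm2 : LinearIndependent k (fun p : GMT n => m p) :=
    hm.comp (fun p : GMT n => (p : ℕ × ℕ)) Subtype.val_injective
  have : IsScalarTower k (FF k Y1 Y2) W := ⟨fun a b w => by
    have h5 : (a • b) • w = ((a • b : FF k Y1 Y2) : K) • w := rfl
    have h6 : b • w = (b : K) • w := rfl
    rw [h5, h6, IntermediateField.coe_smul, smul_assoc]⟩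
  have h3 := linearIndependent_smul hm2 hc
  let w : GMT n × Fin N → V := fun q => ⟨(m q.1 : K) • c q.2, hV _ _ (by
    have := GM_AA_mem (k := k) (Y1 := Y1) (Y2 := Y2) ((GM_mem n q.1).1 q.1.2)
    exact this)⟩
  have hw : LinearIndependent k w := by
    have : LinearIndependent k (V.subtype ∘ w) := h3
    exact LinearIndependent.of_comp _ this
  have h4 := hw.fintype_card_le_finrank
  simpa using h4

open scoped Classical in
lemma GM_AA_fin (Y1 Y2 : K) (n : ℕ) : AA k Y1 Y2 n =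
    Submodule.span k (((GMT n).image fun p : ℕ × ℕ => Y1 ^ p.1 * Y2 ^ p.2 : Finset K) : Set K) := by
  rw [AA]
  congr 1
  ext x
  simp only [Finset.coe_image, Set.mem_image, Finset.mem_coe, GM_mem]
  constructor
  · rintro ⟨i, j, hij, rfl⟩
    exact ⟨(i, j), by exact_mod_cast hij, rfl⟩
  · rintro ⟨p, hp, rfl⟩
    exact ⟨p.1, p.2, by exact_mod_cast hp, rfl⟩

instance GM_AA_finite (Y1 Y2 : K) (n : ℕ) : Module.Finite k (AA k Y1 Y2 n) := by
  rw [GM_AA_fin]
  exact FiniteDimensional.span_finset k _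

lemma GM_AA_le (Y1 Y2 : K) (n : ℕ) : Module.finrank k (AA k Y1 Y2 n) ≤ (GMT n).card := by
  classical
  rw [GM_AA_fin]
  exact (finrank_span_finset_le_card _).trans Finset.card_image_le

lemma GM_AA_mono {Y1 Y2 : K} {s t : ℤ} (h : s ≤ t) : AA k Y1 Y2 s ≤ AA k Y1 Y2 t := by
  apply Submodule.span_mono
  rintro _ ⟨i, j, hij, rfl⟩
  exact ⟨i, j, hij.trans h, rfl⟩

lemma GM_AA_mul (Y1 Y2 : K) (s t : ℤ) : AA k Y1 Y2 s * AA k Y1 Y2 t ≤ AA k Y1 Y2 (s + t) := by
  rw [AA, AA, AA, Submodule.span_mul_span]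
  apply Submodule.span_mono
  rintro _ ⟨_, ⟨i, j, hij, rfl⟩, _, ⟨i', j', hij', rfl⟩, rfl⟩
  exact ⟨i + i', j + j', by push_cast; omega, by ring⟩

lemma GM_AA_one {Y1 Y2 : K} {t : ℤ} (h : 0 ≤ t) : (1 : K) ∈ AA k Y1 Y2 t :=
  Submodule.subset_span ⟨0, 0, by simpa using h, by simp⟩

lemma GM_AA_Y1 {Y1 Y2 : K} : Y1 ∈ AA k Y1 Y2 1 :=
  Submodule.subset_span ⟨1, 0, by simp, by simp⟩

lemma GM_AA_Y2 {Y1 Y2 : K} : Y2 ∈ AA k Y1 Y2 1 :=
  Submodule.subset_span ⟨0, 1, by simp, by simp⟩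

lemma GM_AA_R (G : Fil k K) {t : ℤ} : AA k G.Y1 G.Y2 t ≤ G.R t := by
  have hm : ∀ (u : ℤ) (n : ℕ), G.R u ≤ G.R (u + n) := by
    intro u n
    induction n with
    | zero => simp
    | succ n ih =>
        refine ih.trans ((G.mono _).trans (le_of_eq ?_))
        push_cast; ring_nf
  rw [AA, Submodule.span_le]
  rintro _ ⟨i, j, hij, rfl⟩
  have h1 := G.mul_mem (G.pow_mem G.Y1_mem i) (G.pow_mem G.Y2_mem j)
  have h2 := hm _ (t - (i + j)).toNat h1
  have e : (i : ℤ) + j + ((t - (i + j)).toNat : ℤ) = t := by omega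
  rw [e] at h2
  exact h2

/-- generation: `R (t0 + n) ≤ AA n * R t0` -/
lemma GM_gen (G : Fil k K) {t0 : ℤ}
    (h : ∀ t : ℤ, t0 ≤ t → ∀ x ∈ G.R (t + 1),
      ∃ a ∈ G.R t, ∃ b ∈ G.R t, ∃ c ∈ G.R t, x = a + G.Y1 * b + G.Y2 * c) (n : ℕ) :
    G.R (t0 + n) ≤ AA k G.Y1 G.Y2 n * G.R t0 := by
  induction n with
  | zero =>
      intro x hx
      have := Submodule.mul_mem_mul (GM_AA_one (k := k) (Y1 := G.Y1) (Y2 := G.Y2) (le_refl 0))
        (show x ∈ G.R t0 by simpa using hx)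
      simpa using this
  | succ n ih =>
      intro x hx
      obtain ⟨a, ha, b, hb, c, hc, rfl⟩ := h (t0 + n) (by omega) x (by
        have e : t0 + (n : ℤ) + 1 = t0 + ((n + 1 : ℕ) : ℤ) := by push_cast; ring
        rw [e]; exact hx)
      have h1 : ∀ y ∈ AA k G.Y1 G.Y2 1, ∀ z ∈ AA k G.Y1 G.Y2 n * G.R t0,
          y * z ∈ AA k G.Y1 G.Y2 ((n + 1 : ℕ) : ℤ) * G.R t0 := by
        intro y hy z hz
        have h2 := Submodule.mul_mem_mul hy hz
        rw [← mul_assoc] at h2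
        have h3 : AA k G.Y1 G.Y2 1 * AA k G.Y1 G.Y2 n ≤ AA k G.Y1 G.Y2 ((n + 1 : ℕ) : ℤ) :=
          (GM_AA_mul _ _ _ _).trans (GM_AA_mono (by push_cast; omega))
        have h4 : AA k G.Y1 G.Y2 1 * AA k G.Y1 G.Y2 n * G.R t0 ≤
          AA k G.Y1 G.Y2 ((n + 1 : ℕ) : ℤ) * G.R t0 := mul_le_mul' h3 le_rfl
        exact h4 h2
      refine Submodule.add_mem _ (Submodule.add_mem _ ?_ ?_) ?_
      · simpa using h1 1 (GM_AA_one (by norm_num)) a (ih ha)
      · exact h1 _ GM_AA_Y1 b (ih hb)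
      · exact h1 _ GM_AA_Y2 c (ih hc)

lemma GM_mul_finrank (M N : Submodule k K) [Module.Finite k M] [Module.Finite k N] :
    Module.Finite k (M * N : Submodule k K) ∧
      Module.finrank k (M * N : Submodule k K) ≤ Module.finrank k M * Module.finrank k N := by
  have h1 : LinearMap.range (Submodule.mulMap M N) = M * N := Submodule.mulMap_range M N
  rw [← h1]
  refine ⟨inferInstance, ?_⟩
  have := LinearMap.finrank_range_le (Submodule.mulMap M N)
  rwa [Module.finrank_tensorProduct] at this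

end

end Pool.Agent.H54R2.Ul
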