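import Pool.Agent.H54R2.Ul.Defs3

namespace Pool.Agent.H54R2.Ul

open MvPolynomial

noncomputable section

variable {k K : Type} [Field k] [Field K] [Algebra k K]

lemma GP_cons {k H L : Type} [Field k] [AddCommGroup H] [Module k H] [Field L] [Algebra k L]
    {m j : ℕ} (r : H →ₗ[k] (Fin m → L)) (h : Fin j → H) (x : H) :
    LinearIndependent L (fun a => r ((Fin.cons x h : Fin (j + 1) → H) a)) ↔
      LinearIndependent L (fun a => r (h a)) ∧
        r x ∉ Submodule.span L (Set.range fun a => r (h a)) := by
  have e : (fun a => r ((Fin.cons x h : Fin (j + 1) → H) a)) =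
      (Fin.cons (r x) (fun a => r (h a)) : Fin (j + 1) → Fin m → L) := by
    funext a
    refine Fin.cases ?_ (fun i => ?_) a
    · simp
    · simp
  rw [e]
  exact linearIndependent_finCons

lemma GP_proper {k H L : Type} [Field k] [AddCommGroup H] [Module k H] [Field L] [Algebra k L]
    {m j : ℕ} (hj : j < m) (r : H →ₗ[k] (Fin m → L))
    (hspan : Submodule.span L (Set.range r) = ⊤) (h : Fin j → H) :
    ∃ x : H, r x ∉ Submodule.span L (Set.range fun a => r (h a)) := by
  by_contra hcon
  push Not at hcon
  have h1 : Submodule.span L (Set.range fun a => r (h a)) = ⊤ := by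
    rw [eq_top_iff, ← hspan, Submodule.span_le]
    rintro _ ⟨x, rfl⟩
    exact hcon x
  have h2 : Module.finrank L (Submodule.span L (Set.range fun a => r (h a))) ≤ j := by
    have := finrank_range_le_card (R := L) (fun a => r (h a))
    rw [Fintype.card_fin] at this
    exact this
  rw [h1, finrank_top, Module.finrank_fin_fun] at h2
  omega

/-- the vectors which are mapped into a subspace -/
def GP_sub {k H L : Type} [Field k] [AddCommGroup H] [Module k H] [Field L] [Algebra k L]
    {m : ℕ} (r : H →ₗ[k] (Fin m → L)) (W : Submodule L (Fin m → L)) : Submodule k H :=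
  (W.restrictScalars k).comap r

/-- **Task GP.** General position. -/
theorem GP {k H L : Type} [Field k] [Infinite k] [AddCommGroup H] [Module k H]
    [Module.Finite k H] [Field L] [Algebra k L]
    {m : ℕ} {I : Type} (κ : I → Type) [∀ i, Field (κ i)] [∀ i, Algebra k (κ i)]
    (r : ∀ i, H →ₗ[k] (Fin m → κ i)) (r0 : H →ₗ[k] (Fin m → L))
    (hspan : ∀ i, Submodule.span (κ i) (Set.range (r i)) = ⊤)
    (hspan0 : Submodule.span L (Set.range r0) = ⊤)
    (hfin : ∀ (j : ℕ) (h : Fin j → H), LinearIndependent L (fun a => r0 (h a)) →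
      {i | ¬ LinearIndependent (κ i) (fun a => r i (h a))}.Finite) :
    ∀ j, j < m → ∃ h : Fin j → H, LinearIndependent L (fun a => r0 (h a)) ∧
      ∀ i, LinearIndependent (κ i) (fun a => r i (h a)) := by
  intro j
  induction j with
  | zero =>
    intro _
    exact ⟨Fin.elim0, linearIndependent_empty_type, fun i => linearIndependent_empty_type⟩
  | succ j ih =>
    intro hj
    obtain ⟨h, hL, hκ⟩ := ih (by omega)
    obtain ⟨b, hb⟩ := GP_proper (by omega : j < m) r0 hspan0 h
    have hLb : LinearIndependent L (fun a => r0 ((Fin.cons b h : Fin (j + 1) → H) a)) :=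
      (GP_cons r0 h b).2 ⟨hL, hb⟩
    have hI0 := hfin (j + 1) (Fin.cons b h) hLb
    set I0 := {i | ¬ LinearIndependent (κ i) (fun a => r i ((Fin.cons b h : Fin (j + 1) → H) a))}
      with hI0def
    have hI0' : ∀ i, i ∈ I0 ↔ r i b ∈ Submodule.span (κ i) (Set.range fun a => r i (h a)) := by
      intro i
      rw [hI0def, Set.mem_ofPred_eq, GP_cons, not_and, not_not]
      exact ⟨fun h1 => h1 (hκ i), fun h1 _ => h1⟩
    -- choice of `a`
    obtain ⟨a, ha0, haI⟩ : ∃ a : H,
        r0 a ∉ Submodule.span L (Set.range fun l => r0 ((Fin.cons b h : Fin (j + 1) → H) l)) ∧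
        ∀ i ∈ I0, r i a ∉ Submodule.span (κ i) (Set.range fun l => r i (h l)) := by
      classical
      let p : Option I0 → Subspace k H := fun o => match o with
        | none => GP_sub r0 (Submodule.span L
            (Set.range fun l => r0 ((Fin.cons b h : Fin (j + 1) → H) l)))
        | some i => GP_sub (r i) (Submodule.span (κ i) (Set.range fun l => r i (h l)))
      have : Finite I0 := hI0
      have hp : (⋃ o, (p o : Set H)) ≠ Set.univ := by
        intro hun
        obtain ⟨o, ho⟩ := Subspace.exists_eq_top_of_iUnion_eq_univ hun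
        rcases o with _ | i
        · obtain ⟨x, hx⟩ := GP_proper hj r0 hspan0 (Fin.cons b h : Fin (j + 1) → H)
          apply hx
          have : x ∈ p none := by rw [ho]; trivial
          exact this
        · obtain ⟨x, hx⟩ := GP_proper (by omega : j < m) (r i) (hspan i) h
          apply hx
          have : x ∈ p (some i) := by rw [ho]; trivial
          exact this
      obtain ⟨a, ha⟩ := (Set.ne_univ_iff_exists_notMem _).1 hp
      rw [Set.mem_iUnion, not_exists] at ha
      exact ⟨a, ha none, fun i hi => ha (some ⟨i, hi⟩)⟩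
    have hLa : LinearIndependent L (fun l => r0 ((Fin.cons a (Fin.cons b h : Fin (j + 1) → H) :
        Fin (j + 1 + 1) → H) l)) := (GP_cons r0 _ a).2 ⟨hLb, ha0⟩
    have hI1 := hfin (j + 1 + 1) (Fin.cons a (Fin.cons b h : Fin (j + 1) → H)) hLa
    set I1 := {i | ¬ LinearIndependent (κ i) (fun l => r i ((Fin.cons a
      (Fin.cons b h : Fin (j + 1) → H) : Fin (j + 1 + 1) → H) l))} with hI1def
    -- general fact: if `r a` is not in the span of `r b` and the `r h`, every `c` is good
    have key : ∀ {E : Type} [Field E] [Algebra k E] (s : H →ₗ[k] (Fin m → E)),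
        LinearIndependent E (fun l => s ((Fin.cons b h : Fin (j + 1) → H) l)) →
        s a ∉ Submodule.span E (Set.range fun l => s ((Fin.cons b h : Fin (j + 1) → H) l)) →
        ∀ c : k, s (b + c • a) ∉ Submodule.span E (Set.range fun l => s (h l)) := by
      intro E _ _ s hs1 hs2 c hc
      rw [GP_cons] at hs1
      have hle : Submodule.span E (Set.range fun l => s (h l)) ≤
          Submodule.span E (Set.range fun l => s ((Fin.cons b h : Fin (j + 1) → H) l)) := by
        apply Submodule.span_mono
        rintro _ ⟨l, rfl⟩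
        exact ⟨l.succ, by simp⟩
      have hb' : s b ∈ Submodule.span E
          (Set.range fun l => s ((Fin.cons b h : Fin (j + 1) → H) l)) :=
        Submodule.subset_span ⟨0, by simp⟩
      by_cases hc0 : c = 0
      · rw [hc0, zero_smul, add_zero] at hc
        exact hs1.2 hc
      · apply hs2
        have h1 : s (b + c • a) - s b ∈ Submodule.span E
          (Set.range fun l => s ((Fin.cons b h : Fin (j + 1) → H) l)) :=
          Submodule.sub_mem _ (hle hc) hb'
        rw [map_add, add_sub_cancel_left, map_smul] at h1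
        have h2 := Submodule.smul_mem _ (algebraMap k E c)⁻¹ h1
        rw [← algebraMap_smul E c (s a), smul_smul, inv_mul_cancel₀, one_smul] at h2
        · exact h2
        · exact (map_ne_zero _).2 hc0
    -- choice of `c`
    let bad : I → Set k := fun i => {c | i ∉ I0 ∧
      r i (b + c • a) ∈ Submodule.span (κ i) (Set.range fun l => r i (h l))}
    have hbad : ∀ i, (bad i).Subsingleton := by
      intro i c hc c' hc'
      by_contra hne
      have h1 := Submodule.sub_mem _ hc.2 hc'.2
      rw [map_add, map_add, add_sub_add_left_eq_sub, map_smul, map_smul, ← sub_smul,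
        ← algebraMap_smul (κ i) (c - c') (r i a)] at h1
      have h2 := Submodule.smul_mem _ (algebraMap k (κ i) (c - c'))⁻¹ h1
      rw [smul_smul, inv_mul_cancel₀, one_smul] at h2
      · have h3 := hc.2
        rw [map_add, map_smul, ← algebraMap_smul (κ i) c (r i a)] at h3
        have h4 := Submodule.sub_mem _ h3 (Submodule.smul_mem _ (algebraMap k (κ i) c) h2)
        rw [add_sub_cancel_right] at h4
        exact hc.1 ((hI0' i).2 h4)
      · exact (map_ne_zero _).2 (sub_ne_zero.2 hne)
    have hfinbad : ((⋃ i ∈ I1, bad i) ∪ {0}).Finite := by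
      refine Set.Finite.union ?_ (Set.finite_singleton 0)
      exact Set.Finite.biUnion hI1 fun i _ => (hbad i).finite
    obtain ⟨c, hc⟩ := hfinbad.exists_notMem
    rw [Set.mem_union, not_or, Set.mem_singleton_iff] at hc
    obtain ⟨hc1, hc0⟩ := hc
    refine ⟨Fin.cons (b + c • a) h, ?_, fun i => ?_⟩
    · rw [GP_cons]
      exact ⟨hL, key r0 hLb ha0 c⟩
    · rw [GP_cons]
      refine ⟨hκ i, ?_⟩
      by_cases hi0 : i ∈ I0
      · intro hmem
        have hb' := (hI0' i).1 hi0
        have h1 := Submodule.sub_mem _ hmem hb'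
        rw [map_add, add_sub_cancel_left, map_smul, ← algebraMap_smul (κ i) c (r i a)] at h1
        have h2 := Submodule.smul_mem _ (algebraMap k (κ i) c)⁻¹ h1
        rw [smul_smul, inv_mul_cancel₀, one_smul] at h2
        · exact haI i hi0 h2
        · exact (map_ne_zero _).2 hc0
      · by_cases hi1 : i ∈ I1
        · intro hmem
          apply hc1
          rw [Set.mem_iUnion₂]
          exact ⟨i, hi1, hi0, hmem⟩
        · rw [hI1def, Set.mem_ofPred_eq, not_not] at hi1
          rw [GP_cons] at hi1
          exact key (r i) hi1.1 hi1.2 c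

end

end Pool.Agent.H54R2.Ul
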