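import Pool.Agent.H54R2.Ul.Defs3

namespace Pool.Agent.H54R2.Ul

open MvPolynomial

noncomputable section

variable {k K : Type} [Field k] [Field K] [Algebra k K]

lemma GRA_surj {κ O : Type} [Field κ] [CommRing O] [Algebra κ O] {x w : O} (h : x ∣ w) :
    ∃ g : (O ⧸ Ideal.span {w}) →ₗ[κ] (O ⧸ Ideal.span {x}), Function.Surjective g ∧
      ∀ o : O, g (Ideal.Quotient.mk _ o) = Ideal.Quotient.mk _ o := by
  have hle : Ideal.span {w} ≤ Ideal.span {x} := by
    rw [Ideal.span_singleton_le_span_singleton]; exact h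
  refine ⟨(Ideal.Quotient.factorₐ κ hle).toLinearMap, ?_, ?_⟩
  · intro y
    obtain ⟨o, rfl⟩ := Ideal.Quotient.mk_surjective y
    exact ⟨Ideal.Quotient.mk _ o, rfl⟩
  · intro o; rfl

lemma GRA_fin {κ O : Type} [Field κ] [CommRing O] [Algebra κ O] {x w : O} (h : x ∣ w)
    (hf : Module.Finite κ (O ⧸ Ideal.span {w})) : Module.Finite κ (O ⧸ Ideal.span {x}) := by
  obtain ⟨g, hg, -⟩ := GRA_surj (κ := κ) h
  exact Module.Finite.of_surjective g hg

lemma GRA_mono {κ O : Type} [Field κ] [CommRing O] [Algebra κ O] {x w : O} (h : x ∣ w)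
    (hf : Module.Finite κ (O ⧸ Ideal.span {w})) :
    Module.finrank κ (O ⧸ Ideal.span {x}) ≤ Module.finrank κ (O ⧸ Ideal.span {w}) := by
  obtain ⟨g, hg, -⟩ := GRA_surj (κ := κ) h
  exact LinearMap.finrank_le_finrank_of_surjective hg

lemma GRA_add {κ O : Type} [Field κ] [CommRing O] [IsDomain O] [Algebra κ O] {x y : O}
    (hx : x ≠ 0) (hf : Module.Finite κ (O ⧸ Ideal.span {x * y})) :
    Module.finrank κ (O ⧸ Ideal.span {x}) + Module.finrank κ (O ⧸ Ideal.span {y})
      ≤ Module.finrank κ (O ⧸ Ideal.span {x * y}) := by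
  obtain ⟨g, hg, hg'⟩ := GRA_surj (κ := κ) (Dvd.intro y rfl : x ∣ x * y)
  have h1 := LinearMap.finrank_range_add_finrank_ker g
  rw [LinearMap.range_eq_top.2 hg, finrank_top] at h1
  -- the multiplication map
  let m : (O ⧸ Ideal.span {y}) →ₗ[O] (O ⧸ Ideal.span {x * y}) :=
    Submodule.mapQ _ _ (LinearMap.mulLeft O x) (by
      intro z hz
      rw [Ideal.mem_span_singleton] at hz
      rw [Submodule.mem_comap, LinearMap.mulLeft_apply, Ideal.mem_span_singleton]
      exact mul_dvd_mul_left x hz)
  have hm : ∀ o : O, m (Ideal.Quotient.mk _ o) = Ideal.Quotient.mk _ (x * o) := fun o => rfl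
  let m' : (O ⧸ Ideal.span {y}) →ₗ[κ] (O ⧸ Ideal.span {x * y}) := m.restrictScalars κ
  have hmi : Function.Injective m' := by
    rw [← LinearMap.ker_eq_bot, LinearMap.ker_eq_bot']
    intro z hz
    obtain ⟨o, rfl⟩ := Ideal.Quotient.mk_surjective z
    have : (Ideal.Quotient.mk (Ideal.span {x * y}) (x * o)) = 0 := hz
    rw [Ideal.Quotient.eq_zero_iff_mem, Ideal.mem_span_singleton] at this
    rw [Ideal.Quotient.eq_zero_iff_mem, Ideal.mem_span_singleton]
    exact (mul_dvd_mul_iff_left hx).1 this
  have hmk : ∀ z, m' z ∈ LinearMap.ker g := by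
    intro z
    obtain ⟨o, rfl⟩ := Ideal.Quotient.mk_surjective z
    rw [LinearMap.mem_ker]
    have : g (Ideal.Quotient.mk _ (x * o)) = 0 := by
      rw [hg', Ideal.Quotient.eq_zero_iff_mem, Ideal.mem_span_singleton]
      exact Dvd.intro o rfl
    exact this
  have h2 : Module.finrank κ (O ⧸ Ideal.span {y}) ≤ Module.finrank κ (LinearMap.ker g) := by
    refine LinearMap.finrank_le_finrank_of_injective (f := m'.codRestrict (LinearMap.ker g) hmk) ?_
    intro a b hab
    exact hmi (congrArg Subtype.val hab)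
  omega

lemma GRA_pow {κ O : Type} [Field κ] [CommRing O] [IsDomain O] [Algebra κ O] {x : O}
    (hx : x ≠ 0) (p : ℕ) (hf : Module.Finite κ (O ⧸ Ideal.span {x ^ p})) :
    p * Module.finrank κ (O ⧸ Ideal.span {x}) ≤ Module.finrank κ (O ⧸ Ideal.span {x ^ p}) := by
  induction p with
  | zero => simp
  | succ q ih =>
    have hf' : Module.Finite κ (O ⧸ Ideal.span {x ^ q * x}) := by rwa [← pow_succ]
    have h1 := ih (GRA_fin (Dvd.intro x (pow_succ x q).symm) hf)
    have h2 := GRA_add (κ := κ) (pow_ne_zero q hx) hf'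
    rw [pow_succ, Nat.succ_mul]
    omega

lemma GRA_prod {κ O : Type} [Field κ] [CommRing O] [IsDomain O] [Algebra κ O] {ι : Type}
    (a : ι → O) (ha : ∀ i, a i ≠ 0) (s : Finset ι)
    (hf : Module.Finite κ (O ⧸ Ideal.span {∏ i ∈ s, a i})) :
    ∑ i ∈ s, Module.finrank κ (O ⧸ Ideal.span {a i})
      ≤ Module.finrank κ (O ⧸ Ideal.span {∏ i ∈ s, a i}) := by
  classical
  induction s using Finset.induction_on with
  | empty => simp
  | insert j s hj ih =>
    rw [Finset.sum_insert hj]
    rw [Finset.prod_insert hj] at hf ⊢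
    have h1 := ih (GRA_fin (Dvd.intro_left (a j) rfl) hf)
    have h2 := GRA_add (κ := κ) (ha j) hf
    omega

/-- **Task GRA.** Lattices over a principal ideal domain. -/
theorem GRA {κ O L : Type} [Field κ] [CommRing O] [IsDomain O] [IsPrincipalIdealRing O]
    [Algebra κ O] [Field L] [Algebra O L] [IsFractionRing O L] (p : ℕ) {ρ : ℕ}
    (Q : Submodule O (Fin ρ → L)) (hfg : Q.FG)
    (hstd : ∀ v : Fin ρ → O, (fun i => algebraMap O L (v i)) ∈ Q)
    (W : O) (hW : W ≠ 0) (hfin : Module.Finite κ (O ⧸ Ideal.span {W}))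
    (hdet : ∀ v : Fin ρ → Fin ρ → L, (∀ i, v i ∈ Q) →
      ∃ o : O, algebraMap O L W * (Matrix.det (Matrix.of v)) ^ p = algebraMap O L o)
    (hp : 0 < p)
    {n : ℕ} (f : Fin n → Fin ρ → L) (hf : ∀ i, f i ∈ Q)
    (hind : ∀ c : Fin n → κ, (∃ v : Fin ρ → O, ∀ j,
      ∑ i, algebraMap O L (algebraMap κ O (c i)) * f i j = algebraMap O L (v j)) → c = 0) :
    p * n ≤ Module.finrank κ (O ⧸ Ideal.span {W}) := by
  classical
  have hinj : Function.Injective (algebraMap O L) := IsFractionRing.injective O L
  have : Module.Finite O Q := Module.Finite.iff_fg.2 hfg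
  have : Module.IsTorsionFree O L := inferInstance
  have : Module.IsTorsionFree O (Fin ρ → L) := inferInstance
  have : Module.IsTorsionFree O Q := inferInstance
  -- the standard lattice
  let φ : (Fin ρ → O) →ₗ[O] Q :=
    { toFun := fun v => ⟨fun i => algebraMap O L (v i), hstd v⟩
      map_add' := by intro x y; ext i; simp
      map_smul' := by intro c x; ext i; simp [Algebra.smul_def] }
  have hφ : ∀ v i, (φ v : Fin ρ → L) i = algebraMap O L (v i) := fun v i => rfl
  have hφi : Function.Injective φ := by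
    intro x y hxy
    funext i
    apply hinj
    rw [← hφ, ← hφ, hxy]
  -- rank of Q
  have hrank : Module.finrank O Q = ρ := by
    apply le_antisymm
    · obtain ⟨m, b0⟩ := Module.basisOfFiniteTypeTorsionFree' (R := O) (M := Q)
      rw [Module.finrank_eq_card_basis b0, Fintype.card_fin]
      have h1 : LinearIndependent O (fun i => (b0 i : Fin ρ → L)) := by
        have := b0.linearIndependent.map' Q.subtype (Submodule.ker_subtype Q)
        exact this
      have h2 : LinearIndependent L (fun i => (b0 i : Fin ρ → L)) :=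
        (LinearIndependent.iff_fractionRing O L).1 h1
      have := h2.fintype_card_le_finrank
      simpa using this
    · have := LinearMap.finrank_le_finrank_of_injective (R := O) hφi
      simpa using this
  obtain ⟨m, b0⟩ := Module.basisOfFiniteTypeTorsionFree' (R := O) (M := Q)
  have hm : m = ρ := by
    rw [← hrank, Module.finrank_eq_card_basis b0, Fintype.card_fin]
  subst hm
  have hNr : Module.finrank O (LinearMap.range φ) = Module.finrank O Q := by
    rw [LinearMap.finrank_range_of_inj hφi, hrank]; simp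
  obtain ⟨b, a, bN, hab⟩ := Submodule.exists_smith_normal_form_of_rank_eq b0 hNr
  -- matrices
  have hw : ∀ i, ∃ w : Fin m → O, φ w = (bN i : Q) := fun i => (bN i).2
  choose w hw using hw
  let P : Matrix (Fin m) (Fin m) O := fun j i =>
    bN.repr ⟨φ (Pi.single j 1), LinearMap.mem_range_self _ _⟩ i
  have hPw : P * Matrix.of w = 1 := by
    have hj : ∀ j, ∑ i, P j i • w i = Pi.single j 1 := by
      intro j
      apply hφi
      have h1 := bN.sum_repr ⟨φ (Pi.single j 1), LinearMap.mem_range_self _ _⟩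
      have h2 := congrArg (fun z : LinearMap.range φ => (z : Q)) h1
      simp only [Submodule.coe_sum, Submodule.coe_smul] at h2
      rw [map_sum]
      simp only [map_smul, hw]
      exact h2
    ext j l
    have := congrFun (hj j) l
    rw [Matrix.mul_apply]
    simp only [Finset.sum_apply, Pi.smul_apply, smul_eq_mul] at this
    simp only [Matrix.of_apply]
    rw [this, Matrix.one_apply, Pi.single_apply]
    simp [eq_comm]
  have hdetPw : P.det * (Matrix.of w).det = 1 := by
    rw [← Matrix.det_mul, hPw, Matrix.det_one]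
  -- determinant of b
  set B : Matrix (Fin m) (Fin m) L := Matrix.of (fun i => ((b i : Q) : Fin m → L)) with hB
  have hdw : algebraMap O L (Matrix.of w).det = algebraMap O L (∏ i, a i) * B.det := by
    rw [RingHom.map_det, map_prod, ← Matrix.det_mul_column]
    congr 1
    ext i l
    simp only [RingHom.mapMatrix_apply, Matrix.map_apply, Matrix.of_apply, hB]
    rw [← hφ, hw, hab]
    simp [Algebra.smul_def]
  obtain ⟨o, ho⟩ := hdet (fun i => ((b i : Q) : Fin m → L)) (fun i => (b i).2)
  have hdvd : (∏ i, a i) ^ p ∣ W := by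
    have h1 : W * (Matrix.of w).det ^ p = o * (∏ i, a i) ^ p := by
      apply hinj
      rw [map_mul, map_pow, hdw, map_mul, map_pow, ← ho, mul_pow]
      ring
    have h2 : W = o * (∏ i, a i) ^ p * P.det ^ p := by
      rw [← h1, mul_assoc, ← mul_pow, mul_comm (Matrix.of w).det, hdetPw, one_pow, mul_one]
    refine ⟨o * P.det ^ p, ?_⟩
    rw [h2]; ring
  have hfp : Module.Finite κ (O ⧸ Ideal.span {(∏ i, a i) ^ p}) := GRA_fin hdvd hfin
  have hprod : (∏ i, a i) ≠ 0 := by
    intro h0
    rw [h0, zero_pow hp.ne'] at hdvd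
    exact hW (zero_dvd_iff.1 hdvd)
  have ha : ∀ i, a i ≠ 0 := fun i h0 => hprod (Finset.prod_eq_zero (Finset.mem_univ i) h0)
  have hf1 : Module.Finite κ (O ⧸ Ideal.span {∏ i, a i}) :=
    GRA_fin (dvd_pow_self _ hp.ne') hfp
  have hfa : ∀ i, Module.Finite κ (O ⧸ Ideal.span {a i}) := fun i =>
    GRA_fin (Finset.dvd_prod_of_mem a (Finset.mem_univ i)) hf1
  have s1 := GRA_pow hprod p hfp
  have s2 := GRA_mono hdvd hfin
  have s3 := GRA_prod (κ := κ) a ha Finset.univ hf1
  -- the injection
  have s4 : n ≤ ∑ i, Module.finrank κ (O ⧸ Ideal.span {a i}) := by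
    let F : (Fin n → κ) →ₗ[κ] (∀ j : Fin m, O ⧸ Ideal.span {a j}) :=
      LinearMap.pi (fun j => ∑ i : Fin n,
        (LinearMap.toSpanSingleton κ (O ⧸ Ideal.span {a j})
          (Ideal.Quotient.mk _ (b.repr ⟨f i, hf i⟩ j))).comp (LinearMap.proj i))
    have hF : ∀ c j, F c j = Ideal.Quotient.mk (Ideal.span {a j})
        (∑ i, algebraMap κ O (c i) * b.repr ⟨f i, hf i⟩ j) := by
      intro c j
      simp only [F, LinearMap.pi_apply, LinearMap.sum_apply, LinearMap.comp_apply,
        LinearMap.proj_apply, LinearMap.toSpanSingleton_apply, map_sum, map_mul]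
      refine Finset.sum_congr rfl (fun i _ => ?_)
      rw [Algebra.smul_def]
      rfl
    have hFi : Function.Injective F := by
      rw [← LinearMap.ker_eq_bot, LinearMap.ker_eq_bot']
      intro c hc
      apply hind
      have h1 : ∀ j, ∃ t : O, ∑ i, algebraMap κ O (c i) * b.repr ⟨f i, hf i⟩ j = a j * t := by
        intro j
        have := congrFun hc j
        rw [hF, Pi.zero_apply, Ideal.Quotient.eq_zero_iff_mem, Ideal.mem_span_singleton] at this
        exact this
      choose t ht using h1
      refine ⟨∑ j, t j • w j, ?_⟩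
      have h2 : (∑ i, algebraMap κ O (c i) • (⟨f i, hf i⟩ : Q)) = φ (∑ j, t j • w j) := by
        apply b.repr.injective
        ext j
        rw [map_sum, map_sum, map_sum]
        simp only [map_smul, hw, hab, Finsupp.coe_finsetSum, Finset.sum_apply, Finsupp.smul_apply,
          smul_eq_mul]
        rw [ht]
        simp only [Module.Basis.repr_self, Finsupp.single_apply]
        simp [mul_comm]
      intro j
      have h3 := congrArg (fun z : Q => (z : Fin m → L) j) h2
      simp only [Submodule.coe_sum, Submodule.coe_smul, Finset.sum_apply, Pi.smul_apply] at h3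
      rw [hφ] at h3
      rw [← h3]
      refine Finset.sum_congr rfl (fun i _ => ?_)
      rw [Algebra.smul_def]
    have := LinearMap.finrank_le_finrank_of_injective hFi
    rw [Module.finrank_pi_fintype κ (M := fun j : Fin m => O ⧸ Ideal.span {a j})] at this
    simpa using this
  calc p * n ≤ p * ∑ i, Module.finrank κ (O ⧸ Ideal.span {a i}) := Nat.mul_le_mul_left p s4
    _ ≤ p * Module.finrank κ (O ⧸ Ideal.span {∏ i, a i}) := Nat.mul_le_mul_left p s3
    _ ≤ _ := s1
    _ ≤ _ := s2

end

end Pool.Agent.H54R2.Ul
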