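import Pool.Agent.H54R2.Ul.Defs3

namespace Pool.Agent.H54R2.Ul

open MvPolynomial

noncomputable section

variable {k K : Type} [Field k] [Field K] [Algebra k K]

/-- **Task INL.** `InLoc` is a subring. -/
theorem InLoc_zero (G : Fil k K) (q : Ideal G.Rg) (hq : q.IsPrime) : InLoc G q 0 :=
  ⟨0, 1, fun h => hq.ne_top ((Ideal.eq_top_iff_one q).2 h), by simp⟩

theorem InLoc_one (G : Fil k K) (q : Ideal G.Rg) (hq : q.IsPrime) : InLoc G q 1 :=
  ⟨1, 1, fun h => hq.ne_top ((Ideal.eq_top_iff_one q).2 h), by simp⟩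

theorem InLoc_add (G : Fil k K) (q : Ideal G.Rg) (hq : q.IsPrime)
    {x y : FractionRing (Polynomial K)} (hx : InLoc G q x) (hy : InLoc G q y) :
    InLoc G q (x + y) := by
  obtain ⟨a, s, hs, h1⟩ := hx
  obtain ⟨b, t, ht, h2⟩ := hy
  refine ⟨a * t + b * s, s * t, fun h => (hq.mem_or_mem h).elim hs ht, ?_⟩
  have e1 : (s * t).1 = s.1 * t.1 := rfl
  have e2 : (a * t + b * s).1 = a.1 * t.1 + b.1 * s.1 := rfl
  rw [e1, e2, map_mul, map_add, map_mul, map_mul, ← h1, ← h2]
  ring

theorem InLoc_mul (G : Fil k K) (q : Ideal G.Rg) (hq : q.IsPrime)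
    {x y : FractionRing (Polynomial K)} (hx : InLoc G q x) (hy : InLoc G q y) :
    InLoc G q (x * y) := by
  obtain ⟨a, s, hs, h1⟩ := hx
  obtain ⟨b, t, ht, h2⟩ := hy
  refine ⟨a * b, s * t, fun h => (hq.mem_or_mem h).elim hs ht, ?_⟩
  have e1 : (s * t).1 = s.1 * t.1 := rfl
  have e2 : (a * b).1 = a.1 * b.1 := rfl
  rw [e1, e2, map_mul, map_mul, ← h1, ← h2]
  ring

theorem InLoc_neg (G : Fil k K) (q : Ideal G.Rg) (hq : q.IsPrime)
    {x : FractionRing (Polynomial K)} (hx : InLoc G q x) : InLoc G q (-x) := by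
  obtain ⟨a, s, hs, h1⟩ := hx
  refine ⟨-a, s, hs, ?_⟩
  have e2 : (-a).1 = -a.1 := rfl
  rw [e2, map_neg, ← h1]
  ring

theorem InLoc_pow (G : Fil k K) (q : Ideal G.Rg) (hq : q.IsPrime)
    {x : FractionRing (Polynomial K)} (hx : InLoc G q x) (n : ℕ) : InLoc G q (x ^ n) := by
  induction n with
  | zero => rw [pow_zero]; exact InLoc_one G q hq
  | succ n ih => rw [pow_succ]; exact InLoc_mul G q hq ih hx

theorem InLoc_sum (G : Fil k K) (q : Ideal G.Rg) (hq : q.IsPrime) {ι : Type} (s : Finset ι)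
    (f : ι → FractionRing (Polynomial K)) (hf : ∀ i ∈ s, InLoc G q (f i)) :
    InLoc G q (∑ i ∈ s, f i) := by
  classical
  induction s using Finset.induction_on with
  | empty => rw [Finset.sum_empty]; exact InLoc_zero G q hq
  | insert a s ha ih =>
    rw [Finset.sum_insert ha]
    exact InLoc_add G q hq (hf a (Finset.mem_insert_self _ _))
      (ih fun i hi => hf i (Finset.mem_insert_of_mem hi))

theorem InLoc_prod (G : Fil k K) (q : Ideal G.Rg) (hq : q.IsPrime) {ι : Type} (s : Finset ι)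
    (f : ι → FractionRing (Polynomial K)) (hf : ∀ i ∈ s, InLoc G q (f i)) :
    InLoc G q (∏ i ∈ s, f i) := by
  classical
  induction s using Finset.induction_on with
  | empty => rw [Finset.prod_empty]; exact InLoc_one G q hq
  | insert a s ha ih =>
    rw [Finset.prod_insert ha]
    exact InLoc_mul G q hq (hf a (Finset.mem_insert_self _ _))
      (ih fun i hi => hf i (Finset.mem_insert_of_mem hi))

lemma INL_X_ne : (algebraMap (Polynomial K) (FractionRing (Polynomial K))) Polynomial.X ≠ 0 := by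
  intro h
  have h2 := IsFractionRing.injective (Polynomial K) (FractionRing (Polynomial K))
    (h.trans (map_zero _).symm)
  exact Polynomial.X_ne_zero h2

lemma INL_xT_nat (x : K) (n : ℕ) : xT x n =
    algebraMap (Polynomial K) (FractionRing (Polynomial K)) (Polynomial.monomial n x) := by
  unfold xT
  rw [zpow_natCast, ← map_pow, ← map_mul, Polynomial.C_mul_X_pow_eq_monomial]

/-- sections are locally regular (for `t < 0` the element `y` is zero) -/
theorem InLoc_xT (G : Fil k K) (q : Ideal G.Rg) (hq : q.IsPrime) (t : ℤ) (y : K)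
    (hy : y ∈ G.R t) : InLoc G q (xT y t) := by
  rcases lt_or_ge t 0 with ht | ht
  · rw [G.neg t ht, Submodule.mem_bot] at hy
    rw [hy]
    have : xT (0 : K) t = 0 := by unfold xT; simp
    rw [this]
    exact InLoc_zero G q hq
  · obtain ⟨n, rfl⟩ := Int.eq_ofNat_of_zero_le ht
    refine ⟨⟨Polynomial.monomial n y, ?_⟩, 1,
      fun h => hq.ne_top ((Ideal.eq_top_iff_one q).2 h), ?_⟩
    · intro j
      rw [Polynomial.coeff_monomial]
      split_ifs with h
      · rw [← h]; exact hy
      · exact Submodule.zero_mem _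
    · have e1 : (1 : G.Rg).1 = 1 := rfl
      rw [e1, map_one, mul_one, INL_xT_nat]

/-- globally regular elements of degree `t` are sections -/
theorem mem_R_of_xT (G : Fil k K) (t : ℤ) (x : K) (a : G.Rg)
    (h : xT x t = algebraMap (Polynomial K) (FractionRing (Polynomial K)) a.1) : x ∈ G.R t := by
  rcases lt_or_ge t 0 with ht | ht
  · obtain ⟨n, hn⟩ := Int.eq_ofNat_of_zero_le (show (0 : ℤ) ≤ -t by omega)
    have ht' : t = -(n : ℤ) := by omega
    have hn0 : n ≠ 0 := by omega
    subst ht'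
    unfold xT at h
    rw [zpow_neg, zpow_natCast, ← div_eq_mul_inv, div_eq_iff (pow_ne_zero n INL_X_ne),
      ← map_pow, ← map_mul] at h
    have h2 := IsFractionRing.injective (Polynomial K) (FractionRing (Polynomial K)) h
    have h3 := congrArg (fun f => Polynomial.coeff f 0) h2
    simp only [Polynomial.coeff_C_zero, Polynomial.mul_coeff_zero, Polynomial.coeff_X_pow] at h3
    rw [if_neg (Ne.symm hn0), mul_zero] at h3
    rw [h3]
    exact Submodule.zero_mem _
  · obtain ⟨n, rfl⟩ := Int.eq_ofNat_of_zero_le ht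
    rw [INL_xT_nat] at h
    have h2 := IsFractionRing.injective (Polynomial K) (FractionRing (Polynomial K)) h
    have h3 := a.2 n
    rw [← h2, Polynomial.coeff_monomial, if_pos rfl] at h3
    exact h3

theorem xT_mul (x y : K) (m n : ℤ) : xT x m * xT y n = xT (x * y) (m + n) := by
  unfold xT
  rw [zpow_add₀ INL_X_ne, Polynomial.C_mul, map_mul]
  ring

theorem xT_add (x y : K) (m : ℤ) : xT (x + y) m = xT x m + xT y m := by
  unfold xT
  rw [Polynomial.C_add, map_add]
  ring

theorem xT_sum {ι : Type} (s : Finset ι) (f : ι → K) (m : ℤ) :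
    xT (∑ i ∈ s, f i) m = ∑ i ∈ s, xT (f i) m := by
  classical
  induction s using Finset.induction_on with
  | empty => unfold xT; simp
  | insert a s ha ih => rw [Finset.sum_insert ha, Finset.sum_insert ha, xT_add, ih]

theorem xT_pow (x : K) (m : ℤ) (n : ℕ) : xT x m ^ n = xT (x ^ n) (n * m) := by
  have e : ∀ u : FractionRing (Polynomial K), (u ^ m) ^ n = u ^ ((n : ℤ) * m) := fun u => by
    rw [mul_comm (n : ℤ) m, zpow_mul, zpow_natCast]
  unfold xT
  rw [mul_pow, ← map_pow, ← Polynomial.C_pow, e]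

theorem xT_ne_zero {x : K} (hx : x ≠ 0) (m : ℤ) : xT x m ≠ 0 := by
  unfold xT
  refine mul_ne_zero ?_ (zpow_ne_zero m INL_X_ne)
  intro h
  have h2 := IsFractionRing.injective (Polynomial K) (FractionRing (Polynomial K))
    (h.trans (map_zero _).symm)
  exact hx (Polynomial.C_eq_zero.1 h2)

end

end Pool.Agent.H54R2.Ul
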