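import Pool.Agent.H54R2.Ul.Defs3

namespace Pool.Agent.H54R2.Ul

open MvPolynomial

noncomputable section

variable {k K : Type} [Field k] [Field K] [Algebra k K]

/-- the homogeneous element `x T^n` of the coordinate ring -/
def IRR_mon (G : Fil k K) (n : ℕ) (x : K) (hx : x ∈ G.R n) : G.Rg :=
  ⟨Polynomial.monomial n x, by
    intro j
    rw [Polynomial.coeff_monomial]
    split_ifs with h
    · rw [← h]; exact hx
    · exact Submodule.zero_mem _⟩

/-- **Task IRR.** A height-one prime does not contain all linear forms. -/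
theorem IRR (G : Geo k K) (q : Ideal G.toFil.Rg) (hq : HtOne q) :
    ∃ (y : K) (f : G.toFil.Rg), y ∈ G.R 1 ∧ f.1 = Polynomial.monomial 1 y ∧ f ∉ q := by
  classical
  by_contra hcon
  push Not at hcon
  obtain ⟨hp, hne, π, hπ, hgen⟩ := hq
  -- homogeneous elements of positive degree are in `q`
  have hpos : ∀ (n : ℕ) (x : K) (hx : x ∈ G.R ((n + 1 : ℕ) : ℤ)),
      IRR_mon G.toFil (n + 1) x hx ∈ q := by
    intro n x hx
    have hx' : x ∈ Submodule.span k {x | ∃ a ∈ G.R 1, ∃ b ∈ G.R n, x = a * b} := by
      apply G.gen_one n (by positivity)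
      have : ((n + 1 : ℕ) : ℤ) = (n : ℤ) + 1 := by push_cast; ring
      rw [← this]; exact hx
    have key : ∀ y ∈ Submodule.span k {x | ∃ a ∈ G.R 1, ∃ b ∈ G.R n, x = a * b},
        ∃ hy : y ∈ G.R ((n + 1 : ℕ) : ℤ), IRR_mon G.toFil (n + 1) y hy ∈ q := by
      intro y hy
      induction hy using Submodule.span_induction with
      | mem y hy =>
        obtain ⟨a, ha, b, hb, rfl⟩ := hy
        have hab : a * b ∈ G.R ((n + 1 : ℕ) : ℤ) := by
          have := G.mul_mem ha hb
          have e : (1 : ℤ) + n = ((n + 1 : ℕ) : ℤ) := by push_cast; ring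
          rwa [e] at this
        refine ⟨hab, ?_⟩
        have ha' : a ∈ G.R ((1 : ℕ) : ℤ) := by simpa using ha
        have e : IRR_mon G.toFil (n + 1) (a * b) hab =
            IRR_mon G.toFil n b hb * IRR_mon G.toFil 1 a ha' := by
          apply Subtype.ext
          show Polynomial.monomial (n + 1) (a * b) =
            Polynomial.monomial n b * Polynomial.monomial 1 a
          rw [Polynomial.monomial_mul_monomial, mul_comm a b]
        rw [e]
        exact q.mul_mem_left _ (hcon a _ ha rfl)
      | zero =>
        refine ⟨Submodule.zero_mem _, ?_⟩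
        have e : IRR_mon G.toFil (n + 1) 0 (Submodule.zero_mem _) = 0 := by
          apply Subtype.ext
          show Polynomial.monomial (n + 1) (0 : K) = 0
          exact Polynomial.monomial_zero_right _
        rw [e]; exact q.zero_mem
      | add y z _ _ hy hz =>
        obtain ⟨hy1, hy2⟩ := hy
        obtain ⟨hz1, hz2⟩ := hz
        refine ⟨Submodule.add_mem _ hy1 hz1, ?_⟩
        have e : IRR_mon G.toFil (n + 1) (y + z) (Submodule.add_mem _ hy1 hz1) =
            IRR_mon G.toFil (n + 1) y hy1 + IRR_mon G.toFil (n + 1) z hz1 := by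
          apply Subtype.ext
          show Polynomial.monomial (n + 1) (y + z) = _
          exact map_add _ _ _
        rw [e]; exact q.add_mem hy2 hz2
      | smul c y _ hy =>
        obtain ⟨hy1, hy2⟩ := hy
        refine ⟨Submodule.smul_mem _ c hy1, ?_⟩
        have e : IRR_mon G.toFil (n + 1) (c • y) (Submodule.smul_mem _ c hy1) =
            algebraMap k G.toFil.Rg c * IRR_mon G.toFil (n + 1) y hy1 := by
          apply Subtype.ext
          show Polynomial.monomial (n + 1) (c • y) =
            algebraMap k (Polynomial K) c * Polynomial.monomial (n + 1) y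
          rw [← Algebra.smul_def, Polynomial.smul_monomial]
        rw [e]; exact q.mul_mem_left _ hy2
    exact (key x hx').2
  -- elements without constant term are in `q`
  have hzero : ∀ f : G.toFil.Rg, f.1.coeff 0 = 0 → f ∈ q := by
    intro f hf
    have hsum : f = ∑ n ∈ Finset.range (f.1.natDegree + 1),
        IRR_mon G.toFil n (f.1.coeff n) (f.2 n) := by
      apply Subtype.ext
      rw [AddSubmonoidClass.coe_finsetSum]
      show f.1 = ∑ n ∈ Finset.range (f.1.natDegree + 1), Polynomial.monomial n (f.1.coeff n)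
      exact f.1.as_sum_range
    rw [hsum]
    refine q.sum_mem fun n _ => ?_
    cases n with
    | zero =>
      have e : IRR_mon G.toFil 0 (f.1.coeff 0) (f.2 0) = 0 := by
        apply Subtype.ext
        show Polynomial.monomial 0 (f.1.coeff 0) = 0
        rw [hf]; exact Polynomial.monomial_zero_right _
      rw [e]; exact q.zero_mem
    | succ n => exact hpos n _ (f.2 (n + 1))
  -- constants
  have hconst : ∀ f : G.toFil.Rg, ∃ c : k, f.1.coeff 0 = algebraMap k K c := fun f =>
    G.zero_deg _ (by simpa using f.2 0)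
  have hmemzero : ∀ f ∈ q, f.1.coeff 0 = 0 := by
    intro f hf
    obtain ⟨c, hc⟩ := hconst f
    by_contra h0
    have hc0 : c ≠ 0 := by rintro rfl; rw [map_zero] at hc; exact h0 hc
    have h1 : f - algebraMap k G.toFil.Rg c ∈ q := by
      apply hzero
      show (f.1 - algebraMap k (Polynomial K) c).coeff 0 = 0
      rw [Polynomial.coeff_sub, hc, Polynomial.algebraMap_apply, Polynomial.coeff_C_zero, sub_self]
    have h2 : algebraMap k G.toFil.Rg c ∈ q := by
      have := q.sub_mem hf h1
      rwa [sub_sub_cancel] at this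
    apply hp.ne_top
    apply q.eq_top_of_isUnit_mem h2
    exact (IsUnit.mk0 c hc0).map (algebraMap k G.toFil.Rg)
  have hπ0 := hmemzero π hπ
  -- every linear form is a multiple of `coeff π 1`
  have hmul : ∀ y ∈ G.R 1, ∃ c : k, y = algebraMap k K c * π.1.coeff 1 := by
    intro y hy
    have hy' : y ∈ G.R ((1 : ℕ) : ℤ) := by simpa using hy
    obtain ⟨s, hs, b, hb⟩ := hgen _ (hcon y (IRR_mon G.toFil 1 y hy') hy rfl)
    obtain ⟨s0, hs0⟩ := hconst s
    obtain ⟨b0, hb0⟩ := hconst b
    have hs0' : s0 ≠ 0 := by
      rintro rfl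
      rw [map_zero] at hs0
      exact hs (hzero s hs0)
    have h1 : s.1 * Polynomial.monomial 1 y = b.1 * π.1 := congrArg Subtype.val hb
    have h2 := congrArg (fun f => Polynomial.coeff f 1) h1
    simp only [Polynomial.coeff_mul] at h2
    rw [Finset.Nat.sum_antidiagonal_eq_sum_range_succ_mk,
      Finset.Nat.sum_antidiagonal_eq_sum_range_succ_mk] at h2
    simp only [Finset.sum_range_succ, Finset.sum_range_zero, zero_add, tsub_zero, tsub_self,
      Polynomial.coeff_monomial, if_true] at h2
    rw [hπ0, if_neg (by norm_num), mul_zero, mul_zero, add_zero, add_zero, hs0, hb0] at h2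
    refine ⟨b0 / s0, ?_⟩
    have hs0K : algebraMap k K s0 ≠ 0 := by
      rw [Ne, map_eq_zero]; exact hs0'
    rw [map_div₀, div_mul_eq_mul_div, eq_div_iff hs0K, ← h2, mul_comm]
  have hone : (1 : K) ∈ G.R 1 := by
    have := G.mono 0 G.one_mem
    simpa using this
  obtain ⟨c, hc⟩ := hmul 1 hone
  obtain ⟨c', hc'⟩ := hmul G.Y1 G.Y1_mem
  have hcK : algebraMap k K c ≠ 0 := by
    intro h
    rw [h, zero_mul] at hc
    exact one_ne_zero hc
  have hY : G.Y1 = algebraMap k K (c' / c) := by
    rw [map_div₀, eq_div_iff hcK, hc']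
    calc algebraMap k K c' * π.1.coeff 1 * algebraMap k K c
        = algebraMap k K c' * (algebraMap k K c * π.1.coeff 1) := by ring
      _ = algebraMap k K c' := by rw [← hc, mul_one]
  have htr : Transcendental k G.Y1 := by
    have := G.algInd.transcendental 0
    simpa using this
  exact htr (hY ▸ isAlgebraic_algebraMap _)

end

end Pool.Agent.H54R2.Ul
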