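import Pool.Agent.H54R2.Ul.Defs3

namespace Pool.Agent.H54R2.Ul

open MvPolynomial

noncomputable section

variable {k K : Type} [Field k] [Field K] [Algebra k K]

/-- the colon ideal `((b) : x)` -/
def KR1_col {A : Type} [CommRing A] (b x : A) : Ideal A :=
  Submodule.comap (LinearMap.toSpanSingleton A A x) (Ideal.span {b})

lemma KR1_mem {A : Type} [CommRing A] {b x s : A} : s ∈ KR1_col b x ↔ ∃ y, s * x = b * y := by
  unfold KR1_col
  rw [Submodule.mem_comap, LinearMap.toSpanSingleton_apply, smul_eq_mul, Ideal.mem_span_singleton]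
  rfl

/-- **Task KR1.** -/
theorem KR1 {A K : Type} [CommRing A] [IsDomain A] [IsNoetherianRing A] [IsIntegrallyClosed A]
    [Field K] [Algebra A K] [IsFractionRing A K] (x : K)
    (hx : ∀ q : Ideal A, HtOne q → ∃ a s : A, s ∉ q ∧ x * algebraMap A K s = algebraMap A K a) :
    ∃ a : A, x = algebraMap A K a := by
  by_contra hcon
  have hinj : Function.Injective (algebraMap A K) := IsFractionRing.injective A K
  obtain ⟨a, b, hb, rfl⟩ := IsFractionRing.div_surjective (A := A) x
  have hb0 : b ≠ 0 := nonZeroDivisors.ne_zero hb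
  have hbK : algebraMap A K b ≠ 0 := (map_ne_zero_iff _ hinj).2 hb0
  have key : ∀ c : A, (¬ ∃ y, c = b * y) ↔ ¬ ∃ y, algebraMap A K c / algebraMap A K b = algebraMap A K y := by
    intro c
    apply not_congr
    apply exists_congr
    intro y
    rw [div_eq_iff hbK, ← map_mul, hinj.eq_iff, mul_comm b y]
  have hab : ¬ ∃ y, a = b * y := by
    rw [key]
    exact hcon
  -- maximal colon ideal
  obtain ⟨q, ⟨c, hc, rfl⟩, hmax⟩ := (set_has_maximal_iff_noetherian.2 (inferInstanceAs (IsNoetherian A A)))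
    {I : Ideal A | ∃ c, (¬ ∃ y, c * a = b * y) ∧ KR1_col b (c * a) = I}
    ⟨_, 1, by rwa [one_mul], rfl⟩
  set a' := c * a with ha'
  have hproper : KR1_col b a' ≠ ⊤ := by
    intro h
    have h1 : (1 : A) ∈ KR1_col b a' := by rw [h]; trivial
    rw [KR1_mem, one_mul] at h1
    exact hc h1
  have hprime : (KR1_col b a').IsPrime := by
    refine ⟨hproper, ?_⟩
    intro s s' hss
    by_contra hno
    push Not at hno
    obtain ⟨hs, hs'⟩ := hno
    refine hmax (KR1_col b (s' * c * a)) ⟨s' * c, ?_, rfl⟩ ?_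
    · rw [KR1_mem] at hs'
      rwa [mul_assoc]
    · rw [lt_iff_le_and_ne]
      constructor
      · intro u hu
        rw [KR1_mem] at hu ⊢
        obtain ⟨y, hy⟩ := hu
        refine ⟨s' * y, ?_⟩
        rw [ha'] at hy
        linear_combination s' * hy
      · intro heq
        apply hs
        rw [heq, KR1_mem]
        rw [KR1_mem] at hss
        obtain ⟨y, hy⟩ := hss
        exact ⟨y, by rw [← hy, ha']; ring⟩
  set q := KR1_col b a' with hq
  have hbq : b ∈ q := by
    rw [hq, KR1_mem]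
    exact ⟨a', rfl⟩
  have hqbot : q ≠ ⊥ := by
    intro h
    rw [h, Ideal.mem_bot] at hbq
    exact hb0 hbq
  -- multiplication by x'
  set x' : K := algebraMap A K a' / algebraMap A K b with hx'
  have hxA : ¬ ∃ y, x' = algebraMap A K y := (key a').1 hc
  have hq1 : ∀ s : A, s ∈ q ↔ ∃ y : A, algebraMap A K s * x' = algebraMap A K y := by
    intro s
    rw [hq, KR1_mem]
    apply exists_congr
    intro y
    rw [hx', ← mul_div_assoc, div_eq_iff hbK, ← map_mul, ← map_mul, hinj.eq_iff, mul_comm b y]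
  -- q x' is not contained in q
  have hex : ∃ π ∈ q, ∃ u : A, u ∉ q ∧ algebraMap A K π * x' = algebraMap A K u := by
    by_contra hno
    push Not at hno
    have hst : ∀ n ∈ Submodule.map (Algebra.linearMap A K) q, x' • n ∈ Submodule.map (Algebra.linearMap A K) q := by
      rintro _ ⟨s, hs, rfl⟩
      obtain ⟨y, hy⟩ := (hq1 s).1 hs
      refine ⟨y, ?_, ?_⟩
      · by_contra hyq
        exact hno s hs y hyq hy
      · rw [Algebra.linearMap_apply, Algebra.linearMap_apply, smul_eq_mul, mul_comm, hy]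
    have hint := isIntegral_of_smul_mem_submodule (Submodule.map (Algebra.linearMap A K) q) ?_ ?_ x' hst
    · obtain ⟨y, hy⟩ := IsIntegrallyClosed.algebraMap_eq_of_integral hint
      exact hxA ⟨y, hy.symm⟩
    · rw [Submodule.ne_bot_iff]
      exact ⟨_, ⟨b, hbq, rfl⟩, hbK⟩
    · exact Submodule.FG.map _ (IsNoetherian.noetherian _)
  obtain ⟨π, hπ, u, hu, hπu⟩ := hex
  have hht : HtOne q := by
    refine ⟨hprime, hqbot, π, hπ, fun a'' ha'' => ?_⟩
    obtain ⟨b'', hb''⟩ := (hq1 a'').1 ha''
    refine ⟨u, hu, b'', ?_⟩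
    apply hinj
    rw [map_mul, map_mul, ← hπu, ← hb'']
    ring
  obtain ⟨a1, s, hs, hsx⟩ := hx q hht
  apply hs
  rw [hq1]
  refine ⟨c * a1, ?_⟩
  rw [hx', ha', map_mul, map_mul, ← hsx]
  ring

end

end Pool.Agent.H54R2.Ul
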