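import Pool.Agent.H54R2.Ul.Defs3
import Pool.Agent.H54R2.Ul.St.KR3

namespace Pool.Agent.H54R2.Ul

open MvPolynomial

noncomputable section

variable {k K : Type} [Field k] [Field K] [Algebra k K]

/-- **Task KR2.** -/
theorem KR2 {A : Type} [CommRing A] [IsDomain A] [IsNoetherianRing A] (a : A) (ha : a ≠ 0) :
    {q : Ideal A | HtOne q ∧ a ∈ q}.Finite := by
  refine (Ideal.finite_minimalPrimes_of_isNoetherianRing A (Ideal.span {a})).subset ?_
  rintro q ⟨hq, haq⟩
  refine ⟨⟨hq.1, (Ideal.span_singleton_le_iff_mem _).2 haq⟩, ?_⟩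
  rintro q' ⟨hq', haq'⟩ hle
  rw [Ideal.span_singleton_le_iff_mem] at haq'
  have := hq.1
  have := KR3 q hq
  have hinj : Function.Injective (algebraMap A (Localization.AtPrime q)) :=
    IsLocalization.injective (Localization.AtPrime q) q.primeCompl_le_nonZeroDivisors
  have hd : Disjoint (q.primeCompl : Set A) q' := by
    rw [Set.disjoint_left]
    intro x hx hx'
    exact hx (hle hx')
  have hP : (q'.map (algebraMap A (Localization.AtPrime q))).IsPrime :=
    IsLocalization.isPrime_of_isPrime_disjoint q.primeCompl _ q' hq' hd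
  have hb : q'.map (algebraMap A (Localization.AtPrime q)) ≠ ⊥ := by
    rw [Ne, Ideal.map_eq_bot_iff_of_injective hinj]
    rintro rfl
    exact ha haq'
  have hm := IsLocalRing.eq_maximalIdeal (hP.isMaximal hb)
  rw [← Localization.AtPrime.map_eq_maximalIdeal] at hm
  have h1 := IsLocalization.under_map_of_isPrime_disjoint q.primeCompl (Localization.AtPrime q) hq' hd
  have h2 := IsLocalization.under_map_of_isPrime_disjoint q.primeCompl (Localization.AtPrime q) hq.1
    (by rw [Set.disjoint_left]; intro x hx hx'; exact hx hx')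
  rw [hm, h2] at h1
  exact h1.le

end

end Pool.Agent.H54R2.Ul
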