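import Pool.Agent.H54R2.Ul.Defs3

namespace Pool.Agent.H54R2.Ul

open MvPolynomial

noncomputable section

variable {k K : Type} [Field k] [Field K] [Algebra k K]

/-- **Task KR3.** -/
theorem KR3 {A : Type} [CommRing A] [IsDomain A] [IsNoetherianRing A] (q : Ideal A)
    (hq : HtOne q) [q.IsPrime] : IsDiscreteValuationRing (Localization.AtPrime q) := by
  obtain ⟨-, hbot, π, hπ, hu⟩ := hq
  have hinj : Function.Injective (algebraMap A (Localization.AtPrime q)) :=
    IsLocalization.injective (Localization.AtPrime q) q.primeCompl_le_nonZeroDivisors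
  have hmax : IsLocalRing.maximalIdeal (Localization.AtPrime q) =
      Ideal.span {algebraMap A (Localization.AtPrime q) π} := by
    rw [← Localization.AtPrime.map_eq_maximalIdeal]
    apply le_antisymm
    · rw [Ideal.map_le_iff_le_comap]
      intro a ha
      rw [Ideal.mem_comap]
      obtain ⟨s, hs, b, hb⟩ := hu a ha
      have hsu : IsUnit (algebraMap A (Localization.AtPrime q) s) :=
        IsLocalization.map_units (M := q.primeCompl) (Localization.AtPrime q) ⟨s, hs⟩
      rw [← Ideal.unit_mul_mem_iff_mem _ hsu, ← map_mul, hb, map_mul]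
      exact Ideal.mul_mem_left _ _ (Ideal.mem_span_singleton_self _)
    · rw [Ideal.span_singleton_le_iff_mem]
      exact Ideal.mem_map_of_mem _ hπ
  have hfield : ¬ IsField (Localization.AtPrime q) := by
    rw [IsLocalRing.isField_iff_maximalIdeal_eq, ← Localization.AtPrime.map_eq_maximalIdeal,
      Ideal.map_eq_bot_iff_of_injective hinj]
    exact hbot
  have hp : (IsLocalRing.maximalIdeal (Localization.AtPrime q)).IsPrincipal := ⟨⟨_, hmax⟩⟩
  exact ((IsDiscreteValuationRing.TFAE (Localization.AtPrime q) hfield).out 0 4).2 hp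

end

end Pool.Agent.H54R2.Ul
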