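import Pool.Agent.H54R2.Ul.Defs3
import Pool.Agent.H54R2.Ul.St.KR1
import Pool.Agent.H54R2.Ul.St.LOC
import Pool.Agent.H54R2.Ul.St.FRACP
import Pool.Agent.H54R2.Ul.St.INL
import Pool.Agent.H54R2.Ul.St.RHO

namespace Pool.Agent.H54R2.Ul

open MvPolynomial

noncomputable section

variable {k K : Type} [Field k] [Field K] [Algebra k K]

lemma L1_det (G : Fil k K) (q : Ideal G.Rg) (hq : q.IsPrime) {ι : Type} [Fintype ι]
    [DecidableEq ι] (M : Matrix ι ι (FractionRing (Polynomial K)))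
    (hM : ∀ i j, InLoc G q (M i j)) : InLoc G q M.det := by
  rw [Matrix.det_apply]
  apply InLoc_sum G q hq
  intro σ _
  have h := InLoc_prod G q hq Finset.univ (fun i => M (σ i) i) (fun i _ => hM _ _)
  rcases Int.units_eq_one_or (Equiv.Perm.sign σ) with h1 | h1
  · rw [h1, one_smul]
    exact h
  · rw [h1, Units.neg_smul, one_smul]
    exact InLoc_neg G q hq h

/-- **Task L1.** Determinants of sections are sections of the determinant. -/
theorem L1 (G : Geo k K) {N r : ℕ} (c : Fin N → Fin r → K) (hc : IsDatum G.toFil c)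
    (q : ℕ) (hq : 0 < q) (hadd : ∀ x y : K, (x + y) ^ q = x ^ q + y ^ q)
    (t : Fin r ⊕ Fin r → ℤ) (u : Fin r ⊕ Fin r → Fin r ⊕ Fin r → K)
    (hu : ∀ i, u i ∈ UU G.toFil q c (t i)) :
    Matrix.det (Matrix.of u) ∈ G.R (∑ i, t i + 8 * q * r) := by
  have hfr := FRACP G.toFil G.frac
  have hno := G.noeth
  have hic := G.normal
  have key := KR1 (A := G.toFil.Rg) (K := FractionRing (Polynomial K))
    (xT (Matrix.det (Matrix.of u)) (∑ i, t i + 8 * q * r)) ?_
  · obtain ⟨a, ha⟩ := key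
    exact mem_R_of_xT G.toFil _ _ a ha
  · intro qq hqq
    obtain ⟨D⟩ := LOC G c hc qq hqq
    have h := L1_det G.toFil qq hqq.1 (Matrix.of fun i => D.rho q (t i) (u i))
      (fun i j => RHO1 G c qq hqq D q hq hadd (t i) (u i) (hu i) j)
    rw [RHO2 G c qq D q hq hadd t u] at h
    exact h

end

end Pool.Agent.H54R2.Ul
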