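import Pool.Agent.H54R2.Ul.Defs3
import Pool.Agent.H54R2.Ul.St.KR3
import Pool.Agent.H54R2.Ul.St.FRACP
import Pool.Agent.H54R2.Ul.St.INL

namespace Pool.Agent.H54R2.Ul

open MvPolynomial

noncomputable section

variable {k K : Type} [Field k] [Field K] [Algebra k K]

/-- A full lattice over a principal ideal domain has a basis. -/
lemma LOC_free {O L : Type} [CommRing O] [IsDomain O] [IsPrincipalIdealRing O] [Field L]
    [Algebra O L] [IsFractionRing O L] {N r : ℕ} (v : Fin N → Fin r → L)
    (hspan : Submodule.span L (Set.range v) = ⊤) :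
    ∃ B : Module.Basis (Fin r) L (Fin r → L),
      (∀ i j, ∃ o : O, B.repr (v i) j = algebraMap O L o) ∧
      (∀ j, ∃ g : Fin N → O, B j = ∑ i, g i • v i) := by
  classical
  let Λ : Submodule O (Fin r → L) := Submodule.span O (Set.range v)
  have hfin : Module.Finite O Λ := Module.Finite.span_of_finite O (Set.finite_range v)
  obtain ⟨n, b⟩ := (Module.basisOfFiniteTypeTorsionFree' : Σ n, Module.Basis (Fin n) O Λ)
  let w : Fin n → Fin r → L := fun i => (b i : Fin r → L)
  have hwO : LinearIndependent O w :=
    b.linearIndependent.map' Λ.subtype (Submodule.ker_subtype Λ)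
  have hwL : LinearIndependent L w := (LinearIndependent.iff_fractionRing O L).1 hwO
  have hcomb : ∀ x : Λ, (x : Fin r → L) = ∑ i, algebraMap O L (b.repr x i) • w i := by
    intro x
    conv_lhs => rw [← b.sum_repr x]
    rw [AddSubmonoidClass.coe_finsetSum]
    apply Finset.sum_congr rfl
    intro i _
    rw [Submodule.coe_smul, algebraMap_smul]
  have hwspan : ⊤ ≤ Submodule.span L (Set.range w) := by
    rw [← hspan, Submodule.span_le]
    rintro _ ⟨i, rfl⟩
    have hi := hcomb ⟨v i, Submodule.subset_span ⟨i, rfl⟩⟩
    change v i = _ at hi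
    rw [SetLike.mem_coe, hi]
    exact Submodule.sum_mem _ fun j _ => Submodule.smul_mem _ _ (Submodule.subset_span ⟨j, rfl⟩)
  let B0 : Module.Basis (Fin n) L (Fin r → L) := Module.Basis.mk hwL hwspan
  have hn : n = r := by
    have h1 := Module.finrank_eq_card_basis B0
    rw [Module.finrank_fin_fun, Fintype.card_fin] at h1
    exact h1.symm
  subst hn
  refine ⟨B0, ?_, ?_⟩
  · intro i j
    refine ⟨b.repr ⟨v i, Submodule.subset_span ⟨i, rfl⟩⟩ j, ?_⟩
    have hi := hcomb ⟨v i, Submodule.subset_span ⟨i, rfl⟩⟩
    change v i = _ at hi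
    have hB : ∀ m, B0 m = w m := fun m => by rw [Module.Basis.mk_apply]
    have h2 : v i = ∑ m, algebraMap O L (b.repr ⟨v i, Submodule.subset_span ⟨i, rfl⟩⟩ m) • B0 m := by
      conv_lhs => rw [hi]
      exact Finset.sum_congr rfl fun m _ => by rw [hB]
    conv_lhs => rw [h2]
    rw [Module.Basis.repr_sum_self]
  · intro j
    have hj : (b j : Fin n → L) ∈ Λ := (b j).2
    obtain ⟨g, hg⟩ := (Submodule.mem_span_range_iff_exists_fun O).1 hj
    exact ⟨g, by rw [Module.Basis.mk_apply]; exact hg.symm⟩

/-- **Task LOC.** Local structure of the lattice spanned by an Ulrich datum at a height-one prime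
of the homogeneous coordinate ring. -/
theorem LOC (G : Geo k K) {N r : ℕ} (c : Fin N → Fin r → K) (hc : IsDatum G.toFil c)
    (q : Ideal G.toFil.Rg) (hq : HtOne q) : Nonempty (LocD G.toFil c q) := by
  classical
  have hfr : IsFractionRing G.toFil.Rg (FractionRing (Polynomial K)) := FRACP G.toFil G.frac
  have hno : IsNoetherianRing G.toFil.Rg := G.noeth
  have hqp : q.IsPrime := hq.1
  have hdvr : IsDiscreteValuationRing (Localization.AtPrime q) := KR3 q hq
  have hmap : ∀ a : G.toFil.Rg, algebraMap G.toFil.Rg (FractionRing (Polynomial K)) a =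
      algebraMap (Polynomial K) (FractionRing (Polynomial K)) a.1 := fun a => rfl
  have hinjR : Function.Injective (algebraMap G.toFil.Rg (FractionRing (Polynomial K))) :=
    IsFractionRing.injective _ _
  have hinjP : Function.Injective (algebraMap (Polynomial K) (FractionRing (Polynomial K))) :=
    IsFractionRing.injective _ _
  -- the local ring as a subalgebra of the fraction field
  let O := Localization.subalgebra.ofField (FractionRing (Polynomial K)) q.primeCompl
    q.primeCompl_le_nonZeroDivisors
  have hO : ∀ x, x ∈ O ↔ InLoc G.toFil q x := by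
    intro x
    constructor
    · rintro ⟨a, s, hs, rfl⟩
      refine ⟨a, s, hs, ?_⟩
      have hs0 : algebraMap G.toFil.Rg (FractionRing (Polynomial K)) s ≠ 0 := by
        rw [Ne, map_eq_zero_iff _ hinjR]
        rintro rfl
        exact hs q.zero_mem
      rw [← hmap s, ← hmap a, mul_assoc, inv_mul_cancel₀ hs0, mul_one]
    · rintro ⟨a, s, hs, h⟩
      refine ⟨a, s, hs, ?_⟩
      have hs0 : algebraMap G.toFil.Rg (FractionRing (Polynomial K)) s ≠ 0 := by
        rw [Ne, map_eq_zero_iff _ hinjR]
        rintro rfl
        exact hs q.zero_mem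
      rw [← hmap s, ← hmap a] at h
      rw [← h, mul_assoc, mul_inv_cancel₀ hs0, mul_one]
  have hpid : IsPrincipalIdealRing O := by
    have e : Localization.AtPrime q ≃ₐ[G.toFil.Rg] O :=
      IsLocalization.algEquiv q.primeCompl _ _
    have hp : IsPrincipalIdealRing (Localization.AtPrime q) := hdvr.toIsPrincipalIdealRing
    exact IsPrincipalIdealRing.of_surjective e.toRingEquiv.toRingHom e.surjective
  let v : Fin N → Fin r → FractionRing (Polynomial K) := fun i l => xT (c i l) 0
  -- the vectors c i span K^r over K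
  have hspK : Submodule.span K (Set.range c) = ⊤ := by
    rw [eq_top_iff]
    rintro x -
    have hx : x ∈ Submodule.span (FF k G.Y1 G.Y2) (Set.range c) := by rw [hc.span]; trivial
    exact Submodule.span_le_restrictScalars (FF k G.Y1 G.Y2) K (Set.range c) hx
  have hκ : ∀ l : Fin r, ∃ κ : Fin N → K, ∑ i, κ i • c i = Pi.single l 1 := by
    intro l
    have : (Pi.single l 1 : Fin r → K) ∈ Submodule.span K (Set.range c) := by rw [hspK]; trivial
    exact (Submodule.mem_span_range_iff_exists_fun K).1 this
  choose κ hκ using hκ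
  have hxC : ∀ x : K, xT x 0 = algebraMap (Polynomial K) (FractionRing (Polynomial K))
      (Polynomial.C x) := by
    intro x
    unfold xT
    rw [zpow_zero, mul_one]
  have hκ' : ∀ l m : Fin r, ∑ i, xT (κ l i) 0 * v i m =
      (Pi.single l 1 : Fin r → FractionRing (Polynomial K)) m := by
    intro l m
    have h1 := congrFun (hκ l) m
    rw [Finset.sum_apply] at h1
    have h2 : ∑ i, xT (κ l i) 0 * v i m = algebraMap (Polynomial K) (FractionRing (Polynomial K))
        (Polynomial.C (∑ i, κ l i * c i m)) := by
      rw [map_sum, map_sum]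
      apply Finset.sum_congr rfl
      intro i _
      change xT (κ l i) 0 * xT (c i m) 0 = _
      rw [hxC, hxC, ← map_mul, ← map_mul]
    rw [h2]
    simp only [Pi.smul_apply, smul_eq_mul] at h1
    rw [h1]
    by_cases hml : m = l
    · subst hml; simp
    · simp [hml]
  have hspL : Submodule.span (FractionRing (Polynomial K)) (Set.range v) = ⊤ := by
    rw [eq_top_iff]
    rintro x -
    have hx : x = ∑ l, x l • ∑ i, xT (κ l i) 0 • v i := by
      funext m
      rw [Finset.sum_apply]
      have h3 : ∀ l, (x l • ∑ i, xT (κ l i) 0 • v i) m = x l *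
          (Pi.single l 1 : Fin r → FractionRing (Polynomial K)) m := by
        intro l
        rw [Pi.smul_apply, Finset.sum_apply, smul_eq_mul, ← hκ' l m]
        simp only [Pi.smul_apply, smul_eq_mul]
      rw [Finset.sum_congr rfl fun l _ => h3 l]
      rw [Finset.sum_eq_single m]
      · simp
      · intro l _ hl
        rw [Pi.single_eq_of_ne (Ne.symm hl), mul_zero]
      · intro h; exact absurd (Finset.mem_univ _) h
    rw [hx]
    exact Submodule.sum_mem _ fun l _ => Submodule.smul_mem _ _ (Submodule.sum_mem _ fun i _ =>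
      Submodule.smul_mem _ _ (Submodule.subset_span ⟨i, rfl⟩))
  obtain ⟨B, hB1, hB2⟩ := LOC_free (O := O) v hspL
  let e0 := Pi.basisFun (FractionRing (Polynomial K)) (Fin r)
  let Q : Matrix (Fin r) (Fin r) (FractionRing (Polynomial K)) := e0.toMatrix B
  let Q' : Matrix (Fin r) (Fin r) (FractionRing (Polynomial K)) := B.toMatrix e0
  have hQ : ∀ l j, Q l j = B j l := fun l j => by
    change e0.toMatrix B l j = _
    rw [Module.Basis.toMatrix_apply, Pi.basisFun_repr]
  have hQ' : ∀ (x : Fin r → FractionRing (Polynomial K)) j, ∑ l, Q' j l * x l = B.repr x j := by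
    intro x j
    have h := congrFun (Module.Basis.toMatrix_mulVec_repr e0 B x) j
    rw [← h]
    change _ = ∑ l, Q' j l * e0.repr x l
    apply Finset.sum_congr rfl
    intro l _
    rw [Pi.basisFun_repr]
  have hint : ∀ i j, InLoc G.toFil q (∑ l, Q' j l * v i l) := by
    intro i j
    rw [hQ', ← hO]
    obtain ⟨o, ho⟩ := hB1 i j
    rw [ho]
    exact o.2
  refine ⟨⟨Q, Q', Module.Basis.toMatrix_mul_toMatrix_flip e0 B,
    Module.Basis.toMatrix_mul_toMatrix_flip B e0, hint, ?_, ?_⟩⟩
  · intro j
    obtain ⟨g, hg⟩ := hB2 j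
    refine ⟨fun i => (g i : FractionRing (Polynomial K)), fun i => (hO _).1 (g i).2, fun l => ?_⟩
    rw [hQ, hg, Finset.sum_apply]
    rfl
  · intro j
    -- common denominator
    choose a s hs has using fun i => hint i j
    let S : G.toFil.Rg := ∏ i, s i
    have hS : S ∉ q := by
      intro h
      obtain ⟨i, -, hi⟩ := (Ideal.IsPrime.prod_mem_iff (hp := hqp)).1 h
      exact hs i hi
    let a' : Fin N → G.toFil.Rg := fun i => a i * ∏ i' ∈ Finset.univ.erase i, s i'
    have ha' : ∀ i, (∑ l, Q' j l * v i l) *
        algebraMap (Polynomial K) (FractionRing (Polynomial K)) S.1 =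
        algebraMap (Polynomial K) (FractionRing (Polynomial K)) (a' i).1 := by
      intro i
      have hSi : S = s i * ∏ i' ∈ Finset.univ.erase i, s i' :=
        (Finset.mul_prod_erase Finset.univ s (Finset.mem_univ i)).symm
      have h1 := has i
      rw [← hmap, ← hmap] at h1
      rw [← hmap, ← hmap, hSi, map_mul, ← mul_assoc, h1, ← map_mul]
    have hS0 : algebraMap (Polynomial K) (FractionRing (Polynomial K)) S.1 ≠ 0 := by
      rw [Ne, map_eq_zero_iff _ hinjP]
      intro h
      apply hS
      have : S = 0 := Subtype.ext h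
      rw [this]
      exact q.zero_mem
    -- the polynomial vector
    let P : Fin r → Polynomial K := fun l => ∑ i, Polynomial.C (κ l i) * (a' i).1
    have hP : ∀ l, Q' j l * algebraMap (Polynomial K) (FractionRing (Polynomial K)) S.1 =
        algebraMap (Polynomial K) (FractionRing (Polynomial K)) (P l) := by
      intro l
      have h1 : Q' j l = ∑ i, xT (κ l i) 0 * ∑ m, Q' j m * v i m := by
        simp only [Finset.mul_sum]
        rw [Finset.sum_comm]
        have h2 : ∀ m, ∑ i, xT (κ l i) 0 * (Q' j m * v i m) = Q' j m *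
            (Pi.single l 1 : Fin r → FractionRing (Polynomial K)) m := by
          intro m
          rw [← hκ' l m, Finset.mul_sum]
          exact Finset.sum_congr rfl fun i _ => by ring
        rw [Finset.sum_congr rfl fun m _ => h2 m, Finset.sum_eq_single l]
        · simp
        · intro m _ hm
          rw [Pi.single_eq_of_ne hm, mul_zero]
        · intro h; exact absurd (Finset.mem_univ _) h
      rw [h1, Finset.sum_mul, map_sum]
      apply Finset.sum_congr rfl
      intro i _
      rw [mul_assoc, ha' i, hxC, ← map_mul]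
    obtain ⟨n, hn⟩ : ∃ n : ℕ, ∀ l, (P l).natDegree < n := by
      refine ⟨(Finset.univ.sup fun l => (P l).natDegree) + 1, fun l => ?_⟩
      exact Nat.lt_succ_of_le (Finset.le_sup (f := fun l => (P l).natDegree) (Finset.mem_univ l))
    refine ⟨n, fun _ => (algebraMap (Polynomial K) (FractionRing (Polynomial K)) S.1)⁻¹,
      fun t => t.1, fun t l => (P l).coeff t.1, fun _ => ?_, fun t => ?_, fun l => ?_⟩
    · refine ⟨1, S, hS, ?_⟩
      rw [inv_mul_cancel₀ hS0]
      simp
    · intro i
      have h1 : ∑ l, P l * Polynomial.C (c i l) = (a' i).1 := by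
        apply hinjP
        rw [← ha' i, map_sum, Finset.sum_mul]
        apply Finset.sum_congr rfl
        intro l _
        rw [map_mul, ← hP l, ← hxC]
        change _ = Q' j l * xT (c i l) 0 * _
        ring
      have h2 : ∑ l, (P l).coeff t.1 * c i l ^ 1 = ((a' i).1).coeff t.1 := by
        rw [← h1, Polynomial.finsetSum_coeff]
        apply Finset.sum_congr rfl
        intro l _
        rw [Polynomial.coeff_mul_C, pow_one]
      rw [h2]
      exact (a' i).2 t.1
    · have h1 : Q' j l = (algebraMap (Polynomial K) (FractionRing (Polynomial K)) S.1)⁻¹ *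
          algebraMap (Polynomial K) (FractionRing (Polynomial K)) (P l) := by
        rw [← hP l, mul_comm (Q' j l), ← mul_assoc, inv_mul_cancel₀ hS0, one_mul]
      rw [h1]
      conv_lhs => rw [(P l).as_sum_range' n (hn l)]
      rw [map_sum, Finset.mul_sum, Finset.sum_range]
      apply Finset.sum_congr rfl
      intro t _
      congr 1
      unfold xT
      rw [zpow_natCast, ← map_pow, ← map_mul, Polynomial.C_mul_X_pow_eq_monomial]

end

end Pool.Agent.H54R2.Ul
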