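import Pool.Agent.H54R2.Ul.Defs3
import Pool.Agent.H54R2.Ul.St.T1A

namespace Pool.Agent.H54R2.Ul

open MvPolynomial

noncomputable section

/-! ### The spaces `Pl k t` -/

section Pl

variable {k : Type} [Field k]

lemma T1_mem_Pl {t : ℤ} {f : MvPolynomial (Fin 2) k} :
    f ∈ Pl k t ↔ ∀ m ∈ f.support, (m 0 : ℤ) + m 1 ≤ t := Iff.rfl

lemma T1_Pl_mono {s t : ℤ} (h : s ≤ t) : Pl k s ≤ Pl k t :=
  fun _ hf m hm => (hf m hm).trans h

lemma T1_Pl_mul {s t : ℤ} {f g : MvPolynomial (Fin 2) k} (hf : f ∈ Pl k s) (hg : g ∈ Pl k t) :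
    f * g ∈ Pl k (s + t) := by
  classical
  intro m hm
  have h := MvPolynomial.support_mul f g hm
  obtain ⟨a, ha, b, hb, rfl⟩ := Finset.mem_add.1 h
  have h1 := hf a ha
  have h2 := hg b hb
  simp only [Finsupp.add_apply]
  push_cast
  linarith

lemma T1_exists_Pl (f : MvPolynomial (Fin 2) k) : ∃ t : ℤ, f ∈ Pl k t := by
  refine ⟨∑ m ∈ f.support, ((m 0 : ℤ) + m 1), fun m hm => ?_⟩
  exact Finset.single_le_sum (f := fun m : Fin 2 →₀ ℕ => ((m 0 : ℤ) + m 1))
    (fun i _ => by positivity) hm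

lemma T1_exists_Pl_fam {m : ℕ} (a : Fin m → ℤ) (f : Fin m → MvPolynomial (Fin 2) k) :
    ∃ t : ℤ, ∀ i, f i ∈ Pl k (t - a i) := by
  choose s hs using fun i => T1_exists_Pl (f i)
  obtain ⟨t, ht⟩ := (Set.finite_range (fun i => s i + a i)).bddAbove
  refine ⟨t, fun i => T1_Pl_mono ?_ (hs i)⟩
  have : s i + a i ≤ t := ht (Set.mem_range_self i)
  linarith

/-- the index set of the monomials -/
def T1_idx (t : ℤ) : Set (Fin 2 →₀ ℕ) := {m | (m 0 : ℤ) + m 1 ≤ t}

lemma T1_Pl_eq (t : ℤ) : Pl k t = restrictSupport k (T1_idx t) := by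
  ext f
  rw [mem_restrictSupport_iff]
  exact Iff.rfl

def T1_equiv (N : ℕ) : T1_idx (N : ℤ) ≃ Σ i : Fin (N + 1), Fin (N + 1 - (i : ℕ)) where
  toFun m := ⟨⟨m.1 0, by have := m.2; simp only [T1_idx, Set.mem_ofPred_eq] at this; omega⟩,
    ⟨m.1 1, by have := m.2; simp only [T1_idx, Set.mem_ofPred_eq] at this; simp only; omega⟩⟩
  invFun p := ⟨Finsupp.equivFunOnFinite.symm ![(p.1 : ℕ), (p.2 : ℕ)], by
    have h1 := p.1.2
    have h2 := p.2.2
    simp only [T1_idx, Set.mem_ofPred_eq, Finsupp.equivFunOnFinite_symm_apply_apply,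
      Matrix.cons_val_zero, Matrix.cons_val_one]
    omega⟩
  left_inv m := by
    apply Subtype.ext
    ext i
    fin_cases i <;> rfl
  right_inv p := by
    rfl

lemma T1_count (N : ℕ) : 2 * ∑ i ∈ Finset.range (N + 1), (N + 1 - i) = (N + 1) * (N + 2) := by
  induction N with
  | zero => simp
  | succ N ih =>
      rw [Finset.sum_range_succ']
      have : ∀ i ∈ Finset.range (N + 1), N + 1 + 1 - (i + 1) = N + 1 - i := by
        intro i _
        omega
      rw [Finset.sum_congr rfl this, mul_add, ih, Nat.sub_zero]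
      ring

lemma T1_card (N : ℕ) : 2 * Nat.card (T1_idx (N : ℤ)) = (N + 1) * (N + 2) := by
  rw [Nat.card_congr (T1_equiv N), Nat.card_sigma]
  simp only [Nat.card_eq_fintype_card, Fintype.card_fin]
  rw [Fin.sum_univ_eq_sum_range (fun i => N + 1 - i) (N + 1)]
  exact T1_count N

lemma T1_idx_neg {t : ℤ} (ht : t < 0) : T1_idx t = ∅ := by
  ext m
  simp only [T1_idx, Set.mem_ofPred_eq, Set.mem_empty_iff_false, iff_false]
  have h1 : (0 : ℤ) ≤ m 0 := by positivity
  have h2 : (0 : ℤ) ≤ m 1 := by positivity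
  omega

instance T1_idx_fin (t : ℤ) : Finite (T1_idx t) := by
  by_cases ht : t < 0
  · rw [T1_idx_neg ht]
    infer_instance
  · obtain ⟨N, rfl⟩ := Int.eq_ofNat_of_zero_le (not_lt.1 ht)
    exact Finite.of_equiv _ (T1_equiv N).symm

instance T1_Pl_fin (t : ℤ) : Module.Finite k (Pl k t) := by
  rw [T1_Pl_eq]
  exact Module.Finite.of_basis (basisRestrictSupport k (T1_idx t))

lemma T1_finrank (t : ℤ) : Module.finrank k (Pl k t) = Nat.card (T1_idx t) := by
  rw [T1_Pl_eq]
  exact Module.finrank_eq_nat_card_basis (basisRestrictSupport k (T1_idx t))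

lemma T1_finrank_neg {t : ℤ} (ht : t < 0) : Module.finrank k (Pl k t) = 0 := by
  rw [T1_finrank, T1_idx_neg ht]
  simp

/-- `c(u) = d(u) + d(-u-3)` -/
lemma T1_euler (u : ℤ) : ((u : ℚ) + 2) * ((u : ℚ) + 1) / 2 =
    Module.finrank k (Pl k u) + Module.finrank k (Pl k (-u - 3)) := by
  have key : ∀ v : ℤ, 0 ≤ v → (Module.finrank k (Pl k v) : ℚ) = ((v : ℚ) + 2) * ((v : ℚ) + 1) / 2 := by
    intro v hv
    obtain ⟨N, rfl⟩ := Int.eq_ofNat_of_zero_le hv
    rw [T1_finrank]
    have h := T1_card N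
    have h' : (2 : ℚ) * Nat.card (T1_idx (N : ℤ)) = (N + 1) * (N + 2) := by exact_mod_cast h
    push_cast
    linarith
  by_cases h0 : 0 ≤ u
  · rw [key u h0, T1_finrank_neg (by omega : -u - 3 < 0)]
    push_cast; ring
  · rw [T1_finrank_neg (by omega : u < 0)]
    by_cases h3 : u ≤ -3
    · rw [key (-u - 3) (by omega)]
      push_cast; ring
    · rw [T1_finrank_neg (by omega : -u - 3 < 0)]
      have : u = -1 ∨ u = -2 := by omega
      rcases this with rfl | rfl <;> norm_num

end Pl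

section core

variable {k E : Type} [Field k] [AddCommGroup E] [Module k E]
    [Module (MvPolynomial (Fin 2) k) E] [IsScalarTower k (MvPolynomial (Fin 2) k) E]

/-- the `k`-linear map `f ↦ ∑ f i • u i` -/
def T1_al {m : ℕ} (u : Fin m → E) : (Fin m → MvPolynomial (Fin 2) k) →ₗ[k] E where
  toFun f := ∑ i, f i • u i
  map_add' f g := by simp [add_smul, Finset.sum_add_distrib]
  map_smul' c f := by simp [Finset.smul_sum]

/-- the `k`-linear map `f ↦ ∑ f i * φ i` -/
def T1_th {m : ℕ} (φ : Fin m → MvPolynomial (Fin 2) k) :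
    (Fin m → MvPolynomial (Fin 2) k) →ₗ[k] MvPolynomial (Fin 2) k where
  toFun f := ∑ i, f i * φ i
  map_add' f g := by simp [add_mul, Finset.sum_add_distrib]
  map_smul' c f := by simp [Finset.smul_sum]

/-- the space of solutions -/
def T1_H {m n : ℕ} (a : Fin m → ℤ) (g : Fin n → Fin m → MvPolynomial (Fin 2) k) (t : ℤ) :
    Submodule k (Fin m → MvPolynomial (Fin 2) k) where
  carrier := {φ | (∀ i, φ i ∈ Pl k (a i - t - 3)) ∧ ∀ j, ∑ i, g j i * φ i = 0}
  add_mem' := by
    rintro φ ψ ⟨h1, h2⟩ ⟨h3, h4⟩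
    refine ⟨fun i => Submodule.add_mem _ (h1 i) (h3 i), fun j => ?_⟩
    simp only [Pi.add_apply, mul_add, Finset.sum_add_distrib, h2 j, h4 j, add_zero]
  zero_mem' := ⟨fun i => Submodule.zero_mem _, fun j => by simp⟩
  smul_mem' := by
    rintro c φ ⟨h1, h2⟩
    refine ⟨fun i => Submodule.smul_mem _ c (h1 i), fun j => ?_⟩
    have : ∑ i, g j i * (c • φ) i = c • ∑ i, g j i * φ i := by
      rw [Finset.smul_sum]
      refine Finset.sum_congr rfl fun i _ => ?_
      simp
    rw [this, h2 j, smul_zero]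

/-- `T1_H` as the kernel of a linear map between the spaces of polynomials -/
def T1_gam {m n : ℕ} (a : Fin m → ℤ) (b : Fin n → ℤ) (g : Fin n → Fin m → MvPolynomial (Fin 2) k)
    (hg : ∀ j i, g j i ∈ Pl k (b j - a i)) (t : ℤ) :
    (∀ i, Pl k (a i - t - 3)) →ₗ[k] (∀ j, Pl k (b j - t - 3)) where
  toFun φ := fun j => ⟨∑ i, g j i * (φ i).1, Submodule.sum_mem _ fun i _ => by
    have := T1_Pl_mul (hg j i) (φ i).2
    have e : b j - a i + (a i - t - 3) = b j - t - 3 := by ring
    rwa [e] at this⟩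
  map_add' φ ψ := by
    funext j
    apply Subtype.ext
    simp [mul_add, Finset.sum_add_distrib]
  map_smul' c φ := by
    funext j
    apply Subtype.ext
    simp [Finset.smul_sum]

lemma T1_H_fin {m n : ℕ} (a : Fin m → ℤ) (b : Fin n → ℤ)
    (g : Fin n → Fin m → MvPolynomial (Fin 2) k)
    (hg : ∀ j i, g j i ∈ Pl k (b j - a i)) (t : ℤ) :
    Module.Finite k (T1_H a g t) ∧
    (∑ i, Module.finrank k (Pl k (a i - t - 3))) ≤
      Module.finrank k (T1_H a g t) + ∑ j, Module.finrank k (Pl k (b j - t - 3)) := by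
  let e : LinearMap.ker (T1_gam a b g hg t) ≃ₗ[k] T1_H a g t :=
    { toFun := fun φ => ⟨fun i => (φ.1 i).1, fun i => (φ.1 i).2, fun j => by
        have := φ.2
        rw [LinearMap.mem_ker] at this
        exact congrArg Subtype.val (congrFun this j)⟩
      map_add' := fun φ ψ => rfl
      map_smul' := fun c φ => rfl
      invFun := fun φ => ⟨fun i => ⟨φ.1 i, φ.2.1 i⟩, by
        rw [LinearMap.mem_ker]
        funext j
        exact Subtype.ext (φ.2.2 j)⟩
      left_inv := fun φ => rfl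
      right_inv := fun φ => rfl }
  have h1 := LinearMap.finrank_range_add_finrank_ker (T1_gam a b g hg t)
  have h2 : Module.finrank k (∀ i, Pl k (a i - t - 3)) = ∑ i, Module.finrank k (Pl k (a i - t - 3)) :=
    Module.finrank_pi_fintype k
  have h3 : Module.finrank k (∀ j, Pl k (b j - t - 3)) = ∑ j, Module.finrank k (Pl k (b j - t - 3)) :=
    Module.finrank_pi_fintype k
  have h4 := Submodule.finrank_le (LinearMap.range (T1_gam a b g hg t))
  refine ⟨Module.Finite.equiv e, ?_⟩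
  rw [e.finrank_eq] at h1
  omega

/-- dimension count for the resolution -/
lemma T1_dim {m n : ℕ} (U : ℤ → Submodule k E) (a : Fin m → ℤ) (b : Fin n → ℤ) (u : Fin m → E)
    (g : Fin n → Fin m → MvPolynomial (Fin 2) k)
    (hg : ∀ j i, g j i ∈ Pl k (b j - a i))
    (hU : ∀ (t : ℤ) (x : E), x ∈ U t ↔ ∃ f : Fin m → MvPolynomial (Fin 2) k,
        (∀ i, f i ∈ Pl k (t - a i)) ∧ x = ∑ i, f i • u i)
    (hker : ∀ (t : ℤ) (f : Fin m → MvPolynomial (Fin 2) k), (∀ i, f i ∈ Pl k (t - a i)) →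
        ∑ i, f i • u i = 0 → ∃ h : Fin n → MvPolynomial (Fin 2) k,
          (∀ j, h j ∈ Pl k (t - b j)) ∧ f = ∑ j, h j • g j)
    (hrel : ∀ j, ∑ i, g j i • u i = 0)
    (hinj : ∀ h : Fin n → MvPolynomial (Fin 2) k, ∑ j, h j • g j = 0 → h = 0) (t : ℤ) :
    Module.finrank k (U t) + ∑ j, Module.finrank k (Pl k (t - b j)) =
      ∑ i, Module.finrank k (Pl k (t - a i)) := by
  let α : (∀ i, Pl k (t - a i)) →ₗ[k] E :=
    { toFun := fun f => ∑ i, (f i).1 • u i
      map_add' := fun f g => by simp [add_smul, Finset.sum_add_distrib]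
      map_smul' := fun c f => by simp [Finset.smul_sum] }
  have hrange : LinearMap.range α = U t := by
    ext x
    rw [LinearMap.mem_range, hU]
    constructor
    · rintro ⟨f, rfl⟩
      exact ⟨fun i => (f i).1, fun i => (f i).2, rfl⟩
    · rintro ⟨f, hf, rfl⟩
      exact ⟨fun i => ⟨f i, hf i⟩, rfl⟩
  let β : (∀ j, Pl k (t - b j)) →ₗ[k] (∀ i, Pl k (t - a i)) :=
    { toFun := fun h => fun i => ⟨∑ j, (h j).1 * g j i, Submodule.sum_mem _ fun j _ => by
        have := T1_Pl_mul (h j).2 (hg j i)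
        have e : t - b j + (b j - a i) = t - a i := by ring
        rwa [e] at this⟩
      map_add' := fun h h' => by
        funext i
        apply Subtype.ext
        simp [add_mul, Finset.sum_add_distrib]
      map_smul' := fun c h => by
        funext i
        apply Subtype.ext
        simp [Finset.smul_sum] }
  have hβi : Function.Injective β := by
    rw [← LinearMap.ker_eq_bot, LinearMap.ker_eq_bot']
    intro h hh
    have h1 : (fun j => (h j).1) = 0 := by
      apply hinj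
      funext i
      have := congrArg Subtype.val (congrFun hh i)
      simpa [β, Finset.sum_apply] using this
    funext j
    exact Subtype.ext (congrFun h1 j)
  have hβr : LinearMap.range β = LinearMap.ker α := by
    ext f
    rw [LinearMap.mem_range, LinearMap.mem_ker]
    constructor
    · rintro ⟨h, rfl⟩
      show ∑ i, (∑ j, (h j).1 * g j i) • u i = 0
      simp only [Finset.sum_smul, mul_smul]
      rw [Finset.sum_comm]
      refine Finset.sum_eq_zero fun j _ => ?_
      rw [← Finset.smul_sum, hrel j, smul_zero]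
    · intro hf
      obtain ⟨h, hh, he⟩ := hker t (fun i => (f i).1) (fun i => (f i).2) hf
      refine ⟨fun j => ⟨h j, hh j⟩, ?_⟩
      funext i
      apply Subtype.ext
      have := congrFun he i
      simp only [Finset.sum_apply, Pi.smul_apply, smul_eq_mul] at this
      exact this.symm
  have h1 := LinearMap.finrank_range_add_finrank_ker α
  rw [hrange, ← hβr, LinearMap.finrank_range_of_inj hβi] at h1
  rw [Module.finrank_pi_fintype, Module.finrank_pi_fintype] at h1
  exact h1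

theorem T1_core {m n : ℕ} (U : ℤ → Submodule k E) (hmono : ∀ t, U t ≤ U (t + 1))
    (a : Fin m → ℤ) (b : Fin n → ℤ) (u : Fin m → E)
    (g : Fin n → Fin m → MvPolynomial (Fin 2) k)
    (hg : ∀ j i, g j i ∈ Pl k (b j - a i))
    (hU : ∀ (t : ℤ) (x : E), x ∈ U t ↔ ∃ f : Fin m → MvPolynomial (Fin 2) k,
        (∀ i, f i ∈ Pl k (t - a i)) ∧ x = ∑ i, f i • u i)
    (hker : ∀ (t : ℤ) (f : Fin m → MvPolynomial (Fin 2) k), (∀ i, f i ∈ Pl k (t - a i)) →
        ∑ i, f i • u i = 0 → ∃ h : Fin n → MvPolynomial (Fin 2) k,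
          (∀ j, h j ∈ Pl k (t - b j)) ∧ f = ∑ j, h j • g j)
    (hrel : ∀ j, ∑ i, g j i • u i = 0)
    (hinj : ∀ h : Fin n → MvPolynomial (Fin 2) k, ∑ j, h j • g j = 0 → h = 0) :
    ∃ P : Polynomial ℚ,
      (∃ t0 : ℤ, ∀ t ≥ t0, (Module.finrank k (U t) : ℚ) = P.eval (t : ℚ)) ∧
      ∀ t : ℤ, ∃ (s : ℕ) (φ : Fin s → (↥(⨆ t, U t) →ₗ[k] MvPolynomial (Fin 2) k)),
        LinearIndependent k φ ∧
        (∀ i (r : MvPolynomial (Fin 2) k) (v w : ↥(⨆ t, U t)), (w : E) = r • (v : E) →
          φ i w = r * φ i v) ∧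
        (∀ i (u : ℤ) (v : ↥(⨆ t, U t)), (v : E) ∈ U u → ∀ m ∈ (φ i v).support,
            (m 0 : ℤ) + m 1 ≤ u - t - 3) ∧
        P.eval (t : ℚ) ≤ Module.finrank k (U t) + s := by
  classical
  have hdim := T1_dim U a b u g hg hU hker hrel hinj
  let P : Polynomial ℚ :=
    ∑ i, Polynomial.C (1 / 2 : ℚ) * (Polynomial.X - Polynomial.C (a i : ℚ) + 2) *
      (Polynomial.X - Polynomial.C (a i : ℚ) + 1) -
    ∑ j, Polynomial.C (1 / 2 : ℚ) * (Polynomial.X - Polynomial.C (b j : ℚ) + 2) *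
      (Polynomial.X - Polynomial.C (b j : ℚ) + 1)
  have hP : ∀ t : ℤ, P.eval (t : ℚ) + ∑ j, (Module.finrank k (Pl k (b j - t - 3)) : ℚ) =
      Module.finrank k (U t) + ∑ i, (Module.finrank k (Pl k (a i - t - 3)) : ℚ) := by
    intro t
    have e1 : P.eval (t : ℚ) =
        ∑ i, ((Module.finrank k (Pl k (t - a i)) : ℚ) + Module.finrank k (Pl k (a i - t - 3))) -
        ∑ j, ((Module.finrank k (Pl k (t - b j)) : ℚ) + Module.finrank k (Pl k (b j - t - 3))) := by
      simp only [P, Polynomial.eval_sub, Polynomial.eval_finsetSum, Polynomial.eval_mul,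
        Polynomial.eval_C, Polynomial.eval_add, Polynomial.eval_X, Polynomial.eval_ofNat,
        Polynomial.eval_one]
      congr 1
      · refine Finset.sum_congr rfl fun i _ => ?_
        have h := T1_euler (k := k) (t - a i)
        have e : -(t - a i) - 3 = a i - t - 3 := by ring
        rw [e] at h
        rw [← h]
        push_cast; ring
      · refine Finset.sum_congr rfl fun j _ => ?_
        have h := T1_euler (k := k) (t - b j)
        have e : -(t - b j) - 3 = b j - t - 3 := by ring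
        rw [e] at h
        rw [← h]
        push_cast; ring
    have h2 : (Module.finrank k (U t) : ℚ) + ∑ j, (Module.finrank k (Pl k (t - b j)) : ℚ) =
      ∑ i, (Module.finrank k (Pl k (t - a i)) : ℚ) := by exact_mod_cast hdim t
    rw [e1, Finset.sum_add_distrib, Finset.sum_add_distrib, ← h2]
    ring
  refine ⟨P, ?_, ?_⟩
  · -- large degrees
    obtain ⟨t1, ht1⟩ := (Set.finite_range a).bddAbove
    obtain ⟨t2, ht2⟩ := (Set.finite_range b).bddAbove
    refine ⟨max t1 t2, fun t ht => ?_⟩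
    have h := hP t
    have z1 : ∑ i, (Module.finrank k (Pl k (a i - t - 3)) : ℚ) = 0 := by
      refine Finset.sum_eq_zero fun i _ => ?_
      have := ht1 (Set.mem_range_self i)
      have h3 := le_max_left t1 t2
      rw [T1_finrank_neg (by omega)]
      simp
    have z2 : ∑ j, (Module.finrank k (Pl k (b j - t - 3)) : ℚ) = 0 := by
      refine Finset.sum_eq_zero fun j _ => ?_
      have := ht2 (Set.mem_range_self j)
      have h3 := le_max_right t1 t2
      rw [T1_finrank_neg (by omega)]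
      simp
    rw [z1, z2, add_zero, add_zero] at h
    exact h.symm
  · intro t
    have hUmono : Monotone U := monotone_int_of_le_succ hmono
    -- the surjection
    have hmemM : ∀ f : Fin m → MvPolynomial (Fin 2) k, T1_al u f ∈ (⨆ t, U t) := by
      intro f
      obtain ⟨t', ht'⟩ := T1_exists_Pl_fam a f
      exact Submodule.mem_iSup_of_mem t' ((hU t' _).2 ⟨f, ht', rfl⟩)
    have hsurjM : ∀ x ∈ (⨆ t, U t), ∃ (t' : ℤ) , x ∈ U t' := by
      intro x hx
      exact (Submodule.mem_iSup_of_directed U hUmono.directed_le).1 hx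
    let al : (Fin m → MvPolynomial (Fin 2) k) →ₗ[k] ↥(⨆ t, U t) :=
      (T1_al u).codRestrict _ hmemM
    have halsurj : Function.Surjective al := by
      rintro ⟨x, hx⟩
      obtain ⟨t', ht'⟩ := hsurjM x hx
      obtain ⟨f, _, rfl⟩ := (hU t' x).1 ht'
      exact ⟨f, rfl⟩
    obtain ⟨σ, hσ⟩ := LinearMap.exists_rightInverse_of_surjective al
      (LinearMap.range_eq_top.2 halsurj)
    have hσ' : ∀ x, al (σ x) = x := fun x => LinearMap.congr_fun hσ x
    -- vanishing on the kernel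
    have hth : ∀ φ ∈ T1_H a g t, ∀ f, al f = 0 → T1_th φ f = 0 := by
      intro φ hφ f hf
      obtain ⟨t', ht'⟩ := T1_exists_Pl_fam a f
      obtain ⟨h, _, he⟩ := hker t' f ht' (congrArg Subtype.val hf)
      show ∑ i, f i * φ i = 0
      have : ∀ i, f i = ∑ j, h j * g j i := by
        intro i
        have := congrFun he i
        simpa [Finset.sum_apply] using this
      simp only [this, Finset.sum_mul, mul_assoc]
      rw [Finset.sum_comm]
      refine Finset.sum_eq_zero fun j _ => ?_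
      rw [← Finset.mul_sum, hφ.2 j, mul_zero]
    have hth2 : ∀ φ ∈ T1_H a g t, ∀ f, T1_th φ (σ (al f)) = T1_th φ f := by
      intro φ hφ f
      have h1 := hth φ hφ (σ (al f) - f) (by rw [map_sub, hσ', sub_self])
      rw [map_sub, sub_eq_zero] at h1
      exact h1
    let Φ : T1_H a g t →ₗ[k] (↥(⨆ t, U t) →ₗ[k] MvPolynomial (Fin 2) k) :=
      { toFun := fun φ => (T1_th φ.1).comp σ
        map_add' := fun φ ψ => by
          ext1 x
          show ∑ i, σ x i * (φ.1 + ψ.1) i = ∑ i, σ x i * φ.1 i + ∑ i, σ x i * ψ.1 i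
          simp [mul_add, Finset.sum_add_distrib]
        map_smul' := fun c φ => by
          ext1 x
          show ∑ i, σ x i * (c • φ.1) i = c • ∑ i, σ x i * φ.1 i
          simp [Finset.smul_sum] }
    have hΦ : ∀ (φ : T1_H a g t) (f : Fin m → MvPolynomial (Fin 2) k),
        Φ φ (al f) = ∑ i, f i * φ.1 i := fun φ f => hth2 φ.1 φ.2 f
    have hΦinj : LinearMap.ker Φ = ⊥ := by
      rw [LinearMap.ker_eq_bot']
      intro φ hφ
      apply Subtype.ext
      funext i
      have h1 := hΦ φ (Pi.single i 1)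
      rw [hφ] at h1
      rw [Finset.sum_eq_single i (fun j _ hj => by rw [Pi.single_eq_of_ne hj, zero_mul])
        (fun hi => absurd (Finset.mem_univ i) hi), Pi.single_eq_same, one_mul] at h1
      exact h1.symm
    obtain ⟨hfin, hcount⟩ := T1_H_fin a b g hg t
    let B := Module.finBasis k (T1_H a g t)
    refine ⟨Module.finrank k (T1_H a g t), fun i => Φ (B i), ?_, ?_, ?_, ?_⟩
    · exact B.linearIndependent.map' Φ hΦinj
    · intro i r v w hw
      obtain ⟨f, rfl⟩ := halsurj v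
      have hw' : w = al (r • f) := by
        apply Subtype.ext
        rw [hw]
        show r • ∑ i, f i • u i = ∑ i, (r • f) i • u i
        rw [Finset.smul_sum]
        exact Finset.sum_congr rfl fun i _ => by rw [Pi.smul_apply, smul_eq_mul, mul_smul]
      rw [hw', hΦ, hΦ, Finset.mul_sum]
      exact Finset.sum_congr rfl fun i _ => by rw [Pi.smul_apply, smul_eq_mul, mul_assoc]
    · intro i t' v hv
      obtain ⟨f, hf, he⟩ := (hU t' _).1 hv
      have hv' : v = al f := Subtype.ext he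
      rw [hv', hΦ]
      have : ∑ l, f l * (B i).1 l ∈ Pl k (t' - t - 3) := by
        refine Submodule.sum_mem _ fun l _ => ?_
        have := T1_Pl_mul (hf l) ((B i).2.1 l)
        have e : t' - a l + (a l - t - 3) = t' - t - 3 := by ring
        rwa [e] at this
      exact this
    · have h := hP t
      have hc : (∑ i, (Module.finrank k (Pl k (a i - t - 3)) : ℚ)) ≤
          Module.finrank k (T1_H a g t) + ∑ j, (Module.finrank k (Pl k (b j - t - 3)) : ℚ) := by
        exact_mod_cast hcount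
      linarith

end core

/-- **Task T1.** (from T1A) Filtered modules over `k[y1,y2]` of depth two: the Euler characteristic is at most
`dim U_t + dim U^♯_{-t-3}`. -/
theorem T1 {k E : Type} [Field k] [AddCommGroup E] [Module k E]
    (y1 y2 : E →ₗ[k] E) (hcomm : ∀ x, y1 (y2 x) = y2 (y1 x))
    (U : ℤ → Submodule k E) (hfd : ∀ t, Module.Finite k (U t))
    (hmono : ∀ t, U t ≤ U (t + 1))
    (h1 : ∀ t, ∀ x ∈ U t, y1 x ∈ U (t + 1)) (h2 : ∀ t, ∀ x ∈ U t, y2 x ∈ U (t + 1))
    (hbot : ∃ t0 : ℤ, ∀ t < t0, U t = ⊥)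
    (hfg : ∃ t0 : ℤ, ∀ t ≥ t0, ∀ x ∈ U (t + 1),
      ∃ a ∈ U t, ∃ b ∈ U t, ∃ c ∈ U t, x = a + y1 b + y2 c)
    (hreg : ∀ t, ∀ x ∈ U t, y1 x ∈ U t → x ∈ U (t - 1)) :
    ∃ P : Polynomial ℚ,
      (∃ t0 : ℤ, ∀ t ≥ t0, (Module.finrank k (U t) : ℚ) = P.eval (t : ℚ)) ∧
      ∀ t : ℤ, ∃ (s : ℕ) (φ : Fin s → (↥(⨆ t, U t) →ₗ[k] MvPolynomial (Fin 2) k)),
        LinearIndependent k φ ∧
        (∀ i (v w : ↥(⨆ t, U t)), (w : E) = y1 v → φ i w = X 0 * φ i v) ∧
        (∀ i (v w : ↥(⨆ t, U t)), (w : E) = y2 v → φ i w = X 1 * φ i v) ∧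
        (∀ i (u : ℤ) (v : ↥(⨆ t, U t)), (v : E) ∈ U u → ∀ m ∈ (φ i v).support,
            (m 0 : ℤ) + m 1 ≤ u - t - 3) ∧
        P.eval (t : ℚ) ≤ Module.finrank k (U t) + s := by
  classical
  let S : Set (Module.End k E) := {y1, y2}
  have hS : ∀ a ∈ S, ∀ b ∈ S, a * b = b * a := by
    rintro a (rfl | rfl) b (rfl | rfl)
    · rfl
    · ext x; exact hcomm x
    · ext x; exact (hcomm x).symm
    · rfl
  letI : CommRing (Algebra.adjoin k S) := Algebra.adjoinCommRingOfComm k hS
  let y1' : Algebra.adjoin k S := ⟨y1, Algebra.subset_adjoin (Or.inl rfl)⟩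
  let y2' : Algebra.adjoin k S := ⟨y2, Algebra.subset_adjoin (Or.inr rfl)⟩
  let ψ0 : MvPolynomial (Fin 2) k →ₐ[k] Algebra.adjoin k S := aeval ![y1', y2']
  let ψ : MvPolynomial (Fin 2) k →ₐ[k] Module.End k E := (Algebra.adjoin k S).val.comp ψ0
  letI : Module (MvPolynomial (Fin 2) k) E := Module.compHom E ψ.toRingHom
  have hsm : ∀ (f : MvPolynomial (Fin 2) k) (x : E), f • x = ψ f x := fun _ _ => rfl
  haveI : IsScalarTower k (MvPolynomial (Fin 2) k) E := by
    constructor
    intro c f x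
    rw [hsm, hsm, map_smul, LinearMap.smul_apply]
  have hX0 : ∀ x : E, (X 0 : MvPolynomial (Fin 2) k) • x = y1 x := by
    intro x
    rw [hsm]
    have : ψ (X 0) = y1 := by
      show ((aeval ![y1', y2'] (X 0 : MvPolynomial (Fin 2) k) : Algebra.adjoin k S) :
        Module.End k E) = y1
      rw [aeval_X]
      rfl
    rw [this]
  have hX1 : ∀ x : E, (X 1 : MvPolynomial (Fin 2) k) • x = y2 x := by
    intro x
    rw [hsm]
    have : ψ (X 1) = y2 := by
      show ((aeval ![y1', y2'] (X 1 : MvPolynomial (Fin 2) k) : Algebra.adjoin k S) :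
        Module.End k E) = y2
      rw [aeval_X]
      rfl
    rw [this]
  obtain ⟨m, n, a, b, u, g, hg, hU, hker, hrel, hinj⟩ := T1A U hfd hmono
    (by
      intro i t x hx
      fin_cases i
      · show (X 0 : MvPolynomial (Fin 2) k) • x ∈ _
        rw [hX0]
        exact h1 t x hx
      · show (X 1 : MvPolynomial (Fin 2) k) • x ∈ _
        rw [hX1]
        exact h2 t x hx)
    hbot
    (by
      obtain ⟨t0, h⟩ := hfg
      refine ⟨t0, fun t ht x hx => ?_⟩
      obtain ⟨a, ha, b, hb, c, hc, he⟩ := h t ht x hx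
      exact ⟨a, ha, b, hb, c, hc, by rw [hX0, hX1]; exact he⟩)
    (by
      intro t x hx hx'
      rw [hX0] at hx'
      exact hreg t x hx hx')
  obtain ⟨P, hP1, hP2⟩ := T1_core U hmono a b u g hg hU hker hrel hinj
  refine ⟨P, hP1, fun t => ?_⟩
  obtain ⟨s, φ, c1, c2, c3, c4⟩ := hP2 t
  refine ⟨s, φ, c1, ?_, ?_, c3, c4⟩
  · intro i v w hw
    exact c2 i (X 0) v w (by rw [hX0]; exact hw)
  · intro i v w hw
    exact c2 i (X 1) v w (by rw [hX1]; exact hw)

end

end Pool.Agent.H54R2.Ul
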