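import Pool.Agent.H54R2.Ul.Defs3

namespace Pool.Agent.H54R2.Ul

open MvPolynomial

noncomputable section

section T1Apoly

variable {k : Type} [Field k]

lemma T1A_mem_iff {t : ℤ} {f : MvPolynomial (Fin 2) k} :
    f ∈ Pl k t ↔ ∀ m : Fin 2 →₀ ℕ, t < (m 0 : ℤ) + m 1 → f.coeff m = 0 := by
  constructor
  · intro h m hm
    by_contra hc
    have := h m (MvPolynomial.mem_support_iff.2 hc)
    omega
  · intro h m hm
    by_contra hc
    exact (MvPolynomial.mem_support_iff.1 hm) (h m (by omega))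

lemma T1A_neg {t : ℤ} (ht : t < 0) {f : MvPolynomial (Fin 2) k} (hf : f ∈ Pl k t) : f = 0 := by
  ext m
  rw [T1A_mem_iff] at hf
  simpa using hf m (by omega)

lemma T1A_mono {s t : ℤ} (h : s ≤ t) {f : MvPolynomial (Fin 2) k} (hf : f ∈ Pl k s) :
    f ∈ Pl k t := by
  rw [T1A_mem_iff] at hf ⊢
  exact fun m hm => hf m (by omega)

lemma T1A_C {t : ℤ} (ht : 0 ≤ t) (c : k) : (C c : MvPolynomial (Fin 2) k) ∈ Pl k t := by
  rw [T1A_mem_iff]
  intro m hm
  rw [coeff_C, if_neg]
  rintro rfl
  simp at hm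
  omega

lemma T1A_X_mul (i : Fin 2) {t : ℤ} {f : MvPolynomial (Fin 2) k} (hf : f ∈ Pl k t) :
    X i * f ∈ Pl k (t + 1) := by
  rw [T1A_mem_iff] at hf ⊢
  intro m hm
  rw [coeff_X_mul']
  split_ifs with h
  · apply hf
    rw [Finsupp.mem_support_iff] at h
    fin_cases i
    · simp only [Fin.zero_eta, Fin.isValue, Finsupp.coe_tsub, Pi.sub_apply, Finsupp.single_eq_same]
      simp only [Fin.zero_eta, Fin.isValue] at h
      have : (Finsupp.single (0 : Fin 2) 1 : Fin 2 →₀ ℕ) 1 = 0 := by simp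
      rw [this]
      omega
    · simp only [Fin.mk_one, Fin.isValue, Finsupp.coe_tsub, Pi.sub_apply, Finsupp.single_eq_same]
      simp only [Fin.mk_one, Fin.isValue] at h
      have : (Finsupp.single (1 : Fin 2) 1 : Fin 2 →₀ ℕ) 0 = 0 := by simp
      rw [this]
      omega
  · rfl

lemma T1A_mul {s t : ℤ} {f g : MvPolynomial (Fin 2) k} (hf : f ∈ Pl k s) (hg : g ∈ Pl k t) :
    f * g ∈ Pl k (s + t) := by
  rw [T1A_mem_iff] at hf hg ⊢
  intro m hm
  rw [coeff_mul]
  apply Finset.sum_eq_zero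
  intro x hx
  replace hx := Finset.HasAntidiagonal.mem_antidiagonal.1 hx
  have h0 : x.1 0 + x.2 0 = m 0 := by rw [← hx]; rfl
  have h1 : x.1 1 + x.2 1 = m 1 := by rw [← hx]; rfl
  by_cases h : s < (x.1 0 : ℤ) + x.1 1
  · rw [hf _ h, zero_mul]
  · rw [hg _ (by omega), mul_zero]

lemma T1A_X0_div {t : ℤ} {f : MvPolynomial (Fin 2) k} (hf : X 0 * f ∈ Pl k t) :
    f ∈ Pl k (t - 1) := by
  rw [T1A_mem_iff] at hf ⊢
  intro m hm
  have h := hf (Finsupp.single 0 1 + m) (by
    simp only [Finsupp.add_apply, Finsupp.single_eq_same]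
    have : (Finsupp.single (0 : Fin 2) 1 : Fin 2 →₀ ℕ) 1 = 0 := by simp
    rw [this]
    push_cast
    omega)
  rwa [coeff_X_mul] at h

/-- the substitution `X0 = 0` -/
def T1A_phi : MvPolynomial (Fin 2) k →ₐ[k] Polynomial k := aeval ![0, Polynomial.X]

lemma T1A_phi_coeff (f : MvPolynomial (Fin 2) k) (n : ℕ) :
    (T1A_phi f).coeff n = f.coeff (Finsupp.single 1 n) := by
  induction f using MvPolynomial.induction_on' with
  | monomial m c =>
      rw [T1A_phi, aeval_monomial, coeff_monomial]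
      rw [Finsupp.prod_fintype _ _ (by simp), Fin.prod_univ_two]
      simp only [Matrix.cons_val_zero, Matrix.cons_val_one]
      rw [Polynomial.algebraMap_apply, Algebra.algebraMap_self, RingHom.id_apply,
        Polynomial.coeff_C_mul]
      by_cases h0 : m 0 = 0
      · rw [h0, pow_zero, one_mul, Polynomial.coeff_X_pow]
        by_cases h1 : n = m 1
        · have h2 : m = Finsupp.single 1 n := by
            ext i
            fin_cases i
            · simp [h0]
            · simp [h1]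
          rw [if_pos h1, if_pos h2, mul_one]
        · have h2 : m ≠ Finsupp.single 1 n := by
            rintro rfl
            apply h1
            simp
          rw [if_neg h1, if_neg h2, mul_zero]
      · have h2 : m ≠ Finsupp.single 1 n := by
          rintro rfl
          apply h0
          simp
        rw [if_neg h2, zero_pow h0, zero_mul]
        simp
  | add p q hp hq => rw [map_add, Polynomial.coeff_add, hp, hq, coeff_add]

lemma T1A_phi_deg {t : ℕ} {f : MvPolynomial (Fin 2) k} (hf : f ∈ Pl k t) :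
    (T1A_phi f).natDegree ≤ t := by
  rw [Polynomial.natDegree_le_iff_coeff_eq_zero]
  intro n hn
  rw [T1A_phi_coeff]
  rw [T1A_mem_iff] at hf
  apply hf
  simp
  exact_mod_cast hn

/-- the coefficient of `X1^t` -/
def T1A_lc (t : ℤ) (f : MvPolynomial (Fin 2) k) : k := if t < 0 then 0 else (T1A_phi f).coeff t.toNat

lemma T1A_lc_add (t : ℤ) (f g : MvPolynomial (Fin 2) k) :
    T1A_lc t (f + g) = T1A_lc t f + T1A_lc t g := by
  unfold T1A_lc
  split_ifs <;> simp

lemma T1A_lc_smul (t : ℤ) (c : k) (f : MvPolynomial (Fin 2) k) :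
    T1A_lc t (c • f) = c * T1A_lc t f := by
  unfold T1A_lc
  split_ifs <;> simp

lemma T1A_lc_zero (t : ℤ) : T1A_lc t (0 : MvPolynomial (Fin 2) k) = 0 := by
  unfold T1A_lc
  split_ifs <;> simp

lemma T1A_lc_sum {ι : Type} (s : Finset ι) (t : ℤ) (f : ι → MvPolynomial (Fin 2) k) :
    T1A_lc t (∑ i ∈ s, f i) = ∑ i ∈ s, T1A_lc t (f i) := by
  classical
  induction s using Finset.induction_on with
  | empty => simp [T1A_lc_zero]
  | insert a s ha ih => rw [Finset.sum_insert ha, Finset.sum_insert ha, T1A_lc_add, ih]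

lemma T1A_lc_mul {s t : ℤ} {f g : MvPolynomial (Fin 2) k} (hf : f ∈ Pl k s) (hg : g ∈ Pl k t) :
    T1A_lc (s + t) (f * g) = T1A_lc s f * T1A_lc t g := by
  by_cases hs : s < 0
  · rw [T1A_neg hs hf, zero_mul, T1A_lc_zero, T1A_lc_zero, zero_mul]
  by_cases ht : t < 0
  · rw [T1A_neg ht hg, mul_zero, T1A_lc_zero, T1A_lc_zero, mul_zero]
  rw [not_lt] at hs ht
  obtain ⟨a, rfl⟩ := Int.eq_ofNat_of_zero_le hs
  obtain ⟨b, rfl⟩ := Int.eq_ofNat_of_zero_le ht
  unfold T1A_lc
  rw [if_neg (by omega), if_neg (by omega), if_neg (by omega), map_mul]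
  have : ((a : ℤ) + b).toNat = a + b := by omega
  rw [this, Int.toNat_natCast, Int.toNat_natCast]
  exact Polynomial.coeff_mul_add_eq_of_natDegree_le (T1A_phi_deg hf) (T1A_phi_deg hg)

lemma T1A_lc_low {t : ℤ} {f : MvPolynomial (Fin 2) k} (hf : f ∈ Pl k (t - 1)) :
    T1A_lc t f = 0 := by
  unfold T1A_lc
  split_ifs with h
  · rfl
  · rw [T1A_phi_coeff]
    rw [T1A_mem_iff] at hf
    apply hf
    simp

lemma T1A_X1_pow (n : ℕ) : (X 1 ^ n : MvPolynomial (Fin 2) k) ∈ Pl k n := by
  induction n with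
  | zero => simpa using T1A_C (k := k) le_rfl 1
  | succ n ih =>
      rw [pow_succ']
      have := T1A_X_mul 1 ih
      push_cast
      exact this

lemma T1A_lc_X1_pow (n : ℕ) : T1A_lc n (X 1 ^ n : MvPolynomial (Fin 2) k) = 1 := by
  unfold T1A_lc
  rw [if_neg (by omega), map_pow]
  simp [T1A_phi]

lemma T1A_split {t : ℤ} {f : MvPolynomial (Fin 2) k} (hf : f ∈ Pl k t) (h0 : T1A_lc t f = 0) :
    ∃ q r : MvPolynomial (Fin 2) k, q ∈ Pl k (t - 1) ∧ r ∈ Pl k (t - 1) ∧ f = X 0 * q + r := by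
  by_cases ht : t < 0
  · refine ⟨0, 0, Submodule.zero_mem _, Submodule.zero_mem _, ?_⟩
    rw [T1A_neg ht hf]
    simp
  have h1 : f.coeff (Finsupp.single 1 t.toNat) = 0 := by
    unfold T1A_lc at h0
    rwa [if_neg ht, T1A_phi_coeff] at h0
  refine ⟨f.divMonomial (Finsupp.single 0 1), f.modMonomial (Finsupp.single 0 1), ?_, ?_, ?_⟩
  · rw [T1A_mem_iff] at hf ⊢
    intro m hm
    rw [coeff_divMonomial]
    apply hf
    simp only [Finsupp.add_apply, Finsupp.single_eq_same]
    have : (Finsupp.single (0 : Fin 2) 1 : Fin 2 →₀ ℕ) 1 = 0 := by simp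
    rw [this]
    push_cast
    omega
  · rw [T1A_mem_iff] at hf ⊢
    intro m hm
    by_cases hle : Finsupp.single 0 1 ≤ m
    · exact coeff_modMonomial_of_le _ hle
    · rw [coeff_modMonomial_of_not_le _ hle]
      have hm0 : m 0 = 0 := by
        by_contra hne
        apply hle
        intro i
        fin_cases i
        · simp
          omega
        · simp
      by_cases hm1 : t < (m 0 : ℤ) + m 1
      · exact hf m hm1
      · have : m = Finsupp.single 1 t.toNat := by
          ext i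
          fin_cases i
          · simp [hm0]
          · simp
            omega
        rw [this]
        exact h1
  · exact (divMonomial_add_modMonomial_single f 0).symm

lemma T1A_exists (f : MvPolynomial (Fin 2) k) : ∃ t : ℤ, f ∈ Pl k t := by
  refine ⟨f.totalDegree, fun m hm => ?_⟩
  have h := le_totalDegree hm
  rw [Finsupp.sum_fintype _ _ (by simp), Fin.sum_univ_two] at h
  exact_mod_cast h

/-! ### a basis adapted to a filtration -/

lemma T1A_filt_aux {W : Type} [AddCommGroup W] [Module k W] (V : ℤ → Submodule k W)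
    (hV : ∀ t, V t ≤ V (t + 1)) (t0 : ℤ) (hb : ∀ t < t0, V t = ⊥) (T : ℤ) (hT : t0 - 1 ≤ T) :
    ∃ (B : Set W) (b : W → ℤ), LinearIndepOn k id B ∧ (∀ e ∈ B, b e ≤ T ∧ e ∈ V (b e)) ∧
      ∀ t ≤ T, V t ≤ Submodule.span k {e | e ∈ B ∧ b e ≤ t} := by
  classical
  induction T, hT using Int.le_induction with
  | base =>
      refine ⟨∅, fun _ => 0, linearIndepOn_empty _ _, by simp, ?_⟩
      intro t ht
      rw [hb t (by omega)]
      exact bot_le
  | succ T hT ih =>
      obtain ⟨B, b, hB, hBV, hspan⟩ := ih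
      have hBsub : B ⊆ (V (T + 1) : Set W) := by
        intro e he
        obtain ⟨h1, h2⟩ := hBV e he
        exact monotone_int_of_le_succ hV (by omega : b e ≤ T + 1) h2
      refine ⟨hB.extend hBsub, fun e => if e ∈ B then b e else T + 1, hB.linearIndepOn_extend hBsub,
        ?_, ?_⟩
      · intro e he
        have he' := hB.extend_subset hBsub he
        dsimp only
        split_ifs with h
        · obtain ⟨h1, h2⟩ := hBV e h
          exact ⟨by omega, h2⟩
        · exact ⟨le_rfl, he'⟩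
      · intro t ht
        rcases (by omega : t ≤ T ∨ t = T + 1) with h | rfl
        · refine (hspan t h).trans (Submodule.span_mono ?_)
          rintro e ⟨he, hbe⟩
          refine ⟨hB.subset_extend hBsub he, ?_⟩
          dsimp only
          rw [if_pos he]
          exact hbe
        · intro x hx
          have h1 := hB.subset_span_extend hBsub hx
          refine Submodule.span_mono ?_ h1
          intro e he
          refine ⟨he, ?_⟩
          dsimp only
          split_ifs with h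
          · have := (hBV e h).1
            omega
          · exact le_rfl

lemma T1A_filt {W : Type} [AddCommGroup W] [Module k W] [Module.Finite k W] (V : ℤ → Submodule k W)
    (hV : ∀ t, V t ≤ V (t + 1)) (hb : ∃ t0, ∀ t < t0, V t = ⊥) :
    ∃ (n : ℕ) (b : Fin n → ℤ) (e : Fin n → W), LinearIndependent k e ∧ (∀ j, e j ∈ V (b j)) ∧
      ∀ t, ∀ x ∈ V t, ∃ c : Fin n → k, (∀ j, t < b j → c j = 0) ∧ x = ∑ j, c j • e j := by
  classical
  obtain ⟨t0, ht0⟩ := hb
  have hmon : Monotone V := monotone_int_of_le_succ hV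
  let F : ℕ →o Submodule k W := ⟨fun n => V (t0 + n), fun a b h => hmon (by omega)⟩
  obtain ⟨N, hN⟩ := monotone_stabilizes_iff_noetherian.2 (inferInstance : IsNoetherian k W) F
  obtain ⟨B, b, hB, hBV, hspan⟩ := T1A_filt_aux V hV t0 ht0 (t0 + N) (by omega)
  have hspan' : ∀ t, V t ≤ Submodule.span k {e | e ∈ B ∧ b e ≤ t} := by
    intro t
    rcases le_or_gt t (t0 + N) with h | h
    · exact hspan t h
    · have h1 := hN (t - t0).toNat (by omega)
      have h2 : V (t0 + N) = V t := by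
        have h3 : (t0 + ((t - t0).toNat : ℤ)) = t := by omega
        change V (t0 + N) = V (t0 + ((t - t0).toNat : ℤ)) at h1
        rwa [h3] at h1
      rw [← h2]
      refine (hspan _ le_rfl).trans (Submodule.span_mono ?_)
      rintro e ⟨he, hbe⟩
      exact ⟨he, by omega⟩
  have hfin : B.Finite := hB.linearIndependent.setFinite
  have : Fintype B := hfin.fintype
  let φ := Fintype.equivFin B
  refine ⟨Fintype.card B, fun j => b (φ.symm j), fun j => (φ.symm j : W), ?_, ?_, ?_⟩
  · have h1 : LinearIndependent k (fun x : B => (x : W)) := hB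
    exact h1.comp _ φ.symm.injective
  · intro j
    exact (hBV _ (φ.symm j).2).2
  · intro t x hx
    have h1 := hspan' t hx
    have h2 : {e | e ∈ B ∧ b e ≤ t} = (fun j => (φ.symm j : W)) '' {j | b (φ.symm j) ≤ t} := by
      ext e
      constructor
      · rintro ⟨he, hbe⟩
        exact ⟨φ ⟨e, he⟩, by simpa using hbe, by simp⟩
      · rintro ⟨j, hj, rfl⟩
        exact ⟨(φ.symm j).2, hj⟩
    rw [h2, Finsupp.mem_span_image_iff_linearCombination] at h1
    obtain ⟨l, hl, hlx⟩ := h1
    refine ⟨l, ?_, ?_⟩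
    · intro j hj
      by_contra hne
      have h3 : b (φ.symm j) ≤ t := hl (Finsupp.mem_support_iff.2 hne)
      have h4 : t < b (φ.symm j) := hj
      omega
    · rw [← hlx, Finsupp.linearCombination_apply, Finsupp.sum_fintype _ _ (by simp)]

end T1Apoly

section T1Amod

variable {k E : Type} [Field k] [AddCommGroup E] [Module k E]
    [Module (MvPolynomial (Fin 2) k) E] [IsScalarTower k (MvPolynomial (Fin 2) k) E]
    {U : ℤ → Submodule k E}

lemma T1A_pow_mem (hX : ∀ (i : Fin 2) t, ∀ x ∈ U t, (X i : MvPolynomial (Fin 2) k) • x ∈ U (t + 1))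
    (i : Fin 2) (n : ℕ) {s : ℤ} {x : E} (hx : x ∈ U s) :
    (X i ^ n : MvPolynomial (Fin 2) k) • x ∈ U (s + n) := by
  induction n with
  | zero => simpa using hx
  | succ n ih =>
      rw [pow_succ', mul_smul]
      have := hX i _ _ ih
      push_cast
      rwa [← add_assoc]

lemma T1A_smul_mem (hmono : ∀ t, U t ≤ U (t + 1))
    (hX : ∀ (i : Fin 2) t, ∀ x ∈ U t, (X i : MvPolynomial (Fin 2) k) • x ∈ U (t + 1))
    {d s : ℤ} {f : MvPolynomial (Fin 2) k} (hf : f ∈ Pl k d) {x : E} (hx : x ∈ U s) :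
    f • x ∈ U (s + d) := by
  rw [← support_sum_monomial_coeff f, Finset.sum_smul]
  apply Submodule.sum_mem
  intro m hm
  have h1 := hf m hm
  rw [monomial_eq, Finsupp.prod_fintype _ _ (by simp), Fin.prod_univ_two, mul_smul,
    ← algebraMap_eq, algebraMap_smul]
  apply Submodule.smul_mem
  rw [mul_comm, mul_smul]
  have h2 := T1A_pow_mem hX 1 (m 1) (T1A_pow_mem hX 0 (m 0) hx)
  exact monotone_int_of_le_succ hmono (by omega) h2

lemma T1A_gen_aux (hfd : ∀ t, Module.Finite k (U t)) (t0 : ℤ) (hb : ∀ t < t0, U t = ⊥)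
    (T : ℤ) (hT : t0 - 1 ≤ T) :
    ∃ (ι : Type) (_ : Fintype ι) (a : ι → ℤ) (u : ι → E), (∀ i, u i ∈ U (a i)) ∧
      ∀ t ≤ T, ∀ x ∈ U t, ∃ f : ι → MvPolynomial (Fin 2) k, (∀ i, f i ∈ Pl k (t - a i)) ∧
        x = ∑ i, f i • u i := by
  induction T, hT using Int.le_induction with
  | base =>
      refine ⟨Empty, inferInstance, Empty.elim, Empty.elim, fun i => i.elim, ?_⟩
      intro t ht x hx
      rw [hb t (by omega), Submodule.mem_bot] at hx
      exact ⟨Empty.elim, fun i => i.elim, by simpa using hx⟩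
  | succ T hT ih =>
      obtain ⟨ι, hι, a, u, hu, hgen⟩ := ih
      have hfg : (U (T + 1)).FG := Module.Finite.iff_fg.1 (hfd (T + 1))
      obtain ⟨d, v, hv⟩ := Submodule.fg_iff_exists_fin_generating_family.1 hfg
      refine ⟨ι ⊕ Fin d, inferInstance, Sum.elim a fun _ => T + 1, Sum.elim u v, ?_, ?_⟩
      · rintro (i | i)
        · exact hu i
        · change v i ∈ U (T + 1)
          rw [← hv]
          exact Submodule.subset_span ⟨i, rfl⟩
      · intro t ht x hx
        rcases (by omega : t ≤ T ∨ t = T + 1) with h | rfl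
        · obtain ⟨f, hf, hx'⟩ := hgen t h x hx
          refine ⟨Sum.elim f 0, ?_, ?_⟩
          · rintro (i | i)
            · exact hf i
            · exact Submodule.zero_mem _
          · rw [Fintype.sum_sum_type]
            simp [hx']
        · rw [← hv, Submodule.mem_span_range_iff_exists_fun] at hx
          obtain ⟨c, hc⟩ := hx
          refine ⟨Sum.elim 0 fun i => C (c i), ?_, ?_⟩
          · rintro (i | i)
            · exact Submodule.zero_mem _
            · exact T1A_C (by simp) _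
          · rw [Fintype.sum_sum_type]
            simp only [Sum.elim_inl, Pi.zero_apply, zero_smul, Finset.sum_const_zero, Sum.elim_inr,
              zero_add]
            rw [← hc]
            apply Finset.sum_congr rfl
            intro i _
            rw [← algebraMap_eq, algebraMap_smul]

lemma T1A_gen (hfd : ∀ t, Module.Finite k (U t))
    (hmono : ∀ t, U t ≤ U (t + 1))
    (hX : ∀ (i : Fin 2) t, ∀ x ∈ U t, (X i : MvPolynomial (Fin 2) k) • x ∈ U (t + 1))
    (hbot : ∃ t0 : ℤ, ∀ t < t0, U t = ⊥)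
    (hfg : ∃ t0 : ℤ, ∀ t ≥ t0, ∀ x ∈ U (t + 1), ∃ a ∈ U t, ∃ b ∈ U t, ∃ c ∈ U t,
      x = a + (X 0 : MvPolynomial (Fin 2) k) • b + (X 1 : MvPolynomial (Fin 2) k) • c) :
    ∃ (m : ℕ) (a : Fin m → ℤ) (u : Fin m → E),
      ∀ (t : ℤ) (x : E), x ∈ U t ↔ ∃ f : Fin m → MvPolynomial (Fin 2) k,
        (∀ i, f i ∈ Pl k (t - a i)) ∧ x = ∑ i, f i • u i := by
  obtain ⟨t0, ht0⟩ := hbot
  obtain ⟨t1, ht1⟩ := hfg
  obtain ⟨ι, hι, a, u, hu, hgen⟩ := T1A_gen_aux hfd t0 ht0 (max (t0 - 1) t1) (le_max_left _ _)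
  have key : ∀ t, max (t0 - 1) t1 ≤ t → ∀ x ∈ U t, ∃ f : ι → MvPolynomial (Fin 2) k,
      (∀ i, f i ∈ Pl k (t - a i)) ∧ x = ∑ i, f i • u i := by
    intro t ht
    induction t, ht using Int.le_induction with
    | base => exact hgen _ le_rfl
    | succ t ht ih =>
        intro x hx
        obtain ⟨y, hy, z, hz, w, hw, rfl⟩ := ht1 t ((le_max_right _ _).trans ht) x hx
        obtain ⟨f1, hf1, rfl⟩ := ih y hy
        obtain ⟨f2, hf2, rfl⟩ := ih z hz
        obtain ⟨f3, hf3, rfl⟩ := ih w hw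
        refine ⟨fun i => f1 i + X 0 * f2 i + X 1 * f3 i, ?_, ?_⟩
        · intro i
          have e : t + 1 - a i = t - a i + 1 := by ring
          rw [e]
          exact Submodule.add_mem _ (Submodule.add_mem _ (T1A_mono (by omega) (hf1 i))
            (T1A_X_mul 0 (hf2 i))) (T1A_X_mul 1 (hf3 i))
        · rw [Finset.smul_sum, Finset.smul_sum, ← Finset.sum_add_distrib, ← Finset.sum_add_distrib]
          apply Finset.sum_congr rfl
          intro i _
          rw [add_smul, add_smul, mul_smul, mul_smul]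
  have hall : ∀ t, ∀ x ∈ U t, ∃ f : ι → MvPolynomial (Fin 2) k,
      (∀ i, f i ∈ Pl k (t - a i)) ∧ x = ∑ i, f i • u i := by
    intro t
    rcases le_total t (max (t0 - 1) t1) with h | h
    · exact hgen t h
    · exact key t h
  let φ := Fintype.equivFin ι
  refine ⟨Fintype.card ι, fun i => a (φ.symm i), fun i => u (φ.symm i), ?_⟩
  intro t x
  constructor
  · intro hx
    obtain ⟨f, hf, rfl⟩ := hall t x hx
    refine ⟨fun i => f (φ.symm i), fun i => hf _, ?_⟩
    exact (Equiv.sum_comp φ.symm fun i => f i • u i).symm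
  · rintro ⟨f, hf, rfl⟩
    apply Submodule.sum_mem
    intro i _
    have h1 := T1A_smul_mem hmono hX (hf i) (hu (φ.symm i))
    simpa using h1

/-- relations of degree `t` -/
def T1A_NN {m : ℕ} (a : Fin m → ℤ) (u : Fin m → E) (t : ℤ) :
    Submodule k (Fin m → MvPolynomial (Fin 2) k) where
  carrier := {f | (∀ i, f i ∈ Pl k (t - a i)) ∧ ∑ i, f i • u i = 0}
  add_mem' := by
    rintro f g ⟨h1, h2⟩ ⟨h3, h4⟩
    refine ⟨fun i => Submodule.add_mem _ (h1 i) (h3 i), ?_⟩
    simp only [Pi.add_apply, add_smul, Finset.sum_add_distrib, h2, h4, add_zero]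
  zero_mem' := ⟨fun i => Submodule.zero_mem _, by simp⟩
  smul_mem' := by
    rintro c f ⟨h1, h2⟩
    refine ⟨fun i => Submodule.smul_mem _ c (h1 i), ?_⟩
    simp only [Pi.smul_apply, smul_assoc, ← Finset.smul_sum, h2, smul_zero]

/-- the vector of the coefficients of `X1^(t - a i)` -/
def T1A_LC {m : ℕ} (a : Fin m → ℤ) (t : ℤ) :
    (Fin m → MvPolynomial (Fin 2) k) →ₗ[k] (Fin m → k) where
  toFun f i := T1A_lc (t - a i) (f i)
  map_add' f g := by ext i; exact T1A_lc_add _ _ _
  map_smul' c f := by ext i; exact T1A_lc_smul _ _ _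

omit [AddCommGroup E] [Module k E] [Module (MvPolynomial (Fin 2) k) E]
  [IsScalarTower k (MvPolynomial (Fin 2) k) E] in
lemma T1A_LC_smul {m : ℕ} {a : Fin m → ℤ} {s t : ℤ} {h : MvPolynomial (Fin 2) k}
    {g : Fin m → MvPolynomial (Fin 2) k} (hh : h ∈ Pl k (t - s)) (hg : ∀ i, g i ∈ Pl k (s - a i)) :
    T1A_LC a t (h • g) = T1A_lc (t - s) h • T1A_LC a s g := by
  ext i
  change T1A_lc (t - a i) (h * g i) = T1A_lc (t - s) h * T1A_lc (s - a i) (g i)
  rw [← T1A_lc_mul hh (hg i)]
  congr 1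
  ring

lemma T1A_F0_smul {m : ℕ} {a : Fin m → ℤ} {s t : ℤ} {h : MvPolynomial (Fin 2) k}
    {g : Fin m → MvPolynomial (Fin 2) k} (hh : h ∈ Pl k (t - s)) (hg : ∀ i, g i ∈ Pl k (s - a i))
    (i : Fin m) : (h • g) i ∈ Pl k (t - a i) := by
  have h1 := T1A_mul hh (hg i)
  have e : t - s + (s - a i) = t - a i := by ring
  rwa [e] at h1

lemma T1A_eps_smul {m : ℕ} {u : Fin m → E} (h : MvPolynomial (Fin 2) k)
    (g : Fin m → MvPolynomial (Fin 2) k) : ∑ i, (h • g) i • u i = h • ∑ i, g i • u i := by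
  rw [Finset.smul_sum]
  apply Finset.sum_congr rfl
  intro i _
  rw [Pi.smul_apply, smul_eq_mul, mul_smul]

lemma T1A_NN_smul {m : ℕ} {a : Fin m → ℤ} {u : Fin m → E} {s t : ℤ} {h : MvPolynomial (Fin 2) k}
    {g : Fin m → MvPolynomial (Fin 2) k} (hh : h ∈ Pl k (t - s)) (hg : g ∈ T1A_NN a u s) :
    h • g ∈ T1A_NN (k := k) a u t := by
  refine ⟨T1A_F0_smul hh hg.1, ?_⟩
  rw [T1A_eps_smul, hg.2, smul_zero]

lemma T1A_X0_mem : (X 0 : MvPolynomial (Fin 2) k) ∈ Pl k 1 := by
  have := T1A_X_mul 0 (T1A_C (k := k) (le_refl 0) 1)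
  simpa using this

/-- generation of the relations -/
lemma T1A_rel_gen {m : ℕ} {a : Fin m → ℤ} {u : Fin m → E}
    (hU : ∀ (t : ℤ) (x : E), x ∈ U t ↔ ∃ f : Fin m → MvPolynomial (Fin 2) k,
        (∀ i, f i ∈ Pl k (t - a i)) ∧ x = ∑ i, f i • u i)
    (hreg : ∀ t, ∀ x ∈ U t, (X 0 : MvPolynomial (Fin 2) k) • x ∈ U t → x ∈ U (t - 1))
    {n : ℕ} {b : Fin n → ℤ} {e : Fin n → Fin m → k} {g : Fin n → Fin m → MvPolynomial (Fin 2) k}
    (hg : ∀ j, g j ∈ T1A_NN a u (b j)) (hge : ∀ j, T1A_LC a (b j) (g j) = e j)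
    (hV : ∀ t, ∀ x ∈ (T1A_NN a u t).map (T1A_LC a t), ∃ c : Fin n → k,
      (∀ j, t < b j → c j = 0) ∧ x = ∑ j, c j • e j)
    {L : ℤ} (hL : ∀ i, L ≤ a i) (t : ℤ) (ht : L - 1 ≤ t) :
    ∀ f ∈ T1A_NN a u t, ∃ h : Fin n → MvPolynomial (Fin 2) k,
          (∀ j, h j ∈ Pl k (t - b j)) ∧ f = ∑ j, h j • g j := by
  induction t, ht using Int.le_induction with
  | base =>
      rintro f ⟨hf, -⟩
      refine ⟨0, fun j => Submodule.zero_mem _, ?_⟩
      have : f = 0 := by
        funext i
        exact T1A_neg (by have := hL i; omega) (hf i)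
      rw [this]
      simp
  | succ t ht ih =>
      intro f hf
      obtain ⟨c, hc0, hc⟩ := hV (t + 1) _ (Submodule.mem_map_of_mem hf)
      set h0 : Fin n → MvPolynomial (Fin 2) k := fun j =>
        if t + 1 < b j then 0 else C (c j) * X 1 ^ (t + 1 - b j).toNat with hh0
      have hh0mem : ∀ j, h0 j ∈ Pl k (t + 1 - b j) := by
        intro j
        simp only [hh0]
        split_ifs with h
        · exact Submodule.zero_mem _
        · have h1 := T1A_mul (T1A_C (k := k) (le_refl 0) (c j)) (T1A_X1_pow (k := k) (t + 1 - b j).toNat)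
          have h2 : (0 : ℤ) + ((t + 1 - b j).toNat : ℤ) = t + 1 - b j := by omega
          rwa [h2] at h1
      have hh0lc : ∀ j, T1A_lc (t + 1 - b j) (h0 j) = c j := by
        intro j
        simp only [hh0]
        split_ifs with h
        · rw [T1A_lc_zero, hc0 j h]
        · rw [← smul_eq_C_mul, T1A_lc_smul]
          have h2 : ((t + 1 - b j).toNat : ℤ) = t + 1 - b j := by omega
          have h3 := T1A_lc_X1_pow (k := k) (t + 1 - b j).toNat
          rw [h2] at h3
          rw [h3, mul_one]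
      set f1 : Fin m → MvPolynomial (Fin 2) k := f - ∑ j, h0 j • g j with hf1
      have hf1mem : f1 ∈ T1A_NN a u (t + 1) := by
        apply Submodule.sub_mem _ hf
        apply Submodule.sum_mem
        intro j _
        exact T1A_NN_smul (hh0mem j) (hg j)
      have hf1lc : T1A_LC a (t + 1) f1 = 0 := by
        rw [hf1, map_sub, map_sum, hc, sub_eq_zero]
        apply Finset.sum_congr rfl
        intro j _
        rw [T1A_LC_smul (hh0mem j) (hg j).1, hh0lc, hge]
      have hsplit : ∀ i, ∃ q r : MvPolynomial (Fin 2) k, q ∈ Pl k (t + 1 - a i - 1) ∧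
          r ∈ Pl k (t + 1 - a i - 1) ∧ f1 i = X 0 * q + r := fun i =>
        T1A_split (hf1mem.1 i) (congrFun hf1lc i)
      choose q r hq hr hqr using hsplit
      have hqt : ∀ i, q i ∈ Pl k (t - a i) := fun i => T1A_mono (by omega) (hq i)
      have hrt : ∀ i, r i ∈ Pl k (t - a i) := fun i => T1A_mono (by omega) (hr i)
      have hqU : ∑ i, q i • u i ∈ U t := (hU t _).2 ⟨q, hqt, rfl⟩
      have hrU : ∑ i, r i • u i ∈ U t := (hU t _).2 ⟨r, hrt, rfl⟩
      have heq : (X 0 : MvPolynomial (Fin 2) k) • ∑ i, q i • u i = - ∑ i, r i • u i := by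
        rw [eq_neg_iff_add_eq_zero, Finset.smul_sum, ← Finset.sum_add_distrib, ← hf1mem.2]
        apply Finset.sum_congr rfl
        intro i _
        rw [hqr i, add_smul, mul_smul]
      have hX0 : (X 0 : MvPolynomial (Fin 2) k) • ∑ i, q i • u i ∈ U t := by
        rw [heq]
        exact Submodule.neg_mem _ hrU
      have hq1 := hreg t _ hqU hX0
      obtain ⟨q', hq', hqq'⟩ := (hU (t - 1) _).1 hq1
      have hn' : q - q' ∈ T1A_NN a u t := by
        refine ⟨fun i => Submodule.sub_mem _ (hqt i) (T1A_mono (by omega) (hq' i)), ?_⟩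
        simp only [Pi.sub_apply, sub_smul, Finset.sum_sub_distrib]
        rw [hqq', sub_self]
      have hn'' : r + (X 0 : MvPolynomial (Fin 2) k) • q' ∈ T1A_NN a u t := by
        refine ⟨fun i => Submodule.add_mem _ (hrt i) ?_, ?_⟩
        · have h1 := T1A_X_mul 0 (hq' i)
          have h2 : t - 1 - a i + 1 = t - a i := by ring
          rwa [h2] at h1
        · have h1 : ∑ i, (r + (X 0 : MvPolynomial (Fin 2) k) • q') i • u i =
              ∑ i, r i • u i + ∑ i, ((X 0 : MvPolynomial (Fin 2) k) • q') i • u i := by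
            rw [← Finset.sum_add_distrib]
            apply Finset.sum_congr rfl
            intro i _
            rw [Pi.add_apply, add_smul]
          rw [h1, T1A_eps_smul, ← hqq', heq, add_neg_cancel]
      obtain ⟨h1, hh1, hh1'⟩ := ih _ hn'
      obtain ⟨h2, hh2, hh2'⟩ := ih _ hn''
      refine ⟨fun j => h0 j + X 0 * h1 j + h2 j, ?_, ?_⟩
      · intro j
        have h3 := T1A_X_mul 0 (hh1 j)
        have h4 : t - b j + 1 = t + 1 - b j := by ring
        rw [h4] at h3
        exact Submodule.add_mem _ (Submodule.add_mem _ (hh0mem j) h3) (T1A_mono (by omega) (hh2 j))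
      · have h3 : f1 = (X 0 : MvPolynomial (Fin 2) k) • (q - q') +
            (r + (X 0 : MvPolynomial (Fin 2) k) • q') := by
          funext i
          simp only [Pi.add_apply, Pi.smul_apply, Pi.sub_apply, smul_eq_mul]
          rw [hqr i]
          ring
        have h4 : f = ∑ j, h0 j • g j + f1 := by
          rw [hf1]
          abel
        rw [h4, h3, hh1', hh2', Finset.smul_sum, ← Finset.sum_add_distrib, ← Finset.sum_add_distrib]
        apply Finset.sum_congr rfl
        intro j _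
        rw [add_smul, add_smul, mul_smul, add_assoc]

omit [AddCommGroup E] [Module k E] [Module (MvPolynomial (Fin 2) k) E]
  [IsScalarTower k (MvPolynomial (Fin 2) k) E] in
/-- independence of the relations: top degree -/
lemma T1A_ind_aux {m : ℕ} {a : Fin m → ℤ}
    {n : ℕ} {b : Fin n → ℤ} {e : Fin n → Fin m → k} {g : Fin n → Fin m → MvPolynomial (Fin 2) k}
    (he : LinearIndependent k e)
    (hg : ∀ j i, g j i ∈ Pl k (b j - a i)) (hge : ∀ j, T1A_LC a (b j) (g j) = e j)
    {L : ℤ} (hL : ∀ j, L ≤ b j) (t : ℤ) (ht : L - 1 ≤ t) :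
    ∀ h : Fin n → MvPolynomial (Fin 2) k, (∀ j, h j ∈ Pl k (t - b j)) →
      (∀ i, (∑ j, h j • g j) i ∈ Pl k (t - 1 - a i)) → ∀ j, h j ∈ Pl k (t - 1 - b j) := by
  induction t, ht using Int.le_induction with
  | base =>
      intro h hh _ j
      rw [T1A_neg (by have := hL j; omega) (hh j)]
      exact Submodule.zero_mem _
  | succ t ht ih =>
      intro h hh hs
      have h1 : T1A_LC a (t + 1) (∑ j, h j • g j) = 0 := by
        funext i
        exact T1A_lc_low (T1A_mono (by omega) (hs i))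
      have h2 : ∑ j, T1A_lc (t + 1 - b j) (h j) • e j = 0 := by
        rw [← h1, map_sum]
        apply Finset.sum_congr rfl
        intro j _
        rw [T1A_LC_smul (hh j) (hg j), hge]
      have h3 := Fintype.linearIndependent_iff.1 he _ h2
      have hsplit : ∀ j, ∃ q r : MvPolynomial (Fin 2) k, q ∈ Pl k (t + 1 - b j - 1) ∧
          r ∈ Pl k (t + 1 - b j - 1) ∧ h j = X 0 * q + r := fun j => T1A_split (hh j) (h3 j)
      choose q r hq hr hqr using hsplit
      have hqt : ∀ j, q j ∈ Pl k (t - b j) := fun j => T1A_mono (by omega) (hq j)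
      have hrt : ∀ j, r j ∈ Pl k (t - b j) := fun j => T1A_mono (by omega) (hr j)
      have h4 : ∀ i, (∑ j, q j • g j) i ∈ Pl k (t - 1 - a i) := by
        intro i
        have h5 : X 0 * (∑ j, q j • g j) i = (∑ j, h j • g j) i - (∑ j, r j • g j) i := by
          rw [Finset.sum_apply, Finset.sum_apply, Finset.sum_apply, Finset.mul_sum,
            ← Finset.sum_sub_distrib]
          apply Finset.sum_congr rfl
          intro j _
          simp only [Pi.smul_apply, smul_eq_mul]
          rw [hqr j]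
          ring
        have h6 : (∑ j, h j • g j) i - (∑ j, r j • g j) i ∈ Pl k (t - a i) := by
          apply Submodule.sub_mem _ (T1A_mono (by omega) (hs i))
          rw [Finset.sum_apply]
          apply Submodule.sum_mem
          intro j _
          exact T1A_F0_smul (hrt j) (hg j) i
        rw [← h5] at h6
        exact T1A_mono (by omega) (T1A_X0_div h6)
      have h5 := ih q hqt h4
      intro j
      rw [hqr j]
      apply Submodule.add_mem
      · exact T1A_mono (by omega) (T1A_X_mul 0 (h5 j))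
      · exact T1A_mono (by omega) (hr j)

omit [AddCommGroup E] [Module k E] [Module (MvPolynomial (Fin 2) k) E]
  [IsScalarTower k (MvPolynomial (Fin 2) k) E] in
/-- independence of the relations -/
lemma T1A_ind {m : ℕ} {a : Fin m → ℤ}
    {n : ℕ} {b : Fin n → ℤ} {e : Fin n → Fin m → k} {g : Fin n → Fin m → MvPolynomial (Fin 2) k}
    (he : LinearIndependent k e)
    (hg : ∀ j i, g j i ∈ Pl k (b j - a i)) (hge : ∀ j, T1A_LC a (b j) (g j) = e j)
    (h : Fin n → MvPolynomial (Fin 2) k) (hs : ∑ j, h j • g j = 0) : h = 0 := by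
  obtain ⟨L, hL⟩ := (Set.finite_range b).bddBelow
  have hL' : ∀ j, L ≤ b j := fun j => hL ⟨j, rfl⟩
  have hex : ∀ j, ∃ t : ℤ, h j ∈ Pl k t := fun j => T1A_exists (h j)
  choose D hD using hex
  obtain ⟨M, hM⟩ := (Set.finite_range fun j => D j + b j).bddAbove
  have hM' : ∀ j, D j + b j ≤ M := fun j => hM ⟨j, rfl⟩
  have key : ∀ l : ℕ, ∀ j, h j ∈ Pl k (M - l - b j) := by
    intro l
    induction l with
    | zero => exact fun j => T1A_mono (by have := hM' j; push_cast; omega) (hD j)
    | succ l ih =>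
        intro j
        by_cases hlt : L - 1 ≤ M - l
        · have := T1A_ind_aux he hg hge hL' (M - l) hlt h ih (fun i => by
            rw [hs]
            exact Submodule.zero_mem _) j
          exact T1A_mono (by push_cast; omega) this
        · rw [T1A_neg (by have := hL' j; omega) (ih j)]
          exact Submodule.zero_mem _
  funext j
  have h1 := key (M - b j + 1).toNat j
  exact T1A_neg (by omega) h1

end T1Amod

/-- **Task T1A.** Filtered modules over `k[y1,y2]` of depth two have a filtered free resolution of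
length one. -/
theorem T1A {k E : Type} [Field k] [AddCommGroup E] [Module k E]
    [Module (MvPolynomial (Fin 2) k) E] [IsScalarTower k (MvPolynomial (Fin 2) k) E]
    (U : ℤ → Submodule k E) (hfd : ∀ t, Module.Finite k (U t))
    (hmono : ∀ t, U t ≤ U (t + 1))
    (hX : ∀ (i : Fin 2) t, ∀ x ∈ U t, (X i : MvPolynomial (Fin 2) k) • x ∈ U (t + 1))
    (hbot : ∃ t0 : ℤ, ∀ t < t0, U t = ⊥)
    (hfg : ∃ t0 : ℤ, ∀ t ≥ t0, ∀ x ∈ U (t + 1), ∃ a ∈ U t, ∃ b ∈ U t, ∃ c ∈ U t,
      x = a + (X 0 : MvPolynomial (Fin 2) k) • b + (X 1 : MvPolynomial (Fin 2) k) • c)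
    (hreg : ∀ t, ∀ x ∈ U t, (X 0 : MvPolynomial (Fin 2) k) • x ∈ U t → x ∈ U (t - 1)) :
    ∃ (m n : ℕ) (a : Fin m → ℤ) (b : Fin n → ℤ) (u : Fin m → E)
      (g : Fin n → Fin m → MvPolynomial (Fin 2) k),
      (∀ j i, g j i ∈ Pl k (b j - a i)) ∧
      (∀ (t : ℤ) (x : E), x ∈ U t ↔ ∃ f : Fin m → MvPolynomial (Fin 2) k,
        (∀ i, f i ∈ Pl k (t - a i)) ∧ x = ∑ i, f i • u i) ∧
      (∀ (t : ℤ) (f : Fin m → MvPolynomial (Fin 2) k), (∀ i, f i ∈ Pl k (t - a i)) →
        ∑ i, f i • u i = 0 → ∃ h : Fin n → MvPolynomial (Fin 2) k,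
          (∀ j, h j ∈ Pl k (t - b j)) ∧ f = ∑ j, h j • g j) ∧
      (∀ j, ∑ i, g j i • u i = 0) ∧
      (∀ h : Fin n → MvPolynomial (Fin 2) k, ∑ j, h j • g j = 0 → h = 0) := by
  obtain ⟨m, a, u, hU⟩ := T1A_gen hfd hmono hX hbot hfg
  obtain ⟨L, hL⟩ := (Set.finite_range a).bddBelow
  have hL' : ∀ i, L ≤ a i := fun i => hL ⟨i, rfl⟩
  have hN0 : ∀ t < L, ∀ f ∈ T1A_NN (k := k) a u t, f = 0 := by
    rintro t ht f ⟨hf, -⟩
    funext i
    exact T1A_neg (by have := hL' i; omega) (hf i)
  obtain ⟨n, b, e, he, heV, hV⟩ := T1A_filt (fun t => (T1A_NN (k := k) a u t).map (T1A_LC a t)) (by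
    rintro t x ⟨f, hf, rfl⟩
    refine ⟨(X 1 : MvPolynomial (Fin 2) k) • f, ?_, ?_⟩
    · apply T1A_NN_smul _ hf
      have h1 : t + 1 - t = 1 := by ring
      rw [h1]
      simpa using T1A_X1_pow (k := k) 1
    · have h1 : (t + 1 - t : ℤ) = ((1 : ℕ) : ℤ) := by push_cast; ring
      have h2 : (X 1 : MvPolynomial (Fin 2) k) ∈ Pl k (t + 1 - t) := by
        rw [h1]
        simpa using T1A_X1_pow (k := k) 1
      rw [T1A_LC_smul h2 hf.1, h1]
      have h3 := T1A_lc_X1_pow (k := k) 1
      rw [pow_one] at h3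
      rw [h3, one_smul]) ⟨L, fun t ht => by
    rw [eq_bot_iff]
    rintro x ⟨f, hf, rfl⟩
    rw [hN0 t ht f hf, map_zero]
    exact Submodule.zero_mem _⟩
  choose g hg hge using heV
  refine ⟨m, n, a, b, u, g, fun j i => (hg j).1 i, hU, ?_, fun j => (hg j).2, ?_⟩
  · intro t f hf hfs
    by_cases ht : L - 1 ≤ t
    · exact T1A_rel_gen hU hreg hg hge hV hL' t ht f ⟨hf, hfs⟩
    · refine ⟨0, fun j => Submodule.zero_mem _, ?_⟩
      rw [hN0 t (by omega) f ⟨hf, hfs⟩]
      simp
  · exact T1A_ind he (fun j i => (hg j).1 i) hge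

end

end Pool.Agent.H54R2.Ul
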