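import Pool.Agent.H54R2.Ul.Defs3

namespace Pool.Agent.H54R2.Ul

open MvPolynomial

noncomputable section

variable {k K : Type} [Field k] [Field K] [Algebra k K]

/-- the span of the rows belonging to words of length at most `n` -/
def V1_V (D1 D2 : Derivation k K K) {ρ : ℕ} (q : Fin ρ → K) (n : ℕ) :
    Submodule K (Fin ρ → K) :=
  Submodule.span K {v | ∃ w : List Bool, w.length ≤ n ∧ v = fun l => Dw D1 D2 w (q l)}

lemma V1_V_mono (D1 D2 : Derivation k K K) {ρ : ℕ} (q : Fin ρ → K) (n : ℕ) :
    V1_V D1 D2 q n ≤ V1_V D1 D2 q (n + 1) := by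
  apply Submodule.span_mono
  rintro v ⟨w, hw, rfl⟩
  exact ⟨w, by omega, rfl⟩

lemma V1_mem (D1 D2 : Derivation k K K) {ρ : ℕ} (q : Fin ρ → K) (n : ℕ) :
    q ∈ V1_V D1 D2 q n :=
  Submodule.subset_span ⟨[], by simp, by funext l; rfl⟩

lemma V1_D (D1 D2 : Derivation k K K) {ρ : ℕ} (q : Fin ρ → K) (n : ℕ) (b : Bool)
    (v : Fin ρ → K) (hv : v ∈ V1_V D1 D2 q n) :
    (fun l => (if b then D1 else D2) (v l)) ∈ V1_V D1 D2 q (n + 1) := by
  unfold V1_V at hv
  induction hv using Submodule.span_induction with
  | mem x hx =>
      obtain ⟨w, hw, rfl⟩ := hx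
      refine Submodule.subset_span ⟨b :: w, by simp; omega, ?_⟩
      funext l
      cases b <;> simp [Dw]
  | zero =>
      have : (fun l : Fin ρ => (if b then D1 else D2) ((0 : Fin ρ → K) l)) = 0 := by
        funext l; simp
      rw [this]; exact Submodule.zero_mem _
  | add x y _ _ hx hy =>
      have : (fun l : Fin ρ => (if b then D1 else D2) ((x + y) l)) =
        (fun l => (if b then D1 else D2) (x l)) + (fun l => (if b then D1 else D2) (y l)) := by
        funext l; simp
      rw [this]; exact Submodule.add_mem _ hx hy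
  | smul a x hx' hx =>
      have : (fun l : Fin ρ => (if b then D1 else D2) ((a • x) l)) =
        a • (fun l => (if b then D1 else D2) (x l)) + ((if b then D1 else D2) a) • x := by
        funext l
        simp [Derivation.leibniz, mul_comm]
      rw [this]
      refine Submodule.add_mem _ (Submodule.smul_mem _ _ hx) (Submodule.smul_mem _ _ ?_)
      exact V1_V_mono D1 D2 q n hx'

/-- a `D`-stable subspace containing a vector without constant relations is everything -/
lemma V1_stable (p : ℕ) [Fact p.Prime] (D1 D2 : Derivation k K K)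
    (hconst : ∀ x : K, D1 x = 0 → D2 x = 0 → ∃ y : K, y ^ p = x)
    {ρ : ℕ} (q : Fin ρ → K) (hq : ∀ x : Fin ρ → K, ∑ l, x l ^ p * q l = 0 → x = 0)
    (V : Submodule K (Fin ρ → K)) (hqV : q ∈ V)
    (hV : ∀ (b : Bool) (v : Fin ρ → K), v ∈ V → (fun l => (if b then D1 else D2) (v l)) ∈ V) :
    V = ⊤ := by
  classical
  by_contra hne
  obtain ⟨f, hf0, hf⟩ := Submodule.exists_le_ker_of_lt_top V (lt_top_iff_ne_top.2 hne)
  have key : ∀ n : ℕ, ∀ x : Fin ρ → K, (∀ v ∈ V, ∑ l, x l * v l = 0) → x ≠ 0 →
      (Finset.univ.filter fun l => x l ≠ 0).card = n → False := by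
    intro n
    induction n using Nat.strong_induction_on with
    | _ n ih =>
      intro x hx hx0 hn
      obtain ⟨l0, hl0⟩ : ∃ l, x l ≠ 0 := by
        by_contra h
        push Not at h
        exact hx0 (funext h)
      set y : Fin ρ → K := fun l => (x l0)⁻¹ * x l with hy
      have hyl0 : y l0 = 1 := by simp [hy, hl0]
      have hyV : ∀ v ∈ V, ∑ l, y l * v l = 0 := by
        intro v hv
        have := hx v hv
        have e : ∑ l, y l * v l = (x l0)⁻¹ * ∑ l, x l * v l := by
          rw [Finset.mul_sum]
          exact Finset.sum_congr rfl fun l _ => by simp [hy]; ring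
        rw [e, this, mul_zero]
      have hD : ∀ b : Bool, ∀ l, (if b then D1 else D2) (y l) = 0 := by
        intro b
        by_contra hcon
        push Not at hcon
        obtain ⟨l1, hl1⟩ := hcon
        have h1 : ∀ v ∈ V, ∑ l, (fun l => (if b then D1 else D2) (y l)) l * v l = 0 := by
          intro v hv
          have h2 := hyV v hv
          have h3 := hyV _ (hV b v hv)
          have h4 : (if b then D1 else D2) (∑ l, y l * v l) = 0 := by rw [h2]; simp
          rw [map_sum] at h4
          have h5 : ∑ l, (if b then D1 else D2) (y l * v l) =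
              ∑ l, y l * (if b then D1 else D2) (v l) +
              ∑ l, (if b then D1 else D2) (y l) * v l := by
            rw [← Finset.sum_add_distrib]
            exact Finset.sum_congr rfl fun l _ => by
              rw [Derivation.leibniz, smul_eq_mul, smul_eq_mul, mul_comm (v l)]
          rw [h5, h3, zero_add] at h4
          exact h4
        refine ih _ ?_ (fun l => (if b then D1 else D2) (y l)) h1 ?_ rfl
        · rw [← hn]
          apply Finset.card_lt_card
          rw [Finset.ssubset_iff_of_subset]
          · refine ⟨l0, by simp [hl0], ?_⟩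
            simp [hyl0]
          · intro l hl
            simp only [Finset.mem_filter, Finset.mem_univ, true_and] at hl ⊢
            intro hxl
            apply hl
            simp [hy, hxl]
        · intro h0
          exact hl1 (congrFun h0 l1)
      have hu : ∀ l, ∃ u : K, u ^ p = y l := fun l =>
        hconst (y l) (by simpa using hD true l) (by simpa using hD false l)
      choose u hu using hu
      have h6 := hq u (by
        have := hyV q hqV
        simpa [hu] using this)
      have h7 := hu l0
      rw [h6, hyl0] at h7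
      simp [(Fact.out : p.Prime).ne_zero] at h7
  have hx : ∀ v ∈ V, ∑ l, (fun l => f (Pi.single l 1)) l * v l = 0 := by
    intro v hv
    have h1 : f v = 0 := hf hv
    rw [← h1]
    conv_rhs => rw [pi_eq_sum_univ' v, map_sum]
    refine Finset.sum_congr rfl fun l _ => ?_
    rw [map_smul, smul_eq_mul, mul_comm]
  refine key _ _ hx ?_ rfl
  intro h0
  apply hf0
  apply LinearMap.pi_ext'
  intro l
  ext
  simpa using congrFun h0 l

/-- **Task V1.** Generalised Wronskians in characteristic `p`. -/
theorem V1 (p : ℕ) [Fact p.Prime] [CharP k p] (D1 D2 : Derivation k K K)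
    (hconst : ∀ x : K, D1 x = 0 → D2 x = 0 → ∃ y : K, y ^ p = x)
    {ρ : ℕ} (q : Fin ρ → K) (hq : ∀ x : Fin ρ → K, ∑ l, x l ^ p * q l = 0 → x = 0) :
    ∃ w : Fin ρ → List Bool, (∀ i, (w i).length ≤ ρ) ∧
      Matrix.det (Matrix.of fun i l => Dw D1 D2 (w i) (q l)) ≠ 0 := by
  classical
  have hgrow : ∀ n : ℕ, V1_V D1 D2 q n ≠ ⊤ → n + 1 ≤ Module.finrank K (V1_V D1 D2 q n) := by
    intro n
    induction n with
    | zero =>
        intro h
        rw [Nat.succ_le_iff, Module.finrank_pos_iff_exists_ne_zero]
        refine ⟨⟨q, V1_mem D1 D2 q 0⟩, ?_⟩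
        intro h0
        have hq0 : q = 0 := by simpa using congrArg Subtype.val h0
        have h1 := hq 1 (by simp [hq0])
        apply h
        rw [eq_top_iff]
        intro v _
        have : v = 0 := by
          funext l
          have := congrFun h1 l
          simp at this
        rw [this]; exact Submodule.zero_mem _
    | succ n ih =>
        intro h
        have h1 : V1_V D1 D2 q n ≠ ⊤ := by
          intro h2
          exact h (top_le_iff.1 (h2 ▸ V1_V_mono D1 D2 q n))
        have h2 : V1_V D1 D2 q n < V1_V D1 D2 q (n + 1) := by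
          refine lt_of_le_of_ne (V1_V_mono D1 D2 q n) ?_
          intro heq
          apply h1
          refine V1_stable p D1 D2 hconst q hq _ (V1_mem D1 D2 q n) ?_
          intro b v hv
          have := V1_D D1 D2 q n b v hv
          rwa [← heq] at this
        have h3 := Submodule.finrank_lt_finrank_of_lt h2
        have h4 := ih h1
        omega
  have htop : V1_V D1 D2 q ρ = ⊤ := by
    by_contra h
    have h1 := hgrow ρ h
    have h2 := Submodule.finrank_le (V1_V D1 D2 q ρ)
    rw [Module.finrank_fin_fun] at h2
    omega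
  obtain ⟨b, hbs, hbspan, hbli⟩ := exists_linearIndependent K
    {v : Fin ρ → K | ∃ w : List Bool, w.length ≤ ρ ∧ v = fun l => Dw D1 D2 w (q l)}
  have hspan : Submodule.span K b = ⊤ := hbspan.trans htop
  have hfin : Finite b := hbli.finite
  have := Fintype.ofFinite b
  let B : Module.Basis b K (Fin ρ → K) := Module.Basis.mk hbli (by
    rw [Subtype.range_coe]; exact hspan.ge)
  have hcard : Fintype.card b = ρ := by
    have := Module.finrank_eq_card_basis B
    rw [Module.finrank_fin_fun] at this
    exact this.symm
  let e : Fin ρ ≃ b := (Fintype.equivFinOfCardEq hcard).symm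
  have hw : ∀ i : Fin ρ, ∃ w : List Bool, w.length ≤ ρ ∧
      (e i : Fin ρ → K) = fun l => Dw D1 D2 w (q l) := fun i => hbs (e i).2
  choose w hw1 hw2 using hw
  refine ⟨w, hw1, ?_⟩
  have hli : LinearIndependent K (fun i : Fin ρ => (e i : Fin ρ → K)) := hbli.comp e e.injective
  have hM : (Matrix.of fun i l => Dw D1 D2 (w i) (q l)) =
      Matrix.of (fun i : Fin ρ => (e i : Fin ρ → K)) := by
    ext i l
    simp [hw2]
  rw [hM]
  have hu : IsUnit (Matrix.of (fun i : Fin ρ => (e i : Fin ρ → K))) :=
    Matrix.linearIndependent_rows_iff_isUnit.1 hli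
  exact ((Matrix.isUnit_iff_isUnit_det _).1 hu).ne_zero

end

end Pool.Agent.H54R2.Ul
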