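import Pool.Agent.H54R2.Ul.Defs3
import Pool.Agent.H54R2.Ul.St.V1
import Pool.Agent.H54R2.Ul.St.GROW
import Pool.Agent.H54R2.Ul.St.DIMLAT

namespace Pool.Agent.H54R2.Ul

open MvPolynomial

noncomputable section

variable {k K : Type} [Field k] [Field K] [Algebra k K]

lemma V4_mono (G : Fil k K) {s t : ℤ} (h : s ≤ t) : G.R s ≤ G.R t := by
  obtain ⟨n, rfl⟩ : ∃ n : ℕ, t = s + n := ⟨(t - s).toNat, by omega⟩
  clear h
  induction n with
  | zero => simp
  | succ n ih =>
      refine ih.trans ((G.mono _).trans (le_of_eq ?_))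
      push_cast; ring_nf

lemma V4_pow (G : Fil k K) {s : ℤ} {x : K} (hx : x ∈ G.R s) (n : ℕ) :
    x ^ n ∈ G.R (n * s) := by
  induction n with
  | zero => simpa using G.one_mem
  | succ n ih =>
      rw [pow_succ]
      have h := G.mul_mem ih hx
      have e : (n : ℤ) * s + s = ((n + 1 : ℕ) : ℤ) * s := by push_cast; ring
      rwa [e] at h

lemma V4_AA_le (G : Fil k K) (t : ℤ) : AA k G.Y1 G.Y2 t ≤ G.R t := by
  unfold AA
  rw [Submodule.span_le]
  rintro x ⟨i, j, hij, rfl⟩
  have h := G.mul_mem (G.pow_mem G.Y1_mem i) (G.pow_mem G.Y2_mem j)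
  exact V4_mono G hij h

lemma V4_AA_mul {Y1 Y2 : K} {s t : ℤ} {x y : K} (hx : x ∈ AA k Y1 Y2 s) (hy : y ∈ AA k Y1 Y2 t) :
    x * y ∈ AA k Y1 Y2 (s + t) := by
  have h : AA k Y1 Y2 s ≤ (AA k Y1 Y2 (s + t)).comap (LinearMap.mulRight k y) := by
    conv_lhs => rw [AA]
    rw [Submodule.span_le]
    rintro _ ⟨i, j, hij, rfl⟩
    have h' : AA k Y1 Y2 t ≤
        (AA k Y1 Y2 (s + t)).comap (LinearMap.mulLeft k (Y1 ^ i * Y2 ^ j)) := by
      conv_lhs => rw [AA]
      rw [Submodule.span_le]
      rintro _ ⟨i', j', hij', rfl⟩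
      refine Submodule.subset_span ⟨i + i', j + j', by push_cast; omega, ?_⟩
      simp only [LinearMap.mulLeft_apply]
      ring
    exact h' hy
  exact h hx

lemma V4_den (G : Geo k K) {ι : Type} [Fintype ι] (x : ι → K) :
    ∃ (m : ℤ) (e : K), e ≠ 0 ∧ e ∈ G.R m ∧ ∀ i, e * x i ∈ G.R m := by
  classical
  suffices h : ∀ s : Finset ι, ∃ (m : ℤ) (e : K), e ≠ 0 ∧ e ∈ G.R m ∧ ∀ i ∈ s, e * x i ∈ G.R m by
    obtain ⟨m, e, h1, h2, h3⟩ := h Finset.univ
    exact ⟨m, e, h1, h2, fun i => h3 i (Finset.mem_univ i)⟩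
  intro s
  induction s using Finset.induction_on with
  | empty => exact ⟨0, 1, one_ne_zero, G.one_mem, by simp⟩
  | insert a s ha ih =>
      obtain ⟨m, e, h1, h2, h3⟩ := ih
      obtain ⟨t, u, hu, v, hv, hv0, hx⟩ := G.frac (x a)
      refine ⟨m + t, e * v, mul_ne_zero h1 hv0, G.mul_mem h2 hv, ?_⟩
      intro i hi
      rcases Finset.mem_insert.1 hi with rfl | hi
      · rw [hx]
        have : e * v * (u / v) = e * u := by field_simp
        rw [this]
        exact G.mul_mem h2 hu
      · have : e * v * x i = (e * x i) * v := by ring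
        rw [this]
        exact G.mul_mem (h3 i hi) hv

lemma V4_det (G : Fil k K) {n : ℕ} (M : Matrix (Fin n) (Fin n) K) (s : Fin n → ℤ)
    (h : ∀ i j, M i j ∈ G.R (s j)) : M.det ∈ G.R (∑ j, s j) := by
  classical
  rw [Matrix.det_apply]
  refine Submodule.sum_mem _ fun σ _ => ?_
  have h1 : ∀ A : Finset (Fin n), ∏ i ∈ A, M (σ i) i ∈ G.R (∑ j ∈ A, s j) := by
    intro A
    induction A using Finset.induction_on with
    | empty => simpa using G.one_mem
    | insert a A ha ih =>
        rw [Finset.prod_insert ha, Finset.sum_insert ha]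
        exact G.mul_mem (h _ _) ih
  have h2 := h1 Finset.univ
  rcases Int.units_eq_one_or (Equiv.Perm.sign σ) with h3 | h3
  · rw [h3, one_smul]; exact h2
  · rw [h3, Units.neg_smul, one_smul]; exact Submodule.neg_mem _ h2

lemma V4_Dw (p : ℕ) [CharP K p] (D1 D2 : Derivation k K K) (w : List Bool) {n : ℕ}
    (x q : Fin n → K) :
    Dw D1 D2 w (∑ l, x l ^ p * q l) = ∑ l, Dw D1 D2 w (q l) * x l ^ p := by
  have hD : ∀ (D : Derivation k K K) (y : Fin n → K),
      D (∑ l, y l * x l ^ p) = ∑ l, D (y l) * x l ^ p := by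
    intro D y
    rw [map_sum]
    refine Finset.sum_congr rfl fun l _ => ?_
    rw [Derivation.leibniz, Derivation.leibniz_pow]
    simp [mul_comm]
  induction w with
  | nil =>
      simp only [Dw]
      exact Finset.sum_congr rfl fun l _ => mul_comm _ _
  | cons b w ih =>
      cases b
      · simp only [Dw, Bool.false_eq_true, if_false]
        rw [ih, hD]
      · simp only [Dw, if_true]
        rw [ih, hD]

lemma V4_Dw_mem (G : Fil k K) (D1 D2 : Derivation k K K)
    (hD : ∀ (t : ℤ) (x : K), x ∈ G.R t → D1 x ∈ G.R (t + 20) ∧ D2 x ∈ G.R (t + 20))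
    (w : List Bool) (t : ℤ) (x : K) (hx : x ∈ G.R t) :
    Dw D1 D2 w x ∈ G.R (t + 20 * w.length) := by
  induction w with
  | nil => simpa [Dw] using hx
  | cons b w ih =>
      have e : t + 20 * (w.length : ℤ) + 20 = t + 20 * ((b :: w).length : ℤ) := by
        simp only [List.length_cons]; push_cast; ring
      cases b
      · simp only [Dw, Bool.false_eq_true, if_false]
        have := (hD _ _ ih).2
        rwa [e] at this
      · simp only [Dw, if_true]
        have := (hD _ _ ih).1
        rwa [e] at this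

/-- a spanning family of vectors contains a basis -/
lemma V4_basis {F V : Type} [Field F] [AddCommGroup V] [Module F V] [Module.Finite F V]
    {N : ℕ} (v : Fin N → V) (hv : Submodule.span F (Set.range v) = ⊤) :
    ∃ (idx : Fin (Module.finrank F V) → Fin N) (B : Module.Basis (Fin (Module.finrank F V)) F V),
      ∀ l, B l = v (idx l) := by
  classical
  obtain ⟨b, hbs, hbspan, hbli⟩ := exists_linearIndependent F (Set.range v)
  have hspan : Submodule.span F b = ⊤ := hbspan.trans hv
  have hfin : Finite b := hbli.finite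
  have := Fintype.ofFinite b
  let B : Module.Basis b F V := Module.Basis.mk hbli (by
    rw [Subtype.range_coe]; exact hspan.ge)
  have hcard : Fintype.card b = Module.finrank F V := (Module.finrank_eq_card_basis B).symm
  let e : Fin (Module.finrank F V) ≃ b := (Fintype.equivFinOfCardEq hcard).symm
  have hw : ∀ i, ∃ j, v j = (e i : V) := fun i => hbs (e i).2
  choose idx hidx using hw
  refine ⟨idx, B.reindex e.symm, fun l => ?_⟩
  rw [Module.Basis.reindex_apply, Equiv.symm_symm, Module.Basis.mk_apply, hidx]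

/-- **Task V4.** Forms of small degree on the Frobenius pullback vanish. -/
theorem V4 [IsAlgClosed k] (p : ℕ) [Fact p.Prime] [CharP k p] (G : Geo k K)
    (hder : HasDer G.toFil p) {N r : ℕ} (c : Fin N → Fin r → K) (hc : IsDatum G.toFil c)
    (t : ℤ) (w : Fin r → K) (hw : w ∈ W1 G.toFil p c t) (hw0 : w ≠ 0) :
    4 * (p : ℤ) ≤ t + 20 * r := by
  classical
  have hpp : p.Prime := Fact.out
  haveI hKp : CharP K p := charP_of_injective_algebraMap (algebraMap k K).injective p
  obtain ⟨D1, D2, hD, hconst⟩ := hder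
  -- the semilinear form
  let L : (Fin r → K) →+ K :=
    { toFun := fun x => ∑ j, x j ^ p * w j
      map_zero' := by simp [hpp.ne_zero]
      map_add' := by
        intro x y
        rw [← Finset.sum_add_distrib]
        refine Finset.sum_congr rfl fun j _ => ?_
        rw [Pi.add_apply, add_pow_char]; ring }
  have hL : ∀ x, L x = ∑ j, x j ^ p * w j := fun x => rfl
  have hLs : ∀ (a : K) x, L (a • x) = a ^ p * L x := by
    intro a x
    rw [hL, hL, Finset.mul_sum]
    exact Finset.sum_congr rfl fun j _ => by simp [mul_pow]; ring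
  let Z : Submodule K (Fin r → K) :=
    { carrier := {x | L x = 0}
      add_mem' := by
        intro a b ha hb
        simp only [Set.mem_setOf_eq] at ha hb ⊢
        rw [map_add, ha, hb, add_zero]
      zero_mem' := by simp
      smul_mem' := by
        intro a x hx
        simp only [Set.mem_setOf_eq] at hx ⊢
        rw [hLs, hx, mul_zero] }
  have hZ : ∀ x, x ∈ Z ↔ L x = 0 := fun x => Iff.rfl
  -- the `c i` span over `K`
  have hspanK : Submodule.span K (Set.range c) = ⊤ := by
    rw [eq_top_iff]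
    intro x _
    have hx : x ∈ Submodule.span (FF k G.Y1 G.Y2) (Set.range c) := by rw [hc.span]; trivial
    exact Submodule.span_le_restrictScalars (FF k G.Y1 G.Y2) K (Set.range c) hx
  set ρ := Module.finrank K ((Fin r → K) ⧸ Z) with hρdef
  have hspanQ : Submodule.span K (Set.range fun i => Z.mkQ (c i)) = ⊤ := by
    have : (Set.range fun i => Z.mkQ (c i)) = Z.mkQ '' (Set.range c) := by
      rw [← Set.range_comp]; rfl
    rw [this, ← Submodule.map_span, hspanK, Submodule.map_top, Submodule.range_mkQ]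
  obtain ⟨idx, B, hB⟩ := V4_basis (fun i => Z.mkQ (c i)) hspanQ
  let π : (Fin r → K) →ₗ[K] (Fin ρ → K) := B.equivFun.toLinearMap ∘ₗ Z.mkQ
  have hπ0 : ∀ x, π x = 0 ↔ L x = 0 := by
    intro x
    rw [← hZ]
    simp [π]
  have hπidx : ∀ l, π (c (idx l)) = Pi.single l 1 := by
    intro l
    have h1 : Z.mkQ (c (idx l)) = B l := (hB l).symm
    simp only [π, LinearMap.comp_apply, h1, LinearEquiv.coe_coe]
    funext j
    rw [Module.Basis.equivFun_self]
    simp [Pi.single_apply, eq_comm]
  have hπsum : ∀ v : Fin ρ → K, π (∑ l, v l • c (idx l)) = v := by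
    intro v
    rw [map_sum]
    funext j
    simp [hπidx, Finset.sum_apply, Pi.single_apply]
  set q : Fin ρ → K := fun l => L (c (idx l)) with hqdef
  have hq_mem : ∀ i, L (c i) ∈ G.R t := by
    intro i
    have h1 := hw i
    have h2 : L (c i) = ∑ j, w j * c i j ^ p := by
      rw [hL]; exact Finset.sum_congr rfl fun j _ => mul_comm _ _
    rw [h2]; exact h1
  have hLsum : ∀ v : Fin ρ → K, L (∑ l, v l • c (idx l)) = ∑ l, v l ^ p * q l := by
    intro v
    rw [map_sum]
    exact Finset.sum_congr rfl fun l _ => hLs _ _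
  have hLπ : ∀ x, L x = ∑ l, (π x l) ^ p * q l := by
    intro x
    rw [← hLsum]
    have h1 : π (x - ∑ l, π x l • c (idx l)) = 0 := by
      rw [map_sub, hπsum, sub_self]
    have h2 := (hπ0 _).1 h1
    rw [map_sub] at h2
    exact sub_eq_zero.1 h2
  have hq : ∀ y : Fin ρ → K, ∑ l, y l ^ p * q l = 0 → y = 0 := by
    intro y hy
    rw [← hLsum, ← hπ0, hπsum] at hy
    exact hy
  have hρpos : 0 < ρ := by
    rcases Nat.eq_zero_or_pos ρ with h0 | h0
    · exfalso
      apply hw0
      funext j
      have h1 : π (Pi.single j 1) = 0 := by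
        funext l
        exact absurd l.2 (by omega)
      have h2 := (hπ0 _).1 h1
      rw [hL, Finset.sum_eq_single j] at h2
      · simpa using h2
      · intro b _ hb; simp [hb, hpp.ne_zero]
      · intro h; exact absurd (Finset.mem_univ _) h
    · exact h0
  have hρr : ρ ≤ r := by
    have h1 := Submodule.finrank_quotient_le Z
    rw [Module.finrank_fin_fun] at h1
    exact h1
  -- the Wronskian
  obtain ⟨wd, hwd, hW⟩ := V1 p D1 D2 hconst q hq
  set W := Matrix.det (Matrix.of fun i l => Dw D1 D2 (wd i) (q l)) with hWdef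
  -- the lattice
  let Φ : (Fin N → K) →ₗ[k] (Fin ρ → K) :=
    { toFun := fun g => π (∑ j, g j • c j)
      map_add' := by
        intro g h
        rw [← map_add, ← Finset.sum_add_distrib]
        congr 1
        exact Finset.sum_congr rfl fun j _ => by rw [Pi.add_apply, add_smul]
      map_smul' := by
        intro a g
        have h1 : ∑ j, (a • g) j • c j = (algebraMap k K a) • ∑ j, g j • c j := by
          rw [Finset.smul_sum]
          exact Finset.sum_congr rfl fun j _ => by
            rw [Pi.smul_apply, Algebra.smul_def a (g j), mul_smul]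
        rw [h1, map_smul, RingHom.id_apply, algebraMap_smul] }
  have hΦ : ∀ g, Φ g = π (∑ j, g j • c j) := fun g => rfl
  let Q : ℤ → Submodule k (Fin ρ → K) := fun s =>
    (Submodule.pi Set.univ fun _ : Fin N => AA k G.Y1 G.Y2 s).map Φ
  have hQ : ∀ s v, v ∈ Q s ↔ ∃ g : Fin N → K, (∀ j, g j ∈ AA k G.Y1 G.Y2 s) ∧
      v = π (∑ j, g j • c j) := by
    intro s v
    simp only [Q, Submodule.mem_map, Submodule.mem_pi, Set.mem_univ, true_implies]
    constructor
    · rintro ⟨g, h1, h2⟩; exact ⟨g, h1, by rw [← h2, hΦ]⟩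
    · rintro ⟨g, h1, h2⟩; exact ⟨g, h1, by rw [h2, hΦ]⟩
  have hmul : ∀ (s t : ℤ) (a : K) (v : Fin ρ → K), a ∈ G.R s → v ∈ Q t → a • v ∈ Q (s + t) := by
    intro s u a v ha hv
    obtain ⟨g, hg, rfl⟩ := (hQ u v).1 hv
    have h1 := fun j => hc.act s a ha j
    choose h hh1 hh2 using h1
    rw [hQ]
    refine ⟨fun i => ∑ j, g j * h j i, ?_, ?_⟩
    · intro i
      refine Submodule.sum_mem _ fun j _ => ?_
      have := V4_AA_mul (hg j) (hh1 j i)
      rwa [add_comm] at this
    · rw [← map_smul, Finset.smul_sum]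
      congr 1
      have h3 : ∀ j, a • g j • c j = ∑ i, (g j * h j i) • c i := by
        intro j
        rw [smul_comm, hh2 j, Finset.smul_sum]
        exact Finset.sum_congr rfl fun i _ => by rw [mul_smul]
      rw [Finset.sum_congr rfl fun j _ => h3 j, Finset.sum_comm]
      exact Finset.sum_congr rfl fun i _ => by rw [Finset.sum_smul]
  have hstd : ∀ (s : ℤ) (v : Fin ρ → K), (∀ i, v i ∈ G.R s) → v ∈ Q s := by
    intro s v hv
    have h1 := fun l => hc.act s (v l) (hv l) (idx l)
    choose h hh1 hh2 using h1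
    rw [hQ]
    refine ⟨fun j => ∑ l, h l j, fun j => Submodule.sum_mem _ fun l _ => hh1 l j, ?_⟩
    rw [← hπsum v]
    congr 1
    rw [Finset.sum_congr rfl fun l _ => hh2 l, Finset.sum_comm]
    exact Finset.sum_congr rfl fun i _ => by rw [Finset.sum_smul]
  have hden : ∃ (m : ℤ) (e : K), e ≠ 0 ∧ e ∈ G.R m ∧
      ∀ (s : ℤ) (v : Fin ρ → K), v ∈ Q s → ∀ i, e * v i ∈ G.R (s + m) := by
    obtain ⟨m, e, h1, h2, h3⟩ := V4_den G (fun x : Fin N × Fin ρ => π (c x.1) x.2)
    refine ⟨m, e, h1, h2, ?_⟩
    intro s v hv i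
    obtain ⟨g, hg, rfl⟩ := (hQ s v).1 hv
    have h4 : e * π (∑ j, g j • c j) i = ∑ j, g j * (e * π (c j) i) := by
      rw [map_sum, Finset.sum_apply, Finset.mul_sum]
      refine Finset.sum_congr rfl fun j _ => ?_
      rw [map_smul, Pi.smul_apply, smul_eq_mul]; ring
    rw [h4]
    refine Submodule.sum_mem _ fun j _ => ?_
    exact G.mul_mem (V4_AA_le G.toFil s (hg j)) (h3 (j, i))
  set ω : ℤ := ρ * t + 20 * ρ ^ 2 with hω
  have hLQ : ∀ s v, v ∈ Q s → ∑ l, v l ^ p * q l ∈ G.R (p * s + t) := by
    intro s v hv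
    obtain ⟨g, hg, rfl⟩ := (hQ s v).1 hv
    rw [← hLπ, map_sum]
    refine Submodule.sum_mem _ fun j _ => ?_
    rw [hLs]
    exact G.mul_mem (V4_pow G.toFil (V4_AA_le G.toFil s (hg j)) p) (hq_mem j)
  have hdet : ∀ (s : Fin ρ → ℤ) (v : Fin ρ → Fin ρ → K), (∀ i, v i ∈ Q (s i)) →
      W * (Matrix.det (Matrix.of v)) ^ p ∈ G.R (ω + p * ∑ i, s i) := by
    intro s v hv
    have h1 : (Matrix.det (Matrix.of v)) ^ p =
        Matrix.det (Matrix.of fun l j => v j l ^ p) := by
      have h2 := RingHom.map_det (frobenius K p) (Matrix.of v)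
      rw [frobenius_def] at h2
      rw [h2, ← Matrix.det_transpose]
      congr 1
    rw [h1, hWdef, ← Matrix.det_mul]
    have h3 := V4_det G.toFil ((Matrix.of fun i l => Dw D1 D2 (wd i) (q l)) *
      (Matrix.of fun l j => v j l ^ p)) (fun j => p * s j + t + 20 * ρ) (by
        intro i j
        rw [Matrix.mul_apply]
        simp only [Matrix.of_apply]
        rw [← V4_Dw p]
        refine V4_mono G.toFil ?_ (V4_Dw_mem G.toFil D1 D2 hD (wd i) _ _ (hLQ (s j) (v j) (hv j)))
        have := hwd i
        have h4 : ((wd i).length : ℤ) ≤ ρ := by exact_mod_cast this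
        linarith)
    have h5 : ∑ j : Fin ρ, (p * s j + t + 20 * ρ : ℤ) = ω + p * ∑ i, s i := by
      simp only [Finset.sum_add_distrib, Finset.sum_const, Finset.card_univ, Fintype.card_fin,
        nsmul_eq_mul, ← Finset.mul_sum, hω]
      ring
    rwa [h5] at h3
  have hWm : W ∈ G.R ω := by
    have h1 := hdet (fun _ => 0) (fun i => Pi.single i 1) (by
      intro i
      apply hstd
      intro j
      by_cases hij : j = i
      · subst hij; simpa using G.one_mem
      · simp [hij])
    have h2 : Matrix.det (Matrix.of fun i : Fin ρ => (Pi.single i 1 : Fin ρ → K)) = 1 := by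
      have : (Matrix.of fun i : Fin ρ => (Pi.single i 1 : Fin ρ → K)) = 1 := by
        ext i j
        simp [Matrix.one_apply, Pi.single_apply, eq_comm]
      rw [this, Matrix.det_one]
    rw [h2, one_pow, mul_one] at h1
    simpa using h1
  -- growth
  have hfinAA : ∀ s, Module.Finite k (AA k G.Y1 G.Y2 s) := by
    intro s
    haveI := G.fin_dim s
    exact Submodule.finiteDimensional_of_le (V4_AA_le G.toFil s)
  have hQfin : ∀ s, Module.Finite k (Q s) := by
    intro s
    have h1 : (Submodule.pi Set.univ fun _ : Fin N => AA k G.Y1 G.Y2 s).FG :=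
      Submodule.fg_pi fun _ => Module.Finite.iff_fg.1 (hfinAA s)
    exact Module.Finite.iff_fg.2 (h1.map Φ)
  have hgr : ∀ s : ℤ, 0 ≤ s → 1715 * (ρ : ℤ) * (s + 1) * (s + 2) ≤ 2 * Module.finrank k (Q s) := by
    -- an `F`-independent subfamily
    haveI hKF : Module.Finite (FF k G.Y1 G.Y2) K := by
      apply Module.finite_of_finrank_pos
      rw [G.degree]; norm_num
    have h1 : Submodule.span (FF k G.Y1 G.Y2) (Set.range fun i => π (c i)) = ⊤ := by
      have h2 : (Set.range fun i => π (c i)) =
          (π.restrictScalars (FF k G.Y1 G.Y2)) '' (Set.range c) := by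
        rw [← Set.range_comp]; rfl
      rw [h2, ← Submodule.map_span, hc.span, Submodule.map_top, LinearMap.range_eq_top]
      intro v
      exact ⟨∑ l, v l • c (idx l), hπsum v⟩
    obtain ⟨idx', B', hB'⟩ := V4_basis (F := FF k G.Y1 G.Y2) (fun i => π (c i)) h1
    have h3 : Module.finrank (FF k G.Y1 G.Y2) (Fin ρ → K) = 1715 * ρ := by
      rw [Module.finrank_pi_fintype]
      simp only [G.degree, Finset.sum_const, Finset.card_univ, Fintype.card_fin, smul_eq_mul]
      ring
    intro s hs
    haveI := hQfin s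
    have h4 := DIMLAT G.toFil G.algInd (fun l => π (c (idx' l)))
      (by
        have := B'.linearIndependent
        have h5 : (fun l => π (c (idx' l))) = B' := by
          funext l; rw [hB']
        rw [h5]; exact this) s hs (Q s) (by
        intro i g hg
        rw [hQ]
        refine ⟨Pi.single (idx' i) g, ?_, ?_⟩
        · intro j
          by_cases hj : j = idx' i
          · subst hj; simpa using hg
          · simp [hj]
        · rw [← map_smul]
          congr 1
          rw [Finset.sum_eq_single (idx' i)]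
          · simp
          · intro b _ hb; simp [hb]
          · intro h; exact absurd (Finset.mem_univ _) h)
    rw [h3] at h4
    push_cast at h4
    exact h4
  have hfinal := GROW p G hρpos Q hmul hstd hden W hW ω hWm hdet (13720 * ρ) (6174 * ρ)
    ⟨6, by
      intro s hs
      have h1 := hgr s (by omega)
      have h2 := G.dim_eq s hs
      nlinarith [h1, h2]⟩
  have hρZ : (0 : ℤ) < ρ := by exact_mod_cast hρpos
  have h1 : (4 * (p : ℤ)) ≤ t + 20 * ρ := by
    rw [hω] at hfinal
    have h2 : (3430 * (ρ : ℤ)) * (4 * p) ≤ (3430 * (ρ : ℤ)) * (t + 20 * ρ) := by nlinarith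
    exact le_of_mul_le_mul_left h2 (by positivity)
  have h2 : (ρ : ℤ) ≤ r := by exact_mod_cast hρr
  linarith

end

end Pool.Agent.H54R2.Ul
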