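import Pool.Agent.H54R2.Ul.Defs3
import Pool.Agent.H54R2.Ul.St.GA
import Pool.Agent.H54R2.Ul.St.GD

/-! # Task X2: the ideal of the surface -/

namespace Pool.Agent.H54R2.Ul

open MvPolynomial

noncomputable section

variable {k K : Type} [Field k] [Field K] [Algebra k K]

lemma X2_vsum_add (u u' : V22 →₀ ℕ) : vsum (u + u') = vsum u + vsum u' := by
  funext i
  simp only [vsum, Pi.add_apply]
  exact Finsupp.sum_add_index' (by simp) (by intros; ring)

lemma X2_vdeg_add (u u' : V22 →₀ ℕ) : vdeg (u + u') = vdeg u + vdeg u' := by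
  simp only [vdeg]
  exact Finsupp.sum_add_index' (by simp) (by intros; ring)

lemma X2_vsum_single (v : V22) : vsum (Finsupp.single v 1) = v.ex := by
  funext i
  simp [vsum]

lemma X2_vdeg_single (v : V22) : vdeg (Finsupp.single v 1) = 1 := by
  simp [vdeg]

lemma X2_vsum_zero : vsum 0 = 0 := by
  funext i
  simp [vsum]

lemma X2_vdeg_zero : vdeg 0 = 0 := by
  simp [vdeg]

lemma X2_allowed_ex (v : V22) : Allowed 1 v.ex := by
  intro i
  have := v.2 i
  simp only [V22.ex]
  exact_mod_cast this

lemma X2_allowed_vsum (u : V22 →₀ ℕ) : Allowed (vdeg u) (vsum u) := by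
  induction u using Finsupp.induction_linear with
  | zero => rw [X2_vsum_zero, X2_vdeg_zero]; intro i; simp
  | add f g hf hg =>
      rw [X2_vsum_add, X2_vdeg_add]
      push_cast
      exact hf.add hg
  | single v n =>
      intro i
      have := X2_allowed_ex v i
      simp only [vsum, vdeg, Finsupp.sum_single_index, zero_mul]
      push_cast
      nlinarith [this, (Int.natCast_nonneg n)]

lemma X2_zm_vsum (z : ZMod 5 → K) (u : V22 →₀ ℕ) :
    zm z (vsum u) = u.prod fun v n => zm z v.ex ^ n := by
  induction u using Finsupp.induction_linear with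
  | zero => rw [X2_vsum_zero, zm_zero]; simp
  | add f g hf hg =>
      rw [X2_vsum_add, zm_add, hf, hg]
      rw [Finsupp.prod_add_index'] <;> simp [pow_add]
  | single v n =>
      rw [Finsupp.prod_single_index (by simp)]
      simp only [zm, vsum]
      rw [← Finset.prod_pow]
      refine Finset.prod_congr rfl fun i _ => ?_
      rw [Finsupp.sum_single_index (by simp), ← pow_mul, mul_comm]

lemma X2_theta (M : Model k K) (u : V22 →₀ ℕ) (c : k) :
    Theta M (monomial u c) =
      Polynomial.monomial (vdeg u) (algebraMap k K c * zm M.z (vsum u)) := by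
  have h1 : (u.prod fun v n => (Polynomial.C (zm M.z v.ex) * Polynomial.X) ^ n) =
      Polynomial.C (zm M.z (vsum u)) * Polynomial.X ^ (vdeg u) := by
    rw [X2_zm_vsum]
    induction u using Finsupp.induction_linear with
    | zero => simp [X2_vdeg_zero]
    | add f g hf hg =>
        rw [Finsupp.prod_add_index' (by simp) (by intros; rw [pow_add]), hf, hg,
          Finsupp.prod_add_index' (by simp) (by intros; rw [pow_add]), X2_vdeg_add, pow_add,
          Polynomial.C_mul]
        ring
    | single v n =>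
        rw [Finsupp.prod_single_index (by simp), Finsupp.prod_single_index (by simp)]
        simp only [vdeg]
        rw [Finsupp.sum_single_index rfl, mul_pow, Polynomial.C_pow]
  rw [Theta, aeval_monomial, h1, ← Polynomial.C_mul_X_pow_eq_monomial, Polynomial.C_mul,
    mul_assoc]
  rfl

lemma X2_bin {u u' : V22 →₀ ℕ} (h1 : vdeg u = vdeg u') (h2 : vsum u = vsum u') :
    (monomial u 1 - monomial u' 1 : MvPolynomial V22 k) ∈ II k := by
  refine Ideal.subset_span ⟨monomial u 1 - monomial u' 1, Or.inl ⟨u, u', h1, h2, rfl⟩, ?_⟩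
  simp [map_monomial]

lemma X2_tri {u u' u'' : V22 →₀ ℕ} (i : ZMod 5) (h1 : vdeg u = vdeg u'')
    (h2 : vdeg u' = vdeg u'') (h3 : vsum u = vsum u'' + ee i 7)
    (h4 : vsum u' = vsum u'' + ee (i - 1) 7 + ee (i + 1) 7) :
    (monomial u 1 + monomial u' 1 - monomial u'' 1 : MvPolynomial V22 k) ∈ II k := by
  refine Ideal.subset_span ⟨monomial u 1 + monomial u' 1 - monomial u'' 1,
    Or.inr ⟨u, u', u'', i, h1, h2, h3, h4, rfl⟩, ?_⟩
  simp [map_monomial]

/-- the relations hold on the surface -/
lemma X2_le (M : Model k K) : II k ≤ RingHom.ker (Theta M) := by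
  rw [II, Ideal.span_le]
  rintro _ ⟨f, hf, rfl⟩
  simp only [SetLike.mem_coe, RingHom.mem_ker]
  rcases hf with ⟨u, u', h1, h2, rfl⟩ | ⟨u, u', u'', i, h1, h2, h3, h4, rfl⟩
  · simp only [map_sub, map_monomial, X2_theta, h1, h2, sub_self]
  · simp only [map_sub, map_add, map_monomial, X2_theta, h1, h2, h3, h4, zm_add, zm_ee]
    rw [← map_add (Polynomial.monomial _), ← map_sub (Polynomial.monomial _)]
    have h := M.rel i
    have e : (algebraMap k K) ((Int.castRingHom k) 1) * (zm M.z (vsum u'') * M.z i ^ 7) +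
        (algebraMap k K) ((Int.castRingHom k) 1) *
          (zm M.z (vsum u'') * M.z (i - 1) ^ 7 * M.z (i + 1) ^ 7) -
        (algebraMap k K) ((Int.castRingHom k) 1) * zm M.z (vsum u'') = 0 := by
      simp only [map_one]
      linear_combination (zm M.z (vsum u'')) * h
    rw [e, map_zero]

/-- every allowed exponent is the exponent of a monomial in the coordinates -/
lemma X2_exists (n : ℕ) : ∀ a : ZMod 5 → ℕ, Allowed n a →
    ∃ u : V22 →₀ ℕ, vdeg u = n ∧ vsum u = a := by
  induction n with
  | zero =>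
      intro a ha
      have h0 : a = 0 := allowed_zero (by simpa using ha)
      exact ⟨0, X2_vdeg_zero, by rw [X2_vsum_zero, h0]⟩
  | succ n ih =>
      intro a ha
      obtain ⟨b, c, rfl, hb, hc, hb2⟩ := GD n (Int.natCast_nonneg n) a (by exact_mod_cast ha)
      obtain ⟨u, hu1, hu2⟩ := ih c hc
      let v : V22 := ⟨fun i => ⟨b i, by have := hb2 i; omega⟩, fun i => by
        have := hb i
        simp only
        exact_mod_cast this⟩
      have hv : v.ex = b := by
        funext i
        rfl
      refine ⟨Finsupp.single v 1 + u, ?_, ?_⟩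
      · rw [X2_vdeg_add, X2_vdeg_single, hu1, add_comm]
      · rw [X2_vsum_add, X2_vsum_single, hu2, hv]

open Classical in
/-- the chosen monomial -/
def X2_U (n : ℕ) (a : ZMod 5 → ℕ) : V22 →₀ ℕ :=
  if h : Allowed n a then Classical.choose (X2_exists n a h) else 0

lemma X2_U_deg {n : ℕ} {a : ZMod 5 → ℕ} (h : Allowed n a) : vdeg (X2_U n a) = n := by
  rw [X2_U, dif_pos h]
  exact (Classical.choose_spec (X2_exists n a h)).1

lemma X2_U_sum {n : ℕ} {a : ZMod 5 → ℕ} (h : Allowed n a) : vsum (X2_U n a) = a := by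
  rw [X2_U, dif_pos h]
  exact (Classical.choose_spec (X2_exists n a h)).2

/-- the degree `n` part, as a combination of exponents -/
def X2_pi (k : Type) [Field k] (n : ℕ) :
    MvPolynomial V22 k →ₗ[k] ((ZMod 5 → ℕ) →₀ k) :=
  (basisMonomials V22 k).constr k fun u => if vdeg u = n then Finsupp.single (vsum u) 1 else 0

lemma X2_pi_monomial (n : ℕ) (u : V22 →₀ ℕ) (c : k) :
    X2_pi k n (monomial u c) = if vdeg u = n then Finsupp.single (vsum u) c else 0 := by
  have h : (monomial u c : MvPolynomial V22 k) = c • (basisMonomials V22 k) u := by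
    rw [coe_basisMonomials, smul_monomial]
    simp
  rw [h, map_smul, X2_pi, Module.Basis.constr_basis]
  split_ifs
  · simp
  · simp

/-- back to polynomials -/
def X2_L (k : Type) [Field k] (n : ℕ) : ((ZMod 5 → ℕ) →₀ k) →ₗ[k] MvPolynomial V22 k :=
  Finsupp.linearCombination k fun a => monomial (X2_U n a) (1 : k)

lemma X2_L_single (n : ℕ) (a : ZMod 5 → ℕ) (c : k) :
    X2_L k n (Finsupp.single a c) = monomial (X2_U n a) c := by
  rw [X2_L, Finsupp.linearCombination_single, smul_monomial]
  simp

/-- the value of a combination of exponents -/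
def X2_ev (M : Model k K) : ((ZMod 5 → ℕ) →₀ k) →ₗ[k] K :=
  Finsupp.linearCombination k fun a => zm M.z a

lemma X2_coeff (M : Model k K) (n : ℕ) (f : MvPolynomial V22 k) :
    (Theta M f).coeff n = X2_ev M (X2_pi k n f) := by
  have key : ((Polynomial.lcoeff K n).restrictScalars k) ∘ₗ (Theta M).toLinearMap =
      X2_ev M ∘ₗ X2_pi k n := by
    refine (basisMonomials V22 k).ext fun u => ?_
    rw [coe_basisMonomials]
    simp only [LinearMap.comp_apply, AlgHom.toLinearMap_apply, LinearMap.restrictScalars_apply,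
      Polynomial.lcoeff_apply]
    rw [X2_theta, X2_pi_monomial, Polynomial.coeff_monomial]
    split_ifs
    · simp [X2_ev]
    · simp
  exact LinearMap.congr_fun key f

lemma X2_supp (n : ℕ) (f : MvPolynomial V22 k) :
    ∀ a ∈ (X2_pi k n f).support, Allowed n a := by
  have key : LinearMap.range (X2_pi k n) ≤ Finsupp.supported k k {a | Allowed n a} := by
    rw [X2_pi, Module.Basis.constr_range, Submodule.span_le]
    rintro _ ⟨u, rfl⟩
    simp only [SetLike.mem_coe]
    split_ifs with h
    · apply Finsupp.single_mem_supported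
      have := X2_allowed_vsum u
      rw [h] at this
      exact this
    · exact Submodule.zero_mem _
  intro a ha
  exact (Finsupp.mem_supported k _).1 (key ⟨f, rfl⟩) ha

lemma X2_allowed_rel {t : ℤ} (i : ZMod 5) (a : ZMod 5 → ℕ)
    (h : Allowed t (a + ee (i - 1) 7 + ee (i + 1) 7)) : Allowed t a ∧ Allowed t (a + ee i 7) := by
  fin_cases i <;>
  · rw [allowed_iff] at h ⊢
    rw [allowed_iff]
    simp (decide := true) only [Pi.add_apply, ee, if_true, if_false, add_zero, Nat.cast_add] at h ⊢
    omega

lemma X2_smul_mem {f : MvPolynomial V22 k} (c : k) (h : f ∈ II k) : c • f ∈ II k := by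
  rw [smul_eq_C_mul]
  exact Ideal.mul_mem_left _ _ h

lemma X2_L_mem (n : ℕ) (g : (ZMod 5 → ℕ) →₀ k)
    (hg : g ∈ Submodule.span k {f | ∃ (i : ZMod 5) (a : ZMod 5 → ℕ),
      Allowed (n : ℤ) (a + ee (i - 1) 7 + ee (i + 1) 7) ∧
      f = Finsupp.single (a + ee (i - 1) 7 + ee (i + 1) 7) (1 : k) + Finsupp.single (a + ee i 7) 1
        - Finsupp.single a 1}) : X2_L k n g ∈ II k := by
  induction hg using Submodule.span_induction with
  | mem x hx =>
      obtain ⟨i, a, ha, rfl⟩ := hx
      obtain ⟨h1, h2⟩ := X2_allowed_rel i a ha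
      rw [map_sub, map_add, X2_L_single, X2_L_single, X2_L_single, add_comm (monomial _ _)]
      refine X2_tri i ?_ ?_ ?_ ?_
      · rw [X2_U_deg h2, X2_U_deg h1]
      · rw [X2_U_deg ha, X2_U_deg h1]
      · rw [X2_U_sum h2, X2_U_sum h1]
      · rw [X2_U_sum ha, X2_U_sum h1]
  | zero => rw [map_zero]; exact Ideal.zero_mem _
  | add x y _ _ hx hy => rw [map_add]; exact Ideal.add_mem _ hx hy
  | smul c x _ hx => rw [map_smul]; exact X2_smul_mem c hx

lemma X2_mono_mem (N : ℕ) (u : V22 →₀ ℕ) (hu : vdeg u < N) (c : k) :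
    monomial u c - ∑ n ∈ Finset.range N, X2_L k n (X2_pi k n (monomial u c)) ∈ II k := by
  have h1 : ∑ n ∈ Finset.range N, X2_L k n (X2_pi k n (monomial u c)) =
      monomial (X2_U (vdeg u) (vsum u)) c := by
    rw [Finset.sum_eq_single (vdeg u)]
    · rw [X2_pi_monomial, if_pos rfl, X2_L_single]
    · intro n _ hn
      rw [X2_pi_monomial, if_neg (Ne.symm hn), map_zero]
    · intro h
      exact absurd (Finset.mem_range.2 hu) h
  rw [h1]
  have h2 := X2_allowed_vsum u
  have h3 : (monomial u c - monomial (X2_U (vdeg u) (vsum u)) c : MvPolynomial V22 k) =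
      c • (monomial u 1 - monomial (X2_U (vdeg u) (vsum u)) 1) := by
    rw [smul_sub, smul_monomial, smul_monomial]
    simp
  rw [h3]
  exact X2_smul_mem c (X2_bin (by rw [X2_U_deg h2]) (by rw [X2_U_sum h2]))

/-- **Task X2.** The ideal of the surface. -/
theorem X2 {k K : Type} [Field k] [Field K] [Algebra k K] (M : Model k K) :
    RingHom.ker (Theta M) = II k := by
  apply le_antisymm _ (X2_le M)
  intro f hf
  rw [RingHom.mem_ker] at hf
  obtain ⟨N, hN⟩ : ∃ N, ∀ u ∈ f.support, vdeg u < N := by
    refine ⟨f.support.sup vdeg + 1, fun u hu => Nat.lt_succ_of_le (Finset.le_sup hu)⟩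
  have h1 : f - ∑ n ∈ Finset.range N, X2_L k n (X2_pi k n f) ∈ II k := by
    have e : f - ∑ n ∈ Finset.range N, X2_L k n (X2_pi k n f) =
        ∑ u ∈ f.support, (monomial u (f.coeff u) -
          ∑ n ∈ Finset.range N, X2_L k n (X2_pi k n (monomial u (f.coeff u)))) := by
      rw [Finset.sum_sub_distrib, Finset.sum_comm]
      congr 1
      · exact (f.support_sum_monomial_coeff).symm
      · refine Finset.sum_congr rfl fun n _ => ?_
        rw [← map_sum, ← map_sum, f.support_sum_monomial_coeff]
    rw [e]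
    exact Ideal.sum_mem _ fun u hu => X2_mono_mem N u (hN u hu) _
  have h2 : ∑ n ∈ Finset.range N, X2_L k n (X2_pi k n f) ∈ II k := by
    refine Ideal.sum_mem _ fun n _ => X2_L_mem n _ ?_
    refine GA4 M n _ (X2_supp n f) ?_
    have := X2_coeff M n f
    rw [hf, Polynomial.coeff_zero, X2_ev, Finsupp.linearCombination_apply] at this
    exact this.symm
  have := Ideal.add_mem _ h1 h2
  rwa [sub_add_cancel] at this

end

end Pool.Agent.H54R2.Ul
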