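import Pool.Agent.H54R2.Ul.Defs3

namespace Pool.Agent.H54R2.Ul

open MvPolynomial

noncomputable section

theorem X3_jac : IsJacobsonRing ℤ := by
  rw [isJacobsonRing_iff_prime_eq]
  intro P hP
  by_cases hb : P = ⊥
  · subst hb
    rw [eq_bot_iff]
    intro x hx
    rw [Ideal.mem_jacobson_bot] at hx
    have h1 := hx x
    rw [Int.isUnit_iff] at h1
    have hx0 : x = 0 := by
      rcases h1 with h | h
      · have : x * x = 0 := by linarith
        simpa using this
      · nlinarith [mul_self_nonneg x]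
    simp [hx0]
  · have := hP.isMaximal hb
    exact Ideal.jacobson_eq_self_of_isMaximal

theorem X3_field (K : Type) [Field K] [Algebra.FiniteType ℤ K] :
    ∃ (p : ℕ) (_ : Fact p.Prime), CharP K p ∧ Nonempty (K →+* AlgebraicClosure (ZMod p)) := by
  have hJ : IsJacobsonRing ℤ := X3_jac
  have hfin : Module.Finite ℤ K := finite_of_finite_type_of_isJacobsonRing ℤ K
  have hint : Algebra.IsIntegral ℤ K := inferInstance
  obtain ⟨p, hp⟩ := CharP.exists K
  have hp0 : p ≠ 0 := by
    rintro rfl
    have : CharZero K := CharP.charP_to_charZero K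
    have hinj : Function.Injective (algebraMap ℤ K) := by
      intro a b h
      simpa using h
    exact Int.not_isField (isField_of_isIntegral_of_isField hinj (Field.toIsField K))
  have hprime : p.Prime := (CharP.char_is_prime_or_zero K p).resolve_right hp0
  have : Fact p.Prime := ⟨hprime⟩
  refine ⟨p, ⟨hprime⟩, hp, ?_⟩
  let _ : Algebra (ZMod p) K := ZMod.algebra K p
  have : IsScalarTower ℤ (ZMod p) K := IsScalarTower.of_algebraMap_eq fun x => by simp
  have : Algebra.IsIntegral (ZMod p) K := Algebra.IsIntegral.tower_top ℤ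
  exact ⟨(IsAlgClosed.lift (R := ZMod p) (S := K) (M := AlgebraicClosure (ZMod p))).toRingHom⟩

/-- **Task X3.** Reduction modulo large primes. -/
theorem X3 (R : Type) [CommRing R] [IsDomain R] [CharZero R] [Algebra.FiniteType ℤ R] (n : ℕ) :
    ∃ (p : ℕ) (_ : Fact p.Prime), n < p ∧ Nonempty (R →+* AlgebraicClosure (ZMod p)) := by
  set a : R := ((n.factorial : ℕ) : R) with ha
  have ha0 : a ≠ 0 := by
    rw [ha]
    exact_mod_cast Nat.factorial_ne_zero n
  let R' : Type := Localization.Away a
  have hle : Submonoid.powers a ≤ nonZeroDivisors R := powers_le_nonZeroDivisors_of_noZeroDivisors ha0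
  have : IsDomain R' := IsLocalization.isDomain_localization hle
  obtain ⟨m, hm⟩ := Ideal.exists_maximal R'
  have h1 : Algebra.FiniteType R R' := IsLocalization.finiteType_of_monoid_fg (Submonoid.powers a) R'
  have h2 : Algebra.FiniteType ℤ R' := Algebra.FiniteType.trans (inferInstance : Algebra.FiniteType ℤ R) h1
  have h3 : Algebra.FiniteType ℤ (R' ⧸ m) :=
    Algebra.FiniteType.of_surjective (Ideal.Quotient.mkₐ ℤ m) (Ideal.Quotient.mkₐ_surjective ℤ m)
  let _ : Field (R' ⧸ m) := Ideal.Quotient.field m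
  have h4 : @Algebra.FiniteType ℤ (R' ⧸ m) _ _
      (@Ring.toIntAlgebra (R' ⧸ m) (Ideal.Quotient.field m).toRing) := by
    have e : (@Ring.toIntAlgebra (R' ⧸ m) (Ideal.Quotient.field m).toRing) =
        Ideal.instAlgebraQuotient ℤ m := Subsingleton.elim _ _
    rw [e]
    exact h3
  obtain ⟨p, hp, hchar, ⟨f⟩⟩ := @X3_field (R' ⧸ m) (Ideal.Quotient.field m) h4
  refine ⟨p, hp, ?_, ⟨(f.comp (Ideal.Quotient.mk m)).comp (algebraMap R R')⟩⟩
  by_contra hn
  push Not at hn
  have hdvd : p ∣ n.factorial := (hp.out.dvd_factorial).2 hn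
  have hz : ((n.factorial : ℕ) : R' ⧸ m) = 0 := (CharP.cast_eq_zero_iff (R' ⧸ m) p _).2 hdvd
  have hu : IsUnit (algebraMap R R' a) := IsLocalization.Away.algebraMap_isUnit a
  have hu2 : IsUnit (Ideal.Quotient.mk m (algebraMap R R' a)) := hu.map _
  have e : Ideal.Quotient.mk m (algebraMap R R' a) = ((n.factorial : ℕ) : R' ⧸ m) := by
    have e1 : algebraMap R R' a = ((n.factorial : ℕ) : R') := map_natCast (algebraMap R R') _
    rw [e1, map_natCast]
  rw [e, hz] at hu2
  exact not_isUnit_zero hu2

end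

end Pool.Agent.H54R2.Ul
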