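import Pool.Agent.H54R2.Ul.Defs3
import Pool.Agent.H54R2.Ul.St.X3

/-! # ULRICH: task X3b (helper380): reduction of a matrix representation modulo a large prime -/

namespace Pool.Agent.H54R2.Ul

open MvPolynomial

noncomputable section

/-- A ring homomorphism with values in the range of an injective ring homomorphism lifts. -/
theorem X3b_lift {R S T : Type} [Ring R] [Ring S] [Ring T] (J : S →+* T)
    (hJ : Function.Injective J) (ρ : R →+* T) (h : ∀ x, ∃ y, J y = ρ x) :
    ∃ g : R →+* S, ∀ x, J (g x) = ρ x := by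
  choose g hg using h
  refine ⟨{ toFun := g, map_one' := ?_, map_mul' := ?_, map_zero' := ?_, map_add' := ?_ }, hg⟩
  · apply hJ; rw [hg, map_one, map_one]
  · intro x y; apply hJ; rw [hg, map_mul, map_mul, hg, hg]
  · apply hJ; rw [hg, map_zero, map_zero]
  · intro x y; apply hJ; rw [hg, map_add, map_add, hg, hg]

/-- **Task X3b.** Reduction of a matrix representation modulo a large prime. -/
theorem X3b {N : ℕ} (ρ : MvPolynomial V22 ℤ →+* Matrix (Fin N) (Fin N) (MvPolynomial (Fin 3) ℂ))
    (hlin : ∀ v i j, (ρ (X v) i j).IsHomogeneous 1) (hrel : ∀ f ∈ RelZ, ρ f = 0)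
    (hell : ∀ j, ρ (ell ℤ j) = Matrix.scalar (Fin N) (X j)) (n : ℕ) :
    ∃ (p : ℕ) (_ : Fact p.Prime), n < p ∧
      ∃ ρ' : MvPolynomial V22 ℤ →+*
          Matrix (Fin N) (Fin N) (MvPolynomial (Fin 3) (AlgebraicClosure (ZMod p))),
        (∀ v i j, (ρ' (X v) i j).IsHomogeneous 1) ∧ (∀ f ∈ RelZ, ρ' f = 0) ∧
        (∀ j, ρ' (ell ℤ j) = Matrix.scalar (Fin N) (X j)) := by
  classical
  -- the finitely generated ring of coefficients
  let S : Finset ℂ := Finset.univ.biUnion fun v : V22 => Finset.univ.biUnion fun i : Fin N =>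
    Finset.univ.biUnion fun j : Fin N => (ρ (X v) i j).coeffs
  let A : Subalgebra ℤ ℂ := Algebra.adjoin ℤ (S : Set ℂ)
  have : CharZero A := (algebraMap A ℂ).charZero
  have : Algebra.FiniteType ℤ A :=
    (Subalgebra.fg_iff_finiteType A).mp (Subalgebra.fg_adjoin_finset S)
  have hinjA : Function.Injective (algebraMap A ℂ) := Subtype.val_injective
  let ι : MvPolynomial (Fin 3) A →+* MvPolynomial (Fin 3) ℂ := MvPolynomial.map (algebraMap A ℂ)
  have hι : Function.Injective ι := MvPolynomial.map_injective _ hinjA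
  let J : Matrix (Fin N) (Fin N) (MvPolynomial (Fin 3) A) →+*
    Matrix (Fin N) (Fin N) (MvPolynomial (Fin 3) ℂ) := ι.mapMatrix
  have hJ : Function.Injective J := by
    intro a b hab
    ext1 i j
    apply hι
    have := congrFun (congrFun hab i) j
    simpa [J] using this
  -- `ρ` has values in the range of `J`
  have hrange : ∀ x, ∃ y, J y = ρ x := by
    intro x
    induction x using MvPolynomial.induction_on with
    | C a =>
      refine ⟨(a : Matrix (Fin N) (Fin N) (MvPolynomial (Fin 3) A)), ?_⟩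
      rw [map_intCast, eq_intCast (C : ℤ →+* MvPolynomial V22 ℤ) a, map_intCast]
    | add p q hp hq =>
      obtain ⟨y, hy⟩ := hp
      obtain ⟨z, hz⟩ := hq
      exact ⟨y + z, by rw [map_add, map_add, hy, hz]⟩
    | mul_X p v hp =>
      obtain ⟨y, hy⟩ := hp
      have hv : ∀ i j, ∃ z, ι z = ρ (X v) i j := by
        intro i j
        have : ρ (X v) i j ∈ Set.range ι := by
          rw [MvPolynomial.mem_range_map_iff_coeffs_subset]
          intro c hc
          have hcS : c ∈ (S : Set ℂ) := by
            simp only [S, Finset.coe_biUnion, Set.mem_iUnion]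
            exact ⟨v, Finset.mem_coe.mpr (Finset.mem_univ v), i,
              Finset.mem_coe.mpr (Finset.mem_univ i), j, Finset.mem_coe.mpr (Finset.mem_univ j),
              hc⟩
          exact ⟨⟨c, Algebra.subset_adjoin hcS⟩, rfl⟩
        exact this
      choose z hz using hv
      refine ⟨y * Matrix.of z, ?_⟩
      rw [map_mul, map_mul, hy]
      congr 1
      ext1 i j
      simp only [J, RingHom.mapMatrix_apply, Matrix.map_apply, Matrix.of_apply]
      exact hz i j
  obtain ⟨g, hg⟩ := X3b_lift J hJ ρ hrange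
  have hJs : ∀ j : Fin 3, J (Matrix.scalar (Fin N) (X j)) = Matrix.scalar (Fin N) (X j) := by
    intro j
    ext1 a b
    simp only [J, RingHom.mapMatrix_apply, Matrix.map_apply, Matrix.scalar_apply,
      Matrix.diagonal_apply]
    split_ifs
    · simp [ι]
    · simp
  have g1 : ∀ v i j, (g (X v) i j).IsHomogeneous 1 := by
    intro v i j
    apply MvPolynomial.IsHomogeneous.of_map hinjA
    have h1 := hlin v i j
    rw [← hg (X v)] at h1
    simpa [J, ι] using h1
  have g2 : ∀ f ∈ RelZ, g f = 0 := by
    intro f hf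
    apply hJ
    rw [hg, hrel f hf, map_zero]
  have g3 : ∀ j, g (ell ℤ j) = Matrix.scalar (Fin N) (X j) := by
    intro j
    apply hJ
    rw [hg, hell j, hJs]
  obtain ⟨p, hp, hnp, ⟨φ⟩⟩ := X3 A n
  refine ⟨p, hp, hnp, (MvPolynomial.map φ).mapMatrix.comp g, ?_, ?_, ?_⟩
  · intro v i j
    have := (g1 v i j).map φ
    simpa using this
  · intro f hf
    rw [RingHom.comp_apply, g2 f hf, map_zero]
  · intro j
    rw [RingHom.comp_apply, g3 j]
    ext1 a b
    simp only [RingHom.mapMatrix_apply, Matrix.map_apply, Matrix.scalar_apply,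
      Matrix.diagonal_apply]
    split_ifs
    · simp
    · simp

end

end Pool.Agent.H54R2.Ul
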