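import Pool.Agent.H54R2.Ul.Defs3

namespace Pool.Agent.H54R2.Ul

open MvPolynomial

noncomputable section

/-- Extending a ring homomorphism from a domain to its fraction field, non-commutative target. -/
lemma X4b_lift {B K F E : Type} [CommRing B] [IsDomain B] [Field K] [Algebra B K]
    [IsFractionRing B K] [Field F] [Ring E] [Algebra F E]
    (φ : B →+* E)
    (h : ∀ b : B, b ≠ 0 → ∃ (b' : B) (f : F), f ≠ 0 ∧ φ (b * b') = algebraMap F E f) :
    ∃ τ : K →+* E, ∀ b, τ (algebraMap B K b) = φ b := by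
  let s : Set E := Set.range φ
  have hcomm : ∀ a ∈ s, ∀ b ∈ s, a * b = b * a := by
    rintro _ ⟨a, rfl⟩ _ ⟨b, rfl⟩
    rw [← map_mul, ← map_mul, mul_comm]
  let _ : CommRing (Algebra.adjoin F s) := Algebra.adjoinCommRingOfComm F hcomm
  let φ' : B →+* Algebra.adjoin F s :=
    RingHom.codRestrict φ (Algebra.adjoin F s) fun b => Algebra.subset_adjoin ⟨b, rfl⟩
  have hφ' : ∀ b, (φ' b : E) = φ b := fun b => rfl
  have hu : ∀ y : nonZeroDivisors B, IsUnit (φ' y) := by
    intro y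
    have hy : (y : B) ≠ 0 := nonZeroDivisors.coe_ne_zero y
    obtain ⟨b', f, hf, hb⟩ := h y hy
    have e : φ' (y : B) * (f⁻¹ • φ' b') = 1 := by
      apply Subtype.ext
      change φ (y : B) * (f⁻¹ • φ b') = 1
      rw [mul_smul_comm, ← map_mul, hb, Algebra.algebraMap_eq_smul_one, smul_smul,
        inv_mul_cancel₀ hf, one_smul]
    exact IsUnit.of_mul_eq_one _ e
  let τ' : K →+* Algebra.adjoin F s := IsLocalization.lift (M := nonZeroDivisors B) hu
  refine ⟨(Algebra.adjoin F s).val.toRingHom.comp τ', fun b => ?_⟩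
  change ((τ' (algebraMap B K b) : Algebra.adjoin F s) : E) = φ b
  have : τ' (algebraMap B K b) = φ' b := IsLocalization.lift_eq hu b
  rw [this]
  rfl

variable {k K : Type} [Field k] [Field K] [Algebra k K]

lemma X4b_AA_le (Y1 Y2 : K) (t : ℤ) {x : K} (hx : x ∈ AA k Y1 Y2 t) : x ∈ FF k Y1 Y2 := by
  have h : AA k Y1 Y2 t ≤ (FF k Y1 Y2).toSubalgebra.toSubmodule := by
    rw [AA, Submodule.span_le]
    rintro _ ⟨i, j, -, rfl⟩
    change Y1 ^ i * Y2 ^ j ∈ FF k Y1 Y2
    exact mul_mem (pow_mem (IntermediateField.subset_adjoin _ _ (by simp)) _)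
      (pow_mem (IntermediateField.subset_adjoin _ _ (by simp)) _)
  exact h hx

open scoped IntermediateField.algebraAdjoinAdjoin in
/-- every non-zero element of `BB` divides a non-zero polynomial in `Y1, Y2` -/
lemma X4b_dvd (G : Geo k K) (b : G.toFil.BB) (hb : b ≠ 0) :
    ∃ (b' : G.toFil.BB), ((b * b' : G.toFil.BB) : K) ∈ Algebra.adjoin k {G.Y1, G.Y2} ∧
      ((b * b' : G.toFil.BB) : K) ≠ 0 := by
  have hfd : Module.Finite (FF k G.Y1 G.Y2) K := by
    apply Module.finite_of_finrank_pos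
    rw [G.degree]; norm_num
  have halg : IsAlgebraic (FF k G.Y1 G.Y2) (b : K) := Algebra.IsAlgebraic.isAlgebraic _
  have halg2 : IsAlgebraic (Algebra.adjoin k {G.Y1, G.Y2}) (b : K) :=
    (IsFractionRing.isAlgebraic_iff (Algebra.adjoin k {G.Y1, G.Y2}) (FF k G.Y1 G.Y2) K).2 halg
  have hbK : (b : K) ≠ 0 := fun h => hb (Subtype.ext h)
  obtain ⟨y, hy, r, hr, hyr⟩ := halg2.exists_nonzero_eq_adjoin_mul
    (mem_nonZeroDivisors_of_ne_zero hbK)
  have hle : Algebra.adjoin k {G.Y1, G.Y2} ≤ G.toFil.BB := by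
    rw [Algebra.adjoin_le_iff]
    intro x hx
    rcases hx with rfl | hx
    · exact ⟨1, by exact_mod_cast G.Y1_mem⟩
    · rw [Set.mem_singleton_iff] at hx
      subst hx
      exact ⟨1, by exact_mod_cast G.Y2_mem⟩
  have hyB : y ∈ G.toFil.BB := by
    clear hyr
    induction hy using Algebra.adjoin_induction with
    | mem x hx =>
      rw [Set.mem_singleton_iff] at hx
      subst hx; exact b.2
    | algebraMap r => exact hle r.2
    | add x y _ _ hx hy => exact add_mem hx hy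
    | mul x y _ _ hx hy => exact mul_mem hx hy
  refine ⟨⟨y, hyB⟩, ?_, ?_⟩
  · change (b : K) * y ∈ _
    rw [hyr]; exact r.2
  · change (b : K) * y ≠ 0
    rw [hyr]
    intro h
    exact hr (Subtype.ext h)

lemma X4b_adj_le_BB (G : Geo k K) : Algebra.adjoin k {G.Y1, G.Y2} ≤ G.toFil.BB := by
  rw [Algebra.adjoin_le_iff]
  intro x hx
  rcases hx with rfl | hx
  · exact ⟨1, by exact_mod_cast G.Y1_mem⟩
  · rw [Set.mem_singleton_iff] at hx
    subst hx
    exact ⟨1, by exact_mod_cast G.Y2_mem⟩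

lemma X4b_adj_le_FF (G : Geo k K) {x : K} (hx : x ∈ Algebra.adjoin k {G.Y1, G.Y2}) :
    x ∈ FF k G.Y1 G.Y2 := IntermediateField.algebra_adjoin_le_adjoin k _ hx

/-- `BB` acts on vectors over `F`. -/
lemma X4b_phi (G : Geo k K) {N : ℕ}
    (σ : G.toFil.BB →ₐ[k] Matrix (Fin N) (Fin N) K)
    (h1 : ∀ (t : ℤ) (x : G.toFil.BB), (x : K) ∈ G.R t → ∀ i j, σ x i j ∈ AA k G.Y1 G.Y2 t)
    (h2 : ∀ x : G.toFil.BB, (x : K) = G.Y1 → σ x = Matrix.scalar (Fin N) G.Y1)
    (h3 : ∀ x : G.toFil.BB, (x : K) = G.Y2 → σ x = Matrix.scalar (Fin N) G.Y2) :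
    ∃ φ : G.toFil.BB →+* Matrix (Fin N) (Fin N) (FF k G.Y1 G.Y2),
      (∀ x i j, ((φ x i j : FF k G.Y1 G.Y2) : K) = σ x i j) ∧
      ∀ x : G.toFil.BB, ∀ hx : (x : K) ∈ Algebra.adjoin k {G.Y1, G.Y2},
        φ x = Matrix.scalar (Fin N) ⟨(x : K), X4b_adj_le_FF G hx⟩ := by
  have hF : ∀ (x : G.toFil.BB) i j, σ x i j ∈ FF k G.Y1 G.Y2 := by
    rintro ⟨x, t, ht⟩ i j
    exact X4b_AA_le _ _ t (h1 t ⟨x, t, ht⟩ ht i j)
  let φ : G.toFil.BB →+* Matrix (Fin N) (Fin N) (FF k G.Y1 G.Y2) :=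
    { toFun := fun x => Matrix.of fun i j => ⟨σ x i j, hF x i j⟩
      map_one' := by
        ext i j
        simp only [map_one, Matrix.of_apply, Matrix.one_apply]
        split_ifs <;> rfl
      map_zero' := by
        ext i j
        simp
      map_add' := by
        intro x y
        ext i j
        simp
      map_mul' := by
        intro x y
        ext i j
        simp only [map_mul, Matrix.of_apply, Matrix.mul_apply]
        push_cast
        rfl }
  have hφ : ∀ x i j, ((φ x i j : FF k G.Y1 G.Y2) : K) = σ x i j := fun x i j => rfl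
  refine ⟨φ, hφ, ?_⟩
  have key : ∀ x : K, ∀ hx : x ∈ Algebra.adjoin k {G.Y1, G.Y2},
      σ ⟨x, X4b_adj_le_BB G hx⟩ = Matrix.scalar (Fin N) x := by
    intro x hx
    induction hx using Algebra.adjoin_induction with
    | mem x hx =>
      rcases hx with rfl | hx
      · exact h2 _ rfl
      · rw [Set.mem_singleton_iff] at hx
        subst hx; exact h3 _ rfl
    | algebraMap r =>
      have : (⟨algebraMap k K r, X4b_adj_le_BB G (Subalgebra.algebraMap_mem _ r)⟩ :
        G.toFil.BB) = algebraMap k G.toFil.BB r := rfl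
      rw [this, AlgHom.commutes]
      rfl
    | add x y hx hy h h' =>
      have : (⟨x + y, X4b_adj_le_BB G (add_mem hx hy)⟩ : G.toFil.BB) =
        ⟨x, X4b_adj_le_BB G hx⟩ + ⟨y, X4b_adj_le_BB G hy⟩ := rfl
      rw [this, map_add, h, h', map_add]
    | mul x y hx hy h h' =>
      have : (⟨x * y, X4b_adj_le_BB G (mul_mem hx hy)⟩ : G.toFil.BB) =
        ⟨x, X4b_adj_le_BB G hx⟩ * ⟨y, X4b_adj_le_BB G hy⟩ := rfl
      rw [this, map_mul, h, h', map_mul]
  intro x hx
  ext i j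
  rw [hφ]
  have e := key x hx
  have e' : (⟨(x : K), X4b_adj_le_BB G hx⟩ : G.toFil.BB) = x := rfl
  rw [e'] at e
  rw [e]
  simp only [Matrix.scalar_apply, Matrix.diagonal_apply]
  split_ifs <;> rfl

lemma X4b_frac (G : Geo k K) : IsFractionRing G.toFil.BB K := by
  apply IsFractionRing.of_field
  intro z
  obtain ⟨t, a, ha, b, hb, -, rfl⟩ := G.frac z
  have hR : ∀ x : K, x ∈ G.R t → x ∈ G.toFil.BB := by
    intro x hx
    rcases lt_or_ge t 0 with ht | ht
    · rw [G.neg t ht, Submodule.mem_bot] at hx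
      subst hx
      exact zero_mem _
    · lift t to ℕ using ht
      exact ⟨t, hx⟩
  exact ⟨⟨a, hR a ha⟩, ⟨b, hR b hb⟩, rfl⟩

/-- a representation of `K` by matrices over a subfield `F` gives a `K`-basis -/
lemma X4b_mod {F K : Type} [Field F] [Field K] [Algebra F K] [Module.Finite F K] {N : ℕ}
    (τ : K →+* Matrix (Fin N) (Fin N) F)
    (hτF : ∀ f : F, τ (algebraMap F K f) = Matrix.scalar (Fin N) f) :
    ∃ (r : ℕ) (B : Module.Basis (Fin N) F (Fin r → K)), N = Module.finrank F K * r ∧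
      ∀ (x : K) (i : Fin N), x • B i = ∑ j, (τ x j i) • B j := by
  let _ : Module K (Fin N → F) := Module.compHom _
    ((Matrix.toLinAlgEquiv' : Matrix (Fin N) (Fin N) F ≃ₐ[F]
      ((Fin N → F) →ₗ[F] (Fin N → F))).toRingEquiv.toRingHom.comp τ)
  have hsmul : ∀ (x : K) (v : Fin N → F), x • v = (τ x).mulVec v := fun x v => rfl
  have : IsScalarTower F K (Fin N → F) := by
    constructor
    intro f x v
    rw [Algebra.smul_def, hsmul, hsmul, map_mul, hτF, ← Matrix.mulVec_mulVec]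
    simp only [Matrix.scalar_apply, ← Matrix.smul_one_eq_diagonal, Matrix.smul_mulVec,
      Matrix.one_mulVec]
  have : Module.Finite K (Fin N → F) := Module.Finite.of_restrictScalars_finite F K _
  have hdim := Module.finrank_mul_finrank F K (Fin N → F)
  rw [Module.finrank_fin_fun] at hdim
  refine ⟨Module.finrank K (Fin N → F), ?_⟩
  let ψ : (Fin N → F) ≃ₗ[K] (Fin (Module.finrank K (Fin N → F)) → K) :=
    (Module.finBasis K (Fin N → F)).equivFun
  let B : Module.Basis (Fin N) F (Fin (Module.finrank K (Fin N → F)) → K) :=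
    (Pi.basisFun F (Fin N)).map (ψ.restrictScalars F)
  refine ⟨B, hdim.symm, ?_⟩
  intro x i
  have hB : ∀ j, B j = ψ (Pi.single j 1) := by
    intro j
    change (ψ.restrictScalars F) ((Pi.basisFun F (Fin N)) j) = _
    rw [Pi.basisFun_apply]
    rfl
  rw [hB i, ← map_smul, hsmul]
  have e2 : (τ x).mulVec (Pi.single i 1) = ∑ j, (τ x j i) • (Pi.single j 1 : Fin N → F) := by
    rw [Matrix.mulVec_single_one]
    ext j
    simp [Pi.single_apply]
  rw [e2, map_sum]
  refine Finset.sum_congr rfl fun j _ => ?_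
  rw [hB j]
  exact (ψ.restrictScalars F).map_smul _ _

/-- **Task X4b.** From an action to a datum. -/
theorem X4b {k K : Type} [Field k] [Field K] [Algebra k K] (G : Geo k K) {N : ℕ} (hN : 0 < N)
    (σ : G.toFil.BB →ₐ[k] Matrix (Fin N) (Fin N) K)
    (h1 : ∀ (t : ℤ) (x : G.toFil.BB), (x : K) ∈ G.R t → ∀ i j, σ x i j ∈ AA k G.Y1 G.Y2 t)
    (h2 : ∀ x : G.toFil.BB, (x : K) = G.Y1 → σ x = Matrix.scalar (Fin N) G.Y1)
    (h3 : ∀ x : G.toFil.BB, (x : K) = G.Y2 → σ x = Matrix.scalar (Fin N) G.Y2) :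
    ∃ (r : ℕ) (c : Fin N → Fin r → K), 0 < r ∧ N = 1715 * r ∧ IsDatum G.toFil c := by
  obtain ⟨φ, hφ, hφs⟩ := X4b_phi G σ h1 h2 h3
  have := X4b_frac G
  obtain ⟨τ, hτ⟩ := X4b_lift (K := K) (F := FF k G.Y1 G.Y2) φ (by
    intro b hb
    obtain ⟨b', hb1, hb2⟩ := X4b_dvd G b hb
    refine ⟨b', ⟨((b * b' : G.toFil.BB) : K), X4b_adj_le_FF G hb1⟩, ?_, ?_⟩
    · intro h
      exact hb2 (congrArg Subtype.val h)
    · rw [hφs _ hb1]
      rfl)
  have hτF : ∀ f : FF k G.Y1 G.Y2, τ (f : K) = Matrix.scalar (Fin N) f := by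
    rintro ⟨x, hx⟩
    obtain ⟨r, hr, s, hs, e⟩ := IntermediateField.mem_adjoin_iff_div.1 hx
    by_cases hs0 : s = 0
    · subst hs0
      have hx0 : x = 0 := by rw [e]; simp
      subst hx0
      have : (⟨0, hx⟩ : FF k G.Y1 G.Y2) = 0 := rfl
      rw [this]
      simp
    · have e1 : τ x * Matrix.scalar (Fin N) ⟨s, X4b_adj_le_FF G hs⟩ =
          Matrix.scalar (Fin N) ⟨r, X4b_adj_le_FF G hr⟩ := by
        rw [← hφs ⟨s, X4b_adj_le_BB G hs⟩ hs, ← hφs ⟨r, X4b_adj_le_BB G hr⟩ hr, ← hτ, ← hτ,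
          ← map_mul]
        congr 1
        change x * s = r
        rw [e, div_mul_cancel₀ _ hs0]
      have hs' : (⟨s, X4b_adj_le_FF G hs⟩ : FF k G.Y1 G.Y2) ≠ 0 := fun h =>
        hs0 (congrArg Subtype.val h)
      have e2 : Matrix.scalar (Fin N) (⟨s, X4b_adj_le_FF G hs⟩ : FF k G.Y1 G.Y2) *
          Matrix.scalar (Fin N) (⟨s, X4b_adj_le_FF G hs⟩ : FF k G.Y1 G.Y2)⁻¹ = 1 := by
        rw [← map_mul, mul_inv_cancel₀ hs', map_one]
      have e3 : (⟨x, hx⟩ : FF k G.Y1 G.Y2) =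
          ⟨r, X4b_adj_le_FF G hr⟩ * (⟨s, X4b_adj_le_FF G hs⟩)⁻¹ := by
        apply Subtype.ext
        change x = r * s⁻¹
        rw [e, div_eq_mul_inv]
      change τ x = _
      rw [e3, map_mul, ← e1, mul_assoc, e2, mul_one]
  have hfd : Module.Finite (FF k G.Y1 G.Y2) K := by
    apply Module.finite_of_finrank_pos
    rw [G.degree]; norm_num
  obtain ⟨r, B, hdim, hB⟩ := X4b_mod τ hτF
  rw [G.degree] at hdim
  refine ⟨r, B, ?_, hdim, B.linearIndependent, B.span_eq, ?_⟩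
  · rcases Nat.eq_zero_or_pos r with h0 | h0
    · rw [h0] at hdim; omega
    · exact h0
  · intro t a ha i
    have haB : a ∈ G.toFil.BB := by
      rcases lt_or_ge t 0 with ht | ht
      · have ha' := ha
        rw [G.neg t ht, Submodule.mem_bot] at ha'
        subst ha'
        exact zero_mem _
      · lift t to ℕ using ht
        exact ⟨t, ha⟩
    refine ⟨fun j => σ ⟨a, haB⟩ j i, fun j => h1 t ⟨a, haB⟩ ha j i, ?_⟩
    have e1 : τ a = φ ⟨a, haB⟩ := hτ ⟨a, haB⟩
    rw [hB, e1]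
    refine Finset.sum_congr rfl fun j _ => ?_
    change ((φ ⟨a, haB⟩ j i : FF k G.Y1 G.Y2) : K) • B j = _
    rw [hφ]

end

end Pool.Agent.H54R2.Ul
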